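import Mathlib

-- part Pool.Agent.Lib.MP_9721b5_an.Tri.Defs
section

/-!
Definitions for the proof of pointwise convergence of the triple averages.
-/

set_option autoImplicit false

open Finset ComplexConjugate

namespace Pool.Agent.Tri

/-- the circle -/
abbrev T := UnitAddCircle

/-- `e(t) = exp (2 π i t)` -/
noncomputable def e (t : T) : ℂ := ((AddCircle.toCircle t : Circle) : ℂ)

open Classical in
/-- number of elements of `S` with property `P`, as a real number -/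
noncomputable def cnt {α : Type*} (S : Finset α) (P : α → Prop) : ℝ := ((S.filter P).card : ℝ)

section Generic

variable {Γ : Type*} [AddCommGroup Γ]

/-- `S` is nearly invariant under the shift `t` -/
def Inv (S : Finset Γ) (t : Γ) (η : ℝ) : Prop := cnt S (fun w => w + t ∉ S) ≤ η * S.card

/-- a filtration by symmetric balls -/
structure Filt (Γ : Type*) [AddCommGroup Γ] where
  mem : ℝ → Γ → Prop
  zero : ∀ a, 0 ≤ a → mem a 0
  add : ∀ a b x y, mem a x → mem b y → mem (a + b) (x + y)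
  neg : ∀ a x, mem a x → mem a (-x)
  mono : ∀ a b x, a ≤ b → mem a x → mem b x

/-- a regular set between the balls of radius `1/2` and `1` -/
structure RegSet (F : Filt Γ) (s η : ℝ) (S : Finset Γ) : Prop where
  half : ∀ x, F.mem (1 / 2) x → x ∈ S
  one : ∀ x ∈ S, F.mem 1 x
  neg : ∀ x ∈ S, -x ∈ S
  ex : ∃ I O : Finset Γ, I ⊆ S ∧ S ⊆ O ∧ (∀ x ∈ I, ∀ b, F.mem s b → x + b ∈ S) ∧
    (∀ x ∈ S, ∀ b, F.mem s b → x + b ∈ O) ∧ (O.card : ℝ) ≤ (1 + η) * I.card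

/-- second difference -/
def d2 (φ : Γ → T) (y h k : Γ) : T := φ (y + h + k) - φ (y + h) - φ (y + k) + φ y

/-- third difference -/
def d3 (φ : Γ → T) (y h₁ h₂ h₃ : Γ) : T := d2 φ (y + h₃) h₁ h₂ - d2 φ y h₁ h₂

/-- `φ` is quadratic near `y`, for increments in `B` -/
def Quad (B : Γ → Prop) (φ : Γ → T) (y : Γ) : Prop :=
  ∀ u h₁ h₂ h₃, B u → B h₁ → B h₂ → B h₃ → d3 φ (y + u) h₁ h₂ h₃ = 0

/-- `φ` is quadratic on the set `X` -/
def QuadOn (X : Finset Γ) (φ : Γ → T) : Prop :=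
  ∀ u h₁ h₂ h₃, u ∈ X → u + h₁ ∈ X → u + h₂ ∈ X → u + h₃ ∈ X → d3 φ u h₁ h₂ h₃ = 0

end Generic

/-- Bohr condition on the integers -/
def InB (Θ : Finset T) (s : ℝ) (w : ℤ) : Prop := ∀ θ ∈ Θ, ‖w • θ‖ ≤ s

section Cyclic

variable {N : ℕ} [NeZero N]

/-- the pairing on `ZMod N` -/
noncomputable def pr (ξ x : ZMod N) : T := ZMod.toAddCircle (ξ * x)

/-- Fourier transform (normalised by the average) -/
noncomputable def ft (f : ZMod N → ℂ) (ξ : ZMod N) : ℂ := (N : ℂ)⁻¹ * ∑ x, f x * e (-pr ξ x)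

/-- Bohr condition in `ZMod N` -/
def InN (Θ : Finset (ZMod N)) (s : ℝ) (x : ZMod N) : Prop := ∀ θ ∈ Θ, ‖pr θ x‖ ≤ s

/-- the Bohr filtration of radius `r` -/
noncomputable def bohrF (Θ : Finset (ZMod N)) (r : ℝ) : Filt (ZMod N) where
  mem a x := InN Θ (a * |r|) x
  zero a ha θ _ := by simp only [pr, mul_zero, map_zero, norm_zero]; positivity
  add a b x y hx hy θ hθ := by
    have : pr θ (x + y) = pr θ x + pr θ y := by simp only [pr, mul_add, map_add]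
    rw [this, add_mul]
    exact (norm_add_le _ _).trans (add_le_add (hx θ hθ) (hy θ hθ))
  neg a x hx θ hθ := by
    have : pr θ (-x) = -pr θ x := by simp only [pr, mul_neg, map_neg]
    rw [this, norm_neg]; exact hx θ hθ
  mono a b x hab hx θ hθ := (hx θ hθ).trans (mul_le_mul_of_nonneg_right hab (abs_nonneg r))

/-- multiplicative derivative -/
noncomputable def dd (f : ZMod N → ℂ) (h y : ZMod N) : ℂ := f (y + h) * conj (f y)

/-- ambiguity function -/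
noncomputable def mm (f : ZMod N → ℂ) (h ξ : ZMod N) : ℝ := ‖ft (dd f h) ξ‖ ^ 2

/-- additive on a Bohr set -/
def AddOn (Θ : Finset (ZMod N)) (r : ℝ) (L : ZMod N → ZMod N) : Prop :=
  ∀ u v, InN Θ r u → InN Θ r v → L (u + v) = L u + L v

/-- on `R` the function `ξ` is locally affine with linear part `L` -/
def GraphOn (R Θ : Finset (ZMod N)) (r : ℝ) (ξ L : ZMod N → ZMod N) : Prop :=
  ∀ h ∈ R, ∀ h' ∈ R, InN Θ r (h' - h) → ξ h' - ξ h = L (h' - h)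

/-- approximately symmetric -/
def SymOn (Θ : Finset (ZMod N)) (r s : ℝ) (L : ZMod N → ZMod N) : Prop :=
  ∀ u t, InN Θ r u → InN Θ r t → ‖pr (L u) t - pr (L t) u‖ ≤ s

/-- integer combination of a family of maps -/
def comb {d : ℕ} (L : Fin d → ZMod N → ZMod N) (a : Fin d → ℤ) (v : ZMod N) : ZMod N :=
  ∑ j, a j • L j v

/-- the local quadratic phase attached to a combination -/
noncomputable def Qa {d : ℕ} (L : Fin d → ZMod N → ZMod N) (a : Fin d → ℤ) (u : ZMod N) : T :=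
  pr (comb L a (u * (2 : ZMod N)⁻¹)) u

end Cyclic

/-- sign vectors -/
def cube (d : ℕ) : Finset (Fin d → ℤ) := Fintype.piFinset fun _ => ({-1, 0, 1} : Finset ℤ)

/-- a family of locally affine graphs carrying the mass of the ambiguity function -/
structure FamOK {N : ℕ} [NeZero N] {d : ℕ} (f : ZMod N → ℂ) (R : Finset (ZMod N))
    (ξ L : Fin d → ZMod N → ZMod N) (Θ : Finset (ZMod N)) (r γ₁ : ℝ) : Prop where
  add : ∀ j, AddOn Θ r (L j)
  graph : ∀ j, GraphOn R Θ r (ξ j) (L j)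
  mass : ∀ h ∈ R, γ₁ ≤ ∑ η ∈ (cube d).image (fun a => comb ξ a h), mm f h η

/-- output of the rank regularisation loop -/
structure LoopOut {N : ℕ} [NeZero N] {d : ℕ} (R : Finset (ZMod N))
    (ξ L : Fin d → ZMod N → ZMod N) (Θ : Finset (ZMod N)) (r p₁ P : ℝ) where
  V : Finset (ZMod N)
  W : Finset (ZMod N)
  ΘW : Finset (ZMod N)
  rW : ℝ
  sW : ℝ
  h0 : ZMod N
  ξ0 : Fin d → ZMod N
  A : Finset (Fin d → ℤ)
  card_le : (ΘW.card : ℝ) ≤ P
  rW_pos : 0 < rW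
  sW_pos : 0 < sW
  sW_le : sW ≤ 1 / 2
  rad : Real.exp (-P) ≤ rW * sW
  rW_le : rW ≤ Real.exp (-p₁ ^ 5)
  regW : RegSet (bohrF ΘW rW) sW (Real.exp (-p₁ ^ 5)) W
  domV : ∀ u ∈ V, InN Θ (r / 100) u ∧ InN Θ (r / 100) (u * (2 : ZMod N)⁻¹)
  domW : ∀ u, InN ΘW rW u → InN Θ (r / 100) u ∧ InN Θ (r / 100) (u * (2 : ZMod N)⁻¹)
  V_ne : V.Nonempty
  dens : Real.exp (-p₁) * V.card ≤ cnt V (fun v => h0 + v ∈ R)
  aff : ∀ v ∈ V, h0 + v ∈ R → ∀ j, ξ j (h0 + v) = ξ0 j + L j v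
  sumVW : ∃ O : Finset (ZMod N), (O.card : ℝ) ≤ 2 * V.card ∧ ∀ v ∈ V, ∀ w ∈ W, v + w ∈ O
  ξ0_mem : ∀ j, ξ0 j ∈ ΘW
  A_sub : A ⊆ cube d
  rep : ∀ a' ∈ cube d, ∃ a ∈ A, ∀ v ∈ V, ∀ w ∈ W, ‖pr (comb L (a' - a) v) w‖ ≤ 1 / 100
  unb : ∀ a ∈ A, ∀ a' ∈ A, a ≠ a' → ∀ η : ZMod N,
    ‖∑ w ∈ W, e (Qa L (a - a') w + pr η w)‖ ≤ Real.exp (-2 * p₁ ^ 3) * W.card

section Tree

/-- `N` belongs to level `k` -/
def lev (k N : ℕ) : Prop := 2 ^ k < 32 * N ∧ 16 * N ≤ 2 ^ k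

/-- dyadic node -/
def node (k j : ℕ) : Finset ℕ := Ico (j * 2 ^ k) ((j + 1) * 2 ^ k)

/-- the window of `x` at level `k` stays in the node of `x` -/
def adm (k x : ℕ) : Prop := 16 * (x % 2 ^ k) < 13 * 2 ^ k

/-- total mass of a family of nodes inside a root -/
noncomputable def mass (D j : ℕ) (Chk : ℕ → ℕ → Prop) : ℝ :=
  ∑ x ∈ node D j, cnt (range (D + 1)) fun k => Chk k (x / 2 ^ k)

/-- no checkpoint on the path of `x` between two levels -/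
def NoChk (Chk : ℕ → ℕ → Prop) (x k' k : ℕ) : Prop :=
  ∀ m, k' ≤ m → m ≤ k → ¬ Chk m (x / 2 ^ m)

/-- the relation `R x k' k` holds off an exceptional set between checkpoints -/
def Ctl (R : ℕ → ℕ → ℕ → Prop) (D j kb : ℕ) (E K : ℝ) : Prop :=
  ∃ (Exc : ℕ → Prop) (Chk : ℕ → ℕ → Prop), cnt (node D j) Exc ≤ E ∧ mass D j Chk ≤ K ∧
    ∀ x ∈ node D j, ¬ Exc x → ∀ k' k, kb ≤ k' → k' ≤ k → k ≤ D → NoChk Chk x k' k → R x k' k

/-- first stopping node -/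
def First (St : ℕ → ℕ → Prop) (D j kb k i : ℕ) : Prop :=
  kb ≤ k ∧ k ≤ D ∧ i / 2 ^ (D - k) = j ∧ St k i ∧
    ∀ m, k < m → m ≤ D → ¬ St m (i / 2 ^ (m - k))

/-- values at the two levels are close -/
def Near (a : ℕ → ℕ → ℂ) (γ : ℝ) (x k' k : ℕ) : Prop :=
  ∀ N' N, lev k' N' → lev k N → ‖a x N - a x N'‖ ≤ γ

/-- the triple average of real sequences -/
noncomputable def Av (f g h : ℕ → ℝ) (x N : ℕ) : ℝ :=
  (N : ℝ)⁻¹ * ∑ n ∈ Icc 1 N, f (x + n) * g (x + 2 * n) * h (x + 3 * n)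

/-- values of the real average at the two levels are close -/
def NearR (f g h : ℕ → ℝ) (γ : ℝ) (x k' k : ℕ) : Prop :=
  ∀ N' N, lev k' N' → lev k N → |Av f g h x N - Av f g h x N'| ≤ γ

/-- bounded by one -/
def Bdd (f : ℕ → ℝ) : Prop := ∀ n, |f n| ≤ 1

/-- total phase at the pair `(x, n)` -/
def Φ (φ : Fin 3 → ℤ → T) (x n : ℤ) : T := φ 0 (x + n) + φ 1 (x + 2 * n) + φ 2 (x + 3 * n)

/-- the triple average of three phases -/
noncomputable def Ph (φ : Fin 3 → ℤ → T) (x N : ℕ) : ℂ :=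
  (N : ℂ)⁻¹ * ∑ n ∈ Icc (1 : ℤ) N, e (Φ φ x n)

/-- projection on `[-1, 1]` -/
noncomputable def clip (s : ℝ) : ℝ := max (-1) (min 1 s)

end Tree

end Pool.Agent.Tri
end

-- part Pool.Agent.Lib.MP_9721b5_an.Tri.Basic0
section

/-!
Basic lemmas: the exponential, counting, the pairing, Bohr conditions.
-/

set_option autoImplicit false

open Finset ComplexConjugate

namespace Pool.Agent.Tri

/-- every point of the circle has a real lift realising its norm -/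
lemma exists_lift (t : T) : ∃ x : ℝ, (x : T) = t ∧ ‖(x : T)‖ = |x| := by
  obtain ⟨y, rfl⟩ := QuotientAddGroup.mk_surjective t
  have h : ((y - round y : ℝ) : T) = (y : T) := by
    rw [AddCircle.coe_sub, sub_eq_self, AddCircle.coe_eq_zero_iff]
    exact ⟨round y, by simp⟩
  exact ⟨y - round y, h, by rw [h, UnitAddCircle.norm_eq]⟩

lemma norm_coe_le (x : ℝ) : ‖(x : T)‖ ≤ |x| := by
  rw [UnitAddCircle.norm_eq]
  simpa using round_le x 0

lemma e_coe (x : ℝ) : e (x : T) = Complex.exp (((2 * Real.pi * x : ℝ) : ℂ) * Complex.I) := by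
  rw [e, AddCircle.toCircle_apply_mk, Circle.coe_exp, div_one]

lemma norm_e_coe_sub_one (x : ℝ) : ‖e (x : T) - 1‖ = 2 * |Real.sin (Real.pi * x)| := by
  rw [e_coe, mul_comm, Complex.norm_exp_I_mul_ofReal_sub_one, Real.norm_eq_abs, abs_mul, abs_two]
  congr 3
  ring

lemma e_add (s t : T) : e (s + t) = e s * e t := by
  simp only [e, AddCircle.toCircle_add, Circle.coe_mul]

@[simp] lemma e_zero : e 0 = 1 := by simp only [e, AddCircle.toCircle_zero, Circle.coe_one]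

lemma e_neg (t : T) : e (-t) = conj (e t) := by
  simp only [e, AddCircle.toCircle_neg, Circle.coe_inv_eq_conj]

lemma e_sub (s t : T) : e (s - t) = e s * conj (e t) := by
  rw [sub_eq_add_neg, e_add, e_neg]

@[simp] lemma norm_e (t : T) : ‖e t‖ = 1 := Circle.norm_coe _

lemma e_mul_conj (t : T) : e t * conj (e t) = 1 := by rw [← e_sub, sub_self, e_zero]

lemma e_sum {α : Type*} (S : Finset α) (t : α → T) : e (∑ i ∈ S, t i) = ∏ i ∈ S, e (t i) := by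
  classical
  induction S using Finset.induction_on with
  | empty => simp
  | insert a S ha ih => rw [Finset.sum_insert ha, Finset.prod_insert ha, e_add, ih]

lemma norm_e_sub_one_le (t : T) : ‖e t - 1‖ ≤ 7 * ‖t‖ := by
  obtain ⟨x, rfl, hx⟩ := exists_lift t
  rw [norm_e_coe_sub_one, hx]
  have h1 : |Real.sin (Real.pi * x)| ≤ |Real.pi * x| := Real.abs_sin_le_abs
  rw [abs_mul, abs_of_pos Real.pi_pos] at h1
  have := Real.pi_lt_d2
  nlinarith [abs_nonneg x]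

lemma four_mul_norm_le (t : T) : 4 * ‖t‖ ≤ ‖e t - 1‖ := by
  obtain ⟨x, rfl, hx⟩ := exists_lift t
  have h2 : |x| ≤ 1 / 2 := by
    rw [← hx, UnitAddCircle.norm_eq]
    exact abs_sub_round x
  rw [norm_e_coe_sub_one, hx]
  have h1 := Real.mul_abs_le_abs_sin (x := Real.pi * x) (by
    rw [abs_mul, abs_of_pos Real.pi_pos]
    nlinarith [Real.pi_pos])
  rw [abs_mul, abs_of_pos Real.pi_pos, ← mul_assoc, div_mul_cancel₀ _ Real.pi_ne_zero] at h1
  linarith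

lemma norm_e_sub_e (s t : T) : ‖e s - e t‖ ≤ 7 * ‖s - t‖ := by
  have : e s - e t = (e (s - t) - 1) * e t := by
    rw [sub_mul, ← e_add, sub_add_cancel, one_mul]
  rw [this, norm_mul, norm_e, mul_one]
  exact norm_e_sub_one_le _

lemma norm_T_le (t : T) : ‖t‖ ≤ 1 / 2 := by
  obtain ⟨x, rfl⟩ := QuotientAddGroup.mk_surjective t
  rw [UnitAddCircle.norm_eq]
  exact abs_sub_round x

/-- every complex number is its norm times a phase -/
lemma exists_phase (z : ℂ) : ∃ t : T, z * e t = (‖z‖ : ℂ) := by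
  refine ⟨((-Complex.arg z / (2 * Real.pi) : ℝ) : T), ?_⟩
  rw [e_coe]
  have h : ((2 * Real.pi * (-Complex.arg z / (2 * Real.pi)) : ℝ) : ℂ) = -(Complex.arg z : ℂ) := by
    rw [mul_div_cancel₀ _ (by positivity), Complex.ofReal_neg]
  rw [h]
  nth_rewrite 1 [← Complex.norm_mul_exp_arg_mul_I z]
  rw [mul_assoc, ← Complex.exp_add]
  simp

/-- the circle is divisible -/
lemma exists_div (t : T) {m : ℤ} (hm : m ≠ 0) : ∃ s : T, m • s = t := by
  obtain ⟨x, rfl⟩ := QuotientAddGroup.mk_surjective t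
  refine ⟨((x / m : ℝ) : T), ?_⟩
  rw [← AddCircle.coe_zsmul, zsmul_eq_mul, mul_div_cancel₀ _ (Int.cast_ne_zero.2 hm)]

lemma norm_zsmul_T (m : ℤ) (t : T) : ‖m • t‖ ≤ |(m : ℝ)| * ‖t‖ := by
  simpa only [Int.norm_eq_abs] using norm_zsmul_le m t

/-- if many multiples are small then the element is very small -/
lemma scale {x : T} {a : ℝ} {m : ℕ} (hm : 0 < m) (ha : a < 1 / 3)
    (h : ∀ i : ℕ, 1 ≤ i → i ≤ m → ‖(i : ℤ) • x‖ ≤ a) : ‖x‖ ≤ a / m := by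
  obtain ⟨y, rfl, hy⟩ := exists_lift x
  have h1 : |y| ≤ a := by simpa [hy] using h 1 le_rfl hm
  have key : ∀ i : ℕ, i ≤ m → |(i : ℝ) * y| ≤ a := by
    intro i
    induction i with
    | zero => intro _; simpa using (abs_nonneg y).trans h1
    | succ i ih =>
      intro hi
      have h2 := ih (by omega)
      have h3 := h (i + 1) (by omega) hi
      rw [← AddCircle.coe_zsmul, zsmul_eq_mul, UnitAddCircle.norm_eq, Int.cast_natCast] at h3
      have h4 : |((i + 1 : ℕ) : ℝ) * y| ≤ 2 * a := by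
        rw [Nat.cast_succ, add_mul, one_mul]
        exact (abs_add_le _ _).trans (by linarith)
      generalize ((i + 1 : ℕ) : ℝ) * y = z at h3 h4 ⊢
      have h5 : |((round z : ℤ) : ℝ)| < 1 := by
        have := abs_sub_abs_le_abs_sub ((round z : ℤ) : ℝ) z
        rw [abs_sub_comm] at this
        linarith
      have h6 : round z = 0 := by
        rw [← Int.cast_abs, ← Int.cast_one, Int.cast_lt] at h5
        exact Int.abs_lt_one_iff.1 h5
      simpa [h6] using h3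
  have h7 := key m le_rfl
  have hm' : (0 : ℝ) < m := Nat.cast_pos.2 hm
  rw [abs_mul, abs_of_pos hm'] at h7
  rw [hy, le_div_iff₀ hm']
  linarith

section cnt

variable {α β : Type*}

open Classical in
lemma cnt_eq_sum' (S : Finset α) (P : α → Prop) :
    cnt S P = ∑ x ∈ S, if P x then (1 : ℝ) else 0 := by
  rw [cnt, Finset.card_filter]
  push_cast
  rfl

lemma cnt_nonneg (S : Finset α) (P : α → Prop) : 0 ≤ cnt S P := Nat.cast_nonneg _

lemma cnt_le_card (S : Finset α) (P : α → Prop) : cnt S P ≤ S.card := by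
  classical
  exact Nat.cast_le.2 (Finset.card_filter_le _ _)

lemma cnt_mono {S : Finset α} {P Q : α → Prop} (h : ∀ x ∈ S, P x → Q x) : cnt S P ≤ cnt S Q := by
  classical
  unfold cnt
  exact Nat.cast_le.2 (Finset.card_le_card fun x hx =>
    Finset.mem_filter.2 ⟨(Finset.mem_filter.1 hx).1, h x (Finset.mem_filter.1 hx).1
      (Finset.mem_filter.1 hx).2⟩)

lemma cnt_congr {S : Finset α} {P Q : α → Prop} (h : ∀ x ∈ S, P x ↔ Q x) : cnt S P = cnt S Q :=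
  le_antisymm (cnt_mono fun x hx => (h x hx).1) (cnt_mono fun x hx => (h x hx).2)

lemma cnt_subset {S S' : Finset α} (h : S ⊆ S') (P : α → Prop) : cnt S P ≤ cnt S' P := by
  classical
  unfold cnt
  exact Nat.cast_le.2 (Finset.card_le_card (Finset.filter_subset_filter _ h))

lemma cnt_or_le (S : Finset α) (P Q : α → Prop) :
    cnt S (fun x => P x ∨ Q x) ≤ cnt S P + cnt S Q := by
  classical
  simp only [cnt_eq_sum', ← Finset.sum_add_distrib]
  refine Finset.sum_le_sum fun x _ => ?_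
  by_cases h1 : P x <;> by_cases h2 : Q x <;> simp [h1, h2]

lemma cnt_add_not (S : Finset α) (P : α → Prop) :
    cnt S P + cnt S (fun x => ¬ P x) = S.card := by
  classical
  simp only [cnt_eq_sum', ← Finset.sum_add_distrib]
  rw [Finset.card_eq_sum_ones, Nat.cast_sum]
  refine Finset.sum_congr rfl fun x _ => ?_
  by_cases h1 : P x <;> simp [h1]

lemma cnt_exists_le (S : Finset α) (I : Finset β) (P : β → α → Prop) :
    cnt S (fun x => ∃ i ∈ I, P i x) ≤ ∑ i ∈ I, cnt S (P i) := by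
  classical
  simp only [cnt_eq_sum']
  rw [Finset.sum_comm]
  refine Finset.sum_le_sum fun x _ => ?_
  split_ifs with h
  · obtain ⟨i, hi, h⟩ := h
    have := Finset.single_le_sum (f := fun i => if P i x then (1 : ℝ) else 0)
      (fun j _ => by split_ifs <;> norm_num) hi
    simpa [h] using this
  · exact Finset.sum_nonneg fun j _ => by split_ifs <;> norm_num

open Classical in
lemma cnt_eq_sum (S : Finset α) (P : α → Prop) :
    cnt S P = ∑ x ∈ S, if P x then (1 : ℝ) else 0 := cnt_eq_sum' S P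

lemma cnt_eq_card (S : Finset α) (P : α → Prop) [DecidablePred P] :
    cnt S P = (S.filter P).card := by
  unfold cnt
  rw [Finset.filter_congr_decidable]

lemma cnt_pos_iff (S : Finset α) (P : α → Prop) : 0 < cnt S P ↔ ∃ x ∈ S, P x := by
  classical
  unfold cnt
  rw [Nat.cast_pos, Finset.card_pos, Finset.filter_nonempty_iff]

lemma cnt_le_of_inj {S : Finset α} {S' : Finset β} {P : α → Prop} {Q : β → Prop} (f : α → β)
    (hf : ∀ x ∈ S, P x → f x ∈ S' ∧ Q (f x))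
    (hinj : ∀ x ∈ S, ∀ y ∈ S, P x → P y → f x = f y → x = y) : cnt S P ≤ cnt S' Q := by
  classical
  unfold cnt
  refine Nat.cast_le.2 (Finset.card_le_card_of_injOn f (fun x hx => ?_) fun x hx y hy h => ?_)
  · have hx := Finset.mem_filter.1 (Finset.mem_coe.1 hx)
    exact Finset.mem_coe.2 (Finset.mem_filter.2 (hf x hx.1 hx.2))
  · have hx := Finset.mem_filter.1 (Finset.mem_coe.1 hx)
    have hy := Finset.mem_filter.1 (Finset.mem_coe.1 hy)
    exact hinj x hx.1 y hy.1 hx.2 hy.2 h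

lemma cnt_product (S : Finset α) (S' : Finset β) (P : α × β → Prop) :
    cnt (S ×ˢ S') P = ∑ x ∈ S, cnt S' (fun y => P (x, y)) := by
  simp only [cnt_eq_sum']
  rw [Finset.sum_product]

/-- Markov inequality -/
lemma cnt_markov (S : Finset α) (w : α → ℝ) (hw : ∀ x ∈ S, 0 ≤ w x) {a : ℝ} (ha : 0 < a) :
    cnt S (fun x => a ≤ w x) ≤ (∑ x ∈ S, w x) / a := by
  rw [cnt_eq_sum', Finset.sum_div]
  refine Finset.sum_le_sum fun x hx => ?_
  split_ifs with h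
  · rwa [le_div_iff₀ ha, one_mul]
  · exact div_nonneg (hw x hx) ha.le

/-- reverse Markov inequality -/
lemma cnt_rev_markov (S : Finset α) (w : α → ℝ) {a b : ℝ} (hb : 0 < b) (hw : ∀ x ∈ S, w x ≤ b)
    (ha : 0 ≤ a) : (∑ x ∈ S, w x - a * S.card) / b ≤ cnt S (fun x => a ≤ w x) := by
  rw [cnt_eq_sum', div_le_iff₀ hb, Finset.sum_mul, Finset.card_eq_sum_ones, Nat.cast_sum,
    Finset.mul_sum, ← Finset.sum_sub_distrib]
  refine Finset.sum_le_sum fun x hx => ?_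
  have := hw x hx
  split_ifs with h
  · simp only [Nat.cast_one]
    linarith
  · simp only [Nat.cast_one]
    linarith [not_le.1 h]

end cnt

section Cyclic

variable {N : ℕ} [NeZero N]

lemma pr_comm (ξ x : ZMod N) : pr ξ x = pr x ξ := by rw [pr, pr, mul_comm]

lemma pr_add_left (ξ ξ' x : ZMod N) : pr (ξ + ξ') x = pr ξ x + pr ξ' x := by
  simp only [pr, add_mul, map_add]

lemma pr_add_right (ξ x y : ZMod N) : pr ξ (x + y) = pr ξ x + pr ξ y := by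
  simp only [pr, mul_add, map_add]

lemma pr_neg_left (ξ x : ZMod N) : pr (-ξ) x = -pr ξ x := by simp only [pr, neg_mul, map_neg]

lemma pr_neg_right (ξ x : ZMod N) : pr ξ (-x) = -pr ξ x := by simp only [pr, mul_neg, map_neg]

lemma pr_sub_left (ξ ξ' x : ZMod N) : pr (ξ - ξ') x = pr ξ x - pr ξ' x := by
  simp only [pr, sub_mul, map_sub]

lemma pr_sub_right (ξ x y : ZMod N) : pr ξ (x - y) = pr ξ x - pr ξ y := by
  simp only [pr, mul_sub, map_sub]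

@[simp] lemma pr_zero_left (x : ZMod N) : pr 0 x = 0 := by simp only [pr, zero_mul, map_zero]

@[simp] lemma pr_zero_right (ξ : ZMod N) : pr ξ 0 = 0 := by simp only [pr, mul_zero, map_zero]

lemma pr_mul (ξ a x : ZMod N) : pr (ξ * a) x = pr ξ (a * x) := by rw [pr, pr, mul_assoc]

lemma pr_zsmul_left (m : ℤ) (ξ x : ZMod N) : pr (m • ξ) x = m • pr ξ x := by
  rw [pr, pr, smul_mul_assoc, map_zsmul]

lemma pr_zsmul_right (m : ℤ) (ξ x : ZMod N) : pr ξ (m • x) = m • pr ξ x := by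
  rw [pr, pr, mul_smul_comm, map_zsmul]

lemma pr_intCast (ξ : ZMod N) (w : ℤ) : pr ξ (w : ZMod N) = w • ZMod.toAddCircle ξ := by
  rw [pr, ← map_zsmul, zsmul_eq_mul, mul_comm]

/-- a small residue has a small integer representative -/
lemma exists_rep {x : ZMod N} {s : ℝ} (h : ‖pr 1 x‖ ≤ s) :
    ∃ w : ℤ, (w : ZMod N) = x ∧ |(w : ℝ)| ≤ s * N := by
  obtain ⟨v, rfl⟩ := ZMod.intCast_surjective x
  have hN : (0 : ℝ) < N := Nat.cast_pos.2 (Nat.pos_of_ne_zero (NeZero.ne N))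
  rw [pr, one_mul, ZMod.toAddCircle_intCast, UnitAddCircle.norm_eq] at h
  refine ⟨v - round ((v : ℝ) / N) * N, by simp, ?_⟩
  have : ((v - round ((v : ℝ) / N) * N : ℤ) : ℝ) = ((v : ℝ) / N - round ((v : ℝ) / N)) * N := by
    push_cast
    field_simp
  rw [this, abs_mul, abs_of_pos hN]
  exact mul_le_mul_of_nonneg_right h hN.le

lemma norm_pr_one_intCast (w : ℤ) : ‖pr 1 (w : ZMod N)‖ ≤ |(w : ℝ)| / N := by
  have hN : (0 : ℝ) < N := Nat.cast_pos.2 (Nat.pos_of_ne_zero (NeZero.ne N))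
  rw [pr, one_mul, ZMod.toAddCircle_intCast]
  refine (norm_coe_le _).trans ?_
  rw [abs_div, abs_of_pos hN]

lemma InN.zero (Θ : Finset (ZMod N)) {s : ℝ} (hs : 0 ≤ s) : InN Θ s 0 := fun θ _ => by
  rwa [pr_zero_right, norm_zero]

lemma InN.add {Θ : Finset (ZMod N)} {s t : ℝ} {x y : ZMod N} (hx : InN Θ s x) (hy : InN Θ t y) :
    InN Θ (s + t) (x + y) := fun θ hθ => by
  rw [pr_add_right]
  exact (norm_add_le _ _).trans (add_le_add (hx θ hθ) (hy θ hθ))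

lemma InN.sub {Θ : Finset (ZMod N)} {s t : ℝ} {x y : ZMod N} (hx : InN Θ s x) (hy : InN Θ t y) :
    InN Θ (s + t) (x - y) := fun θ hθ => by
  rw [pr_sub_right]
  exact (norm_sub_le _ _).trans (add_le_add (hx θ hθ) (hy θ hθ))

lemma InN.neg {Θ : Finset (ZMod N)} {s : ℝ} {x : ZMod N} (hx : InN Θ s x) : InN Θ s (-x) :=
  fun θ hθ => by
    rw [pr_neg_right, norm_neg]
    exact hx θ hθ

lemma InN.mono {Θ Θ' : Finset (ZMod N)} {s s' : ℝ} {x : ZMod N} (hx : InN Θ s x) (hΘ : Θ' ⊆ Θ)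
    (hs : s ≤ s') : InN Θ' s' x := fun θ hθ => (hx θ (hΘ hθ)).trans hs

lemma InN.zsmul {Θ : Finset (ZMod N)} {s : ℝ} {x : ZMod N} (hx : InN Θ s x) (m : ℤ) :
    InN Θ (|(m : ℝ)| * s) (m • x) := fun θ hθ => by
  rw [pr_zsmul_right]
  exact (norm_zsmul_T _ _).trans (mul_le_mul_of_nonneg_left (hx θ hθ) (abs_nonneg _))

lemma bohrF_mem {Θ : Finset (ZMod N)} {r : ℝ} (hr : 0 ≤ r) (a : ℝ) (x : ZMod N) :
    (bohrF Θ r).mem a x ↔ InN Θ (a * r) x := by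
  change InN Θ (a * |r|) x ↔ _
  rw [abs_of_nonneg hr]

end Cyclic

lemma InB.zero (Θ : Finset T) {s : ℝ} (hs : 0 ≤ s) : InB Θ s 0 := fun θ _ => by
  rwa [zero_smul, norm_zero]

lemma InB.add {Θ : Finset T} {s t : ℝ} {x y : ℤ} (hx : InB Θ s x) (hy : InB Θ t y) :
    InB Θ (s + t) (x + y) := fun θ hθ => by
  rw [add_smul]
  exact (norm_add_le _ _).trans (add_le_add (hx θ hθ) (hy θ hθ))

lemma InB.sub {Θ : Finset T} {s t : ℝ} {x y : ℤ} (hx : InB Θ s x) (hy : InB Θ t y) :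
    InB Θ (s + t) (x - y) := fun θ hθ => by
  rw [sub_smul]
  exact (norm_sub_le _ _).trans (add_le_add (hx θ hθ) (hy θ hθ))

lemma InB.neg {Θ : Finset T} {s : ℝ} {x : ℤ} (hx : InB Θ s x) : InB Θ s (-x) := fun θ hθ => by
  rw [neg_smul, norm_neg]
  exact hx θ hθ

lemma InB.mono {Θ Θ' : Finset T} {s s' : ℝ} {x : ℤ} (hx : InB Θ s x) (hΘ : Θ' ⊆ Θ)
    (hs : s ≤ s') : InB Θ' s' x := fun θ hθ => (hx θ (hΘ hθ)).trans hs

lemma InB.mul {Θ : Finset T} {s : ℝ} {x : ℤ} (hx : InB Θ s x) (m : ℤ) :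
    InB Θ (|(m : ℝ)| * s) (m * x) := fun θ hθ => by
  rw [mul_smul]
  exact (norm_zsmul_T _ _).trans (mul_le_mul_of_nonneg_left (hx θ hθ) (abs_nonneg _))

end Pool.Agent.Tri
end

-- part Pool.Agent.Lib.MP_9721b5_an.Tri.Basic
section

/-!
Basic lemmas: near invariance, regular sets, grids.
-/

set_option autoImplicit false

open Finset ComplexConjugate

namespace Pool.Agent.Tri

section Circle

lemma Basic.norm_coe_le_sub (x : ℝ) (k : ℤ) : ‖(x : T)‖ ≤ |x - k| := by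
  rw [UnitAddCircle.norm_eq]; exact round_le x k

/-- a real lift of minimal absolute value -/
lemma Basic.lift (t : T) : ∃ y : ℝ, (y : T) = t ∧ |y| = ‖t‖ := by
  obtain ⟨x, rfl⟩ := QuotientAddGroup.mk_surjective t
  refine ⟨x - round x, ?_, ?_⟩
  · have : (((round x : ℤ) : ℝ) : T) = 0 := by
      rw [AddCircle.coe_eq_zero_iff]; exact ⟨round x, by simp⟩
    rw [AddCircle.coe_sub, this, sub_zero]
  · exact UnitAddCircle.norm_eq.symm

lemma Basic.coe_zsmul_T (m : ℤ) (x : ℝ) : m • (x : T) = (((m : ℝ) * x : ℝ) : T) := by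
  rw [← AddCircle.coe_zsmul, zsmul_eq_mul]

end Circle

section Generic

variable {Γ : Type*} [AddCommGroup Γ]

/-- shifting a count -/
lemma Basic.cnt_shift (S : Finset Γ) (t : Γ) (P : Γ → Prop) :
    cnt S (fun w => w + t ∈ S ∧ P (w + t)) = cnt S (fun w => w + -t ∈ S ∧ P w) := by
  apply le_antisymm
  · refine cnt_le_of_inj (fun w => w + t) (fun x hx h => ⟨h.1, by simpa using hx, h.2⟩) ?_
    intro x _ y _ _ _ h
    exact add_right_cancel h
  · refine cnt_le_of_inj (fun w => w + -t) (fun x hx h => ⟨h.1, by simpa using hx, by simpa using h.2⟩) ?_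
    intro x _ y _ _ _ h
    exact add_right_cancel h

lemma Basic.cnt_out_neg (S : Finset Γ) (t : Γ) :
    cnt S (fun w => w + -t ∉ S) = cnt S (fun w => w + t ∉ S) := by
  have h1 := cnt_add_not S (fun w => w + t ∈ S)
  have h2 := cnt_add_not S (fun w => w + -t ∈ S)
  have h3 := Basic.cnt_shift S t (fun _ => True)
  simp only [and_true] at h3
  linarith

lemma Inv.neg {S : Finset Γ} {t : Γ} {η : ℝ} (h : Inv S t η) : Inv S (-t) η := by
  unfold Inv at *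
  rw [Basic.cnt_out_neg]; exact h

lemma Inv.mono {S : Finset Γ} {t : Γ} {η η' : ℝ} (h : Inv S t η) (hη : η ≤ η') : Inv S t η' :=
  le_trans h (mul_le_mul_of_nonneg_right hη (Nat.cast_nonneg _))

lemma Basic.inv_nonneg {S : Finset Γ} {t : Γ} {η : ℝ} (h : Inv S t η) (hS : S.Nonempty) : 0 ≤ η := by
  have h1 := (cnt_nonneg S _).trans h
  have h2 : (0 : ℝ) < S.card := by exact_mod_cast hS.card_pos
  exact nonneg_of_mul_nonneg_left h1 h2

lemma Basic.norm_sum_le_cnt {α : Type*} (S : Finset α) (P : α → Prop) [DecidablePred P] {F : α → ℂ}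
    (hF : ∀ w, ‖F w‖ ≤ 1) : ‖∑ w ∈ S.filter P, F w‖ ≤ cnt S P := by
  rw [cnt_eq_card]
  calc ‖∑ w ∈ S.filter P, F w‖ ≤ ∑ w ∈ S.filter P, ‖F w‖ := norm_sum_le _ _
    _ ≤ ∑ _w ∈ S.filter P, (1 : ℝ) := sum_le_sum fun w _ => hF w
    _ = _ := by simp

lemma Inv.sum_sub {S : Finset Γ} {t : Γ} {η : ℝ} (h : Inv S t η) {F : Γ → ℂ}
    (hF : ∀ w, ‖F w‖ ≤ 1) : ‖∑ w ∈ S, F (w + t) - ∑ w ∈ S, F w‖ ≤ 2 * η * S.card := by
  classical
  have key : ∑ w ∈ S.filter (fun w => w + t ∈ S), F (w + t) =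
      ∑ w ∈ S.filter (fun w => w + -t ∈ S), F w := by
    refine sum_bij' (fun w _ => w + t) (fun w _ => w + -t) ?_ ?_ ?_ ?_ ?_
    · intro a ha
      rw [mem_filter] at ha ⊢
      exact ⟨ha.2, by simpa using ha.1⟩
    · intro a ha
      rw [mem_filter] at ha ⊢
      exact ⟨ha.2, by simpa using ha.1⟩
    · intro a _; simp
    · intro a _; simp
    · intro a _; rfl
  rw [← sum_filter_add_sum_filter_not S (fun w => w + t ∈ S),
    ← sum_filter_add_sum_filter_not S (fun w => w + -t ∈ S) F, key, add_sub_add_left_eq_sub]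
  have h1 := Basic.norm_sum_le_cnt S (fun w => ¬ (w + t ∈ S)) (F := fun w => F (w + t)) fun w => hF _
  have h2 := Basic.norm_sum_le_cnt S (fun w => ¬ (w + -t ∈ S)) hF
  have h3 := h.neg
  unfold Inv at h h3
  refine (norm_sub_le _ _).trans ?_
  linarith

/-- a biased phase which is shifted by a constant under a near invariance -/
lemma Inv.phase {S : Finset Γ} {t : Γ} {η ε a : ℝ} (h : Inv S t η) (hS : S.Nonempty)
    {F : Γ → T} {c : T} (hF : ∀ w ∈ S, ‖F (w + t) - F w - c‖ ≤ ε) (ha : 0 < a)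
    (hb : a * S.card ≤ ‖∑ w ∈ S, e (F w)‖) : ‖c‖ ≤ (η + 2 * ε) / a := by
  have hη := Basic.inv_nonneg h hS
  have hε : 0 ≤ ε := by
    obtain ⟨w, hw⟩ := hS
    exact (norm_nonneg _).trans (hF w hw)
  have hc : (0 : ℝ) < S.card := by exact_mod_cast hS.card_pos
  have h1 := h.sum_sub (F := fun w => e (F w)) fun w => (norm_e _).le
  have h2 : ‖∑ w ∈ S, e (F (w + t)) - (∑ w ∈ S, e (F w)) * e c‖ ≤ 7 * ε * S.card := by
    rw [sum_mul, ← sum_sub_distrib]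
    calc _ ≤ ∑ w ∈ S, ‖e (F (w + t)) - e (F w) * e c‖ := norm_sum_le _ _
      _ ≤ ∑ _w ∈ S, 7 * ε := by
          refine sum_le_sum fun w hw => ?_
          rw [← e_add]
          refine (norm_e_sub_e _ _).trans ?_
          rw [← sub_sub]
          linarith [hF w hw]
      _ = _ := by simp [mul_comm]
  have h3 : ‖(∑ w ∈ S, e (F w)) * (e c - 1)‖ ≤ 2 * η * S.card + 7 * ε * S.card := by
    have : (∑ w ∈ S, e (F w)) * (e c - 1) =
        (∑ w ∈ S, e (F (w + t)) - ∑ w ∈ S, e (F w)) -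
          (∑ w ∈ S, e (F (w + t)) - (∑ w ∈ S, e (F w)) * e c) := by ring
    rw [this]
    exact (norm_sub_le _ _).trans (add_le_add h1 h2)
  rw [norm_mul] at h3
  have h4 := four_mul_norm_le c
  have h5 : a * S.card * (4 * ‖c‖) ≤ 2 * η * S.card + 7 * ε * S.card :=
    (mul_le_mul hb h4 (by positivity) (norm_nonneg _)).trans h3
  have h6 : a * (4 * ‖c‖) ≤ 2 * η + 7 * ε := by
    refine le_of_mul_le_mul_right ?_ hc
    linarith
  rw [le_div_iff₀ ha]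
  linarith

/-- pairwise disjoint properties have total count at most the size -/
lemma Basic.sum_cnt_le {α β : Type*} (S : Finset α) (I : Finset β) (P : β → α → Prop)
    (hP : ∀ x ∈ S, ∀ i ∈ I, ∀ j ∈ I, P i x → P j x → i = j) :
    ∑ i ∈ I, cnt S (P i) ≤ S.card := by
  classical
  simp only [cnt_eq_sum]
  rw [sum_comm]
  calc _ ≤ ∑ _x ∈ S, (1 : ℝ) := by
        refine sum_le_sum fun x hx => ?_
        rw [← sum_filter, sum_const, nsmul_eq_mul, mul_one]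
        have : (I.filter fun i => P i x).card ≤ 1 := by
          rw [card_le_one]
          intro i hi j hj
          rw [mem_filter] at hi hj
          exact hP x hx i hi.1 j hj.1 hi.2 hj.2
        exact_mod_cast this
    _ = _ := by simp

/-- recurrence by pigeonhole -/
lemma recur {S : Finset Γ} (hS : S.Nonempty) {P : Γ → Prop} {δ η : ℝ} {J : ℕ} {b : Γ}
    (hδ : 0 < δ) (hP : δ * S.card ≤ cnt S P) (hJ : 2 / δ ≤ J) (hη : η ≤ δ / 2)
    (hb : ∀ j : ℕ, j ≤ J → Inv S ((j : ℤ) • b) η) :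
    ∃ j : ℕ, 1 ≤ j ∧ j ≤ J ∧ ∃ u ∈ S, P u ∧ u + (j : ℤ) • b ∈ S ∧ P (u + (j : ℤ) • b) := by
  by_contra hcon
  have hc : (0 : ℝ) < S.card := by exact_mod_cast hS.card_pos
  have key : ∀ w : Γ, ∀ i j : ℕ, i < j → j ≤ J → w + (i : ℤ) • b ∈ S ∧ P (w + (i : ℤ) • b) →
      w + (j : ℤ) • b ∈ S ∧ P (w + (j : ℤ) • b) → False := by
    intro w i j hij hj h1 h2
    have : w + (i : ℤ) • b + ((j - i : ℕ) : ℤ) • b = w + (j : ℤ) • b := by
      rw [add_assoc, ← add_smul, Nat.cast_sub hij.le]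
      congr 2; ring
    exact hcon ⟨j - i, by omega, by omega, _, h1.1, h1.2, this ▸ h2.1, this ▸ h2.2⟩
  have h1 := Basic.sum_cnt_le S (range (J + 1))
    (fun (j : ℕ) w => w + (j : ℤ) • b ∈ S ∧ P (w + (j : ℤ) • b)) (by
      intro x _ i hi j hj h1 h2
      rw [mem_range] at hi hj
      rcases lt_trichotomy i j with h | h | h
      · exact (key x i j h (by omega) h1 h2).elim
      · exact h
      · exact (key x j i h (by omega) h2 h1).elim)
  have h2 : ∀ j ∈ range (J + 1), δ / 2 * S.card ≤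
      cnt S (fun w => w + (j : ℤ) • b ∈ S ∧ P (w + (j : ℤ) • b)) := by
    intro j hj
    rw [mem_range] at hj
    rw [Basic.cnt_shift]
    have h3 := (hb j (by omega)).neg
    unfold Inv at h3
    have h4 : cnt S P ≤ cnt S (fun w => (w + -((j : ℤ) • b) ∈ S ∧ P w) ∨ w + -((j : ℤ) • b) ∉ S) :=
      cnt_mono fun x _ hx => by tauto
    have h5 := h4.trans (cnt_or_le _ _ _)
    nlinarith
  have h3 := (sum_le_sum h2).trans h1
  rw [sum_const, card_range, nsmul_eq_mul] at h3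
  rw [div_le_iff₀ hδ] at hJ
  push_cast at h3
  nlinarith

lemma RegSet.inv {F : Filt Γ} {s η : ℝ} {S : Finset Γ} (h : RegSet F s η S) {b : Γ}
    (hb : F.mem s b) : Inv S b η := by
  classical
  obtain ⟨I, O, hI, hO, h1, -, h3⟩ := h.ex
  have h4 : cnt S (fun w => w + b ∉ S) ≤ cnt S (fun w => w ∉ I) :=
    cnt_mono fun x _ hx hxI => hx (h1 x hxI b hb)
  have h5 := cnt_add_not S (fun w => w ∈ I)
  have h6 : cnt S (fun w => w ∈ I) = I.card := by
    rw [cnt_eq_card, filter_mem_eq_inter, inter_eq_right.2 hI]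
  have h7 : (S.card : ℝ) ≤ O.card := by exact_mod_cast card_le_card hO
  have h8 : (I.card : ℝ) ≤ S.card := by exact_mod_cast card_le_card hI
  have h9 : (0 : ℝ) < S.card := by
    exact_mod_cast card_pos.2 ⟨0, h.half 0 (F.zero _ (by norm_num))⟩
  have h10 : (0 : ℝ) ≤ I.card := Nat.cast_nonneg _
  have hη : 0 ≤ η := by
    by_contra hη
    push Not at hη
    rcases h10.eq_or_lt with h0 | h0
    · rw [← h0] at h3; linarith
    · nlinarith
  unfold Inv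
  nlinarith

lemma RegSet.zero_mem {F : Filt Γ} {s η : ℝ} {S : Finset Γ} (h : RegSet F s η S) : 0 ∈ S :=
  h.half 0 (F.zero _ (by norm_num))

lemma RegSet.mono {F : Filt Γ} {s s' η η' : ℝ} {S : Finset Γ} (h : RegSet F s η S) (hs : s' ≤ s)
    (hη : η ≤ η') : RegSet F s' η' S := by
  obtain ⟨I, O, hI, hO, h1, h2, h3⟩ := h.ex
  refine ⟨h.half, h.one, h.neg, I, O, hI, hO, fun x hx b hb => h1 x hx b (F.mono _ _ _ hs hb),
    fun x hx b hb => h2 x hx b (F.mono _ _ _ hs hb), h3.trans ?_⟩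
  exact mul_le_mul_of_nonneg_right (by linarith) (Nat.cast_nonneg _)

lemma Basic.exp_half_le {η : ℝ} (h0 : 0 ≤ η) (h1 : η ≤ 1) : Real.exp (η / 2) ≤ 1 + η := by
  have h2 := Real.add_one_le_exp (-(η / 2))
  have h3 : Real.exp (η / 2) * Real.exp (-(η / 2)) = 1 := by rw [← Real.exp_add]; simp
  have h4 := Real.exp_pos (η / 2)
  have h5 : Real.exp (η / 2) * (1 - η / 2) ≤ 1 := by nlinarith
  have h6 : 0 < 1 - η / 2 := by linarith
  refine le_of_mul_le_mul_right ?_ h6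
  nlinarith

/-- existence of regular sets from a doubling bound -/
lemma exists_regSet (F : Filt Γ) (X : Finset Γ) (hX : ∀ x, F.mem 1 x → x ∈ X) {K s η : ℝ}
    (hK : 0 ≤ K) (hd : cnt X (F.mem 1) ≤ Real.exp K * cnt X (F.mem (1 / 2))) (hs : 0 < s)
    (hη : η ≤ 1) (hsη : 16 * (K + 1) * s ≤ η) : ∃ S, RegSet F s η S := by
  classical
  have hη0 : 0 < η := lt_of_lt_of_le (by positivity) hsη
  set n := ⌊1 / (4 * s)⌋₊ with hn
  have hn1 : (n : ℝ) ≤ 1 / (4 * s) := Nat.floor_le (by positivity)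
  have hn2 : 1 / (4 * s) < n + 1 := Nat.lt_floor_add_one _
  rw [le_div_iff₀ (by positivity)] at hn1
  rw [div_lt_iff₀ (by positivity)] at hn2
  set c : ℕ → ℝ := fun j => cnt X (F.mem (1 / 2 + 2 * j * s)) with hc
  have hc0 : 0 < c 0 := by
    rw [hc, cnt_pos_iff]
    exact ⟨0, hX _ (F.zero _ zero_le_one), F.zero _ (by norm_num)⟩
  have hex : ∃ j < n, c (j + 1) ≤ (1 + η) * c j := by
    by_contra hcon
    push Not at hcon
    have h1 : ∀ j ≤ n, Real.exp (j * (η / 2)) * c 0 ≤ c j := by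
      intro j
      induction j with
      | zero => intro _; simp
      | succ j ih =>
        intro hj
        have h2 := ih (by omega)
        have h3 := hcon j (by omega)
        have h4 := Basic.exp_half_le hη0.le hη
        have h5 : Real.exp (((j + 1 : ℕ) : ℝ) * (η / 2)) =
            Real.exp (η / 2) * Real.exp (j * (η / 2)) := by
          rw [← Real.exp_add]; congr 1; push_cast; ring
        rw [h5, mul_assoc]
        exact (mul_le_mul h4 h2 (by positivity) (by positivity)).trans h3.le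
    have h2 := h1 n le_rfl
    have h3 : c n ≤ cnt X (F.mem 1) := cnt_mono fun x _ hx => F.mono _ _ _ (by linarith) hx
    have h4 : cnt X (F.mem (1 / 2)) = c 0 := by simp [hc]
    rw [h4] at hd
    have h5 : Real.exp (n * (η / 2)) ≤ Real.exp K := le_of_mul_le_mul_right (by linarith) hc0
    rw [Real.exp_le_exp] at h5
    have h6 : 16 * (K + 1) * s * (n + 1) ≤ η * (n + 1) :=
      mul_le_mul_of_nonneg_right hsη (by positivity)
    have h7 : 4 * (K + 1) * 1 ≤ 4 * (K + 1) * ((n + 1) * (4 * s)) :=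
      mul_le_mul_of_nonneg_left hn2.le (by positivity)
    nlinarith
  obtain ⟨j, hj, hcj⟩ := hex
  have hj' : (j : ℝ) + 1 ≤ n := by exact_mod_cast hj
  have hj0 : (0 : ℝ) ≤ j * s := by positivity
  have hle : 1 / 2 + 2 * ((j : ℝ) + 1) * s ≤ 1 := by nlinarith
  refine ⟨X.filter (F.mem (1 / 2 + 2 * j * s + s)), ?_, ?_, ?_,
    X.filter (F.mem (1 / 2 + 2 * j * s)), X.filter (F.mem (1 / 2 + 2 * ((j + 1 : ℕ) : ℝ) * s)),
    ?_, ?_, ?_, ?_, ?_⟩
  · intro x hx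
    exact mem_filter.2 ⟨hX x (F.mono _ _ _ (by norm_num) hx), F.mono _ _ _ (by linarith) hx⟩
  · intro x hx
    exact F.mono _ _ _ (by linarith) (mem_filter.1 hx).2
  · intro x hx
    have := F.neg _ _ (mem_filter.1 hx).2
    exact mem_filter.2 ⟨hX _ (F.mono _ _ _ (by linarith) this), this⟩
  · intro x hx
    exact mem_filter.2 ⟨(mem_filter.1 hx).1, F.mono _ _ _ (by linarith) (mem_filter.1 hx).2⟩
  · intro x hx
    exact mem_filter.2 ⟨(mem_filter.1 hx).1,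
      F.mono _ _ _ (by push_cast; linarith) (mem_filter.1 hx).2⟩
  · intro x hx b hb
    have := F.add _ _ _ _ (mem_filter.1 hx).2 hb
    exact mem_filter.2 ⟨hX _ (F.mono _ _ _ (by linarith) this), this⟩
  · intro x hx b hb
    have := F.add _ _ _ _ (mem_filter.1 hx).2 hb
    exact mem_filter.2 ⟨hX _ (F.mono _ _ _ (by linarith) this),
      F.mono _ _ _ (by push_cast; linarith) this⟩
  · rw [← cnt_eq_card, ← cnt_eq_card]; exact hcj

/-- cutting an arc around the origin into pieces -/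
lemma Basic.exists_cut {R r : ℝ} (hr : 0 < r) (hR : 0 ≤ R) :
    ∃ (m : ℕ) (k : T → Fin m), (m : ℝ) ≤ 2 * R / r + 1 ∧
      ∀ s t, ‖s‖ ≤ R → ‖t‖ ≤ R → k s = k t → ‖s - t‖ ≤ r := by
  choose y hy hy' using Basic.lift
  have h0 : 0 ≤ 2 * R / r := by positivity
  refine ⟨⌊2 * R / r⌋₊ + 1, fun t => ⟨min ⌊(y t + R) / r⌋₊ ⌊2 * R / r⌋₊, by omega⟩, ?_, ?_⟩
  · push_cast
    linarith [Nat.floor_le h0]
  · have key : ∀ t, ‖t‖ ≤ R → min ⌊(y t + R) / r⌋₊ ⌊2 * R / r⌋₊ = ⌊(y t + R) / r⌋₊ ∧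
        0 ≤ (y t + R) / r := by
      intro t ht
      rw [← hy', abs_le] at ht
      refine ⟨min_eq_left (Nat.floor_le_floor ?_), div_nonneg (by linarith) hr.le⟩
      exact div_le_div_of_nonneg_right (by linarith) hr.le
    intro s t hs ht hst
    have h1 : ⌊(y s + R) / r⌋₊ = ⌊(y t + R) / r⌋₊ := by
      rw [← (key s hs).1, ← (key t ht).1]
      exact congrArg Fin.val hst
    have h2 := Nat.floor_le (key s hs).2
    have h3 := Nat.floor_le (key t ht).2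
    have h4 := Nat.lt_floor_add_one ((y s + R) / r)
    have h5 := Nat.lt_floor_add_one ((y t + R) / r)
    rw [h1] at h2 h4
    rw [le_div_iff₀ hr] at h2 h3
    rw [div_lt_iff₀ hr] at h4 h5
    rw [← hy s, ← hy t, ← AddCircle.coe_sub]
    refine (norm_coe_le _).trans ?_
    rw [abs_le]
    constructor <;> nlinarith

/-- partition into pieces of small diameter -/
lemma ball_parts {ι : Type*} (Θ : Finset ι) (θ : ι → Γ →+ T) {R r : ℝ} (hr : 0 < r)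
    (hR : 0 ≤ R) : ∃ (M : ℕ) (lab : Γ → ℕ), (M : ℝ) ≤ (2 * R / r + 1) ^ Θ.card ∧
      (∀ x, lab x < M) ∧ ∀ x y, (∀ i ∈ Θ, ‖θ i x‖ ≤ R) → (∀ i ∈ Θ, ‖θ i y‖ ≤ R) →
        lab x = lab y → ∀ i ∈ Θ, ‖θ i (x - y)‖ ≤ r := by
  classical
  obtain ⟨m, k, hm, hk⟩ := Basic.exists_cut hr hR
  refine ⟨Fintype.card (Θ → Fin m),
    fun x => (Fintype.equivFin (Θ → Fin m) fun i => k (θ i x) : ℕ), ?_, fun x => Fin.is_lt _, ?_⟩
  · rw [Fintype.card_fun, Fintype.card_fin, Fintype.card_coe]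
    push_cast
    exact pow_le_pow_left₀ (Nat.cast_nonneg _) hm _
  · intro x y hx hy hxy i hi
    have h1 := (Fintype.equivFin (Θ → Fin m)).injective (Fin.ext hxy)
    rw [map_sub]
    exact hk _ _ (hx i hi) (hy i hi) (congrFun h1 ⟨i, hi⟩)

/-- a most popular label -/
lemma Basic.exists_popular {α : Type*} (X : Finset α) (hX : X.Nonempty) (lab : α → ℕ) {M : ℕ}
    (hlab : ∀ x ∈ X, lab x < M) :
    ∃ x₀ ∈ X, (X.card : ℝ) ≤ M * cnt X (fun x => lab x = lab x₀) := by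
  classical
  obtain ⟨x₀, hx₀, hmax⟩ := exists_max_image X (fun z => cnt X (fun x => lab x = lab z)) hX
  refine ⟨x₀, hx₀, ?_⟩
  have h1 : (X.card : ℝ) ≤ cnt X (fun x => ∃ l ∈ range M, lab x = l) := by
    rw [cnt_eq_card, filter_true_of_mem fun x hx => ⟨lab x, mem_range.2 (hlab x hx), rfl⟩]
  refine h1.trans ((cnt_exists_le X (range M) fun l x => lab x = l).trans ?_)
  calc ∑ l ∈ range M, cnt X (fun x => lab x = l)
      ≤ ∑ _l ∈ range M, cnt X (fun x => lab x = lab x₀) := by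
        refine sum_le_sum fun l _ => ?_
        by_cases h : ∃ z ∈ X, lab z = l
        · obtain ⟨z, hz, rfl⟩ := h
          exact hmax z hz
        · exact cnt_mono fun x hx hl => (h ⟨x, hx, hl⟩).elim
    _ = _ := by simp

/-- pigeonhole for balls -/
lemma ball_count {ι : Type*} (Θ : Finset ι) (θ : ι → Γ →+ T) {R r : ℝ} (hr : 0 < r)
    (hR : 0 ≤ R) (X : Finset Γ) (hX : X.Nonempty) (hXR : ∀ x ∈ X, ∀ i ∈ Θ, ‖θ i x‖ ≤ R) :
    ∃ x₀ ∈ X, (X.card : ℝ) ≤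
      (2 * R / r + 1) ^ Θ.card * cnt X (fun x => ∀ i ∈ Θ, ‖θ i (x - x₀)‖ ≤ r) := by
  obtain ⟨M, lab, hM, hlab, h⟩ := ball_parts Θ θ hr hR
  obtain ⟨x₀, hx₀, h1⟩ := Basic.exists_popular X hX lab fun x _ => hlab x
  refine ⟨x₀, hx₀, h1.trans (mul_le_mul hM ?_ (cnt_nonneg _ _) (by positivity))⟩
  exact cnt_mono fun x hx hl => h x x₀ (hXR x hx) (hXR x₀ hx₀) hl

end Generic

/-- arcs: a partition of the circle in `m` arcs, with control of the boundary -/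
lemma exists_arc {m : ℕ} (hm : 0 < m) : ∃ arc : T → ℕ, (∀ t, arc t < m) ∧
    (∀ s t, arc s = arc t → ‖s - t‖ ≤ 1 / m) ∧
    ∀ t u, arc (t + u) ≠ arc t → ‖(m : ℤ) • t‖ ≤ m * ‖u‖ := by
  have hm' : (0 : ℝ) < m := by exact_mod_cast hm
  set y : T → ℝ := fun t => (AddCircle.equivIco 1 0 t : ℝ) with hy
  have hy0 : ∀ t, 0 ≤ y t := fun t => (AddCircle.equivIco 1 0 t).2.1
  have hy1 : ∀ t, y t < 1 := fun t => by simpa using (AddCircle.equivIco 1 0 t).2.2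
  have hyc : ∀ t, ((y t : ℝ) : T) = t := fun t => AddCircle.coe_equivIco
  have hyu : ∀ x : ℝ, 0 ≤ x → x < 1 → y (x : T) = x := by
    intro x h0 h1
    have : x ∈ Set.Ico (0 : ℝ) (0 + 1) := ⟨h0, by simpa using h1⟩
    simp only [hy]
    rw [AddCircle.equivIco_coe_eq this]
  refine ⟨fun t => ⌊m * y t⌋₊, ?_, ?_, ?_⟩
  · intro t
    rw [Nat.floor_lt (mul_nonneg hm'.le (hy0 t))]
    nlinarith [hy1 t]
  · intro s t hst
    have h2 := Nat.floor_le (mul_nonneg hm'.le (hy0 s))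
    have h3 := Nat.floor_le (mul_nonneg hm'.le (hy0 t))
    have h4 := Nat.lt_floor_add_one (m * y s)
    have h5 := Nat.lt_floor_add_one (m * y t)
    simp only at hst
    rw [hst] at h2 h4
    rw [← hyc s, ← hyc t, ← AddCircle.coe_sub]
    refine (norm_coe_le _).trans ?_
    rw [le_div_iff₀ hm', ← abs_of_pos hm', ← abs_mul, abs_le]
    constructor <;> nlinarith
  · intro t u htu
    obtain ⟨v, hv, hv'⟩ := Basic.lift u
    have h2 := Nat.floor_le (mul_nonneg hm'.le (hy0 t))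
    have h4 := Nat.lt_floor_add_one (m * y t)
    have h5 : ⌊m * y t⌋₊ < m := by
      rw [Nat.floor_lt (mul_nonneg hm'.le (hy0 t))]
      nlinarith [hy1 t]
    have h6 : (⌊m * y t⌋₊ : ℝ) + 1 ≤ m := by exact_mod_cast h5
    have h7 : (0 : ℝ) ≤ ⌊m * y t⌋₊ := Nat.cast_nonneg _
    have h8 : (m : ℤ) • t = ((m * y t : ℝ) : T) := by
      conv_lhs => rw [← hyc t]
      rw [Basic.coe_zsmul_T]; simp
    have h9 : m * v ≤ m * |v| := mul_le_mul_of_nonneg_left (le_abs_self v) hm'.le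
    have h10 : m * -v ≤ m * |v| := mul_le_mul_of_nonneg_left (neg_le_abs v) hm'.le
    rw [h8, ← hv']
    by_cases ha : m * (y t + v) < ⌊m * y t⌋₊
    · refine (Basic.norm_coe_le_sub _ (⌊m * y t⌋₊ : ℕ)).trans ?_
      rw [abs_le]; push_cast
      constructor <;> nlinarith
    by_cases hb : (⌊m * y t⌋₊ : ℝ) + 1 ≤ m * (y t + v)
    · refine (Basic.norm_coe_le_sub _ ((⌊m * y t⌋₊ : ℕ) + 1)).trans ?_
      rw [abs_le]; push_cast
      constructor <;> nlinarith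
    push Not at ha hb
    exfalso
    apply htu
    have h11 : t + u = ((y t + v : ℝ) : T) := by rw [AddCircle.coe_add, hyc, hv]
    have h12 : 0 ≤ y t + v := by
      by_contra h
      push Not at h
      nlinarith
    have h13 : y t + v < 1 := by
      by_contra h
      push Not at h
      nlinarith
    simp only
    rw [h11, hyu _ h12 h13, Nat.floor_eq_iff (mul_nonneg hm'.le h12)]
    exact ⟨ha, hb⟩

lemma Basic.norm_coe_div_ge {n : ℕ} {k : ℤ} (hk : k ≠ 0) (hkn : |k| < n) :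
    1 / (n : ℝ) ≤ ‖(((k : ℝ) / n : ℝ) : T)‖ := by
  have hn : (0 : ℝ) < n := by
    have : (0 : ℤ) < n := lt_of_le_of_lt (abs_nonneg k) hkn
    exact_mod_cast this
  rw [UnitAddCircle.norm_eq]
  set q := round ((k : ℝ) / n)
  have h1 : k - n * q ≠ 0 := by
    intro h
    have h2 : k = n * q := by linarith
    have h3 : q ≠ 0 := by rintro h3; rw [h3] at h2; simp at h2; exact hk h2
    have h4 : 1 ≤ |q| := Int.one_le_abs h3
    rw [h2, abs_mul, Nat.abs_cast] at hkn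
    nlinarith [Int.natCast_nonneg n]
  have h2 : (1 : ℝ) ≤ |(k : ℝ) - n * q| := by exact_mod_cast Int.one_le_abs h1
  have h3 : (k : ℝ) / n - q = ((k : ℝ) - n * q) / n := by field_simp
  rw [h3, abs_div, abs_of_pos hn]
  exact div_le_div_of_nonneg_right h2 hn.le

/-- a shift moving most points away from the multiples of `1 / m` -/
lemma arc_shift {α : Type*} (X : Finset α) (t : α → T) {m : ℕ} (hm : 0 < m) {δ : ℝ}
    (hδ : 0 < δ) : ∃ σ : T, cnt X (fun x => ‖(m : ℤ) • (t x + σ)‖ ≤ δ) ≤ 4 * δ * X.card := by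
  have hX : (0 : ℝ) ≤ X.card := Nat.cast_nonneg _
  by_cases h : 1 ≤ 4 * δ
  · exact ⟨0, (cnt_le_card _ _).trans (by nlinarith)⟩
  push Not at h
  set n := ⌈1 / (4 * δ)⌉₊ with hn
  have hn1 : 1 / (4 * δ) ≤ n := Nat.le_ceil _
  have hn2 : (n : ℝ) < 1 / (4 * δ) + 1 := Nat.ceil_lt_add_one (by positivity)
  have hn0 : (0 : ℝ) < n := lt_of_lt_of_le (by positivity) hn1
  have hn3 : 2 * δ < 1 / (n : ℝ) := by
    rw [lt_div_iff₀ hn0]
    have : 2 * δ * (1 / (4 * δ) + 1) = 1 / 2 + 2 * δ := by field_simp; ring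
    nlinarith
  rw [div_le_iff₀ (by positivity)] at hn1
  have hm0 : (m : ℤ) ≠ 0 := by exact_mod_cast hm.ne'
  choose σ hσ using fun j : ℕ => exists_div ((((j : ℝ) / n : ℝ)) : T) hm0
  have h1 := Basic.sum_cnt_le X (range n) (fun j x => ‖(m : ℤ) • (t x + σ j)‖ ≤ δ) (by
    intro x _ i hi j hj h1 h2
    rw [mem_range] at hi hj
    by_contra hij
    have h3 : (((((i : ℤ) - j : ℤ) : ℝ) / n : ℝ) : T) =
        (m : ℤ) • (t x + σ i) - (m : ℤ) • (t x + σ j) := by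
      rw [smul_add, smul_add, hσ, hσ, add_sub_add_left_eq_sub, ← AddCircle.coe_sub]
      congr 1; push_cast; ring
    have h4 := Basic.norm_coe_div_ge (n := n) (k := (i : ℤ) - j) (by omega)
      (by rw [abs_lt]; constructor <;> omega)
    rw [h3] at h4
    linarith [norm_sub_le ((m : ℤ) • (t x + σ i)) ((m : ℤ) • (t x + σ j))])
  have hne : (range n).Nonempty := by
    rw [nonempty_range_iff]
    exact_mod_cast hn0.ne'
  have h2 : ∑ j ∈ range n, cnt X (fun x => ‖(m : ℤ) • (t x + σ j)‖ ≤ δ) ≤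
      ∑ _j ∈ range n, 4 * δ * X.card := by
    rw [sum_const, card_range, nsmul_eq_mul]
    nlinarith
  obtain ⟨j, -, hj⟩ := exists_le_of_sum_le hne h2
  exact ⟨σ j, hj⟩

section Cyclic

variable {N : ℕ} [NeZero N]

/-- the pairing as an additive map -/
noncomputable def Basic.prHom (ξ : ZMod N) : ZMod N →+ T := AddMonoidHom.mk' (pr ξ) (pr_add_right ξ)

@[simp] lemma Basic.prHom_apply (ξ x : ZMod N) : Basic.prHom ξ x = pr ξ x := rfl

/-- comparison of two Bohr sets -/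
lemma Basic.card_bohr_le (Θ : Finset (ZMod N)) {R r : ℝ} (hr : 0 < r) (hR : 0 ≤ R) :
    cnt univ (InN Θ R) ≤ (2 * R / r + 1) ^ Θ.card * cnt univ (InN Θ r) := by
  classical
  obtain ⟨x₀, -, h⟩ := ball_count Θ Basic.prHom hr hR (univ.filter (InN Θ R))
    ⟨0, mem_filter.2 ⟨mem_univ _, InN.zero Θ hR⟩⟩ (fun x hx => (mem_filter.1 hx).2)
  rw [cnt_eq_card]
  refine h.trans (mul_le_mul_of_nonneg_left ?_ (by positivity))
  exact cnt_le_of_inj (fun x => x - x₀) (fun x _ hx => ⟨mem_univ _, hx⟩)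
    fun x _ y _ _ _ h => sub_left_injective h

/-- size of a Bohr set -/
lemma card_bohr (Θ : Finset (ZMod N)) {r : ℝ} (hr : 0 < r) :
    (N : ℝ) ≤ (1 / r + 1) ^ Θ.card * cnt univ (InN Θ r) := by
  classical
  have h := Basic.card_bohr_le Θ (R := 1 / 2) hr (by norm_num)
  have h1 : cnt univ (InN Θ (1 / 2)) = N := by
    rw [cnt_eq_card, filter_true_of_mem fun x _ θ _ => norm_T_le _, card_univ, ZMod.card]
  rw [h1] at h
  simpa using h

/-- a translate of a symmetric set which captures at least the average share of `R` -/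
lemma exists_translate (R V : Finset (ZMod N)) :
    ∃ h : ZMod N, (R.card : ℝ) * V.card ≤ N * cnt V (fun v => h + v ∈ R) := by
  classical
  have h1 : ∀ v : ZMod N, ∑ h : ZMod N, (if h + v ∈ R then (1 : ℝ) else 0) = R.card := by
    intro v
    rw [Fintype.sum_equiv (Equiv.addRight v) (fun h => if h + v ∈ R then (1 : ℝ) else 0)
      (fun h => if h ∈ R then (1 : ℝ) else 0) fun _ => rfl]
    simp
  have h2 : ∑ h : ZMod N, cnt V (fun v => h + v ∈ R) = V.card * R.card := by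
    have : ∀ h : ZMod N, cnt V (fun v => h + v ∈ R) =
        ∑ v ∈ V, if h + v ∈ R then (1 : ℝ) else 0 := by
      intro h
      rw [cnt_eq_card, card_filter]; push_cast; rfl
    simp only [this]
    rw [sum_comm]
    simp only [h1]
    simp
  have h3 : ∑ _h : ZMod N, (R.card : ℝ) * V.card ≤
      ∑ h : ZMod N, N * cnt V (fun v => h + v ∈ R) := by
    rw [sum_const, ← mul_sum, h2, card_univ, ZMod.card, nsmul_eq_mul, mul_comm (V.card : ℝ)]
  obtain ⟨h, -, hh⟩ := exists_le_of_sum_le univ_nonempty h3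
  exact ⟨h, hh⟩

/-- regular Bohr sets -/
lemma exists_regBohr (Θ : Finset (ZMod N)) {r s η : ℝ} (hr : 0 < r) (hs : 0 < s) (hη : η ≤ 1)
    (hsη : 16 * (2 * Θ.card + 1) * s ≤ η) : ∃ S, RegSet (bohrF Θ r) s η S := by
  refine exists_regSet (bohrF Θ r) univ (fun x _ => mem_univ x) (K := 2 * Θ.card)
    (by positivity) ?_ hs hη hsη
  have h := Basic.card_bohr_le Θ (R := r) (r := 1 / 2 * r) (by positivity) hr.le
  have h1 : 2 * r / (1 / 2 * r) + 1 = 5 := by field_simp; norm_num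
  have h2 : (5 : ℝ) ≤ Real.exp 2 := by
    have h3 := Real.add_one_le_exp (1 / 2 : ℝ)
    have h4 : Real.exp 2 = Real.exp (1 / 2) ^ 4 := by rw [← Real.exp_nat_mul]; norm_num
    rw [h4]
    exact le_trans (by norm_num) (pow_le_pow_left₀ (by norm_num) h3 4)
  have h3 : (5 : ℝ) ^ Θ.card ≤ Real.exp (2 * Θ.card) := by
    rw [mul_comm, Real.exp_nat_mul]
    exact pow_le_pow_left₀ (by norm_num) h2 _
  rw [h1] at h
  rw [cnt_congr fun x _ => bohrF_mem hr.le 1 x, cnt_congr fun x _ => bohrF_mem hr.le (1 / 2) x,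
    one_mul]
  exact h.trans (mul_le_mul_of_nonneg_right h3 (cnt_nonneg _ _))

end Cyclic

/-- Bohr sets in a short interval -/
lemma Basic.card_bohrZ_block (Θ : Finset T) {R r : ℝ} (hr : 0 < r) (hR : 0 ≤ R) (M : ℕ) (a : ℤ)
    (X : Finset ℤ) : cnt X (fun x => x ∈ Icc a (a + M) ∧ InB Θ R x) ≤
      (2 * R / r + 1) ^ Θ.card * cnt (Icc (-(M : ℤ)) M) (InB Θ r) := by
  classical
  rw [cnt_eq_card]
  rcases (X.filter fun x => x ∈ Icc a (a + M) ∧ InB Θ R x).eq_empty_or_nonempty with h | h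
  · rw [h, card_empty, Nat.cast_zero]
    exact mul_nonneg (by positivity) (cnt_nonneg _ _)
  obtain ⟨x₀, hx₀, h1⟩ := ball_count Θ (fun θ => zmultiplesHom T θ) hr hR _ h
    (fun x hx => (mem_filter.1 hx).2.2)
  refine h1.trans (mul_le_mul_of_nonneg_left ?_ (by positivity))
  refine cnt_le_of_inj (fun x => x - x₀) (fun x hx h2 => ⟨?_, h2⟩)
    fun x _ y _ _ _ h => sub_left_injective h
  have h3 := (mem_filter.1 hx).2.1
  have h4 := (mem_filter.1 hx₀).2.1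
  rw [mem_Icc] at h3 h4 ⊢
  constructor <;> omega

/-- size of a Bohr set in an interval of integers -/
lemma card_bohrZ (Θ : Finset T) {R r : ℝ} (hr : 0 < r) (hR : 0 ≤ R) (M : ℕ) :
    cnt (Icc (-(2 * M + 1 : ℤ)) (2 * M + 1)) (InB Θ R) ≤
      5 * (2 * R / r + 1) ^ Θ.card * cnt (Icc (-(M : ℤ)) M) (InB Θ r) := by
  have h1 : cnt (Icc (-(2 * M + 1 : ℤ)) (2 * M + 1)) (InB Θ R) ≤
      cnt (Icc (-(2 * M + 1 : ℤ)) (2 * M + 1)) (fun x => ∃ a ∈
        ({-(2 * M + 1 : ℤ), -(M : ℤ), 1, (M : ℤ) + 2} : Finset ℤ), x ∈ Icc a (a + M) ∧ InB Θ R x) := by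
    refine cnt_mono fun x hx h => ?_
    rw [mem_Icc] at hx
    simp only [mem_insert, mem_singleton, mem_Icc, exists_eq_or_imp, exists_eq_left, h, and_true]
    omega
  refine h1.trans ((cnt_exists_le _ _ fun (a x : ℤ) => x ∈ Icc a (a + M) ∧ InB Θ R x).trans ?_)
  refine (sum_le_sum fun a _ => Basic.card_bohrZ_block Θ hr hR M a _).trans ?_
  rw [sum_const, nsmul_eq_mul, mul_assoc]
  refine mul_le_mul_of_nonneg_right ?_ (mul_nonneg (by positivity) (cnt_nonneg _ _))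
  have : ({-(2 * M + 1 : ℤ), -(M : ℤ), 1, (M : ℤ) + 2} : Finset ℤ).card ≤ 4 := card_le_four
  have h2 : (({-(2 * M + 1 : ℤ), -(M : ℤ), 1, (M : ℤ) + 2} : Finset ℤ).card : ℝ) ≤ 4 := by
    exact_mod_cast this
  linarith

end Pool.Agent.Tri
end

-- part Pool.Agent.Lib.MP_9721b5_an.Tri.Stmts
section

/-!
The statements of the main steps, as propositions.  Each is proved in its own file, from the
statements it depends on.
-/

set_option autoImplicit false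

open Finset ComplexConjugate Real

namespace Pool.Agent.Tri

/-- quasi-polynomial Bogolyubov lemma -/
def SandersStmt : Prop :=
  ∃ C : ℕ, ∀ p : ℝ, 2 ≤ p → ∀ (N : ℕ) [NeZero N] (A : Finset (ZMod N)), exp (-p) * N ≤ A.card →
    ∃ Θ : Finset (ZMod N), (Θ.card : ℝ) ≤ p ^ C ∧ ∀ b, InN Θ (exp (-p ^ C)) b →
      ∃ a₁ ∈ A, ∃ a₂ ∈ A, ∃ a₃ ∈ A, ∃ a₄ ∈ A, b = a₁ + a₂ - a₃ - a₄

/-- approximate Balog-Szemerédi-Gowers theorem for graphs, with saturation -/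
def CoverStmt : Prop :=
  ∃ C : ℕ, ∀ p : ℝ, 2 ≤ p → ∀ (G : Type) [AddCommGroup G] [Fintype G] (Z : Type) [Fintype Z]
    [Nonempty Z] (a : G → Z → T) (A S S' : Finset G) (δ : ℝ), δ ≤ 1 / 10 ^ 6 →
    exp (-p) * (Fintype.card G : ℝ) ^ 3 ≤ cnt (A ×ˢ A ×ˢ A ×ˢ A) (fun q =>
      q.1 - q.2.1 = q.2.2.1 - q.2.2.2 ∧
        ∀ z, ‖a q.1 z - a q.2.1 z - a q.2.2.1 z + a q.2.2.2 z‖ ≤ δ) →
    S'.Nonempty →
    (∃ O : Finset G, (O.card : ℝ) ≤ 2 * S'.card ∧ ∀ b ∈ S', ∀ t t' : Fin 6 → G,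
      (∀ i, t i ∈ S ∧ t' i ∈ S) → b + ∑ i, t i - ∑ i, t' i ∈ O) →
    (∀ y ∈ A, ∀ z, (∀ t ∈ S, ‖a (y + t) z - a y z‖ ≤ δ) ∧
      ∀ b ∈ S', ∀ b' ∈ S', ‖a (y + b - b') z - a y z‖ ≤ δ) →
    ∃ A' ⊆ A, exp (-p ^ C) * (Fintype.card G : ℝ) ≤ A'.card ∧
      ∀ y y' t t' : Fin 6 → G, (∀ i, y i ∈ A' ∧ y' i ∈ A' ∧ t i ∈ S ∧ t' i ∈ S) →
        ∑ i, (y i + t i) = ∑ i, (y' i + t' i) →
        (Fintype.card Z : ℝ) / 2 ≤
          ∑ z, (e (∑ i, a (y i + t i) z - ∑ i, a (y' i + t' i) z)).re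

/-- local Chang lemma for approximate characters -/
def LocChangStmt : Prop :=
  ∃ C : ℕ, ∀ (Γ : Type) [AddCommGroup Γ] (ι : Type) (Zp : ι → Prop) (Ω S : Finset Γ)
    (Sh : Γ → Prop) (c a : ι → Γ → T) (q η ε : ℝ), 1 ≤ q → 0 ≤ η → 0 ≤ ε → S ⊆ Ω → Ω.Nonempty →
    exp (-q) * Ω.card ≤ S.card → (∀ ω, Sh ω → Inv Ω ω η) →
    (∀ z, Zp z → ∀ x ∈ S, ‖c z x‖ ≤ 1 / 20) →
    (∀ z, Zp z → ∀ ω, Sh ω → ∀ x ∈ Ω, x + ω ∈ Ω → ‖c z (x + ω) - c z x - a z ω‖ ≤ ε) →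
    ∃ (r : ℕ) (zs : Fin r → ι), (r : ℝ) ≤ C * q ∧ (∀ j, Zp (zs j)) ∧
      ∀ s, 0 ≤ s → ∀ ω, Sh ω → (∀ j, ‖a (zs j) ω‖ ≤ s) → ∀ z, Zp z →
        ‖a z ω‖ ≤ C * (q * (s + ε) + η * exp (C * q))

/-- the hypothesis of the sparse inverse theorem -/
def SparseHyp {N : ℕ} [NeZero N] (p γ : ℝ) (φ₀ : ZMod N → ℂ) (f : Fin 3 → ZMod N → ℂ) : Prop :=
  (∀ x, ‖φ₀ x‖ ≤ 1) ∧ (∀ i x, ‖f i x‖ ≤ 1) ∧ exp (-p) * N ≤ ∑ x, ‖φ₀ x‖ ∧
    γ * N * ∑ x, ‖φ₀ x‖ ≤
      ‖∑ x, ∑ n, φ₀ x * (f 0 (x + n) * f 1 (x + 2 * n) * f 2 (x + 3 * n))‖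

/-- many derivatives have mass on a small set of small dimension -/
def SpecMass {N : ℕ} [NeZero N] (p γ₀ : ℝ) (f : ZMod N → ℂ) : Prop :=
  ∃ R₀ : Finset (ZMod N), exp (-p) * N ≤ R₀.card ∧ ∀ h ∈ R₀, ∃ S : Finset (ZMod N),
    (S.card : ℝ) ≤ exp p ∧
    (∀ Λ ⊆ S, AddDissociated (Λ : Set (ZMod N)) → (Λ.card : ℝ) ≤ p) ∧ γ₀ ≤ ∑ ξ ∈ S, mm f h ξ

def A1Stmt : Prop :=
  ∃ C : ℕ, ∀ p γ : ℝ, 2 ≤ p → 1 / p ≤ γ → γ ≤ 1 / 2 → ∀ (N : ℕ) [NeZero N], N.Prime → 3 < N →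
    ∀ (φ₀ : ZMod N → ℂ) (f : Fin 3 → ZMod N → ℂ) (i : Fin 3), SparseHyp p γ φ₀ f →
      SpecMass (p ^ C) (γ ^ 4 / 16) (f i)

def GraphStmt : Prop :=
  ∃ C : ℕ, ∀ p : ℝ, 2 ≤ p → ∀ (N : ℕ) [NeZero N] (f : ZMod N → ℂ), (∀ x, ‖f x‖ ≤ 1) →
    ∀ (R : Finset (ZMod N)) (ξ : ZMod N → ZMod N), exp (-p) * N ≤ R.card →
    (∀ h ∈ R, exp (-p) ≤ mm f h (ξ h)) →
    ∃ A ⊆ R, ∃ (Θ : Finset (ZMod N)) (L : ZMod N → ZMod N), exp (-p ^ C) * N ≤ A.card ∧
      (Θ.card : ℝ) ≤ p ^ C ∧ AddOn Θ (exp (-p ^ C)) L ∧ GraphOn A Θ (exp (-p ^ C)) ξ L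

def A45Stmt : Prop :=
  ∃ C : ℕ, ∀ p γ₁ : ℝ, 2 ≤ p → 1 / p ≤ γ₁ → ∀ (N : ℕ) [NeZero N] (f : ZMod N → ℂ),
    (∀ x, ‖f x‖ ≤ 1) → SpecMass p (4 * γ₁) f →
    ∃ (d : ℕ) (R : Finset (ZMod N)) (ξ L : Fin d → ZMod N → ZMod N) (Θ : Finset (ZMod N)),
      (d : ℝ) ≤ p ∧ exp (-p ^ C) * N ≤ R.card ∧ (Θ.card : ℝ) ≤ p ^ C ∧
      FamOK f R ξ L Θ (exp (-p ^ C)) γ₁ ∧ ∀ j, ∀ h ∈ R, exp (-p ^ C) ≤ mm f h (ξ j h)

def SymStmt : Prop :=
  ∃ C : ℕ, ∀ p : ℝ, 2 ≤ p → ∀ (N : ℕ) [NeZero N] (f : ZMod N → ℂ), (∀ x, ‖f x‖ ≤ 1) →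
    ∀ (R Θ : Finset (ZMod N)) (ξ L : ZMod N → ZMod N), exp (-p) * N ≤ R.card →
    (Θ.card : ℝ) ≤ p → AddOn Θ (exp (-p)) L → GraphOn R Θ (exp (-p)) ξ L →
    (∀ h ∈ R, exp (-p) ≤ mm f h (ξ h)) →
    ∃ Θ' : Finset (ZMod N), (Θ'.card : ℝ) ≤ p ^ C ∧ SymOn Θ' (exp (-p ^ C)) (exp (-p)) L

def LoopStmt : Prop :=
  ∃ C : ℕ, ∀ p₁ p₂ : ℝ, 2 ≤ p₁ → p₁ ^ 5 ≤ p₂ → ∀ (N : ℕ) [NeZero N], N.Prime → 16 * p₁ < N →
    ∀ (d : ℕ) (R : Finset (ZMod N)) (ξ L : Fin d → ZMod N → ZMod N) (Θ : Finset (ZMod N)),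
    (d : ℝ) ≤ p₁ → exp (-p₁) * N ≤ R.card → (Θ.card : ℝ) ≤ p₂ →
    (∀ j, AddOn Θ (exp (-p₂)) (L j)) → (∀ j, GraphOn R Θ (exp (-p₂)) (ξ j) (L j)) →
    (∀ j, SymOn Θ (exp (-p₂)) (exp (-p₁ ^ 5)) (L j)) →
    Nonempty (LoopOut R ξ L Θ (exp (-p₂)) p₁ (p₂ ^ C))

/-- local correlation with quadratic phases around most points -/
def LocCorr {N : ℕ} [NeZero N] (f : ZMod N → ℂ) (P c η : ℝ) : Prop :=
  ∃ (Θ : Finset (ZMod N)) (r s : ℝ) (W : Finset (ZMod N)) (ψ : ZMod N → ZMod N → T),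
    (Θ.card : ℝ) ≤ P ∧ 0 < r ∧ 0 < s ∧ exp (-P) ≤ r * s ∧ r * s ≤ 1 ∧
    RegSet (bohrF Θ r) s η W ∧ (∀ z, QuadOn W (ψ z)) ∧
    c * N * (W.card : ℝ) ^ 2 ≤ ∑ z, ‖∑ w ∈ W, f (z + w) * e (-ψ z w)‖ ^ 2

def EndStmt : Prop :=
  ∃ C : ℕ, ∀ p₁ P r γ₁ : ℝ, 2 ≤ p₁ → p₁ ^ 5 ≤ P → 0 < r → 1 / p₁ ≤ γ₁ → ∀ (N : ℕ) [NeZero N],
    N.Prime → 2 < N → ∀ (f : ZMod N → ℂ), (∀ x, ‖f x‖ ≤ 1) →
    ∀ (d : ℕ) (R : Finset (ZMod N)) (ξ L : Fin d → ZMod N → ZMod N) (Θ : Finset (ZMod N)),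
    (d : ℝ) ≤ p₁ → FamOK f R ξ L Θ r γ₁ → (∀ j, SymOn Θ r (exp (-p₁ ^ 5)) (L j)) →
    Nonempty (LoopOut R ξ L Θ r p₁ P) → LocCorr f (P ^ C) (γ₁ / 1000) (γ₁ / 4000)

/-- correlation with a cellwise quadratic phase -/
def AtomN {N : ℕ} [NeZero N] (f : ZMod N → ℂ) (P s β c : ℝ) : Prop :=
  ∃ (Θ : Finset (ZMod N)) (φ : ZMod N → T), (Θ.card : ℝ) ≤ P ∧
    cnt univ (fun y => ¬ Quad (InN Θ s) φ y) ≤ β * N ∧ c * N ≤ (∑ y, f y * e (-φ y)).re

def CellsStmt : Prop :=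
  ∀ (N : ℕ) [NeZero N] (f : ZMod N → ℂ) (P c η β : ℝ), (∀ x, ‖f x‖ ≤ 1) → 0 < β → β ≤ 1 →
    LocCorr f P c η → AtomN f P (exp (-P) * β / (100 * (P + 1))) β (c - η)

/-- the sparse inverse theorem in `ZMod N` -/
def AGStmt : Prop :=
  ∃ C : ℕ, ∀ p γ : ℝ, 2 ≤ p → 1 / p ≤ γ → γ ≤ 1 / 2 → ∀ (N : ℕ) [NeZero N], N.Prime → 3 < N →
    ∀ (φ₀ : ZMod N → ℂ) (f : Fin 3 → ZMod N → ℂ) (i : Fin 3), SparseHyp p γ φ₀ f →
      AtomN (f i) (p ^ C) (exp (-p ^ C)) (exp (-p)) (γ ^ C)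

/-- the sparse inverse theorem on a node -/
def AZStmt : Prop :=
  ∃ C : ℕ, ∀ p γ : ℝ, 2 ≤ p → 1 / p ≤ γ → γ ≤ 1 / 2 → ∀ (k j : ℕ) (u : Fin 3 → ℕ → ℝ),
    (∀ i, Bdd (u i)) → ∀ i : Fin 3,
    exp (-p) * 2 ^ k ≤ cnt (node k j)
      (fun x => adm k x ∧ ∃ N, lev k N ∧ γ ≤ |Av (u 0) (u 1) (u 2) x N|) →
    ∃ (Θ : Finset T) (φ : ℤ → T), (Θ.card : ℝ) ≤ p ^ C ∧
      cnt (node k j) (fun y => ¬ Quad (InB Θ (exp (-p ^ C))) φ y) ≤ exp (-p) * 2 ^ k ∧
      γ ^ C * 2 ^ k ≤ ∑ y ∈ node k j, u i y * (e (φ y)).re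

/-- the jump inequality for three cellwise quadratic phases -/
def SStmt : Prop :=
  ∃ C : ℕ, ∀ p : ℝ, 2 ≤ p → ∀ (Θ : Finset T) (s₀ : ℝ) (φ : Fin 3 → ℤ → T) (D j : ℕ),
    (Θ.card : ℝ) ≤ exp p → exp (-exp p) ≤ s₀ →
    (∀ i, cnt (node D j) (fun y => ¬ Quad (InB Θ s₀) (φ i) y) ≤ exp (-p ^ C) * 2 ^ D) →
    Ctl (Near (Ph φ) (1 / p)) D j 0 (2 ^ D / p) (exp (p ^ C) * 2 ^ D)

/-- expansion of a clipped sum of phases -/
def ExpandStmt : Prop :=
  ∀ (M m n : ℕ) (β : ℝ), 0 < M → m ≤ M → 0 < n → 0 ≤ β → β ≤ 1 →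
    ∃ (W : Finset (Fin m → ℤ)) (a : (Fin m → ℤ) → ℂ), (W.card : ℝ) ≤ (2 * n + 1) ^ M ∧
      ∑ w ∈ W, ‖a w‖ ≤ 2 ^ n ∧ ∀ t : Fin m → T,
        ‖(clip (β * ∑ j, (e (t j)).re) : ℂ) - ∑ w ∈ W, a w * e (∑ j, w j • t j)‖ ≤ M / √n

/-- one level of the chaining -/
def LvlStmt : Prop :=
  ∃ C : ℕ, ∀ u : ℝ, C ≤ u → ∀ (D : ℕ) (f g h : ℕ → ℝ), Bdd f → Bdd g → Bdd h →
    ∃ Bad : ℕ → ℕ → Prop, (∀ k i, cnt (node k i) (Bad k) ≤ exp (-exp (exp u)) * 2 ^ k) ∧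
      Ctl (fun x k' k => adm k' x → adm k x → ¬ Bad k' x → ¬ Bad k x → NearR f g h (1 / u) x k' k)
        D 0 0 (2 ^ D / u) (exp (exp (u ^ C)) * 2 ^ D)

/-- the finitary oscillation inequality -/
def FinStmt : Prop :=
  ∀ ε : ℝ, 0 < ε → ∃ K : ℝ, ∀ (D : ℕ) (f g h : ℕ → ℝ), Bdd f → Bdd g → Bdd h →
    Ctl (fun x k' k => adm k' x → adm k x → NearR f g h ε x k' k) D 0 0 (ε * 2 ^ D) (K * 2 ^ D)

/-- the scales split in few regimes, inside which small Bohr sets are syndetic -/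
def RegimeStmt : Prop :=
  ∀ (Θ : Finset T) (r : ℝ), 0 < r → r ≤ 1 / 2 → ∃ rk : ℕ → ℕ, Monotone rk ∧
    (∀ k, rk k ≤ Θ.card + 1) ∧ ∀ a b, a ≤ b → rk a = rk b →
      1 ≤ (r / 8) ^ (Θ.card + 1) * 2 ^ b → ∀ τ : ℝ, |τ| ≤ (r / 8) ^ (Θ.card + 1) * 2 ^ b →
        ∃ w : ℤ, InB Θ ((Θ.card + 2) * r) w ∧ |(w : ℝ) - τ| ≤ (Θ.card + 1) * r * 2 ^ a

end Pool.Agent.Tri
end
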