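import Pool.Agent.Lib.MP_9721b5_an.Tri.Fourier
import Pool.Agent.Lib.MP_9721b5_an.Tri.Stmts

/-!
From a sparse correlation to mass of the ambiguity function on small spectral sets.
-/

set_option autoImplicit false

open Finset ComplexConjugate Real

namespace Pool.Agent.Tri

namespace A1

variable {N : ℕ} [Fact N.Prime]

lemma sum_mul {M : Type*} [AddCommMonoid M] {c : ZMod N} (hc : c ≠ 0) (F : ZMod N → M) :
    ∑ x, F (c * x) = ∑ x, F x :=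
  Equiv.sum_comp (Equiv.mulLeft₀ c hc) F

lemma sum_addL {M : Type*} [AddCommMonoid M] (c : ZMod N) (F : ZMod N → M) :
    ∑ x, F (c + x) = ∑ x, F x :=
  Equiv.sum_comp (Equiv.addLeft c) F

lemma sum_addR {M : Type*} [AddCommMonoid M] (c : ZMod N) (F : ZMod N → M) :
    ∑ x, F (x + c) = ∑ x, F x :=
  Equiv.sum_comp (Equiv.addRight c) F

lemma N_pos : (0 : ℝ) < N := by exact_mod_cast (Fact.out : N.Prime).pos

lemma sum_eq_ft (F : ZMod N → ℂ) (ξ : ZMod N) : ∑ x, F x * e (pr ξ x) = N * ft F (-ξ) := by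
  have : (N : ℂ) ≠ 0 := by exact_mod_cast (Fact.out : N.Prime).ne_zero
  simp only [ft, pr_neg_left, neg_neg]
  field_simp

/-- Cauchy-Schwarz removing one function -/
lemma cs (φ u v w : ZMod N → ℂ) (hw : ∀ x, ‖w x‖ ≤ 1) (a b c : ZMod N) :
    ‖∑ x, ∑ n, φ x * (u (x + a * n) * v (x + c * n) * w (x + b * n))‖ ^ 2 ≤
      N * ∑ r, ‖∑ x, ∑ n, dd φ (-b * r) x * dd u ((a - b) * r) (x + a * n) *
        dd v ((c - b) * r) (x + c * n)‖ := by
  set g : ZMod N → ZMod N → ℂ := fun y n =>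
    φ (y - b * n) * u (y + (a - b) * n) * v (y + (c - b) * n) with hg
  have e1 : ∑ x, ∑ n, φ x * (u (x + a * n) * v (x + c * n) * w (x + b * n)) =
      ∑ y, w y * ∑ n, g y n := by
    simp only [mul_sum]
    rw [sum_comm, sum_comm (f := fun y n => w y * g y n)]
    refine sum_congr rfl fun n _ => ?_
    rw [← sum_addR (b * n) (fun y => w y * g y n)]
    refine sum_congr rfl fun x _ => ?_
    simp only [hg]
    ring_nf
  have e2 : ((∑ y, ‖∑ n, g y n‖ ^ 2 : ℝ) : ℂ) = ∑ r, ∑ x, ∑ n, dd φ (-b * r) x *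
      dd u ((a - b) * r) (x + a * n) * dd v ((c - b) * r) (x + c * n) := by
    have : ∀ y, ((‖∑ n, g y n‖ ^ 2 : ℝ) : ℂ) = ∑ n, ∑ r, g y (n + r) * conj (g y n) := fun y => by
      rw [Complex.ofReal_pow, ← Complex.mul_conj', map_sum, mul_sum]
      refine sum_congr rfl fun n _ => ?_
      rw [Finset.sum_mul, ← sum_addL n]
    rw [Complex.ofReal_sum]
    simp only [this]
    rw [sum_comm]
    simp only [sum_comm (f := fun y r => g y (_ + r) * conj (g y _))]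
    rw [sum_comm]
    refine sum_congr rfl fun r _ => ?_
    rw [sum_comm (f := fun x n => dd φ (-b * r) x * dd u ((a - b) * r) (x + a * n) *
      dd v ((c - b) * r) (x + c * n))]
    refine sum_congr rfl fun n _ => ?_
    rw [← sum_addR (b * n)]
    refine sum_congr rfl fun x _ => ?_
    simp only [hg, dd, map_mul]
    ring_nf
  have e3 : ‖∑ y, w y * ∑ n, g y n‖ ≤ ∑ y, ‖∑ n, g y n‖ :=
    (norm_sum_le _ _).trans (sum_le_sum fun y _ => by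
      rw [norm_mul]; exact mul_le_of_le_one_left (norm_nonneg _) (hw y))
  rw [e1]
  refine (pow_le_pow_left₀ (norm_nonneg _) e3 2).trans (sq_sum_le_card_mul_sum_sq.trans ?_)
  rw [card_univ, ZMod.card]
  refine mul_le_mul_of_nonneg_left (le_trans ?_ (norm_sum_le _ _)) N_pos.le
  rw [← e2, Complex.norm_real]
  exact le_abs_self _

/-- Fourier expansion of a trilinear form -/
lemma four (P U V : ZMod N → ℂ) (a : ZMod N) {c : ZMod N} (hc : c ≠ 0) :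
    ∑ x, ∑ n, P x * U (x + a * n) * V (x + c * n) =
      (N : ℂ) ^ 2 * ∑ ξ, ft P ((a / c - 1) * ξ) * ft U ξ * ft V (-(a / c) * ξ) := by
  have e1 : ∀ x n, P x * U (x + a * n) * V (x + c * n) = ∑ ξ, ft U ξ *
      (P x * e (pr ((1 - a / c) * ξ) x) * (V (x + c * n) * e (pr (a / c * ξ) (x + c * n)))) := by
    intro x n
    rw [ft_inv U (x + a * n), mul_sum, Finset.sum_mul]
    refine sum_congr rfl fun ξ _ => ?_
    have : pr ξ (x + a * n) = pr ((1 - a / c) * ξ) x + pr (a / c * ξ) (x + c * n) := by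
      simp only [pr, ← map_add]
      congr 1
      field_simp
      ring
    rw [this, e_add]
    ring
  simp only [e1]
  rw [mul_sum]
  simp only [sum_comm (f := fun n ξ => ft U ξ * (P _ * e (pr ((1 - a / c) * ξ) _) *
    (V (_ + c * n) * e (pr (a / c * ξ) (_ + c * n)))))]
  rw [sum_comm]
  refine sum_congr rfl fun ξ _ => ?_
  have e2 : ∀ x, ∑ n, V (x + c * n) * e (pr (a / c * ξ) (x + c * n)) =
      N * ft V (-(a / c * ξ)) := fun x => by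
    rw [← sum_eq_ft, sum_mul hc (fun z => V (x + z) * e (pr (a / c * ξ) (x + z))),
      sum_addL x fun z => V z * e (pr (a / c * ξ) z)]
  simp only [← mul_sum, e2]
  rw [← Finset.sum_mul, sum_eq_ft, ← neg_mul, ← neg_mul, neg_sub]
  ring

lemma parseval_le {f : ZMod N → ℂ} (hf : ∀ x, ‖f x‖ ≤ 1) :
    ∑ ξ, ‖ft f ξ‖ ^ 2 ≤ (N : ℝ)⁻¹ * ∑ x, ‖f x‖ := by
  rw [parseval]
  gcongr with x
  nlinarith [hf x, norm_nonneg (f x)]

lemma avg_le {f : ZMod N → ℂ} (hf : ∀ x, ‖f x‖ ≤ 1) : (N : ℝ)⁻¹ * ∑ x, ‖f x‖ ≤ 1 := by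
  rw [inv_mul_le_iff₀ N_pos, mul_one]
  refine (sum_le_card_nsmul _ _ 1 fun x _ => hf x).trans ?_
  simp

/-- splitting the frequencies -/
lemma split {P U V : ZMod N → ℂ} (hU : ∀ x, ‖U x‖ ≤ 1) (hV : ∀ x, ‖V x‖ ≤ 1) (c0 : ZMod N)
    {c1 : ZMod N} (hc : c1 ≠ 0) {t : ℝ} (ht : 0 ≤ t) :
    ‖∑ ξ, ft P (c0 * ξ) * ft U ξ * ft V (c1 * ξ)‖ ≤ t + ((N : ℝ)⁻¹ * ∑ x, ‖P x‖) *
      √(∑ ξ with t ≤ ‖ft P (c0 * ξ)‖, ‖ft U ξ‖ ^ 2) := by
  have h1 := (parseval_le hU).trans (avg_le hU)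
  have h2 := (parseval_le hV).trans (avg_le hV)
  rw [← sum_mul hc] at h2
  have h3 : ∀ S : Finset (ZMod N), ∑ ξ ∈ S, ‖ft U ξ‖ * ‖ft V (c1 * ξ)‖ ≤
      √(∑ ξ ∈ S, ‖ft U ξ‖ ^ 2) := fun S => by
    refine (Real.sum_mul_le_sqrt_mul_sqrt S _ _).trans (mul_le_of_le_one_right (sqrt_nonneg _) ?_)
    exact Real.sqrt_le_one.2 ((sum_le_univ_sum_of_nonneg fun _ => sq_nonneg _).trans h2)
  refine (norm_sum_le _ _).trans ?_
  rw [← sum_filter_not_add_sum_filter _ fun ξ => t ≤ ‖ft P (c0 * ξ)‖]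
  refine add_le_add ?_ ?_
  · refine le_trans ?_ (mul_le_of_le_one_right ht ((h3 {ξ | ¬ t ≤ ‖ft P (c0 * ξ)‖}).trans
      (Real.sqrt_le_one.2 ((sum_le_univ_sum_of_nonneg fun _ => sq_nonneg _).trans h1))))
    rw [mul_sum]
    refine sum_le_sum fun ξ hξ => ?_
    rw [norm_mul, norm_mul, mul_assoc]
    gcongr
    exact (not_le.1 (mem_filter.1 hξ).2).le
  · refine le_trans ?_ (mul_le_mul_of_nonneg_left (h3 _) (by positivity))
    rw [mul_sum]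
    refine sum_le_sum fun ξ hξ => ?_
    rw [norm_mul, norm_mul, mul_assoc]
    gcongr
    exact norm_ft_le _ _

lemma two_mul_le_exp {p : ℝ} (hp : 2 ≤ p) : 2 * p ≤ exp p := by
  nlinarith [Real.quadratic_le_exp_of_nonneg (by linarith : 0 ≤ p), sq_nonneg (p - 1)]

/-- the size and the dimension of the large spectrum -/
lemma spec {p γ : ℝ} (hp : 2 ≤ p) (h1 : 1 / p ≤ γ) (h2 : γ ≤ 1 / 2) {P : ZMod N → ℂ}
    (hP : ∀ x, ‖P x‖ ≤ 1) {c0 : ZMod N} (hc : c0 ≠ 0)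
    (hw : γ ^ 2 * exp (-p) ^ 2 / 4 ≤ (N : ℝ)⁻¹ * ∑ x, ‖P x‖) :
    (#{ξ | γ ^ 2 / 4 * ((N : ℝ)⁻¹ * ∑ x, ‖P x‖) ≤ ‖ft P (c0 * ξ)‖} : ℝ) ≤ exp (p ^ 15) ∧
    ∀ Λ ⊆ ({ξ | γ ^ 2 / 4 * ((N : ℝ)⁻¹ * ∑ x, ‖P x‖) ≤ ‖ft P (c0 * ξ)‖} : Finset (ZMod N)),
      AddDissociated (Λ : Set (ZMod N)) → (Λ.card : ℝ) ≤ p ^ 15 := by
  have p0 : 0 < p := by linarith
  have g0 : 0 < γ := lt_of_lt_of_le (by positivity) h1
  have g1 : 1 ≤ p * γ := by rwa [div_le_iff₀ p0, mul_comm] at h1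
  have x1 := two_mul_le_exp hp
  have x0 : exp p * exp (-p) = 1 := by rw [← exp_add]; simp
  have q : ∀ k : ℕ, (2 : ℝ) ^ k ≤ p ^ k := fun k => pow_le_pow_left₀ (by norm_num) hp k
  constructor
  · have k1 := parseval_le hP
    rw [← sum_mul hc] at k1
    set w := (N : ℝ)⁻¹ * ∑ x, ‖P x‖
    have w0 : 0 < w := lt_of_lt_of_le (by positivity) hw
    have k2 := (card_nsmul_le_sum {ξ | γ ^ 2 / 4 * w ≤ ‖ft P (c0 * ξ)‖}
      (fun ξ => ‖ft P (c0 * ξ)‖ ^ 2) ((γ ^ 2 / 4 * w) ^ 2) fun ξ hξ =>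
        pow_le_pow_left₀ (by positivity) (mem_filter.1 hξ).2 2).trans
      ((sum_le_univ_sum_of_nonneg fun _ => sq_nonneg _).trans k1)
    rw [nsmul_eq_mul] at k2
    generalize (#{ξ | γ ^ 2 / 4 * w ≤ ‖ft P (c0 * ξ)‖} : ℝ) = m at k2
    rcases le_total m 0 with hm | hm
    · exact hm.trans (exp_pos _).le
    have k3 : m * (γ ^ 4 / 16 * w) ≤ 1 := le_of_mul_le_mul_right (by linarith) w0
    have k4 : m * (γ ^ 4 / 16 * (γ ^ 2 * exp (-p) ^ 2 / 4)) ≤ 1 := le_trans (by gcongr) k3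
    calc m = m * 1 ^ 6 * (exp p * exp (-p)) ^ 2 := by rw [x0]; ring
      _ ≤ m * (p * γ) ^ 6 * (exp p * exp (-p)) ^ 2 := by gcongr
      _ = (m * (γ ^ 4 / 16 * (γ ^ 2 * exp (-p) ^ 2 / 4))) * ((2 * p) ^ 6 * exp p ^ 2) := by ring
      _ ≤ 1 * (exp p ^ 6 * exp p ^ 2) := by gcongr
      _ = exp (8 * p) := by rw [one_mul, ← pow_add, ← exp_nat_mul]; norm_num
      _ ≤ exp (p ^ 15) := by
        gcongr
        nlinarith [q 14]
  · intro Λ hΛ hd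
    have hd' : AddDissociated ((Λ.image (c0 * ·) : Finset (ZMod N)) : Set (ZMod N)) := by
      have := (AddEquiv.addDissociated_preimage (AddAut.mulLeft (Units.mk0 c0 hc)⁻¹)).2 hd
      refine this.subset fun x hx => ?_
      obtain ⟨y, hy, rfl⟩ := mem_image.1 hx
      show (((Units.mk0 c0 hc)⁻¹ : (ZMod N)ˣ) : ZMod N) * (c0 * y) ∈ (Λ : Set (ZMod N))
      simpa [← mul_assoc, hc] using hy
    have k := chang hP (α := γ ^ 2 * exp (-p) ^ 2 / 4) (ε := γ ^ 2 / 4) (by positivity)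
      (by positivity) (by nlinarith) (by rwa [le_inv_mul_iff₀ N_pos, mul_comm] at hw) hd'
      (fun ξ hξ => by
        obtain ⟨y, hy, rfl⟩ := mem_image.1 hξ
        exact (mem_filter.1 (hΛ hy)).2)
    rw [card_image_of_injective _ (mul_right_injective₀ hc)] at k
    have k1 : 8 / (γ ^ 2 / 4) ^ 2 ≤ 128 * p ^ 4 := by
      rw [div_le_iff₀ (by positivity)]
      nlinarith [one_le_pow₀ (n := 4) g1]
    have k2 : Real.log (2 / (γ ^ 2 * exp (-p) ^ 2 / 4)) ≤ 5 * p := by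
      rw [Real.log_le_iff_le_exp (by positivity), div_le_iff₀ (by positivity)]
      calc (2 : ℝ) = 2 * 1 ^ 2 * (exp p * exp (-p)) ^ 2 := by rw [x0]; ring
        _ ≤ (2 * p) * (p * γ) ^ 2 * (exp p * exp (-p)) ^ 2 := by gcongr; linarith
        _ = (2 * p) ^ 3 * exp p ^ 2 * (γ ^ 2 * exp (-p) ^ 2 / 4) := by ring
        _ ≤ exp p ^ 3 * exp p ^ 2 * (γ ^ 2 * exp (-p) ^ 2 / 4) := by gcongr
        _ = _ := by rw [← pow_add, ← exp_nat_mul]; norm_num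
    calc (Λ.card : ℝ) ≤ _ := k
      _ ≤ 8 / (γ ^ 2 / 4) ^ 2 * (5 * p) := by gcongr
      _ ≤ 128 * p ^ 4 * (5 * p) := by gcongr
      _ = 640 * p ^ 5 := by ring
      _ ≤ p ^ 10 * p ^ 5 := by gcongr; linarith [q 10]
      _ = p ^ 15 := by ring

theorem core {p γ : ℝ} (hp : 2 ≤ p) (h1 : 1 / p ≤ γ) (h2 : γ ≤ 1 / 2) {φ u v w : ZMod N → ℂ}
    (hφ : ∀ x, ‖φ x‖ ≤ 1) (hu : ∀ x, ‖u x‖ ≤ 1) (hv : ∀ x, ‖v x‖ ≤ 1) (hw : ∀ x, ‖w x‖ ≤ 1)
    {a b c : ZMod N} (ha : a ≠ 0) (hb : b ≠ 0) (hc : c ≠ 0) (hab : a ≠ b) (hac : a ≠ c)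
    (h3 : exp (-p) * N ≤ ∑ x, ‖φ x‖) (h4 : γ * N * ∑ x, ‖φ x‖ ≤
      ‖∑ x, ∑ n, φ x * (u (x + a * n) * v (x + c * n) * w (x + b * n))‖) :
    SpecMass (p ^ 15) (γ ^ 4 / 16) u := by
  have p0 : 0 < p := by linarith
  have g0 : 0 < γ := lt_of_lt_of_le (by positivity) h1
  have g1 : 1 ≤ p * γ := by rwa [div_le_iff₀ p0, mul_comm] at h1
  have N0 : (0 : ℝ) < N := N_pos
  obtain ⟨ρ, hρ⟩ : ∃ ρ : ℝ, ∑ x, ‖φ x‖ = ρ * N := ⟨_, (div_mul_cancel₀ _ N0.ne').symm⟩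
  rw [hρ] at h3 h4
  have r1 : exp (-p) ≤ ρ := le_of_mul_le_mul_right h3 N0
  have r0 : 0 < ρ := (exp_pos _).trans_le r1
  have c0 : a / c - 1 ≠ 0 := fun h => hac ((div_eq_one_iff_eq hc).1 (sub_eq_zero.1 h))
  have c1 : -(a / c) ≠ 0 := neg_ne_zero.2 (div_ne_zero ha hc)
  set W : ZMod N → ℝ := fun r => (N : ℝ)⁻¹ * ∑ x, ‖dd φ (-b * r) x‖ with hW
  set S : ZMod N → Finset (ZMod N) := fun r =>
    {ξ | γ ^ 2 / 4 * W r ≤ ‖ft (dd φ (-b * r)) ((a / c - 1) * ξ)‖} with hS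
  set m : ZMod N → ℝ := fun r => ∑ ξ ∈ S r, mm u ((a - b) * r) ξ with hm
  have W0 : ∀ r, 0 ≤ W r := fun r => by positivity
  have W1 : ∀ r, W r ≤ ρ := fun r => by
    rw [hW, inv_mul_le_iff₀ N0, mul_comm _ ρ, ← hρ]
    refine sum_le_sum fun x _ => ?_
    rw [dd, norm_mul, Complex.norm_conj]
    exact mul_le_of_le_one_left (norm_nonneg _) (hφ _)
  have W2 : ∑ r, W r = ρ ^ 2 * N := by
    rw [← mul_sum, sum_comm, inv_mul_eq_iff_eq_mul₀ N0.ne']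
    simp only [dd, norm_mul, Complex.norm_conj, ← Finset.sum_mul]
    have : ∀ x, ∑ r, ‖φ (x + -b * r)‖ = ρ * N := fun x => by
      rw [sum_mul (neg_ne_zero.2 hb) fun z => ‖φ (x + z)‖, ← hρ]
      exact sum_addL x fun z => ‖φ z‖
    simp only [this, ← mul_sum, hρ]
    ring
  have m1 : ∀ r, √(m r) ≤ 1 := fun r => Real.sqrt_le_one.2
    ((sum_le_univ_sum_of_nonneg fun _ => sq_nonneg _).trans (sum_mm_le hu _))
  have k1 : γ ^ 2 * ρ ^ 2 * N ≤ ∑ r, (γ ^ 2 / 4 * W r + W r * √(m r)) := by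
    have := (pow_le_pow_left₀ (by positivity) h4 2).trans (cs φ u v w hw a b c)
    simp only [four _ _ _ a hc, norm_mul, norm_pow, Complex.norm_natCast, ← mul_sum] at this
    refine le_trans ?_ (sum_le_sum fun r _ => split (P := dd φ (-b * r))
      (norm_dd_le hu ((a - b) * r)) (norm_dd_le hv ((c - b) * r)) (a / c - 1) c1
      (t := γ ^ 2 / 4 * W r) (by have := W0 r; positivity))
    refine le_of_mul_le_mul_left (le_trans (le_of_eq ?_) (this.trans (le_of_eq ?_)))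
      (pow_pos N0 3) <;> ring
  set R : Finset (ZMod N) := {r | γ ^ 2 * ρ ^ 2 / 4 ≤ W r ∧ γ ^ 4 / 16 ≤ m r} with hR
  have k2 : ∑ r, (γ ^ 2 / 4 * W r + W r * √(m r)) ≤
      ∑ r, (γ ^ 2 / 2 * W r + γ ^ 2 * ρ ^ 2 / 4 + if r ∈ R then ρ else 0) := by
    refine sum_le_sum fun r _ => ?_
    have a0 := W0 r
    have a1 := mul_le_of_le_one_right a0 (m1 r)
    have a2 : 0 ≤ γ ^ 2 * W r := by positivity
    have a3 : 0 ≤ γ ^ 2 * ρ ^ 2 := by positivity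
    split_ifs with h
    · linarith [W1 r]
    · rw [hR, mem_filter_univ, not_and_or, not_le, not_le] at h
      rcases h with h | h
      · linarith
      · have : √(m r) ≤ γ ^ 2 / 4 := Real.sqrt_le_iff.2 ⟨by positivity, by linarith⟩
        nlinarith [mul_le_mul_of_nonneg_left this a0]
  replace k2 := k1.trans k2
  rw [sum_add_distrib, sum_add_distrib, ← mul_sum, W2, sum_const, card_univ, ZMod.card,
    sum_ite_mem, univ_inter, sum_const, nsmul_eq_mul, nsmul_eq_mul] at k2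
  have k3 : γ ^ 2 * ρ / 4 * N ≤ R.card := le_of_mul_le_mul_right (by linarith) r0
  refine ⟨R.image ((a - b) * ·), ?_, fun h hh => ?_⟩
  · rw [card_image_of_injective _ (mul_right_injective₀ (sub_ne_zero.2 hab))]
    refine le_trans ?_ k3
    gcongr
    have x1 := two_mul_le_exp hp
    have x0 : exp p * exp (-p) = 1 := by rw [← exp_add]; simp
    calc exp (-p ^ 15) ≤ exp (3 * -p) := by
          gcongr
          nlinarith [pow_le_pow_left₀ (by norm_num) hp 14]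
      _ = 1 ^ 2 * exp (-p) ^ 2 * exp (-p) := by
          rw [one_pow, one_mul, ← pow_succ, ← exp_nat_mul]; norm_num
      _ ≤ (p * γ) ^ 2 * exp (-p) ^ 2 * ρ := by gcongr
      _ = (2 * p * exp (-p)) ^ 2 * (γ ^ 2 * ρ / 4) := by ring
      _ ≤ (exp p * exp (-p)) ^ 2 * (γ ^ 2 * ρ / 4) := by gcongr
      _ = _ := by rw [x0]; ring
  · obtain ⟨r, hr, rfl⟩ := mem_image.1 hh
    rw [hR, mem_filter_univ] at hr
    obtain ⟨s1, s2⟩ := spec hp h1 h2 (norm_dd_le hφ (-b * r)) c0 (le_trans (by gcongr) hr.1)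
    exact ⟨S r, s1, s2, hr.2⟩

end A1

theorem a1 : A1Stmt := by
  refine ⟨15, fun p γ hp h1 h2 N _ hN h3 φ f i ⟨hφ, hf, h4, h5⟩ => ?_⟩
  haveI := Fact.mk hN
  have t : ∀ k : ℕ, 0 < k → k ≤ 3 → (k : ZMod N) ≠ 0 := fun k a b h =>
    absurd (Nat.le_of_dvd a ((ZMod.natCast_eq_zero_iff k N).1 h)) (by omega)
  have t2 : (2 : ZMod N) ≠ 0 := by exact_mod_cast t 2 (by norm_num) (by norm_num)
  have t3 : (3 : ZMod N) ≠ 0 := by exact_mod_cast t 3 (by norm_num) (by norm_num)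
  have t12 : (1 : ZMod N) ≠ 2 := fun h => one_ne_zero (α := ZMod N) (by linear_combination -h)
  have t13 : (1 : ZMod N) ≠ 3 := fun h => t2 (by linear_combination -h)
  have t23 : (2 : ZMod N) ≠ 3 := fun h => one_ne_zero (α := ZMod N) (by linear_combination -h)
  fin_cases i
  · refine A1.core hp h1 h2 hφ (hf 0) (hf 2) (hf 1) one_ne_zero t2 t3 t12 t13 h4 (h5.trans_eq ?_)
    simp only [one_mul, mul_right_comm (f 0 _) (f 1 _)]
    rfl
  · refine A1.core hp h1 h2 hφ (hf 1) (hf 2) (hf 0) t2 one_ne_zero t3 t12.symm t23 h4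
      (h5.trans_eq ?_)
    simp only [one_mul, mul_rotate (f 0 _)]
    rfl
  · refine A1.core hp h1 h2 hφ (hf 2) (hf 1) (hf 0) t3 one_ne_zero t2 t13.symm t23.symm h4
      (h5.trans_eq ?_)
    simp only [one_mul, mul_rotate (f 0 _), mul_comm (f 1 _)]
    rfl

end Pool.Agent.Tri
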