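import Pool.Agent.Lib.MP_9721b5_an.Tri.Stmts

/-!
A bounded family of locally affine graphs carries the mass of the ambiguity function.
-/

set_option autoImplicit false

open Finset ComplexConjugate Real

namespace Pool.Agent.Tri

namespace A45

variable {N : ℕ} [NeZero N]

/-- a graph: domain, values, frequencies, linear part -/
abbrev Gr (N : ℕ) : Type :=
  Finset (ZMod N) × (ZMod N → ZMod N) × Finset (ZMod N) × (ZMod N → ZMod N)

/-- a large locally affine graph inside `S` -/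
def Good (S : ZMod N → Finset (ZMod N)) (P : ℝ) (g : Gr N) : Prop :=
  exp (-P) * N ≤ g.1.card ∧ (g.2.2.1.card : ℝ) ≤ P ∧ AddOn g.2.2.1 (exp (-P)) g.2.2.2 ∧
    GraphOn g.1 g.2.2.1 (exp (-P)) g.2.1 g.2.2.2 ∧ ∀ h ∈ g.1, g.2.1 h ∈ S h

/-- a family of disjoint good graphs -/
def Fam (S : ZMod N → Finset (ZMod N)) (P : ℝ) (F : Finset (Gr N)) : Prop :=
  (∀ g ∈ F, Good S P g) ∧ ∀ g ∈ F, ∀ g' ∈ F, ∀ h ∈ g.1, h ∈ g'.1 → g.2.1 h = g'.2.1 h → g = g'

/-- the covered values -/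
def cov (F : Finset (Gr N)) (h : ZMod N) : Finset (ZMod N) :=
  (F.filter fun g => h ∈ g.1).image fun g => g.2.1 h

omit [NeZero N] in
lemma mem_cov {F : Finset (Gr N)} {h η : ZMod N} :
    η ∈ cov F h ↔ ∃ g ∈ F, h ∈ g.1 ∧ g.2.1 h = η := by
  simp only [cov, mem_image, mem_filter, and_assoc]

lemma Fam.card_le {S : ZMod N → Finset (ZMod N)} {P p : ℝ} {F : Finset (Gr N)} (hF : Fam S P F)
    (hS : ∀ h, ((S h).card : ℝ) ≤ exp p) : (F.card : ℝ) ≤ exp (p + P) := by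
  have hN : (0 : ℝ) < N := Nat.cast_pos.2 (NeZero.pos N)
  have h1 : (F.card : ℝ) * (exp (-P) * N) ≤ ∑ g ∈ F, (g.1.card : ℝ) := by
    simpa using card_nsmul_le_sum F (fun g => (g.1.card : ℝ)) _ fun g hg => (hF.1 g hg).1
  have h2 : ∑ g ∈ F, g.1.card = ∑ h : ZMod N, (F.filter fun g => h ∈ g.1).card := by
    simp only [card_filter]
    rw [sum_comm]
    simp
  have h3 : ∀ h, (((F.filter fun g => h ∈ g.1).card : ℕ) : ℝ) ≤ exp p := fun h =>
    (Nat.cast_le.2 (card_le_card_of_injOn (fun g => g.2.1 h)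
      (fun g hg => (hF.1 g (mem_filter.1 hg).1).2.2.2.2 h (mem_filter.1 hg).2)
      fun g hg g' hg' e => hF.2 g (mem_filter.1 hg).1 g' (mem_filter.1 hg').1 h
        (mem_filter.1 hg).2 (mem_filter.1 hg').2 e)).trans (hS h)
  have h4 : ∑ g ∈ F, (g.1.card : ℝ) ≤ N * exp p := by
    rw [← Nat.cast_sum, h2, Nat.cast_sum]
    simpa using sum_le_card_nsmul univ _ _ fun h _ => h3 h
  have h5 : exp (p + P) * (exp (-P) * N) = N * exp p := by
    rw [← mul_assoc, ← exp_add, add_neg_cancel_right, mul_comm]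
  exact le_of_mul_le_mul_right (h5 ▸ h1.trans h4) (by positivity)

lemma exists_fam {S : ZMod N → Finset (ZMod N)} {P δ : ℝ}
    (hG : ∀ (R : Finset (ZMod N)) (ξ : ZMod N → ZMod N), δ ≤ R.card → (∀ h ∈ R, ξ h ∈ S h) →
      ∃ A ⊆ R, ∃ (Θ : Finset (ZMod N)) (L : ZMod N → ZMod N), exp (-P) * N ≤ A.card ∧
        (Θ.card : ℝ) ≤ P ∧ AddOn Θ (exp (-P)) L ∧ GraphOn A Θ (exp (-P)) ξ L) :
    ∃ F, Fam S P F ∧ ∀ U : Finset (ZMod N), (∀ h ∈ U, ¬ S h ⊆ cov F h) → U.card < δ := by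
  classical
  have hN : (0 : ℝ) < N := Nat.cast_pos.2 (NeZero.pos N)
  obtain ⟨F, hF, hmax⟩ := exists_max_image (univ.filter (Fam S P)) card
    ⟨∅, mem_filter.2 ⟨mem_univ _, by simp [Fam]⟩⟩
  replace hF := (mem_filter.1 hF).2
  refine ⟨F, hF, fun U hU => lt_of_not_ge fun hδ => ?_⟩
  choose! ξ h1 h2 using fun h hh => not_subset.1 (hU h hh)
  obtain ⟨A, hA, Θ, L, h3, h4, h5, h6⟩ := hG U ξ hδ h1
  have h7 : ∀ g ∈ F, ∀ h ∈ g.1, h ∈ A → g.2.1 h ≠ ξ h := fun g hg h hh hh' e =>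
    h2 h (hA hh') (mem_cov.2 ⟨g, hg, hh, e⟩)
  have h8 : (A, ξ, Θ, L) ∉ F := fun hm => by
    obtain ⟨h, hh⟩ := card_pos.1 (Nat.cast_pos.1 ((mul_pos (exp_pos _) hN).trans_le h3))
    exact h7 _ hm h hh hh rfl
  have h9 := hmax (insert (A, ξ, Θ, L) F) (mem_filter.2 ⟨mem_univ _, fun g hg => ?_,
    fun g hg g' hg' h hh hh' e => ?_⟩)
  · rw [card_insert_of_notMem h8] at h9
    omega
  · rcases mem_insert.1 hg with rfl | hg
    · exact ⟨h3, h4, h5, h6, fun h hh => h1 h (hA hh)⟩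
    · exact hF.1 g hg
  · rcases mem_insert.1 hg with rfl | hg <;> rcases mem_insert.1 hg' with rfl | hg'
    · rfl
    · exact absurd e.symm (h7 g' hg' h hh' hh)
    · exact absurd e (h7 g hg h hh hh')
    · exact hF.2 g hg g' hg' h hh hh' e

lemma exists_index {F : Finset (Gr N)} {h : ZMod N} {n : ℕ} (hne : (cov F h).Nonempty)
    (hd : ∀ Λ ⊆ cov F h, AddDissociated (Λ : Set (ZMod N)) → Λ.card ≤ n) :
    ∃ j : Fin n → Gr N, (∀ i, j i ∈ F ∧ h ∈ (j i).1) ∧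
      cov F h ⊆ (cube n).image fun a => comb (fun i => (j i).2.1) a h := by
  obtain ⟨Λ, h1, h2, h3⟩ := exists_subset_addSpan_card_le_of_forall_addDissociated hd
  obtain ⟨η₀, h0⟩ := hne
  obtain ⟨g₀, hg₀, hh₀, -⟩ := mem_cov.1 h0
  obtain ⟨e⟩ : Nonempty (Λ ↪ Fin n) := Function.Embedding.nonempty_of_card_le (by simpa using h2)
  choose g h4 h5 h6 using fun l : Λ => mem_cov.1 (h1 l.2)
  refine ⟨Function.extend e g fun _ => g₀, fun i => ?_, fun η hη => ?_⟩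
  · by_cases hi : ∃ l, e l = i
    · obtain ⟨l, rfl⟩ := hi
      rw [e.injective.extend_apply]
      exact ⟨h4 l, h5 l⟩
    · rw [Function.extend_apply' _ _ _ hi]
      exact ⟨hg₀, hh₀⟩
  · obtain ⟨ε, h7, h8⟩ := mem_addSpan.1 (h3 hη)
    refine mem_image.2 ⟨Function.extend e (fun l => ε l) 0, Fintype.mem_piFinset.2 fun i => ?_, ?_⟩
    · by_cases hi : ∃ l, e l = i
      · obtain ⟨l, rfl⟩ := hi
        rw [e.injective.extend_apply]
        simpa using h7 l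
      · rw [Function.extend_apply' _ _ _ hi]
        simp
    · rw [← h8, ← sum_coe_sort]
      refine (Fintype.sum_of_injective e e.injective _ _ (fun i hi => ?_) fun l => ?_).symm
      · rw [Function.extend_apply' _ _ _ hi]
        simp
      · simp only [e.injective.extend_apply, h6]

lemma pow_bound {p : ℝ} (hp : 2 ≤ p) (C : ℕ) :
    2 * p + p * (p + (2 * p) ^ C) ≤ p ^ (2 * C + 4) := by
  have h1 : (2 * p) ^ C ≤ p ^ (2 * C + 1) := by
    calc (2 * p) ^ C ≤ (p ^ 2) ^ C := pow_le_pow_left₀ (by linarith) (by nlinarith) C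
      _ ≤ _ := by
        rw [← pow_mul]
        exact pow_le_pow_right₀ (by linarith) (by omega)
  have h2 : p ≤ p ^ (2 * C + 1) := le_self_pow₀ (by linarith) (by omega)
  rw [show p ^ (2 * C + 4) = p * p * p * p ^ (2 * C + 1) by ring]
  generalize p ^ (2 * C + 1) = Q at h1 h2
  have h3 : p * (p + (2 * p) ^ C) ≤ p * (2 * Q) := by gcongr; linarith
  have h4 : 4 * (p * Q) ≤ p * p * (p * Q) :=
    mul_le_mul_of_nonneg_right (by nlinarith) (by nlinarith)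
  nlinarith

end A45

open A45 in
theorem a45 (hG : GraphStmt) : A45Stmt := by
  classical
  obtain ⟨C, hC⟩ := hG
  refine ⟨2 * C + 4, fun p γ hp hγ N _ f hf ⟨R₀, hR, hS⟩ => ?_⟩
  have hN : (0 : ℝ) < N := Nat.cast_pos.2 (NeZero.pos N)
  have hp0 : 0 < p := by linarith
  have hγ0 : 0 < γ := (one_div_pos.2 hp0).trans_le hγ
  have hm : ∀ h η, 0 ≤ mm f h η := fun h η => sq_nonneg _
  have hP : 0 < (2 * p) ^ C := by positivity
  have hb := pow_bound hp C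
  have hpp := mul_pos hp0 hp0
  have hpP := mul_pos hp0 hP
  choose! S₀ h1 h2 h3 using hS
  let S : ZMod N → Finset (ZMod N) := fun h =>
    if h ∈ R₀ then (S₀ h).filter fun η => exp (-(2 * p)) ≤ mm f h η else ∅
  have s1 : ∀ h, ∀ η ∈ S h, h ∈ R₀ ∧ η ∈ S₀ h ∧ exp (-(2 * p)) ≤ mm f h η := fun h η hη => by
    by_cases hh : h ∈ R₀ <;> simp_all [S]
  have s2 : ∀ h, ((S h).card : ℝ) ≤ exp p := fun h => by
    by_cases hh : h ∈ R₀
    · exact (Nat.cast_le.2 (card_le_card fun η hη => (s1 h η hη).2.1)).trans (h1 h hh)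
    · simp [S, hh, (exp_pos p).le]
  have e1 : exp p * exp (-(2 * p)) = exp (-p) := by rw [← exp_add]; congr 1; ring
  have e2 : exp (-p) ≤ 1 / p := by
    rw [exp_neg, ← one_div]
    exact one_div_le_one_div_of_le hp0 (by linarith [add_one_le_exp p])
  have e3 : 2 * exp (-(2 * p)) ≤ exp (-p) :=
    e1 ▸ mul_le_mul_of_nonneg_right (by linarith [add_one_le_exp p]) (exp_pos _).le
  have s3 : ∀ h ∈ R₀, γ ≤ ∑ η ∈ S h, mm f h η := fun h hh => by
    have h4 := sum_filter_add_sum_filter_not (S₀ h) (fun η => exp (-(2 * p)) ≤ mm f h η) (mm f h)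
    have h5 := sum_le_card_nsmul ((S₀ h).filter fun η => ¬ exp (-(2 * p)) ≤ mm f h η) (mm f h)
      (exp (-(2 * p))) fun η hη => (not_le.1 (mem_filter.1 hη).2).le
    have h6 : (((S₀ h).filter fun η => ¬ exp (-(2 * p)) ≤ mm f h η).card : ℝ) ≤ exp p :=
      (Nat.cast_le.2 (card_filter_le _ _)).trans (h1 h hh)
    rw [nsmul_eq_mul] at h5
    have h7 := mul_le_mul_of_nonneg_right h6 (exp_pos (-(2 * p))).le
    simp only [S, if_pos hh]
    linarith [h3 h hh]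
  obtain ⟨F, hF, hU⟩ := exists_fam (S := S) (δ := exp (-(2 * p)) * N) fun R ξ h4 h5 =>
    hC (2 * p) (by linarith) N f hf R ξ h4 fun h hh => (s1 h _ (h5 h hh)).2.2
  have c1 : ∀ h, cov F h ⊆ S h := fun h η hη => by
    obtain ⟨g, hg, hh, rfl⟩ := mem_cov.1 hη
    exact (hF.1 g hg).2.2.2.2 h hh
  obtain ⟨R₁, hR₁⟩ : ∃ R₁, R₁ = R₀.filter fun h => γ ≤ ∑ η ∈ cov F h, mm f h η := ⟨_, rfl⟩
  have r1 : ∀ h ∈ R₁, h ∈ R₀ ∧ γ ≤ ∑ η ∈ cov F h, mm f h η := fun h hh => by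
    simpa [hR₁] using hh
  have r2 : exp (-(2 * p)) * N ≤ R₁.card := by
    have h4 := hU (R₀.filter fun h => ¬ γ ≤ ∑ η ∈ cov F h, mm f h η) fun h hh hs =>
      (mem_filter.1 hh).2 ((s3 h (mem_filter.1 hh).1).trans
        (sum_le_sum_of_subset_of_nonneg hs fun η _ _ => hm h η))
    have h5 := congrArg (Nat.cast (R := ℝ))
      (card_filter_add_card_filter_not (s := R₀) fun h => γ ≤ ∑ η ∈ cov F h, mm f h η)
    rw [Nat.cast_add, ← hR₁] at h5
    nlinarith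
  have r3 : ∀ h ∈ R₁, ∃ j : Fin ⌊p⌋₊ → Gr N, (∀ i, j i ∈ F ∧ h ∈ (j i).1) ∧
      cov F h ⊆ (cube ⌊p⌋₊).image fun a => comb (fun i => (j i).2.1) a h := fun h hh => by
    refine exists_index (nonempty_of_sum_ne_zero (hγ0.trans_le (r1 h hh).2).ne') fun Λ h4 h5 => ?_
    exact Nat.le_floor (h2 h (r1 h hh).1 Λ (fun η hη => (s1 h η (c1 h (h4 hη))).2.1) h5)
  choose! j j1 j2 using r3
  have hn : (⌊p⌋₊ : ℝ) ≤ p := Nat.floor_le hp0.le
  obtain ⟨h₀, hh₀⟩ := card_pos.1 (Nat.cast_pos.1 ((mul_pos (exp_pos _) hN).trans_le r2))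
  have j3 : ∀ h ∈ R₁, j h ∈ Fintype.piFinset fun _ : Fin ⌊p⌋₊ => F := fun h hh =>
    Fintype.mem_piFinset.2 fun i => (j1 h hh i).1
  obtain ⟨J, hJ, h4⟩ := exists_le_card_fiber_of_nsmul_le_card_of_maps_to
    (b := exp (-p ^ (2 * C + 4)) * N) j3 ⟨_, j3 h₀ hh₀⟩ (by
      refine le_trans ?_ r2
      rw [Fintype.card_piFinset, prod_const, card_univ, Fintype.card_fin, nsmul_eq_mul,
        Nat.cast_pow, ← mul_assoc]
      refine mul_le_mul_of_nonneg_right ?_ hN.le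
      calc _ ≤ exp (p + (2 * p) ^ C) ^ ⌊p⌋₊ * exp (-p ^ (2 * C + 4)) := by
            gcongr
            exact hF.card_le s2
        _ ≤ _ := by
            rw [← exp_nat_mul, ← exp_add, exp_le_exp]
            nlinarith [mul_le_mul_of_nonneg_right hn (add_pos hp0 hP).le])
  have g1 : ∀ i, Good S ((2 * p) ^ C) (J i) := fun i => hF.1 _ (Fintype.mem_piFinset.1 hJ i)
  have g2 : ∀ h ∈ R₁.filter fun h => j h = J, ∀ i, h ∈ (J i).1 := fun h hh i =>
    (mem_filter.1 hh).2 ▸ (j1 h (mem_filter.1 hh).1 i).2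
  have g3 : ∀ i u, InN (univ.biUnion fun i => (J i).2.2.1) (exp (-p ^ (2 * C + 4))) u →
      InN (J i).2.2.1 (exp (-(2 * p) ^ C)) u := fun i u hu θ hθ =>
    (hu θ (mem_biUnion.2 ⟨i, mem_univ _, hθ⟩)).trans (exp_le_exp.2 (by nlinarith))
  refine ⟨⌊p⌋₊, R₁.filter fun h => j h = J, fun i => (J i).2.1, fun i => (J i).2.2.2,
    univ.biUnion fun i => (J i).2.2.1, hn, h4, ?_,
    ⟨fun i u v hu hv => (g1 i).2.2.1 u v (g3 i u hu) (g3 i v hv),
      fun i h hh h' hh' hu => (g1 i).2.2.2.1 h (g2 h hh i) h' (g2 h' hh' i) (g3 i _ hu),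
      fun h hh => ?_⟩, fun i h hh => ?_⟩
  · have h5 := sum_le_card_nsmul univ (fun i => ((J i).2.2.1.card : ℝ)) _ fun i _ => (g1 i).2.1
    rw [card_univ, Fintype.card_fin, nsmul_eq_mul, ← Nat.cast_sum] at h5
    have h6 := (Nat.cast_le (α := ℝ)).2 (card_biUnion_le (s := univ) (t := fun i => (J i).2.2.1))
    nlinarith [mul_le_mul_of_nonneg_right hn hP.le]
  · obtain ⟨h5, rfl⟩ := mem_filter.1 hh
    exact (r1 h h5).2.trans (sum_le_sum_of_subset_of_nonneg (j2 h h5) fun η _ _ => hm h η)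
  · exact (exp_le_exp.2 (by nlinarith)).trans (s1 h _ ((g1 i).2.2.2.2 h (g2 h hh i))).2.2

end Pool.Agent.Tri
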