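import Pool.Agent.Lib.MP_9721b5_an.Tri.Stmts
import Pool.Agent.Lib.MP_9721b5_an.Tri.Basic0

/-!
Assembly of the sparse inverse theorem in `ZMod N`.
-/

set_option autoImplicit false

open Finset ComplexConjugate Real

namespace Pool.Agent.Tri

namespace AG

variable {N : ℕ} [NeZero N]

lemma exp_neg_le {a b : ℝ} (h : a ≤ b) : exp (-b) ≤ exp (-a) := exp_le_exp.2 (neg_le_neg h)

lemma spec_mono {p q γ : ℝ} {f : ZMod N → ℂ} (h : SpecMass p γ f) (hpq : p ≤ q) :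
    SpecMass q γ f := by
  obtain ⟨R, h1, h2⟩ := h
  refine ⟨R, (mul_le_mul_of_nonneg_right (exp_neg_le hpq) (Nat.cast_nonneg N)).trans h1,
    fun a ha => ?_⟩
  obtain ⟨S, h3, h4, h5⟩ := h2 a ha
  exact ⟨S, h3.trans (exp_le_exp.2 hpq), fun Λ a b => (h4 Λ a b).trans hpq, h5⟩

lemma addOn_mono {Θ Θ' : Finset (ZMod N)} {r r' : ℝ} {L : ZMod N → ZMod N} (h : AddOn Θ r L)
    (hΘ : Θ ⊆ Θ') (hr : r' ≤ r) : AddOn Θ' r' L :=
  fun u v hu hv => h u v (hu.mono hΘ hr) (hv.mono hΘ hr)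

lemma graphOn_mono {R Θ Θ' : Finset (ZMod N)} {r r' : ℝ} {ξ L : ZMod N → ZMod N}
    (h : GraphOn R Θ r ξ L) (hΘ : Θ ⊆ Θ') (hr : r' ≤ r) : GraphOn R Θ' r' ξ L :=
  fun u hu v hv hi => h u hu v hv (hi.mono hΘ hr)

lemma symOn_mono {Θ Θ' : Finset (ZMod N)} {r r' s : ℝ} {L : ZMod N → ZMod N} (h : SymOn Θ r s L)
    (hΘ : Θ ⊆ Θ') (hr : r' ≤ r) : SymOn Θ' r' s L :=
  fun u v hu hv => h u v (hu.mono hΘ hr) (hv.mono hΘ hr)

lemma loop_mono {d : ℕ} {R : Finset (ZMod N)} {ξ L : Fin d → ZMod N → ZMod N}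
    {Θ : Finset (ZMod N)} {r p₁ P P' : ℝ} (h : Nonempty (LoopOut R ξ L Θ r p₁ P)) (hP : P ≤ P') :
    Nonempty (LoopOut R ξ L Θ r p₁ P') :=
  h.elim fun o => ⟨{ o with card_le := o.card_le.trans hP, rad := (exp_neg_le hP).trans o.rad }⟩

lemma atom_mono {f : ZMod N → ℂ} {P P' s s' β c c' : ℝ} (h : AtomN f P s β c) (hP : P ≤ P')
    (hs : s' ≤ s) (hc : c' ≤ c) : AtomN f P' s' β c' := by
  obtain ⟨Θ, φ, h1, h2, h3⟩ := h
  refine ⟨Θ, φ, h1.trans hP, (cnt_mono fun y _ hy hq => hy fun u a b c hu ha hb hc =>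
    hq u a b c (hu.mono le_rfl hs) (ha.mono le_rfl hs) (hb.mono le_rfl hs)
      (hc.mono le_rfl hs)).trans h2, (mul_le_mul_of_nonneg_right hc (Nat.cast_nonneg N)).trans h3⟩

lemma mass_ge {p γ : ℝ} (hN : N.Prime) (h3 : 3 < N) {φ₀ : ZMod N → ℂ} {f : Fin 3 → ZMod N → ℂ}
    (i : Fin 3) (h : SparseHyp p γ φ₀ f) : γ * N ≤ ∑ y, ‖f i y‖ := by
  obtain ⟨-, h1, h2, h4⟩ := h
  have := Fact.mk hN
  have hpos : 0 < ∑ x, ‖φ₀ x‖ :=
    (mul_pos (exp_pos _) (Nat.cast_pos.2 hN.pos)).trans_le h2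
  have hu : ((i.val + 1 : ℕ) : ZMod N) ≠ 0 := fun e => by
    have := Nat.le_of_dvd (Nat.succ_pos _) ((ZMod.natCast_eq_zero_iff _ _).1 e)
    omega
  have key : ∀ x n, ‖f 0 (x + n) * f 1 (x + 2 * n) * f 2 (x + 3 * n)‖ ≤
      ‖f i (x + ((i.val + 1 : ℕ) : ZMod N) * n)‖ := fun x n => by
    have a0 := h1 0 (x + n)
    have a1 := h1 1 (x + 2 * n)
    have a2 := h1 2 (x + 3 * n)
    have b0 := norm_nonneg (f 0 (x + n))
    have b1 := norm_nonneg (f 1 (x + 2 * n))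
    have b2 := norm_nonneg (f 2 (x + 3 * n))
    rw [norm_mul, norm_mul]
    fin_cases i
    · simpa using (mul_le_of_le_one_right (mul_nonneg b0 b1) a2).trans
        (mul_le_of_le_one_right b0 a1)
    · simpa using (mul_le_of_le_one_right (mul_nonneg b0 b1) a2).trans
        (mul_le_of_le_one_left b1 a0)
    · simpa using mul_le_of_le_one_left b2 (mul_le_one₀ a0 b1 a1)
  refine le_of_mul_le_mul_right (h4.trans ((norm_sum_le _ _).trans ?_)) hpos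
  rw [mul_sum]
  refine sum_le_sum fun x _ => (norm_sum_le _ _).trans ?_
  rw [← Equiv.sum_comp ((Equiv.mulLeft₀ _ hu).trans (Equiv.addLeft x)) fun y => ‖f i y‖, sum_mul]
  refine sum_le_sum fun n _ => ?_
  rw [norm_mul, mul_comm]
  exact mul_le_mul_of_nonneg_right (key x n) (norm_nonneg _)

lemma atom_small {f : ZMod N → ℂ} {P s β c : ℝ} (hP : 1 ≤ P) (hs : s * N < 1) (hβ : 0 ≤ β)
    (hc : c * N ≤ ∑ y, ‖f y‖) : AtomN f P s β c := by
  choose t ht using fun y => exists_phase (f y)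
  have h0 : ∀ u : ZMod N, InN {1} s u → u = 0 := fun u hu => by
    obtain ⟨w, rfl, hw⟩ := exists_rep (hu 1 (mem_singleton_self _))
    have : |w| < 1 := by exact_mod_cast hw.trans_lt hs
    rw [Int.abs_lt_one_iff.1 this, Int.cast_zero]
  refine ⟨{1}, fun y => -t y, by simpa using hP, ?_, by simpa [ht] using hc⟩
  refine le_trans (not_lt.1 fun h => ?_) (mul_nonneg hβ (Nat.cast_nonneg N))
  obtain ⟨y, -, hy⟩ := (cnt_pos_iff _ _).1 h
  exact hy fun u a b c _ _ _ hc => by simp [d3, h0 c hc]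

lemma radius {p X Y : ℝ} (hp : 2 ≤ p) (hX : 0 ≤ X) (h1 : X ≤ Y) (h2 : p ≤ Y) :
    exp (-(8 * Y)) ≤ exp (-X) * exp (-p) / (100 * (X + 1)) := by
  have h3 : (100 : ℝ) ≤ exp 10 := by
    have := add_one_le_exp (5 / 2 : ℝ)
    have h4 : exp (10 : ℝ) = exp (5 / 2) ^ 4 := by rw [← exp_nat_mul]; norm_num
    rw [h4]
    exact le_trans (by norm_num) (pow_le_pow_left₀ (by norm_num) this 4)
  have h4 : 100 * (X + 1) ≤ exp (10 + X) := by
    rw [exp_add]; exact mul_le_mul h3 (add_one_le_exp X) (by linarith) (exp_pos _).le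
  rw [le_div_iff₀ (by positivity), ← exp_add]
  refine (mul_le_mul_of_nonneg_left h4 (exp_pos _).le).trans ?_
  rw [← exp_add]
  exact exp_le_exp.2 (by linarith)

end AG

open AG in
theorem ag (h1 : A1Stmt) (h45 : A45Stmt) (hs : SymStmt) (hl : LoopStmt) (he : EndStmt)
    (hc : CellsStmt) : AGStmt := by
  obtain ⟨C1, h1⟩ := h1
  obtain ⟨C2, h45⟩ := h45
  obtain ⟨C3, hs⟩ := hs
  obtain ⟨C4, hl⟩ := hl
  obtain ⟨C5, he⟩ := he
  let a := (C1 + 10) * (C2 + 1)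
  let m := a * (5 * C3 + 5) * (C4 + 1) * (C5 + 1)
  refine ⟨m + 21, fun p γ hp hγ hγ' N _ hN h3 φ₀ f i H => ?_⟩
  have hp1 : 1 ≤ p := by linarith
  have hp0 : 0 < p := by linarith
  have hγ0 : 0 < γ := (one_div_pos.2 hp0).trans_le hγ
  have hpw : ∀ {x : ℝ} {k l : ℕ}, 1 ≤ x → k ≤ l → x ^ k ≤ x ^ l := fun hx h => pow_le_pow_right₀ hx h
  have hge : ∀ {x : ℝ} {k : ℕ}, 1 ≤ x → x ≤ x ^ (k + 1) := fun hx => le_self_pow₀ hx (by omega)
  have ha : 1 ≤ a := Nat.mul_pos (by omega) (by omega)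
  have ham : a ≤ m := by
    simp only [m, mul_assoc]
    exact Nat.le_mul_of_pos_right _ (by positivity)
  have h8 : 8 * p ^ m ≤ p ^ (m + 21) := by
    rw [pow_add, mul_comm]
    refine mul_le_mul_of_nonneg_left (le_trans ?_ (hpw hp1 (by norm_num : 3 ≤ 21))) (by positivity)
    exact le_trans (by norm_num) (pow_le_pow_left₀ (by norm_num) hp 3)
  have hpm : p ≤ p ^ m := le_self_pow₀ hp1 (by omega)
  have hγ1 : γ ≤ 1 := by linarith
  obtain ⟨p₁, hp₁⟩ : ∃ p₁, p₁ = p ^ a := ⟨_, rfl⟩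
  have h2p₁ : 2 ≤ p₁ := hp₁ ▸ hp.trans (le_self_pow₀ hp1 (by omega))
  have h1p₁ : 1 ≤ p₁ := by linarith
  by_cases hsm : (N : ℝ) ≤ 16 * p₁
  · refine atom_small (one_le_pow₀ hp1) ?_ (exp_pos _).le
      ((mul_le_mul_of_nonneg_right (pow_le_of_le_one hγ0.le hγ1 (by omega))
        (Nat.cast_nonneg N)).trans (mass_ge hN h3 i H))
    have b1 : p₁ ≤ p ^ m := hp₁ ▸ hpw hp1 ham
    have b2 := radius (X := p₁) hp (by linarith) b1 hpm
    have b3 : exp (-p₁) * exp (-p) ≤ 1 := by rw [← exp_add, exp_le_one_iff]; linarith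
    have b4 := ((exp_neg_le h8).trans b2).trans (div_le_div_of_nonneg_right b3 (by positivity))
    rw [le_div_iff₀ (by positivity)] at b4
    nlinarith [exp_pos (-p ^ (m + 21))]
  have hf := H.2.1 i
  obtain ⟨q, hq⟩ : ∃ q, q = p ^ (C1 + 10) := ⟨_, rfl⟩
  have h2q : 2 ≤ q := hq ▸ hp.trans (le_self_pow₀ hp1 (by omega))
  have h1q : 1 ≤ q := by linarith
  have hqp : p₁ = q ^ (C2 + 1) := by rw [hp₁, hq, ← pow_mul]
  have hq1 : q ≤ p₁ := hqp ▸ hge h1q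
  have hq2 : q ^ C2 ≤ p₁ := hqp ▸ hpw h1q (by omega)
  have hγq : 1 / q ≤ γ ^ 4 / 64 := by
    have b1 : 64 * p ^ 4 ≤ q := by
      refine hq ▸ le_trans ?_ (hpw hp1 (by omega : 6 + 4 ≤ C1 + 10))
      rw [pow_add]
      exact mul_le_mul_of_nonneg_right
        (le_trans (by norm_num) (pow_le_pow_left₀ (by norm_num) hp 6)) (by positivity)
    refine (one_div_le_one_div_of_le (by positivity) b1).trans ?_
    have b2 := pow_le_pow_left₀ (by positivity) hγ 4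
    rw [show 1 / (64 * p ^ 4) = (1 / p) ^ 4 / 64 by field_simp]
    linarith
  obtain ⟨d, R, ξ, L, Θ, b1, b2, b3, b4, b5⟩ := h45 q (γ ^ 4 / 64) h2q hγq N (f i) hf (by
    rw [show 4 * (γ ^ 4 / 64) = γ ^ 4 / 16 by ring]
    exact spec_mono (h1 p γ hp hγ hγ' N hN h3 φ₀ f i H) (hq ▸ hpw hp1 (by omega)))
  have h5 : p₁ ≤ p₁ ^ 5 := hge h1p₁
  have hq5 := hq2.trans h5
  choose Θ' c1 c2 using fun j => hs (p₁ ^ 5) (h2p₁.trans h5) N (f i) hf R Θ (ξ j) (L j)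
    ((mul_le_mul_of_nonneg_right (exp_neg_le hq5) (Nat.cast_nonneg N)).trans b2) (b3.trans hq5)
    (addOn_mono (b4.add j) le_rfl (exp_neg_le hq5))
    (graphOn_mono (b4.graph j) le_rfl (exp_neg_le hq5))
    fun h hh => (exp_neg_le hq5).trans (b5 j h hh)
  obtain ⟨p₂, hp₂⟩ : ∃ p₂, p₂ = p₁ ^ (5 * C3 + 5) := ⟨_, rfl⟩
  have c3 : p₁ ^ 5 ≤ p₂ := hp₂ ▸ hpw h1p₁ (by omega)
  have c4 : (p₁ ^ 5) ^ C3 ≤ p₂ := by rw [hp₂, ← pow_mul]; exact hpw h1p₁ (by omega)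
  have h1p₂ : 1 ≤ p₂ := (h1p₁.trans h5).trans c3
  let Θ₁ := Θ ∪ univ.biUnion Θ'
  have c5 : Θ ⊆ Θ₁ := subset_union_left
  have c6 : ∀ j, Θ' j ⊆ Θ₁ := fun j =>
    (subset_biUnion_of_mem Θ' (mem_univ j)).trans subset_union_right
  have c7 : (Θ₁.card : ℝ) ≤ p₂ := by
    have e1 : (Θ₁.card : ℝ) ≤ Θ.card + ∑ j, ((Θ' j).card : ℝ) := by
      exact_mod_cast (card_union_le _ _).trans (Nat.add_le_add_left card_biUnion_le _)
    have e2 : ∑ j, ((Θ' j).card : ℝ) ≤ d * (p₁ ^ 5) ^ C3 := by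
      simpa using sum_le_card_nsmul univ _ _ fun j _ => c1 j
    have e3 : 1 ≤ (p₁ ^ 5) ^ C3 := one_le_pow₀ (h1p₁.trans h5)
    have e4 : p₂ = p₁ ^ 5 * (p₁ ^ 5) ^ C3 := by rw [hp₂, ← pow_mul, ← pow_add, add_comm]
    have e5 : 2 * p₁ ≤ p₁ ^ 5 := le_trans (by nlinarith) (hpw h1p₁ (by norm_num : 2 ≤ 5))
    have e6 := mul_le_mul_of_nonneg_right (b1.trans hq1) (zero_le_one.trans e3)
    have e7 := mul_le_mul_of_nonneg_right e5 (zero_le_one.trans e3)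
    nlinarith
  have c8 := exp_neg_le (hq5.trans c3)
  have c9 : ∀ j, SymOn Θ₁ (exp (-p₂)) (exp (-p₁ ^ 5)) (L j) := fun j =>
    symOn_mono (c2 j) (c6 j) (exp_neg_le c4)
  have d1 : FamOK (f i) R ξ L Θ₁ (exp (-p₂)) (γ ^ 4 / 64) :=
    ⟨fun j => addOn_mono (b4.add j) c5 c8, fun j => graphOn_mono (b4.graph j) c5 c8, b4.mass⟩
  have d2 := loop_mono (P' := p₂ ^ (C4 + 1)) (hl p₁ p₂ h2p₁ c3 N hN (not_le.1 hsm) d R ξ L Θ₁
    (b1.trans hq1) ((mul_le_mul_of_nonneg_right (exp_neg_le hq2) (Nat.cast_nonneg N)).trans b2)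
    c7 d1.add d1.graph c9) (hpw h1p₂ (by omega))
  have d3 := hc N (f i) _ _ _ (exp (-p)) hf (exp_pos _) (exp_le_one_iff.2 (by linarith))
    (he p₁ _ _ _ h2p₁ (c3.trans (hge h1p₂)) (exp_pos _)
      ((one_div_le_one_div_of_le (by linarith) hq1).trans hγq) N hN (by omega) (f i) hf d R ξ L Θ₁
      (b1.trans hq1) d1 c9 d2)
  have d4 : (p₂ ^ (C4 + 1)) ^ C5 ≤ p ^ m := by
    refine (hpw (one_le_pow₀ h1p₂) (Nat.le_succ C5)).trans_eq ?_
    rw [hp₂, hp₁, ← pow_mul, ← pow_mul, ← pow_mul]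
    simp only [m, mul_assoc]
  refine atom_mono d3 (d4.trans (hpw hp1 (by omega)))
    ((exp_neg_le h8).trans (radius hp (by positivity) d4 hpm)) ?_
  refine (pow_le_pow_of_le_one hγ0.le hγ1 (by omega : 4 + 17 ≤ m + 21)).trans ?_
  have d5 := pow_le_pow_left₀ hγ0.le hγ' 17
  have d6 : 0 ≤ γ ^ 4 := by positivity
  rw [pow_add]
  refine (mul_le_mul_of_nonneg_left d5 d6).trans ?_
  norm_num
  linarith

end Pool.Agent.Tri
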