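import Pool.Agent.Lib.MP_9721b5_an.Tri.Stmts
import Pool.Agent.Lib.MP_9721b5_an.Tri.Basic0

/-!
Transfer of the sparse inverse theorem from cyclic groups to dyadic nodes.
-/

set_option autoImplicit false

open Finset Real

namespace Pool.Agent.Tri

namespace AZ

/-- the block `q` lies in the window of `x` -/
def Good (a b x N q : ℕ) : Prop := x < q * b ∧ (q + 1) * b ≤ x + a * N + 1

instance (a b x N q : ℕ) : Decidable (Good a b x N q) := inferInstanceAs (Decidable (_ ∧ _))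

/-- the part of the sum that comes from a block -/
def blk (a b x N q : ℕ) (F : ℕ → ℝ) : ℝ :=
  ∑ n ∈ Icc 1 N, if (x + a * n) / b = q ∧ Good a b x N q then F n else 0

lemma abs_blk_le (a b x N q : ℕ) {F : ℕ → ℝ} (hF : ∀ n, |F n| ≤ 1) : |blk a b x N q F| ≤ N := by
  refine (abs_sum_le_sum_abs _ _).trans ((sum_le_card_nsmul _ _ 1 fun n _ => ?_).trans (by simp))
  split_ifs
  exacts [hF n, by simp]

lemma le_blk {a b x N : ℕ} (ha : 0 < a) (hb : 0 < b) {F : ℕ → ℝ} (hF : ∀ n, |F n| ≤ 1)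
    {Q : Finset ℕ} (hQ : ∀ n ∈ Icc 1 N, (x + a * n) / b ∈ Q) :
    |∑ n ∈ Icc 1 N, F n| ≤ ∑ q ∈ Q, |blk a b x N q F| + 2 * ((b : ℝ) - 1) := by
  have h1 : ∑ q ∈ Q, blk a b x N q F =
      ∑ n ∈ (Icc 1 N).filter fun n => Good a b x N ((x + a * n) / b), F n := by
    simp only [blk]
    rw [sum_filter, sum_comm]
    refine sum_congr rfl fun n hn => ?_
    simp only [ite_and, sum_ite_eq, if_pos (hQ n hn)]
  rw [← sum_filter_add_sum_filter_not _ fun n => Good a b x N ((x + a * n) / b), ← h1]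
  refine (abs_add_le _ _).trans (add_le_add (abs_sum_le_sum_abs _ _) ?_)
  refine (abs_sum_le_sum_abs _ _).trans ((sum_le_card_nsmul _ _ 1 fun n _ => hF n).trans ?_)
  have h2 : ((Icc 1 N).filter fun n => ¬ Good a b x N ((x + a * n) / b)) ⊆
      Ico 1 b ∪ Ioc (N + 1 - b) N := fun n hn => by
    rw [mem_filter, mem_Icc, Good] at hn
    rw [mem_union, mem_Ico, mem_Ioc]
    have h3 := Nat.div_mul_le_self (x + a * n) b
    have h4 := Nat.lt_div_mul_add (a := x + a * n) hb
    obtain ⟨m, rfl⟩ := Nat.exists_eq_add_of_le hn.1.2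
    have h5 := Nat.le_mul_of_pos_left n ha
    have h6 := Nat.le_mul_of_pos_left m ha
    rw [add_mul, mul_add] at hn
    omega
  have h3 := (card_le_card h2).trans (card_union_le _ _)
  rw [Nat.card_Ico, Nat.card_Ioc] at h3
  have h4 : ((Icc 1 N).filter fun n => ¬ Good a b x N ((x + a * n) / b)).card + 2 ≤ 2 * b := by
    omega
  have h5 := (Nat.cast_le (α := ℝ)).2 h4
  push_cast at h5
  rw [nsmul_one]
  linarith

variable {M : ℕ} [NeZero M]

lemma sum_val {β : Type} [AddCommMonoid β] {S : Finset ℕ} (hS : ∀ x ∈ S, x < M)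
    (G : ZMod M → β) (hG : ∀ z, G z ≠ 0 → z.val ∈ S) : ∑ z, G z = ∑ x ∈ S, G x :=
  (sum_of_injOn (fun x : ℕ => (x : ZMod M))
    (fun x hx y hy (h : (x : ZMod M) = y) => by
      rw [← ZMod.val_cast_of_lt (hS x hx), h, ZMod.val_cast_of_lt (hS y hy)])
    (fun _ _ => mem_univ _)
    (fun z _ hz => by_contra fun h => hz ⟨z.val, hG z h, ZMod.natCast_zmod_val z⟩)
    fun _ _ => rfl).symm

/-- extension by zero, with a restriction to a block in the slot `s` -/
noncomputable def ext (X b q : ℕ) (s : Fin 3) (v : Fin 3 → ℕ → ℝ) (t : Fin 3) (z : ZMod M) : ℂ :=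
  if z.val < X ∧ (t = s → z.val / b = q) then v t z.val else 0

lemma inner {X b q x N : ℕ} (hM : 2 * X < M) (hb : 0 < b) {s : Fin 3} (hs : s ≠ 2)
    (v : Fin 3 → ℕ → ℝ) (hx : x + 3 * N < X) (hq : Good (s + 1) b x N q) :
    ∑ n : ZMod M, ext X b q s v 0 ((x : ZMod M) + n) * ext X b q s v 1 ((x : ZMod M) + 2 * n) *
      ext X b q s v 2 ((x : ZMod M) + 3 * n) =
    blk (s + 1) b x N q fun n => v 0 (x + n) * v 1 (x + 2 * n) * v 2 (x + 3 * n) := by
  rw [sum_val (S := Icc 1 N) (fun n hn => by have := (mem_Icc.1 hn).2; omega), blk,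
    Complex.ofReal_sum]
  · refine sum_congr rfl fun n hn => ?_
    have hn := mem_Icc.1 hn
    have h1 : ∀ c : ℕ, c ≤ 3 → ((x : ZMod M) + c * n).val = x + c * n ∧ x + c * n < X :=
      fun c hc => by
        have := Nat.mul_le_mul hc hn.2
        rw [← Nat.cast_mul, ← Nat.cast_add, ZMod.val_cast_of_lt (by omega)]
        omega
    have h2 := h1 1 (by omega)
    have h3 := h1 2 (by omega)
    have h4 := h1 3 (by omega)
    simp only [Nat.cast_one, Nat.cast_ofNat, one_mul] at h2 h3 h4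
    simp only [ext, h2, h3, h4, hq, true_and, and_true]
    fin_cases s
    · by_cases h : (x + n) / b = q <;> simp [h]
    · by_cases h : (x + 2 * n) / b = q <;> simp [h]
    · exact (hs rfl).elim
  · intro z hz
    have h1 := (ite_ne_right_iff.1 (left_ne_zero_of_mul (left_ne_zero_of_mul hz))).1
    have h2 := (ite_ne_right_iff.1 (right_ne_zero_of_mul (left_ne_zero_of_mul hz))).1
    generalize hy : ((x : ZMod M) + z).val = y at h1
    generalize hw : ((x : ZMod M) + 2 * z).val = w at h2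
    have h3 : ((x + w : ℕ) : ZMod M) = (2 * y : ℕ) := by
      rw [← hy, ← hw]
      push_cast
      simp only [ZMod.natCast_zmod_val]
      ring
    rw [ZMod.natCast_eq_natCast_iff', Nat.mod_eq_of_lt (by omega),
      Nat.mod_eq_of_lt (by omega)] at h3
    have h4 : x < y ∧ y ≤ x + N := by
      have h5 := fun w => Nat.div_mul_le_self w b
      have h6 := fun w => Nat.lt_div_mul_add (a := w) hb
      have h7 := hq.1
      have h8 := hq.2
      rw [add_mul] at h8
      fin_cases s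
      · have := h1.2 rfl
        have := h5 y
        have := h6 y
        simp_all only [Nat.zero_add]
        omega
      · have := h2.2 rfl
        have := h5 w
        have := h6 w
        simp_all only [Nat.reduceAdd]
        omega
      · exact (hs rfl).elim
    obtain ⟨n, rfl⟩ := Nat.exists_eq_add_of_le h4.1.le
    have h5 : z = n := add_left_cancel (a := (x : ZMod M)) (by
      rw [← Nat.cast_add, ← hy, ZMod.natCast_zmod_val])
    rw [h5, ZMod.val_cast_of_lt (by omega), mem_Icc]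
    omega

lemma core {X : ℕ} (hM : 2 * X < M) (hM' : M ≤ 6 * X) {v : Fin 3 → ℕ → ℝ} (hv : ∀ i, Bdd (v i))
    (i : Fin 3) {p γ : ℝ} (h0 : 0 < γ) (h1 : γ ≤ 1 / 2) {E : Finset ℕ} {N : ℕ → ℕ}
    (hE : ∀ x ∈ E, x + 3 * N x < X ∧ X < 32 * N x ∧
      γ * N x ≤ |∑ n ∈ Icc 1 (N x), v 0 (x + n) * v 1 (x + 2 * n) * v 2 (x + 3 * n)|)
    (hp : exp (-p) * X ≤ γ ^ 18 * E.card) :
    ∃ (φ₀ : ZMod M → ℂ) (f : Fin 3 → ZMod M → ℂ), SparseHyp p (γ ^ 18) φ₀ f ∧
      ∀ z, f i z = if z.val < X then (v i z.val : ℂ) else 0 := by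
  obtain ⟨s, hs, hi⟩ : ∃ s : Fin 3, s ≠ 2 ∧ i ≠ s := by revert i; decide
  have hX : (0 : ℝ) < X := Nat.cast_pos.2 (by omega)
  set b := ⌊γ * X / 128⌋₊ + 1 with hb
  have hb0 : 0 < b := Nat.succ_pos _
  have hb1 : γ * X / 128 < b := by rw [hb]; push_cast; exact Nat.lt_floor_add_one _
  have hb2 : (b : ℝ) - 1 ≤ γ * X / 128 := by
    rw [hb]; push_cast; linarith [Nat.floor_le (a := γ * X / 128) (by positivity)]
  let F : ℕ → ℕ → ℝ := fun x n => v 0 (x + n) * v 1 (x + 2 * n) * v 2 (x + 3 * n)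
  have hF : ∀ x n, |F x n| ≤ 1 := fun x n => by
    simp only [F, abs_mul]
    exact mul_le_one₀ (mul_le_one₀ (hv _ _) (abs_nonneg _) (hv _ _)) (abs_nonneg _) (hv _ _)
  let S : ℕ → ℕ → ℝ := fun q x => blk (s + 1) b x (N x) q (F x)
  have h2 : ∑ _x ∈ E, γ * X / 64 ≤ ∑ x ∈ E, ∑ q ∈ range (X / b + 1), |S q x| :=
    sum_le_sum fun x hx => by
      obtain ⟨e1, e2, e3⟩ := hE x hx
      have := le_blk (a := s + 1) (x := x) (N := N x) (Q := range (X / b + 1)) (Nat.succ_pos _)
        hb0 (hF x) fun n hn => mem_range.2 (Nat.lt_succ_of_le (Nat.div_le_div_right (by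
          have := Nat.mul_le_mul (show (s : ℕ) + 1 ≤ 3 from s.2) (mem_Icc.1 hn).2
          omega)))
      have e4 : (X : ℝ) < 32 * N x := by exact_mod_cast e2
      nlinarith
  have h3 : γ * ((X / b + 1 : ℕ) : ℝ) ≤ 129 := by
    have : ((X / b : ℕ) : ℝ) * b ≤ X := by exact_mod_cast Nat.div_mul_le_self X b
    have h4 : γ * ((X / b : ℕ) : ℝ) ≤ 128 := by
      have : (0 : ℝ) ≤ (X / b : ℕ) := Nat.cast_nonneg _
      nlinarith
    push_cast
    linarith
  obtain ⟨q, -, hq⟩ : ∃ q ∈ range (X / b + 1), γ ^ 18 * M * E.card ≤ ∑ x ∈ E, |S q x| := by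
    refine exists_le_of_sum_le nonempty_range_add_one ?_
    rw [sum_comm]
    refine le_trans ?_ h2
    simp only [sum_const, card_range, nsmul_eq_mul]
    have h4 : γ ^ 16 ≤ (1 / 2) ^ 16 := pow_le_pow_left₀ h0.le h1 _
    have h5 : (M : ℝ) ≤ 6 * X := by exact_mod_cast hM'
    calc _ = (γ * ((X / b + 1 : ℕ) : ℝ)) * γ ^ 16 * M * (E.card * γ) := by ring
      _ ≤ 129 * (1 / 2) ^ 16 * (6 * X) * (E.card * γ) := by gcongr
      _ ≤ _ := by nlinarith [mul_nonneg (mul_nonneg E.card.cast_nonneg h0.le) hX.le]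
  have hEM : ∀ x ∈ E, x < M := fun x hx => by have := (hE x hx).1; omega
  let φ₀ : ZMod M → ℂ := fun z => if z.val ∈ E then (S q z.val / |S q z.val| : ℝ) else 0
  have h4 : ∀ x ∈ E, φ₀ x = (S q x / |S q x| : ℝ) := fun x hx => by
    simp only [φ₀, ZMod.val_cast_of_lt (hEM x hx), if_pos hx]
  have h5 : ∀ r : ℝ, |r / abs r| ≤ 1 := fun r => by rw [abs_div, abs_abs]; exact div_self_le_one _
  have h6 : ∑ z, ‖φ₀ z‖ = ∑ x ∈ E, |S q x / abs (S q x)| := by
    rw [sum_val hEM (fun z => ‖φ₀ z‖) fun z hz => (ite_ne_right_iff.1 (norm_ne_zero_iff.1 hz)).1]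
    exact sum_congr rfl fun x hx => by rw [h4 x hx, Complex.norm_real, norm_eq_abs]
  have h7 : ∑ x ∈ E, |S q x| ≤ X * ∑ z, ‖φ₀ z‖ := by
    rw [h6, mul_sum]
    refine sum_le_sum fun x hx => ?_
    by_cases h : S q x = 0
    · simp [h]
    · rw [abs_div, abs_abs, div_self (abs_ne_zero.2 h), mul_one]
      exact (abs_blk_le _ _ _ _ _ (hF x)).trans (Nat.cast_le.2 (by have := (hE x hx).1; omega))
  have h8 : ∑ z, ‖φ₀ z‖ ≤ E.card := by
    rw [h6]
    exact (sum_le_card_nsmul _ _ 1 fun x _ => h5 _).trans (by simp)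
  refine ⟨φ₀, ext X b q s v, ⟨fun z => ?_, fun t z => ?_, ?_, ?_⟩, fun z => by simp [ext, hi]⟩
  · simp only [φ₀]
    split_ifs
    · rw [Complex.norm_real]
      exact h5 _
    · simp
  · simp only [ext]
    split_ifs
    · rw [Complex.norm_real]
      exact hv _ _
    · simp
  · refine le_of_mul_le_mul_left ?_ hX
    nlinarith [mul_le_mul_of_nonneg_left hp (M.cast_nonneg (α := ℝ))]
  · refine ((mul_le_mul_of_nonneg_left h8 (by positivity)).trans hq).trans ?_
    simp only [← mul_sum]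
    rw [sum_val hEM (fun z => φ₀ z * _) fun z hz => (ite_ne_right_iff.1 (left_ne_zero_of_mul hz)).1,
      sum_congr rfl (g := fun x => ((|S q x| : ℝ) : ℂ)) fun x hx => ?_, ← Complex.ofReal_sum,
      Complex.norm_real]
    · exact le_abs_self _
    by_cases h : S q x = 0
    · simp [h4 x hx, h]
    have hg : Good (s + 1) b x (N x) q := by_contra fun hg => h (by simp [S, blk, hg])
    rw [h4 x hx, inner hM hb0 hs v (hE x hx).1 hg, ← Complex.ofReal_mul]
    congr 1
    change _ * S q x = _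
    rw [div_mul_eq_mul_div, ← abs_mul_abs_self, mul_div_cancel_right₀ _ (abs_ne_zero.2 h)]

end AZ

open AZ in
theorem az (h : AGStmt) : AZStmt := by
  classical
  obtain ⟨C, hC⟩ := h
  refine ⟨20 * C, fun p γ hp hγ hγ' k j u hu i hE => ?_⟩
  have hp0 : 0 < p := by linarith
  have h0 : 0 < γ := lt_of_lt_of_le (by positivity) hγ
  have h1 : γ ≤ 1 := by linarith
  obtain ⟨X, hX⟩ : ∃ X : ℕ, X = 2 ^ k := ⟨_, rfl⟩
  have hX0 : 0 < X := hX ▸ Nat.two_pow_pos k
  have hX' : (2 : ℝ) ^ k = X := by simp [hX]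
  have hnode : ∀ G : ℕ → ℝ, ∑ y ∈ node k j, G y = ∑ y ∈ range X, G (j * X + y) := fun G => by
    rw [node, ← hX, sum_Ico_eq_sum_range, add_mul, one_mul, add_tsub_cancel_left]
  obtain ⟨M, hM, hM1, hM2⟩ := Nat.exists_prime_lt_and_le_two_mul (2 * X + 1) (by omega)
  have : NeZero M := ⟨hM.ne_zero⟩
  have hXM : (X : ℝ) ≤ M := Nat.cast_le.2 (by omega)
  have hMX : (M : ℝ) ≤ 6 * X := by exact_mod_cast (by omega : M ≤ 6 * X)
  have h19 : 19 * p ≤ p ^ 20 := by
    have : (2 : ℝ) ^ 19 ≤ p ^ 19 := pow_le_pow_left₀ (by norm_num) hp _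
    nlinarith
  rw [cnt_eq_sum', hnode, ← cnt_eq_sum', cnt_eq_card, hX'] at hE
  choose! N hN using fun x (hx : x ∈ (range X).filter fun x => adm k (j * X + x) ∧
    ∃ N, lev k N ∧ γ ≤ |Av (u 0) (u 1) (u 2) (j * X + x) N|) => (mem_filter.1 hx).2.2
  obtain ⟨φ₀, f, hs, hf⟩ := core (M := M) (X := X) (by omega) (by omega)
    (v := fun t y => u t (j * X + y)) (fun t y => hu t _) i (p := p ^ 20) h0 hγ' (N := N)
    (fun x hx => by
      obtain ⟨⟨e1, e2⟩, e3⟩ := hN x hx
      have e4 := (mem_filter.1 hx).2.1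
      rw [adm, ← hX, mul_comm j, Nat.mul_add_mod, Nat.mod_eq_of_lt
        (mem_range.1 (mem_filter.1 hx).1)] at e4
      have e5 : (0 : ℝ) < N x := Nat.cast_pos.2 (by omega)
      refine ⟨by omega, by omega, ?_⟩
      rw [Av, abs_mul, abs_inv, abs_of_pos e5, le_inv_mul_iff₀ e5, mul_comm] at e3
      simpa only [add_assoc] using e3)
    (by
      refine le_trans ?_ (mul_le_mul_of_nonneg_left hE (by positivity))
      have e1 : exp (-p) ≤ γ := by
        refine le_trans ?_ hγ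
        rw [exp_neg, one_div]
        exact inv_anti₀ hp0 (by linarith [add_one_le_exp p])
      calc exp (-p ^ 20) * X ≤ exp (-p) ^ 18 * exp (-p) * X := by
            rw [← pow_succ, ← exp_nat_mul]
            gcongr
            push_cast
            linarith
        _ ≤ γ ^ 18 * exp (-p) * X := by gcongr
        _ = _ := mul_assoc _ _ _)
  obtain ⟨Θ, ψ, h2, h3, h4⟩ := hC (p ^ 20) (γ ^ 18) (by linarith)
    (by
      calc 1 / p ^ 20 ≤ 1 / p ^ 18 := by gcongr <;> linarith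
        _ = (1 / p) ^ 18 := by rw [one_div_pow]
        _ ≤ _ := by gcongr)
    ((pow_le_of_le_one h0.le h1 (by norm_num)).trans hγ') M hM (by omega) φ₀ f i hs
  rw [← pow_mul] at h2 h3 h4
  refine ⟨Θ.image ZMod.toAddCircle, fun y => -ψ ((y : ZMod M) - (j * X : ℕ)),
    (Nat.cast_le.2 card_image_le).trans h2, ?_, ?_⟩
  · refine le_trans (le_trans ?_ h3) ?_
    refine cnt_le_of_inj (fun y : ℕ => (y : ZMod M) - (j * X : ℕ))
      (fun y _ hy => ⟨mem_univ _, fun hq => hy fun a h₁ h₂ h₃ ha e1 e2 e3 => ?_⟩)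
      fun y hy z hz _ _ e => ?_
    · have hB : ∀ w : ℤ, InB (Θ.image ZMod.toAddCircle) (exp (-p ^ (20 * C))) w →
          InN Θ (exp (-p ^ (20 * C))) (w : ZMod M) := fun w hw θ hθ => by
        rw [pr_intCast]
        exact hw _ (mem_image_of_mem _ hθ)
      have := hq _ _ _ _ (hB _ ha) (hB _ e1) (hB _ e2) (hB _ e3)
      simp only [d3, d2, sub_add_eq_add_sub] at this
      simp only [d3, d2, Int.cast_add, Int.cast_natCast]
      rw [← neg_eq_zero, ← this]
      abel
    · simp only [node, ← hX, mem_Ico, add_mul, one_mul] at hy hz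
      have := (ZMod.natCast_eq_natCast_iff _ _ _).1 (sub_left_inj.1 e)
      exact this.eq_of_abs_lt (by rw [abs_lt]; omega)
    · have e1 : exp (-p ^ 20) * 6 ≤ exp (-p) := by
        calc _ ≤ exp (-p ^ 20) * exp (p ^ 20 - p) := by
              gcongr
              linarith [add_one_le_exp (p ^ 20 - p)]
          _ = _ := by rw [← exp_add]; ring_nf
      rw [hX']
      nlinarith [exp_pos (-p ^ 20)]
  · rw [sum_val (S := range X) (fun x hx => by have := mem_range.1 hx; omega) _ fun z hz =>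
      mem_range.2 (ite_ne_right_iff.1 (hf z ▸ left_ne_zero_of_mul hz)).1, Complex.re_sum] at h4
    rw [hX', hnode]
    refine le_trans (le_trans ?_ h4) (sum_le_sum fun y hy => le_of_eq ?_)
    · exact mul_le_mul (pow_le_pow_of_le_one h0.le h1 (by omega)) hXM X.cast_nonneg (by positivity)
    · have := mem_range.1 hy
      rw [hf, ZMod.val_cast_of_lt (by omega), if_pos this, Complex.re_ofReal_mul]
      simp

end Pool.Agent.Tri
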