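import Pool.Agent.Lib.MP_9721b5_an.Tri.SBase

/-!
The passage from large local averages to flatness.
-/

set_option autoImplicit false

open Finset Real ComplexConjugate

namespace Pool.Agent.Tri

namespace Alive

open Cfg

variable {c : Cfg} {P : ℝ}

lemma q1_mul (h : c.OK P) : (c.Q : ℝ) * c.q 1 = 1 := by simpa using h.q_mul 1

lemma q1_le (h : c.OK P) : c.q 1 ≤ 1 / 1000 := by
  have h1 := q1_mul h
  have h2 := h.Q_big
  have h3 := h.q_pos 1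
  nlinarith

lemma q2_eq (c : Cfg) : c.q 2 = c.q 1 * c.q 1 := c.q_add 1 1

lemma q2_le (h : c.OK P) : 100 * c.q 2 ≤ c.q 1 / 3 := by
  have h1 := q1_le h
  have h3 := h.q_pos 1
  rw [q2_eq]
  nlinarith

lemma s_nonneg (h : c.OK P) : 0 ≤ c.q 1 / 3 := by
  have := h.q_pos 1
  positivity

lemma inB (h : c.OK P) {r : ℝ} {t : ℤ} (ht : InB c.Θ r t) (hr : r ≤ 100 * c.q 2) :
    InB c.Θ (c.q 1 / 3) t := ht.mono subset_rfl (hr.trans (q2_le h))

lemma inB_V (h : c.OK P) {l : ℕ} {N : ℝ} {t : ℤ} (ht : c.V l N t) : InB c.Θ (c.q 1 / 3) t :=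
  inB h (h.V_inB ht).1 (by linarith [h.q_pos 2])

lemma rad (h : c.OK P) {m b : ℕ} (hb : m + 2 ≤ b) {x : ℝ} (hx : x ≤ (c.Q : ℝ) ^ m) :
    (x + 1) * c.q b ≤ c.q 1 / 3 := by
  have h1 : (1 : ℝ) ≤ (c.Q : ℝ) ^ m := one_le_pow₀ (by exact_mod_cast h.pos)
  have h2 := h.q_anti hb
  have h3 := h.q_pos b
  have h4 := h.q_pos 2
  have h5 := q2_le h
  have h6 : (c.Q : ℝ) ^ m * c.q (m + 2) = c.q 2 := by rw [q_add, ← mul_assoc, h.q_mul, one_mul]
  calc (x + 1) * c.q b ≤ 2 * (c.Q : ℝ) ^ m * c.q (m + 2) :=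
        mul_le_mul (by linarith) h2 h3.le (by positivity)
    _ = 2 * c.q 2 := by rw [mul_assoc, h6]
    _ ≤ c.q 1 / 3 := by linarith

lemma Q_gamma (h : c.OK P) {γ : ℝ} (hγ : exp (-P) ≤ γ) : 10 ^ 6 ≤ c.Q * γ ^ 2 := by
  have hP := h.two_le
  have h1 : exp (-P) ^ 2 ≤ γ ^ 2 := pow_le_pow_left₀ (exp_pos _).le hγ 2
  have h2 : 1 ≤ exp (P ^ 4) * exp (-P) ^ 2 := by
    rw [← exp_nat_mul, ← exp_add]
    refine one_le_exp ?_
    have : 2 ^ 3 ≤ P ^ 3 := pow_le_pow_left₀ (by norm_num) hP 3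
    push_cast
    nlinarith
  calc (10 : ℝ) ^ 6 ≤ 10 ^ 6 * exp (P ^ 4) * exp (-P) ^ 2 := by linarith
    _ ≤ c.Q * γ ^ 2 := mul_le_mul h.Q_ge' h1 (by positivity) (Nat.cast_nonneg _)

lemma J_le (h : c.OK P) {γ : ℝ} (hγ : exp (-P) ≤ γ) : 2 / (γ ^ 2 / 8) + 1 ≤ exp (P ^ 5) := by
  have hP := h.two_le
  have g0 : 0 < γ := (exp_pos _).trans_le hγ
  have h1 : exp (-P) ^ 2 ≤ γ ^ 2 := pow_le_pow_left₀ (exp_pos _).le hγ 2
  have h2 : exp (-P) ^ 2 * exp (2 * P) = 1 := by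
    rw [← exp_nat_mul, ← exp_add]
    simp
  have h3 : 2 / (γ ^ 2 / 8) ≤ 16 * exp (2 * P) := by
    rw [div_le_iff₀ (by positivity)]
    nlinarith [mul_le_mul_of_nonneg_right h1 (exp_pos (2 * P)).le]
  have h4 : exp 16 * exp (2 * P) ≤ exp (P ^ 5) := by
    rw [← exp_add]
    refine exp_le_exp.2 ?_
    have : 2 ^ 4 ≤ P ^ 4 := pow_le_pow_left₀ (by norm_num) hP 4
    nlinarith
  have h5 := add_one_le_exp 16
  have h6 : 1 ≤ exp (2 * P) := one_le_exp (by linarith)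
  nlinarith

lemma le_one {α : Type*} {S : Finset α} (hS : S.Nonempty) {F : α → T} {γ : ℝ}
    (ha : γ * S.card ≤ ‖∑ z ∈ S, e (F z)‖) : γ ≤ 1 := by
  have h1 : ‖∑ z ∈ S, e (F z)‖ ≤ S.card := (norm_sum_le _ _).trans (by simp)
  have h2 : (0 : ℝ) < S.card := by exact_mod_cast hS.card_pos
  nlinarith

/-- Cauchy-Schwarz in the averaging variable -/
lemma cs {α β : Type*} (S : Finset α) (S' : Finset β) (F : α → β → T) :
    ‖∑ u ∈ S', ∑ z ∈ S, e (F z u)‖ ^ 2 ≤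
      S.card * ∑ u' ∈ S', ∑ u ∈ S', ‖∑ z ∈ S, e (F z u - F z u')‖ := by
  rw [sum_comm]
  have h1 : ‖∑ z ∈ S, ∑ u ∈ S', e (F z u)‖ ^ 2 ≤ S.card * ∑ z ∈ S, ‖∑ u ∈ S', e (F z u)‖ ^ 2 :=
    (pow_le_pow_left₀ (norm_nonneg _) (norm_sum_le _ _) 2).trans sq_sum_le_card_mul_sum_sq
  refine h1.trans (mul_le_mul_of_nonneg_left ?_ (Nat.cast_nonneg _))
  have h2 : ((∑ z ∈ S, ‖∑ u ∈ S', e (F z u)‖ ^ 2 : ℝ) : ℂ) =
      ∑ u' ∈ S', ∑ u ∈ S', ∑ z ∈ S, e (F z u - F z u') := by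
    push_cast
    simp only [← Complex.mul_conj', map_sum, sum_mul_sum, e_sub]
    rw [sum_comm, sum_congr rfl fun u _ => sum_comm, sum_comm]
  refine (le_abs_self _).trans ?_
  rw [← Real.norm_eq_abs, ← Complex.norm_real, h2]
  exact (norm_sum_le _ _).trans (sum_le_sum fun u' _ => norm_sum_le _ _)

/-- a biased average stays biased after differencing along many shifts -/
lemma many {S S' : Finset ℤ} (hS : S.Nonempty) (hS' : S'.Nonempty) {F : ℤ → T} {γ η : ℝ}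
    (hγ : 0 < γ) (hη : 4 * η ≤ γ) (hi : ∀ u ∈ S', Inv S u η)
    (ha : γ * S.card ≤ ‖∑ z ∈ S, e (F z)‖) : ∃ u' ∈ S', γ ^ 2 / 8 * S'.card ≤
      cnt S' fun u => γ ^ 2 / 8 * S.card ≤ ‖∑ z ∈ S, e (F (z + u) - F (z + u'))‖ := by
  have c1 : (0 : ℝ) < S.card := by exact_mod_cast hS.card_pos
  have c2 : (0 : ℝ) < S'.card := by exact_mod_cast hS'.card_pos
  have h1 : ‖∑ u ∈ S', ∑ z ∈ S, e (F (z + u)) - ∑ _u ∈ S', ∑ z ∈ S, e (F z)‖ ≤
      S'.card * (2 * η * S.card) := by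
    rw [← sum_sub_distrib]
    refine (norm_sum_le _ _).trans ((sum_le_card_nsmul _ _ _ fun u hu =>
      (hi u hu).sum_sub (F := fun z => e (F z)) fun w => (norm_e _).le).trans ?_)
    rw [nsmul_eq_mul]
  have h2 : γ / 2 * S.card * S'.card ≤ ‖∑ u ∈ S', ∑ z ∈ S, e (F (z + u))‖ := by
    have a1 := norm_sub_norm_le (∑ _u ∈ S', ∑ z ∈ S, e (F z)) (∑ u ∈ S', ∑ z ∈ S, e (F (z + u)))
    rw [norm_sub_rev] at a1
    have a2 : ‖∑ _u ∈ S', ∑ z ∈ S, e (F z)‖ = S'.card * ‖∑ z ∈ S, e (F z)‖ := by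
      rw [sum_const, nsmul_eq_mul, norm_mul, Complex.norm_natCast]
    have a3 := mul_le_mul_of_nonneg_left ha c2.le
    have a4 := mul_le_mul_of_nonneg_right hη (mul_pos c1 c2).le
    linarith
  have h3 := (pow_le_pow_left₀ (by positivity) h2 2).trans (cs S S' fun z u => F (z + u))
  have h4 : ∑ _u' ∈ S', γ ^ 2 / 4 * S.card * S'.card ≤
      ∑ u' ∈ S', ∑ u ∈ S', ‖∑ z ∈ S, e (F (z + u) - F (z + u'))‖ := by
    rw [sum_const, nsmul_eq_mul]
    refine le_of_mul_le_mul_left (le_trans (le_of_eq ?_) h3) c1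
    ring
  obtain ⟨u', hu', h5⟩ := exists_le_of_sum_le hS' h4
  refine ⟨u', hu', le_trans ?_ (cnt_rev_markov S' _ c1 (fun u _ =>
    (norm_sum_le _ _).trans (by simp)) (by positivity))⟩
  rw [le_div_iff₀ c1]
  linarith

end Alive

namespace Cfg

open Alive

variable {c : Cfg} {P : ℝ}

/-- a large average at level `l` kills the quadratic part -/
theorem OK.killed_of_alive (h : c.OK P) {l : ℕ} {N γ : ℝ} (hN : 0 ≤ N) (hγ : exp (-P) ≤ γ)
    {S : Finset ℤ} (hS : c.RegS l N S) {x n : ℤ} (hg : ∀ i, c.Good i (y i x n))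
    (ha : γ * S.card ≤ ‖∑ z ∈ S, e (Φ c.φ x (n + z))‖) : c.Killed l N (1 / 20) x n := by
  rintro t _ ht ⟨w, rfl, w1, w2⟩
  have hq := h.quad_Φ hg
  have g0 : 0 < γ := (exp_pos _).trans_le hγ
  have hQ := Q_gamma h hγ
  have q1 := h.q_pos 1
  have q2 := h.q_pos 2
  have qm := q1_mul h
  have ql := q1_le h
  have ne : S.Nonempty := ⟨0, RegSet.zero_mem hS⟩
  have g1 : γ ≤ 1 := le_one ne ha
  have k1 : 10 ^ 6 * c.q 1 ≤ γ ^ 2 := by
    have := mul_le_mul_of_nonneg_right hQ q1.le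
    rwa [mul_right_comm, qm, one_mul] at this
  have k2 : c.q 2 ≤ c.q 1 := h.q_anti one_le_two
  have g2 : γ ^ 2 ≤ γ := by nlinarith
  obtain ⟨S', hS'⟩ := h.exists_regS (l + 1) hN
  have ne' : S'.Nonempty := ⟨0, RegSet.zero_mem hS'⟩
  obtain ⟨u', hu', hc⟩ := many ne ne' (F := fun z => Φ c.φ x (n + z)) g0 (η := c.q 2)
    (by linarith) (fun u hu => h.RegS_inv hS hN (hS'.mem hN hu)) ha
  have b0 : ∀ u ∈ S', InB c.Θ (c.q 1 / 3) (u - u') := fun u hu =>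
    inB h ((h.V_inB (hS'.mem hN hu)).1.sub (h.V_inB (hS'.mem hN hu')).1) (by linarith)
  have key : ∀ u ∈ S', γ ^ 2 / 8 * S.card ≤
      ‖∑ z ∈ S, e (Φ c.φ x (n + (z + u)) - Φ c.φ x (n + (z + u')))‖ →
      ‖d2 (Φ c.φ x) n (u - u') t‖ ≤ c.q 2 / (γ ^ 2 / 8) := fun u hu hb => by
    have := (h.RegS_inv hS hN ht).phase ne (ε := 0) (c := d2 (Φ c.φ x) n (u - u') t)
      (F := fun z => Φ c.φ x (n + (z + u)) - Φ c.φ x (n + (z + u'))) (fun z hz => by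
        rw [← hq.d2_base (s_nonneg h) (u := z + u') (inB h ((h.V_inB (hS.mem hN hz)).1.add
          (h.V_inB (hS'.mem hN hu')).1) (by linarith)) (b0 u hu) (inB_V h ht), d2,
          show n + (z + u') + (u - u') + t = n + (z + t + u) by ring,
          show n + (z + u') + (u - u') = n + (z + u) by ring,
          show n + (z + u') + t = n + (z + t + u') by ring, norm_le_zero_iff]
        abel) (by positivity) hb
    simpa using this
  have hb : c.VV (l + 1) (5 * (l + 2) + 2) N ((c.Q : ℤ) ^ (l + 1) * w) := ⟨w, rfl, w1, w2⟩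
  have hJ : ((⌈2 / (γ ^ 2 / 8)⌉₊ : ℕ) : ℝ) ≤ 2 / (γ ^ 2 / 8) + 1 :=
    (Nat.ceil_lt_add_one (by positivity)).le
  have hJQ : 2 / (γ ^ 2 / 8) + 1 ≤ c.Q := by
    have : 2 / (γ ^ 2 / 8) ≤ c.Q / 2 := by
      rw [div_le_iff₀ (by positivity)]
      linarith
    linarith [h.Q_big]
  have hjb : ∀ j : ℕ, j ≤ ⌈2 / (γ ^ 2 / 8)⌉₊ →
      c.VV (l + 1) (5 * (l + 1) + 5) N ((j : ℤ) • ((c.Q : ℤ) ^ (l + 1) * w)) := fun j hj =>
    h.VV_mul (m := 1) hb le_rfl (by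
      rw [Int.cast_natCast, Nat.abs_cast, pow_one]
      exact ((Nat.cast_le.2 hj).trans hJ).trans hJQ) (by omega) le_rfl
  obtain ⟨j, j1, j2, u, hu, p1, hu2, p2⟩ := recur ne' (by positivity) hc (Nat.le_ceil _)
    (η := c.q 2) (by linarith) fun j hj => hS'.inv hN (hjb j hj)
  obtain ⟨m, hm⟩ := h.dvd j j1 (((Nat.cast_le.2 j2).trans hJ).trans (J_le h hγ))
  have mQ : (m : ℝ) ≤ c.Q := Nat.cast_le.2 (hm ▸ Nat.le_mul_of_pos_left m j1)
  have i1 := (h.VV_inB (hjb j j2) (by omega)).1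
  have a1 := key u hu p1
  have a2 := key _ hu2 p2
  rw [add_sub_right_comm, hq.d2_add (s_nonneg h) (b0 u hu)
    (inB h i1 ((h.q_anti (by omega : 2 ≤ _)).trans (by linarith))) (inB_V h ht)] at a2
  have a3 := norm_sub_le (d2 (Φ c.φ x) n (u - u') t +
    d2 (Φ c.φ x) n ((j : ℤ) • ((c.Q : ℤ) ^ (l + 1) * w)) t) (d2 (Φ c.φ x) n (u - u') t)
  rw [add_sub_cancel_left] at a3
  have e1 : (c.Q : ℤ) ^ (l + 2) * w = m * ((j : ℤ) • ((c.Q : ℤ) ^ (l + 1) * w)) := by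
    rw [pow_succ' _ (l + 1), smul_eq_mul, ← mul_assoc (m : ℤ), mul_comm (m : ℤ), ← Nat.cast_mul,
      ← hm, mul_assoc]
  rw [d2_comm, e1, hq.d2_mul (h.q_pos _).le i1 (rad h (m := 1) (by omega) (by
    rwa [Int.cast_natCast, Nat.abs_cast, pow_one])) (inB_V h ht)]
  refine (norm_zsmul_T _ _).trans ?_
  rw [Int.cast_natCast, Nat.abs_cast]
  refine (mul_le_mul mQ (a3.trans (add_le_add a2 a1)) (norm_nonneg _) (Nat.cast_nonneg _)).trans ?_
  rw [← add_div, ← mul_div_assoc, div_le_iff₀ (by positivity), q2_eq, ← add_mul, ← mul_assoc,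
    mul_add, qm]
  linarith

theorem OK.killed_deep (h : c.OK P) {l m : ℕ} {N : ℝ} {x n : ℤ} (hg : ∀ i, c.Good i (y i x n))
    (hk : c.Killed l N (1 / 10) x n) {b t : ℤ} (hb : c.V (l + 1) N b)
    (ht : c.V (l + 2 + m) N t) : ‖d2 (Φ c.φ x) n b t‖ ≤ 1 / 10 * c.q (4 * m) :=
  h.scale_V (F := fun z => d2 (Φ c.φ x) n b z) (by norm_num) (fun z hz => hk b z hb hz) ht
    fun i hi => by
      rw [d2_comm, (h.quad_Φ hg).d2_mul (h.q_pos _).le (h.VV_inB ht (by omega)).1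
        (rad h (m := 4 * m) (by omega) (by rwa [Int.cast_natCast, Nat.abs_cast])) (inB_V h hb),
        d2_comm]

/-- killed forms are small on long times deep elements -/
theorem OK.killed_long (h : c.OK P) {l : ℕ} {N : ℝ} {x n : ℤ} (hg : ∀ i, c.Good i (y i x n))
    (hk : c.Killed l N (1 / 10) x n) {b t : ℤ} (hb : c.Zl l N b) (ht : c.V (2 * l + 4) N t) :
    ‖d2 (Φ c.φ x) n b t‖ ≤ c.q 1 / 10 := by
  obtain ⟨u, rfl, u1, u2⟩ := h.Zl_eq hb
  have h1 := h.killed_deep (m := l + 2) hg hk u1 (h.V_mono ht (by omega) le_rfl)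
  have e1 : |(((c.Q : ℤ) ^ (4 * l + 7) : ℤ) : ℝ)| = (c.Q : ℝ) ^ (4 * l + 7) := by
    push_cast
    exact abs_of_nonneg (by positivity)
  rw [(h.quad_Φ hg).d2_mul (h.q_pos _).le u2 (rad h (m := 4 * l + 7) (by omega) e1.le)
    (inB_V h ht)]
  refine (norm_zsmul_T _ _).trans ?_
  rw [e1]
  refine (mul_le_mul_of_nonneg_left h1 (by positivity)).trans_eq ?_
  rw [show 4 * (l + 2) = 4 * l + 7 + 1 by ring, q_add, mul_left_comm, ← mul_assoc (_ ^ _),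
    h.q_mul]
  ring

/-- killed forms are small on short times deep elements -/
theorem OK.killed_short (h : c.OK P) {l : ℕ} {N : ℝ} {x n : ℤ} (hg : ∀ i, c.Good i (y i x n))
    (hk : c.Killed l N (1 / 10) x n) {b t : ℤ} (hb : c.V (l + 1) N b) (ht : c.V (l + 3) N t) :
    ‖d2 (Φ c.φ x) n b t‖ ≤ c.q 4 := by
  have h1 := h.killed_deep (m := 1) hg hk hb ht
  linarith [h.q_pos 4]

/-- a large average at level `l + 1` of a killed phase gives flatness, also after a long shift -/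
theorem OK.flat_of_alive (h : c.OK P) {l : ℕ} {N γ : ℝ} (hN : 0 ≤ N) (hγ : exp (-P) ≤ γ)
    {S : Finset ℤ} (hS : c.RegS (l + 1) N S) {x n : ℤ} (hg : ∀ i, c.Good i (y i x n))
    (hk : c.Killed l N (1 / 10) x n) (ha : γ * S.card ≤ ‖∑ z ∈ S, e (Φ c.φ x (n + z))‖)
    {b : ℤ} (hb : c.Zl l N b) : c.Flat l N x (n + b) := by
  intro t ht
  have g0 : 0 < γ := (exp_pos _).trans_le hγ
  have ne : S.Nonempty := ⟨0, RegSet.zero_mem hS⟩
  have g1 : γ ≤ 1 := le_one ne ha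
  have q1 := h.q_pos 1
  have k1 : 10 ^ 6 * c.q 1 ≤ γ ^ 2 := by
    have := mul_le_mul_of_nonneg_right (Q_gamma h hγ) q1.le
    rwa [mul_right_comm, q1_mul h, one_mul] at this
  have h1 := h.killed_long hg hk hb ht
  have h2 := (h.RegS_inv hS hN (h.V_mono ht (by omega) le_rfl)).phase ne (ε := c.q 4)
    (c := Φ c.φ x (n + t) - Φ c.φ x n) (F := fun z => Φ c.φ x (n + z)) (fun z hz => by
      refine le_of_eq_of_le ?_
        (h.killed_short hg hk (hS.mem hN hz) (h.V_mono ht (by omega) le_rfl))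
      rw [d2, add_assoc n z t]
      congr 1
      abel) g0 ha
  have h3 : (c.q 2 + 2 * c.q 4) / γ ≤ c.q 1 := by
    have a1 : c.q 4 ≤ c.q 2 := h.q_anti (by norm_num)
    have a2 : 3 * c.q 1 ≤ γ := by nlinarith
    rw [div_le_iff₀ g0]
    rw [q2_eq] at a1 ⊢
    nlinarith
  have e1 : Φ c.φ x (n + b + t) - Φ c.φ x (n + b) =
      d2 (Φ c.φ x) n b t + (Φ c.φ x (n + t) - Φ c.φ x n) := by
    rw [d2]
    abel
  rw [e1]
  linarith [norm_add_le (d2 (Φ c.φ x) n b t) (Φ c.φ x (n + t) - Φ c.φ x n)]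

/-- being killed is invariant under small shifts of a good pair -/
theorem OK.killed_shift (h : c.OK P) {l : ℕ} {N a : ℝ} {x n b : ℤ}
    (hg : ∀ i, c.Good i (y i x n)) (hb : InB c.Θ (c.q 2) b) :
    c.Killed l N a x (n + b) ↔ c.Killed l N a x n := by
  refine forall₄_congr fun t t' ht ht' => ?_
  rw [(h.quad_Φ hg).d2_base (s_nonneg h) (inB h hb (by linarith [h.q_pos 2])) (inB_V h ht)
    (inB_V h ht')]

end Cfg

end Pool.Agent.Tri
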