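import Pool.Agent.Lib.MP_9721b5_an.Tri.Basic
import Pool.Agent.Lib.MP_9721b5_an.Tri.Stmts

/-!
From local correlation with quadratic phases to correlation with one cellwise quadratic phase.
-/

set_option autoImplicit false

open Finset ComplexConjugate Real

namespace Pool.Agent.Tri

namespace Cells

variable {G : Type*} [AddCommGroup G]

/-- a constant rotation turns a sum into its norm -/
lemma rotate (f : G → ℂ) (κ : Finset G) {g : G → T} (hg : QuadOn κ g) :
    ∃ φ : G → T, QuadOn κ φ ∧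
      (∑ y ∈ κ, f y * e (-φ y)).re = ‖∑ y ∈ κ, f y * e (-g y)‖ := by
  obtain ⟨t, ht⟩ := exists_phase (∑ y ∈ κ, f y * e (-g y))
  refine ⟨fun y => g y - t, fun u h₁ h₂ h₃ a b c d => ?_, ?_⟩
  · have := hg u h₁ h₂ h₃ a b c d
    simp only [d3, d2] at this ⊢
    rw [← this]
    abel
  · have : ∑ y ∈ κ, f y * e (-(g y - t)) = (∑ y ∈ κ, f y * e (-g y)) * e t := by
      rw [sum_mul]
      refine sum_congr rfl fun y _ => ?_
      rw [mul_assoc, ← e_add]
      congr 2
      abel
    rw [this, ht, Complex.ofReal_re]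

/-- the best phase on one cell -/
lemma cell_phase [Fintype G] (f : G → ℂ) (W : Finset G) (ψ : G → G → T)
    (hψ : ∀ z, QuadOn W (ψ z)) (κ : Finset G) :
    ∃ φ : G → T, QuadOn κ φ ∧ 0 ≤ (∑ y ∈ κ, f y * e (-φ y)).re ∧
      ∀ z, (∀ y ∈ κ, y - z ∈ W) →
        ‖∑ y ∈ κ, f y * e (-ψ z (y - z))‖ ≤ (∑ y ∈ κ, f y * e (-φ y)).re := by
  classical
  by_cases h : (univ.filter fun z : G => ∀ y ∈ κ, y - z ∈ W).Nonempty
  · obtain ⟨z₀, hz₀, hmax⟩ := exists_max_image _
      (fun z => ‖∑ y ∈ κ, f y * e (-ψ z (y - z))‖) h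
    rw [mem_filter] at hz₀
    have hq : QuadOn κ fun y => ψ z₀ (y - z₀) := by
      intro u h₁ h₂ h₃ a b c d
      have := hψ z₀ (u - z₀) h₁ h₂ h₃ (hz₀.2 _ a) (by rw [sub_add_eq_add_sub]; exact hz₀.2 _ b)
        (by rw [sub_add_eq_add_sub]; exact hz₀.2 _ c) (by rw [sub_add_eq_add_sub]; exact hz₀.2 _ d)
      simpa only [d3, d2, sub_add_eq_add_sub] using this
    obtain ⟨φ, h1, h2⟩ := rotate f κ hq
    refine ⟨φ, h1, h2 ▸ norm_nonneg _, fun z hz => ?_⟩
    rw [h2]
    exact hmax z (mem_filter.2 ⟨mem_univ _, hz⟩)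
  · have hq : QuadOn κ fun _ => (0 : T) := by
      intro u h₁ h₂ h₃ _ _ _ _
      simp [d3, d2]
    obtain ⟨φ, h1, h2⟩ := rotate f κ hq
    exact ⟨φ, h1, h2 ▸ norm_nonneg _, fun z hz => (h ⟨z, mem_filter.2 ⟨mem_univ _, hz⟩⟩).elim⟩

/-- gluing the phases of the cells -/
lemma glue [Fintype G] {ι : Type*} (lab : G → ι) (f : G → ℂ) (hf : ∀ x, ‖f x‖ ≤ 1)
    (W I : Finset G) (hI : I ⊆ W) (hIW : ∀ x ∈ I, ∀ y y', lab y' = lab y → x + (y' - y) ∈ W)
    (ψ : G → G → T) (hψ : ∀ z, QuadOn W (ψ z)) :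
    ∃ φ : G → T, (∀ u h₁ h₂ h₃, lab (u + h₁) = lab u → lab (u + h₂) = lab u →
        lab (u + h₃) = lab u → lab (u + h₁ + h₂) = lab u → lab (u + h₃ + h₁) = lab u →
        lab (u + h₃ + h₂) = lab u → lab (u + h₃ + h₁ + h₂) = lab u → d3 φ u h₁ h₂ h₃ = 0) ∧
      ∑ z, ‖∑ w ∈ W, f (z + w) * e (-ψ z w)‖ ≤
        W.card * (∑ y, f y * e (-φ y)).re + Fintype.card G * ((W.card : ℝ) - I.card) := by
  classical
  choose φ hq h0 hmax using fun a : ι => cell_phase f W ψ hψ (univ.filter fun y => lab y = a)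
  refine ⟨fun y => φ (lab y) y, fun u h₁ h₂ h₃ a1 a2 a3 a4 a5 a6 a7 => ?_, ?_⟩
  · have := hq (lab u) u h₁ h₂ h₃ (by simp) (by simpa using a1) (by simpa using a2)
      (by simpa using a3)
    simpa only [d3, d2, a1, a2, a3, a4, a5, a6, a7] using this
  set K : ι → ℝ := fun a => (∑ y ∈ univ.filter fun y => lab y = a, f y * e (-φ a y)).re with hK
  set good : G → ι → Prop := fun z a => ∀ y, lab y = a → y - z ∈ W with hgood
  have hsum : (∑ y, f y * e (-φ (lab y) y)).re = ∑ a ∈ univ.image lab, K a := by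
    rw [← sum_fiberwise_of_maps_to (s := univ) (t := univ.image lab) (g := lab)
      (fun y hy => mem_image_of_mem _ hy), Complex.re_sum]
    refine sum_congr rfl fun a _ => ?_
    simp only [hK]
    congr 1
    refine sum_congr rfl fun y hy => ?_
    rw [(mem_filter.1 hy).2]
  have hz : ∀ z, ‖∑ w ∈ W, f (z + w) * e (-ψ z w)‖ ≤
      ∑ a ∈ (univ.image lab).filter (good z), K a + ((W.card : ℝ) - I.card) := by
    intro z
    rw [← sum_filter_add_sum_filter_not W (fun w => good z (lab (z + w)))]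
    refine (norm_add_le _ _).trans (add_le_add ?_ ?_)
    · have e1 : ∑ w ∈ W.filter (fun w => good z (lab (z + w))), f (z + w) * e (-ψ z w) =
          ∑ y ∈ univ.filter (fun y => good z (lab y)), f y * e (-ψ z (y - z)) := by
        refine sum_nbij' (fun w => z + w) (fun y => y - z) ?_ ?_ ?_ ?_ ?_
        · intro w hw
          simp only [mem_filter, mem_univ, true_and] at hw ⊢
          exact hw.2
        · intro y hy
          simp only [mem_filter, mem_univ, true_and, add_sub_cancel] at hy ⊢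
          exact ⟨hy y rfl, hy⟩
        · intro w _
          simp
        · intro y _
          simp
        · intro w _
          simp
      rw [e1, ← sum_fiberwise_of_maps_to (t := (univ.image lab).filter (good z)) (g := lab)
        (fun y hy => mem_filter.2 ⟨mem_image_of_mem _ (mem_univ _), (mem_filter.1 hy).2⟩)]
      refine (norm_sum_le _ _).trans (sum_le_sum fun a ha => ?_)
      have ha' := (mem_filter.1 ha).2
      have e2 : (univ.filter fun y => good z (lab y)).filter (fun y => lab y = a) =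
          univ.filter fun y => lab y = a := by
        ext y
        simp only [mem_filter, mem_univ, true_and, and_iff_right_iff_imp]
        rintro rfl
        exact ha'
      rw [e2]
      exact hmax a z fun y hy => ha' y (mem_filter.1 hy).2
    · refine (norm_sum_le _ _).trans ?_
      have e3 : W.filter (fun w => ¬ good z (lab (z + w))) ⊆ W \ I := by
        intro w hw
        rw [mem_filter] at hw
        refine mem_sdiff.2 ⟨hw.1, fun hwI => hw.2 fun y hy => ?_⟩
        have := hIW w hwI (z + w) y hy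
        convert this using 1
        abel
      calc ∑ w ∈ W.filter (fun w => ¬ good z (lab (z + w))), ‖f (z + w) * e (-ψ z w)‖
          ≤ ∑ w ∈ W.filter (fun w => ¬ good z (lab (z + w))), (1 : ℝ) := by
            refine sum_le_sum fun w _ => ?_
            rw [norm_mul, norm_e, mul_one]
            exact hf _
        _ ≤ ∑ w ∈ W \ I, (1 : ℝ) := sum_le_sum_of_subset_of_nonneg e3 fun _ _ _ => zero_le_one
        _ = (W.card : ℝ) - I.card := by
            rw [sum_const, nsmul_eq_mul, mul_one, card_sdiff_of_subset hI,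
              Nat.cast_sub (card_le_card hI)]
  refine (sum_le_sum fun z _ => hz z).trans ?_
  rw [sum_add_distrib, sum_const, card_univ, nsmul_eq_mul, hsum, mul_sum]
  refine add_le_add ?_ le_rfl
  simp only [sum_filter]
  rw [sum_comm]
  refine sum_le_sum fun a ha => ?_
  obtain ⟨y₀, -, rfl⟩ := mem_image.1 ha
  rw [← sum_filter, sum_const, nsmul_eq_mul]
  refine mul_le_mul_of_nonneg_right ?_ (h0 _)
  have : (univ.filter fun z => good z (lab y₀)).card ≤ W.card := by
    refine card_le_card_of_injOn (fun z => y₀ - z) (fun z hz => ?_) fun a _ b _ hab => ?_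
    · simp only [coe_filter, mem_univ, true_and, Set.mem_ofPred_eq] at hz
      exact hz y₀ rfl
    · exact sub_right_injective hab
  exact_mod_cast this

end Cells

theorem cells : CellsStmt := by
  classical
  intro N _ f P c η β hf hβ hβ1 ⟨Θ, r, s, W, ψ, hΘ, hr, hs, hP, hrs, hW, hψ, hc⟩
  obtain ⟨I, O, hI, hO, hIW, -, hcard⟩ := hW.ex
  have hP0 : 0 ≤ P := (Nat.cast_nonneg _).trans hΘ
  have hrs0 : 0 < r * s := mul_pos hr hs
  set s₀ := exp (-P) * β / (100 * (P + 1)) with hs₀
  have hs₀0 : 0 < s₀ := by positivity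
  set m := ⌈1 / (r * s)⌉₊ with hm
  have hm0 : 0 < m := Nat.ceil_pos.2 (by positivity)
  have hm0' : (0 : ℝ) < m := by exact_mod_cast hm0
  have hm1 : 1 / (m : ℝ) ≤ r * s := by
    have : 1 / (r * s) ≤ m := Nat.le_ceil _
    rw [div_le_iff₀ hrs0] at this
    rw [div_le_iff₀ hm0']
    linarith
  have hm2 : m * exp (-P) ≤ 2 := by
    have h1 : (m : ℝ) < 1 / (r * s) + 1 := Nat.ceil_lt_add_one (by positivity)
    have h2 : (m : ℝ) * (r * s) ≤ (1 / (r * s) + 1) * (r * s) :=
      mul_le_mul_of_nonneg_right h1.le hrs0.le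
    rw [add_mul, one_div_mul_cancel hrs0.ne'] at h2
    have h3 := mul_le_mul_of_nonneg_left hP hm0'.le
    linarith
  obtain ⟨arc, -, harc, hbd⟩ := exists_arc hm0
  have hδ : 0 < m * (4 * s₀) := by positivity
  choose σ hσ using fun θ : ZMod N => arc_shift (univ : Finset (ZMod N)) (pr θ) hm0 hδ
  set lab : ZMod N → Θ → ℕ := fun y θ => arc (pr θ y + σ θ) with hlab
  obtain ⟨φ, hφ, hsum⟩ := Cells.glue lab f hf W I hI (fun x hx y y' h => by
    refine hIW x hx _ ((bohrF_mem hr.le _ _).2 fun θ hθ => ?_)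
    have := harc _ _ (congrFun h ⟨θ, hθ⟩)
    rw [add_sub_add_right_eq_sub, ← pr_sub_right] at this
    linarith [mul_comm r s]) ψ hψ
  refine ⟨Θ, φ, hΘ, ?_, ?_⟩
  · have h1 : cnt univ (fun y => ¬ Quad (InN Θ s₀) φ y) ≤
        cnt univ (fun y => ∃ θ ∈ Θ, ‖(m : ℤ) • (pr θ y + σ θ)‖ ≤ m * (4 * s₀)) := by
      refine cnt_mono fun y _ hy => ?_
      by_contra hn
      push Not at hn
      have key : ∀ v a, InN Θ a v → a ≤ 4 * s₀ → lab (y + v) = lab y := by
        intro v a hv ha
        funext θ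
        by_contra hne
        have h2 : arc (pr θ y + σ θ + pr θ v) ≠ arc (pr θ y + σ θ) := by
          rw [add_right_comm, ← pr_add_right]
          exact hne
        have h3 := hbd _ _ h2
        have h4 := hn θ θ.2
        have h5 := mul_le_mul_of_nonneg_left ((hv θ θ.2).trans ha) hm0'.le
        linarith
      refine hy fun u h₁ h₂ h₃ bu b₁ b₂ b₃ => ?_
      have k0 := key u _ bu (by linarith)
      refine hφ (y + u) h₁ h₂ h₃ ?_ ?_ ?_ ?_ ?_ ?_ ?_
      · rw [k0, add_assoc]
        exact key _ _ (bu.add b₁) (by linarith)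
      · rw [k0, add_assoc]
        exact key _ _ (bu.add b₂) (by linarith)
      · rw [k0, add_assoc]
        exact key _ _ (bu.add b₃) (by linarith)
      · rw [k0, add_assoc y, add_assoc y]
        exact key _ _ ((bu.add b₁).add b₂) (by linarith)
      · rw [k0, add_assoc y, add_assoc y]
        exact key _ _ ((bu.add b₃).add b₁) (by linarith)
      · rw [k0, add_assoc y, add_assoc y]
        exact key _ _ ((bu.add b₃).add b₂) (by linarith)
      · rw [k0, add_assoc y, add_assoc y, add_assoc y]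
        exact key _ _ (((bu.add b₃).add b₁).add b₂) (by linarith)
    refine h1.trans ((cnt_exists_le _ _ _).trans ((sum_le_sum fun θ _ => hσ θ).trans ?_))
    rw [sum_const, nsmul_eq_mul, card_univ, ZMod.card, ← mul_assoc]
    refine mul_le_mul_of_nonneg_right ?_ (Nat.cast_nonneg _)
    have h6 : 4 * (m * (4 * s₀)) = 16 * (m * exp (-P)) * β / (100 * (P + 1)) := by
      rw [hs₀]; ring
    have h7 : 4 * (m * (4 * s₀)) ≤ β / (P + 1) := by
      rw [h6, div_le_div_iff₀ (by positivity) (by positivity)]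
      have : 0 < β * (P + 1) := by positivity
      nlinarith
    calc (Θ.card : ℝ) * (4 * (m * (4 * s₀))) ≤ (P + 1) * (β / (P + 1)) :=
          mul_le_mul (by linarith) h7 (by positivity) (by positivity)
      _ = β := by field_simp
  · have hW0 : (0 : ℝ) < W.card := by exact_mod_cast card_pos.2 ⟨0, hW.zero_mem⟩
    have hIW' : (I.card : ℝ) ≤ W.card := by exact_mod_cast card_le_card hI
    have hWO : (W.card : ℝ) ≤ O.card := by exact_mod_cast card_le_card hO
    have hI0 : (0 : ℝ) ≤ I.card := Nat.cast_nonneg _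
    have hη : 0 ≤ η := by
      by_contra hneg
      push Not at hneg
      rcases hI0.eq_or_lt with h | h
      · rw [← h] at hcard
        linarith
      · nlinarith [mul_pos (neg_pos.2 hneg) h]
    have h1 : (W.card : ℝ) - I.card ≤ η * W.card := by nlinarith
    have h2 : ∑ z, ‖∑ w ∈ W, f (z + w) * e (-ψ z w)‖ ^ 2 ≤
        W.card * ∑ z, ‖∑ w ∈ W, f (z + w) * e (-ψ z w)‖ := by
      rw [mul_sum]
      refine sum_le_sum fun z _ => ?_
      rw [sq]
      refine mul_le_mul_of_nonneg_right ((norm_sum_le _ _).trans ?_) (norm_nonneg _)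
      rw [card_eq_sum_ones, Nat.cast_sum]
      refine sum_le_sum fun w _ => ?_
      rw [norm_mul, norm_e, mul_one, Nat.cast_one]
      exact hf _
    rw [ZMod.card] at hsum
    have h3 := mul_le_mul_of_nonneg_left h1 (Nat.cast_nonneg (α := ℝ) N)
    have h4 := mul_le_mul_of_nonneg_left (hsum.trans (add_le_add le_rfl h3)) hW0.le
    have h5 : (c - η) * N * (W.card : ℝ) ^ 2 ≤ (∑ y, f y * e (-φ y)).re * (W.card : ℝ) ^ 2 := by
      nlinarith
    exact le_of_mul_le_mul_right h5 (by positivity)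

end Pool.Agent.Tri
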