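import Pool.Agent.Lib.MP_9721b5_an.Tri.SBase

/-!
A popular class of quadratic parts.
-/

set_option autoImplicit false

open Finset Real

namespace Pool.Agent.Tri

open Cfg

namespace Cls

lemma inv_prod {S : Finset ℤ} {b b' : ℤ} {η : ℝ} (h : Inv S b η) (h' : Inv S b' η) :
    Inv (S ×ˢ S) ((b, b') : ℤ × ℤ) (2 * η) := by
  classical
  unfold Inv at *
  have h1 : cnt (S ×ˢ S) (fun w : ℤ × ℤ => w + (b, b') ∉ S ×ˢ S) ≤
      cnt (S ×ˢ S) (fun w : ℤ × ℤ => w.1 + b ∉ S) + cnt (S ×ˢ S) (fun w : ℤ × ℤ => w.2 + b' ∉ S) := by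
    refine le_trans (cnt_mono fun w _ hw => ?_) (cnt_or_le _ _ _)
    by_contra hc
    rw [not_or, not_not, not_not] at hc
    exact hw (mem_product.2 hc)
  have h2 : cnt (S ×ˢ S) (fun w : ℤ × ℤ => w.2 + b' ∉ S) = S.card * cnt S fun w => w + b' ∉ S := by
    rw [cnt_product]
    dsimp only
    rw [sum_const, nsmul_eq_mul]
  have h3 : cnt (S ×ˢ S) (fun w : ℤ × ℤ => w.1 + b ∉ S) ≤
      cnt (S ×ˢ S) (fun w : ℤ × ℤ => w.2 + b ∉ S) := by
    refine cnt_le_of_inj Prod.swap (fun w hw hb => ⟨?_, hb⟩) fun _ _ _ _ _ _ h => Prod.swap_injective h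
    exact mem_product.2 (mem_product.1 hw).symm
  have h4 : cnt (S ×ˢ S) (fun w : ℤ × ℤ => w.2 + b ∉ S) = S.card * cnt S fun w => w + b ∉ S := by
    rw [cnt_product]
    dsimp only
    rw [sum_const, nsmul_eq_mul]
  have h5 : (0 : ℝ) ≤ S.card := Nat.cast_nonneg _
  rw [card_product, Nat.cast_mul]
  nlinarith [mul_le_mul_of_nonneg_left h h5, mul_le_mul_of_nonneg_left h' h5]

/-- most points of `X` are reached from a rich point -/
lemma rich {Γ : Type*} [AddCommGroup Γ] (X S Ω : Finset Γ) (hS : S.Nonempty) {a : ℝ} (ha : 0 ≤ a)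
    (hΩ : ∀ p ∈ X, ∀ w ∈ S, p - w ∈ Ω) :
    (X.card : ℝ) ≤ cnt X (fun p => ∃ w ∈ S, a * S.card ≤ cnt S fun u => p - w + u ∈ X) +
      a * Ω.card := by
  have hS' : (0 : ℝ) < S.card := Nat.cast_pos.2 hS.card_pos
  have h1 := cnt_add_not X (fun p => ∃ w ∈ S, a * S.card ≤ cnt S fun u => p - w + u ∈ X)
  have h2 : cnt (S ×ˢ X) (fun q : Γ × Γ =>
      ¬ ∃ w ∈ S, a * S.card ≤ cnt S fun u => q.2 - w + u ∈ X) ≤
      cnt (Ω ×ˢ S) (fun q : Γ × Γ => q.1 + q.2 ∈ X ∧ cnt S (fun u => q.1 + u ∈ X) < a * S.card) := by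
    refine cnt_le_of_inj (fun q => (q.2 - q.1, q.1)) (fun q hq hn => ?_) fun q _ q' _ _ _ h => ?_
    · obtain ⟨hq1, hq2⟩ := mem_product.1 hq
      refine ⟨mem_product.2 ⟨hΩ _ hq2 _ hq1, hq1⟩, by simpa using hq2, ?_⟩
      by_contra hc
      exact hn ⟨q.1, hq1, not_lt.1 hc⟩
    · have e1 : q.1 = q'.1 := congrArg Prod.snd h
      have e2 : q.2 - q.1 = q'.2 - q'.1 := congrArg Prod.fst h
      rw [e1] at e2
      exact Prod.ext e1 (sub_left_injective e2)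
  rw [cnt_product, cnt_product] at h2
  dsimp only at h2
  rw [sum_const, nsmul_eq_mul] at h2
  have h3 : ∑ p ∈ Ω, cnt S (fun w => p + w ∈ X ∧ cnt S (fun u => p + u ∈ X) < a * S.card) ≤
      ∑ _p ∈ Ω, a * S.card := by
    refine sum_le_sum fun p _ => ?_
    by_cases hp : cnt S (fun u => p + u ∈ X) < a * S.card
    · exact (cnt_mono fun w _ hw => hw.1).trans hp.le
    · by_contra hc
      obtain ⟨w, -, hw⟩ := (cnt_pos_iff _ _).1 ((mul_nonneg ha hS'.le).trans_lt (not_le.1 hc))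
      exact hp hw.2
  rw [sum_const, nsmul_eq_mul] at h3
  have h4 := h2.trans h3
  have h5 : cnt X (fun p => ¬ ∃ w ∈ S, a * S.card ≤ cnt S fun u => p - w + u ∈ X) ≤
      a * Ω.card := le_of_mul_le_mul_left (by linarith) hS'
  linarith

/-- a popular partner -/
lemma popular {α : Type*} (X : Finset α) (f g : α → ℤ) (Wf Wg : Finset ℤ) (hW : Wg.Nonempty)
    (hf : ∀ p ∈ X, f p ∈ Wf) (hg : ∀ p ∈ X, g p ∈ Wg)
    (hinj : ∀ p ∈ X, ∀ p' ∈ X, f p = f p' → g p = g p' → p = p') (Rel : ℤ → ℤ → Prop)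
    (hR : ∀ p ∈ X, Rel (f p) (g p)) :
    ∃ v, (X.card : ℝ) ^ 2 ≤ Wf.card * Wg.card * cnt X fun p => Rel (f p) v := by
  classical
  have h1 : cnt (X ×ˢ X) (fun q : α × α => f q.2 = f q.1) ≤
      cnt (Wg ×ˢ X) (fun q : ℤ × α => Rel (f q.2) q.1) := by
    refine cnt_le_of_inj (fun q => (g q.2, q.1)) (fun q hq he => ?_) fun q hq q' hq' he he' h => ?_
    · obtain ⟨hq1, hq2⟩ := mem_product.1 hq
      exact ⟨mem_product.2 ⟨hg _ hq2, hq1⟩, he ▸ hR _ hq2⟩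
    · have e1 : q.1 = q'.1 := congrArg Prod.snd h
      have e2 : g q.2 = g q'.2 := congrArg Prod.fst h
      exact Prod.ext e1 (hinj _ (mem_product.1 hq).2 _ (mem_product.1 hq').2
        (by rw [he, he', e1]) e2)
  rw [cnt_product, cnt_product] at h1
  have h2 : ∑ p ∈ X, cnt X (fun p' => f p' = f p) = ∑ v ∈ Wf, cnt X (fun p => f p = v) ^ 2 := by
    rw [← sum_fiberwise_of_maps_to hf]
    refine sum_congr rfl fun v _ => ?_
    rw [sum_congr rfl (g := fun _ => cnt X fun p => f p = v)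
      (fun p hp => by rw [(mem_filter.1 hp).2]), sum_const, nsmul_eq_mul, ← cnt_eq_card, sq]
  have h3 : (X.card : ℝ) = ∑ v ∈ Wf, cnt X (fun p => f p = v) := by
    rw [card_eq_sum_card_fiberwise (f := f) (t := Wf) fun p hp => hf p hp]
    push_cast
    exact sum_congr rfl fun v _ => (cnt_eq_card _ _).symm
  have h4 : (X.card : ℝ) ^ 2 ≤ Wf.card * ∑ v ∈ Wg, cnt X (fun p => Rel (f p) v) := by
    rw [h3]
    refine sq_sum_le_card_mul_sum_sq.trans (mul_le_mul_of_nonneg_left ?_ (Nat.cast_nonneg _))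
    rw [← h2]
    exact h1
  obtain ⟨v, -, hv⟩ := exists_max_image Wg (fun v => cnt X fun p => Rel (f p) v) hW
  refine ⟨v, h4.trans ?_⟩
  rw [mul_assoc]
  refine mul_le_mul_of_nonneg_left ?_ (Nat.cast_nonneg _)
  rw [← nsmul_eq_mul]
  exact sum_le_card_nsmul _ _ _ hv

/-- the bilinear form attached to a pair -/
noncomputable def Lam (c : Cfg) (x n b b' z : ℤ) : T :=
  ∑ m : Fin 3, d2 (c.φ m) (y m x n) (b + ((m : ℤ) + 1) * b') (2 * ((m : ℤ) + 1) * z)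

variable {c : Cfg} {P : ℝ}

lemma abs_le_three (m : Fin 3) : |((((m : ℤ) + 1 : ℤ)) : ℝ)| ≤ 3 := by
  fin_cases m <;> norm_num

lemma inB_nonneg_mono {Θ : Finset T} {s s' : ℝ} {x : ℤ} (h : InB Θ s x) (hs : s ≤ s') :
    InB Θ s' x := h.mono subset_rfl hs

lemma inB_comb {Θ : Finset T} {r : ℝ} (hr : 0 ≤ r) {b b' : ℤ} (h : InB Θ r b) (h' : InB Θ r b')
    (m : Fin 3) : InB Θ (4 * r) (b + ((m : ℤ) + 1) * b') :=
  inB_nonneg_mono (h.add (h'.mul _)) (by nlinarith [abs_le_three m])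

lemma inB_two {Θ : Finset T} {r : ℝ} (hr : 0 ≤ r) {z : ℤ} (h : InB Θ r z) (m : Fin 3) :
    InB Θ (6 * r) (2 * ((m : ℤ) + 1) * z) := by
  refine inB_nonneg_mono (h.mul _) (mul_le_mul_of_nonneg_right ?_ hr)
  rw [Int.cast_mul, abs_mul]
  have := abs_le_three m
  norm_num at this ⊢
  linarith

lemma q_succ (h : c.OK P) (a : ℕ) : 1000 * c.q (a + 1) ≤ c.q a := by
  have h1 := h.q_mul 1
  have h2 := h.Q_big
  have h3 := h.q_pos a
  have h4 := h.q_pos 1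
  rw [pow_one] at h1
  rw [q_add]
  have h5 : 1000 * c.q 1 ≤ 1 := by nlinarith
  nlinarith

lemma q_one_le (h : c.OK P) : 1000 * c.q 1 ≤ 1 := by
  have := q_succ h 0
  simpa [q] using this

lemma pow_q (h : c.OK P) (a b : ℕ) : (c.Q : ℝ) ^ a * c.q (a + b) = c.q b := by
  rw [q_add, ← mul_assoc, h.q_mul, one_mul]

lemma lam_eq (h : c.OK P) {x n u u' b b' z : ℤ} (hg : ∀ i, c.Good i (y i x n))
    (hu : InB c.Θ (2 * c.q 2) u) (hu' : InB c.Θ (2 * c.q 2) u') (hb : InB c.Θ (c.q 2) b)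
    (hb' : InB c.Θ (c.q 2) b') (hz : InB c.Θ (c.q 2) z) :
    c.Ψ (x + u + b) (n + u' + b') z - c.Ψ (x + u) (n + u') z = Lam c x n b b' z := by
  have hq := h.q_pos 2
  rw [Ψ_eq, Ψ_eq, ← sum_sub_distrib]
  refine sum_congr rfl fun m _ => ?_
  rw [y_add, y_add]
  exact h.fr_shift (hg m) (inB_nonneg_mono (inB_comb (by linarith) hu hu' m) (by linarith))
    (inB_nonneg_mono (inB_comb hq.le hb hb' m) (by linarith)) (inB_nonneg_mono hz (by linarith))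

lemma lam_mul_right (h : c.OK P) {x n b b' z i : ℤ} (hg : ∀ i, c.Good i (y i x n))
    (hb : InB c.Θ (c.q 2) b) (hb' : InB c.Θ (c.q 2) b') (hz : InB c.Θ (c.q 6) z)
    (hi : |(i : ℝ)| ≤ (c.Q : ℝ) ^ 4) : Lam c x n b b' (i * z) = i • Lam c x n b b' z := by
  have hq := h.q_pos 2
  have hq6 := h.q_pos 6
  have h1 := q_succ h 1
  have h2 := pow_q h 4 2
  have h3 := h.q_anti (show 2 ≤ 6 by norm_num)
  unfold Lam
  rw [smul_sum]
  refine sum_congr rfl fun m _ => ?_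
  rw [d2_comm, d2_comm _ _ (b + _), mul_left_comm]
  refine Quad.d2_mul (hg m) (by linarith) (inB_two hq6.le hz m) ?_
    (inB_nonneg_mono (inB_comb hq.le hb hb' m) (by linarith))
  norm_num at h1 h2
  nlinarith

lemma lam_mul_left (h : c.OK P) {x n b b' z i : ℤ} (hg : ∀ i, c.Good i (y i x n))
    (hb : InB c.Θ (c.q 3) b) (hb' : InB c.Θ (c.q 3) b') (hz : InB c.Θ (c.q 2) z)
    (hi : |(i : ℝ)| ≤ c.Q) : Lam c x n (i * b) (i * b') z = i • Lam c x n b b' z := by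
  have hq := h.q_pos 2
  have hq3 := h.q_pos 3
  have h1 := q_succ h 1
  have h2 := pow_q h 1 2
  have h3 := h.q_anti (show 2 ≤ 3 by norm_num)
  unfold Lam
  rw [smul_sum]
  refine sum_congr rfl fun m _ => ?_
  rw [mul_left_comm, ← mul_add]
  refine Quad.d2_mul (hg m) (by linarith) (inB_comb hq3.le hb hb' m) ?_
    (inB_nonneg_mono (inB_two hq.le hz m) (by linarith))
  norm_num at h1 h2
  nlinarith

lemma num_J (h : c.OK P) {σ : ℝ} (hσ : exp (-P) ≤ σ) :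
    (⌈8 / σ⌉₊ : ℝ) ≤ exp (P ^ 5) ∧ (⌈8 / σ⌉₊ : ℝ) ≤ c.Q ∧ 16 * c.q 2 ≤ σ := by
  have hP := h.two_le
  have h0 := exp_pos (-P)
  have hσ0 : 0 < σ := h0.trans_le hσ
  have h1 : exp (-P) * exp P = 1 := by rw [← exp_add]; simp
  have h2 : 1 ≤ exp P := one_le_exp (by linarith)
  have h3 : 8 / σ ≤ 8 * exp P := by
    rw [div_le_iff₀ hσ0]
    nlinarith
  have h4 : (⌈8 / σ⌉₊ : ℝ) ≤ 9 * exp P := by
    linarith [Nat.ceil_lt_add_one (show 0 ≤ 8 / σ by positivity)]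
  have h5 : P ≤ P ^ 4 := le_self_pow₀ (by linarith) (by norm_num)
  have h6 := exp_le_exp.2 h5
  have h7 := h.Q_ge'
  have h8 : 16 ≤ P ^ 4 := by
    have := pow_le_pow_left₀ (by norm_num) hP 4
    norm_num at this
    exact this
  refine ⟨h4.trans ?_, by linarith, ?_⟩
  · have h9 : P + 8 ≤ P ^ 5 := by nlinarith
    have h10 := exp_le_exp.2 h9
    rw [exp_add] at h10
    nlinarith [add_one_le_exp (8 : ℝ)]
  · have h9 := h.q_mul 1
    have h10 := h.q_pos 1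
    have h11 := h.q_anti (show 1 ≤ 2 by norm_num)
    rw [pow_one] at h9
    have h12 : 16 * exp P * c.q 1 ≤ 1 := by nlinarith
    nlinarith

/-- the form is small at the points reached from a rich point -/
lemma lam_small (h : c.OK P) {σ N : ℝ} {l : ℕ} (hσ : exp (-P) ≤ σ) (hN : 0 ≤ N) {S : Finset ℤ}
    (hS : c.RegS (2 * l + 4) N S) {X : Finset (ℤ × ℤ)} (hX : ∀ p ∈ X, EPair c l N p.1 p.2)
    {p w : ℤ × ℤ} (hp : p ∈ X) (hw : w ∈ S ×ˢ S)
    (hr : σ / 4 * (S ×ˢ S).card ≤ cnt (S ×ˢ S) fun u => p - w + u ∈ X) {b b' z : ℤ}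
    (hb : c.V (2 * l + 5) N b) (hb' : c.V (2 * l + 5) N b') (hz : c.V (2 * l + 5) N z) :
    ‖Lam c p.1 p.2 b b' z‖ ≤ c.q 3 := by
  have hσ0 : 0 < σ := (exp_pos _).trans_le hσ
  obtain ⟨hJ1, hJ2, hη⟩ := num_J h hσ
  have hdiv : ∀ t, c.V (2 * l + 5) N t → ∃ β, t = c.Q * β ∧ c.VV (2 * l + 4) (10 * l + 27) N β := by
    rintro t ⟨v, rfl, h1, h2⟩
    have e1 : 5 * (2 * l + 5) + 2 = 10 * l + 27 := by ring
    rw [e1] at h1 h2
    exact ⟨(c.Q : ℤ) ^ (2 * l + 4) * v, by ring, v, rfl, h1, h2⟩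
  obtain ⟨β, rfl, hβ⟩ := hdiv b hb
  obtain ⟨β', rfl, hβ'⟩ := hdiv b' hb'
  have hmul : ∀ γ, c.VV (2 * l + 4) (10 * l + 27) N γ → ∀ j : ℕ, j ≤ ⌈8 / σ⌉₊ →
      c.VV (2 * l + 4) (5 * (2 * l + 4) + 5) N (j * γ) := by
    intro γ hγ j hj
    refine h.VV_mul (m := 1) hγ le_rfl ?_ (by omega) le_rfl
    rw [pow_one, Int.cast_natCast, Nat.abs_cast]
    exact (Nat.cast_le.2 hj).trans hJ2
  obtain ⟨j, hj1, hjJ, u, hu, hu1, -, hu2⟩ := recur (S := S ×ˢ S) ⟨w, hw⟩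
    (P := fun u => p - w + u ∈ X) (δ := σ / 4) (η := 2 * c.q 2) (J := ⌈8 / σ⌉₊) (b := (β, β'))
    (by linarith) hr (by
      have : 2 / (σ / 4) = 8 / σ := by field_simp; norm_num
      rw [this]; exact Nat.le_ceil _) (by linarith)
    (fun j hj => inv_prod (hS.inv hN (hmul β hβ j hj)) (hS.inv hN (hmul β' hβ' j hj)))
  have hg := (hX p hp).1
  have hjb := hmul β hβ j hjJ
  have hjb' := hmul β' hβ' j hjJ
  have h3 : ∀ γ, c.VV (2 * l + 4) (5 * (2 * l + 4) + 5) N γ → InB c.Θ (c.q 3) γ :=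
    fun γ hγ => inB_nonneg_mono (h.VV_inB hγ (by omega)).1 (h.q_anti (by omega))
  have h23 := h.q_anti (show 2 ≤ 3 by norm_num)
  have hsub : ∀ s ∈ S, ∀ s' ∈ S, InB c.Θ (2 * c.q 2) (s - s') := fun s hs s' hs' =>
    inB_nonneg_mono ((h.V_inB (hS.mem hN hs)).1.sub (h.V_inB (hS.mem hN hs')).1) (by linarith)
  have hF : ∀ z, c.V (2 * l + 4) N z → ‖Lam c p.1 p.2 (j * β) (j * β') z‖ ≤ 8 * c.q 1 := by
    intro z hz
    rw [← lam_eq h hg (hsub _ (mem_product.1 hu).1 _ (mem_product.1 hw).1)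
      (hsub _ (mem_product.1 hu).2 _ (mem_product.1 hw).2) (inB_nonneg_mono (h3 _ hjb) h23)
      (inB_nonneg_mono (h3 _ hjb') h23) (h.V_inB hz).1]
    have e1 := (hX _ hu1).2.Ψ_le hz
    have e2 := (hX _ hu2).2.Ψ_le hz
    have a1 : (p - w + u).1 = p.1 + (u.1 - w.1) := by simp only [Prod.fst_add, Prod.fst_sub]; ring
    have a2 : (p - w + u).2 = p.2 + (u.2 - w.2) := by simp only [Prod.snd_add, Prod.snd_sub]; ring
    have a3 : (p - w + (u + (j : ℤ) • (β, β'))).1 = p.1 + (u.1 - w.1) + j * β := by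
      simp only [Prod.fst_add, Prod.fst_sub, Prod.smul_mk, smul_eq_mul]; ring
    have a4 : (p - w + (u + (j : ℤ) • (β, β'))).2 = p.2 + (u.2 - w.2) + j * β' := by
      simp only [Prod.snd_add, Prod.snd_sub, Prod.smul_mk, smul_eq_mul]; ring
    rw [a1, a2] at e1
    rw [a3, a4] at e2
    linarith [norm_sub_le (c.Ψ (p.1 + (u.1 - w.1) + j * β) (p.2 + (u.2 - w.2) + j * β') z)
      (c.Ψ (p.1 + (u.1 - w.1)) (p.2 + (u.2 - w.2)) z)]
  have hz6 : InB c.Θ (c.q 6) z := inB_nonneg_mono (h.VV_inB hz (by omega)).1 (h.q_anti (by omega))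
  have hsc := h.scale_V (l := 2 * l + 4) (m := 1) (N := N) (a := 8 * c.q 1)
    (F := fun z => Lam c p.1 p.2 (j * β) (j * β') z) (by linarith [q_one_le h]) hF hz
    (fun i hi => lam_mul_right h hg (inB_nonneg_mono (h3 _ hjb) h23)
      (inB_nonneg_mono (h3 _ hjb') h23) hz6 (by rwa [Int.cast_natCast, Nat.abs_cast]))
  obtain ⟨M, hM⟩ := h.dvd j hj1 ((Nat.cast_le.2 hjJ).trans hJ1)
  have hMQ : |((M : ℤ) : ℝ)| ≤ c.Q := by
    rw [Int.cast_natCast, Nat.abs_cast, Nat.cast_le, hM]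
    exact Nat.le_mul_of_pos_left M hj1
  have e1 : ∀ γ : ℤ, (c.Q : ℤ) * γ = M * (j * γ) := fun γ => by rw [hM]; push_cast; ring
  rw [e1, e1, lam_mul_left h hg (h3 _ hjb) (h3 _ hjb') (h.V_inB hz).1 hMQ]
  refine (norm_zsmul_T _ _).trans ((mul_le_mul hMQ hsc (norm_nonneg _) (Nat.cast_nonneg _)).trans ?_)
  have e2 := h.q_mul 1
  have e3 := q_succ h 3
  have e4 := h.q_pos 4
  rw [pow_one] at e2
  calc (c.Q : ℝ) * (8 * c.q 1 * c.q (4 * 1)) = 8 * (c.Q * c.q 1) * c.q 4 := by ring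
    _ ≤ c.q 3 := by rw [e2]; norm_num at e3; linarith

lemma d2_zero (ψ : ℤ → T) (v k : ℤ) : d2 ψ v 0 k = 0 := by
  unfold d2
  simp

/-- elimination of the third phase -/
lemma exists_partner (c : Cfg) (i : Fin 3) : ∃ (j : Fin 3) (a a' s : ℤ), j ≠ i ∧ |(a : ℝ)| ≤ 2 ∧
    |(a' : ℝ)| ≤ 2 ∧ ∀ x n t z : ℤ, Lam c x n (a * t) (a' * t) z =
      d2 (c.φ i) (y i x n) t (2 * ((i : ℤ) + 1) * z) +
        d2 (c.φ j) (y j x n) (s * t) (2 * ((j : ℤ) + 1) * z) := by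
  fin_cases i
  · refine ⟨2, 2, -1, -1, by decide, by norm_num, by norm_num, fun x n t z => ?_⟩
    unfold Lam
    rw [Fin.sum_univ_three]
    have e0 : 2 * t + (((0 : Fin 3) : ℤ) + 1) * (-1 * t) = t := by norm_num; ring
    have e1 : 2 * t + (((1 : Fin 3) : ℤ) + 1) * (-1 * t) = 0 := by norm_num
    have e2 : 2 * t + (((2 : Fin 3) : ℤ) + 1) * (-1 * t) = -1 * t := by norm_num; ring
    rw [e0, e1, e2, d2_zero, add_zero]
    rfl
  · refine ⟨2, -1, 1, 2, by decide, by norm_num, by norm_num, fun x n t z => ?_⟩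
    unfold Lam
    rw [Fin.sum_univ_three]
    have e0 : -1 * t + (((0 : Fin 3) : ℤ) + 1) * (1 * t) = 0 := by norm_num
    have e1 : -1 * t + (((1 : Fin 3) : ℤ) + 1) * (1 * t) = t := by norm_num; ring
    have e2 : -1 * t + (((2 : Fin 3) : ℤ) + 1) * (1 * t) = 2 * t := by norm_num; ring
    rw [e0, e1, e2, d2_zero, zero_add]
    rfl
  · refine ⟨0, -2, 1, -1, by decide, by norm_num, by norm_num, fun x n t z => ?_⟩
    unfold Lam
    rw [Fin.sum_univ_three]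
    have e0 : -2 * t + (((0 : Fin 3) : ℤ) + 1) * (1 * t) = -1 * t := by norm_num; ring
    have e1 : -2 * t + (((1 : Fin 3) : ℤ) + 1) * (1 * t) = 0 := by norm_num
    have e2 : -2 * t + (((2 : Fin 3) : ℤ) + 1) * (1 * t) = t := by norm_num; ring
    rw [e0, e1, e2, d2_zero, add_zero, add_comm]
    rfl

lemma y_inj {i j : Fin 3} (hij : j ≠ i) {p p' : ℤ × ℤ} (hi : y i p.1 p.2 = y i p'.1 p'.2)
    (hj : y j p.1 p.2 = y j p'.1 p'.2) : p = p' := by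
  unfold y at hi hj
  have h1 : ((i : ℤ) - j) * (p.2 - p'.2) = 0 := by linear_combination hi - hj
  have h2 : (i : ℤ) - j ≠ 0 := by
    intro h0
    exact hij (Fin.ext (by omega))
  have h3 : p.2 = p'.2 := sub_eq_zero.1 ((mul_eq_zero.1 h1).resolve_left h2)
  rw [h3] at hi
  exact Prod.ext (by linarith) h3

end Cls

open Cls in
theorem cls : ClassStmt := by
  classical
  intro c P σ l k j i X h hσ hk hX hcard
  have hσ0 : 0 < σ := (exp_pos _).trans_le hσ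
  have h32 := h.Nk_eq hk
  have hNpos : 0 < Nk k := lt_of_lt_of_le (pow_pos h.pos 2) (h.Nk_kb.trans (Nk_mono hk))
  generalize Nk k = N at *
  have hN0 : (0 : ℝ) < N := Nat.cast_pos.2 hNpos
  have h32' : (2 : ℝ) ^ k = 32 * N := by exact_mod_cast h32.symm
  have hnode : ∀ p ∈ X, (j : ℤ) * (32 * N) ≤ p.1 ∧ p.1 < j * (32 * N) + 32 * N ∧ 1 ≤ p.2 ∧
      p.2 ≤ N := by
    intro p hp
    obtain ⟨⟨x', hx', he⟩, h2, -⟩ := hX p hp
    unfold node at hx'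
    rw [mem_Ico, ← h32, add_mul, one_mul] at hx'
    rw [he]
    refine ⟨by exact_mod_cast hx'.1, by exact_mod_cast hx'.2, (mem_Icc.1 h2).1, (mem_Icc.1 h2).2⟩
  obtain ⟨S, hS⟩ := h.exists_regS (2 * l + 4) hN0.le
  have hS0 : (S ×ˢ S).Nonempty := ⟨(0, 0), mem_product.2 ⟨hS.zero_mem, hS.zero_mem⟩⟩
  have hSabs : ∀ s ∈ S, -((N / 8 : ℕ) : ℤ) ≤ s ∧ s ≤ (N / 8 : ℕ) := by
    intro s hs
    have h1 := (h.V_inB (hS.mem hN0.le hs)).2
    have h2 := q_one_le h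
    have h3 := h.q_anti (show 1 ≤ 2 by norm_num)
    have h4 : (8 : ℝ) * |(s : ℝ)| ≤ N := by nlinarith
    have h5 : 8 * |s| ≤ N := by exact_mod_cast h4
    have h6 := abs_le.1 (show |s| ≤ ((N / 8 : ℕ) : ℤ) by omega)
    exact h6
  -- the points reached from rich points
  have hrich := rich X (S ×ˢ S)
    (Ico ((j : ℤ) * (32 * N) - (N / 8 : ℕ)) (j * (32 * N) + 32 * N + (N / 8 : ℕ)) ×ˢ
      Ico (1 - ((N / 8 : ℕ) : ℤ)) (N + 1 + (N / 8 : ℕ))) hS0 (a := σ / 4) (by linarith) (by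
      intro p hp w hw
      obtain ⟨a1, a2, a3, a4⟩ := hnode p hp
      obtain ⟨b1, b2⟩ := hSabs _ (mem_product.1 hw).1
      obtain ⟨b3, b4⟩ := hSabs _ (mem_product.1 hw).2
      rw [mem_product, mem_Ico, mem_Ico, Prod.fst_sub, Prod.snd_sub]
      refine ⟨⟨?_, ?_⟩, ?_, ?_⟩ <;> linarith)
  rw [cnt_eq_card] at hrich
  set X'' := X.filter fun p => ∃ w ∈ S ×ˢ S,
    σ / 4 * (S ×ˢ S).card ≤ cnt (S ×ˢ S) fun u => p - w + u ∈ X with hX''
  have hbig : σ / 2 * (32 * N) * N ≤ X''.card := by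
    have e1 : (Ico ((j : ℤ) * (32 * N) - (N / 8 : ℕ)) (j * (32 * N) + 32 * N + (N / 8 : ℕ))).card =
        32 * N + 2 * (N / 8) := by
      rw [Int.card_Ico]; omega
    have e2 : (Ico (1 - ((N / 8 : ℕ) : ℤ)) (N + 1 + (N / 8 : ℕ))).card = N + 2 * (N / 8) := by
      rw [Int.card_Ico]; omega
    have e3 : ((N / 8 : ℕ) : ℝ) ≤ N / 8 := Nat.cast_div_le
    have e4 : (0 : ℝ) ≤ (N / 8 : ℕ) := Nat.cast_nonneg _
    rw [card_product (Ico _ _), e1, e2] at hrich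
    push_cast at hrich
    rw [h32'] at hcard
    have e5 : (32 * (N : ℝ) + 2 * (N / 8 : ℕ)) * (N + 2 * (N / 8 : ℕ)) ≤ 2 * (32 * N) * N := by
      nlinarith
    nlinarith [mul_le_mul_of_nonneg_left e5 (show 0 ≤ σ / 4 by linarith)]
  obtain ⟨j', a, a', s, hji, ha, ha', hlam⟩ := exists_partner c i
  have hwin : ∀ m : Fin 3, ∀ p ∈ X'', y m p.1 p.2 ∈
      Ico ((j : ℤ) * (32 * N)) (j * (32 * N) + 64 * N) := by
    intro m p hp
    obtain ⟨a1, a2, a3, a4⟩ := hnode p (mem_filter.1 hp).1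
    have b1 : (0 : ℤ) ≤ m := Nat.cast_nonneg _
    have b2 : (m : ℤ) ≤ 2 := by have := m.2; omega
    unfold y
    rw [mem_Ico]
    constructor <;> nlinarith
  have hWc : ((Ico ((j : ℤ) * (32 * N)) (j * (32 * N) + 64 * N)).card : ℝ) = 64 * N := by
    have : (Ico ((j : ℤ) * (32 * N)) (j * (32 * N) + 64 * N)).card = 64 * N := by
      rw [Int.card_Ico]; omega
    rw [this]; push_cast; ring
  have hQ2 : ∀ b : ℤ, |(b : ℝ)| ≤ 2 → ∀ t, c.V (2 * l + 6) N t → c.V (2 * l + 5) N (b * t) := by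
    intro b hb t ht
    refine h.VV_mul (m := 1) ht (by omega) ?_ (by omega) le_rfl
    rw [pow_one]
    linarith [h.Q_big]
  obtain ⟨v, hv⟩ := popular X'' (fun p => y i p.1 p.2) (fun p => y j' p.1 p.2) _ _
    ⟨(j : ℤ) * (32 * N), mem_Ico.2 ⟨le_rfl, by omega⟩⟩ (hwin i) (hwin j')
    (fun p _ p' _ h1 h2 => y_inj hji h1 h2)
    (fun v v' => ∀ t z, c.V (2 * l + 6) N t → c.V (2 * l + 5) N z →
      ‖d2 (c.φ i) v t (2 * ((i : ℤ) + 1) * z) + d2 (c.φ j') v' (s * t) (2 * ((j' : ℤ) + 1) * z)‖ ≤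
        c.q 3) (by
      intro p hp t z ht hz
      obtain ⟨hp1, w, hw, hr⟩ := mem_filter.1 hp
      rw [← hlam]
      exact lam_small h hσ hN0.le hS (fun p hp => (hX p hp).2.2) hp1 hw hr (hQ2 a ha t ht)
        (hQ2 a' ha' t ht) hz)
  rw [hWc, cnt_eq_card] at hv
  set X' := X''.filter fun p => ∀ t z, c.V (2 * l + 6) N t → c.V (2 * l + 5) N z →
    ‖d2 (c.φ i) (y i p.1 p.2) t (2 * ((i : ℤ) + 1) * z) +
      d2 (c.φ j') v (s * t) (2 * ((j' : ℤ) + 1) * z)‖ ≤ c.q 3 with hX'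
  have hsub : X' ⊆ X := (filter_subset _ _).trans (filter_subset _ _)
  have hfin : σ ^ 2 / 1000 * 2 ^ k * N ≤ X'.card := by
    rw [h32']
    have e1 := (pow_le_pow_left₀ (by positivity) hbig 2).trans hv
    refine le_of_mul_le_mul_left ?_ (show (0 : ℝ) < 64 * N * (64 * N) by positivity)
    refine le_trans ?_ e1
    have e2 : (0 : ℝ) ≤ σ ^ 2 * N ^ 4 := by positivity
    nlinarith
  obtain ⟨p₀, hp₀⟩ : X'.Nonempty := by
    rw [← card_pos, ← Nat.cast_pos (α := ℝ)]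
    exact lt_of_lt_of_le (by positivity) hfin
  refine ⟨X', hsub, hfin, y i p₀.1 p₀.2, (hX p₀ (hsub hp₀)).2.2.1 i, fun p hp t z ht hz => ?_⟩
  have hq := h.q_pos 2
  have hsh : ∀ p ∈ X', c.fr i (y i p.1 p.2 + t) z - c.fr i (y i p.1 p.2) z =
      d2 (c.φ i) (y i p.1 p.2) t (2 * ((i : ℤ) + 1) * z) := by
    intro p hp
    have := h.fr_shift (u := 0) ((hX p (hsub hp)).2.2.1 i) (InB.zero _ (by linarith))
      (inB_nonneg_mono (h.V_inB ht).1 (by linarith)) (inB_nonneg_mono (h.V_inB hz).1 (by linarith))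
    rwa [add_zero] at this
  rw [hsh p hp, hsh p₀ hp₀]
  have e1 := (mem_filter.1 hp).2 t z ht hz
  have e2 := (mem_filter.1 hp₀).2 t z ht hz
  have e3 := norm_sub_le
    (d2 (c.φ i) (y i p.1 p.2) t (2 * ((i : ℤ) + 1) * z) +
      d2 (c.φ j') v (s * t) (2 * ((j' : ℤ) + 1) * z))
    (d2 (c.φ i) (y i p₀.1 p₀.2) t (2 * ((i : ℤ) + 1) * z) +
      d2 (c.φ j') v (s * t) (2 * ((j' : ℤ) + 1) * z))
  rw [add_sub_add_right_eq_sub] at e3
  linarith

end Pool.Agent.Tri
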