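import Pool.Agent.Lib.MP_9721b5_an.Tri.Cover2

/-!
Stage 3 of the cover lemma: vertical covering.
-/

set_option autoImplicit false

open Finset ComplexConjugate

namespace Pool.Agent.Tri.Cover

variable {G H : Type} [AddCommGroup G] [Fintype G] [SeminormedAddCommGroup H]

lemma stage3 (a : G → H) (A S S' O : Finset G) {δ K : ℝ} (hK : 7 ≤ K)
    (h : (Fintype.card G : ℝ) ≤ K ^ 3 * A.card) (hS' : S'.Nonempty)
    (hO : (O.card : ℝ) ≤ 2 * S'.card) (hO' : ∀ b ∈ S', ∀ t t' : Fin 6 → G,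
      (∀ i, t i ∈ S ∧ t' i ∈ S) → b + ∑ i, t i - ∑ i, t' i ∈ O)
    (ha : ∀ y ∈ A, ∀ b ∈ S', ∀ b' ∈ S', ‖a (y + b - b') - a y‖ ≤ δ)
    (hc : ∀ r, Covd (fun v => ∃ y y' : Fin 6 → G, (∀ i, y i ∈ A ∧ y' i ∈ A) ∧
      ∑ i, y i - ∑ i, y' i = r ∧ v = ∑ i, a (y i) - ∑ i, a (y' i)) (K ^ 324) (576 * δ)) :
    ∃ A3 ⊆ A, (Fintype.card G : ℝ) ≤ K ^ 4 * A3.card ∧
      Covd (fun v => ∃ y y' t t' : Fin 6 → G, (∀ i, y i ∈ A3 ∧ y' i ∈ A3 ∧ t i ∈ S ∧ t' i ∈ S) ∧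
        ∑ i, (y i + t i) = ∑ i, (y' i + t' i) ∧ v = ∑ i, a (y i) - ∑ i, a (y' i))
        (K ^ 330) (1154 * δ) := by
  classical
  have hn := card_pos' G
  obtain ⟨n, hn'⟩ : ∃ n : ℝ, n = Fintype.card G := ⟨_, rfl⟩
  rw [← hn'] at h hn ⊢
  have hK0 : 0 < K := by linarith
  have hA : (0 : ℝ) < A.card := pos_of_mul_pos_right (hn.trans_le h) (by positivity)
  have hs : (0 : ℝ) < S'.card := Nat.cast_pos.2 hS'.card_pos
  obtain ⟨m, hm⟩ : ∃ m : ℝ, m = A.card / (4 * n) * S'.card ^ 2 := ⟨_, rfl⟩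
  have m0 : 0 < m := by rw [hm]; positivity
  let P : G → Prop := fun y => m ≤ cnt (S' ×ˢ S') fun b => y + b.1 - b.2 ∈ A
  obtain ⟨B, hB⟩ : ∃ B, B = A.filter fun y => ¬ P y := ⟨_, rfl⟩
  have h1 : ∑ x : G, cnt (B ×ˢ S') (fun u => u.1 + u.2 = x) = B.card * S'.card := by
    rw [sum_cnt_comm, ← Nat.cast_mul, ← card_product, ← nsmul_one, ← sum_const]
    refine sum_congr rfl fun u _ => ?_
    rw [cnt_eq_card, filter_eq, if_pos (mem_univ _), card_singleton, Nat.cast_one]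
  have h2 : ∑ x : G, cnt (B ×ˢ S') (fun u => u.1 + u.2 = x) ^ 2 ≤ B.card * m := by
    calc _ = ∑ x : G, cnt ((B ×ˢ S') ×ˢ (B ×ˢ S'))
            fun u => u.1.1 + u.1.2 = x ∧ u.2.1 + u.2.2 = x := sum_congr rfl fun x _ => by
          rw [cnt_prod_and (B ×ˢ S') (B ×ˢ S') (fun u => u.1 + u.2 = x) (fun u => u.1 + u.2 = x), sq]
      _ = cnt (univ ×ˢ (B ×ˢ S') ×ˢ (B ×ˢ S')) fun u : G × (G × G) × G × G =>
            u.2.1.1 + u.2.1.2 = u.1 ∧ u.2.2.1 + u.2.2.2 = u.1 :=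
          (cnt_product univ ((B ×ˢ S') ×ˢ (B ×ˢ S')) fun u : G × (G × G) × G × G =>
            u.2.1.1 + u.2.1.2 = u.1 ∧ u.2.2.1 + u.2.2.2 = u.1).symm
      _ ≤ cnt (B ×ˢ S' ×ˢ S') fun u : G × G × G => u.1 + u.2.1 - u.2.2 ∈ A := by
          refine cnt_le_of_inj (fun u => (u.2.1.1, u.2.1.2, u.2.2.2)) (fun u hu ⟨h1, h2⟩ => ?_) ?_
          · simp only [mem_product, mem_univ, true_and] at hu ⊢
            refine ⟨⟨hu.1.1, hu.1.2, hu.2.2⟩, ?_⟩
            rw [h1, ← h2, add_sub_cancel_right]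
            exact (mem_filter.1 (hB ▸ hu.2.1 :)).1
          · rintro ⟨x, ⟨y, b⟩, y', b'⟩ - ⟨z, ⟨u, c⟩, u', c'⟩ - ⟨h1, h2⟩ ⟨h3, h4⟩ h5
            simp only [Prod.mk.injEq] at h1 h2 h3 h4 h5 ⊢
            obtain ⟨rfl, rfl, rfl⟩ := h5
            obtain rfl := h1.symm.trans h3
            exact ⟨rfl, ⟨rfl, rfl⟩, add_right_cancel (h2.trans h4.symm), rfl⟩
      _ ≤ _ := by
          rw [cnt_product, ← nsmul_eq_mul, ← sum_const]
          refine sum_le_sum fun y hy => ?_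
          rw [hB] at hy
          exact (not_le.1 (mem_filter.1 hy).2).le
  have h3 : (B.card : ℝ) ≤ A.card / 4 := by
    have h4 := sq_sum_le_card_mul_sum_sq (s := (univ : Finset G))
      (f := fun x => cnt (B ×ˢ S') fun u => u.1 + u.2 = x)
    rw [h1, card_univ, ← hn'] at h4
    have h5 := h4.trans (mul_le_mul_of_nonneg_left h2 hn.le)
    rw [hm, show n * (B.card * (A.card / (4 * n) * S'.card ^ 2)) =
      B.card * S'.card ^ 2 * (A.card / 4) by field_simp, mul_pow, sq (B.card : ℝ),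
      mul_right_comm] at h5
    rcases (Nat.cast_nonneg B.card : (0 : ℝ) ≤ _).eq_or_lt with h6 | h6
    · rw [← h6]
      positivity
    · exact le_of_mul_le_mul_left h5 (by positivity)
  refine ⟨A.filter P, filter_subset _ _, ?_, ?_⟩
  · have h4 := cnt_add_not A P
    rw [cnt_eq_card, cnt_eq_card, ← hB] at h4
    calc n ≤ K ^ 3 * (2 * (A.filter P).card) := h.trans (by gcongr; linarith)
      _ ≤ K ^ 3 * (K * (A.filter P).card) := by gcongr; linarith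
      _ = _ := by ring
  choose cen hc using hc
  obtain ⟨k, hk⟩ : ∃ k, k = ⌈K ^ 324⌉₊ := ⟨_, rfl⟩
  have k1 : (k : ℝ) ≤ 2 * K ^ 324 := by
    have h4 := Nat.ceil_lt_add_one (a := K ^ 324) (by positivity)
    have h5 : 1 ≤ K ^ 324 := one_le_pow₀ (by linarith)
    rw [hk]
    linarith
  rw [show 1154 * δ = 2 * (577 * δ) by ring]
  refine covd _ (S' ×ˢ O ×ˢ range k) (fun ω => cen (ω.2.1 - ω.1) ω.2.2) m0 ?_ ?_
  · rintro _ ⟨y, y', t, t', hy, he, rfl⟩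
    obtain ⟨y0, y1⟩ := mem_filter.1 (hy 0).1
    have key : ∀ b ∈ S' ×ˢ S', y 0 + b.1 - b.2 ∈ A → ∃ l, l < k ∧
        ‖cen (b.1 + ∑ i, t' i - ∑ i, t i - b.2) l - (∑ i, a (y i) - ∑ i, a (y' i))‖ ≤ 577 * δ := by
      intro b hb hb'
      obtain ⟨l, l1, l2⟩ := hc (b.1 + ∑ i, t' i - ∑ i, t i - b.2) _
        ⟨Fin.cons (y 0 + b.1 - b.2) fun i => y i.succ, y', fun i => ⟨by
          refine Fin.cases ?_ (fun i => ?_) i
          · exact hb'
          · exact (mem_filter.1 (hy i.succ).1).1, (mem_filter.1 (hy i).2.1).1⟩, by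
          rw [sum_add_distrib, sum_add_distrib, Fin.sum_univ_succ y, ← sub_eq_iff_eq_add'] at he
          rw [Fin.sum_cons, ← he]
          abel, rfl⟩
      refine ⟨l, hk ▸ Nat.lt_ceil.2 l1, ?_⟩
      rw [Fin.sum_univ_succ] at l2
      simp only [Fin.cons_zero, Fin.cons_succ] at l2
      rw [Fin.sum_univ_succ fun i => a (y i)]
      exact nle (norm_sub_le_of_le (ha _ y0 _ (mem_product.1 hb).1 _ (mem_product.1 hb).2) l2)
        (by abel) (by ring)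
    choose! lab l1 l2 using key
    refine y1.trans (cnt_le_of_inj (fun b => (b.2, b.1 + ∑ i, t' i - ∑ i, t i, lab b))
      (fun b hb hb' => ⟨mem_product.2 ⟨(mem_product.1 hb).2, mem_product.2
        ⟨hO' _ (mem_product.1 hb).1 t' t fun i => ⟨(hy i).2.2.2, (hy i).2.2.1⟩,
          mem_range.2 (l1 b hb hb')⟩⟩, l2 b hb hb'⟩) fun b _ c _ _ _ h => ?_)
    obtain ⟨h4, h5⟩ := Prod.mk.inj h
    exact Prod.ext (add_right_cancel (sub_left_injective (Prod.mk.inj h5).1)) h4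
  · rw [card_product, card_product, card_range, Nat.cast_mul, Nat.cast_mul, hm]
    have h4 : 1 ≤ K ^ 3 * A.card / n := (one_le_div hn).2 h
    have h5 : (16 : ℝ) ≤ K ^ 3 := le_trans (by norm_num) (pow_le_pow_left₀ (by norm_num) hK 3)
    calc (S'.card : ℝ) * (O.card * k) ≤ S'.card * (2 * S'.card * (2 * K ^ 324)) := by gcongr
      _ = 16 * 1 * (K ^ 324 * S'.card ^ 2 / 4) := by ring
      _ ≤ K ^ 3 * (K ^ 3 * A.card / n) * (K ^ 324 * S'.card ^ 2 / 4) := by gcongr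
      _ = _ := by field_simp

end Pool.Agent.Tri.Cover
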