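import Pool.Agent.Lib.MP_9721b5_an.Tri.Cover2
import Pool.Agent.Lib.MP_9721b5_an.Tri.Cover3
import Pool.Agent.Lib.MP_9721b5_an.Tri.Stmts

/-!
The cover lemma.
-/

set_option autoImplicit false

open Finset ComplexConjugate Real

namespace Pool.Agent.Tri

namespace Cover

lemma stage4 {G Z : Type} [AddCommGroup G] [Fintype Z] [Nonempty Z] (a : G → Z → T)
    (A S : Finset G) {δ K : ℝ} (h0 : 0 ≤ δ) (hδ : δ ≤ 1 / 10 ^ 6) (hK : 7 ≤ K)
    (ha : ∀ y ∈ A, ∀ t ∈ S, ‖a (y + t) - a y‖ ≤ δ)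
    (hc : Covd (fun v => ∃ y y' t t' : Fin 6 → G, (∀ i, y i ∈ A ∧ y' i ∈ A ∧ t i ∈ S ∧ t' i ∈ S) ∧
        ∑ i, (y i + t i) = ∑ i, (y' i + t' i) ∧ v = ∑ i, a (y i) - ∑ i, a (y' i))
        (K ^ 330) (1154 * δ)) :
    ∃ A' ⊆ A, (A.card : ℝ) ≤ K ^ 66203 * A'.card ∧
      ∀ y y' t t' : Fin 6 → G, (∀ i, y i ∈ A' ∧ y' i ∈ A' ∧ t i ∈ S ∧ t' i ∈ S) →
        ∑ i, (y i + t i) = ∑ i, (y' i + t' i) →
        (Fintype.card Z : ℝ) / 2 ≤
          ∑ z, (e (∑ i, a (y i + t i) z - ∑ i, a (y' i + t' i) z)).re := by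
  classical
  obtain ⟨c, hc⟩ := hc
  obtain ⟨L, hL⟩ : ∃ L, L = (range ⌈K ^ 330⌉₊).filter fun l =>
    (Fintype.card Z : ℝ) ≤ 32 * cnt univ fun z => 1 / 20 < ‖c l z‖ := ⟨_, rfl⟩
  obtain ⟨A', h1, h2, h3⟩ := hit a c _ L A rfl fun l hl => by
    rw [hL] at hl
    exact (mem_filter.1 hl).2
  refine ⟨A', h1, h2.trans (mul_le_mul_of_nonneg_right ?_ (Nat.cast_nonneg _)),
    fun y y' t t' hy hs => ?_⟩
  · have k1 : (L.card : ℝ) ≤ K ^ 331 := by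
      have h4 : L.card ≤ ⌈K ^ 330⌉₊ := by
        rw [hL]
        exact (card_filter_le _ _).trans (card_range _).le
      have h5 := Nat.ceil_lt_add_one (a := K ^ 330) (by positivity)
      have h6 : 1 ≤ K ^ 330 := one_le_pow₀ (by linarith)
      have h7 : (L.card : ℝ) ≤ ⌈K ^ 330⌉₊ := Nat.cast_le.2 h4
      rw [pow_succ K 330]
      generalize K ^ 330 = x at h5 h6 h7
      nlinarith
    have k2 : (L.card : ℝ) ^ 200 ≤ (K ^ 331) ^ 200 := pow_le_pow_left₀ (Nat.cast_nonneg _) k1 _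
    have k3 : 1 ≤ (K ^ 331) ^ 200 := one_le_pow₀ (one_le_pow₀ (by linarith))
    have k4 : (7 : ℝ) ^ 3 ≤ K ^ 3 := pow_le_pow_left₀ (by norm_num) hK _
    rw [show 66203 = 331 * 200 + 3 from rfl, pow_add, pow_mul]
    generalize (K ^ 331) ^ 200 = x at k2 k3
    generalize (L.card : ℝ) ^ 200 = u at k2
    generalize K ^ 3 = w at k4
    nlinarith
  obtain ⟨l, l1, l2⟩ := hc _ ⟨y, y', t, t', fun i =>
    ⟨h1 (hy i).1, h1 (hy i).2.1, (hy i).2.2⟩, hs, rfl⟩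
  by_cases hl : l ∈ L
  · obtain ⟨z, z1, z2⟩ := h3 l hl
    have z3 := (norm_le_pi_norm _ z).trans l2
    have z4 : ‖(∑ i, a (y i) - ∑ i, a (y' i)) z‖ ≤ 6 * (1 / 200) := by
      rw [← sum_sub_distrib, Finset.sum_apply]
      refine (norm_sum_le _ _).trans ((sum_le_sum fun i _ => z2 _ (hy i).1 _ (hy i).2.1).trans ?_)
      simp
    have z5 := norm_sub_le_of_le z4 z3
    rw [Pi.sub_apply _ (c l), sub_sub_cancel] at z5
    linarith
  refine biased (c l) _ (fun z => ?_) (not_le.1 fun h => hl ?_)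
  · have z1 : ∀ (x s : Fin 6 → G), (∀ i, x i ∈ A ∧ s i ∈ S) →
        ‖∑ i, a (x i + s i) - ∑ i, a (x i)‖ ≤ 6 * δ := fun x s hx => by
      rw [← sum_sub_distrib]
      refine (norm_sum_le _ _).trans ((sum_le_sum fun i _ => ha _ (hx i).1 _ (hx i).2).trans ?_)
      simp
    have z2 := (norm_le_pi_norm _ z).trans (norm_add_le_of_le (norm_sub_le_of_le
      (z1 y t fun i => ⟨h1 (hy i).1, (hy i).2.2.1⟩)
      (z1 y' t' fun i => ⟨h1 (hy i).2.1, (hy i).2.2.2⟩)) l2)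
    simp only [Pi.add_apply, Pi.sub_apply, Finset.sum_apply] at z2
    exact (nle z2 (by abel) rfl).trans (by linarith)
  · rw [hL]
    exact mem_filter.2 ⟨mem_range.2 (Nat.lt_ceil.2 l1), h⟩

end Cover

open Cover in
theorem cover : CoverStmt := by
  refine ⟨18, fun p hp G _ _ Z _ _ a A S S' δ hδ h hS' ⟨O, hO, hO'⟩ ha => ?_⟩
  have hn := card_pos' G
  have hK : 7 ≤ exp p := by
    have h1 := exp_one_gt_d9
    have h2 : exp 1 * exp 1 ≤ exp p := by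
      rw [← exp_add]
      exact exp_le_exp.2 (by linarith)
    nlinarith
  have h0 : 0 ≤ δ := by
    obtain ⟨q, -, -, hq⟩ := (cnt_pos_iff _ _).1 (lt_of_lt_of_le (by positivity) h)
    exact (norm_nonneg _).trans (hq (Classical.arbitrary Z))
  obtain ⟨A1, a1, a2, a3⟩ := stage1 a A (δ := δ) hK (by
    rw [exp_neg, inv_mul_le_iff₀ (exp_pos p)] at h
    exact h.trans (mul_le_mul_of_nonneg_left (cnt_mono fun q _ hq =>
      ⟨hq.1, (pi_norm_le_iff_of_nonneg h0).2 hq.2⟩) (exp_pos p).le))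
  obtain ⟨A2, b1, b2, b3⟩ := stage2 a A1 hK a2 a3
  obtain ⟨A3, c1, c2, c3⟩ := stage3 a A2 S S' O hK b2 hS' hO hO' (fun y hy b hb b' hb' =>
    (pi_norm_le_iff_of_nonneg h0).2 fun z => (ha y (a1 (b1 hy)) z).2 b hb b' hb') b3
  obtain ⟨A4, d1, d2, d3⟩ := stage4 a A3 S h0 hδ hK (fun y hy t ht =>
    (pi_norm_le_iff_of_nonneg h0).2 fun z => (ha y (a1 (b1 (c1 hy))) z).1 t ht) c3
  refine ⟨A4, d1.trans (c1.trans (b1.trans a1)), ?_, d3⟩
  rw [exp_neg, inv_mul_le_iff₀ (exp_pos _)]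
  refine c2.trans ((mul_le_mul_of_nonneg_left d2 (by positivity)).trans ?_)
  rw [← mul_assoc, ← pow_add, ← exp_nat_mul]
  refine mul_le_mul_of_nonneg_right (exp_le_exp.2 ?_) (Nat.cast_nonneg _)
  have h1 : (2 : ℝ) ^ 17 ≤ p ^ 17 := pow_le_pow_left₀ (by norm_num) hp _
  rw [pow_succ p 17]
  refine mul_le_mul_of_nonneg_right (le_trans ?_ h1) (by linarith)
  norm_num

end Pool.Agent.Tri
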