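import Pool.Agent.Lib.MP_9721b5_an.Tri.Basic

/-!
Covering lemma, counting helpers, hitting sets.
-/

set_option autoImplicit false

open Finset ComplexConjugate

namespace Pool.Agent.Tri.Cover

variable {H : Type} [SeminormedAddCommGroup H] {α β : Type}

/-- `V` is covered by balls of radius `ε` with labels `< K` -/
def Covd (V : H → Prop) (K ε : ℝ) : Prop :=
  ∃ c : ℕ → H, ∀ v, V v → ∃ l : ℕ, (l : ℝ) < K ∧ ‖v - c l‖ ≤ ε

lemma Covd.mono {V : H → Prop} {K K' ε : ℝ} (h : Covd V K ε) (hK : K ≤ K') : Covd V K' ε :=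
  let ⟨c, hc⟩ := h
  ⟨c, fun v hv => let ⟨l, h1, h2⟩ := hc v hv; ⟨l, h1.trans_le hK, h2⟩⟩

lemma covd (V : H → Prop) (Ω : Finset α) (φ : α → H) {m K ε : ℝ} (hm : 0 < m)
    (h : ∀ v, V v → m ≤ cnt Ω fun ω => ‖φ ω - v‖ ≤ ε) (hK : (Ω.card : ℝ) ≤ K * m) :
    Covd V K (2 * ε) := by
  classical
  let Sep : Finset H → Prop := fun F => (∀ v ∈ F, V v) ∧ ∀ v ∈ F, ∀ w ∈ F, v ≠ w → 2 * ε < ‖v - w‖
  have bound : ∀ F, Sep F → (F.card : ℝ) ≤ K := by
    intro F hF
    have h1 : ∑ v ∈ F, (Ω.filter fun ω => ‖φ ω - v‖ ≤ ε).card ≤ Ω.card := by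
      rw [← card_biUnion]
      · exact card_le_card (biUnion_subset.2 fun _ _ => filter_subset _ _)
      · intro v hv w hw hne
        refine disjoint_left.2 fun ω h1 h2 => (hF.2 v hv w hw hne).not_ge ?_
        have := norm_sub_le_norm_sub_add_norm_sub v (φ ω) w
        rw [norm_sub_rev v (φ ω)] at this
        linarith [(mem_filter.1 h1).2, (mem_filter.1 h2).2]
    have h2 : (F.card : ℝ) * m ≤ Ω.card := by
      rw [← nsmul_eq_mul, ← sum_const]
      refine (sum_le_sum fun v hv => (h v (hF.1 v hv)).trans (cnt_eq_card _ _).le).trans ?_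
      exact_mod_cast h1
    exact le_of_mul_le_mul_right (h2.trans hK) hm
  obtain ⟨F, hF, hmax⟩ : ∃ F, Sep F ∧ ∀ F', Sep F' → F'.card ≤ F.card := by
    have hb : BddAbove {k | ∃ F, Sep F ∧ F.card = k} :=
      ⟨⌊K⌋₊, by rintro _ ⟨F, hF, rfl⟩; exact Nat.le_floor (bound F hF)⟩
    obtain ⟨F, h1, h2⟩ := Nat.sSup_mem (s := {k | ∃ F, Sep F ∧ F.card = k})
      ⟨0, ∅, ⟨by simp, by simp⟩, rfl⟩ hb
    exact ⟨F, h1, fun F' h' => h2 ▸ le_csSup hb ⟨F', h', rfl⟩⟩
  refine ⟨fun l => if h : l < F.card then (F.equivFin.symm ⟨l, h⟩ : H) else 0, fun v hv => ?_⟩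
  obtain ⟨w, hw, h1⟩ : ∃ w ∈ F, ‖v - w‖ ≤ 2 * ε := by
    by_contra hno
    push Not at hno
    have h0 : 0 ≤ ε := by
      obtain ⟨ω, -, h1⟩ := (cnt_pos_iff _ _).1 (hm.trans_le (h v hv))
      exact (norm_nonneg _).trans h1
    have hvF : v ∉ F := fun h' => by
      have := hno v h'
      rw [sub_self, norm_zero] at this
      linarith
    have := hmax (insert v F) ⟨by simpa [hv] using hF.1, by
      intro x hx y hy hne
      rcases mem_insert.1 hx with rfl | hx' <;> rcases mem_insert.1 hy with rfl | hy'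
      · exact absurd rfl hne
      · exact hno y hy'
      · rw [norm_sub_rev]
        exact hno x hx'
      · exact hF.2 x hx' y hy' hne⟩
    rw [card_insert_of_notMem hvF] at this
    omega
  refine ⟨F.equivFin ⟨w, hw⟩, lt_of_lt_of_le (by exact_mod_cast (F.equivFin ⟨w, hw⟩).2)
    (bound F hF), ?_⟩
  simpa using h1

lemma cnt_prod_and (S : Finset α) (S' : Finset β) (P : α → Prop) (Q : β → Prop) :
    cnt (S ×ˢ S') (fun x => P x.1 ∧ Q x.2) = cnt S P * cnt S' Q := by
  classical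
  simp only [cnt_eq_card]
  rw [filter_product, card_product, Nat.cast_mul]

lemma cnt_true (S : Finset α) : cnt S (fun _ => True) = S.card := by
  classical
  simp [cnt_eq_card]

lemma sum_cnt_comm (S : Finset α) (S' : Finset β) (P : α → β → Prop) :
    ∑ x ∈ S, cnt S' (P x) = ∑ y ∈ S', cnt S (fun x => P x y) := by
  simp only [cnt_eq_sum]
  exact sum_comm

lemma cnt_filter (S : Finset α) (P Q : α → Prop) [DecidablePred P] :
    cnt (S.filter P) Q = cnt S fun x => P x ∧ Q x := by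
  classical
  simp only [cnt_eq_card, filter_filter]

/-- fibres of bounded size -/
lemma cnt_le_mul {S : Finset α} {S' : Finset β} {P : α → Prop} {Q : β → Prop} (f : α → β) {m : ℝ}
    (hf : ∀ x ∈ S, P x → f x ∈ S' ∧ Q (f x))
    (hm : ∀ y, cnt S (fun x => P x ∧ f x = y) ≤ m) : cnt S P ≤ m * cnt S' Q := by
  classical
  calc cnt S P ≤ cnt S fun x => ∃ y ∈ S'.filter Q, P x ∧ f x = y :=
        cnt_mono fun x hx h => ⟨f x, mem_filter.2 (hf x hx h), h, rfl⟩
    _ ≤ ∑ y ∈ S'.filter Q, cnt S fun x => P x ∧ f x = y := cnt_exists_le _ _ _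
    _ ≤ ∑ _y ∈ S'.filter Q, m := sum_le_sum fun y _ => hm y
    _ = m * cnt S' Q := by rw [sum_const, nsmul_eq_mul, cnt_eq_card, mul_comm]

/-- a popular fibre -/
lemma exists_fibre (S : Finset α) (f : α → ℕ) {k : ℕ} (hk : 0 < k) (hf : ∀ x, f x < k) :
    ∃ S' ⊆ S, (S.card : ℝ) ≤ k * S'.card ∧ ∀ x ∈ S', ∀ y ∈ S', f x = f y := by
  classical
  obtain ⟨l, -, hl⟩ := exists_max_image (range k) (fun l => (S.filter fun x => f x = l).card)
    (nonempty_range_iff.2 hk.ne')
  refine ⟨S.filter fun x => f x = l, filter_subset _ _, ?_,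
    fun x hx y hy => (mem_filter.1 hx).2.trans (mem_filter.1 hy).2.symm⟩
  have := card_le_mul_card_image_of_maps_to (f := f) (s := S) (t := range k)
    (fun x _ => mem_range.2 (hf x)) _ hl
  rw [card_range, mul_comm] at this
  exact_mod_cast this

/-- greedy hitting set combined with pigeonhole -/
lemma hit {G Z : Type} [Fintype Z] [Nonempty Z] (a : G → Z → T) (c : ℕ → Z → T) (m : ℕ) :
    ∀ (L : Finset ℕ) (A : Finset G), L.card = m →
      (∀ l ∈ L, (Fintype.card Z : ℝ) ≤ 32 * cnt univ fun z => 1 / 20 < ‖c l z‖) →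
      ∃ A' ⊆ A, (A.card : ℝ) ≤ (1 + 200 * (m : ℝ) ^ 200) * A'.card ∧
        ∀ l ∈ L, ∃ z, 1 / 20 < ‖c l z‖ ∧ ∀ y ∈ A', ∀ y' ∈ A', ‖a y z - a y' z‖ ≤ 1 / 200 := by
  classical
  induction m using Nat.strong_induction_on with
  | _ m ih =>
    intro L A hm hL
    rcases Nat.eq_zero_or_pos m with rfl | h0
    · exact ⟨A, subset_rfl, by simp, by simp [card_eq_zero.1 hm]⟩
    obtain ⟨z, hz⟩ : ∃ z, (m : ℝ) ≤ 32 * cnt L fun l => 1 / 20 < ‖c l z‖ := by
      obtain ⟨z, -, hz⟩ := exists_le_of_sum_le (s := (univ : Finset Z)) univ_nonempty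
        (f := fun _ => (m : ℝ)) (g := fun z => 32 * cnt L fun l => 1 / 20 < ‖c l z‖) (by
          rw [← mul_sum, ← sum_cnt_comm, mul_sum, sum_const, card_univ, nsmul_eq_mul, ← hm,
            mul_comm, ← nsmul_eq_mul, ← sum_const]
          exact sum_le_sum hL)
      exact ⟨z, hz⟩
    obtain ⟨arc, a1, a2, -⟩ := exists_arc (m := 200) (by norm_num)
    obtain ⟨A1, b1, b2, b3⟩ := exists_fibre A (fun y => arc (a y z)) (by norm_num) fun _ => a1 _
    have h1 := cnt_add_not L fun l => 1 / 20 < ‖c l z‖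
    rw [hm, cnt_eq_card L fun l => ¬ 1 / 20 < ‖c l z‖] at h1
    set L' := L.filter fun l => ¬ 1 / 20 < ‖c l z‖
    have h0' : (0 : ℝ) < m := by exact_mod_cast h0
    have h2 : 32 * (L'.card : ℝ) ≤ 31 * m := by linarith
    obtain ⟨A', c1, c2, c3⟩ := ih L'.card (by
      have : (L'.card : ℝ) < m := by linarith
      exact_mod_cast this) L' A1 rfl fun l hl => hL l (mem_filter.1 hl).1
    refine ⟨A', c1.trans b1, ?_, fun l hl => ?_⟩
    · have h3 : 200 * (1 + 200 * (L'.card : ℝ) ^ 200) ≤ 1 + 200 * (m : ℝ) ^ 200 := by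
        have h4 : (32 * (L'.card : ℝ)) ^ 200 ≤ (31 * m) ^ 200 := by gcongr
        rw [mul_pow, mul_pow] at h4
        have h5 : (1 : ℝ) ≤ (m : ℝ) ^ 200 := one_le_pow₀ (by exact_mod_cast h0)
        have h6 : (400 : ℝ) * 31 ^ 200 ≤ 32 ^ 200 := by norm_num
        have h7 : (0 : ℝ) ≤ (L'.card : ℝ) ^ 200 := pow_nonneg (Nat.cast_nonneg _) _
        have h8 : 400 * (L'.card : ℝ) ^ 200 ≤ (m : ℝ) ^ 200 := by
          have h9 : (0 : ℝ) < 31 ^ 200 := by positivity
          refine le_of_mul_le_mul_left ?_ h9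
          calc _ = 400 * 31 ^ 200 * (L'.card : ℝ) ^ 200 := by ring
            _ ≤ 32 ^ 200 * (L'.card : ℝ) ^ 200 := mul_le_mul_of_nonneg_right h6 h7
            _ ≤ _ := h4
        rcases Nat.eq_zero_or_pos L'.card with h | h
        · rw [h]
          norm_num
          linarith
        · have : (1 : ℝ) ≤ (L'.card : ℝ) ^ 200 := one_le_pow₀ (by exact_mod_cast h)
          linarith
      calc (A.card : ℝ) ≤ 200 * A1.card := by exact_mod_cast b2
        _ ≤ 200 * ((1 + 200 * (L'.card : ℝ) ^ 200) * A'.card) := by gcongr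
        _ ≤ _ := by rw [← mul_assoc]; gcongr
    · by_cases h : 1 / 20 < ‖c l z‖
      · exact ⟨z, h, fun y hy y' hy' => by simpa using a2 _ _ (b3 y (c1 hy) y' (c1 hy'))⟩
      · exact c3 l (mem_filter.2 ⟨hl, h⟩)

/-- a function close to a mostly small function has a biased phase -/
lemma biased {Z : Type} [Fintype Z] (c h : Z → T) (hc : ∀ z, ‖h z - c z‖ ≤ 1 / 500)
    (hs : 32 * (cnt univ fun z => 1 / 20 < ‖c z‖) < Fintype.card Z) :
    (Fintype.card Z : ℝ) / 2 ≤ ∑ z, (e (h z)).re := by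
  classical
  have key : ∀ z, 3 / 5 - 2 * (if 1 / 20 < ‖c z‖ then (1 : ℝ) else 0) ≤ (e (h z)).re := by
    intro z
    split_ifs with h1
    · have := (abs_le.1 ((Complex.abs_re_le_norm (e (h z))).trans (norm_e _).le)).1
      linarith
    · have h2 := (abs_le.1 ((Complex.abs_re_le_norm (e (h z) - 1)).trans (norm_e_sub_one_le _))).1
      have h3 := norm_le_norm_add_norm_sub' (h z) (c z)
      simp only [Complex.sub_re, Complex.one_re] at h2
      linarith [hc z]
  have := sum_le_sum fun z (_ : z ∈ (univ : Finset Z)) => key z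
  rw [sum_sub_distrib, ← mul_sum, ← cnt_eq_sum, sum_const, card_univ, nsmul_eq_mul] at this
  linarith

end Pool.Agent.Tri.Cover
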