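import Pool.Agent.Lib.MP_9721b5_an.Tri.Cover1

/-!
Approximate Balog-Szemerédi-Gowers and Ruzsa type arguments for graphs.
-/

set_option autoImplicit false

open Finset ComplexConjugate

namespace Pool.Agent.Tri.Cover

variable {G H : Type} [AddCommGroup G] [Fintype G] [SeminormedAddCommGroup H]

lemma card_pos' (G : Type) [AddCommGroup G] [Fintype G] : (0 : ℝ) < Fintype.card G := by
  exact_mod_cast Fintype.card_pos

lemma cnt_univ_true (G : Type) [Fintype G] : cnt (univ : Finset G) (fun _ => True) = Fintype.card G :=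
  cnt_true _

lemma nle {x y : H} {a b : ℝ} (h : ‖x‖ ≤ a) (e : y = x) (f : a = b) : ‖y‖ ≤ b := e ▸ f ▸ h

lemma stage1 (a : G → H) (A : Finset G) {δ K : ℝ} (hK : 7 ≤ K)
    (h : (Fintype.card G : ℝ) ^ 3 ≤ K * cnt (A ×ˢ A ×ˢ A ×ˢ A) fun q =>
      q.1 - q.2.1 = q.2.2.1 - q.2.2.2 ∧ ‖a q.1 - a q.2.1 - a q.2.2.1 + a q.2.2.2‖ ≤ δ) :
    ∃ A1 ⊆ A, (Fintype.card G : ℝ) ≤ K ^ 2 * A1.card ∧ ∀ r,
      Covd (fun v => ∃ y ∈ A1, ∃ y' ∈ A1, y - y' = r ∧ v = a y - a y') (K ^ 10) (8 * δ) := by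
  classical
  have hn := card_pos' G
  obtain ⟨n, hn'⟩ : ∃ n : ℝ, n = Fintype.card G := ⟨_, rfl⟩
  rw [← hn'] at h hn ⊢
  have hK0 : 0 < K := by linarith
  let In : G × G → G → Prop := fun w x => ‖a x - a (x - (w.1 - w.2)) - a w.1 + a w.2‖ ≤ δ
  let Rel : G → G → G → Prop := fun x y d => ‖a x - a y - a (x - d) + a (y - d)‖ ≤ 2 * δ
  let bad : G → G → Prop := fun x y => cnt univ (Rel x y) < n / (32 * K ^ 2)
  have h1 : n ^ 3 ≤ K * ∑ w, cnt A (In w) := by
    refine h.trans (mul_le_mul_of_nonneg_left ?_ hK0.le)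
    rw [← cnt_product univ A fun t => In t.1 t.2]
    refine cnt_le_of_inj (fun q => (q.2.2, q.1)) (fun q hq ⟨h1, h2⟩ => ⟨?_, ?_⟩) ?_
    · simp only [mem_product, mem_univ, true_and] at hq ⊢
      exact hq.1
    · simp only [In]
      rwa [← h1, sub_sub_cancel]
    · rintro ⟨q1, q2, q3⟩ - ⟨p1, p2, p3⟩ - ⟨h1, -⟩ ⟨h2, -⟩ h3
      simp only [Prod.mk.injEq] at h1 h2 h3 ⊢
      obtain ⟨rfl, rfl⟩ := h3
      exact ⟨rfl, sub_right_injective (h1.trans h2.symm), rfl⟩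
  have h2 : ∀ x y, cnt univ (fun w => In w x ∧ In w y) ≤ n * cnt univ (Rel x y) := by
    intro x y
    refine cnt_le_mul (fun w => w.1 - w.2) (fun w _ ⟨h1, h2⟩ => ⟨mem_univ _, ?_⟩) fun d => ?_
    · exact nle (norm_sub_le_of_le h1 h2) (by abel) (by ring)
    · rw [hn', ← cnt_univ_true]
      refine cnt_le_of_inj Prod.fst (fun _ _ _ => ⟨mem_univ _, trivial⟩) ?_
      rintro ⟨u, u'⟩ - ⟨w, w'⟩ - ⟨-, h1⟩ ⟨-, h2⟩ rfl
      exact Prod.ext rfl (sub_right_injective (h1.trans h2.symm))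
  have h3 : ∑ w, cnt (A ×ˢ A) (fun t => In w t.1 ∧ In w t.2 ∧ bad t.1 t.2) ≤
      n ^ 2 * (n * (n / (32 * K ^ 2))) := by
    rw [sum_cnt_comm]
    have hA : (A.card : ℝ) ≤ n := hn' ▸ Nat.cast_le.2 (card_le_univ A)
    calc _ ≤ ∑ _t ∈ A ×ˢ A, n * (n / (32 * K ^ 2)) := sum_le_sum fun t _ => ?_
      _ = A.card * A.card * (n * (n / (32 * K ^ 2))) := by
        rw [sum_const, card_product, nsmul_eq_mul, Nat.cast_mul]
      _ ≤ _ := by
        rw [sq n]
        gcongr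
    by_cases hb : bad t.1 t.2
    · exact (cnt_mono fun w _ h => ⟨h.1, h.2.1⟩).trans ((h2 _ _).trans
        (mul_le_mul_of_nonneg_left hb.le hn.le))
    · refine (not_lt.1 fun h => ?_).trans (by positivity : (0 : ℝ) ≤ _)
      obtain ⟨w, -, hw⟩ := (cnt_pos_iff _ _).1 h
      exact hb hw.2.2
  obtain ⟨w, -, hw⟩ := exists_le_of_sum_le (s := (univ : Finset (G × G))) univ_nonempty
    (f := fun w => n ^ 2 / (2 * K ^ 2) +
      16 * cnt (A ×ˢ A) fun t => In w t.1 ∧ In w t.2 ∧ bad t.1 t.2)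
    (g := fun w => cnt A (In w) ^ 2) (by
      have h4 := sq_sum_le_card_mul_sum_sq (s := (univ : Finset (G × G))) (f := fun w => cnt A (In w))
      rw [sum_add_distrib, ← mul_sum, sum_const, nsmul_eq_mul]
      rw [card_univ, Fintype.card_prod, Nat.cast_mul, ← hn'] at h4 ⊢
      have h5 : (n ^ 3 / K) ^ 2 ≤ (∑ w, cnt A (In w)) ^ 2 := by
        gcongr
        rwa [div_le_iff₀' hK0]
      refine le_of_mul_le_mul_left ?_ (mul_pos hn hn)
      calc _ ≤ n * n * (n * n * (n ^ 2 / (2 * K ^ 2)) + 16 * (n ^ 2 * (n * (n / (32 * K ^ 2))))) := by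
            gcongr
        _ = (n ^ 3 / K) ^ 2 := by
            field_simp
            ring
        _ ≤ _ := h5.trans h4)
  obtain ⟨X, hX⟩ : ∃ X, X = A.filter (In w) := ⟨_, rfl⟩
  have h4 : cnt (A ×ˢ A) (fun t => In w t.1 ∧ In w t.2 ∧ bad t.1 t.2) = ∑ y ∈ X, cnt X (bad y) := by
    rw [← cnt_product X X fun t => bad t.1 t.2, hX, ← filter_product, cnt_filter]
    exact cnt_congr fun _ _ => and_assoc.symm
  rw [h4, cnt_eq_card, ← hX] at hw
  have h5 : 0 ≤ ∑ y ∈ X, cnt X (bad y) := sum_nonneg fun _ _ => cnt_nonneg _ _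
  have h6 : n / (2 * K) ≤ X.card := by
    refine le_of_sq_le_sq ?_ (Nat.cast_nonneg _)
    have : (n / (2 * K)) ^ 2 ≤ n ^ 2 / (2 * K ^ 2) := by
      rw [div_pow]
      gcongr
      nlinarith
    linarith
  have h7 : (0 : ℝ) < X.card := lt_of_lt_of_le (by positivity) h6
  have h8 := cnt_markov X (fun y => cnt X (bad y)) (fun _ _ => cnt_nonneg _ _) (a := X.card / 4)
    (by positivity)
  have h9 := cnt_add_not X fun y => (X.card : ℝ) / 4 ≤ cnt X (bad y)
  have h10 : (∑ y ∈ X, cnt X (bad y)) / (X.card / 4) ≤ X.card / 4 := by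
    rw [div_le_iff₀ (by positivity)]
    have : 0 ≤ n ^ 2 / (2 * K ^ 2) := by positivity
    nlinarith
  refine ⟨X.filter fun y => ¬ (X.card : ℝ) / 4 ≤ cnt X (bad y),
    (filter_subset _ _).trans (hX ▸ filter_subset _ _), ?_, fun r => ?_⟩
  · rw [← cnt_eq_card]
    rw [div_le_iff₀ (by positivity)] at h6
    have h11 : (X.card : ℝ) / 2 ≤ cnt X fun y => ¬ (X.card : ℝ) / 4 ≤ cnt X (bad y) := by linarith
    calc n ≤ (4 * K) * (X.card / 2) := by linarith
      _ ≤ _ := by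
        gcongr
        nlinarith
  rw [show 8 * δ = 2 * (4 * δ) by ring]
  refine covd _ (univ : Finset (G × G × G))
    (fun t => a t.1 - a t.2.1 - a (t.2.2 + (t.1 - t.2.1) - r) + a t.2.2) (m := n ^ 3 / K ^ 10)
    (by positivity) ?_ (by
      rw [card_univ, Fintype.card_prod, Fintype.card_prod, Nat.cast_mul, Nat.cast_mul, ← hn']
      exact le_of_eq (by field_simp))
  rintro _ ⟨y, hy, y', hy', rfl, rfl⟩
  have g1 : (X.card : ℝ) / 2 ≤ cnt X fun x => ¬ (bad y x ∨ bad y' x) := by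
    have := cnt_add_not X fun x => bad y x ∨ bad y' x
    have := cnt_or_le X (bad y) (bad y')
    linarith [not_le.1 (mem_filter.1 hy).2, not_le.1 (mem_filter.1 hy').2]
  calc n ^ 3 / K ^ 10 ≤ n / (2 * K) / 2 * (n / (32 * K ^ 2) * (n / (32 * K ^ 2))) := by
        rw [show n / (2 * K) / 2 * (n / (32 * K ^ 2) * (n / (32 * K ^ 2))) = n ^ 3 / (4096 * K ^ 5) by
          field_simp
          ring, show K ^ 10 = K ^ 5 * K ^ 5 by ring]
        gcongr
        calc (4096 : ℝ) ≤ 7 ^ 5 := by norm_num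
          _ ≤ _ := by gcongr
    _ ≤ cnt X (fun x => ¬ (bad y x ∨ bad y' x)) * (n / (32 * K ^ 2) * (n / (32 * K ^ 2))) :=
        mul_le_mul_of_nonneg_right (by linarith) (by positivity)
    _ ≤ ∑ x ∈ X, cnt (univ ×ˢ univ) fun t : G × G => Rel y x t.1 ∧ Rel y' x t.2 := by
        rw [cnt_eq_sum X, sum_mul]
        refine sum_le_sum fun x _ => ?_
        by_cases hx : bad y x ∨ bad y' x
        · rw [if_neg (not_not.2 hx), zero_mul]
          exact cnt_nonneg _ _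
        · rw [if_pos hx, one_mul, cnt_prod_and univ univ (Rel y x) (Rel y' x)]
          exact mul_le_mul (not_lt.1 fun h => hx (Or.inl h)) (not_lt.1 fun h => hx (Or.inr h))
            (by positivity) (cnt_nonneg _ _)
    _ = cnt (X ×ˢ univ ×ˢ univ) fun t : G × G × G => Rel y t.1 t.2.1 ∧ Rel y' t.1 t.2.2 :=
        (cnt_product X (univ ×ˢ univ)
          fun t : G × G × G => Rel y t.1 t.2.1 ∧ Rel y' t.1 t.2.2).symm
    _ ≤ _ := by
        refine cnt_le_of_inj (fun t => (y - t.2.1, t.1 - t.2.1, t.1 - t.2.2))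
          (fun t _ ⟨h1, h2⟩ => ⟨mem_univ _, ?_⟩) ?_
        · have := norm_sub_le_of_le h2 h1
          simp only
          rw [show t.1 - t.2.2 + (y - t.2.1 - (t.1 - t.2.1)) - (y - y') = y' - t.2.2 by abel]
          exact nle this (by abel) (by ring)
        · rintro ⟨x, d, d'⟩ - ⟨z, f, f'⟩ - - - h
          simp only [Prod.mk.injEq, sub_right_inj] at h ⊢
          obtain ⟨rfl, h1, h2⟩ := h
          obtain rfl := sub_left_injective h1
          exact ⟨rfl, rfl, sub_right_injective h2⟩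

/-- cyclic re-pairing -/
lemma repair (a : G → H) (A : Finset G) (cen : G → ℕ → H) (lab : G → G → ℕ) {k m : ℕ} {ε η μ : ℝ}
    (hμ : 0 ≤ μ) (hl : ∀ y ∈ A, ∀ y' ∈ A, lab y y' < k ∧ ‖a y - a y' - cen (y - y') (lab y y')‖ ≤ η)
    (B : Fin (m + 1) → Finset (G × G)) (s : Fin (m + 1) → G) (u : Fin (m + 1) → H)
    (hB : ∀ j, μ ≤ (B j).card ∧ ∀ p ∈ B j, p.1 ∈ A ∧ p.2 ∈ A ∧ p.1 - p.2 = s j ∧
      ‖a p.1 - a p.2 - u j‖ ≤ ε) :
    μ ^ (m + 1) ≤ Fintype.card G *
      cnt ((univ : Finset (Fin m → G)) ×ˢ Fintype.piFinset fun _ : Fin (m + 1) => range k)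
        fun ω => ‖∑ j, cen ((Fin.snoc ω.1 (∑ j, s j - ∑ j, ω.1 j) : Fin (m + 1) → G) j) (ω.2 j) -
          ∑ j, u j‖ ≤ (m + 1) * (ε + η) := by
  classical
  have h0 : μ ^ (m + 1) ≤ cnt (Fintype.piFinset B) fun _ => True := by
    rw [cnt_true, Fintype.card_piFinset, Nat.cast_prod]
    calc _ = ∏ _j : Fin (m + 1), μ := by simp
      _ ≤ _ := prod_le_prod (fun _ _ => hμ) fun j _ => (hB j).1
  refine h0.trans (cnt_le_mul (fun β => (fun j : Fin m => (β j.castSucc).1 - (β j.succ).2,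
    fun j => lab (β j).1 (β (j + 1)).2)) (fun β hβ _ => ?_) fun ω => ?_)
  · have h1 := fun j => (hB j).2 _ (Fintype.mem_piFinset.1 hβ j)
    have h2 := fun j => hl _ (h1 j).1 _ (h1 (j + 1)).2.1
    refine ⟨mem_product.2 ⟨mem_univ _, Fintype.mem_piFinset.2 fun j => mem_range.2 (h2 j).1⟩, ?_⟩
    have h3 : ∑ j, ((β j).1 - (β (j + 1)).2) = ∑ j, s j := by
      rw [sum_sub_distrib, show ∑ j, (β (j + 1)).2 = ∑ j, (β j).2 from
        Equiv.sum_comp (Equiv.addRight 1) fun j => (β j).2, ← sum_sub_distrib]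
      exact sum_congr rfl fun j _ => (h1 j).2.2.1
    have h4 : ∑ j, (a (β j).1 - a (β (j + 1)).2) = ∑ j, (a (β j).1 - a (β j).2) := by
      rw [sum_sub_distrib, show ∑ j, a (β (j + 1)).2 = ∑ j, a (β j).2 from
        Equiv.sum_comp (Equiv.addRight 1) fun j => a (β j).2, ← sum_sub_distrib]
    have h5 : (Fin.snoc (fun j : Fin m => (β j.castSucc).1 - (β j.succ).2)
        (∑ j, s j - ∑ j : Fin m, ((β j.castSucc).1 - (β j.succ).2)) : Fin (m + 1) → G) =
        fun j => (β j).1 - (β (j + 1)).2 := by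
      funext j
      refine Fin.lastCases ?_ (fun j => ?_) j
      · rw [Fin.snoc_last, ← h3, Fin.sum_univ_castSucc]
        simp only [Fin.coeSucc_eq_succ, add_sub_cancel_left]
      · rw [Fin.snoc_castSucc, Fin.coeSucc_eq_succ]
    simp only
    rw [h5]
    have h6 : ∑ j, cen ((β j).1 - (β (j + 1)).2) (lab (β j).1 (β (j + 1)).2) - ∑ j, u j =
        ∑ j, ((a (β j).1 - a (β j).2 - u j) - (a (β j).1 - a (β (j + 1)).2 -
          cen ((β j).1 - (β (j + 1)).2) (lab (β j).1 (β (j + 1)).2))) := by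
      rw [sum_sub_distrib, sum_sub_distrib _ u, sum_sub_distrib _ fun j => cen _ _, h4]
      abel
    rw [h6]
    refine (norm_sum_le _ _).trans ((sum_le_sum fun j _ =>
      norm_sub_le_of_le (h1 j).2.2.2 (h2 j).2).trans ?_)
    simp [mul_add]
  · rw [← cnt_univ_true]
    refine cnt_le_of_inj (fun β => (β 0).1) (fun _ _ _ => ⟨mem_univ _, trivial⟩) ?_
    rintro β hβ β' hβ' ⟨-, h1⟩ ⟨-, h2⟩ h3
    have h4 := fun j => ((hB j).2 _ (Fintype.mem_piFinset.1 hβ j)).2.2.1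
    have h5 := fun j => ((hB j).2 _ (Fintype.mem_piFinset.1 hβ' j)).2.2.1
    have h6 := congrFun (congrArg Prod.fst (h1.trans h2.symm))
    have h7 : ∀ j, (β j).1 = (β' j).1 := fun j => by
      refine Fin.induction h3 (fun j ih => ?_) j
      have := h6 j
      simp only [ih, sub_right_inj] at this
      exact sub_left_injective (((h4 _).trans (h5 _).symm).trans (by rw [this]))
    funext j
    exact Prod.ext (h7 j) (sub_right_injective
      ((by rw [h7 j] : (β' j).1 - (β j).2 = _).trans ((h4 j).trans (h5 j).symm)))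

lemma stage2 (a : G → H) (A : Finset G) {δ K : ℝ} (hK : 7 ≤ K)
    (h : (Fintype.card G : ℝ) ≤ K ^ 2 * A.card) (hc : ∀ r,
      Covd (fun v => ∃ y ∈ A, ∃ y' ∈ A, y - y' = r ∧ v = a y - a y') (K ^ 10) (8 * δ)) :
    ∃ A2 ⊆ A, (Fintype.card G : ℝ) ≤ K ^ 3 * A2.card ∧ ∀ r,
      Covd (fun v => ∃ y y' : Fin 6 → G, (∀ i, y i ∈ A2 ∧ y' i ∈ A2) ∧ ∑ i, y i - ∑ i, y' i = r ∧
        v = ∑ i, a (y i) - ∑ i, a (y' i)) (K ^ 324) (576 * δ) := by
  classical
  have hn := card_pos' G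
  obtain ⟨n, hn'⟩ : ∃ n : ℝ, n = Fintype.card G := ⟨_, rfl⟩
  rw [← hn'] at h hn ⊢
  have hK0 : 0 < K := by linarith
  choose cen hc using hc
  choose! lab h1 h2 using fun y (hy : y ∈ A) y' (hy' : y' ∈ A) => hc _ _ ⟨y, hy, y', hy', rfl, rfl⟩
  obtain ⟨k, hk⟩ : ∃ k, k = ⌈K ^ 10⌉₊ := ⟨_, rfl⟩
  have k0 : (0 : ℝ) < k := by
    rw [hk]
    exact_mod_cast Nat.ceil_pos.2 (by positivity)
  have k1 : (k : ℝ) ≤ K ^ 11 := by
    have := Nat.ceil_lt_add_one (a := K ^ 10) (by positivity)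
    have h3 : 1 ≤ K ^ 10 := one_le_pow₀ (by linarith)
    rw [hk, pow_succ K 10]
    nlinarith
  have hl : ∀ y ∈ A, ∀ y' ∈ A, lab y y' < k ∧ ‖a y - a y' - cen (y - y') (lab y y')‖ ≤ 8 * δ :=
    fun y hy y' hy' => ⟨hk ▸ Nat.lt_ceil.2 (h1 y hy y' hy'), h2 y hy y' hy'⟩
  have hA : (0 : ℝ) < A.card := pos_of_mul_pos_right (hn.trans_le h) (by positivity)
  obtain ⟨μ, hμ⟩ : ∃ μ : ℝ, μ = A.card ^ 2 / (2 * n * k) := ⟨_, rfl⟩
  have μ0 : 0 ≤ μ := by rw [hμ]; positivity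
  let pop : G → G → Prop := fun y y' =>
    μ ≤ cnt (A ×ˢ A) fun p => (p.1 - p.2, lab p.1 p.2) = (y - y', lab y y')
  have h3 : cnt (A ×ˢ A) (fun p => ¬ pop p.2 p.1) ≤ μ * cnt (univ ×ˢ range k) fun _ : G × ℕ => True := by
    refine cnt_le_mul (fun p => (p.2 - p.1, lab p.2 p.1)) (fun p hp _ => ⟨mem_product.2 ⟨mem_univ _,
      mem_range.2 (hl _ (mem_product.1 hp).2 _ (mem_product.1 hp).1).1⟩, trivial⟩) fun i => ?_
    by_contra h4
    obtain ⟨p, -, h5, rfl⟩ := (cnt_pos_iff _ _).1 (μ0.trans_lt (not_le.1 h4))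
    refine h4 (le_trans ?_ (not_le.1 h5).le)
    exact cnt_le_of_inj Prod.swap (fun q hq h => ⟨by simpa [and_comm] using hq, h.2⟩)
      fun _ _ _ _ _ _ h => Prod.swap_injective h
  rw [cnt_true, card_product, card_univ, card_range, Nat.cast_mul, ← hn', cnt_product] at h3
  obtain ⟨g, hg, h4⟩ := exists_le_of_sum_le (s := A) (card_pos.1 (by exact_mod_cast hA))
    (f := fun g => cnt A fun y => ¬ pop y g) (g := fun _ => (A.card : ℝ) / 2) (h3.trans (le_of_eq (by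
      rw [hμ, sum_const, nsmul_eq_mul]
      field_simp)))
  have h5 := cnt_add_not A fun y => pop y g
  refine ⟨A.filter fun y => pop y g, filter_subset _ _, ?_, fun r => ?_⟩
  · rw [← cnt_eq_card]
    calc n ≤ (2 * K ^ 2) * (A.card / 2) := by linarith
      _ ≤ _ := by
        gcongr
        · nlinarith [sq_nonneg K]
        · linarith
  have h6 : n / K ^ 16 ≤ μ := by
    rw [hμ, div_le_div_iff₀ (by positivity) (by positivity)]
    calc n * (2 * n * k) = 2 * n ^ 2 * k := by ring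
      _ ≤ K * (K ^ 2 * A.card) ^ 2 * K ^ 11 := by
        gcongr
        linarith
      _ = _ := by ring
  rw [show 576 * δ = 2 * (((11 : ℕ) + 1 : ℝ) * (16 * δ + 8 * δ)) by push_cast; ring]
  refine covd _ ((univ : Finset (Fin 11 → G)) ×ˢ Fintype.piFinset fun _ : Fin (11 + 1) => range k)
    (fun ω => ∑ j, cen ((Fin.snoc ω.1 (r - ∑ j, ω.1 j) : Fin (11 + 1) → G) j) (ω.2 j))
    (m := n ^ 11 / K ^ 192) (by positivity) ?_ (by
      rw [card_product, card_univ, Fintype.card_piFinset, Fintype.card_fun, Fintype.card_fin]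
      simp only [card_range, prod_const, card_univ, Fintype.card_fin]
      push_cast
      rw [← hn']
      calc n ^ 11 * (k : ℝ) ^ 12 ≤ n ^ 11 * (K ^ 11) ^ 12 := by gcongr
        _ = _ := by field_simp)
  rintro _ ⟨y, y', hy, rfl, rfl⟩
  have gA : ∀ x ∈ A.filter fun y => pop y g, ∀ p ∈ (A ×ˢ A).filter fun p =>
      (p.1 - p.2, lab p.1 p.2) = (x - g, lab x g), p.1 ∈ A ∧ p.2 ∈ A ∧ p.1 - p.2 = x - g ∧
        ‖a p.1 - a p.2 - (a x - a g)‖ ≤ 16 * δ := by
    intro x hx p hp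
    obtain ⟨p1, p2⟩ := mem_filter.1 hp
    obtain ⟨p3, p4⟩ := mem_product.1 p1
    obtain ⟨p5, p6⟩ := Prod.mk.inj p2
    have := norm_sub_le_of_le (hl _ p3 _ p4).2 (hl _ (mem_filter.1 hx).1 _ hg).2
    rw [p5, p6, sub_sub_sub_cancel_right] at this
    exact ⟨p3, p4, p5, by linarith⟩
  have key := repair a A cen lab (m := 11) (ε := 16 * δ) μ0 hl
    (Fin.append (m := 6) (n := 6)
      (fun i => (A ×ˢ A).filter fun p => (p.1 - p.2, lab p.1 p.2) = (y i - g, lab (y i) g))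
      fun i => ((A ×ˢ A).filter fun p => (p.1 - p.2, lab p.1 p.2) =
        (y' i - g, lab (y' i) g)).map (Equiv.prodComm G G).toEmbedding)
    (Fin.append (m := 6) (n := 6) (fun i => y i - g) fun i => g - y' i)
    (Fin.append (m := 6) (n := 6) (fun i => a (y i) - a g) fun i => a g - a (y' i)) (fun j => by
      refine Fin.addCases (m := 6) (n := 6) (fun i => ?_) (fun i => ?_) j
      · simp only [Fin.append_left]
        exact ⟨(mem_filter.1 (hy i).1).2.trans (cnt_eq_card _ _).le, gA _ (hy i).1⟩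
      · simp only [Fin.append_right, card_map]
        refine ⟨(mem_filter.1 (hy i).2).2.trans (cnt_eq_card _ _).le, fun p hp => ?_⟩
        obtain ⟨q, hq, rfl⟩ := mem_map.1 hp
        obtain ⟨q1, q2, q3, q4⟩ := gA _ (hy i).2 q hq
        refine ⟨q2, q1, by rw [← neg_sub (y' i), ← q3, neg_sub]; rfl, ?_⟩
        rw [← norm_neg] at q4
        exact nle (y := a q.2 - a q.1 - _) q4 (by abel) rfl)
  have s1 : ∑ j : Fin (11 + 1), Fin.append (m := 6) (n := 6) (fun i => y i - g) (fun i => g - y' i) j =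
      ∑ i, y i - ∑ i, y' i := by
    refine (Fin.sum_univ_add (a := 6) (b := 6) _).trans ?_
    simp only [Fin.append_left, Fin.append_right, sum_sub_distrib, sub_add_sub_cancel]
  have s2 : ∑ j : Fin (11 + 1), Fin.append (m := 6) (n := 6) (fun i => a (y i) - a g)
      (fun i => a g - a (y' i)) j = ∑ i, a (y i) - ∑ i, a (y' i) := by
    refine (Fin.sum_univ_add (a := 6) (b := 6) _).trans ?_
    simp only [Fin.append_left, Fin.append_right, sum_sub_distrib, sub_add_sub_cancel]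
  rw [s1, s2, ← hn'] at key
  refine le_of_mul_le_mul_left (le_trans ?_ key) hn
  calc n * (n ^ 11 / K ^ 192) = (n / K ^ 16) ^ (11 + 1) := by
        rw [div_pow]
        field_simp
        ring
    _ ≤ _ := by gcongr

end Pool.Agent.Tri.Cover
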