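import Pool.Agent.Lib.MP_9721b5_an.Tri.End2
import Pool.Agent.Lib.MP_9721b5_an.Tri.Stmts

/-!
The end game of the sparse inverse theorem: local correlation with quadratic phases.
-/

set_option autoImplicit false

open Finset ComplexConjugate Real

namespace Pool.Agent.Tri.End

variable {N : ℕ} [NeZero N] {d : ℕ}

lemma abs_le_of_cube {a : Fin d → ℤ} (ha : a ∈ cube d) (j : Fin d) : |(a j : ℝ)| ≤ 1 := by
  have := Fintype.mem_piFinset.1 ha j
  simp only [mem_insert, mem_singleton] at this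
  rcases this with h | h | h <;> simp [h]

lemma card_cube (d : ℕ) : ((cube d).card : ℝ) ≤ exp (2 * d) := by
  rw [cube, Fintype.card_piFinset, prod_const, card_univ, Fintype.card_fin, mul_comm, exp_nat_mul,
    show ({-1, 0, 1} : Finset ℤ).card = 3 from rfl]
  push_cast
  exact pow_le_pow_left₀ (by norm_num) (by linarith [add_one_le_exp (2 : ℝ)]) d

lemma norm_comb_le (a : Fin d → ℤ) (t : Fin d → T) {c s : ℝ} (ha : ∀ j, |(a j : ℝ)| ≤ c)
    (ht : ∀ j, ‖t j‖ ≤ s) : ‖∑ j, a j • t j‖ ≤ d * (c * s) := by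
  calc _ ≤ ∑ _j : Fin d, c * s := (norm_sum_le _ _).trans (sum_le_sum fun j _ =>
        (norm_zsmul_T _ _).trans (mul_le_mul (ha j) (ht j) (norm_nonneg _)
          ((abs_nonneg _).trans (ha j))))
    _ = _ := by simp

lemma pr_comb (a : Fin d → ℤ) (x : Fin d → ZMod N) (w : ZMod N) :
    pr (∑ j, a j • x j) w = ∑ j, a j • pr (x j) w := by
  simp only [Fourier.pr_sum_left, pr_zsmul_left]

variable {L : Fin d → ZMod N → ZMod N} {Θ : Finset (ZMod N)} {r : ℝ}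

lemma comb_add (hL : ∀ j, AddOn Θ r (L j)) (a : Fin d → ℤ) {u v : ZMod N} (hu : InN Θ r u)
    (hv : InN Θ r v) : comb L a (u + v) = comb L a u + comb L a v := by
  simp only [comb, fun j => hL j u v hu hv, smul_add, sum_add_distrib]

omit [NeZero N] in
lemma comb_sub (a a' : Fin d → ℤ) (v : ZMod N) :
    comb L (a - a') v = comb L a v - comb L a' v := by
  simp only [comb, Pi.sub_apply, sub_smul, sum_sub_distrib]

lemma Qa_approx (hL : ∀ j, AddOn Θ r (L j)) {s : ℝ} (hS : ∀ j, SymOn Θ r s (L j))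
    (h2 : (2 : ZMod N) * 2⁻¹ = 1) {a : Fin d → ℤ} (ha : a ∈ cube d) {v w : ZMod N}
    (hv : InN Θ r (v * 2⁻¹)) (hw : InN Θ r (w * 2⁻¹)) :
    ‖pr (comb L a v) w - (Qa L a (v + w) - Qa L a v - Qa L a w)‖ ≤ 2 * (d * (1 * s)) := by
  have hh : ∀ u : ZMod N, u * 2⁻¹ + u * 2⁻¹ = u := fun u => by linear_combination u * h2
  have h1 := norm_comb_le a _ (abs_le_of_cube ha) fun j => hS j _ _ hv hw
  simp only [smul_sub, sum_sub_distrib, ← pr_comb] at h1
  change ‖pr (comb L a (v * 2⁻¹)) (w * 2⁻¹) - pr (comb L a (w * 2⁻¹)) (v * 2⁻¹)‖ ≤ _ at h1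
  have h3 := comb_add hL a hv hv
  rw [hh] at h3
  simp only [Qa, add_mul, comb_add hL a hv hw, h3]
  generalize comb L a (v * 2⁻¹) = A at h1 ⊢
  generalize comb L a (w * 2⁻¹) = B at h1 ⊢
  have : pr (A + A) w - (pr (A + B) (v + w) - pr A v - pr B w) =
      (pr A (w * 2⁻¹) - pr B (v * 2⁻¹)) + (pr A (w * 2⁻¹) - pr B (v * 2⁻¹)) := by
    simp only [pr, ← map_add, ← map_sub]
    congr 1
    linear_combination (B * v - A * w) * h2
  rw [this]
  linarith [norm_add_le (pr A (w * 2⁻¹) - pr B (v * 2⁻¹)) (pr A (w * 2⁻¹) - pr B (v * 2⁻¹))]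

lemma Qa_quad (hL : ∀ j, AddOn Θ r (L j)) (hr : 0 ≤ r) (a : Fin d → ℤ) {c : ZMod N} (η : ZMod N)
    {W : Finset (ZMod N)} (hc : InN Θ (3 * r / 100) (c * 2⁻¹))
    (hW : ∀ w ∈ W, InN Θ (r / 100) (w * 2⁻¹)) :
    QuadOn W fun w => Qa L a (c + w) + pr η w := by
  intro u h₁ h₂ h₃ hu g1 g2 g3
  have key : ∀ h, u + h ∈ W → InN Θ (r / 50) (h * 2⁻¹) := fun h hh => by
    have := (hW _ hh).sub (hW _ hu)
    rw [add_mul, add_sub_cancel_left] at this
    exact this.mono subset_rfl (by linarith)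
  have k0 := hc.add (hW _ hu)
  have k1 := key _ g1
  have k2 := key _ g2
  have k3 := key _ g3
  have A : ∀ {x y : ZMod N} {s t : ℝ}, InN Θ s x → InN Θ t y → s ≤ r → t ≤ r →
      comb L a (x + y) = comb L a x + comb L a y := fun hx hy hs ht =>
    comb_add hL a (hx.mono subset_rfl hs) (hy.mono subset_rfl ht)
  simp only [d3, d2, Qa, ← add_assoc, add_mul]
  rw [A ((k0.add k3).add k1) k2 (by linarith) (by linarith),
    A (k0.add k3) k1 (by linarith) (by linarith), A (k0.add k3) k2 (by linarith) (by linarith),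
    A (k0.add k1) k2 (by linarith) (by linarith), A k0 k1 (by linarith) (by linarith),
    A k0 k2 (by linarith) (by linarith), A k0 k3 (by linarith) (by linarith)]
  simp only [pr, ← map_add, ← map_sub]
  rw [← map_zero (ZMod.toAddCircle (N := N))]
  congr 1
  ring

lemma numer {p γ : ℝ} (hp : 2 ≤ p) (hγ : 1 / p ≤ γ) :
    500 * p * exp (-p ^ 5) ≤ 1 ∧ 140 * p * exp (-p ^ 5) * exp (2 * p) ≤ γ ∧
      96 * exp (2 * p) * exp (-p ^ 3) ^ 2 ≤ γ * exp (-p) ∧ 200 * exp (-p ^ 5) ≤ γ := by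
  have hE : 7 ≤ exp p := by
    have h1 := exp_le_exp.2 hp
    rw [show (2 : ℝ) = 1 + 1 by norm_num, exp_add] at h1
    nlinarith [exp_one_gt_d9]
  have hE' : p ≤ exp p := by linarith [add_one_le_exp p]
  have hp0 : 0 < p := by linarith
  have h1 : 1 ≤ p * γ := by rwa [div_le_iff₀' hp0] at hγ
  have p2 : 4 ≤ p ^ 2 := by nlinarith
  have p4 : 16 ≤ p ^ 4 := by nlinarith
  have e1 : exp p ^ 8 * exp (-p ^ 5) ≤ 1 := by
    rw [← exp_nat_mul, ← exp_add, exp_le_one_iff]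
    push_cast
    nlinarith [mul_le_mul_of_nonneg_left p4 hp0.le]
  have e2 : exp p ^ 8 * exp (-p ^ 3) ^ 2 ≤ 1 := by
    rw [← exp_nat_mul, ← exp_nat_mul, ← exp_add, exp_le_one_iff]
    push_cast
    nlinarith [mul_le_mul_of_nonneg_left p2 hp0.le]
  have e3 : exp (2 * p) = exp p ^ 2 := by rw [← exp_nat_mul]; norm_num
  have e4 : exp p * exp (-p) = 1 := by rw [← exp_add]; simp
  have s0 := exp_pos (-p ^ 5)
  have k0 : 0 < exp (-p ^ 3) ^ 2 := by positivity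
  rw [e3]
  generalize exp p = E at *
  generalize exp (-p ^ 5) = s at *
  generalize exp (-p ^ 3) ^ 2 = k at *
  generalize exp (-p) = t at *
  have E0 : 0 < E := by linarith
  have E3 : 343 ≤ E ^ 3 := by
    have := pow_le_pow_left₀ (by norm_num) hE 3
    norm_num at this ⊢; exact this
  have E4 : 2401 ≤ E ^ 4 := by
    have := pow_le_pow_left₀ (by norm_num) hE 4
    norm_num at this ⊢; exact this
  have q1 : p * E ^ 3 ≤ E ^ 4 := by nlinarith [pow_pos E0 3]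
  have q2 : p ^ 2 * E ^ 2 ≤ E ^ 4 := by
    calc _ ≤ E ^ 2 * E ^ 2 := by gcongr
      _ = _ := by ring
  have q3 : 500 * E ^ 4 ≤ E ^ 8 := by nlinarith [pow_pos E0 4]
  have q4 : p ≤ E ^ 4 := by nlinarith
  refine ⟨by nlinarith, ?_, ?_, ?_⟩
  · refine le_of_mul_le_mul_left ?_ hp0
    nlinarith
  · refine le_of_mul_le_mul_left ?_ (mul_pos hp0 E0)
    calc _ = 96 * (p * E ^ 3) * k := by ring
      _ ≤ 1 := by nlinarith
      _ ≤ p * γ * (E * t) := by rw [e4, mul_one]; exact h1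
      _ = _ := by ring
  · refine le_of_mul_le_mul_left ?_ hp0
    nlinarith

lemma part1 {f : ZMod N → ℂ} (hf : ∀ x, ‖f x‖ ≤ 1) {R : Finset (ZMod N)}
    {ξ : Fin d → ZMod N → ZMod N} {p P γ : ℝ} (hp : 2 ≤ p) (hr : 0 < r) (hγ : 1 / p ≤ γ)
    (h2 : (2 : ZMod N) * 2⁻¹ = 1) (hd : (d : ℝ) ≤ p) (fam : FamOK f R ξ L Θ r γ)
    (hS : ∀ j, SymOn Θ r (exp (-p ^ 5)) (L j)) (o : LoopOut R ξ L Θ r p P)
    (V' : Finset (ZMod N)) (hV' : ∀ t ∈ V', -t ∈ o.W) :
    γ ≤ 1 ∧ o.A.Nonempty ∧ ∃ (F : ZMod N → o.A → ZMod N → ℂ) (v0 : ZMod N), ∃ X ⊆ V',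
      (∀ y, ∑ a, ∑ w ∈ o.W, ‖F y a w‖ ^ 2 ≤ 5 * o.W.card) ∧
      γ / 120 * exp (-p) * V'.card ≤ X.card ∧ ∀ t ∈ X, v0 + t ∈ o.V ∧
        γ / 12 * (N * (o.W.card : ℝ) ^ 2) ≤
          ∑ y, ∑ a : o.A, ‖cor (tw f (y + o.h0) (Qa L a)) o.W (F y a) (v0 + t)‖ ^ 2 := by
  classical
  obtain ⟨n1, n2, n3, -⟩ := numer hp hγ
  have γ0 : 0 < γ := lt_of_lt_of_le (by positivity) hγ
  have hN : (0 : ℝ) < N := N_pos
  have hV : (0 : ℝ) < o.V.card := Nat.cast_pos.2 o.V_ne.card_pos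
  have hW : o.W.Nonempty := ⟨0, o.regW.zero_mem⟩
  have hw : (0 : ℝ) < o.W.card := Nat.cast_pos.2 hW.card_pos
  have s0 := exp_pos (-p ^ 5)
  set R' := o.V.filter fun v => o.h0 + v ∈ R with hR'
  have hR : exp (-p) * o.V.card ≤ R'.card := by have := o.dens; rwa [cnt_eq_card] at this
  obtain ⟨v1, hv1⟩ : R'.Nonempty := by
    rw [← card_pos, ← Nat.cast_pos (α := ℝ)]
    exact lt_of_lt_of_le (by positivity) hR
  obtain ⟨O, hO, hVW⟩ := o.sumVW
  have hA : (Fintype.card o.A : ℝ) ≤ exp (2 * p) := by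
    rw [Fintype.card_coe]
    exact (Nat.cast_le.2 (card_le_card o.A_sub)).trans ((card_cube d).trans (by gcongr))
  have hWb : ∀ w ∈ o.W, InN o.ΘW o.rW w := fun w hw => by
    simpa only [one_mul] using (bohrF_mem o.rW_pos.le _ _).1 (o.regW.one w hw)
  have hξ0 : ∀ w ∈ o.W, ∀ j, ‖pr (o.ξ0 j) w‖ ≤ exp (-p ^ 5) := fun w hw j =>
    (hWb w hw _ (o.ξ0_mem j)).trans o.rW_le
  have hcomb : ∀ v ∈ R', ∀ a, comb ξ a (o.h0 + v) = ∑ j, a j • o.ξ0 j + comb L a v :=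
    fun v hv a => by
      simp only [comb, o.aff v (mem_filter.1 hv).1 (mem_filter.1 hv).2, smul_add, sum_add_distrib]
  have ha : ∀ v ∈ R', γ / 2 * N * (o.W.card : ℝ) ^ 2 ≤ ∑ y, ∑ a : o.A,
      ‖cor (tw f (y + o.h0) (Qa L a)) o.W (tw f y (Qa L a)) v‖ ^ 2 := by
    intro v hv
    obtain ⟨hv1, hv2⟩ := mem_filter.1 hv
    refine stepA hf o.W _ o.h0 v (fun a : o.A => comb ξ a (o.h0 + v)) (fun a : o.A => Qa L a)
      (δ := 3 * (d * exp (-p ^ 5))) (fam.mass _ hv2) (fun η hη => ?_) (fun a w hw => ?_) ?_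
    · obtain ⟨a', ha', rfl⟩ := mem_image.1 hη
      obtain ⟨a, ha, h⟩ := o.rep a' ha'
      refine ⟨⟨a, ha⟩, fun w hw => ?_⟩
      have b1 := norm_comb_le (a - a') _ (c := 2) (fun j => by
        have := abs_le.1 (abs_le_of_cube ha' j)
        have := abs_le.1 (abs_le_of_cube (o.A_sub ha) j)
        rw [Pi.sub_apply, Int.cast_sub, abs_le]
        constructor <;> linarith) (hξ0 w hw)
      rw [← pr_comb] at b1
      have b2 : comb ξ a (o.h0 + v) - comb ξ a' (o.h0 + v) =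
          ∑ j, (a - a') j • o.ξ0 j - comb L (a' - a) v := by
        simp only [hcomb v hv, comb_sub, Pi.sub_apply, sub_smul, sum_sub_distrib]
        ring
      rw [b2, pr_sub_left]
      refine (norm_sub_le _ _).trans ?_
      nlinarith [h v hv1 w hw, mul_le_mul_of_nonneg_right hd s0.le]
    · have b1 := norm_comb_le a.1 _ (abs_le_of_cube (o.A_sub a.2)) (hξ0 w hw)
      have b2 := Qa_approx fam.add hS h2 (o.A_sub a.2)
        ((o.domV v hv1).2.mono subset_rfl (by linarith))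
        ((o.domW w (hWb w hw)).2.mono subset_rfl (by linarith))
      rw [hcomb v hv, pr_add_left, pr_comb, add_sub_assoc]
      refine (norm_add_le _ _).trans ?_
      linarith
    · calc _ ≤ 14 * (3 * (p * exp (-p ^ 5))) * exp (2 * p) := by gcongr
        _ ≤ _ := by linarith [show 0 ≤ p * exp (-p ^ 5) * exp (2 * p) by positivity]
  obtain ⟨F, hF, hG⟩ := stepB hf o.W R' O hW o.h0 (fun a : o.A => Qa L a) (exp_pos (-p ^ 3))
    (fun a a' h η => by
      have := o.unb a a.2 a' a'.2 (fun h' => h (Subtype.ext h')) η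
      simp only [Qa, comb_sub, pr_sub_left] at this ⊢
      rwa [← exp_nat_mul, show ((2 : ℕ) : ℝ) * -p ^ 3 = -2 * p ^ 3 by push_cast; ring])
    (fun v hv => hVW v (mem_filter.1 hv).1) ha (by
      calc _ ≤ 48 * exp (2 * p) * exp (-p ^ 3) ^ 2 * (2 * o.V.card) := by gcongr
        _ ≤ γ * (exp (-p) * o.V.card) := by nlinarith
        _ ≤ _ := by gcongr)
  obtain ⟨v0, X, hX, h1, h3⟩ := stepC R' O V' ⟨_, hVW _ (mem_filter.1 hv1).1 _ o.regW.zero_mem⟩ _
    (by positivity) γ0.le (fun v _ => by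
      calc _ ≤ ∑ y : ZMod N, ∑ a : o.A, (o.W.card : ℝ) * ∑ w ∈ o.W, ‖F y a w‖ ^ 2 :=
            sum_le_sum fun y _ => sum_le_sum fun a _ => norm_cor_sq_le (norm_tw_le hf _ _) _ _ _
        _ ≤ ∑ y : ZMod N, (o.W.card : ℝ) * (5 * o.W.card) := sum_le_sum fun y _ => by
            rw [← mul_sum]; exact mul_le_mul_of_nonneg_left (hF y) hw.le
        _ = _ := by rw [sum_const, card_univ, ZMod.card, nsmul_eq_mul]; ring) hG
    (fun v hv t ht => by rw [sub_eq_add_neg]; exact hVW v (mem_filter.1 hv).1 _ (hV' t ht))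
  refine ⟨(fam.mass _ (mem_filter.1 hv1).2).trans ((sum_le_sum_of_subset_of_nonneg
    (subset_univ _) fun _ _ _ => sq_nonneg _).trans (sum_mm_le hf _)), ?_, F, v0, X, hX, hF, ?_,
    fun t ht => ⟨(mem_filter.1 (h3 t ht).1).1, (h3 t ht).2⟩⟩
  · obtain ⟨a, ha, -⟩ := o.rep 0 (Fintype.mem_piFinset.2 fun _ => by simp)
    exact ⟨a, ha⟩
  · refine le_of_mul_le_mul_left ?_ (mul_pos two_pos hV)
    calc _ = γ / 60 * (exp (-p) * o.V.card) * V'.card := by ring
      _ ≤ γ / 60 * R'.card * V'.card := by gcongr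
      _ ≤ _ := h1.trans (by gcongr)

lemma exp_neg_le {x y : ℝ} (hx : 0 < x) (h : x ≤ y) : exp (-y) ≤ 1 / x := by
  rw [exp_neg, one_div]
  exact inv_anti₀ hx (by linarith [add_one_le_exp y])

lemma numer2 {P γ ρ l t : ℝ} (P32 : 32 ≤ P) (γ0 : 0 < γ) (γ1 : γ ≤ 1) (c1 : 1 ≤ P * γ)
    (ρ2 : exp (-P) ≤ 2 * ρ) (l0 : 0 ≤ l) (hl : l ≤ P ^ 8) (t0 : 0 ≤ t) (ht : t ≤ 2 * P ^ 8) :
    t ≤ P ^ 16 ∧ exp (-P ^ 16) ≤ min ρ (1 / (100 * (l + 1))) * (γ / 4000 / (16 * (2 * t + 1))) ∧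
      min ρ (1 / (100 * (l + 1))) * (γ / 4000 / (16 * (2 * t + 1))) ≤ 1 := by
  have P1 : 1 ≤ P := by linarith
  have P4 : 1048576 ≤ P ^ 4 := by
    have := pow_le_pow_left₀ (by norm_num) P32 4
    norm_num at this ⊢; exact this
  have P8 : P ≤ P ^ 8 := le_self_pow₀ P1 (by norm_num)
  have P9 : 0 < P ^ 8 := by positivity
  have P16 : 2 * P ^ 14 ≤ P ^ 16 := by
    calc _ ≤ P ^ 2 * P ^ 14 := by gcongr; nlinarith
      _ = _ := by ring
  have P14 : 1048576 * (P * P ^ 8) ≤ P ^ 14 := by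
    calc _ ≤ P ^ 4 * (P * P ^ 8) := by gcongr
      _ = P ^ 13 := by ring
      _ ≤ _ := pow_le_pow_right₀ P1 (by norm_num)
  have P10 : P ^ 8 ≤ P * P ^ 8 := le_mul_of_one_le_left P9.le P1
  have b1 : exp (-P ^ 14) ≤ min ρ (1 / (100 * (l + 1))) := by
    refine le_min ?_ (exp_neg_le (by positivity) (by linarith))
    have c1 : exp (-P ^ 14) ≤ exp (-P) * exp (-2) := by
      rw [← exp_add, exp_le_exp]; linarith
    have c2 := exp_neg_le two_pos le_rfl
    linarith [mul_le_mul_of_nonneg_left c2 (exp_pos (-P)).le]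
  have b2 : exp (-P ^ 14) ≤ γ / 4000 / (16 * (2 * t + 1)) := by
    refine (exp_neg_le (x := P ^ 14) (by positivity) le_rfl).trans ?_
    rw [div_le_div_iff₀ (by positivity) (by positivity)]
    linarith [mul_le_mul_of_nonneg_left P14 γ0.le, mul_le_mul_of_nonneg_left c1 P9.le]
  refine ⟨by linarith, ?_, mul_le_one₀ ((min_le_right _ _).trans ?_) (by positivity) ?_⟩
  · calc _ ≤ exp (-P ^ 14) * exp (-P ^ 14) := by rw [← exp_add, exp_le_exp]; linarith
      _ ≤ _ := mul_le_mul b1 b2 (exp_pos _).le ((exp_pos _).le.trans b1)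
  · rw [div_le_one (by positivity)]; linarith
  · rw [div_le_one (by positivity)]; linarith

end Pool.Agent.Tri.End

namespace Pool.Agent.Tri

open End

theorem endA : EndStmt := by
  refine ⟨16, fun p P r γ hp hP hr hγ N _ hN h2N f hf d R ξ L Θ hd fam hS ⟨o⟩ => ?_⟩
  classical
  have h2 : (2 : ZMod N) * 2⁻¹ = 1 := by
    simpa using ZMod.coe_mul_inv_eq_one 2 ((Nat.coprime_primes Nat.prime_two hN).2 h2N.ne)
  obtain ⟨n1, -, -, n4⟩ := numer hp hγ
  have p0 : 0 < p := by linarith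
  have γ0 : 0 < γ := lt_of_lt_of_le (by positivity) hγ
  have pγ : 1 ≤ p * γ := by rwa [div_le_iff₀' p0] at hγ
  have p16 : 16 * p ≤ P := by
    have : 16 ≤ p ^ 4 := by nlinarith [show 4 ≤ p ^ 2 by nlinarith]
    nlinarith
  have p2 : p ^ 2 ≤ P := (pow_le_pow_right₀ (by linarith) (by norm_num)).trans hP
  have P32 : 32 ≤ P := by linarith
  have P0 : 0 < P := by linarith
  have P1 : 1 ≤ P := by linarith
  have P4 : 1048576 ≤ P ^ 4 := by
    have := pow_le_pow_left₀ (by norm_num) P32 4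
    norm_num at this ⊢; exact this
  have hN0 : (0 : ℝ) < N := N_pos
  have r0 := o.rW_pos
  have s0 := o.sW_pos
  have s1 := o.sW_le
  set ρ := o.rW * o.sW / 2 with hρ
  have ρ0 : 0 < ρ := by positivity
  have ρ1 : ρ ≤ 1 / 2 * o.rW := by nlinarith
  have ρ2 : exp (-P) ≤ 2 * ρ := by linarith [o.rad]
  have hρW : ∀ t, InN o.ΘW ρ t → t ∈ o.W := fun t ht =>
    o.regW.half t ((bohrF_mem r0.le _ _).2 (ht.mono subset_rfl ρ1))
  have hWb : ∀ w ∈ o.W, InN o.ΘW o.rW w := fun w hw => by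
    simpa only [one_mul] using (bohrF_mem r0.le _ _).1 (o.regW.one w hw)
  obtain ⟨γ1, ⟨a0, ha0⟩, F, v0, X, hX, hF, hXc, hG⟩ := part1 hf hp hr hγ h2 hd fam hS o
    (univ.filter (InN o.ΘW ρ)) fun t ht => hρW _ (mem_filter.1 ht).2.neg
  have hXN : exp (-(2 * P ^ 2)) * N ≤ X.card := by
    have b1 := card_bohr o.ΘW ρ0
    rw [cnt_eq_card] at b1
    have b2 : 1 / ρ + 1 ≤ exp (P + 2) := by
      have c1 : 1 / ρ ≤ 2 * exp P := by
        rw [div_le_iff₀ ρ0]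
        have : exp P * exp (-P) = 1 := by rw [← exp_add]; simp
        nlinarith [exp_pos P]
      rw [exp_add]
      nlinarith [add_one_le_exp (2 : ℝ), one_le_exp P0.le]
    have b3 : (1 / ρ + 1) ^ o.ΘW.card ≤ exp (P * (P + 2)) := by
      refine (pow_le_pow_left₀ (by positivity) b2 _).trans ?_
      rw [← exp_nat_mul]
      have := o.card_le
      gcongr
    have b4 : exp (-(2 * P ^ 2)) * exp (P * (P + 2)) ≤ γ / 120 * exp (-p) := by
      have c1 : exp (-(120 * p)) ≤ γ / 120 := (exp_neg_le (by positivity) le_rfl).trans (by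
        rw [div_le_div_iff₀ (by positivity) (by norm_num)]; linarith)
      refine le_trans ?_ (mul_le_mul_of_nonneg_right c1 (exp_pos _).le)
      rw [← exp_add, ← exp_add, exp_le_exp]
      nlinarith
    refine le_trans ?_ hXc
    calc _ ≤ exp (-(2 * P ^ 2)) * (exp (P * (P + 2)) * (univ.filter (InN o.ΘW ρ)).card) :=
          mul_le_mul_of_nonneg_left (b1.trans (by gcongr)) (exp_pos _).le
      _ ≤ _ := by rw [← mul_assoc]; gcongr
  obtain ⟨t0, ht0⟩ : X.Nonempty := by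
    rw [← card_pos, ← Nat.cast_pos (α := ℝ)]
    exact lt_of_lt_of_le (by positivity) hXN
  obtain ⟨Λ, hΛ, hsp⟩ := chang_bohr X (exp_pos _) (ε := γ / 240) (by positivity) (by linarith) hXN
  have hΛ' : (Λ.card : ℝ) ≤ P ^ 8 := by
    have b1 : log (2 / exp (-(2 * P ^ 2))) ≤ P ^ 3 := by
      rw [log_div (by norm_num) (exp_pos _).ne', log_exp]
      nlinarith [log_two_lt_d9]
    have b2 : 8 / (γ / 240) ^ 2 ≤ P ^ 4 * P := by
      rw [div_le_iff₀ (by positivity)]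
      have c1 : 1 ≤ P * γ ^ 2 := by
        nlinarith [mul_le_mul_of_nonneg_right p2 (sq_nonneg γ)]
      nlinarith
    calc _ ≤ 8 / (γ / 240) ^ 2 * P ^ 3 := hΛ.trans (by gcongr)
      _ ≤ P ^ 4 * P * P ^ 3 := by gcongr
      _ = _ := by ring
  have P8 : P ≤ P ^ 8 := le_self_pow₀ P1 (by norm_num)
  have hΘ : ((o.ΘW ∪ Λ).card : ℝ) ≤ 2 * P ^ 8 := by
    have : ((o.ΘW ∪ Λ).card : ℝ) ≤ o.ΘW.card + Λ.card := by exact_mod_cast card_union_le _ _
    linarith [o.card_le]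
  set r' := min ρ (1 / (100 * (Λ.card + 1))) with hr'
  set s' := γ / 4000 / (16 * (2 * ((o.ΘW ∪ Λ).card : ℝ) + 1)) with hs'
  have r'0 : 0 < r' := lt_min ρ0 (by positivity)
  have s'0 : 0 < s' := by positivity
  have r'1 : (Λ.card + 1) * r' ≤ 1 / 100 := by
    refine (mul_le_mul_of_nonneg_left (min_le_right _ _) (by positivity)).trans (le_of_eq ?_)
    field_simp
  have L0 : (0 : ℝ) ≤ Λ.card := Nat.cast_nonneg _
  obtain ⟨W', hW'⟩ := exists_regBohr (o.ΘW ∪ Λ) (η := γ / 4000) r'0 s'0 (by linarith)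
    (le_of_eq (by rw [hs']; field_simp))
  have hW'b : ∀ w ∈ W', InN (o.ΘW ∪ Λ) r' w := fun w hw => by
    simpa only [one_mul] using (bohrF_mem r'0.le _ _).1 (hW'.one w hw)
  have hW'ρ : ∀ w ∈ W', InN o.ΘW ρ w := fun w hw =>
    (hW'b w hw).mono subset_union_left (min_le_left _ _)
  have half : ∀ w ∈ o.W, InN Θ (r / 100) (w * 2⁻¹) := fun w hw => (o.domW w (hWb w hw)).2
  choose i hi hmax using fun z => exists_max_image
    (univ.filter fun i : o.A × ZMod N × ZMod N => InN Θ (3 * r / 100) (i.2.2 * 2⁻¹))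
    (fun i => ‖∑ w ∈ W', f (z + w) * e (-(Qa L i.1 (i.2.2 + w) + pr i.2.1 w))‖ ^ 2)
    ⟨(⟨a0, ha0⟩, 0, 0), mem_filter.2 ⟨mem_univ _, by
      simp only [zero_mul]; exact InN.zero _ (by positivity)⟩⟩
  obtain ⟨I, O, hI, hO, hI', hO', hcard⟩ := o.regW.ex
  have hb : ∀ b, InN o.ΘW (ρ + ρ) b → (bohrF o.ΘW o.rW).mem o.sW b := fun b hb =>
    (bohrF_mem r0.le _ _).2 (hb.mono subset_rfl (by rw [hρ]; linarith))
  have hb' : ∀ b, InN o.ΘW ρ b → (bohrF o.ΘW o.rW).mem o.sW b := fun b h =>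
    hb b (h.mono subset_rfl (by linarith))
  have key := stepD hf o.W W' X (univ.filter fun u => ∃ w ∈ o.W, InN o.ΘW ρ (u - w)) I O
    ⟨0, o.regW.zero_mem⟩ ⟨0, hW'.zero_mem⟩ ⟨t0, ht0⟩ o.h0 v0 (fun a : o.A => Qa L a) F
    (fun z => ‖∑ w ∈ W', f (z + w) * e (-(Qa L (i z).1 ((i z).2.2 + w) + pr (i z).2.1 w))‖ ^ 2)
    γ0.le (exp_pos _).le (by linarith) hI (hI.trans hO) hcard
    (fun u hu => by
      obtain ⟨w, hw, h⟩ := (mem_filter.1 hu).2
      simpa using hO' w hw _ (hb' _ h))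
    (fun t ht w hw => mem_filter.2 ⟨mem_univ _, w, hw, by
      simpa using (mem_filter.1 (hX ht)).2⟩)
    (fun u hu w hw => mem_filter.2 ⟨mem_univ _, u, hI hu, by simpa using hW'ρ w hw⟩)
    (fun u w hw hu => by
      obtain ⟨x, hx, h⟩ := (mem_filter.1 hu).2
      have := hO' x hx _ (hb _ (h.sub (hW'ρ w hw)))
      rwa [show x + (u + w - x - w) = u by ring] at this)
    hF (fun t ht => (hG t ht).2)
    (fun η h w hw => (hsp η h _ w ((hW'b w hw).mono subset_union_right le_rfl)).trans (by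
      linarith))
    (fun _ => sq_nonneg _)
    (fun z a η u hu => hmax z (a, η, v0 + u) (mem_filter.2 ⟨mem_univ _, by
      have := ((o.domV _ (hG t0 ht0).1).2.sub (half t0 (hρW _ (mem_filter.1 (hX ht0)).2))).add
        (half u (hI hu))
      rw [show (v0 + t0) * 2⁻¹ - t0 * 2⁻¹ + u * 2⁻¹ = (v0 + u) * 2⁻¹ by ring] at this
      exact this.mono subset_rfl (by linarith)⟩))
  obtain ⟨m1, m2, m3⟩ := numer2 P32 γ0 γ1 (by nlinarith only [pγ, p16, γ0, p0]) ρ2 L0 hΛ'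
    (Nat.cast_nonneg _) hΘ
  refine ⟨o.ΘW ∪ Λ, r', s', W', fun z w => Qa L (i z).1 ((i z).2.2 + w) + pr (i z).2.1 w,
    m1, r'0, s'0, m2, m3, hW', fun z => Qa_quad fam.add hr.le _ _ (mem_filter.1 (hi z)).2
      fun w hw => half w (hρW w (hW'ρ w hw)), le_trans ?_ key⟩
  gcongr
  linarith only [n4, γ0]

end Pool.Agent.Tri
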