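import Pool.Agent.Lib.MP_9721b5_an.Tri.Fourier

/-!
Analytic lemmas for the end game: local Parseval bounds, matching pursuit, the linear lemma.
-/

set_option autoImplicit false

open Finset ComplexConjugate

namespace Pool.Agent.Tri.End

variable {N : ℕ} [NeZero N]

/-- correlation of translates of `F` with `g` on `S` -/
noncomputable def cor (F : ZMod N → ℂ) (S : Finset (ZMod N)) (g : ZMod N → ℂ) (v : ZMod N) : ℂ :=
  ∑ w ∈ S, F (v + w) * conj (g w)

lemma N_pos : (0 : ℝ) < N := Nat.cast_pos.2 (Nat.pos_of_ne_zero (NeZero.ne N))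

lemma sum_cor_sq (F : ZMod N → ℂ) (S : Finset (ZMod N)) (g : ZMod N → ℂ) :
    ∑ v, ‖cor F S g v‖ ^ 2 = N * ∑ η, ‖ft F η‖ ^ 2 * ‖∑ w ∈ S, g w * e (-pr η w)‖ ^ 2 := by
  have h := parseval (cor F S g)
  have h2 : ∀ η, ft (cor F S g) η = ft F η * conj (∑ w ∈ S, g w * e (-pr η w)) := ft_corr F S g
  simp only [h2, norm_mul, RCLike.norm_conj, mul_pow] at h
  rw [h, ← mul_assoc, mul_inv_cancel₀ N_pos.ne', one_mul]

lemma norm_sum_e_ge {α : Type*} (S : Finset α) (t : α → T) (h : ∀ w ∈ S, ‖t w‖ ≤ 1 / 70) :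
    9 / 10 * (S.card : ℝ) ≤ ‖∑ w ∈ S, e (t w)‖ := by
  have h1 : ‖∑ w ∈ S, (e (t w) - 1)‖ ≤ ∑ w ∈ S, (1 / 10 : ℝ) :=
    (norm_sum_le _ _).trans (sum_le_sum fun w hw => (norm_e_sub_one_le _).trans
      (by linarith [h w hw]))
  rw [sum_sub_distrib, sum_const, sum_const, nsmul_eq_mul, nsmul_eq_mul, mul_one] at h1
  have h2 := norm_sub_norm_le (S.card : ℂ) (∑ w ∈ S, e (t w))
  rw [norm_sub_rev, Complex.norm_natCast] at h2
  linarith

/-- local Parseval inequality, lower bound -/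
lemma cor_lower (F : ZMod N → ℂ) (S H : Finset (ZMod N)) (ξ : ZMod N)
    (h : ∀ η ∈ H, ∀ w ∈ S, ‖pr (ξ - η) w‖ ≤ 1 / 70) :
    81 / 100 * (S.card : ℝ) ^ 2 * N * ∑ η ∈ H, ‖ft F η‖ ^ 2 ≤
      ∑ v, ‖cor F S (fun w => e (pr ξ w)) v‖ ^ 2 := by
  rw [sum_cor_sq, mul_comm _ (N : ℝ), mul_assoc, mul_sum]
  refine mul_le_mul_of_nonneg_left ((sum_le_sum fun η hη => ?_).trans
    (sum_le_sum_of_subset_of_nonneg (subset_univ H) fun _ _ _ => by positivity)) N_pos.le
  have h1 := norm_sum_e_ge S _ (h η hη)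
  simp only [← e_add, ← sub_eq_add_neg, ← pr_sub_left]
  rw [mul_comm]
  refine mul_le_mul_of_nonneg_left ?_ (by positivity)
  calc _ = (9 / 10 * (S.card : ℝ)) ^ 2 := by ring
    _ ≤ _ := by gcongr

/-- local Parseval inequality, upper bound -/
lemma cor_upper (F : ZMod N → ℂ) (S : Finset (ZMod N)) (g : ZMod N → ℂ) {K : ℝ}
    (h : ∀ η, ‖∑ w ∈ S, g w * e (-pr η w)‖ ≤ K) :
    ∑ v, ‖cor F S g v‖ ^ 2 ≤ K ^ 2 * ∑ x, ‖F x‖ ^ 2 := by
  rw [sum_cor_sq]
  calc _ ≤ N * ∑ η, ‖ft F η‖ ^ 2 * K ^ 2 := by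
        refine mul_le_mul_of_nonneg_left (sum_le_sum fun η _ => ?_) N_pos.le
        have := h η
        gcongr
    _ = _ := by
        rw [← sum_mul, parseval]; field_simp [N_pos.ne']

omit [NeZero N] in
lemma norm_cor_sq_le {F : ZMod N → ℂ} (hF : ∀ x, ‖F x‖ ≤ 1) (S : Finset (ZMod N))
    (g : ZMod N → ℂ) (v : ZMod N) : ‖cor F S g v‖ ^ 2 ≤ S.card * ∑ w ∈ S, ‖g w‖ ^ 2 := by
  have h1 : ‖cor F S g v‖ ≤ ∑ w ∈ S, ‖g w‖ :=
    (norm_sum_le _ _).trans (sum_le_sum fun w _ => by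
      rw [norm_mul, RCLike.norm_conj]
      exact mul_le_of_le_one_left (norm_nonneg _) (hF _))
  exact (pow_le_pow_left₀ (norm_nonneg _) h1 2).trans sq_sum_le_card_mul_sum_sq

lemma sum_ind_le {F : ZMod N → ℂ} (hF : ∀ x, ‖F x‖ ≤ 1) (D : Finset (ZMod N)) :
    ∑ x, ‖if x ∈ D then F x else 0‖ ^ 2 ≤ D.card := by
  calc _ ≤ ∑ x, if x ∈ D then (1 : ℝ) else 0 := sum_le_sum fun x _ => by
        split_ifs
        · exact pow_le_one₀ (norm_nonneg _) (hF x)
        · simp
    _ = _ := by simp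

lemma sum_norm_sq_eq {α : Type*} (S : Finset α) (g : α → ℂ) :
    ∑ w ∈ S, ‖g w‖ ^ 2 = (∑ w ∈ S, g w * conj (g w)).re := by
  rw [Complex.re_sum]
  refine sum_congr rfl fun w _ => ?_
  rw [Complex.mul_conj, Complex.ofReal_re, Complex.normSq_eq_norm_sq]

/-- matching pursuit -/
lemma pursuit {α ι : Type*} [Fintype ι] (S : Finset α) (hS : S.Nonempty) (ψ : ι → α → T)
    (g : α → ℂ) (hg : ∀ w, ‖g w‖ ≤ 1) {k : ℝ} (hk : 0 < k) :
    ∃ c : ι → ℂ, ∑ i, ‖c i‖ ≤ 1 / k ∧ ∑ w ∈ S, ‖g w - ∑ i, c i * e (ψ i w)‖ ^ 2 ≤ S.card ∧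
      ∀ j, ‖∑ w ∈ S, (g w - ∑ i, c i * e (ψ i w)) * e (-ψ j w)‖ ≤ k * S.card := by
  classical
  have hS' : (0 : ℝ) < S.card := Nat.cast_pos.2 hS.card_pos
  set En : (ι → ℂ) → ℝ := fun c => ∑ w ∈ S, ‖g w - ∑ i, c i * e (ψ i w)‖ ^ 2 with hEn
  have En0 : ∀ c, 0 ≤ En c := fun c => sum_nonneg fun _ _ => by positivity
  have key : ∀ n : ℕ, ∀ c : ι → ℂ, En c + k * S.card * ∑ i, ‖c i‖ ≤ S.card →
      En c < n * (k ^ 2 * S.card) → ∃ c : ι → ℂ, En c + k * S.card * ∑ i, ‖c i‖ ≤ S.card ∧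
        ∀ j, ‖∑ w ∈ S, (g w - ∑ i, c i * e (ψ i w)) * e (-ψ j w)‖ ≤ k * S.card := by
    intro n
    induction n with
    | zero => intro c _ h; simp at h; linarith [En0 c]
    | succ n ih =>
      intro c h1 h2
      by_contra hne
      have : ∃ j, k * S.card < ‖∑ w ∈ S, (g w - ∑ i, c i * e (ψ i w)) * e (-ψ j w)‖ := by
        by_contra hh
        push Not at hh
        exact hne ⟨c, h1, hh⟩
      obtain ⟨j, hj⟩ := this
      set r : α → ℂ := fun w => g w - ∑ i, c i * e (ψ i w) with hr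
      set σ := ∑ w ∈ S, r w * e (-ψ j w) with hσ
      set b : ℂ := σ / S.card with hb
      have hσb : σ = S.card * b := by rw [hb]; field_simp [hS.card_pos.ne']
      have hnb : k < ‖b‖ := by
        rw [hσb, norm_mul, Complex.norm_natCast, mul_comm] at hj
        exact lt_of_mul_lt_mul_left hj hS'.le
      have e1 : ∀ w, g w - ∑ i, (c + Pi.single j b : ι → ℂ) i * e (ψ i w) =
          r w - b * e (ψ j w) := by
        intro w
        simp only [hr, Pi.add_apply, add_mul, sum_add_distrib, Pi.single_apply, ite_mul, zero_mul,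
          sum_ite_eq', mem_univ, if_true]
        ring
      have e2 : En (c + Pi.single j b) = En c - S.card * ‖b‖ ^ 2 := by
        simp only [hEn, e1]
        rw [sum_norm_sq_eq, sum_norm_sq_eq S r]
        have : ∑ w ∈ S, (r w - b * e (ψ j w)) * conj (r w - b * e (ψ j w)) =
            ∑ w ∈ S, r w * conj (r w) - conj b * σ - b * conj σ + S.card * (b * conj b) := by
          rw [hσ, map_sum, mul_sum, mul_sum, ← sum_sub_distrib, ← sum_sub_distrib, ← nsmul_eq_mul,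
            ← sum_const, ← sum_add_distrib]
          refine sum_congr rfl fun w _ => ?_
          have := e_mul_conj (ψ j w)
          simp only [map_sub, map_mul, e_neg, Complex.conj_conj]
          linear_combination (b * conj b) * this
        rw [this, hσb]
        simp only [map_mul, Complex.conj_natCast]
        rw [show ∑ w ∈ S, r w * conj (r w) - conj b * (S.card * b) - b * (S.card * conj b) +
          S.card * (b * conj b) = ∑ w ∈ S, r w * conj (r w) - S.card * (b * conj b) by ring,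
          Complex.sub_re, Complex.mul_conj, ← Complex.ofReal_natCast, ← Complex.ofReal_mul,
          Complex.ofReal_re, Complex.normSq_eq_norm_sq]
      have e3 : ∑ i, ‖(c + Pi.single j b : ι → ℂ) i‖ ≤ ∑ i, ‖c i‖ + ‖b‖ := by
        calc _ ≤ ∑ i, (‖c i‖ + if i = j then ‖b‖ else 0) := sum_le_sum fun i _ => by
              refine (norm_add_le _ _).trans (add_le_add_right ?_ _)
              rw [Pi.single_apply]; split_ifs <;> simp
          _ = _ := by simp [sum_add_distrib]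
      refine hne (ih (c + Pi.single j b) ?_ ?_)
      · rw [e2]
        have h3 := mul_le_mul_of_nonneg_left e3 (mul_pos hk hS').le
        nlinarith [mul_pos hS' (hk.trans hnb), mul_le_mul_of_nonneg_left hnb.le
          (mul_pos hS' (hk.trans hnb)).le]
      · rw [e2]
        have h3 : k ^ 2 ≤ ‖b‖ ^ 2 := by gcongr
        push_cast at h2
        nlinarith [mul_le_mul_of_nonneg_left h3 hS'.le]
  obtain ⟨n, hn⟩ := exists_nat_gt (En 0 / (k ^ 2 * S.card))
  obtain ⟨c, h1, h2⟩ := key n 0 (by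
    simp only [hEn, Pi.zero_apply, zero_mul, sum_const_zero, sub_zero, norm_zero, mul_zero,
      add_zero]
    calc _ ≤ ∑ w ∈ S, (1 : ℝ) := sum_le_sum fun w _ => pow_le_one₀ (norm_nonneg _) (hg w)
      _ = _ := by simp) (by rwa [div_lt_iff₀ (by positivity)] at hn)
  have h3 : 0 ≤ k * S.card * ∑ i, ‖c i‖ := by positivity
  refine ⟨c, ?_, by linarith, h2⟩
  rw [le_div_iff₀ hk]
  refine le_of_mul_le_mul_left ?_ hS'
  nlinarith [En0 c]

/-- decomposition of a function along mutually unbiased phases -/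
lemma decomp {α : Type*} [Fintype α] (W : Finset (ZMod N)) (hW : W.Nonempty)
    (Q : α → ZMod N → T) {k : ℝ} (hk : 0 < k)
    (unb : ∀ a a', a ≠ a' → ∀ η, ‖∑ w ∈ W, e (Q a w - Q a' w + pr η w)‖ ≤ k ^ 2 * W.card)
    (g : ZMod N → ℂ) (hg : ∀ w, ‖g w‖ ≤ 1) : ∃ P : α → ZMod N → ℂ,
      ∑ a, ∑ w ∈ W, ‖P a w‖ ^ 2 ≤ 5 * W.card ∧
      ∀ a η, ‖∑ w ∈ W, (g w * e (-Q a w) - P a w) * e (-pr η w)‖ ≤ 2 * k * W.card := by
  classical
  obtain ⟨c, h1, h2, h3⟩ := pursuit W hW (fun (i : α × ZMod N) w => Q i.1 w + pr i.2 w) g hg hk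
  have hW' : (0 : ℝ) ≤ W.card := Nat.cast_nonneg _
  have off : ∀ (i j : α × ZMod N), i.1 ≠ j.1 → ‖∑ w ∈ W, e (Q i.1 w + pr i.2 w) *
      e (-(Q j.1 w + pr j.2 w))‖ ≤ k ^ 2 * W.card := fun i j hij => by
    convert unb _ _ hij (i.2 - j.2) using 3 with w
    rw [← e_add, pr_sub_left]; congr 1; abel
  refine ⟨fun a w => ∑ η, c (a, η) * e (pr η w), ?_, fun a η => ?_⟩
  · set s : ZMod N → ℂ := fun w => ∑ i : α × ZMod N, c i * e (Q i.1 w + pr i.2 w) with hs
    have e1 : ∑ w ∈ W, ‖s w‖ ^ 2 ≤ 4 * W.card := by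
      calc _ ≤ ∑ w ∈ W, (2 + 2 * ‖g w - s w‖ ^ 2) := sum_le_sum fun w _ => by
            have h4 : ‖s w‖ ≤ 1 + ‖g w - s w‖ := by
              have := norm_sub_le (g w) (g w - s w)
              rw [sub_sub_cancel] at this
              linarith [hg w]
            nlinarith [norm_nonneg (s w), norm_nonneg (g w - s w), sq_nonneg (‖g w - s w‖ - 1)]
        _ ≤ _ := by rw [sum_add_distrib, ← mul_sum, sum_const, nsmul_eq_mul]; linarith
    set I : α × ZMod N → α × ZMod N → ℂ := fun i j => c i * conj (c j) *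
      ∑ w ∈ W, e (Q i.1 w + pr i.2 w) * e (-(Q j.1 w + pr j.2 w)) with hI
    have e2 : ∑ w ∈ W, s w * conj (s w) = ∑ i, ∑ j, I i j := by
      simp only [hs, hI, map_sum, sum_mul_sum]
      rw [sum_comm]
      refine sum_congr rfl fun i _ => ?_
      rw [sum_comm]
      refine sum_congr rfl fun j _ => ?_
      rw [mul_sum]
      refine sum_congr rfl fun w _ => ?_
      rw [map_mul, e_neg]; ring
    have e3 : ∑ a, ∑ w ∈ W, (∑ η, c (a, η) * e (pr η w)) * conj (∑ η, c (a, η) * e (pr η w)) =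
        ∑ i, ∑ j, if i.1 = j.1 then I i j else 0 := by
      rw [Fintype.sum_prod_type]
      refine sum_congr rfl fun a _ => ?_
      simp only [Fintype.sum_prod_type, hI, map_sum, sum_mul_sum]
      rw [sum_comm]
      refine sum_congr rfl fun η _ => ?_
      rw [sum_comm, sum_comm (s := (univ : Finset α))]
      refine sum_congr rfl fun η' _ => ?_
      rw [sum_ite_eq, if_pos (mem_univ _), mul_sum]
      refine sum_congr rfl fun w _ => ?_
      have := e_mul_conj (Q a w)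
      rw [map_mul, e_neg, e_add, e_add, map_mul]
      linear_combination (-(c (a, η) * conj (c (a, η')) * e (pr η w) * conj (e (pr η' w)))) * this
    have e4 : ‖∑ i, ∑ j, if i.1 = j.1 then 0 else I i j‖ ≤ W.card := by
      calc _ ≤ ∑ i, ∑ j, ‖c i‖ * ‖c j‖ * (k ^ 2 * W.card) :=
            (norm_sum_le _ _).trans (sum_le_sum fun i _ => (norm_sum_le _ _).trans
              (sum_le_sum fun j _ => by
                split_ifs with h
                · rw [norm_zero]; positivity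
                · rw [hI, norm_mul, norm_mul, RCLike.norm_conj]
                  exact mul_le_mul_of_nonneg_left (off i j h) (by positivity)))
        _ = (∑ i, ‖c i‖) ^ 2 * (k ^ 2 * W.card) := by
            rw [sq (∑ i, ‖c i‖), sum_mul_sum, sum_mul]
            exact sum_congr rfl fun i _ => by rw [sum_mul]
        _ ≤ (1 / k) ^ 2 * (k ^ 2 * W.card) := by gcongr
        _ = _ := by field_simp
    have e5 : (∑ i, ∑ j, if i.1 = j.1 then I i j else 0) =
        ∑ i, ∑ j, I i j - ∑ i, ∑ j, if i.1 = j.1 then 0 else I i j := by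
      rw [← sum_sub_distrib]
      refine sum_congr rfl fun i _ => ?_
      rw [← sum_sub_distrib]
      exact sum_congr rfl fun j _ => by split_ifs <;> simp
    simp only [sum_norm_sq_eq] at e1 ⊢
    rw [← Complex.re_sum, e3, e5, ← e2, Complex.sub_re]
    linarith [(abs_le.1 ((Complex.abs_re_le_norm _).trans e4)).1]
  · have e1 : ∑ w ∈ W, (g w * e (-Q a w) - ∑ η, c (a, η) * e (pr η w)) * e (-pr η w) =
        ∑ w ∈ W, (g w - ∑ i : α × ZMod N, c i * e (Q i.1 w + pr i.2 w)) * e (-(Q a w + pr η w)) +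
        ∑ i : α × ZMod N, if i.1 = a then 0 else
          c i * ∑ w ∈ W, e (Q i.1 w + pr i.2 w) * e (-(Q a w + pr η w)) := by
      have : ∀ i : α × ZMod N, (if i.1 = a then 0 else
          c i * ∑ w ∈ W, e (Q i.1 w + pr i.2 w) * e (-(Q a w + pr η w))) = ∑ w ∈ W,
          (c i * e (Q i.1 w + pr i.2 w) - if i.1 = a then c i * e (Q a w + pr i.2 w) else 0) *
            e (-(Q a w + pr η w)) := fun i => by
        split_ifs with h
        · simp [h]
        · simp [mul_sum, mul_assoc]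
      simp only [this]
      rw [sum_comm, ← sum_add_distrib]
      refine sum_congr rfl fun w _ => ?_
      rw [← sum_mul, sum_sub_distrib, ← add_mul, sub_add_sub_cancel, Fintype.sum_prod_type,
        sum_comm]
      simp only [sum_ite_eq', mem_univ, if_true, e_add, neg_add, e_neg]
      have := e_mul_conj (Q a w)
      rw [show ∑ x, c (a, x) * (e (Q a w) * e (pr x w)) =
        e (Q a w) * ∑ x, c (a, x) * e (pr x w) by rw [mul_sum]; exact sum_congr rfl fun _ _ => by ring]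
      linear_combination ((∑ x, c (a, x) * e (pr x w)) * conj (e (pr η w))) * this
    rw [e1]
    refine (norm_add_le _ _).trans ?_
    have e2 : ‖∑ i : α × ZMod N, if i.1 = a then 0 else
        c i * ∑ w ∈ W, e (Q i.1 w + pr i.2 w) * e (-(Q a w + pr η w))‖ ≤ k * W.card := by
      calc _ ≤ ∑ i, ‖c i‖ * (k ^ 2 * W.card) := (norm_sum_le _ _).trans (sum_le_sum fun i _ => by
              split_ifs with h
              · rw [norm_zero]; positivity
              · rw [norm_mul]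
                exact mul_le_mul_of_nonneg_left (off i (a, η) h) (by positivity))
        _ ≤ 1 / k * (k ^ 2 * W.card) := by rw [← sum_mul]; gcongr
        _ = _ := by field_simp
    linarith [h3 (a, η)]

/-- the linear lemma -/
lemma linear (F p : ZMod N → ℂ) (W W' X : Finset (ZMod N)) (hW' : W'.Nonempty) {κ m : ℝ}
    (hκ : 0 ≤ κ) (hs : ∀ ξ, κ * X.card ≤ ‖∑ x ∈ X, e (pr ξ x)‖ → ∀ w ∈ W', ‖pr ξ w‖ ≤ 1 / 70)
    (hm : ∀ η, ∑ u, ‖cor F W' (fun w => e (pr η w)) u‖ ^ 2 ≤ m * (W'.card : ℝ) ^ 2) :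
    ∑ t ∈ X, ‖cor F W p t‖ ^ 2 ≤
      X.card * (∑ w ∈ W, ‖p w‖ ^ 2) * (κ * ∑ x, ‖F x‖ ^ 2 + 5 / 4 * m) := by
  classical
  have hN : (0 : ℝ) < N := N_pos
  have hW : (0 : ℝ) < W'.card := Nat.cast_pos.2 hW'.card_pos
  set x : ZMod N → ℝ := fun η => ‖ft F η‖ with hx
  set y : ZMod N → ℝ := fun η => ‖∑ w ∈ W, p w * e (-pr η w)‖ with hy
  set Sp : ZMod N → Prop := fun ξ => κ * X.card ≤ ‖∑ x ∈ X, e (pr ξ x)‖ with hSp
  have symm : ∀ η η', Sp (η - η') → Sp (η' - η) := fun η η' h => by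
    simp only [hSp] at h ⊢
    rwa [← neg_sub, ← RCLike.norm_conj, map_sum, sum_congr rfl fun x _ => by
      rw [pr_neg_left, e_neg, Complex.conj_conj]]
  have hy2 : ∑ η, y η ^ 2 = N * ∑ w ∈ W, ‖p w‖ ^ 2 := by
    have h := parseval fun w => if w ∈ W then p w else 0
    have h2 : ∀ η, ‖ft (fun w => if w ∈ W then p w else 0) η‖ = (N : ℝ)⁻¹ * y η := fun η => by
      simp only [ft, hy, ite_mul, zero_mul, norm_mul, norm_inv, Complex.norm_natCast]
      rw [← sum_filter, filter_mem_eq_inter, univ_inter]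
    have h3 : ∑ w, ‖if w ∈ W then p w else 0‖ ^ 2 = ∑ w ∈ W, ‖p w‖ ^ 2 := by
      simp only [apply_ite norm, norm_zero, ite_pow, ne_eq, OfNat.ofNat_ne_zero,
        not_false_eq_true, zero_pow]
      rw [← sum_filter, filter_mem_eq_inter, univ_inter]
    simp only [h2, h3, mul_pow, ← mul_sum] at h
    field_simp at h ⊢
    linarith
  have hx2 : ∑ η, x η ^ 2 = (N : ℝ)⁻¹ * ∑ x, ‖F x‖ ^ 2 := parseval F
  have hx3 : ∀ η, N * ∑ η', (if Sp (η - η') then x η' ^ 2 else 0) ≤ 5 / 4 * m := fun η => by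
    have h := (cor_lower F W' (univ.filter fun η' => Sp (η - η')) η
      fun η' h => hs _ (mem_filter.1 h).2).trans (hm η)
    rw [← sum_filter]
    have h0 : 0 ≤ N * ∑ η' ∈ univ.filter fun η' => Sp (η - η'), x η' ^ 2 := by positivity
    have h1 : (0 : ℝ) < (W'.card : ℝ) ^ 2 := by positivity
    refine le_of_mul_le_mul_right ?_ h1
    nlinarith [mul_nonneg h0 h1.le]
  have hz : ∀ η, ‖ft (cor F W p) η‖ = x η * y η := fun η => by
    rw [show ft (cor F W p) η = _ from ft_corr F W p η, norm_mul, RCLike.norm_conj]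
  have e1 : ∑ t ∈ X, cor F W p t * conj (cor F W p t) = ∑ η, ∑ η',
      ft (cor F W p) η * conj (ft (cor F W p) η') * ∑ t ∈ X, e (pr (η - η') t) := by
    simp only [mul_sum]
    rw [sum_congr rfl fun t _ => by rw [ft_inv (cor F W p) t, map_sum, sum_mul_sum], sum_comm]
    refine sum_congr rfl fun η _ => ?_
    rw [sum_comm]
    refine sum_congr rfl fun η' _ => sum_congr rfl fun t _ => ?_
    rw [pr_sub_left, e_sub, map_mul]; ring
  have hX : (0 : ℝ) ≤ X.card := Nat.cast_nonneg _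
  have e2 : ∑ t ∈ X, ‖cor F W p t‖ ^ 2 ≤ ∑ η, ∑ η', X.card * (κ * (x η * y η * (x η' * y η')) +
      ((if Sp (η - η') then y η ^ 2 * x η' ^ 2 else 0) +
        if Sp (η' - η) then y η' ^ 2 * x η ^ 2 else 0) / 2) := by
    rw [sum_norm_sq_eq, e1]
    refine (Complex.re_le_norm _).trans ((norm_sum_le _ _).trans (sum_le_sum fun η _ =>
      (norm_sum_le _ _).trans (sum_le_sum fun η' _ => ?_)))
    rw [norm_mul, norm_mul, RCLike.norm_conj, hz, hz]
    have h0 : 0 ≤ x η * y η * (x η' * y η') := by simp only [hx, hy]; positivity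
    by_cases h : Sp (η - η')
    · rw [if_pos h, if_pos (symm _ _ h)]
      have h1 : ‖∑ t ∈ X, e (pr (η - η') t)‖ ≤ X.card :=
        (norm_sum_le _ _).trans (by simp)
      nlinarith [mul_le_mul_of_nonneg_left h1 h0, mul_nonneg hX (mul_nonneg hκ h0),
        mul_nonneg hX (sq_nonneg (y η * x η' - y η' * x η))]
    · rw [if_neg h, if_neg fun h' => h (symm _ _ h')]
      nlinarith [mul_le_mul_of_nonneg_left (not_le.1 h).le h0]
  have e3 : ∑ η, ∑ η', (if Sp (η - η') then y η ^ 2 * x η' ^ 2 else 0) ≤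
      (∑ w ∈ W, ‖p w‖ ^ 2) * (5 / 4 * m) := by
    calc _ ≤ ∑ η, y η ^ 2 * ((N : ℝ)⁻¹ * (5 / 4 * m)) := sum_le_sum fun η _ => by
          rw [sum_congr rfl fun η' _ => show (if Sp (η - η') then y η ^ 2 * x η' ^ 2 else 0) =
            y η ^ 2 * (if Sp (η - η') then x η' ^ 2 else 0) by split_ifs <;> simp, ← mul_sum]
          refine mul_le_mul_of_nonneg_left ?_ (sq_nonneg _)
          rw [← div_eq_inv_mul, le_div_iff₀ hN, mul_comm]
          exact hx3 η
      _ = _ := by rw [← sum_mul, hy2]; field_simp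
  have e4 : ∑ η, ∑ η', x η * y η * (x η' * y η') ≤ (∑ w ∈ W, ‖p w‖ ^ 2) * ∑ x, ‖F x‖ ^ 2 := by
    rw [← sum_mul_sum, ← sq]
    refine (sum_mul_sq_le_sq_mul_sq _ _ _).trans (le_of_eq ?_)
    rw [hx2, hy2]; field_simp
  have e5 : ∑ η, ∑ η', (if Sp (η' - η) then y η' ^ 2 * x η ^ 2 else 0) ≤
      (∑ w ∈ W, ‖p w‖ ^ 2) * (5 / 4 * m) := by rw [sum_comm]; exact e3
  have e6 : ∀ u v w : ZMod N → ZMod N → ℝ, ∑ η, ∑ η', X.card * (κ * u η η' + (v η η' + w η η') / 2) =
      X.card * (κ * ∑ η, ∑ η', u η η' + (∑ η, ∑ η', v η η' + ∑ η, ∑ η', w η η') / 2) :=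
    fun u v w => by simp only [← mul_sum, sum_add_distrib, ← sum_div]
  refine e2.trans ?_
  rw [e6, mul_assoc]
  refine mul_le_mul_of_nonneg_left ?_ hX
  linarith [mul_le_mul_of_nonneg_left e4 hκ]

end Pool.Agent.Tri.End
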