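import Pool.Agent.Lib.MP_9721b5_an.Tri.End1

/-!
The four steps of the end game, for an abstract finite family of phases.
-/

set_option autoImplicit false

open Finset ComplexConjugate

namespace Pool.Agent.Tri.End

variable {N : ℕ}

/-- a translate of `f` twisted by a phase -/
noncomputable def tw (f : ZMod N → ℂ) (z : ZMod N) (q : ZMod N → T) (u : ZMod N) : ℂ :=
  f (z + u) * e (-q u)

lemma norm_tw_le {f : ZMod N → ℂ} (hf : ∀ x, ‖f x‖ ≤ 1) (z : ZMod N) (q : ZMod N → T)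
    (u : ZMod N) : ‖tw f z q u‖ ≤ 1 := by
  rw [tw, norm_mul, norm_e, mul_one]; exact hf _

lemma norm_cor_le {F g : ZMod N → ℂ} (hF : ∀ x, ‖F x‖ ≤ 1) (hg : ∀ x, ‖g x‖ ≤ 1)
    (S : Finset (ZMod N)) (v : ZMod N) : ‖cor F S g v‖ ≤ S.card := by
  calc _ ≤ ∑ w ∈ S, (1 : ℝ) := (norm_sum_le _ _).trans (sum_le_sum fun w _ => by
        rw [norm_mul, RCLike.norm_conj]
        exact mul_le_one₀ (hF _) (norm_nonneg _) (hg _))
    _ = _ := by simp

lemma stepC (R O V : Finset (ZMod N)) (hO' : O.Nonempty) (G : ZMod N → ℝ) {M γ : ℝ} (hM : 0 < M)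
    (hγ : 0 ≤ γ) (hG : ∀ v ∈ R, G v ≤ 5 * M) (h : γ / 6 * M * R.card ≤ ∑ v ∈ R, G v)
    (hO : ∀ v ∈ R, ∀ t ∈ V, v - t ∈ O) :
    ∃ v0, ∃ X ⊆ V, γ / 60 * R.card * V.card ≤ O.card * X.card ∧
      ∀ t ∈ X, v0 + t ∈ R ∧ γ / 12 * M ≤ G (v0 + t) := by
  classical
  have h1 := cnt_rev_markov R G (a := γ / 12 * M) (b := 5 * M) (by positivity) hG (by positivity)
  rw [cnt_eq_card, div_le_iff₀ (by positivity)] at h1
  set R2 := R.filter fun v => γ / 12 * M ≤ G v with hR2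
  have h2 : γ / 60 * R.card ≤ R2.card := by
    refine le_of_mul_le_mul_right ?_ hM
    linarith
  have h3 : ∑ _v ∈ O, γ / 60 * R.card * V.card ≤
      ∑ v ∈ O, (O.card : ℝ) * (V.filter fun t => v + t ∈ R2).card := by
    rw [sum_const, nsmul_eq_mul, ← mul_sum]
    refine mul_le_mul_of_nonneg_left ?_ (Nat.cast_nonneg _)
    simp only [card_filter, Nat.cast_sum]
    rw [sum_comm]
    calc _ ≤ ∑ t ∈ V, (R2.card : ℝ) := by
          rw [sum_const, nsmul_eq_mul, mul_comm]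
          exact mul_le_mul_of_nonneg_left h2 (Nat.cast_nonneg _)
      _ ≤ _ := sum_le_sum fun t ht => by
          rw [← Nat.cast_sum, ← card_filter, Nat.cast_le]
          refine card_le_card_of_injOn (fun v => v - t) (fun v hv => ?_) fun a _ b _ h => by
            simpa using h
          simp only [coe_filter, Set.mem_ofPred_eq, sub_add_cancel]
          exact ⟨hO v (mem_filter.1 hv).1 t ht, hv⟩
  obtain ⟨v0, -, h4⟩ := exists_le_of_sum_le hO' h3
  exact ⟨v0, _, filter_subset _ _, h4, fun t ht => mem_filter.1 (mem_filter.1 ht).2⟩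

variable [NeZero N]

lemma stepA {α : Type*} [Fintype α] {f : ZMod N → ℂ} (hf : ∀ x, ‖f x‖ ≤ 1)
    (W S : Finset (ZMod N)) (h0 v : ZMod N) (ξ : α → ZMod N) (Q : α → ZMod N → T) {γ δ : ℝ}
    (mass : γ ≤ ∑ η ∈ S, mm f (h0 + v) η)
    (cover : ∀ η ∈ S, ∃ a, ∀ w ∈ W, ‖pr (ξ a - η) w‖ ≤ 1 / 70)
    (approx : ∀ a, ∀ w ∈ W, ‖pr (ξ a) w - (Q a (v + w) - Q a v - Q a w)‖ ≤ δ)
    (num : 14 * δ * Fintype.card α ≤ 31 / 100 * γ) :
    γ / 2 * N * (W.card : ℝ) ^ 2 ≤
      ∑ y, ∑ a, ‖cor (tw f (y + h0) (Q a)) W (tw f y (Q a)) v‖ ^ 2 := by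
  classical
  have hN : (0 : ℝ) < N := N_pos
  set H : α → Finset (ZMod N) := fun a => univ.filter fun η => ∀ w ∈ W, ‖pr (ξ a - η) w‖ ≤ 1 / 70
    with hH
  have mm0 : ∀ η, 0 ≤ mm f (h0 + v) η := fun η => sq_nonneg _
  have h1 : γ ≤ ∑ a, ∑ η ∈ H a, ‖ft (dd f (h0 + v)) η‖ ^ 2 := by
    refine mass.trans ?_
    simp only [hH, sum_filter]
    rw [sum_comm]
    refine (sum_le_sum fun η hη => ?_).trans (sum_le_sum_of_subset_of_nonneg (subset_univ S)
      fun _ _ _ => sum_nonneg fun _ _ => by positivity)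
    obtain ⟨a, ha⟩ := cover η hη
    refine le_trans (le_of_eq ?_) (single_le_sum (fun _ _ => by positivity) (mem_univ a))
    rw [if_pos ha]; rfl
  have h2 : ∀ a y, ‖cor (dd f (h0 + v)) W (fun w => e (pr (ξ a) w)) y‖ ^ 2 ≤
      ‖cor (tw f (y + h0) (Q a)) W (tw f y (Q a)) v‖ ^ 2 + 14 * δ * (W.card : ℝ) ^ 2 := by
    intro a y
    have b1 := norm_cor_le (norm_dd_le hf (h0 + v)) (fun w => (norm_e (pr (ξ a) w)).le) W y
    have b2 := norm_cor_le (norm_tw_le hf (y + h0) (Q a)) (norm_tw_le hf y (Q a)) W v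
    have b3 : ‖cor (dd f (h0 + v)) W (fun w => e (pr (ξ a) w)) y -
        e (Q a v) * cor (tw f (y + h0) (Q a)) W (tw f y (Q a)) v‖ ≤ 7 * δ * W.card := by
      rw [cor, cor, mul_sum, ← sum_sub_distrib]
      calc _ ≤ ∑ w ∈ W, 7 * δ := (norm_sum_le _ _).trans (sum_le_sum fun w hw => by
            have : dd f (h0 + v) (y + w) * conj (e (pr (ξ a) w)) - e (Q a v) *
                (tw f (y + h0) (Q a) (v + w) * conj (tw f y (Q a) w)) = dd f (h0 + v) (y + w) *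
                conj (e (pr (ξ a) w) - e (Q a (v + w) - Q a v - Q a w)) := by
              simp only [dd, tw, map_mul, map_sub, e_sub, e_neg, Complex.conj_conj]
              rw [show y + h0 + (v + w) = y + w + (h0 + v) by ring]
              ring
            rw [this, norm_mul, RCLike.norm_conj]
            refine (mul_le_of_le_one_left (norm_nonneg _) (norm_dd_le hf _ _)).trans
              ((norm_e_sub_e _ _).trans ?_)
            linarith [approx a w hw])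
        _ = _ := by rw [sum_const, nsmul_eq_mul, mul_comm]
    have b4 := (norm_sub_norm_le _ _).trans b3
    rw [norm_mul, norm_e, one_mul] at b4
    have b5 := (norm_nonneg _).trans b3
    set x := ‖cor (dd f (h0 + v)) W (fun w => e (pr (ξ a) w)) y‖
    set z := ‖cor (tw f (y + h0) (Q a)) W (tw f y (Q a)) v‖
    have b6 : (x - z) * (x + z) ≤ 7 * δ * W.card * (x + z) :=
      mul_le_mul_of_nonneg_right b4 (by positivity)
    nlinarith [mul_le_mul_of_nonneg_left (add_le_add b1 b2) b5]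
  have h3 : 81 / 100 * (W.card : ℝ) ^ 2 * N * γ ≤
      ∑ a, ∑ y, ‖cor (dd f (h0 + v)) W (fun w => e (pr (ξ a) w)) y‖ ^ 2 := by
    refine (mul_le_mul_of_nonneg_left h1 (by positivity)).trans ?_
    rw [mul_sum]
    exact sum_le_sum fun a _ => cor_lower _ W (H a) (ξ a) fun η hη => (mem_filter.1 hη).2
  have h4 := h3.trans (sum_le_sum fun a _ => sum_le_sum fun y _ => h2 a y)
  simp only [sum_add_distrib, sum_const, card_univ, ZMod.card, nsmul_eq_mul] at h4
  rw [sum_comm]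
  nlinarith [mul_le_mul_of_nonneg_left num (show (0 : ℝ) ≤ N * (W.card : ℝ) ^ 2 by positivity)]

lemma stepB {α : Type*} [Fintype α] {f : ZMod N → ℂ} (hf : ∀ x, ‖f x‖ ≤ 1)
    (W R O : Finset (ZMod N)) (hW : W.Nonempty) (h0 : ZMod N) (Q : α → ZMod N → T) {γ k : ℝ}
    (hk : 0 < k)
    (unb : ∀ a a', a ≠ a' → ∀ η, ‖∑ w ∈ W, e (Q a w - Q a' w + pr η w)‖ ≤ k ^ 2 * W.card)
    (hO : ∀ v ∈ R, ∀ w ∈ W, v + w ∈ O)
    (ha : ∀ v ∈ R, γ / 2 * N * (W.card : ℝ) ^ 2 ≤
      ∑ y, ∑ a, ‖cor (tw f (y + h0) (Q a)) W (tw f y (Q a)) v‖ ^ 2)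
    (num : 48 * Fintype.card α * k ^ 2 * O.card ≤ γ * R.card) :
    ∃ P : ZMod N → α → ZMod N → ℂ, (∀ y, ∑ a, ∑ w ∈ W, ‖P y a w‖ ^ 2 ≤ 5 * W.card) ∧
      γ / 6 * (N * (W.card : ℝ) ^ 2) * R.card ≤
        ∑ v ∈ R, ∑ y, ∑ a, ‖cor (tw f (y + h0) (Q a)) W (P y a) v‖ ^ 2 := by
  classical
  choose P hP1 hP2 using fun y => decomp W hW Q hk unb (fun w => f (y + w)) fun w => hf _
  refine ⟨P, hP1, ?_⟩
  have h1 : ∀ y a, ∑ v ∈ R, ‖cor (tw f (y + h0) (Q a)) W (tw f y (Q a)) v‖ ^ 2 ≤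
      2 * ∑ v ∈ R, ‖cor (tw f (y + h0) (Q a)) W (P y a) v‖ ^ 2 +
        8 * k ^ 2 * (W.card : ℝ) ^ 2 * O.card := by
    intro y a
    have b1 := (cor_upper (fun x => if x ∈ O then tw f (y + h0) (Q a) x else 0) W
      (fun w => tw f y (Q a) w - P y a w) (hP2 y a)).trans (mul_le_mul_of_nonneg_left
        (sum_ind_le (norm_tw_le hf (y + h0) (Q a)) O) (sq_nonneg _))
    have b2 := (sum_le_sum_of_subset_of_nonneg (subset_univ R)
      fun _ _ _ => sq_nonneg _).trans b1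
    have b3 : ∀ v ∈ R, ‖cor (tw f (y + h0) (Q a)) W (tw f y (Q a)) v‖ ^ 2 ≤
        2 * ‖cor (tw f (y + h0) (Q a)) W (P y a) v‖ ^ 2 + 2 * ‖cor (fun x => if x ∈ O then
          tw f (y + h0) (Q a) x else 0) W (fun w => tw f y (Q a) w - P y a w) v‖ ^ 2 := by
      intro v hv
      have : cor (tw f (y + h0) (Q a)) W (tw f y (Q a)) v =
          cor (tw f (y + h0) (Q a)) W (P y a) v + cor (fun x => if x ∈ O then
          tw f (y + h0) (Q a) x else 0) W (fun w => tw f y (Q a) w - P y a w) v := by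
        rw [cor, cor, cor, ← sum_add_distrib]
        refine sum_congr rfl fun w hw => ?_
        rw [if_pos (hO v hv w hw), map_sub]; ring
      rw [this]
      refine (pow_le_pow_left₀ (norm_nonneg _) (norm_add_le _ _) 2).trans ?_
      nlinarith [sq_nonneg (‖cor (tw f (y + h0) (Q a)) W (P y a) v‖ - ‖cor (fun x => if x ∈ O then
          tw f (y + h0) (Q a) x else 0) W (fun w => tw f y (Q a) w - P y a w) v‖)]
    have b4 := sum_le_sum b3
    rw [sum_add_distrib, ← mul_sum, ← mul_sum] at b4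
    nlinarith
  have h2 := sum_le_sum ha
  rw [sum_comm, sum_congr rfl fun y _ => sum_comm] at h2
  have h3 := h2.trans (sum_le_sum fun y _ => sum_le_sum fun a _ => h1 y a)
  simp only [sum_add_distrib, sum_const, card_univ, ZMod.card, nsmul_eq_mul, ← mul_sum] at h3
  rw [sum_comm, sum_congr rfl fun y _ => sum_comm]
  nlinarith [mul_le_mul_of_nonneg_left num (show (0 : ℝ) ≤ N * (W.card : ℝ) ^ 2 by positivity)]

lemma stepD {α : Type*} [Fintype α] {f : ZMod N → ℂ} (hf : ∀ x, ‖f x‖ ≤ 1)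
    (W W' X D I O : Finset (ZMod N)) (hW : W.Nonempty) (hW' : W'.Nonempty) (hX : X.Nonempty)
    (h0 v0 : ZMod N) (Q : α → ZMod N → T) (P : ZMod N → α → ZMod N → ℂ) (B : ZMod N → ℝ)
    {γ s : ℝ} (hγ : 0 ≤ γ) (hs0 : 0 ≤ s) (hs : s ≤ 1) (hI : I ⊆ W) (hIO : I ⊆ O)
    (hO : (O.card : ℝ) ≤ (1 + s) * I.card) (hD : D ⊆ O) (hXD : ∀ t ∈ X, ∀ w ∈ W, t + w ∈ D)
    (hID : ∀ u ∈ I, ∀ w ∈ W', u + w ∈ D) (hDO : ∀ u, ∀ w ∈ W', u + w ∈ D → u ∈ O)
    (hP : ∀ y, ∑ a, ∑ w ∈ W, ‖P y a w‖ ^ 2 ≤ 5 * W.card)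
    (hG : ∀ t ∈ X, γ / 12 * (N * (W.card : ℝ) ^ 2) ≤
      ∑ y, ∑ a, ‖cor (tw f (y + h0) (Q a)) W (P y a) (v0 + t)‖ ^ 2)
    (hsp : ∀ ξ, γ / 240 * X.card ≤ ‖∑ x ∈ X, e (pr ξ x)‖ → ∀ w ∈ W', ‖pr ξ w‖ ≤ 1 / 70)
    (hB0 : ∀ z, 0 ≤ B z)
    (hB : ∀ z a η, ∀ u ∈ I, ‖∑ w ∈ W', f (z + w) * e (-(Q a (v0 + u + w) + pr η w))‖ ^ 2 ≤ B z) :
    (γ / 150 - s) * N * (W'.card : ℝ) ^ 2 ≤ ∑ z, B z := by
  classical
  have hw : (0 : ℝ) < W.card := Nat.cast_pos.2 hW.card_pos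
  have hw' : (0 : ℝ) < W'.card := Nat.cast_pos.2 hW'.card_pos
  have hx : (0 : ℝ) < X.card := Nat.cast_pos.2 hX.card_pos
  have hi : (I.card : ℝ) ≤ W.card := Nat.cast_le.2 (card_le_card hI)
  have hi0 : (0 : ℝ) ≤ I.card := Nat.cast_nonneg _
  set F : ZMod N → α → ZMod N → ℂ := fun y a u =>
    if u ∈ D then tw f (y + h0) (Q a) (v0 + u) else 0 with hF
  set m : ZMod N → ℝ := fun y => (∑ u ∈ I, B (y + h0 + v0 + u)) / (W'.card : ℝ) ^ 2 + s * W.card
    with hm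
  have m0 : ∀ y, 0 ≤ m y := fun y => by
    have := sum_nonneg fun u (_ : u ∈ I) => hB0 (y + h0 + v0 + u)
    simp only [hm]; positivity
  have F1 : ∀ y a u, ‖F y a u‖ ≤ 1 := fun y a u => by
    simp only [hF]; split_ifs
    · exact norm_tw_le hf _ _ _
    · simp
  have F2 : ∀ y a, ∑ u, ‖F y a u‖ ^ 2 ≤ 2 * W.card := fun y a => by
    refine (sum_ind_le (F := fun u => tw f (y + h0) (Q a) (v0 + u))
      (fun u => norm_tw_le hf _ _ _) D).trans ?_
    have : (D.card : ℝ) ≤ O.card := Nat.cast_le.2 (card_le_card hD)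
    nlinarith
  have F3 : ∀ y a η, ∑ u, ‖cor (F y a) W' (fun w => e (pr η w)) u‖ ^ 2 ≤
      m y * (W'.card : ℝ) ^ 2 := by
    intro y a η
    rw [← sum_subset (subset_univ O) fun u _ hu => by
      rw [cor, sum_eq_zero fun w hw => by
        simp only [hF]; rw [if_neg fun h => hu (hDO u w hw h), zero_mul]]
      simp, ← sum_sdiff hIO]
    have b1 : ∑ u ∈ O \ I, ‖cor (F y a) W' (fun w => e (pr η w)) u‖ ^ 2 ≤
        s * W.card * (W'.card : ℝ) ^ 2 := by
      calc _ ≤ ∑ u ∈ O \ I, (W'.card : ℝ) ^ 2 := sum_le_sum fun u _ => pow_le_pow_left₀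
            (norm_nonneg _) (norm_cor_le (F1 y a) (fun w => (norm_e _).le) _ _) 2
        _ ≤ _ := by
          rw [sum_const, nsmul_eq_mul, card_sdiff_of_subset hIO, Nat.cast_sub (card_le_card hIO)]
          refine mul_le_mul_of_nonneg_right ?_ (by positivity)
          nlinarith
    have b2 : ∑ u ∈ I, ‖cor (F y a) W' (fun w => e (pr η w)) u‖ ^ 2 ≤
        ∑ u ∈ I, B (y + h0 + v0 + u) := sum_le_sum fun u hu => by
      refine le_trans (le_of_eq ?_) (hB (y + h0 + v0 + u) a η u hu)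
      congr 2
      refine sum_congr rfl fun w hw => ?_
      simp only [hF, tw]
      rw [if_pos (hID u hu w hw), neg_add, e_add, e_neg (pr η w), mul_assoc, ← add_assoc v0,
        show y + h0 + (v0 + u + w) = y + h0 + v0 + u + w by ring]
    simp only [hm]
    rw [add_mul, div_mul_cancel₀ _ (by positivity)]
    linarith
  have h1 : ∀ y, ∑ a, ∑ t ∈ X, ‖cor (tw f (y + h0) (Q a)) W (P y a) (v0 + t)‖ ^ 2 ≤
      X.card * (5 * W.card) * (γ / 240 * (2 * W.card) + 5 / 4 * m y) := by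
    intro y
    have b0 : 0 ≤ γ / 240 * (2 * W.card) + 5 / 4 * m y := by have := m0 y; positivity
    calc _ ≤ ∑ a, X.card * (∑ w ∈ W, ‖P y a w‖ ^ 2) * (γ / 240 * (2 * W.card) + 5 / 4 * m y) := by
          refine sum_le_sum fun a _ => ?_
          have b1 := linear (F y a) (P y a) W W' X hW' (by positivity) hsp (F3 y a)
          refine le_trans (le_of_eq (sum_congr rfl fun t ht => ?_)) (b1.trans ?_)
          · congr 2
            refine sum_congr rfl fun w hw => ?_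
            simp only [hF]
            rw [if_pos (hXD t ht w hw), add_assoc]
          · have := F2 y a
            gcongr
      _ ≤ _ := by
          rw [← sum_mul, ← mul_sum]
          have := hP y
          gcongr
  have h2 := sum_le_sum hG
  rw [sum_comm, sum_congr rfl fun y _ => sum_comm] at h2
  have h3 := h2.trans (sum_le_sum fun y _ => h1 y)
  have h4 : ∑ y, m y = I.card * (∑ z, B z) / (W'.card : ℝ) ^ 2 + N * (s * W.card) := by
    simp only [hm, sum_add_distrib, sum_const, card_univ, ZMod.card, nsmul_eq_mul, ← sum_div]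
    rw [sum_comm, sum_congr rfl fun u _ => show ∑ y, B (y + h0 + v0 + u) = ∑ z, B z from
      Fintype.sum_equiv (Equiv.addRight (h0 + v0 + u)) _ _ fun y => by
        simp only [Equiv.coe_addRight, add_assoc], sum_const, nsmul_eq_mul]
  simp only [sum_add_distrib, sum_const, card_univ, ZMod.card, nsmul_eq_mul, ← mul_sum, h4] at h3
  have h5 : I.card * (∑ z, B z) / (W'.card : ℝ) ^ 2 ≤
      W.card * ((∑ z, B z) / (W'.card : ℝ) ^ 2) := by
    rw [mul_div_assoc]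
    exact mul_le_mul_of_nonneg_right hi (by have := sum_nonneg fun z (_ : z ∈ univ) => hB0 z
                                            positivity)
  rw [← le_div_iff₀ (by positivity)]
  refine le_of_mul_le_mul_left ?_ (show 0 < X.card * (5 * W.card) * (5 / 4 * (W.card : ℝ)) by
    positivity)
  nlinarith [mul_le_mul_of_nonneg_left h5 (show 0 ≤ X.card * (5 * W.card) * (5 / 4 : ℝ) by
    positivity)]

end Pool.Agent.Tri.End
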