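import Pool.Agent.Lib.MP_9721b5_an.Tri.SBase0

/-!
Tilings by fine shifts.
-/

set_option autoImplicit false

open Finset Real

namespace Pool.Agent.Tri

lemma Tile.sum_Icc_range {M : Type*} [AddCommMonoid M] (f : ℤ → M) (N : ℕ) :
    ∑ n ∈ Icc (1 : ℤ) N, f n = ∑ i ∈ range N, f ((i : ℤ) + 1) := by
  induction N with
  | zero => simp
  | succ N ih =>
    rw [sum_range_succ, ← ih]
    have : Icc (1 : ℤ) ((N + 1 : ℕ) : ℤ) = insert ((N : ℤ) + 1) (Icc (1 : ℤ) N) := by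
      ext x
      simp only [mem_Icc, mem_insert]
      push_cast
      omega
    rw [this, sum_insert (by simp), add_comm]

lemma Tile.card_Icc_one (N : ℕ) : (Icc (1 : ℤ) N).card = N := by
  simp

lemma Tile.shift_one {F : ℤ → ℂ} (hF : ∀ n, ‖F n‖ ≤ 1) (N : ℕ) :
    ‖∑ n ∈ Icc (1 : ℤ) N, F (n + 1) - ∑ n ∈ Icc (1 : ℤ) N, F n‖ ≤ 2 := by
  rw [← sum_sub_distrib, Tile.sum_Icc_range (fun n => F (n + 1) - F n)]
  have := Finset.sum_range_sub (fun i : ℕ => F ((i : ℤ) + 1)) N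
  push_cast at this
  rw [this]
  refine (norm_sub_le _ _).trans ?_
  linarith [hF ((N : ℤ) + 1), hF 1]

lemma Tile.shift_nat {F : ℤ → ℂ} (hF : ∀ n, ‖F n‖ ≤ 1) (N m : ℕ) :
    ‖∑ n ∈ Icc (1 : ℤ) N, F (n + m) - ∑ n ∈ Icc (1 : ℤ) N, F n‖ ≤ 2 * m := by
  induction m with
  | zero => simp
  | succ m ih =>
    have h1 := Tile.shift_one (F := fun n => F (n + m)) (fun n => hF _) N
    have h2 : ∑ n ∈ Icc (1 : ℤ) N, F (n + ((m + 1 : ℕ) : ℤ)) =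
        ∑ n ∈ Icc (1 : ℤ) N, F (n + 1 + m) :=
      sum_congr rfl fun n _ => by congr 1; push_cast; ring
    rw [h2]
    have h3 := norm_sub_le_norm_sub_add_norm_sub (∑ n ∈ Icc (1 : ℤ) N, F (n + 1 + m))
      (∑ n ∈ Icc (1 : ℤ) N, F (n + m)) (∑ n ∈ Icc (1 : ℤ) N, F n)
    push_cast
    linarith

lemma sum_shift_le {F : ℤ → ℂ} (hF : ∀ n, ‖F n‖ ≤ 1) (N : ℕ) (z : ℤ) :
    ‖∑ n ∈ Icc (1 : ℤ) N, F (n + z) - ∑ n ∈ Icc (1 : ℤ) N, F n‖ ≤ 2 * |(z : ℝ)| := by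
  obtain ⟨m, rfl | rfl⟩ := Int.eq_nat_or_neg z
  · simpa using Tile.shift_nat hF N m
  · have h1 := Tile.shift_nat (F := fun n => F (n + -(m : ℤ))) (fun n => hF _) N m
    have h2 : ∑ n ∈ Icc (1 : ℤ) N, F (n + m + -(m : ℤ)) = ∑ n ∈ Icc (1 : ℤ) N, F n :=
      sum_congr rfl fun n _ => by congr 1; ring
    rw [h2, norm_sub_rev] at h1
    simpa using h1

open Classical in
/-- local averaging: the partial sum over `R` is controlled by the alive points -/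
lemma avg_bound {ψ : ℤ → T} {R B : ℤ → Prop} {S : Finset ℤ} (hS : S.Nonempty) {N : ℕ} {g γ : ℝ}
    (hg : ∀ z ∈ S, |(z : ℝ)| ≤ g) (hγ : 0 ≤ γ)
    (hR : ∀ n ∈ Icc (1 : ℤ) N, ¬ B n → ∀ z ∈ S, (R (n + z) ↔ R n)) :
    ‖∑ n ∈ Icc (1 : ℤ) N, if R n then e (ψ n) else 0‖ ≤
      2 * g + cnt (Icc (1 : ℤ) N) B + γ * N + cnt (Icc (1 : ℤ) N)
        fun n => ¬ B n ∧ R n ∧ γ * S.card ≤ ‖∑ z ∈ S, e (ψ (n + z))‖ := by
  set G : ℤ → ℂ := fun n => if R n then e (ψ n) else 0 with hG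
  have hG1 : ∀ n, ‖G n‖ ≤ 1 := fun n => by
    simp only [hG]
    split_ifs <;> simp
  have hs : (0 : ℝ) < S.card := Nat.cast_pos.2 hS.card_pos
  have hloc : ∀ n, ‖∑ z ∈ S, G (n + z)‖ ≤ S.card := fun n =>
    (norm_sum_le _ _).trans (by simpa using sum_le_card_nsmul S _ 1 fun z _ => hG1 (n + z))
  set A : ℤ → Prop := fun n => ¬ B n ∧ R n ∧ γ * S.card ≤ ‖∑ z ∈ S, e (ψ (n + z))‖ with hA
  have hpt : ∀ n ∈ Icc (1 : ℤ) N, ‖∑ z ∈ S, G (n + z)‖ ≤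
      S.card * ((if B n then (1 : ℝ) else 0) + γ + if A n then (1 : ℝ) else 0) := by
    intro n hn
    have h0 := mul_nonneg hs.le hγ
    by_cases hB : B n
    · have := hloc n
      rw [if_pos hB]
      split_ifs <;> nlinarith
    by_cases hAn : A n
    · have := hloc n
      rw [if_neg hB, if_pos hAn]
      nlinarith
    rw [if_neg hB, if_neg hAn]
    by_cases hRn : R n
    · have h1 : ∑ z ∈ S, G (n + z) = ∑ z ∈ S, e (ψ (n + z)) :=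
        sum_congr rfl fun z hz => if_pos ((hR n hn hB z hz).2 hRn)
      have h2 : ¬ γ * S.card ≤ ‖∑ z ∈ S, e (ψ (n + z))‖ := fun h2 => hAn ⟨hB, hRn, h2⟩
      rw [h1]
      nlinarith [not_le.1 h2]
    · have h1 : ∑ z ∈ S, G (n + z) = 0 :=
        sum_eq_zero fun z hz => if_neg fun h2 => hRn ((hR n hn hB z hz).1 h2)
      rw [h1, norm_zero]
      nlinarith
  have h1 : ‖∑ n ∈ Icc (1 : ℤ) N, ∑ z ∈ S, G (n + z)‖ ≤
      S.card * (cnt (Icc (1 : ℤ) N) B + γ * N + cnt (Icc (1 : ℤ) N) A) := by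
    refine (norm_sum_le _ _).trans ((sum_le_sum hpt).trans (le_of_eq ?_))
    rw [← mul_sum, sum_add_distrib, sum_add_distrib, cnt_eq_sum, cnt_eq_sum, sum_const,
      Tile.card_Icc_one, nsmul_eq_mul, mul_comm (N : ℝ) γ]
    congr!
  have h2 : ‖∑ z ∈ S, (∑ n ∈ Icc (1 : ℤ) N, G (n + z) - ∑ n ∈ Icc (1 : ℤ) N, G n)‖ ≤
      S.card * (2 * g) := by
    refine (norm_sum_le _ _).trans ?_
    simpa using sum_le_card_nsmul S _ (2 * g) fun z hz =>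
      (sum_shift_le hG1 N z).trans (by linarith [hg z hz])
  rw [sum_sub_distrib, sum_comm, sum_const, nsmul_eq_mul] at h2
  have h3 := norm_sub_le_norm_sub_add_norm_sub ((S.card : ℂ) * ∑ n ∈ Icc (1 : ℤ) N, G n)
    (∑ n ∈ Icc (1 : ℤ) N, ∑ z ∈ S, G (n + z)) 0
  rw [sub_zero, sub_zero, norm_sub_rev, norm_mul, Complex.norm_natCast] at h3
  refine le_of_mul_le_mul_left ?_ hs
  nlinarith

namespace Cfg

variable {c : Cfg} {P : ℝ}

lemma OK.w_big (h : c.OK P) {w : ℕ} (hw : (Nk c.kb : ℝ) ≤ c.Q * w) : c.Q ≤ w := by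
  have h1 : ((c.Q : ℝ)) ^ 2 ≤ Nk c.kb := by exact_mod_cast h.Nk_kb
  have h2 := h.one_le_Q
  have h3 : (c.Q : ℝ) ≤ w := le_of_mul_le_mul_left (by nlinarith) (by linarith : (0 : ℝ) < c.Q)
  exact_mod_cast h3

/-- a fine shift near every point -/
lemma OK.near (h : c.OK P) {w : ℕ} (hw : (Nk c.kb : ℝ) ≤ c.Q * w) (τ : ℤ) :
    ∃ z : ℤ, |τ| ≤ 32 * 2 ^ c.kt → c.Fine z ∧ |z - τ| * c.Q ≤ w := by
  by_cases hτ : |τ| ≤ 32 * 2 ^ c.kt
  · obtain ⟨z, h1, h2⟩ := h.syn τ hτ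
    refine ⟨z, fun _ => ⟨h1, ?_⟩⟩
    have h3 := h.one_le_Q
    have h4 : |((z - τ : ℤ) : ℝ)| * c.Q ≤ w :=
      le_of_mul_le_mul_left (by nlinarith) (by linarith : (0 : ℝ) < c.Q)
    exact_mod_cast h4
  · exact ⟨0, fun h1 => absurd h1 hτ⟩

lemma OK.near8 (h : c.OK P) {w : ℕ} (hw : (Nk c.kb : ℝ) ≤ c.Q * w) (τ : ℤ) :
    ∃ z : ℤ, |τ| ≤ 32 * 2 ^ c.kt → c.Fine z ∧ |z - τ| ≤ ((w / 8 : ℕ) : ℤ) := by
  obtain ⟨z, hz⟩ := h.near hw τ
  refine ⟨z, fun hτ => ⟨(hz hτ).1, ?_⟩⟩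
  have h1 := (hz hτ).2
  have h2 : (8 : ℤ) ≤ c.Q := by have := h.Q_nat; omega
  have h3 : |z - τ| * 8 ≤ w := le_trans (mul_le_mul_of_nonneg_left h2 (abs_nonneg _)) h1
  omega

/-- many disjoint copies of a window inside a larger window -/
lemma OK.pack (h : c.OK P) {a a₀ : ℤ} {w w₀ : ℕ} {X X' : ℤ → Prop}
    (hw : (Nk c.kb : ℝ) ≤ c.Q * w) (hw₀ : 2 * w ≤ w₀ ∨ Ico a (a + w) ⊆ Ico a₀ (a₀ + w₀))
    (hr : |a₀ - a| + w₀ ≤ 32 * 2 ^ c.kt)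
    (hX : ∀ y ∈ Ico a (a + w), ∀ z, c.Fine z → X y → y + z ∈ Ico a₀ (a₀ + w₀) → X' (y + z)) :
    cnt (Ico a (a + w)) X * w₀ ≤ 4 * w * cnt (Ico a₀ (a₀ + w₀)) X' := by
  have hc := cnt_nonneg (Ico a (a + w)) X
  have hc' := cnt_nonneg (Ico a₀ (a₀ + w₀)) X'
  by_cases h2 : 2 * w ≤ w₀
  swap
  · have hsub := hw₀.resolve_left h2
    have h1 : cnt (Ico a (a + w)) X ≤ cnt (Ico a₀ (a₀ + w₀)) X' := by
      refine le_trans (cnt_mono fun y hy hXy => ?_) (cnt_subset hsub X')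
      have := hX y hy 0 h.Fine_zero hXy (by rw [add_zero]; exact hsub hy)
      rwa [add_zero] at this
    have h3 : (w₀ : ℝ) ≤ 4 * w := by exact_mod_cast (by omega : w₀ ≤ 4 * w)
    calc cnt (Ico a (a + w)) X * w₀ ≤ cnt (Ico a₀ (a₀ + w₀)) X' * (4 * w) :=
          mul_le_mul h1 h3 (Nat.cast_nonneg _) hc'
      _ = _ := by ring
  have hw0 : 0 < w := lt_of_lt_of_le h.pos (h.w_big hw)
  obtain ⟨d, hd⟩ : ∃ d, d = w / 8 := ⟨_, rfl⟩
  obtain ⟨l, hl⟩ : ∃ l, l = w + 2 * d := ⟨_, rfl⟩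
  obtain ⟨m, hm⟩ : ∃ m, m = w₀ / l := ⟨_, rfl⟩
  have hl0 : 0 < l := by omega
  have hml : l * m ≤ w₀ := by rw [hm]; exact Nat.mul_div_le _ _
  have hml' : w₀ < l * (m + 1) := by rw [hm]; exact Nat.lt_mul_div_succ _ hl0
  have hm1 : 1 ≤ m := by
    rw [hm]; exact (Nat.le_div_iff_mul_le hl0).2 (by omega)
  have hw4 : w₀ ≤ 4 * w * m := by
    have : l ≤ 2 * w := by omega
    nlinarith
  choose z hz using fun i : ℕ => h.near8 hw (a₀ + l * i + d - a)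
  rw [← hd] at hz
  have hz' : ∀ i ∈ range m, c.Fine (z i) ∧ ∀ y ∈ Ico a (a + w),
      a₀ + l * i ≤ y + z i ∧ y + z i < a₀ + l * (i + 1) := by
    intro i hi
    have hi' : (i : ℤ) + 1 ≤ m := by have := mem_range.1 hi; omega
    have h3 : (l : ℤ) * (i + 1) ≤ w₀ :=
      le_trans (mul_le_mul_of_nonneg_left hi' (by positivity)) (by exact_mod_cast hml)
    have h4 : (0 : ℤ) ≤ l * i := by positivity
    have h5 : (l : ℤ) = w + 2 * d := by exact_mod_cast hl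
    obtain ⟨h6, h7⟩ := hz i (by
      have h8 := le_abs_self (a₀ - a)
      have h9 := neg_abs_le (a₀ - a)
      rw [abs_le]
      constructor <;> nlinarith)
    refine ⟨h6, fun y hy => ?_⟩
    rw [abs_le] at h7
    rw [mem_Ico] at hy
    constructor <;> nlinarith
  have key : cnt (range m ×ˢ Ico a (a + w)) (fun p => X p.2) ≤ cnt (Ico a₀ (a₀ + w₀)) X' := by
    refine cnt_le_of_inj (fun p => p.2 + z p.1) (fun p hp hXp => ?_) fun p hp p' hp' _ _ hpp => ?_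
    · rw [mem_product] at hp
      obtain ⟨h3, h4⟩ := hz' p.1 hp.1
      obtain ⟨h5, h6⟩ := h4 p.2 hp.2
      have hi' : (p.1 : ℤ) + 1 ≤ m := by have := mem_range.1 hp.1; omega
      have h7 : (l : ℤ) * (p.1 + 1) ≤ w₀ :=
        le_trans (mul_le_mul_of_nonneg_left hi' (by positivity)) (by exact_mod_cast hml)
      have h8 : (0 : ℤ) ≤ l * p.1 := by positivity
      have h9 : p.2 + z p.1 ∈ Ico a₀ (a₀ + w₀) := mem_Ico.2 ⟨by linarith, by linarith⟩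
      exact ⟨h9, hX _ hp.2 _ h3 hXp h9⟩
    · rw [mem_product] at hp hp'
      obtain ⟨h5, h6⟩ := (hz' p.1 hp.1).2 p.2 hp.2
      obtain ⟨h7, h8⟩ := (hz' p'.1 hp'.1).2 p'.2 hp'.2
      have hl1 : (0 : ℤ) < l := by exact_mod_cast hl0
      have h9 : (p.1 : ℤ) < p'.1 + 1 := lt_of_mul_lt_mul_left (by linarith) hl1.le
      have h10 : (p'.1 : ℤ) < p.1 + 1 := lt_of_mul_lt_mul_left (by linarith) hl1.le
      have h11 : p.1 = p'.1 := by omega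
      rw [h11] at hpp
      exact Prod.ext h11 (add_right_cancel hpp)
  rw [cnt_product] at key
  simp only [sum_const, card_range, nsmul_eq_mul] at key
  have h3 : (w₀ : ℝ) ≤ 4 * w * m := by exact_mod_cast hw4
  calc cnt (Ico a (a + w)) X * w₀ ≤ cnt (Ico a (a + w)) X * (4 * w * m) :=
        mul_le_mul_of_nonneg_left h3 hc
    _ = 4 * w * (m * cnt (Ico a (a + w)) X) := by ring
    _ ≤ _ := mul_le_mul_of_nonneg_left key (by positivity)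

/-- few copies of a window cover a larger window -/
lemma OK.cover (h : c.OK P) {a a₀ : ℤ} {w w₀ : ℕ} {X X' : ℤ → Prop}
    (hw : (Nk c.kb : ℝ) ≤ c.Q * w) (hw₀ : w ≤ w₀) (hr : |a₀ - a| + 2 * w₀ ≤ 32 * 2 ^ c.kt)
    (hX : ∀ y ∈ Ico a₀ (a₀ + w₀), ∀ z, c.Fine z → X y → y + z ∈ Ico a (a + w) → X' (y + z)) :
    cnt (Ico a₀ (a₀ + w₀)) X * w ≤ 4 * w₀ * cnt (Ico a (a + w)) X' := by
  have hc' := cnt_nonneg (Ico a (a + w)) X'
  have hw0 : 0 < w := lt_of_lt_of_le h.pos (h.w_big hw)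
  obtain ⟨d, hd⟩ : ∃ d, d = w / 8 := ⟨_, rfl⟩
  obtain ⟨l, hl⟩ : ∃ l, w = l + 2 * d := ⟨w - 2 * d, by omega⟩
  obtain ⟨m, hm⟩ : ∃ m, m = w₀ / l := ⟨_, rfl⟩
  have hl0 : 0 < l := by omega
  have hml : l * m ≤ w₀ := by rw [hm]; exact Nat.mul_div_le _ _
  have hml' : w₀ < l * (m + 1) := by rw [hm]; exact Nat.lt_mul_div_succ _ hl0
  have hw4 : (m + 1) * w ≤ 4 * w₀ := by
    have : w ≤ 2 * l := by omega
    nlinarith
  choose z hz using fun i : ℕ => h.near8 hw (a + d - (a₀ + l * i))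
  rw [← hd] at hz
  have hidx : ∀ y ∈ Ico a₀ (a₀ + w₀), (y - a₀).toNat / l ∈ range (m + 1) ∧
      c.Fine (z ((y - a₀).toNat / l)) ∧ y + z ((y - a₀).toNat / l) ∈ Ico a (a + w) := by
    intro y hy
    rw [mem_Ico] at hy
    obtain ⟨u, hu⟩ : ∃ u : ℕ, y - a₀ = u := ⟨(y - a₀).toNat, by omega⟩
    rw [hu, Int.toNat_natCast]
    obtain ⟨i, hi⟩ : ∃ i, i = u / l := ⟨_, rfl⟩
    rw [← hi]
    have h1 : l * i ≤ u := by rw [hi]; exact Nat.mul_div_le _ _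
    have h2 : u < l * (i + 1) := by rw [hi]; exact Nat.lt_mul_div_succ _ hl0
    have h3 : i ≤ m := by rw [hi, hm]; exact Nat.div_le_div_right (by omega)
    have h1' : (l : ℤ) * i ≤ u := by exact_mod_cast h1
    have h2' : (u : ℤ) < l * i + l := by exact_mod_cast (by linarith : u < l * i + l)
    have h4 : (0 : ℤ) ≤ l * i := by positivity
    have h5 : (w : ℤ) = l + 2 * d := by exact_mod_cast hl
    have h6 : (w : ℤ) ≤ w₀ := by exact_mod_cast hw₀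
    obtain ⟨h7, h8⟩ := hz i (by
      have h8 := le_abs_self (a₀ - a)
      have h9 := neg_abs_le (a₀ - a)
      rw [abs_le]
      constructor <;> linarith)
    rw [abs_le] at h8
    exact ⟨mem_range.2 (by omega), h7, mem_Ico.2 ⟨by linarith, by linarith⟩⟩
  have key : cnt (Ico a₀ (a₀ + w₀)) X ≤ cnt (range (m + 1) ×ˢ Ico a (a + w)) (fun p => X' p.2) := by
    refine cnt_le_of_inj (fun y => ((y - a₀).toNat / l, y + z ((y - a₀).toNat / l)))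
      (fun y hy hXy => ?_) fun y _ y' _ _ _ hyy => ?_
    · obtain ⟨h1, h2, h3⟩ := hidx y hy
      exact ⟨mem_product.2 ⟨h1, h3⟩, hX y hy _ h2 hXy h3⟩
    · obtain ⟨h1, h2⟩ := Prod.ext_iff.1 hyy
      dsimp only at h1 h2
      rw [h1] at h2
      exact add_right_cancel h2
  rw [cnt_product] at key
  simp only [sum_const, card_range, nsmul_eq_mul] at key
  have h3 : (((m + 1 : ℕ) : ℝ)) * w ≤ 4 * w₀ := by exact_mod_cast hw4
  calc cnt (Ico a₀ (a₀ + w₀)) X * w ≤ (((m + 1 : ℕ) : ℝ) * cnt (Ico a (a + w)) X') * w :=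
        mul_le_mul_of_nonneg_right key (Nat.cast_nonneg _)
    _ = (((m + 1 : ℕ) : ℝ) * w) * cnt (Ico a (a + w)) X' := by ring
    _ ≤ _ := mul_le_mul_of_nonneg_right h3 hc'

lemma OK.tile_block (h : c.OK P) {F : ℤ → ℂ} (hF : ∀ n, ‖F n‖ ≤ 1) {B : ℤ → Prop} {N M : ℕ}
    {δ : ℝ} (hδ : 0 ≤ δ) (hM : (Nk c.kb : ℝ) ≤ 2 * c.Q * M) (hN : N ≤ 2 ^ c.kt)
    (hinv : ∀ n ∈ Icc (1 : ℤ) M, ¬ B n → ∀ z, c.Fine z → n + z ∈ Icc (1 : ℤ) N →
      ‖F (n + z) - F n‖ ≤ δ) {s : ℕ} (hs : s + M ≤ N) :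
    ‖∑ n ∈ Icc (1 : ℤ) M, F (n + s) - ∑ n ∈ Icc (1 : ℤ) M, F n‖ ≤
      δ * M + 2 * cnt (Icc (1 : ℤ) M) B + 12 * (c.q 1 * M) := by
  classical
  obtain ⟨z, hz⟩ := h.near (w := 2 * M) (by push_cast; linarith) (s : ℤ)
  obtain ⟨hz1, hz2⟩ := hz (by
    have h1 : (s : ℤ) ≤ 2 ^ c.kt := by exact_mod_cast (by omega : s ≤ 2 ^ c.kt)
    rw [abs_of_nonneg (by positivity)]
    linarith [Int.natCast_nonneg s])
  obtain ⟨d, hd⟩ : ∃ d : ℕ, |z - s| = d := ⟨(z - s).natAbs, (Int.natCast_natAbs _).symm⟩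
  have hd1 : (d : ℝ) ≤ 2 * (c.q 1 * M) := by
    rw [hd] at hz2
    have h1 : (d : ℝ) * c.Q ≤ 2 * M := by exact_mod_cast hz2
    have h2 := h.q_mul 1
    have h3 := h.q_pos 1
    rw [pow_one] at h2
    calc (d : ℝ) = d * c.Q * c.q 1 := by rw [mul_assoc, h2, mul_one]
      _ ≤ 2 * M * c.q 1 := mul_le_mul_of_nonneg_right h1 h3.le
      _ = _ := by ring
  have h1 := sum_shift_le (F := fun n => F (n + z)) (fun n => hF _) M (s - z)
  have h2 : ∑ n ∈ Icc (1 : ℤ) M, F (n + (s - z) + z) = ∑ n ∈ Icc (1 : ℤ) M, F (n + s) :=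
    sum_congr rfl fun n _ => by congr 1; ring
  have h3 : |((s - z : ℤ) : ℝ)| = d := by
    rw [abs_sub_comm] at hd
    exact_mod_cast hd
  rw [h2, h3] at h1
  have h4 : cnt (Icc (1 : ℤ) M) (fun n => n + z ∉ Icc (1 : ℤ) N) ≤ 2 * d := by
    rw [cnt_eq_card]
    have h5 : (Icc (1 : ℤ) M).filter (fun n => n + z ∉ Icc (1 : ℤ) N) ⊆
        Icc (1 : ℤ) d ∪ Icc ((M : ℤ) - d + 1) M := by
      intro n hn
      have h6 := le_abs_self (z - s)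
      have h7 := neg_abs_le (z - s)
      simp only [mem_filter, mem_Icc, mem_union] at hn ⊢
      omega
    have h6 := (card_le_card h5).trans (card_union_le _ _)
    simp only [Int.card_Icc] at h6
    exact_mod_cast (by omega : _ ≤ 2 * d)
  have h5 : ‖∑ n ∈ Icc (1 : ℤ) M, F (n + z) - ∑ n ∈ Icc (1 : ℤ) M, F n‖ ≤
      δ * M + 2 * cnt (Icc (1 : ℤ) M) B +
        2 * cnt (Icc (1 : ℤ) M) (fun n => n + z ∉ Icc (1 : ℤ) N) := by
    rw [← sum_sub_distrib]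
    refine (norm_sum_le _ _).trans ((sum_le_sum (g := fun n => δ + 2 * (if B n then (1 : ℝ) else 0)
      + 2 * if n + z ∉ Icc (1 : ℤ) N then (1 : ℝ) else 0) fun n hn => ?_).trans (le_of_eq ?_))
    · have h6 := norm_sub_le (F (n + z)) (F n)
      have h7 := hF (n + z)
      have h8 := hF n
      by_cases hB : B n
      · rw [if_pos hB]
        split_ifs <;> linarith
      by_cases hn' : n + z ∈ Icc (1 : ℤ) N
      · rw [if_neg hB, if_neg (not_not.2 hn')]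
        linarith [hinv n hn hB z hz1 hn']
      · rw [if_neg hB, if_pos hn']
        linarith
    · rw [sum_add_distrib, sum_add_distrib, ← mul_sum, ← mul_sum, cnt_eq_sum, cnt_eq_sum,
        sum_const, Tile.card_Icc_one, nsmul_eq_mul, mul_comm (M : ℝ) δ]
      congr!
  have h6 := norm_sub_le_norm_sub_add_norm_sub (∑ n ∈ Icc (1 : ℤ) M, F (n + s))
    (∑ n ∈ Icc (1 : ℤ) M, F (n + z)) (∑ n ∈ Icc (1 : ℤ) M, F n)
  linarith

lemma _root_.Pool.Agent.Tri.Tile.sum_split (F : ℤ → ℂ) (s M : ℕ) :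
    ∑ n ∈ Icc (1 : ℤ) (s + M : ℕ), F n =
      ∑ n ∈ Icc (1 : ℤ) s, F n + ∑ n ∈ Icc (1 : ℤ) M, F (n + s) := by
  rw [Tile.sum_Icc_range, Tile.sum_Icc_range, Tile.sum_Icc_range, sum_range_add]
  congr 1
  refine sum_congr rfl fun i _ => ?_
  congr 1
  push_cast
  ring

/-- comparison of averages of an almost invariant function -/
lemma OK.tile_avg (h : c.OK P) {F : ℤ → ℂ} (hF : ∀ n, ‖F n‖ ≤ 1) {B : ℤ → Prop} {N M : ℕ}
    {δ : ℝ} (hδ : 0 ≤ δ) (hM : (Nk c.kb : ℝ) ≤ 2 * c.Q * M) (hMN : c.Q * M ≤ N)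
    (hN : N ≤ 2 ^ c.kt)
    (hinv : ∀ n ∈ Icc (1 : ℤ) M, ¬ B n → ∀ z, c.Fine z → n + z ∈ Icc (1 : ℤ) N →
      ‖F (n + z) - F n‖ ≤ δ) :
    ‖(N : ℂ)⁻¹ * ∑ n ∈ Icc (1 : ℤ) N, F n - (M : ℂ)⁻¹ * ∑ n ∈ Icc (1 : ℤ) M, F n‖ ≤
      δ + 2 * cnt (Icc (1 : ℤ) M) B / M + 20 * c.q 1 := by
  have hM0 : 0 < M := by
    have h1 := h.w_big (w := 2 * M) (by push_cast; linarith)
    have h2 := h.pos
    omega
  have hN0 : 0 < N := lt_of_lt_of_le (Nat.mul_pos h.pos hM0) hMN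
  have hq := h.q_pos 1
  have hcB := cnt_nonneg (Icc (1 : ℤ) M) B
  obtain ⟨E, hE⟩ : ∃ E, E = δ * M + 2 * cnt (Icc (1 : ℤ) M) B + 12 * (c.q 1 * M) := ⟨_, rfl⟩
  have hE0 : 0 ≤ E := by rw [hE]; positivity
  have hb : ∀ (G : ℤ → ℂ), (∀ n, ‖G n‖ ≤ 1) → ∀ r : ℕ, ‖∑ n ∈ Icc (1 : ℤ) r, G n‖ ≤ r :=
    fun G hG r => (norm_sum_le _ _).trans (by
      simpa using sum_le_card_nsmul (Icc (1 : ℤ) r) _ 1 fun n _ => hG n)
  have h1 : ∀ m : ℕ, m * M ≤ N → ‖∑ n ∈ Icc (1 : ℤ) (m * M : ℕ), F n -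
      m * ∑ n ∈ Icc (1 : ℤ) M, F n‖ ≤ m * E := by
    intro m
    induction m with
    | zero => simp
    | succ m ih =>
      intro hm
      rw [Nat.succ_mul] at hm
      have h2 := ih (by omega)
      have h3 := h.tile_block hF hδ hM hN hinv hm
      rw [← hE] at h3
      rw [Nat.succ_mul, Tile.sum_split]
      have h4 := norm_add_le (∑ n ∈ Icc (1 : ℤ) (m * M : ℕ), F n - m * ∑ n ∈ Icc (1 : ℤ) M, F n)
        (∑ n ∈ Icc (1 : ℤ) M, F (n + (m * M : ℕ)) - ∑ n ∈ Icc (1 : ℤ) M, F n)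
      rw [Nat.cast_succ, Nat.cast_succ, add_mul, add_mul, one_mul, one_mul, ← sub_add_sub_comm]
      linarith
  obtain ⟨m, hm⟩ : ∃ m, m = N / M := ⟨_, rfl⟩
  obtain ⟨r, hr⟩ : ∃ r, r = N % M := ⟨_, rfl⟩
  have hNr : m * M + r = N := by rw [hm, hr]; exact Nat.div_add_mod' _ _
  have hrM : r < M := by rw [hr]; exact Nat.mod_lt _ hM0
  have h2 := h1 m (by omega)
  have h3 := Tile.sum_split F (m * M) r
  rw [hNr] at h3
  have h4 := hb (fun n => F (n + (m * M : ℕ))) (fun n => hF _) r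
  have h5 := hb F hF M
  have hM' : (0 : ℝ) < M := Nat.cast_pos.2 hM0
  have hN' : (0 : ℝ) < N := Nat.cast_pos.2 hN0
  have hNr' : (m : ℝ) * M + r = N := by exact_mod_cast hNr
  have hNrc : (N : ℂ) = m * M + r := by exact_mod_cast hNr.symm
  have hr' : (r : ℝ) ≤ c.q 1 * N := by
    have h6 : (c.Q : ℝ) * M ≤ N := by exact_mod_cast hMN
    have h7 : (r : ℝ) ≤ M := by exact_mod_cast hrM.le
    have h8 := h.q_mul 1
    rw [pow_one] at h8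
    calc (r : ℝ) ≤ M := h7
      _ = c.q 1 * (c.Q * M) := by rw [← mul_assoc, mul_comm (c.q 1), h8, one_mul]
      _ ≤ _ := mul_le_mul_of_nonneg_left h6 hq.le
  generalize ∑ n ∈ Icc (1 : ℤ) N, F n = SN at h3 ⊢
  generalize ∑ n ∈ Icc (1 : ℤ) M, F n = SM at h2 h5 ⊢
  generalize ∑ n ∈ Icc (1 : ℤ) (m * M : ℕ), F n = S1 at h2 h3
  generalize ∑ n ∈ Icc (1 : ℤ) r, F (n + (m * M : ℕ)) = S2 at h3 h4
  have hMc : (M : ℂ) ≠ 0 := Nat.cast_ne_zero.2 hM0.ne'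
  have hNc : (N : ℂ) ≠ 0 := Nat.cast_ne_zero.2 hN0.ne'
  have h6 : (N : ℂ)⁻¹ * SN - (M : ℂ)⁻¹ * SM =
      (N : ℂ)⁻¹ * ((S1 - m * SM) + S2 - r * ((M : ℂ)⁻¹ * SM)) := by
    rw [h3]
    field_simp
    rw [hNrc]
    ring
  have h7 : ‖(r : ℂ) * ((M : ℂ)⁻¹ * SM)‖ ≤ r := by
    rw [norm_mul, norm_mul, norm_inv, Complex.norm_natCast, Complex.norm_natCast]
    exact mul_le_of_le_one_right (Nat.cast_nonneg _) (inv_mul_le_one_of_le₀ h5 hM'.le)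
  have h8 : ‖(S1 - m * SM) + S2 - r * ((M : ℂ)⁻¹ * SM)‖ ≤ m * E + 2 * r := by
    refine (norm_sub_le _ _).trans ?_
    linarith [norm_add_le (S1 - m * SM) S2]
  rw [h6, norm_mul, norm_inv, Complex.norm_natCast, inv_mul_le_iff₀ hN']
  refine h8.trans ?_
  have h9 : (m : ℝ) * E ≤ N * (E / M) := by
    rw [← mul_div_assoc, le_div_iff₀ hM']
    have : (m : ℝ) * M ≤ N := by linarith [Nat.cast_nonneg (α := ℝ) r]
    nlinarith
  have h10 : E / M = δ + 2 * cnt (Icc (1 : ℤ) M) B / M + 12 * c.q 1 := by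
    rw [hE]
    field_simp
  rw [h10] at h9
  nlinarith [mul_pos hq hN']

end Cfg

end Pool.Agent.Tri
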