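import Pool.Agent.Lib.MP_9721b5_an.Tri.Alive
import Pool.Agent.Lib.MP_9721b5_an.Tri.Tile

/-!
Averages over an invariant relation are bounded by a later envelope.
-/

set_option autoImplicit false

open Finset Real

namespace Pool.Agent.Tri

open Cfg

namespace Env

lemma Icc_eq (N : ℕ) : Icc (1 : ℤ) N = Ico (1 : ℤ) (1 + N) := by
  ext n
  simp only [mem_Icc, mem_Ico]
  omega

open Classical in
lemma split (R K R₁ R₂ : ℤ → Prop) (h₁ : ∀ n, R₁ n ↔ R n ∧ ¬ K n) (h₂ : ∀ n, R₂ n ↔ R n ∧ K n)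
    (F : ℤ → ℂ) (S : Finset ℤ) :
    (∑ n ∈ S, if R n then F n else 0) =
      (∑ n ∈ S, if R₁ n then F n else 0) + ∑ n ∈ S, if R₂ n then F n else 0 := by
  rw [← sum_add_distrib]
  refine sum_congr rfl fun n _ => ?_
  by_cases h1 : R n <;> by_cases h2 : K n <;> simp [h1, h2, h₁, h₂]

end Env

theorem env : EnvStmt := by
  intro c P τ γ' l ke je Irr R h hγ hl hke hI hR x hx k₀ k N hk₀ hk hkk hN
  have hγ0 : 0 ≤ γ' := (exp_pos _).le.trans hγ
  have hQ1 : 1 ≤ c.Q := h.pos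
  have hkb : Nk c.kb ≤ Nk k₀ := Nk_mono hk₀
  have hN0 : Nk k₀ ≤ N := (Nk_mono hk).trans (Nk_le_of_lev hN)
  have hpos : 0 < Nk k₀ := lt_of_lt_of_le (pow_pos h.pos 2) (h.Nk_kb.trans hkb)
  have h16 : 16 * N ≤ 2 ^ ke := hN.2.trans (Nat.pow_le_pow_right two_pos hkk)
  have hkt : 2 ^ ke ≤ 2 ^ c.kt := Nat.pow_le_pow_right two_pos hke
  have hNr : (0 : ℝ) ≤ N := Nat.cast_nonneg N
  have hN0r : (Nk k₀ : ℝ) ≤ N := by exact_mod_cast hN0
  have hposr : (0 : ℝ) < Nk k₀ := by exact_mod_cast hpos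
  have hNpos : (0 : ℝ) < N := hposr.trans_le hN0r
  have hQr : (1 : ℝ) ≤ c.Q := by exact_mod_cast hQ1
  have hq2 : c.q 2 ≤ 1 := (h.q_anti (Nat.zero_le 2)).trans (by simp [Cfg.q])
  have hq21 : c.q 2 ≤ c.q 1 := h.q_anti one_le_two
  have hq0 := h.q_pos 2
  have hext : ∀ n : ℤ, |n| ≤ 2 * N → Ext3 ke je x n := fun n hn => Ext3_of_node hx (by
    have : ((16 * N : ℕ) : ℤ) ≤ ((2 ^ ke : ℕ) : ℤ) := Int.ofNat_le.2 h16
    push_cast at this
    linarith [abs_nonneg n])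
  have hext1 : ∀ n ∈ Icc (1 : ℤ) N, Ext3 ke je x n := fun n hn => hext n (by
    rw [mem_Icc] at hn
    rw [abs_le]
    constructor <;> omega)
  have hgood : ∀ n ∈ Icc (1 : ℤ) N, Reg Irr x n → ∀ i, c.Good i (y i x n) :=
    fun n hn hr i => hI.good i _ (hext1 n hn i) (hr i)
  have hirr : ∀ M : ℕ, Nk k₀ ≤ M → M ≤ N →
      cnt (Icc (1 : ℤ) M) (fun n => ¬ Reg Irr x n) ≤ 9 * τ * M := fun M h1 h2 => by
    refine hI.cnt_irr hx ?_ (by omega)
    have h3 : (Nk c.kb : ℝ) ≤ M := by exact_mod_cast hkb.trans h1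
    have h4 : (0 : ℝ) ≤ M := Nat.cast_nonneg M
    nlinarith
  have hτ : 0 ≤ τ := by
    have h1 := (cnt_nonneg _ _).trans (hirr N hN0 le_rfl)
    by_contra h2
    nlinarith
  -- invariance under short shifts
  have hinv : ∀ n ∈ Icc (1 : ℤ) N, Reg Irr x n → ∀ z, c.V l N z →
      (R x (n + z) ↔ R x n) ∧
        (c.Killed l N (1 / 20) x (n + z) ↔ c.Killed l N (1 / 20) x n) := fun n hn hr z hz => by
    obtain ⟨h1, h2⟩ := h.V_inB hz
    refine ⟨hR x n z hr hz.toVU (hext1 n hn) (hext _ ?_), h.killed_shift (hgood n hn hr) h1⟩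
    have h3 : |(z : ℝ)| ≤ N := h2.trans (mul_le_of_le_one_right hNr hq2)
    have h4 : |z| ≤ N := by exact_mod_cast h3
    rw [mem_Icc] at hn
    rw [abs_le] at h4 ⊢
    constructor <;> omega
  obtain ⟨S, hS⟩ := h.exists_regS l hNr
  obtain ⟨S', hS'⟩ := h.exists_regS (l + 1) hNr
  have hSV : ∀ z ∈ S, c.V l N z := fun z hz => hS.mem hNr hz
  have hSV' : ∀ z ∈ S', c.V l N z := fun z hz => h.V_mono (hS'.mem hNr hz) (Nat.le_succ l) le_rfl
  have b1 := avg_bound (ψ := Φ c.φ x) (R := fun n => R x n ∧ ¬ c.Killed l N (1 / 20) x n)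
    (B := fun n => ¬ Reg Irr x n) ⟨0, RegSet.zero_mem hS⟩ (N := N)
    (fun z hz => (h.V_inB (hSV z hz)).2) hγ0 fun n hn hr z hz => by
      obtain ⟨h1, h2⟩ := hinv n hn (not_not.1 hr) z (hSV z hz)
      rw [h1, h2]
  have b2 := avg_bound (ψ := Φ c.φ x) (R := fun n => R x n ∧ c.Killed l N (1 / 20) x n)
    (B := fun n => ¬ Reg Irr x n) ⟨0, RegSet.zero_mem hS'⟩ (N := N)
    (fun z hz => (h.V_inB (hSV' z hz)).2) hγ0 fun n hn hr z hz => by
      obtain ⟨h1, h2⟩ := hinv n hn (not_not.1 hr) z (hSV' z hz)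
      rw [h1, h2]
  have c1 : cnt (Icc (1 : ℤ) N) (fun n => ¬ ¬ Reg Irr x n ∧
      (R x n ∧ ¬ c.Killed l N (1 / 20) x n) ∧
      γ' * S.card ≤ ‖∑ z ∈ S, e (Φ c.φ x (n + z))‖) ≤ 0 := not_lt.1 fun h0 => by
    obtain ⟨n, hn, h1, h2, h3⟩ := (cnt_pos_iff _ _).1 h0
    exact h2.2 (h.killed_of_alive hNr hγ hS (hgood n hn (not_not.1 h1)) h3)
  have c2 := h.cover (a := 1) (a₀ := 1) (w := Nk k₀) (w₀ := N)
    (X := fun n => ¬ ¬ Reg Irr x n ∧ (R x n ∧ c.Killed l N (1 / 20) x n) ∧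
      γ' * S'.card ≤ ‖∑ z ∈ S', e (Φ c.φ x (n + z))‖)
    (X' := fun n => ¬ Reg Irr x n ∨ (Reg Irr x n ∧ R x n ∧ c.Killed l (Nk k₀) (1 / 20) x n ∧
      c.Flat l (Nk k₀) x n))
    (by
      have h3 : (Nk c.kb : ℝ) ≤ Nk k₀ := by exact_mod_cast hkb
      nlinarith) hN0
    (by
      have : ((16 * N : ℕ) : ℤ) ≤ ((2 ^ c.kt : ℕ) : ℤ) := Int.ofNat_le.2 (h16.trans hkt)
      push_cast at this
      rw [sub_self, abs_zero]
      linarith [Int.natCast_nonneg N])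
    (fun n hn z hz hX hnz => by
      rw [← Env.Icc_eq] at hn hnz
      obtain ⟨h1, ⟨h2, h3⟩, h4⟩ := hX
      have hr := not_not.1 h1
      have hg := hgood n hn hr
      have hnz' : n + z ∈ Icc (1 : ℤ) N :=
        Icc_subset_Icc_right (Int.ofNat_le.2 hN0) hnz
      by_cases h5 : Reg Irr x (n + z)
      · refine Or.inr ⟨h5, ?_, ?_, ?_⟩
        · have hv : c.VU l z := by simpa using h.Fine_VU hl hz h.Fine_zero
          exact (hR x n z hr hv (hext1 n hn) (hext1 _ hnz')).2 h2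
        · exact h.Killed_mono ((h.killed_shift hg ((h.Fine_inB hz).mono Subset.rfl
            (h.q_anti (by norm_num)))).2 h3) hN0r le_rfl
        · refine h.Flat_mono (h.flat_of_alive hNr hγ hS' hg
            (h.Killed_mono h3 le_rfl (by norm_num)) h4 (h.Fine_Zl hl hz ?_)) hN0r
          have h6 : |z| ≤ N := by
            rw [mem_Icc] at hn hnz'
            rw [abs_le]
            constructor <;> omega
          have h7 : |(z : ℝ)| ≤ N := by exact_mod_cast h6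
          nlinarith
      · exact Or.inl h5)
  rw [← Env.Icc_eq, ← Env.Icc_eq] at c2
  have c3 := (cnt_or_le _ _ _).trans
    (add_le_add (hirr (Nk k₀) le_rfl hN0) (le_refl (c.Env l Irr R k₀ x)))
  have c4 := c2.trans (mul_le_mul_of_nonneg_left c3 (by positivity))
  have c5 := hirr N hN0 le_rfl
  generalize cnt (Icc (1 : ℤ) N) (fun n => ¬ ¬ Reg Irr x n ∧
    (R x n ∧ c.Killed l N (1 / 20) x n) ∧
      γ' * S'.card ≤ ‖∑ z ∈ S', e (Φ c.φ x (n + z))‖) = A at b2 c4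
  have c6 : A ≤ N * (36 * τ + 4 * c.Env l Irr R k₀ x / Nk k₀) := by
    rw [← le_div_iff₀ hposr] at c4
    refine c4.trans (le_of_eq ?_)
    field_simp
    ring
  rw [PA, norm_mul, norm_inv, Complex.norm_natCast, inv_mul_le_iff₀ hNpos,
    Env.split (R x) (c.Killed l N (1 / 20) x) _ _ (fun _ => Iff.rfl) fun _ => Iff.rfl]
  refine (norm_add_le _ _).trans ?_
  have d1 := mul_le_mul_of_nonneg_left hq21 hNr
  have d2 := mul_nonneg hNr hτ
  have d3 := mul_nonneg hNr hγ0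
  have d4 := mul_nonneg hNr hq0.le
  refine (add_le_add b1 b2).trans ?_
  linarith

end Pool.Agent.Tri
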