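import Pool.Agent.Lib.MP_9721b5_an.Tri.SDefs

/-!
The statement about one regime, with a positive exponent.
-/

set_option autoImplicit false

open Finset ComplexConjugate Real

namespace Pool.Agent.Tri

open Cfg

/-- control inside one regime -/
def EpochStmt1 : Prop :=
  ∃ C : ℕ, 1 ≤ C ∧ ∀ (c : Cfg) (p : ℝ) (j : ℕ), 2 ≤ p → c.OK (p ^ C) →
    2 * c.nxt^[⌊96 * p⌋₊ + 1] 0 + 4 ≤ c.L →
    (∀ i, c.Win (fun y => ¬ c.Good i y) c.kt j (exp (-p ^ C))) →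
    Ctl (Near (Ph c.φ) (100 / p)) c.kt j c.kb (1000 * p * exp (-p) * 2 ^ c.kt)
      (exp (p ^ (6 * C)) * (c.L + 1) * c.lq * 2 ^ c.kt)

end Pool.Agent.Tri
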