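import Pool.Agent.Lib.MP_9721b5_an.Tri.SBase0
import Pool.Agent.Lib.MP_9721b5_an.Tri.Basic

/-!
Calculus of the sets `VV`, regular sets, and of locally quadratic phases.
-/

set_option autoImplicit false

open Finset Real

namespace Pool.Agent.Tri

namespace Cfg

variable {c : Cfg} {P : ℝ}

lemma OK.q_zero (_h : c.OK P) : c.q 0 = 1 := by simp [q]

lemma OK.q_le_one (h : c.OK P) (a : ℕ) : c.q a ≤ 1 := h.q_zero ▸ h.q_anti (Nat.zero_le a)

lemma OK.Q_mul_q (h : c.OK P) (a : ℕ) : (c.Q : ℝ) * c.q (a + 1) = c.q a := by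
  have := h.q_mul 1
  rw [pow_one] at this
  rw [q_add, mul_left_comm, this, mul_one]

/-- one more power of `Q` absorbs any constant up to `10 ^ 12` -/
lemma OK.mul_q_succ (h : c.OK P) (a : ℕ) {A : ℝ} (hA : A ≤ 10 ^ 12) :
    A * c.q (a + 1) ≤ c.q a := by
  rw [← h.Q_mul_q a]
  exact mul_le_mul_of_nonneg_right (hA.trans h.Q_big) (h.q_pos _).le

lemma abs_succ_le (i : Fin 3) : |((((i : ℤ) + 1 : ℤ)) : ℝ)| ≤ 3 := by
  fin_cases i <;> norm_num

lemma inB_succ_mul {Θ : Finset T} {s : ℝ} (hs : 0 ≤ s) {z : ℤ} (hz : InB Θ s z) (i : Fin 3) :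
    InB Θ (3 * s) (((i : ℤ) + 1) * z) :=
  (hz.mul _).mono Subset.rfl (mul_le_mul_of_nonneg_right (abs_succ_le i) hs)

lemma VF_one (c : Cfg) (a b : ℕ) {N : ℝ} (hN : 0 ≤ N) (t : ℤ) :
    (c.VF a b N).mem 1 t ↔ c.VV a b N t := by
  simp only [VF, VV, one_mul, abs_of_nonneg hN]

lemma VF_q (c : Cfg) (a b m : ℕ) {N : ℝ} (hN : 0 ≤ N) (t : ℤ) :
    (c.VF a b N).mem (c.q m) t ↔ c.VV a (b + m) N t := by
  have h1 : c.q m * c.q b = c.q (b + m) := by rw [q_add, mul_comm]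
  have h2 : c.q m * (N * c.q b) = N * c.q (b + m) := by rw [← h1]; ring
  simp only [VF, VV, abs_of_nonneg hN, h1, h2]

lemma OK.exists_regV (h : c.OK P) (a b : ℕ) {N s η : ℝ} (hN : 0 ≤ N) (hs : 0 < s) (hη : η ≤ 1)
    (hsη : 16 * (2 * c.Θ.card + 3) * s ≤ η) : ∃ S, RegSet (c.VF a b N) s η S := by
  have hq := h.q_pos b
  have hQ : (c.Q : ℤ) ^ a ≠ 0 := pow_ne_zero _ (by exact_mod_cast h.pos.ne')
  set M : ℕ := ⌊N * c.q b / 2⌋₊ with hM
  have hM1 : (M : ℝ) ≤ N * c.q b / 2 := Nat.floor_le (by positivity)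
  have hM2 : N * c.q b / 2 < M + 1 := Nat.lt_floor_add_one _
  set X : Finset ℤ := (Icc (-(2 * M + 1 : ℤ)) (2 * M + 1)).image fun w => (c.Q : ℤ) ^ a * w with hX
  have hw : ∀ w : ℤ, |(w : ℝ)| ≤ N * c.q b → w ∈ Icc (-(2 * M + 1 : ℤ)) (2 * M + 1) := by
    intro w hw
    have h1 : |(w : ℝ)| < ((2 * M + 2 : ℤ) : ℝ) := by push_cast; linarith
    rw [← Int.cast_abs, Int.cast_lt] at h1
    have := abs_lt.1 h1
    rw [mem_Icc]
    omega
  refine exists_regSet (c.VF a b N) X (K := 2 * c.Θ.card + 2) (fun x hx => ?_) (by positivity) ?_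
    hs hη (by linarith)
  · obtain ⟨w, rfl, -, h2⟩ := (VF_one c a b hN x).1 hx
    exact mem_image_of_mem _ (hw w h2)
  · have h1 : cnt X ((c.VF a b N).mem 1) ≤
        cnt (Icc (-(2 * M + 1 : ℤ)) (2 * M + 1)) (InB c.Θ (c.q b)) := by
      refine cnt_le_of_inj (fun x => x / (c.Q : ℤ) ^ a) (fun x _ hx => ?_)
        fun x _ x' _ hx hx' e => ?_
      · obtain ⟨w, rfl, h1, h2⟩ := (VF_one c a b hN x).1 hx
        rw [Int.mul_ediv_cancel_left _ hQ]
        exact ⟨hw w h2, h1⟩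
      · obtain ⟨w, rfl, -, -⟩ := (VF_one c a b hN x).1 hx
        obtain ⟨w', rfl, -, -⟩ := (VF_one c a b hN x').1 hx'
        simp only [Int.mul_ediv_cancel_left _ hQ] at e
        rw [e]
    have h2 := card_bohrZ c.Θ (R := c.q b) (r := c.q b / 2) (by positivity) hq.le M
    have h3 : cnt (Icc (-(M : ℤ)) M) (InB c.Θ (c.q b / 2)) ≤ cnt X ((c.VF a b N).mem (1 / 2)) := by
      refine cnt_le_of_inj (fun w => (c.Q : ℤ) ^ a * w) (fun w hw hw' => ⟨?_, w, rfl, ?_, ?_⟩)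
        fun x _ x' _ _ _ e => mul_left_cancel₀ hQ e
      · refine mem_image_of_mem _ ?_
        rw [mem_Icc] at hw ⊢
        omega
      · exact hw'.mono Subset.rfl (by linarith)
      · have : |w| ≤ (M : ℤ) := abs_le.2 (mem_Icc.1 hw)
        have : |(w : ℝ)| ≤ M := by exact_mod_cast this
        rw [abs_of_nonneg hN]
        linarith
    have h4 : 2 * c.q b / (c.q b / 2) + 1 = 5 := by field_simp; norm_num
    have h5 : (5 : ℝ) ≤ exp 2 := by
      have := Real.quadratic_le_exp_of_nonneg (x := 2) (by norm_num)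
      linarith
    have h6 : 5 * (5 : ℝ) ^ c.Θ.card ≤ exp (2 * c.Θ.card + 2) := by
      rw [← pow_succ', show (2 * c.Θ.card + 2 : ℝ) = ((c.Θ.card + 1 : ℕ) : ℝ) * 2 by push_cast; ring,
        exp_nat_mul]
      exact pow_le_pow_left₀ (by norm_num) h5 _
    rw [h4] at h2
    calc _ ≤ _ := h1
      _ ≤ _ := h2
      _ ≤ _ := mul_le_mul h6 h3 (cnt_nonneg _ _) (exp_pos _).le

/-- the averaging set of level `l` -/
def RegS (c : Cfg) (l : ℕ) (N : ℝ) (S : Finset ℤ) : Prop :=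
  RegSet (c.VF l (5 * l + 2) N) (c.q 3) (c.q 2) S

lemma OK.card_le_Q (h : c.OK P) : 10 ^ 6 * (c.Θ.card : ℝ) ≤ c.Q := by
  have h2 := h.two_le
  have h1 : P ≤ P ^ 4 := le_self_pow₀ (by linarith) (by norm_num)
  have h3 := h.rank.trans (exp_le_exp.2 h1)
  linarith [h.Q_ge']

lemma OK.exists_regS (h : c.OK P) (l : ℕ) {N : ℝ} (hN : 0 ≤ N) : ∃ S, c.RegS l N S := by
  refine h.exists_regV l (5 * l + 2) hN (h.q_pos 3) (h.q_le_one 2) ?_
  rw [← h.Q_mul_q 2]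
  exact mul_le_mul_of_nonneg_right (by linarith [h.card_le_Q, h.Q_big]) (h.q_pos _).le

lemma RegS.mem {l : ℕ} {N : ℝ} {S : Finset ℤ} (hS : c.RegS l N S) (hN : 0 ≤ N) {t : ℤ}
    (ht : t ∈ S) : c.V l N t := (VF_one c _ _ hN t).1 (RegSet.one hS t ht)

lemma RegS.inv {l : ℕ} {N : ℝ} {S : Finset ℤ} (hS : c.RegS l N S) (hN : 0 ≤ N) {t : ℤ}
    (ht : c.VV l (5 * l + 5) N t) : Inv S t (c.q 2) :=
  RegSet.inv hS ((VF_q c l (5 * l + 2) 3 hN t).2 ht)

lemma OK.RegS_inv (h : c.OK P) {l : ℕ} {N : ℝ} {S : Finset ℤ} (hS : c.RegS l N S) (hN : 0 ≤ N)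
    {t : ℤ} (ht : c.V (l + 1) N t) : Inv S t (c.q 2) := by
  have := h.VV_mul (a' := l) (b' := 5 * l + 5) (m := 0) (i := 1) ht (by omega) (by simp)
    (by omega) le_rfl
  rw [one_mul] at this
  exact hS.inv hN this

/-- a local homomorphism which is small on a level is very small on the deeper levels -/
lemma OK.scale_V (h : c.OK P) {l m : ℕ} {N a : ℝ} {F : ℤ → T} (ha : a < 1 / 3)
    (hF : ∀ z, c.V l N z → ‖F z‖ ≤ a) {z : ℤ} (hz : c.V (l + m) N z)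
    (hmul : ∀ i : ℕ, (i : ℝ) ≤ (c.Q : ℝ) ^ (4 * m) → F (i * z) = (i : ℤ) • F z) :
    ‖F z‖ ≤ a * c.q (4 * m) := by
  have := scale (x := F z) (m := c.Q ^ (4 * m)) (pow_pos h.pos _) ha fun i _ hi => by
    have hi' : (i : ℝ) ≤ (c.Q : ℝ) ^ (4 * m) := by exact_mod_cast hi
    rw [← hmul i hi']
    exact hF _ (h.VV_mul (m := 4 * m) hz (by omega) (by simpa using hi') (by omega) le_rfl)
  rwa [Nat.cast_pow, div_eq_mul_inv] at this

lemma Φ_eq (c : Cfg) (x n : ℤ) : Φ c.φ x n = ∑ i, c.φ i (y i x n) := by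
  simp only [Φ, y, Fin.sum_univ_three]
  norm_num

lemma Ψ_eq (c : Cfg) (x n z : ℤ) : c.Ψ x n z = ∑ i, c.fr i (y i x n) z := by
  rw [Ψ, Φ_eq, Φ_eq, ← sum_sub_distrib]
  refine sum_congr rfl fun i _ => ?_
  simp only [fr, y]
  congr 2 <;> ring

lemma y_add (i : Fin 3) (x n b b' : ℤ) :
    y i (x + b) (n + b') = y i x n + (b + ((i : ℤ) + 1) * b') := by
  simp only [y]; ring

lemma y_add_right (i : Fin 3) (x n t : ℤ) : y i x (n + t) = y i x n + ((i : ℤ) + 1) * t := by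
  simp only [y]; ring

lemma d2_Φ (c : Cfg) (x n t t' : ℤ) : d2 (Φ c.φ x) n t t' =
    ∑ i, d2 (c.φ i) (y i x n) (((i : ℤ) + 1) * t) (((i : ℤ) + 1) * t') := by
  simp only [d2, Φ_eq, y_add_right, sum_add_distrib, sum_sub_distrib]

lemma OK.quad_Φ (h : c.OK P) {x n : ℤ} (hg : ∀ i, c.Good i (y i x n)) :
    Quad (InB c.Θ (c.q 1 / 3)) (Φ c.φ x) n := by
  intro u h₁ h₂ h₃ hu b₁ b₂ b₃
  have hs : 0 ≤ c.q 1 / 3 := by have := h.q_pos 1; positivity
  have key : ∀ {v : ℤ}, InB c.Θ (c.q 1 / 3) v → ∀ i : Fin 3,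
      InB c.Θ (c.q 1) (((i : ℤ) + 1) * v) := fun hv i =>
    (inB_succ_mul hs hv i).mono Subset.rfl (by linarith)
  rw [d3, d2_Φ, d2_Φ, ← sum_sub_distrib]
  refine sum_eq_zero fun i _ => ?_
  rw [y_add_right, y_add_right]
  exact hg i _ _ _ _ (key hu i) (key b₁ i) (key b₂ i) (key b₃ i)

lemma fr_neg (c : Cfg) (i : Fin 3) (y z : ℤ) : c.fr i y (-z) = -c.fr i y z := by
  simp only [fr, mul_neg, sub_neg_eq_add, ← sub_eq_add_neg, neg_sub]

lemma fr_zero (c : Cfg) (i : Fin 3) (y : ℤ) : c.fr i y 0 = 0 := by simp [fr]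

lemma OK.fr_add (h : c.OK P) {i : Fin 3} {y t z z' : ℤ} (hg : c.Good i y)
    (ht : InB c.Θ (100 * c.q 2) t) (hz : InB c.Θ (100 * c.q 2) z)
    (hz' : InB c.Θ (100 * c.q 2) z') :
    c.fr i (y + t) (z + z') = c.fr i (y + t) z + c.fr i (y + t) z' := by
  have hq := h.q_pos 2
  have hq1 : 1000 * c.q 2 ≤ c.q 1 := h.mul_q_succ 1 (by norm_num)
  have ha := inB_succ_mul (by positivity) hz i
  have ha' := inB_succ_mul (by positivity) hz' i
  have e1 := Quad.d2_base hg (h.q_pos 1).le (ht.mono Subset.rfl (by linarith))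
    (ha.mono Subset.rfl (by linarith)) (ha'.mono Subset.rfl (by linarith))
  have e2 := Quad.d2_base hg (h.q_pos 1).le (((ht.sub ha).sub ha').mono Subset.rfl (by linarith))
    (ha.mono Subset.rfl (by linarith)) (ha'.mono Subset.rfl (by linarith))
  have e3 := e1.trans e2.symm
  simp only [fr, mul_add]
  generalize ((i : ℤ) + 1) * z = a at e3
  generalize ((i : ℤ) + 1) * z' = a' at e3
  simp only [d2] at e3
  rw [show y + (t - a - a') + a + a' = y + t by ring, show y + (t - a - a') + a = y + t - a' by ring,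
    show y + (t - a - a') + a' = y + t - a by ring,
    show y + (t - a - a') = y + t - (a + a') by ring, add_assoc (y + t) a a'] at e3
  rw [← sub_eq_zero] at e3 ⊢
  rw [← e3]
  abel

lemma OK.fr_mul (h : c.OK P) {i : Fin 3} {y t z m : ℤ} {r : ℝ} (hg : c.Good i y)
    (ht : InB c.Θ (100 * c.q 2) t) (hr : 0 ≤ r) (hz : InB c.Θ r z)
    (hm : (|(m : ℝ)| + 1) * r ≤ 100 * c.q 2) :
    c.fr i (y + t) (m * z) = m • c.fr i (y + t) z := by
  have key : ∀ k : ℕ, ((k : ℝ) + 1) * r ≤ 100 * c.q 2 →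
      c.fr i (y + t) ((k : ℤ) * z) = (k : ℤ) • c.fr i (y + t) z := by
    intro k
    induction k with
    | zero => intro _; simp [fr_zero]
    | succ k ih =>
      intro hk
      push_cast at hk ⊢
      have hk0 : 0 ≤ (k : ℝ) * r := by positivity
      have h1 : InB c.Θ (100 * c.q 2) ((k : ℤ) * z) :=
        (hz.mul k).mono Subset.rfl (by simp only [Int.cast_natCast, Nat.abs_cast]; linarith)
      rw [add_mul, one_mul, h.fr_add hg ht h1 (hz.mono Subset.rfl (by linarith)),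
        ih (by linarith), add_smul, one_smul]
  obtain ⟨k, rfl | rfl⟩ := Int.eq_nat_or_neg m
  · exact key k (by simpa using hm)
  · rw [neg_mul, fr_neg, key k (by simpa using hm), neg_smul]

lemma OK.fr_shift (h : c.OK P) {i : Fin 3} {y u t z : ℤ} (hg : c.Good i y)
    (hu : InB c.Θ (100 * c.q 2) u) (ht : InB c.Θ (100 * c.q 2) t)
    (hz : InB c.Θ (100 * c.q 2) z) :
    c.fr i (y + u + t) z - c.fr i (y + u) z = d2 (c.φ i) y t (2 * ((i : ℤ) + 1) * z) := by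
  have hq := h.q_pos 2
  have hq1 : 1000 * c.q 2 ≤ c.q 1 := h.mul_q_succ 1 (by norm_num)
  have ha := inB_succ_mul (by positivity) hz i
  have e1 := Quad.d2_base hg (h.q_pos 1).le ((hu.sub ha).mono Subset.rfl (by linarith))
    (ht.mono Subset.rfl (by linarith)) ((ha.add ha).mono Subset.rfl (by linarith))
  rw [mul_assoc, two_mul, ← e1]
  simp only [fr]
  generalize ((i : ℤ) + 1) * z = a
  simp only [d2]
  rw [show y + (u - a) + t + (a + a) = y + u + t + a by ring,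
    show y + (u - a) + t = y + u + t - a by ring, show y + (u - a) + (a + a) = y + u + a by ring,
    show y + (u - a) = y + u - a by ring]
  abel

lemma OK.Ψ_shift (h : c.OK P) {x n t z : ℤ} (hg : ∀ i, c.Good i (y i x n))
    (ht : InB c.Θ (100 * c.q 2) t) (hz : InB c.Θ (100 * c.q 2) z) :
    c.Ψ x (n + t) z - c.Ψ x n z = d2 (Φ c.φ x) n t (2 * z) := by
  have hq := h.q_pos 2
  have hq1 : 1000 * c.q 2 ≤ c.q 1 := h.mul_q_succ 1 (by norm_num)
  have e1 := Quad.d2_base (h.quad_Φ hg) (by linarith) (hz.neg.mono Subset.rfl (by linarith))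
    (ht.mono Subset.rfl (by linarith)) ((hz.add hz).mono Subset.rfl (by linarith))
  rw [two_mul, ← e1]
  simp only [Ψ, d2]
  rw [show n + -z + t + (z + z) = n + t + z by ring, show n + -z + t = n + t - z by ring,
    show n + -z + (z + z) = n + z by ring, show n + -z = n - z by ring]
  abel

lemma Flat.Ψ_le {l : ℕ} {N : ℝ} {x n z : ℤ} (hf : c.Flat l N x n) (hz : c.V (2 * l + 4) N z) :
    ‖c.Ψ x n z‖ ≤ 4 * c.q 1 := by
  have h1 := hf z hz
  have h2 := hf (-z) (VV.neg hz)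
  have : c.Ψ x n z = (Φ c.φ x (n + z) - Φ c.φ x n) - (Φ c.φ x (n + -z) - Φ c.φ x n) := by
    rw [Ψ, ← sub_eq_add_neg]; abel
  rw [this]
  linarith [norm_sub_le (Φ c.φ x (n + z) - Φ c.φ x n) (Φ c.φ x (n + -z) - Φ c.φ x n)]

lemma OK.Flat_mono (h : c.OK P) {l : ℕ} {N N' : ℝ} {x n : ℤ} (hf : c.Flat l N x n)
    (hN : N' ≤ N) : c.Flat l N' x n := fun t ht => hf t (h.V_mono ht le_rfl hN)

lemma OK.Killed_mono (h : c.OK P) {l : ℕ} {N N' a a' : ℝ} {x n : ℤ} (hf : c.Killed l N a x n)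
    (hN : N' ≤ N) (ha : a ≤ a') : c.Killed l N' a' x n := fun t t' ht ht' =>
  (hf t t' (h.V_mono ht le_rfl hN) (h.V_mono ht' le_rfl hN)).trans ha

lemma Ext_sub {k j k' j' : ℕ} (hk : k' ≤ k) (hj : j' / 2 ^ (k - k') = j) {y : ℤ}
    (h : Ext k' j' y) : Ext k j y := by
  have hD : 0 < 2 ^ (k - k') := by positivity
  have h1 : j * 2 ^ (k - k') ≤ j' := hj ▸ Nat.div_mul_le_self _ _
  have h2 : j' < (j + 1) * 2 ^ (k - k') := by
    rw [← hj, mul_comm]; exact Nat.lt_mul_div_succ _ hD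
  have h3 : (2 : ℤ) ^ k = 2 ^ (k - k') * 2 ^ k' := by rw [← pow_add, Nat.sub_add_cancel hk]
  have h4 : (0 : ℤ) < 2 ^ k' := by positivity
  zify at h1 h2 hD
  obtain ⟨a1, a2⟩ := h
  rw [Ext, h3, ← mul_assoc, ← mul_assoc]
  exact ⟨(mul_le_mul_of_nonneg_right (by linarith) h4.le).trans a1,
    a2.trans_le (mul_le_mul_of_nonneg_right (by linarith) h4.le)⟩

lemma mem_node_int {k j x : ℕ} (hx : x ∈ node k j) :
    (j : ℤ) * 2 ^ k ≤ x ∧ (x : ℤ) < ((j : ℤ) + 1) * 2 ^ k := by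
  obtain ⟨h1, h2⟩ := mem_Ico.1 hx
  exact ⟨by exact_mod_cast h1, by exact_mod_cast h2⟩

lemma Ext3_of_node {k j x : ℕ} (hx : x ∈ node k j) {n : ℤ} (hn : 3 * |n| ≤ 2 ^ k) :
    Ext3 k j x n := by
  intro i
  obtain ⟨h1, h2⟩ := mem_node_int hx
  have h3 : |((i : ℤ) + 1) * n| ≤ 3 * |n| := by
    rw [abs_mul]
    refine mul_le_mul_of_nonneg_right ?_ (abs_nonneg _)
    fin_cases i <;> norm_num
  obtain ⟨h4, h5⟩ := abs_le.1 (h3.trans hn)
  constructor <;> simp only [y] <;> linarith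

lemma Win.sub {X : ℤ → Prop} {k j k' j' : ℕ} {τ τ' : ℝ} (h : c.Win X k j τ) (hk : k' ≤ k)
    (hj : j' / 2 ^ (k - k') = j) (hτ : τ ≤ τ') : c.Win X k' j' τ' := fun a w hw hE =>
  (h a w hw fun y hy => Ext_sub hk hj (hE y hy)).trans
    (mul_le_mul_of_nonneg_right hτ (Nat.cast_nonneg w))

/-- few irregular pairs -/
lemma IrrOK.cnt_irr {Irr : Fin 3 → ℤ → Prop} {k j x N : ℕ} {τ : ℝ} (h : c.IrrOK Irr k j τ)
    (hx : x ∈ node k j) (hN : (Nk c.kb : ℝ) ≤ c.Q * (3 * N)) (hN' : 3 * N ≤ 2 ^ k) :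
    cnt (Icc (1 : ℤ) N) (fun n => ¬ Reg Irr x n) ≤ 9 * τ * N := by
  obtain ⟨h1, h2⟩ := mem_node_int hx
  have h3 : 3 * (N : ℤ) ≤ 2 ^ k := by exact_mod_cast hN'
  have h4 : (0 : ℤ) < 2 ^ k := by positivity
  have key : ∀ i : Fin 3, cnt (Icc (1 : ℤ) N) (fun n => Irr i (y i x n)) ≤ τ * (3 * N) := by
    intro i
    have hw := h.win i (x + 1) (3 * N) (by exact_mod_cast hN) fun y hy => by
      rw [mem_Ico] at hy
      push_cast at hy
      constructor <;> linarith [hy.1, hy.2]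
    have hi : (0 : ℤ) ≤ i ∧ (i : ℤ) ≤ 2 := by fin_cases i <;> norm_num
    refine le_trans (cnt_le_of_inj (fun n => y i x n) (fun n hn hP => ⟨?_, hP⟩)
      fun n _ n' _ _ _ e => ?_) (by exact_mod_cast hw)
    · rw [mem_Icc] at hn
      rw [mem_Ico, y]
      push_cast
      constructor <;> nlinarith [hn.1, hn.2, hi.1, hi.2]
    · simp only [y, add_right_inj] at e
      exact mul_left_cancel₀ (by omega) e
  calc _ ≤ cnt (Icc (1 : ℤ) N) (fun n => ∃ i ∈ (univ : Finset (Fin 3)), Irr i (y i x n)) :=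
        cnt_mono fun n _ hn => by simpa [Reg] using hn
    _ ≤ ∑ i, cnt (Icc (1 : ℤ) N) (fun n => Irr i (y i x n)) := cnt_exists_le _ _ _
    _ ≤ ∑ _i : Fin 3, τ * (3 * N) := sum_le_sum fun i _ => key i
    _ = 9 * τ * N := by simp; ring

lemma OK.rinv (h : c.OK P) {s : St} {l k j : ℕ} {p p₁ p₃ : ℝ} (hs : c.StOK s l k j p p₁ p₃)
    (R : (Fin 3 → ℕ) → Prop) :
    c.RInv s.Irr (fun x n => R fun i => s.asg i (y i x n)) l k j := by
  intro x n t hr ht h1 h2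
  have : (fun i => s.asg i (y i x (n + t))) = fun i => s.asg i (y i x n) := by
    funext i
    have h3 := h2 i
    rw [y_add_right] at h3 ⊢
    exact (hs.inv i _ _ (hr i) (h.VU_toU ht i) (h1 i) h3).1
  simp only [this]

end Cfg

end Pool.Agent.Tri
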