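import Pool.Agent.Lib.MP_9721b5_an.Tri.Tree
import Pool.Agent.Lib.MP_9721b5_an.Tri.SBase
import Pool.Agent.Lib.MP_9721b5_an.Tri.EpochS

/-!
Control inside one regime: iteration of the update of the state.
-/

set_option autoImplicit false

open Finset Real

namespace Pool.Agent.Tri

open Cfg

namespace Epoch

lemma nxt_mono (c : Cfg) : Monotone fun n => c.nxt^[n] 0 :=
  monotone_nat_of_le_succ fun n => by
    rw [Function.iterate_succ_apply', nxt]
    omega

/-- the average splits along the types -/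
lemma split (c : Cfg) (asg : Fin 3 → ℤ → ℕ) {M : ℕ} (hM : ∀ i y, asg i y ≤ M) (x N : ℕ) :
    Ph c.φ x N = c.PA (fun x n => ∃ i, asg i (y i x n) = 0) x N +
      ∑ a ∈ Fintype.piFinset fun _ : Fin 3 => Icc 1 M,
        c.PA (fun x n => ∀ i, asg i (y i x n) = a i) x N := by
  simp only [Ph, PA]
  rw [← mul_sum, ← mul_add, sum_comm, ← sum_add_distrib]
  refine congrArg _ (sum_congr rfl fun n _ => ?_)
  by_cases h : ∃ i, asg i (y i x n) = 0
  · rw [if_pos h, sum_eq_zero, add_zero]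
    intro a ha
    obtain ⟨i, hi⟩ := h
    refine if_neg fun h' => ?_
    have := (mem_Icc.1 (Fintype.mem_piFinset.1 ha i)).1
    have := h' i
    omega
  · rw [if_neg h, zero_add, sum_eq_single_of_mem fun i => asg i (y i x n), if_pos fun _ => rfl]
    · exact Fintype.mem_piFinset.2 fun i =>
        mem_Icc.2 ⟨Nat.one_le_iff_ne_zero.2 fun h' => h ⟨i, h'⟩, hM _ _⟩
    · exact fun a _ ha => if_neg fun h' => ha (funext fun i => (h' i).symm)

lemma gen_le {c : Cfg} {s : St} {l k j : ℕ} {p p₁ p₃ : ℝ} (hs : c.StOK s l k j p p₁ p₃)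
    (hp : 0 < p) (hk : c.kb ≤ k) : (s.gen : ℝ) ≤ 96 * p := by
  have : ∀ i, (s.g i : ℝ) ≤ 32 * p := fun i => by
    have h1 := (hs.cov i (j * 2 ^ k) (2 ^ k)
      ((Nat.div_le_self _ _).trans (Nat.pow_le_pow_right (by norm_num) hk)) le_rfl fun y hy => by
        rw [mem_Ico] at hy
        have : (0 : ℤ) < 2 ^ k := by positivity
        push_cast at hy
        constructor <;> nlinarith [hy.1, hy.2]).trans (cnt_le_card _ _)
    rw [Int.card_Ico, add_sub_cancel_left, Int.toNat_natCast] at h1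
    have h2 : (0 : ℝ) < (2 ^ k : ℕ) := by positivity
    rw [← div_le_one (by positivity)]
    nlinarith
  rw [St.gen]
  push_cast
  linarith [this 0, this 1, this 2]

lemma env_le (c : Cfg) (l : ℕ) (Irr : Fin 3 → ℤ → Prop) (R : Fin 3 → ℤ → ℤ → Prop) (k x : ℕ) :
    c.Env l Irr (fun x n => ∃ i, R i x n) k x ≤ ∑ i, c.Env l Irr (R i) k x :=
  (cnt_mono fun _ _ ⟨h1, ⟨i, h2⟩, h3⟩ => ⟨i, mem_univ i, h1, h2, h3⟩).trans (cnt_exists_le _ _ _)

/-- the numerical facts on the parameters -/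
structure Par (CT CU : ℕ) (p p₁ p₃ : ℝ) : Prop where
  two : 2 ≤ p
  cu : p ^ CU ≤ p₁
  ct : (CT : ℝ) ≤ p₁
  big : 128 * p ≤ p₁
  ct3 : (p₁ ^ 2) ^ CT ≤ p₃
  p3 : 2 * p₁ ^ 2 ≤ p₃

lemma par (CT CU : ℕ) {p : ℝ} (hp : 2 ≤ p) :
    Par CT CU p (p ^ (CU + CT + 8)) (p ^ ((CU + CT + 8) * 2 * (CT + 2))) := by
  have h1 : 1 ≤ p := by linarith
  have q : ∀ k : ℕ, (2 : ℝ) ^ k ≤ p ^ k := fun k => pow_le_pow_left₀ (by norm_num) hp k
  have h2 : 128 * p ≤ p ^ (CU + CT + 8) :=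
    le_trans (by nlinarith [q 7]) (pow_le_pow_right₀ h1 (by omega : 8 ≤ CU + CT + 8))
  have h3 : 2 ≤ (p ^ (CU + CT + 8)) ^ 2 := by nlinarith
  refine ⟨hp, pow_le_pow_right₀ h1 (by omega), ?_, h2, ?_, ?_⟩
  · refine le_trans ?_ ((q CT).trans (pow_le_pow_right₀ h1 (by omega)))
    exact_mod_cast Nat.lt_two_pow_self.le
  · rw [pow_mul, pow_mul]
    exact pow_le_pow_right₀ (by linarith) (by omega)
  · rw [pow_mul, pow_mul]
    refine le_trans ?_ (pow_le_pow_right₀ (by linarith) (by omega : 2 ≤ CT + 2))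
    nlinarith

lemma le_exp (x : ℝ) : x ≤ exp x := by linarith [add_one_le_exp x]

theorem step (hE : EnvStmt) {CT CU : ℕ}
    (hT : ∀ (c : Cfg) (p p₁ p₂ p₃ : ℝ) (s : St) (l ke je : ℕ) (a : Fin 3 → ℕ), c.OK p₃ →
      2 ≤ p₁ → p₁ ^ 2 ≤ p₂ → p₂ ^ CT ≤ p₃ → (s.gen + 1) * exp (-p₃) ≤ exp (-p₂) →
      2 * l + 4 ≤ c.L → ke ≤ c.kt → c.StOK s l ke je p p₁ p₃ → (∀ i, a i ≠ 0) →
      Ctl (Near (c.PA fun x n => ∀ i, s.asg i (y i x n) = a i) (CT * exp (-p₂))) ke je c.kb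
        (CT * exp (-p₂) * 2 ^ ke) (exp (p₃ ^ 5) * (l + 1) * c.lq * 2 ^ ke))
    {c : Cfg} {p p₁ p₃ : ℝ} (hp : Par CT CU p p₁ p₃) (hc : c.OK p₃) {s : St} {l ke je : ℕ}
    (hl : 2 * l + 4 ≤ c.L) (hke : ke ≤ c.kt) (hs : c.StOK s l ke je p p₁ p₃)
    (hg : (s.gen : ℝ) ≤ 96 * p) :
    Ctl (fun x k' k => (∀ m, k' ≤ m → m ≤ ke → ¬ 3 * exp (-p) * 2 ^ m ≤ cnt (node m (x / 2 ^ m))
        fun x => ∃ i, Nk m / p ≤ c.Env l s.Irr (fun x n => s.asg i (y i x n) = 0) m x) →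
        Near (Ph c.φ) (100 / p) x k' k) ke je c.kb (10 * exp (-p) * 2 ^ ke)
      (exp (6 * p₁ + p₃ ^ 5) * (c.L + 1) * c.lq * 2 ^ ke) := by
  have h2 := hp.two
  have hb := hp.big
  have h3 := hp.p3
  have p0 : 0 < p := by linarith
  have q1 : p₁ * 256 ≤ p₁ ^ 2 := by nlinarith
  have t1 : (s.gen + 1) * exp (-p₃) ≤ exp (-p₁ ^ 2) :=
    calc (s.gen + 1) * exp (-p₃) ≤ exp p₁ * exp (-p₃) := by
          gcongr
          linarith [le_exp p₁]
      _ ≤ _ := by rw [← exp_add]; gcongr; linarith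
  set M := ⌊s.gen * exp p₁⌋₊ with hM
  set A := Fintype.piFinset fun _ : Fin 3 => Icc 1 M with hA
  have cA : (A.card : ℝ) ≤ exp (6 * p₁) := by
    have h1 : (M : ℝ) ≤ exp p₁ * exp p₁ :=
      (Nat.floor_le (by positivity)).trans (by gcongr; linarith [le_exp p₁])
    rw [hA, Fintype.card_piFinset_const, Nat.card_Icc, Nat.add_sub_cancel, Nat.cast_pow]
    refine (pow_le_pow_left₀ (by positivity) h1 3).trans (le_of_eq ?_)
    rw [← exp_add, ← exp_nat_mul]
    congr 1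
    push_cast
    ring
  have eA : (A.card : ℝ) * (CT * exp (-p₁ ^ 2)) ≤ exp (-p) :=
    calc (A.card : ℝ) * (CT * exp (-p₁ ^ 2)) ≤ exp (6 * p₁) * (exp p₁ * exp (-p₁ ^ 2)) := by
          gcongr
          exact hp.ct.trans (le_exp _)
      _ ≤ _ := by rw [← exp_add, ← exp_add]; gcongr; linarith
  have ex : ∀ t : ℝ, 0 < t → exp (-t) ≤ 1 / t := fun t ht => by
    rw [exp_neg, one_div]
    exact inv_anti₀ ht (le_exp t)
  have a1 := Ctl.all A _ _ _ fun a ha => hT c p p₁ (p₁ ^ 2) p₃ s l ke je a hc (by linarith) le_rfl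
    hp.ct3 t1 hl hke hs fun i => by
      have := (mem_Icc.1 (Fintype.mem_piFinset.1 ha i)).1
      omega
  obtain ⟨Exc, x1, x2⟩ := stop_exc (fun m x => ∃ i,
    Nk m / p ≤ c.Env l s.Irr (fun x n => s.asg i (y i x n) = 0) m x) ke je c.kb
    (σ := 3 * exp (-p)) (by positivity)
  have a2 := Ctl.of_exc (kb := c.kb) (R := fun x k' k => (∀ m, k' ≤ m → m ≤ ke →
      ¬ 3 * exp (-p) * 2 ^ m ≤ cnt (node m (x / 2 ^ m))
        fun x => ∃ i, Nk m / p ≤ c.Env l s.Irr (fun x n => s.asg i (y i x n) = 0) m x) →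
      ∀ k'' N, k' ≤ k'' → k'' ≤ k → lev k'' N →
        ‖c.PA (fun x n => ∃ i, s.asg i (y i x n) = 0) x N‖ ≤ 13 / p) Exc x1
    fun x hx hn k' k b1 b2 b3 b4 k'' N b5 b6 b7 => by
      obtain ⟨k₀, c1, c2, c3⟩ := x2 x hx hn k' b1 (b2.trans b3) b4
      refine (hE c p₃ _ (exp (-p₃)) l ke je s.Irr _ hc le_rfl (by omega) hke hs.irr
        (hc.rinv hs fun a => ∃ i, a i = 0) x hx k₀ k'' N c1 (c2.trans b5) (b6.trans b3) b7).trans ?_
      have n0 : (0 : ℝ) < Nk k₀ := by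
        exact_mod_cast (pow_pos hc.pos 2).trans_le (hc.Nk_kb.trans (Nk_mono c1))
      have d1 := (env_le c l s.Irr (fun i x n => s.asg i (y i x n) = 0) k₀ x).trans
        (sum_le_card_nsmul _ _ (Nk k₀ / p) fun i _ => (not_le.1 fun h => c3 ⟨i, h⟩).le)
      rw [card_univ, Fintype.card_fin, nsmul_eq_mul] at d1
      have d2 : 4 * c.Env l s.Irr (fun x n => ∃ i, s.asg i (y i x n) = 0) k₀ x / Nk k₀ ≤ 12 / p := by
        rw [div_le_iff₀ n0]
        refine (mul_le_mul_of_nonneg_left d1 (by norm_num)).trans (le_of_eq ?_)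
        push_cast
        ring
      have d3 : exp (-p₃) ≤ exp (-p₁ ^ 2) := by gcongr; nlinarith
      have d4 : c.q 1 ≤ exp (-p₁ ^ 2) := by
        rw [Cfg.q, pow_one, exp_neg]
        refine inv_anti₀ (exp_pos _) (le_trans ?_ hc.Q_ge')
        have : exp (p₁ ^ 2) ≤ exp (p₃ ^ 4) := by
          gcongr
          exact le_trans (by nlinarith) (le_self_pow₀ (by linarith [hc.two_le]) (by norm_num))
        linarith [exp_pos (p₃ ^ 4)]
      have d5 : exp (-p₁ ^ 2) ≤ 1 / (300 * p) :=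
        (ex _ (by nlinarith)).trans (one_div_le_one_div_of_le (by positivity) (by linarith))
      have d6 : 1 / (300 * p) * 300 + 12 / p = 13 / p := by field_simp; norm_num
      linarith
  refine ((a2.and a1).imp ?_).mono ?_ ?_
  · rintro x - k' k - b2 - ⟨c1, c2⟩ c3 N' N n1 n2
    have hm : ∀ i y, s.asg i y ≤ M := fun i y => Nat.le_floor (hs.asg_le i y)
    rw [split c s.asg hm, split c s.asg hm, add_sub_add_comm, ← sum_sub_distrib]
    have d1 := c1 c3 k N b2 le_rfl n2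
    have d2 := c1 c3 k' N' le_rfl b2 n1
    have d3 := (norm_sum_le _ _).trans (sum_le_card_nsmul _ _ _ fun a ha => c2 a ha N' N n1 n2)
    rw [nsmul_eq_mul] at d3
    have d4 := ex p p0
    have d5 : 13 / p + 13 / p + 1 / p ≤ 100 / p := by
      rw [← add_div, ← add_div]
      gcongr
      norm_num
    refine (norm_add_le _ _).trans ((add_le_add (norm_sub_le _ _) d3).trans ?_)
    linarith
  · rw [sum_const, nsmul_eq_mul, ← mul_assoc]
    have : (0 : ℝ) < 2 ^ ke := by positivity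
    nlinarith
  · rw [zero_add, sum_const, nsmul_eq_mul, exp_add]
    have : (l : ℝ) ≤ c.L := by exact_mod_cast (by omega : l ≤ c.L)
    simp only [mul_assoc]
    gcongr

end Epoch

open Epoch

theorem epoch (hE : EnvStmt) (hT : TypeStmt) (hU : UpdStmt) : EpochStmt1 := by
  obtain ⟨CT, hT⟩ := hT
  obtain ⟨CU, hU⟩ := hU
  refine ⟨(CU + CT + 8) * 2 * (CT + 2), Nat.succ_le_of_lt (by positivity),
    fun c p j h2 hc hL hW => ?_⟩
  have hp := par CT CU h2
  rw [mul_comm 6, pow_mul p _ 6]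
  generalize p ^ ((CU + CT + 8) * 2 * (CT + 2)) = p₃ at *
  generalize p ^ (CU + CT + 8) = p₁ at *
  have hb := hp.big
  have h3 := hp.p3
  have p0 : 0 < p := by linarith
  have q1 : p₁ * 256 ≤ p₁ ^ 2 := by nlinarith
  have lq1 : (1 : ℝ) ≤ c.lq := by exact_mod_cast hc.one_le_lq
  set K : ℝ := (exp (6 * p₁ + p₃ ^ 5) + 6) * (c.L + 1) * c.lq with hK
  have K0 : 0 ≤ K := by positivity
  have main : ∀ (m : ℕ) (s : St) (ke je : ℕ), s.gen + m = ⌊96 * p⌋₊ + 1 → ke ≤ c.kt →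
      c.StOK s (c.nxt^[s.gen] 0) ke je p p₁ p₃ → Ctl (Near (Ph c.φ) (100 / p)) ke je c.kb
        (m * (10 * exp (-p)) * 2 ^ ke) (m * K * 2 ^ ke) := by
    intro m
    induction m with
    | zero =>
      intro s ke je hg _ hs
      refine (Ctl.of_exc (E := 0) (fun _ => False) (by simp [cnt]) fun x _ _ k' k a b d => ?_).mono
        (by simp) (by simp)
      have := Nat.le_floor (gen_le hs p0 (a.trans (b.trans d)))
      omega
    | succ m ih =>
      intro s ke je hg hke hs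
      have g1 : (s.gen : ℝ) ≤ 96 * p :=
        (Nat.le_floor_iff (by positivity)).1 (by omega)
      have l1 : c.nxt^[s.gen] 0 ≤ c.nxt^[⌊96 * p⌋₊ + 1] 0 := nxt_mono c (by omega)
      have l2 : c.nxt^[s.gen + 1] 0 ≤ c.nxt^[⌊96 * p⌋₊ + 1] 0 := nxt_mono c (by omega)
      rw [Function.iterate_succ_apply'] at l2
      refine (Ctl.glue (fun k i => 3 * exp (-p) * 2 ^ k ≤ cnt (node k i) fun x => ∃ i, Nk k / p ≤
          c.Env (c.nxt^[s.gen] 0) s.Irr (fun x n => s.asg i (y i x n) = 0) k x)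
        (5 * c.nxt (c.nxt^[s.gen] 0) * c.lq) (fun _ => m * (10 * exp (-p)))
        (fun _ => by positivity) (K₁ := m * K) (by positivity)
        (step hE hT hp hc (by omega) hke hs g1) fun k i hF hk i' hi' => ?_).mono ?_ ?_
      · obtain ⟨b1, b2, b3, b4, -⟩ := hF
        have b5 := b4.trans ((cnt_mono fun x _ ⟨i, h⟩ => ⟨i, mem_univ i, h⟩).trans
          (cnt_exists_le _ univ fun (i : Fin 3) x => Nk k / p ≤
            c.Env (c.nxt^[s.gen] 0) s.Irr (fun x n => s.asg i (y i x n) = 0) k x))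
        obtain ⟨i₀, -, b6⟩ := exists_le_of_sum_le (f := fun _ : Fin 3 => exp (-p) * 2 ^ k)
          univ_nonempty (le_trans (by simp [mul_assoc]) b5)
        obtain ⟨s', g', hs'⟩ := hU c p p₁ p₃ s _ ke je k i i₀ hc h2 hp.cu (by nlinarith) (by omega)
          hke hs b1 b2 b3 b6 hk i' hi'
        rw [Tree.sum_node_const]
        refine ih s' _ i' (by omega) (by omega) ?_
        rwa [g', Function.iterate_succ_apply']
      · rw [Tree.sum_node_const]
        push_cast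
        linarith
      · have : (c.nxt (c.nxt^[s.gen] 0) : ℝ) ≤ c.L := by exact_mod_cast (by omega :
          c.nxt (c.nxt^[s.gen] 0) ≤ c.L)
        rw [← add_mul]
        push_cast
        gcongr
        rw [hK]
        nlinarith [mul_le_mul_of_nonneg_right this (zero_le_one.trans lq1),
          (Nat.cast_nonneg c.L : (0 : ℝ) ≤ c.L)]
  have q0 := (hc.q_pos 1).le
  refine (main (⌊96 * p⌋₊ + 1) ⟨0, 0, fun i y => ¬ c.Good i y, fun _ _ =>
    ⟨⟨fun _ _ => True, fun _ _ => trivial, fun _ _ _ _ _ _ => trivial, fun _ _ _ => trivial,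
      fun _ _ _ _ _ => trivial⟩, 0, ∅⟩, 0⟩ c.kt j (zero_add _) le_rfl
    ⟨⟨fun _ _ _ h => not_not.1 h, fun i => by simpa [St.gen] using hW i⟩,
      fun _ _ _ _ _ _ _ => ⟨rfl, rfl⟩, fun _ _ => by simp [St.gen], fun _ _ => by simp [(exp_pos _).le],
      fun i a ha => ⟨by simp; linarith, fun _ _ _ _ _ _ => by simpa using q0,
        fun _ _ _ _ _ h => (ha h.symm).elim, fun _ _ _ _ _ => trivial,
        fun _ _ _ _ _ _ _ => trivial⟩, fun _ _ _ _ _ _ => by simp [cnt_nonneg]⟩).mono ?_ ?_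
  · have := Nat.floor_le (show 0 ≤ 96 * p by positivity)
    push_cast
    gcongr ?_ * _
    nlinarith [exp_pos (-p)]
  · have f1 := Nat.floor_le (show 0 ≤ 96 * p by positivity)
    have f2 : p₃ ≤ p₃ ^ 5 := le_self_pow₀ (by linarith [hc.two_le]) (by norm_num)
    have f3 : exp (6 * p₁ + p₃ ^ 5) + 6 ≤ exp p₁ * exp (6 * p₁ + p₃ ^ 5) := by
      nlinarith [le_exp p₁, le_exp (6 * p₁ + p₃ ^ 5)]
    rw [hK, ← mul_assoc, ← mul_assoc]
    gcongr ?_ * _ * _ * _
    calc _ ≤ exp p₁ * (exp p₁ * exp (6 * p₁ + p₃ ^ 5)) := by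
          gcongr
          push_cast
          linarith [le_exp p₁]
      _ ≤ _ := by
          rw [← exp_add, ← exp_add]
          gcongr
          nlinarith [hc.two_le]

end Pool.Agent.Tri
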