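import Pool.Agent.Lib.MP_9721b5_an.Tri.Stmts
import Pool.Agent.Lib.MP_9721b5_an.Tri.Basic0

/-!
Expansion of a clipped sum of phases in a short trigonometric polynomial (Bernstein polynomials).
-/

set_option autoImplicit false

open Finset ComplexConjugate

namespace Pool.Agent.Tri

namespace Expand

variable {m : ℕ}

/-- trigonometric polynomial of degree at most `d` in each variable and norm at most `L` -/
def TP (d : ℕ) (L : ℝ) (F : (Fin m → T) → ℂ) : Prop :=
  ∃ (ι : Type) (s : Finset ι) (c : ι → ℂ) (w : ι → Fin m → ℤ),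
    (∀ i ∈ s, ∀ j, |w i j| ≤ d) ∧ ∑ i ∈ s, ‖c i‖ ≤ L ∧
      ∀ t, F t = ∑ i ∈ s, c i * e (∑ j, w i j • t j)

lemma TP.mono {d d' : ℕ} {L L' : ℝ} {F : (Fin m → T) → ℂ} (h : TP d L F) (hd : d ≤ d')
    (hL : L ≤ L') : TP d' L' F := by
  obtain ⟨ι, s, c, w, h1, h2, h3⟩ := h
  exact ⟨ι, s, c, w, fun i hi j => (h1 i hi j).trans (Int.ofNat_le.2 hd), h2.trans hL, h3⟩

lemma TP.congr {d : ℕ} {L : ℝ} {F G : (Fin m → T) → ℂ} (h : TP d L F) (hG : ∀ t, G t = F t) :
    TP d L G := (funext hG : G = F) ▸ h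

lemma TP.mon {d : ℕ} (c : ℂ) (w : Fin m → ℤ) (hw : ∀ j, |w j| ≤ d) :
    TP d ‖c‖ (fun t => c * e (∑ j, w j • t j)) :=
  ⟨Unit, univ, fun _ => c, fun _ => w, fun _ _ => hw, by simp, fun t => by simp⟩

lemma TP.const (d : ℕ) (c : ℂ) : TP (m := m) d ‖c‖ (fun _ => c) :=
  (TP.mon (d := d) c 0 fun j => by simp).congr fun t => by simp

lemma TP.add {d : ℕ} {L L' : ℝ} {F G : (Fin m → T) → ℂ} (h : TP d L F) (h' : TP d L' G) :
    TP d (L + L') (fun t => F t + G t) := by
  obtain ⟨ι, s, c, w, h1, h2, h3⟩ := h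
  obtain ⟨ι', s', c', w', h1', h2', h3'⟩ := h'
  refine ⟨ι ⊕ ι', s.disjSum s', Sum.elim c c', Sum.elim w w', ?_, ?_, fun t => ?_⟩
  · rintro (i | i) hi
    · exact h1 i (Finset.inl_mem_disjSum.1 hi)
    · exact h1' i (Finset.inr_mem_disjSum.1 hi)
  · rw [Finset.sum_disjSum]
    exact add_le_add h2 h2'
  · beta_reduce
    rw [Finset.sum_disjSum, h3, h3']
    rfl

lemma TP.mul {d d' : ℕ} {L L' : ℝ} {F G : (Fin m → T) → ℂ} (h : TP d L F) (h' : TP d' L' G) :
    TP (d + d') (L * L') (fun t => F t * G t) := by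
  obtain ⟨ι, s, c, w, h1, h2, h3⟩ := h
  obtain ⟨ι', s', c', w', h1', h2', h3'⟩ := h'
  refine ⟨ι × ι', s ×ˢ s', fun p => c p.1 * c' p.2, fun p => w p.1 + w' p.2, ?_, ?_, fun t => ?_⟩
  · intro p hp j
    have hp := Finset.mem_product.1 hp
    beta_reduce
    rw [Pi.add_apply, Nat.cast_add]
    exact (abs_add_le _ _).trans (add_le_add (h1 _ hp.1 j) (h1' _ hp.2 j))
  · have h0 : 0 ≤ ∑ i ∈ s, ‖c i‖ := Finset.sum_nonneg fun _ _ => norm_nonneg _
    have h0' : 0 ≤ ∑ i ∈ s', ‖c' i‖ := Finset.sum_nonneg fun _ _ => norm_nonneg _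
    calc ∑ p ∈ s ×ˢ s', ‖c p.1 * c' p.2‖ = (∑ i ∈ s, ‖c i‖) * ∑ i ∈ s', ‖c' i‖ := by
          rw [Finset.sum_mul_sum, Finset.sum_product]
          simp only [norm_mul]
      _ ≤ L * L' := mul_le_mul h2 h2' h0' (h0.trans h2)
  · beta_reduce
    rw [h3, h3', Finset.sum_mul_sum, Finset.sum_product]
    refine Finset.sum_congr rfl fun i _ => Finset.sum_congr rfl fun i' _ => ?_
    simp only [Pi.add_apply, add_smul, Finset.sum_add_distrib, e_add]
    ring

lemma TP.smul {d : ℕ} {L : ℝ} {F : (Fin m → T) → ℂ} (h : TP d L F) (c : ℂ) :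
    TP d (‖c‖ * L) (fun t => c * F t) := by
  simpa only [zero_add] using (TP.const 0 c).mul h

lemma TP.pow {F : (Fin m → T) → ℂ} (h : TP 1 1 F) (k : ℕ) : TP k 1 (fun t => F t ^ k) := by
  induction k with
  | zero => simpa using TP.const (m := m) 0 1
  | succ k ih => simpa only [mul_one, pow_succ] using ih.mul h

lemma TP.sum {κ : Type} {d : ℕ} (s : Finset κ) {L : κ → ℝ} {F : κ → (Fin m → T) → ℂ}
    (h : ∀ k ∈ s, TP d (L k) (F k)) : TP d (∑ k ∈ s, L k) (fun t => ∑ k ∈ s, F k t) := by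
  classical
  induction s using Finset.induction_on with
  | empty => simpa using TP.const (m := m) d 0
  | insert a s ha ih =>
    simp only [Finset.sum_insert ha]
    exact (h a (by simp)).add (ih fun k hk => h k (by simp [hk]))

lemma TP.re (j : Fin m) : TP 1 1 (fun t : Fin m → T => (((e (t j)).re : ℝ) : ℂ)) := by
  have h1 := TP.mon (d := 1) (1 / 2) (Pi.single j 1) fun i => by
    by_cases h : i = j
    · subst h; simp
    · simp [h]
  have h2 := TP.mon (d := 1) (1 / 2) (Pi.single j (-1)) fun i => by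
    by_cases h : i = j
    · subst h; simp
    · simp [h]
  refine ((h1.add h2).mono le_rfl (by norm_num)).congr fun t => ?_
  have e1 : ∀ a : ℤ, ∑ i, (Pi.single j a : Fin m → ℤ) i • t i = a • t j := by
    intro a
    rw [Finset.sum_eq_single j]
    · simp
    · intro i _ h
      simp [h]
    · simp
  rw [e1, e1, one_smul, neg_smul, one_smul, e_neg, Complex.re_eq_add_conj]
  ring

lemma TP.collect {d : ℕ} {L : ℝ} {F : (Fin m → T) → ℂ} (h : TP d L F) :
    ∃ (W : Finset (Fin m → ℤ)) (a : (Fin m → ℤ) → ℂ), W.card = (2 * d + 1) ^ m ∧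
      ∑ w ∈ W, ‖a w‖ ≤ L ∧ ∀ t, F t = ∑ w ∈ W, a w * e (∑ j, w j • t j) := by
  classical
  obtain ⟨ι, s, c, w, h1, h2, h3⟩ := h
  have hmem : ∀ i ∈ s, w i ∈ Fintype.piFinset fun _ : Fin m => Icc (-(d : ℤ)) d :=
    fun i hi => Fintype.mem_piFinset.2 fun j => Finset.mem_Icc.2 (abs_le.1 (h1 i hi j))
  refine ⟨Fintype.piFinset fun _ => Icc (-(d : ℤ)) d, fun v => ∑ i ∈ s with w i = v, c i, ?_, ?_,
    fun t => ?_⟩
  · rw [Fintype.card_piFinset, Finset.prod_const, Finset.card_univ, Fintype.card_fin,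
      Int.card_Icc]
    congr 1
    omega
  · refine le_trans (Finset.sum_le_sum fun v _ => norm_sum_le _ _) ?_
    rwa [Finset.sum_fiberwise_of_maps_to hmem]
  · rw [h3, ← Finset.sum_fiberwise_of_maps_to hmem]
    refine Finset.sum_congr rfl fun v _ => ?_
    rw [Finset.sum_mul]
    refine Finset.sum_congr rfl fun i hi => ?_
    rw [(Finset.mem_filter.1 hi).2]

lemma abs_clip_le (s : ℝ) : |clip s| ≤ 1 :=
  abs_le.2 ⟨le_max_left _ _, max_le (by norm_num) (min_le_left _ _)⟩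

lemma abs_clip_sub (s t : ℝ) : |clip s - clip t| ≤ |s - t| := by
  unfold clip
  rw [max_comm _ (min 1 s), max_comm _ (min 1 t)]
  refine (abs_max_sub_max_le_abs _ _ _).trans ?_
  simpa using abs_min_sub_min_le_max 1 s 1 t

/-- rate of the Bernstein approximation of a Lipschitz function -/
lemma bern {n : ℕ} (hn : 0 < n) {φ : ℝ → ℝ} {K : ℝ} (hK : 0 ≤ K)
    (hφ : ∀ x y, |φ x - φ y| ≤ K * |x - y|) {x : ℝ} (h0 : 0 ≤ x) (h1 : x ≤ 1) :
    |φ x - ∑ k : Fin (n + 1), φ ((k : ℝ) / n) * ((n.choose k : ℝ) * x ^ (k : ℕ) *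
      (1 - x) ^ (n - k))| ≤ K / (2 * √n) := by
  have hp := bernstein.probability n ⟨x, h0, h1⟩
  have hv := bernstein.variance hn.ne' ⟨x, h0, h1⟩
  have hb : ∀ k : Fin (n + 1), 0 ≤ (n.choose k : ℝ) * x ^ (k : ℕ) * (1 - x) ^ (n - k) := by
    intro k
    have : 0 ≤ 1 - x := by linarith
    positivity
  simp only [bernstein_apply, bernstein.z] at hp hv
  generalize hbdef : (fun k : Fin (n + 1) =>
    (n.choose k : ℝ) * x ^ (k : ℕ) * (1 - x) ^ (n - k)) = b at *
  have hb' : ∀ k : Fin (n + 1), (n.choose k : ℝ) * x ^ (k : ℕ) * (1 - x) ^ (n - k) = b k :=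
    fun k => congrFun hbdef k
  simp only [hb'] at hb hv ⊢
  have hn' : (0 : ℝ) < n := Nat.cast_pos.2 hn
  have hs : 0 < √(n : ℝ) := Real.sqrt_pos.2 hn'
  have hs2 : √(n : ℝ) * √(n : ℝ) = n := Real.mul_self_sqrt hn'.le
  have e1 : φ x - ∑ k : Fin (n + 1), φ ((k : ℝ) / n) * b k =
      ∑ k : Fin (n + 1), (φ x - φ ((k : ℝ) / n)) * b k := by
    simp only [sub_mul, Finset.sum_sub_distrib, ← Finset.mul_sum, hp, mul_one]
  rw [e1]
  refine (Finset.abs_sum_le_sum_abs _ _).trans ?_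
  have e2 : ∀ k : Fin (n + 1), |(φ x - φ ((k : ℝ) / n)) * b k| ≤
      K * √n * ((x - (k : ℝ) / n) ^ 2 * b k) + K / (4 * √n) * b k := by
    intro k
    rw [abs_mul, abs_of_nonneg (hb k), ← mul_assoc, ← add_mul]
    refine mul_le_mul_of_nonneg_right ((hφ _ _).trans ?_) (hb k)
    rw [← sq_abs, mul_assoc, div_eq_mul_one_div K, ← mul_add]
    refine mul_le_mul_of_nonneg_left ?_ hK
    generalize |x - (k : ℝ) / n| = u
    have : √(n : ℝ) * u ^ 2 + 1 / (4 * √n) - u = (2 * √n * u - 1) ^ 2 / (4 * √n) := by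
      field_simp
      ring
    have h2 : 0 ≤ (2 * √(n : ℝ) * u - 1) ^ 2 / (4 * √n) := by positivity
    linarith
  refine (Finset.sum_le_sum fun k _ => e2 k).trans ?_
  rw [Finset.sum_add_distrib, ← Finset.mul_sum, ← Finset.mul_sum, hv, hp, mul_one]
  have e3 : K * √n * (x * (1 - x) / n) ≤ K / (4 * √n) := by
    have : K * √n * (x * (1 - x) / n) = K / √n * (x * (1 - x)) := by
      nth_rewrite 2 [← hs2]
      field_simp
    rw [this, show K / (4 * √n) = K / √n * (1 / 4) by field_simp]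
    exact mul_le_mul_of_nonneg_left (by nlinarith [sq_nonneg (2 * x - 1)]) (by positivity)
  have e4 : K / (2 * √n) = K / (4 * √n) + K / (4 * √n) := by
    field_simp
    ring
  linarith

end Expand

open Expand in
theorem expand : ExpandStmt := by
  intro M m n β hM hm hn hβ0 hβ1
  have hM' : (0 : ℝ) < M := Nat.cast_pos.2 hM
  have hm' : (m : ℝ) ≤ M := Nat.cast_le.2 hm
  set S : (Fin m → T) → ℝ := fun t => β * ∑ j, (e (t j)).re with hS
  have hSabs : ∀ t, |S t| ≤ M := by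
    intro t
    have h1 : |∑ j, (e (t j)).re| ≤ m := by
      refine (Finset.abs_sum_le_sum_abs _ _).trans ?_
      refine (Finset.sum_le_sum fun j _ =>
        (Complex.abs_re_le_norm _).trans (norm_e (t j)).le).trans ?_
      simp
    rw [hS, abs_mul, abs_of_nonneg hβ0]
    nlinarith [abs_nonneg (∑ j, (e (t j)).re)]
  have hTS : ∀ c : ℝ, |c| ≤ 1 / (2 * M) →
      TP 1 1 (fun t => ((1 / 2 + c * S t : ℝ) : ℂ)) := by
    intro c hc
    have h1 := (TP.const (m := m) 1 (1 / 2)).add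
      ((TP.sum univ fun j _ => TP.re (m := m) j).smul ((c * β : ℝ) : ℂ))
    refine (h1.mono le_rfl ?_).congr fun t => ?_
    · rw [Complex.norm_real, Real.norm_eq_abs, abs_mul, abs_of_nonneg hβ0]
      simp only [Finset.sum_const, Finset.card_univ, Fintype.card_fin, nsmul_eq_mul, mul_one]
      have h2 : |c| * (2 * M) ≤ 1 := (le_div_iff₀ (by positivity)).1 hc
      have h3 : β * m ≤ M := by nlinarith [(Nat.cast_nonneg m : (0 : ℝ) ≤ m)]
      have h4 : |c| * (β * m) ≤ |c| * M := mul_le_mul_of_nonneg_left h3 (abs_nonneg c)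
      have h5 : ‖(1 / 2 : ℂ)‖ = 1 / 2 := by norm_num
      rw [h5]
      nlinarith
    · simp only [hS]
      push_cast
      ring
  have hpos : |1 / (2 * (M : ℝ))| = 1 / (2 * M) := abs_of_pos (by positivity)
  have hx := hTS (1 / (2 * M)) hpos.le
  have hy := hTS (-(1 / (2 * M))) (by rw [abs_neg, hpos])
  set φ : ℝ → ℝ := fun x => clip (2 * M * x - M) with hφ
  have hB := TP.sum (d := n) (univ : Finset (Fin (n + 1))) fun k _ =>
    ((((hx.pow k).mul (hy.pow (n - k))).smul ((φ ((k : ℝ) / n) * n.choose k : ℝ) : ℂ)).mono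
      (d' := n) (by have := k.is_le; omega) (L' := (n.choose k : ℝ)) (by
        rw [Complex.norm_real, Real.norm_eq_abs, abs_mul, Nat.abs_cast, mul_one, mul_one]
        exact mul_le_of_le_one_left (Nat.cast_nonneg _) (abs_clip_le _)))
  obtain ⟨W, a, hW, ha, hF⟩ := hB.collect
  refine ⟨W, a, ?_, ha.trans (le_of_eq ?_), fun t => ?_⟩
  · rw [hW]
    push_cast
    exact pow_le_pow_right₀ (by linarith [(Nat.cast_nonneg n : (0 : ℝ) ≤ n)]) hm
  · rw [Fin.sum_univ_eq_sum_range (fun k => (n.choose k : ℝ)) (n + 1), ← Nat.cast_sum,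
      Nat.sum_range_choose]
    push_cast
    rfl
  · rw [← hF]
    have h0 := abs_le.1 (hSabs t)
    have hb := bern hn (φ := φ) (K := 2 * M) (by positivity) (fun x y => by
      refine (abs_clip_sub _ _).trans (le_of_eq ?_)
      rw [show 2 * M * x - M - (2 * M * y - M) = 2 * M * (x - y) by ring, abs_mul,
        abs_of_pos (by positivity : (0 : ℝ) < 2 * M)]) (x := 1 / 2 + 1 / (2 * M) * S t)
      (by
        rw [show 1 / 2 + 1 / (2 * M) * S t = (M + S t) / (2 * M) by field_simp]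
        exact div_nonneg (by linarith) (by positivity))
      (by
        rw [show 1 / 2 + 1 / (2 * M) * S t = (M + S t) / (2 * M) by field_simp,
          div_le_one (by positivity)]
        linarith)
    have e1 : φ (1 / 2 + 1 / (2 * M) * S t) = clip (S t) := by
      simp only [hφ]
      congr 1
      field_simp
      ring
    have e2 : 1 - (1 / 2 + 1 / (2 * M) * S t) = 1 / 2 + -(1 / (2 * M)) * S t := by ring
    have e3 : 2 * (M : ℝ) / (2 * √n) = M / √n := mul_div_mul_left _ _ two_ne_zero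
    rw [e1, e2, e3, ← Real.norm_eq_abs, ← Complex.norm_real] at hb
    refine le_trans (le_of_eq ?_) hb
    congr 1
    push_cast
    congr 1
    exact Finset.sum_congr rfl fun k _ => by ring

end Pool.Agent.Tri
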