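import Pool.Agent.Lib.MP_9721b5_an.Tri.Fourier

/-!
Additive quadruples, and the
approximation of a local homomorphism by a character.
-/

set_option autoImplicit false

open Finset ComplexConjugate

namespace Pool.Agent.Tri

namespace Gowers

lemma pair_expand {ι : Type*} (S : Finset ι) (a : ι → T) :
    ((‖∑ i ∈ S, e (a i)‖ ^ 2 : ℝ) : ℂ) = ∑ q ∈ S ×ˢ S, e (a q.1 - a q.2) := by
  rw [Complex.ofReal_pow, ← Complex.mul_conj', map_sum, sum_mul_sum, sum_product]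
  simp only [e_sub]

lemma quad_expand {ι : Type*} (S : Finset ι) (a : ι → T) :
    ((‖∑ i ∈ S, e (a i)‖ ^ 4 : ℝ) : ℂ) =
      ∑ q ∈ S ×ˢ S ×ˢ S ×ˢ S, e (a q.1 - a q.2.1 - (a q.2.2.1 - a q.2.2.2)) := by
  have h := pair_expand (S ×ˢ S) fun q => a q.1 - a q.2
  rw [← pair_expand, Complex.norm_real, Real.norm_of_nonneg (by positivity), ← pow_mul] at h
  rw [h]
  simp only [sum_product]

variable {N : ℕ} [NeZero N]

/-- autocorrelation of a derivative -/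
noncomputable def cor (f : ZMod N → ℂ) (h u : ZMod N) : ℂ :=
  ∑ y, dd f h (u + y) * conj (dd f h y)

lemma cor_symm (f : ZMod N → ℂ) (h u : ZMod N) : cor f h u = cor f u h := by
  refine sum_congr rfl fun y _ => ?_
  simp only [dd, map_mul, Complex.conj_conj]
  rw [show u + y + h = h + y + u by ring, add_comm y h, add_comm y u]
  ring

lemma ft_cor (f : ZMod N → ℂ) (h η : ZMod N) : ft (cor f h) η = N * mm f h η := by
  have hN : (N : ℂ) ≠ 0 := Nat.cast_ne_zero.2 (NeZero.ne N)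
  have h1 : ∑ w, dd f h w * e (-pr η w) = N * ft (dd f h) η := by
    rw [ft, mul_inv_cancel_left₀ hN]
  refine (ft_corr (dd f h) univ (dd f h) η).trans ?_
  rw [h1, map_mul, mm, Complex.ofReal_pow, ← Complex.mul_conj', map_natCast]
  ring

lemma mm_dual (f : ZMod N → ℂ) (h ξ : ZMod N) :
    (N : ℂ) * mm f h ξ = ∑ u, ∑ η, mm f u η * e (pr η h - pr ξ u) := by
  have hN : (N : ℂ) ≠ 0 := Nat.cast_ne_zero.2 (NeZero.ne N)
  rw [← ft_cor, ft, mul_sum]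
  refine sum_congr rfl fun u _ => ?_
  rw [cor_symm, ft_inv (cor f u) h, sum_mul, mul_sum]
  refine sum_congr rfl fun η _ => ?_
  rw [ft_cor, sub_eq_add_neg, e_add]
  field_simp

lemma sum_four (R : Finset (ZMod N)) (ξ : ZMod N → ZMod N) :
    ∑ u, ∑ η, ‖∑ h ∈ R, e (pr η h - pr (ξ h) u)‖ ^ 4 = (N : ℝ) ^ 2 *
      cnt (R ×ˢ R ×ˢ R ×ˢ R) fun q =>
        q.1 - q.2.1 = q.2.2.1 - q.2.2.2 ∧ ξ q.1 - ξ q.2.1 = ξ q.2.2.1 - ξ q.2.2.2 := by
  apply Complex.ofReal_injective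
  simp only [Complex.ofReal_sum, quad_expand, cnt_eq_sum, mul_sum]
  rw [sum_congr rfl fun u _ => sum_comm, sum_comm]
  refine sum_congr rfl fun q _ => ?_
  have h1 : ∀ u η, e (pr η q.1 - pr (ξ q.1) u - (pr η q.2.1 - pr (ξ q.2.1) u) -
      (pr η q.2.2.1 - pr (ξ q.2.2.1) u - (pr η q.2.2.2 - pr (ξ q.2.2.2) u))) =
      e (pr (ξ q.2.2.1 - ξ q.2.2.2 - (ξ q.1 - ξ q.2.1)) u) *
        e (pr (q.1 - q.2.1 - (q.2.2.1 - q.2.2.2)) η) := fun u η => by
    rw [← e_add]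
    simp only [pr_sub_left, pr_comm η]
    congr 1
    abel
  simp only [h1, ← mul_sum, ← sum_mul, sum_e_pr, sub_eq_zero]
  by_cases c1 : q.1 - q.2.1 = q.2.2.1 - q.2.2.2
  · by_cases c2 : ξ q.1 - ξ q.2.1 = ξ q.2.2.1 - ξ q.2.2.2
    · simp [c1, c2, sq]
    · simp [c2, Ne.symm c2]
  · simp [c1]

lemma cast_eq_zero {M : ℕ} {w : ℤ} (h : (w : ZMod (4 * M + 1)) = 0) (hw : |w| ≤ 4 * M) : w = 0 :=
  Int.eq_zero_of_abs_lt_dvd ((ZMod.intCast_zmod_eq_zero_iff_dvd _ _).1 h) (by push_cast; omega)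

end Gowers

open Gowers

section Cyclic

variable {N : ℕ} [NeZero N]

/-- Gowers: a graph in the large ambiguity region has many additive quadruples -/
theorem gowers_quad {f : ZMod N → ℂ} (hf : ∀ x, ‖f x‖ ≤ 1) (R : Finset (ZMod N))
    (ξ : ZMod N → ZMod N) {α : ℝ} (hα : 0 ≤ α) (h : α * N ≤ ∑ h ∈ R, mm f h (ξ h)) :
    α ^ 4 * (N : ℝ) ^ 3 ≤ cnt (R ×ˢ R ×ˢ R ×ˢ R) fun q =>
      q.1 - q.2.1 = q.2.2.1 - q.2.2.2 ∧ ξ q.1 - ξ q.2.1 = ξ q.2.2.1 - ξ q.2.2.2 := by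
  have hN : (0 : ℝ) < N := Nat.cast_pos.2 (NeZero.pos N)
  obtain ⟨B, hB⟩ : ∃ B : ZMod N → ZMod N → ℂ, B = fun u η => ∑ h ∈ R, e (pr η h - pr (ξ h) u) :=
    ⟨_, rfl⟩
  choose η0 _ h0 using fun u => exists_max_image univ (fun η => ‖B u η‖) univ_nonempty
  have h1 : ((N * ∑ h ∈ R, mm f h (ξ h) : ℝ) : ℂ) = ∑ u, ∑ η, mm f u η * B u η := by
    push_cast
    simp only [mul_sum, mm_dual, hB]
    rw [sum_comm]
    exact sum_congr rfl fun u _ => sum_comm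
  have h2 : N * (α * N) ≤ ∑ u, ‖B u (η0 u)‖ := by
    refine (mul_le_mul_of_nonneg_left h hN.le).trans ((le_abs_self _).trans ?_)
    rw [← Real.norm_eq_abs, ← Complex.norm_real, h1]
    refine norm_sum_le_of_le _ fun u _ => (norm_sum_le_of_le (n := fun η => mm f u η *
      ‖B u (η0 u)‖) _ fun η _ => ?_).trans ?_
    · have h3 : 0 ≤ mm f u η := sq_nonneg _
      rw [norm_mul, Complex.norm_real, Real.norm_of_nonneg h3]
      exact mul_le_mul_of_nonneg_left (h0 u η (mem_univ _)) h3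
    · rw [← sum_mul]
      exact mul_le_of_le_one_left (norm_nonneg _) (sum_mm_le hf u)
  have h3 := pow_sum_le_card_mul_sum_pow (s := univ) (f := fun u => ‖B u (η0 u)‖)
    (fun _ _ => norm_nonneg _) 3
  have h4 : ∑ u, ‖B u (η0 u)‖ ^ (3 + 1) ≤ ∑ u, ∑ η, ‖B u η‖ ^ 4 :=
    sum_le_sum fun u _ => single_le_sum (f := fun η => ‖B u η‖ ^ 4) (fun _ _ => by positivity)
      (mem_univ _)
  rw [card_univ, ZMod.card] at h3
  have h6 := sum_four R ξ
  have h7 : ∑ u, ∑ η, ‖B u η‖ ^ 4 = ∑ u, ∑ η, ‖∑ h ∈ R, e (pr η h - pr (ξ h) u)‖ ^ 4 := by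
    rw [hB]
  rw [h7, h6] at h4
  have h5 := (pow_le_pow_left₀ (by positivity) h2 (3 + 1)).trans
    (h3.trans (mul_le_mul_of_nonneg_left h4 (by positivity)))
  refine le_of_mul_le_mul_left ?_ (pow_pos hN 5)
  calc _ = (N * (α * N)) ^ (3 + 1) := by ring
    _ ≤ _ := h5
    _ = _ := by ring

end Cyclic

/-- a local homomorphism on a dense set of integers correlates with a character -/
theorem lemmaX (S : Finset ℤ) (M : ℕ) (hS : ∀ w ∈ S, |w| ≤ M) (l : ℤ → T)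
    (hl : ∀ w ∈ S, ∀ w' ∈ S, l (w + w') = l w + l w') :
    ∃ θ : T, (S.card : ℝ) ^ 3 ≤ (4 * M + 1) * ‖∑ w ∈ S, e (l w - w • θ)‖ ^ 2 := by
  obtain ⟨F, hF⟩ : ∃ F : (ℤ → T) → ZMod (4 * M + 1) → ℂ,
      F = fun l ξ => ∑ w ∈ S, e (l w - pr ξ (w : ZMod (4 * M + 1))) := ⟨_, rfl⟩
  obtain ⟨ξ0, -, h0⟩ := exists_max_image univ (fun ξ => ‖F l ξ‖) univ_nonempty
  refine ⟨ZMod.toAddCircle ξ0, ?_⟩
  simp only [← pr_intCast]
  have h2 : ∑ ξ, ‖F l ξ‖ ^ 2 = (4 * M + 1) * S.card := by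
    apply Complex.ofReal_injective
    simp only [Complex.ofReal_sum, hF, pair_expand]
    rw [sum_comm, sum_product]
    have h3 : ∀ w ∈ S, ∑ w' ∈ S, ∑ ξ : ZMod (4 * M + 1),
        e (l w - pr ξ w - (l w' - pr ξ w')) = ((4 * M + 1 : ℕ) : ℂ) := fun w hw => by
      rw [sum_eq_single_of_mem w hw fun w' hw' hne => ?_]
      · simp
      · have h4 : ∀ ξ : ZMod (4 * M + 1), e (l w - pr ξ w - (l w' - pr ξ w')) =
            e (l w - l w') * e (pr ((w' - w : ℤ) : ZMod (4 * M + 1)) ξ) := fun ξ => by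
          rw [← e_add, Int.cast_sub, pr_sub_left, pr_comm ξ, pr_comm ξ]
          congr 1
          abel
        simp only [h4, ← mul_sum, sum_e_pr]
        rw [if_neg, mul_zero]
        refine fun h => hne (sub_eq_zero.1 (cast_eq_zero h ?_))
        have := abs_le.1 (hS w hw)
        have := abs_le.1 (hS w' hw')
        rw [abs_le]; omega
    rw [sum_congr rfl h3, sum_const, nsmul_eq_mul]
    push_cast
    ring
  have h4 : ∑ ξ, ‖F l ξ‖ ^ 4 = ∑ ξ, ‖F 0 ξ‖ ^ 4 := by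
    apply Complex.ofReal_injective
    simp only [Complex.ofReal_sum, hF, quad_expand]
    rw [sum_comm, sum_comm (s := univ)]
    refine sum_congr rfl fun q hq => ?_
    simp only [mem_product] at hq
    have h5 : ∀ (l : ℤ → T) (ξ : ZMod (4 * M + 1)), e (l q.1 - pr ξ q.1 - (l q.2.1 - pr ξ q.2.1) -
        (l q.2.2.1 - pr ξ q.2.2.1 - (l q.2.2.2 - pr ξ q.2.2.2))) =
        e (l q.1 + l q.2.2.2 - (l q.2.1 + l q.2.2.1)) *
          e (pr ((q.2.1 + q.2.2.1 - (q.1 + q.2.2.2) : ℤ) : ZMod (4 * M + 1)) ξ) := fun l ξ => by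
      rw [← e_add]
      push_cast
      simp only [pr_sub_left, pr_add_left, pr_comm ξ]
      congr 1
      abel
    simp only [h5, ← mul_sum, sum_e_pr]
    split_ifs with h
    · have := abs_le.1 (hS _ hq.1)
      have := abs_le.1 (hS _ hq.2.1)
      have := abs_le.1 (hS _ hq.2.2.1)
      have := abs_le.1 (hS _ hq.2.2.2)
      rw [← hl _ hq.1 _ hq.2.2.2, ← hl _ hq.2.1 _ hq.2.2.1,
        sub_eq_zero.1 (cast_eq_zero h (by rw [abs_le]; omega))]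
      simp
    · simp
  have h5 : (S.card : ℝ) ^ 4 ≤ ∑ ξ, ‖F 0 ξ‖ ^ 4 :=
    le_trans (by simp [hF]) (single_le_sum (f := fun ξ => ‖F 0 ξ‖ ^ 4) (fun _ _ => by positivity)
      (mem_univ 0))
  have h6 : ∑ ξ, ‖F l ξ‖ ^ 4 ≤ ‖F l ξ0‖ ^ 2 * ∑ ξ, ‖F l ξ‖ ^ 2 := by
    rw [mul_sum]
    refine sum_le_sum fun ξ _ => ?_
    rw [show ‖F l ξ‖ ^ 4 = ‖F l ξ‖ ^ 2 * ‖F l ξ‖ ^ 2 by ring]
    exact mul_le_mul_of_nonneg_right (pow_le_pow_left₀ (norm_nonneg _) (h0 ξ (mem_univ _)) 2)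
      (by positivity)
  rw [h2, h4] at h6
  rcases S.eq_empty_or_nonempty with rfl | hne
  · simp
  have h7 : (0 : ℝ) < S.card := Nat.cast_pos.2 hne.card_pos
  refine le_of_mul_le_mul_left ?_ h7
  calc _ = (S.card : ℝ) ^ 4 := by ring
    _ ≤ _ := h5.trans h6
    _ = _ := by rw [hF]; ring

end Pool.Agent.Tri
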