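import Pool.Agent.Lib.MP_9721b5_an.Tri.Stmts
import Pool.Agent.Lib.MP_9721b5_an.Tri.Gowers

/-!
A graph in the large ambiguity region is locally affine on a large set.
-/

set_option autoImplicit false

open Finset ComplexConjugate Real

namespace Pool.Agent.Tri

namespace Graph

variable {N : ℕ} [NeZero N]

/-- Freiman homomorphism of order six -/
def Frei (A : Finset (ZMod N)) (ξ : ZMod N → ZMod N) : Prop :=
  ∀ y y' : Fin 6 → ZMod N, (∀ i, y i ∈ A ∧ y' i ∈ A) → ∑ i, y i = ∑ i, y' i →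
    ∑ i, ξ (y i) = ∑ i, ξ (y' i)

lemma pr_sum_left {ι : Type*} (S : Finset ι) (ξ : ι → ZMod N) (z : ZMod N) :
    pr (∑ i ∈ S, ξ i) z = ∑ i ∈ S, pr (ξ i) z := by
  simp only [pr, Finset.sum_mul, map_sum]

lemma eq_zero_of_re {ζ : ZMod N} (h : (N : ℝ) / 2 ≤ ∑ z, (e (pr ζ z)).re) : ζ = 0 := by
  by_contra hζ
  rw [← Complex.re_sum, sum_e_pr, if_neg hζ, Complex.zero_re] at h
  have : (0 : ℝ) < N := by exact_mod_cast Nat.pos_of_ne_zero (NeZero.ne N)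
  linarith

/-- a large subset on which the graph is a Freiman homomorphism -/
lemma exists_frei (hC : CoverStmt) : ∃ C : ℕ, ∀ p : ℝ, 2 ≤ p → ∀ (N : ℕ) [NeZero N]
    (f : ZMod N → ℂ), (∀ x, ‖f x‖ ≤ 1) → ∀ (R : Finset (ZMod N)) (ξ : ZMod N → ZMod N),
    exp (-p) * N ≤ R.card → (∀ h ∈ R, exp (-p) ≤ mm f h (ξ h)) →
    ∃ A ⊆ R, exp (-(8 * p) ^ C) * N ≤ A.card ∧ Frei A ξ := by
  obtain ⟨C, hC⟩ := hC
  refine ⟨C, fun p hp N _ f hf R ξ hR hm => ?_⟩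
  have h1 : exp (-(2 * p)) * N ≤ ∑ h ∈ R, mm f h (ξ h) := by
    calc exp (-(2 * p)) * N = exp (-p) * (exp (-p) * N) := by
          rw [← mul_assoc, ← exp_add]; ring_nf
      _ ≤ exp (-p) * R.card := mul_le_mul_of_nonneg_left hR (exp_pos _).le
      _ = ∑ _h ∈ R, exp (-p) := by rw [sum_const, nsmul_eq_mul, mul_comm]
      _ ≤ _ := sum_le_sum hm
  have h2 := gowers_quad hf R ξ (exp_pos _).le h1
  have h3 : exp (-(2 * p)) ^ 4 = exp (-(8 * p)) := by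
    rw [← exp_nat_mul]; congr 1; push_cast; ring
  rw [h3] at h2
  obtain ⟨A, hAR, hA, hF⟩ := hC (8 * p) (by linarith) (ZMod N) (ZMod N) (fun h z => pr (ξ h) z)
    R {0} {0} 0 (by positivity)
    (by
      rw [ZMod.card]
      refine h2.trans (cnt_mono fun q _ hq => ⟨hq.1, fun z => ?_⟩)
      have : ξ q.1 - ξ q.2.1 - ξ q.2.2.1 + ξ q.2.2.2 = 0 := by rw [hq.2]; ring
      rw [← pr_sub_left, ← pr_sub_left, ← pr_add_left, this, pr_zero_left, norm_zero])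
    (singleton_nonempty _)
    ⟨{0}, by simp, fun b hb t t' ht => by
      have h0 : ∀ i, t i = 0 := fun i => mem_singleton.1 (ht i).1
      have h0' : ∀ i, t' i = 0 := fun i => mem_singleton.1 (ht i).2
      simp [mem_singleton.1 hb, h0, h0']⟩
    (fun y _ z => ⟨fun t ht => by simp [mem_singleton.1 ht],
      fun b hb b' hb' => by simp [mem_singleton.1 hb, mem_singleton.1 hb']⟩)
  rw [ZMod.card] at hA
  refine ⟨A, hAR, hA, fun y y' hy hs => ?_⟩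
  have := hF y y' 0 0 (fun i => ⟨(hy i).1, (hy i).2, by simp, by simp⟩) (by simpa using hs)
  simp only [Pi.zero_apply, add_zero, ZMod.card] at this
  refine sub_eq_zero.1 (eq_zero_of_re ?_)
  simpa only [pr_sub_left, pr_sum_left] using this

/-- `u` is written as `a₁ + a₂ - a₃ - a₄` and `l` is the corresponding value -/
def Rep (A : Finset (ZMod N)) (ξ : ZMod N → ZMod N) (u l : ZMod N) : Prop :=
  ∃ a₁ ∈ A, ∃ a₂ ∈ A, ∃ a₃ ∈ A, ∃ a₄ ∈ A, u = a₁ + a₂ - a₃ - a₄ ∧ l = ξ a₁ + ξ a₂ - ξ a₃ - ξ a₄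

omit [NeZero N] in
lemma Rep.add {A : Finset (ZMod N)} {ξ : ZMod N → ZMod N} (hF : Frei A ξ) {u v l m n : ZMod N}
    (hu : Rep A ξ u l) (hv : Rep A ξ v m) (huv : Rep A ξ (u + v) n) : n = l + m := by
  obtain ⟨a₁, h₁, a₂, h₂, a₃, h₃, a₄, h₄, rfl, rfl⟩ := hu
  obtain ⟨b₁, k₁, b₂, k₂, b₃, k₃, b₄, k₄, rfl, rfl⟩ := hv
  obtain ⟨c₁, l₁, c₂, l₂, c₃, l₃, c₄, l₄, hc, rfl⟩ := huv
  have := hF ![a₁, a₂, b₁, b₂, c₃, c₄] ![a₃, a₄, b₃, b₄, c₁, c₂]
    (fun i => by fin_cases i <;> simp [*])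
    (by simp only [Fin.sum_univ_six]; simp; linear_combination hc)
  simp only [Fin.sum_univ_six] at this
  simp at this
  linear_combination -this

omit [NeZero N] in
lemma Rep.graph {A : Finset (ZMod N)} {ξ : ZMod N → ZMod N} (hF : Frei A ξ) {h h' l : ZMod N}
    (hh : h ∈ A) (hh' : h' ∈ A) (hu : Rep A ξ (h' - h) l) : ξ h' - ξ h = l := by
  obtain ⟨a₁, h₁, a₂, h₂, a₃, h₃, a₄, h₄, hc, rfl⟩ := hu
  have := hF ![h', a₃, a₄, h, h, h] ![h, a₁, a₂, h, h, h]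
    (fun i => by fin_cases i <;> simp [*])
    (by simp only [Fin.sum_univ_six]; simp; linear_combination hc)
  simp only [Fin.sum_univ_six] at this
  simp at this
  linear_combination this

end Graph

open _root_.Pool.Agent.Tri.Graph in
theorem graph (hS : SandersStmt) (hC : CoverStmt) : GraphStmt := by
  obtain ⟨C₁, h₁⟩ := exists_frei hC
  obtain ⟨C₂, h₂⟩ := hS
  refine ⟨4 * (C₁ + 1) * (C₂ + 1) + 1, fun p hp N _ f hf R ξ hR hm => ?_⟩
  obtain ⟨A, hAR, hA, hF⟩ := h₁ p hp N f hf R ξ hR hm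
  have hp1 : (1 : ℝ) ≤ p := by linarith
  have h8 : (1 : ℝ) ≤ 8 * p := by linarith
  set q : ℝ := (8 * p) ^ (C₁ + 1) with hq
  have hq1 : (8 * p) ^ C₁ ≤ q := pow_le_pow_right₀ h8 (Nat.le_succ _)
  have hq2 : 2 ≤ q := by
    calc (2 : ℝ) ≤ (8 * p) ^ 1 := by rw [pow_one]; linarith
      _ ≤ q := pow_le_pow_right₀ h8 (Nat.le_add_left _ _)
  have hq3 : q ≤ p ^ (4 * (C₁ + 1)) := by
    rw [pow_mul]
    refine pow_le_pow_left₀ (by linarith) ?_ _
    have : (2 : ℝ) ^ 3 ≤ p ^ 3 := pow_le_pow_left₀ (by norm_num) hp 3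
    calc 8 * p ≤ p ^ 3 * p := mul_le_mul_of_nonneg_right (by linarith) (by linarith)
      _ = p ^ 4 := by ring
  have hq4 : q ^ (C₂ + 1) ≤ p ^ (4 * (C₁ + 1) * (C₂ + 1)) := by
    rw [pow_mul p (4 * (C₁ + 1))]
    exact pow_le_pow_left₀ (by linarith) hq3 _
  have hq5 : q ^ C₂ ≤ q ^ (C₂ + 1) := pow_le_pow_right₀ (by linarith) (Nat.le_succ _)
  have hq6 : q ≤ q ^ (C₂ + 1) := by
    calc q = q ^ 1 := (pow_one q).symm
      _ ≤ _ := pow_le_pow_right₀ (by linarith) (Nat.le_add_left _ _)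
  set P : ℝ := p ^ (4 * (C₁ + 1) * (C₂ + 1) + 1) with hP
  have hP2 : 2 * q ^ (C₂ + 1) ≤ P := by
    rw [hP, pow_succ p, mul_comm _ p]
    exact mul_le_mul hp hq4 (by positivity) (by linarith)
  have hN : (0 : ℝ) ≤ N := Nat.cast_nonneg N
  have hAq : exp (-q) * N ≤ A.card :=
    (mul_le_mul_of_nonneg_right (exp_le_exp.2 (by linarith)) hN).trans hA
  obtain ⟨Θ, hΘ, hB⟩ := h₂ q hq2 N A hAq
  have hr : exp (-P) + exp (-P) ≤ exp (-q ^ C₂) := by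
    have h2 : (2 : ℝ) ≤ exp 1 := by linarith [add_one_le_exp (1 : ℝ)]
    calc exp (-P) + exp (-P) = 2 * exp (-P) := by ring
      _ ≤ exp 1 * exp (-P) := mul_le_mul_of_nonneg_right h2 (exp_pos _).le
      _ = exp (1 + -P) := (exp_add _ _).symm
      _ ≤ _ := exp_le_exp.2 (by linarith)
  have hex : ∀ u, ∃ l, InN Θ (exp (-P) + exp (-P)) u → Rep A ξ u l := by
    intro u
    by_cases hu : InN Θ (exp (-P) + exp (-P)) u
    · obtain ⟨a₁, k₁, a₂, k₂, a₃, k₃, a₄, k₄, h⟩ := hB u (hu.mono Subset.rfl hr)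
      exact ⟨_, fun _ => ⟨a₁, k₁, a₂, k₂, a₃, k₃, a₄, k₄, h, rfl⟩⟩
    · exact ⟨0, fun h => absurd h hu⟩
  choose L hL using hex
  have hle : exp (-P) ≤ exp (-P) + exp (-P) := by linarith [exp_pos (-P)]
  refine ⟨A, hAR, Θ, L, ?_, by linarith, fun u v hu hv => ?_, fun h hh h' hh' hd => ?_⟩
  · exact (mul_le_mul_of_nonneg_right (exp_le_exp.2 (by linarith)) hN).trans hAq
  · exact Rep.add hF (hL u (hu.mono Subset.rfl hle)) (hL v (hv.mono Subset.rfl hle))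
      (hL _ (hu.add hv))
  · exact Rep.graph hF hh hh' (hL _ (hd.mono Subset.rfl hle))

end Pool.Agent.Tri
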