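import Pool.Agent.Lib.MP_9721b5_an.Tri.Level2

/-!
The level statement: choice of the parameters.
-/

set_option autoImplicit false

open Finset Real

namespace Pool.Agent.Tri

namespace Level

lemma ceil_le_pow {u x : ℝ} (hu : 2 ≤ u) (hx : 0 ≤ x) {r : ℕ} (h : x ≤ u ^ r) :
    (⌈x⌉₊ : ℝ) ≤ u ^ (r + 1) := by
  have h1 := (Nat.ceil_lt_add_one hx).le
  have h2 : 1 ≤ u ^ r := one_le_pow₀ (by linarith)
  rw [pow_succ]
  nlinarith

lemma le_exp (x : ℝ) : x ≤ exp x := by linarith [add_one_le_exp x]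

/-- the numerical inequalities -/
lemma nums {u z q : ℝ} {M n a s : ℕ} (hu : 100 ≤ u) (huz : u ≤ z) (hM : (M : ℝ) ≤ z)
    (hn : (n : ℝ) ≤ z) (hq : q = u * z ^ 2) (ha : 2 * (a : ℝ) ≤ u) (hs : (s : ℝ) + 2 ≤ u)
    (he : (s + 1) * q ≤ exp u) :
    ((2 : ℝ) ^ n) ^ 3 * (1 / exp q) ≤ 1 / (10 * u) ∧
    (M + 1) * ((((2 * n + 1 : ℝ)) ^ M) ^ 3 * (1 / exp q)) ≤ 1 / (4 * u) ∧
    (M + 1) * M * exp (-(2 * exp (exp u))) / exp (-exp q ^ s) ≤ 1 / (4 * u) ∧
    (M + 1) * ((((2 * n + 1 : ℝ)) ^ M) ^ 3 * exp (exp q ^ s) + 1) ≤ exp (exp (u * q)) ∧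
    (2 * exp (exp u)) ^ a ≤ exp (exp q) ∧ M * (2 * exp (exp u)) ^ a ≤ exp (exp q) ∧
    24 * u ≤ 2 * exp (exp u) ∧ 2 ≤ exp q := by
  have hz : 100 ≤ z := hu.trans huz
  have hM0 : (0 : ℝ) ≤ M := Nat.cast_nonneg M
  have hn0 : (0 : ℝ) ≤ n := Nat.cast_nonneg n
  have hs0 : (0 : ℝ) ≤ s := Nat.cast_nonneg s
  have ha0 : (0 : ℝ) ≤ a := Nat.cast_nonneg a
  have hz2 : 100 * z ≤ z ^ 2 := by nlinarith
  have hq2 : 100 * z ^ 2 ≤ q := by rw [hq]; nlinarith
  have hqe : q ≤ exp u := by nlinarith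
  have hM1 : (M : ℝ) + 1 ≤ exp z := (add_one_le_exp _).trans (exp_le_exp.2 hM)
  have hMz : (M : ℝ) ≤ exp z := by linarith
  have hW : (((2 * n + 1 : ℝ)) ^ M) ^ 3 ≤ exp (6 * z ^ 2) := by
    have h1 : (2 * n + 1 : ℝ) ≤ exp (2 * z) := (add_one_le_exp _).trans (exp_le_exp.2 (by linarith))
    calc (((2 * n + 1 : ℝ)) ^ M) ^ 3 ≤ ((exp (2 * z)) ^ M) ^ 3 := by gcongr
      _ = exp (3 * (M * (2 * z))) := by rw [← exp_nat_mul, ← exp_nat_mul]; norm_num
      _ ≤ exp (6 * z ^ 2) := exp_le_exp.2 (by nlinarith)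
  have h4u : 4 * u ≤ exp (4 * z) := (le_exp _).trans (exp_le_exp.2 (by linarith))
  have hE : exp u ≤ exp (exp u) := le_exp _
  have hqs : exp q ^ s = exp (s * q) := (exp_nat_mul q s).symm
  have hA : M * (2 * exp (exp u)) ^ a ≤ exp (exp q) ∧ (2 * exp (exp u)) ^ a ≤ exp (exp q) := by
    have h1 : 2 * exp (exp u) ≤ exp (2 * exp u) := by
      rw [two_mul (exp u), exp_add]
      have : 2 ≤ exp (exp u) := by linarith
      nlinarith
    have h2 : (2 * exp (exp u)) ^ a ≤ exp (z * exp u) := by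
      calc (2 * exp (exp u)) ^ a ≤ exp (2 * exp u) ^ a := by gcongr
        _ = exp (a * (2 * exp u)) := (exp_nat_mul _ a).symm
        _ ≤ exp (z * exp u) := exp_le_exp.2 (by nlinarith [exp_pos u])
    have h3 : z + z * exp u ≤ exp q := by
      have h4 : 1 ≤ exp u := by linarith
      have h5 : 2 * z ≤ exp (2 * z) := le_exp _
      calc z + z * exp u ≤ 2 * z * exp u := by nlinarith
        _ ≤ exp (2 * z) * exp u := by gcongr
        _ = exp (2 * z + u) := (exp_add _ _).symm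
        _ ≤ exp q := exp_le_exp.2 (by linarith)
    refine ⟨?_, h2.trans (exp_le_exp.2 (by linarith))⟩
    calc M * (2 * exp (exp u)) ^ a ≤ exp z * exp (z * exp u) := by gcongr
      _ = exp (z + z * exp u) := (exp_add _ _).symm
      _ ≤ exp (exp q) := exp_le_exp.2 h3
  refine ⟨?_, ?_, ?_, ?_, hA.2, hA.1, by linarith, by linarith [le_exp q]⟩
  · rw [mul_one_div, div_le_div_iff₀ (exp_pos q) (by linarith), one_mul]
    have h1 : (2 : ℝ) ≤ exp 1 := by linarith [add_one_le_exp (1 : ℝ)]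
    have h2 : 10 * u ≤ exp (10 * z) := (le_exp _).trans (exp_le_exp.2 (by linarith))
    calc ((2 : ℝ) ^ n) ^ 3 * (10 * u) ≤ (exp 1 ^ n) ^ 3 * exp (10 * z) := by gcongr
      _ = exp (3 * (n * 1) + 10 * z) := by
        rw [exp_add, ← exp_nat_mul, ← exp_nat_mul]; norm_num
      _ ≤ exp q := exp_le_exp.2 (by linarith)
  · rw [mul_one_div, ← mul_div_assoc, div_le_div_iff₀ (exp_pos q) (by linarith), one_mul]
    calc (M + 1) * ((2 * n + 1 : ℝ) ^ M) ^ 3 * (4 * u)
        ≤ exp z * exp (6 * z ^ 2) * exp (4 * z) := by gcongr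
      _ = exp (z + 6 * z ^ 2 + 4 * z) := by rw [exp_add, exp_add]
      _ ≤ exp q := exp_le_exp.2 (by linarith)
  · rw [div_le_div_iff₀ (exp_pos _) (by linarith), one_mul, hqs]
    have h1 : exp (s * q) ≤ exp (exp u) := exp_le_exp.2 (by nlinarith)
    calc (M + 1) * M * exp (-(2 * exp (exp u))) * (4 * u)
        ≤ exp z * exp z * exp (-(2 * exp (exp u))) * exp (4 * z) := by gcongr
      _ = exp (z + z + -(2 * exp (exp u)) + 4 * z) := by rw [exp_add, exp_add, exp_add]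
      _ ≤ exp (-exp (s * q)) := exp_le_exp.2 (by linarith)
  · rw [hqs]
    have h1 : 1 ≤ exp (6 * z ^ 2) * exp (exp (s * q)) := by
      rw [← exp_add]
      exact one_le_exp (by positivity)
    have h2 : (2 : ℝ) ≤ exp 1 := by linarith [add_one_le_exp (1 : ℝ)]
    have h3 : q + exp (s * q) ≤ exp (u * q) := by
      have h4 : q ≤ exp ((s + 1) * q) := (le_exp _).trans (exp_le_exp.2 (by nlinarith))
      have h5 : exp (s * q) ≤ exp ((s + 1) * q) := exp_le_exp.2 (by nlinarith)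
      calc q + exp (s * q) ≤ 2 * exp ((s + 1) * q) := by linarith
        _ ≤ exp 1 * exp ((s + 1) * q) := by gcongr
        _ = exp (1 + (s + 1) * q) := (exp_add _ _).symm
        _ ≤ exp (u * q) := exp_le_exp.2 (by nlinarith)
    calc (M + 1) * (((2 * n + 1 : ℝ) ^ M) ^ 3 * exp (exp (s * q)) + 1)
        ≤ exp z * (exp (6 * z ^ 2) * exp (exp (s * q)) + exp (6 * z ^ 2) * exp (exp (s * q))) := by
          gcongr
      _ = exp z * (2 * (exp (6 * z ^ 2) * exp (exp (s * q)))) := by ring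
      _ ≤ exp z * (exp 1 * (exp (6 * z ^ 2) * exp (exp (s * q)))) := by gcongr
      _ = exp (z + (1 + (6 * z ^ 2 + exp (s * q)))) := by rw [exp_add, exp_add, exp_add]
      _ ≤ exp (exp (u * q)) := exp_le_exp.2 (by linarith)

end Level

open Level

theorem lvl (hA : AZStmt) (hS : SStmt) (hE : ExpandStmt) : LvlStmt := by
  obtain ⟨a, hA⟩ := hA
  obtain ⟨s, hS⟩ := hS
  obtain ⟨F, hF0, hF⟩ : ∃ F : ℕ, 0 < F ∧ ∀ u : ℝ, 0 ≤ u → u ^ (16 * a + 24) / F ≤ exp u :=
    ⟨_, Nat.factorial_pos _, fun u hu => pow_div_factorial_le_exp u hu _⟩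
  refine ⟨(s + 1) * F + 16 * a + s + 102, fun u hu D f g h hf hg hh => ?_⟩
  set C := (s + 1) * F + 16 * a + s + 102 with hC
  have hfac : (0 : ℝ) < F := by exact_mod_cast hF0
  have ha0 : (0 : ℝ) ≤ a := Nat.cast_nonneg a
  have hs0 : (0 : ℝ) ≤ s := Nat.cast_nonneg s
  have hu' : (s + 1) * (F : ℝ) + 16 * a + s + 102 ≤ u := by
    rw [hC] at hu
    exact_mod_cast hu
  have hsf : 0 ≤ (s + 1) * (F : ℝ) := by positivity
  have hu100 : 100 ≤ u := by linarith
  have hu0 : 0 < u := by linarith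
  have hu1 : 1 ≤ u := by linarith
  set γ : ℝ := 1 / (24 * u) with hγ
  have hγ0 : 0 < γ := by positivity
  have hγ1 : γ ≤ 1 / 2 := one_div_le_one_div_of_le (by norm_num) (by linarith)
  set c : ℝ := γ ^ a with hc
  have hc0 : 0 < c := by positivity
  have hc1 : c ≤ 1 := pow_le_one₀ hγ0.le (by linarith)
  set M : ℕ := ⌈12 * u / c ^ 2⌉₊ with hM
  have hM0 : 0 < M := Nat.ceil_pos.2 (by positivity)
  have hM0' : (0 : ℝ) < M := by exact_mod_cast hM0
  have hMge : 12 * u / c ^ 2 ≤ M := Nat.le_ceil _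
  have hMle : (M : ℝ) ≤ u ^ (4 * a + 2 + 1) := by
    refine ceil_le_pow (by linarith) (by positivity) ?_
    have h1 : 12 * u / c ^ 2 = 12 * u * (24 * u) ^ (2 * a) := by
      rw [hc, hγ, ← pow_mul, one_div, inv_pow, div_inv_eq_mul, mul_comm a 2]
    have h2 : 24 * u ≤ u ^ 2 := by nlinarith
    rw [h1]
    calc 12 * u * (24 * u) ^ (2 * a) ≤ u ^ 2 * (u ^ 2) ^ (2 * a) := by gcongr; nlinarith
      _ = u ^ (4 * a + 2) := by ring
  set n : ℕ := ⌈(100 * u * M) ^ 2⌉₊ with hn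
  have hn0 : 0 < n := Nat.ceil_pos.2 (by positivity)
  have hnge : (100 * u * M) ^ 2 ≤ n := Nat.le_ceil _
  have hnle : (n : ℝ) ≤ u ^ (8 * a + 10 + 1) := by
    refine ceil_le_pow (by linarith) (by positivity) ?_
    calc (100 * u * M) ^ 2 ≤ (u * u * u ^ (4 * a + 2 + 1)) ^ 2 := by gcongr
      _ = u ^ (8 * a + 10) := by ring
  set z : ℝ := u ^ (8 * a + 10 + 1) with hz
  set q : ℝ := u * z ^ 2 with hq
  have huq : u * q = u ^ (16 * a + 24) := by rw [hq, hz]; ring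
  have he : (s + 1) * q ≤ exp u := by
    refine le_trans ?_ (hF u hu0.le)
    rw [le_div_iff₀ hfac, ← huq]
    have : 0 ≤ q := by positivity
    nlinarith
  obtain ⟨n1, n2, n3, n4, n5, n6, n7, n8⟩ := nums (a := a) hu100
    (le_self_pow₀ hu1 (by omega)) (hMle.trans (pow_le_pow_right₀ hu1 (by omega))) hnle hq
    (by linarith) (by linarith) he
  set pA : ℝ := 2 * exp (exp u) with hpA
  have hδ : (M : ℝ) / √n ≤ 1 / (100 * u) := by
    have h1 : 100 * u * M ≤ √n := le_sqrt_of_sq_le hnge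
    rw [div_le_div_iff₀ (lt_of_lt_of_le (by positivity) h1) (by positivity)]
    linarith
  have hAp : AZp (exp (-exp (exp u))) γ c (pA ^ a) (exp (-pA ^ a)) (exp (-pA)) := by
    intro k j v hv i hd
    refine hA pA γ (by linarith) (one_div_le_one_div_of_le (by positivity) n7) hγ1 k j v hv i
      (le_trans ?_ hd)
    refine mul_le_mul_of_nonneg_right ?_ (by positivity)
    rw [hpA, two_mul, neg_add, exp_add, le_div_iff₀ (by norm_num), mul_assoc]
    refine mul_le_of_le_one_right (exp_pos _).le ?_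
    rw [exp_neg, inv_mul_le_iff₀ (exp_pos _), mul_one]
    linarith [le_exp (exp (exp u))]
  have hSp : Sp (M * pA ^ a) (exp (-pA ^ a)) (exp (-exp q ^ s)) (1 / exp q) (exp (exp q ^ s)) := by
    intro Θ φ D j h1 h2
    refine (hS (exp q) n8 Θ _ φ D j (h1.trans n6) (exp_le_exp.2 (neg_le_neg n5)) h2).mono
      (le_of_eq (by ring)) le_rfl
  have hEp : Ep M c (M / √n) ((2 * n + 1) ^ M) (2 ^ n) := fun l hl =>
    hE M l n c hM0 hl hn0 hc0.le hc1
  obtain ⟨Bad, h1, h2⟩ := root hAp hSp hEp (exp_pos _).le hc0 (by positivity) (exp_pos _).le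
    (exp_pos _) (hδ.trans (by rw [div_le_one (by positivity)]; linarith)) (by positivity)
    (by positivity) (exp_pos _).le (by positivity) (f := ![f, g, h])
    (fun i => by fin_cases i <;> assumption) D
  refine ⟨Bad, h1, (h2.mono ?_ ?_).imp ?_⟩
  · have h3 : 3 / (c ^ 2 * (M + 1)) ≤ 1 / (4 * u) := by
      rw [div_le_iff₀ (by positivity)] at hMge
      rw [div_le_div_iff₀ (by positivity) (by positivity)]
      nlinarith [sq_nonneg c]
    have h4 : 1 / (4 * u) + 1 / (4 * u) + 1 / (4 * u) ≤ 1 / u := by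
      have : 1 / (4 * u) = 1 / 4 * (1 / u) := by field_simp
      have h5 : 0 < 1 / u := by positivity
      linarith
    rw [div_eq_mul_one_div (2 ^ D) u, mul_comm (2 ^ D)]
    exact mul_le_mul_of_nonneg_right (by linarith) (by positivity)
  · refine mul_le_mul_of_nonneg_right (n4.trans (exp_le_exp.2 (exp_le_exp.2 ?_))) (by positivity)
    rw [huq]
    exact pow_le_pow_right₀ hu1 (by omega)
  · intro x _ k' k _ _ _ hR a1 a2 b1 b2 N' N c1 c2
    refine (hR a1 a2 b1 b2 N' N c1 c2).trans ?_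
    have e1 : γ = 1 / 24 * (1 / u) := by rw [hγ]; field_simp
    have e2 : 1 / (100 * u) = 1 / 100 * (1 / u) := by field_simp
    have e3 : 1 / (10 * u) = 1 / 10 * (1 / u) := by field_simp
    have h5 : 0 < 1 / u := by positivity
    linarith

end Pool.Agent.Tri
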