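import Pool.Agent.Lib.MP_9721b5_an.Tri.Tree
import Pool.Agent.Lib.MP_9721b5_an.Tri.Stmts

/-!
The level statement, first part: the potential, the energy decrement, the expansion of a state.
-/

set_option autoImplicit false

open Finset

namespace Pool.Agent.Tri.Level

lemma abs_clip_le (s : ℝ) : |clip s| ≤ 1 := by
  unfold clip
  rw [abs_le]
  exact ⟨le_max_left _ _, max_le (by norm_num) (min_le_left _ _)⟩

lemma clip_proj (s : ℝ) {t : ℝ} (ht : |t| ≤ 1) : (s - clip s) * (t - clip s) ≤ 0 := by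
  rw [abs_le] at ht
  unfold clip
  rcases le_total 1 s with h | h
  · rw [min_eq_left h, max_eq_right (by norm_num)]
    exact mul_nonpos_of_nonneg_of_nonpos (by linarith) (by linarith)
  · rw [min_eq_right h]
    rcases le_total s (-1) with h' | h'
    · rw [max_eq_left h']
      exact mul_nonpos_of_nonpos_of_nonneg (by linarith) (by linarith)
    · rw [max_eq_right h', sub_self, zero_mul]

/-- the potential -/
noncomputable def pot (f s : ℝ) : ℝ := s * clip s - clip s ^ 2 / 2 - f * s + f ^ 2 / 2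

lemma pot_nonneg {f : ℝ} (hf : |f| ≤ 1) (s : ℝ) : 0 ≤ pot f s := by
  have h := clip_proj s hf
  unfold pot
  nlinarith [sq_nonneg (clip s - f)]

lemma pot_add (f s v : ℝ) : pot f (s + v) ≤ pot f s - v * (f - clip s) + v ^ 2 / 2 := by
  have h := clip_proj s (abs_clip_le (s + v))
  unfold pot
  nlinarith [sq_nonneg (v - (clip (s + v) - clip s))]

lemma pot_zero {f : ℝ} (hf : |f| ≤ 1) : pot f 0 ≤ 1 / 2 := by
  have h : clip 0 = 0 := by simp [clip]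
  have h2 : f ^ 2 ≤ 1 := by rw [← sq_abs]; nlinarith [abs_nonneg f]
  unfold pot
  rw [h]
  linarith

/-- total potential at a point -/
noncomputable def Pot (f S : Fin 3 → ℕ → ℝ) (y : ℕ) : ℝ := ∑ i, pot (f i y) (S i y)

lemma Pot_nonneg {f : Fin 3 → ℕ → ℝ} (hf : ∀ i, Bdd (f i)) (S : Fin 3 → ℕ → ℝ) (y : ℕ) :
    0 ≤ Pot f S y := sum_nonneg fun i _ => pot_nonneg (hf i y) _

/-- the average of a triple -/
noncomputable def Av3 (f : Fin 3 → ℕ → ℝ) (x N : ℕ) : ℝ := Av (f 0) (f 1) (f 2) x N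

/-- the residual triples -/
noncomputable def res (f F : Fin 3 → ℕ → ℝ) (i i' : Fin 3) (y : ℕ) : ℝ :=
  if i' < i then F i' y else if i' = i then (f i' y - F i' y) / 2 else f i' y

lemma res_bdd {f F : Fin 3 → ℕ → ℝ} (hf : ∀ i, Bdd (f i)) (hF : ∀ i, Bdd (F i)) (i i' : Fin 3) :
    Bdd (res f F i i') := fun y => by
  unfold res
  split_ifs
  · exact hF i' y
  · have h1 := abs_le.1 (hf i' y)
    have h2 := abs_le.1 (hF i' y)
    rw [abs_le]
    constructor <;> linarith [h1.1, h1.2, h2.1, h2.2]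
  · exact hf i' y

lemma Av3_sub (f F : Fin 3 → ℕ → ℝ) (x N : ℕ) :
    Av3 f x N - Av3 F x N =
      2 * (Av3 (res f F 0) x N + Av3 (res f F 1) x N + Av3 (res f F 2) x N) := by
  simp only [Av3, Av, ← mul_sub, ← mul_add, ← sum_sub_distrib, ← sum_add_distrib]
  rw [mul_left_comm, mul_sum _ _ (2 : ℝ)]
  refine congrArg _ (sum_congr rfl fun n _ => ?_)
  have a1 : ¬ (0 : Fin 3) < 0 := by decide
  have a2 : ¬ (1 : Fin 3) < 0 := by decide
  have a3 : ¬ (2 : Fin 3) < 0 := by decide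
  have a4 : (0 : Fin 3) < 1 := by decide
  have a5 : ¬ (1 : Fin 3) < 1 := by decide
  have a6 : ¬ (2 : Fin 3) < 1 := by decide
  have a7 : (0 : Fin 3) < 2 := by decide
  have a8 : (1 : Fin 3) < 2 := by decide
  have a9 : ¬ (2 : Fin 3) < 2 := by decide
  have b1 : ¬ (1 : Fin 3) = 0 := by decide
  have b2 : ¬ (2 : Fin 3) = 0 := by decide
  have b3 : ¬ (2 : Fin 3) = 1 := by decide
  simp only [res, a1, a2, a3, a4, a5, a6, a7, a8, a9, b1, b2, b3, if_true, if_false]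
  ring

/-- the violation predicate -/
def Vio (f F : Fin 3 → ℕ → ℝ) (γ : ℝ) (k x : ℕ) : Prop :=
  adm k x ∧ ∃ N, lev k N ∧ 6 * γ ≤ |Av3 f x N - Av3 F x N|

lemma vio_res {f F : Fin 3 → ℕ → ℝ} {γ : ℝ} {k x : ℕ} (h : Vio f F γ k x) :
    ∃ i ∈ (univ : Finset (Fin 3)), adm k x ∧ ∃ N, lev k N ∧
      γ ≤ |Av (res f F i 0) (res f F i 1) (res f F i 2) x N| := by
  obtain ⟨ha, N, hN, h⟩ := h
  rw [Av3_sub] at h
  by_contra hc
  push Not at hc
  have h0 := hc 0 (mem_univ _) ha N hN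
  have h1 := hc 1 (mem_univ _) ha N hN
  have h2 := hc 2 (mem_univ _) ha N hN
  rw [abs_lt] at h0 h1 h2
  simp only [Av3] at h
  rcases le_abs'.1 h with h | h <;> linarith [h0.1, h0.2, h1.1, h1.2, h2.1, h2.2]

lemma re_e_quarter : (e ((1 / 4 : ℝ) : T)).re = 0 := by
  rw [e_coe, Complex.exp_ofReal_mul_I_re]
  rw [show 2 * Real.pi * (1 / 4) = Real.pi / 2 by ring, Real.cos_pi_div_two]

lemma abs_re_e_le (t : T) : |(e t).re| ≤ 1 := (Complex.abs_re_le_norm _).trans (norm_e t).le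

lemma quad_const (B : ℤ → Prop) (t : T) (y : ℤ) : Quad B (fun _ => t) y := by
  intro u h₁ h₂ h₃ _ _ _ _
  simp [d3, d2]

lemma quad_comb {B : ℤ → Prop} {l : ℕ} {φ : Fin l → ℤ → T} {y : ℤ} (h : ∀ j, Quad B (φ j) y)
    (w : Fin l → ℤ) : Quad B (fun z => ∑ j, w j • φ j z) y := by
  intro u h₁ h₂ h₃ a b c d
  have key : d3 (fun z => ∑ j, w j • φ j z) (y + u) h₁ h₂ h₃ =
      ∑ j, w j • d3 (φ j) (y + u) h₁ h₂ h₃ := by
    simp only [d3, d2, smul_sub, smul_add, sum_sub_distrib, sum_add_distrib]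
  rw [key]
  exact sum_eq_zero fun j _ => by rw [h j u h₁ h₂ h₃ a b c d, smul_zero]

lemma quad_mono {Θ Θ' : Finset T} {s : ℝ} {φ : ℤ → T} {y : ℤ} (h : Quad (InB Θ s) φ y)
    (hΘ : Θ ⊆ Θ') : Quad (InB Θ' s) φ y := fun u h₁ h₂ h₃ a b c d =>
  h u h₁ h₂ h₃ (a.mono hΘ le_rfl) (b.mono hΘ le_rfl) (c.mono hΘ le_rfl) (d.mono hΘ le_rfl)

/-- the inverse theorem with fixed parameters -/
def AZp (ρ γ c R₀ s₀ b₀ : ℝ) : Prop :=
  ∀ (k j : ℕ) (u : Fin 3 → ℕ → ℝ), (∀ i, Bdd (u i)) → ∀ i : Fin 3,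
    ρ / 3 * 2 ^ k ≤ cnt (node k j)
      (fun x => adm k x ∧ ∃ N, lev k N ∧ γ ≤ |Av (u 0) (u 1) (u 2) x N|) →
    ∃ (Θ : Finset T) (φ : ℤ → T), (Θ.card : ℝ) ≤ R₀ ∧
      cnt (node k j) (fun y => ¬ Quad (InB Θ s₀) φ y) ≤ b₀ * 2 ^ k ∧
      c * 2 ^ k ≤ ∑ y ∈ node k j, u i y * (e (φ y)).re

/-- the energy decrement -/
lemma step {ρ γ c R₀ s₀ b₀ : ℝ} (hA : AZp ρ γ c R₀ s₀ b₀) (hc : 0 ≤ c)
    {f : Fin 3 → ℕ → ℝ} (hf : ∀ i, Bdd (f i)) (S : Fin 3 → ℕ → ℝ) {k j : ℕ}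
    (hV : ρ * 2 ^ k ≤ cnt (node k j) (Vio f (fun i y => clip (S i y)) γ k)) :
    ∃ (Θ : Finset T) (ψ : Fin 3 → ℤ → T), (Θ.card : ℝ) ≤ R₀ ∧
      cnt (node k j) (fun y => ∃ i, ¬ Quad (InB Θ s₀) (ψ i) y) ≤ b₀ * 2 ^ k ∧
      ∑ y ∈ node k j, Pot f (fun i y => S i y + c * (e (ψ i y)).re) y ≤
        ∑ y ∈ node k j, Pot f S y - c ^ 2 / 2 * 2 ^ k := by
  classical
  set F : Fin 3 → ℕ → ℝ := fun i y => clip (S i y) with hF
  have hFb : ∀ i, Bdd (F i) := fun i y => abs_clip_le _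
  have h1 := hV.trans ((cnt_mono fun x _ hx => vio_res hx).trans (cnt_exists_le _ _ _))
  have h2 : ∃ i, ρ / 3 * 2 ^ k ≤ cnt (node k j) (fun x => adm k x ∧ ∃ N, lev k N ∧
      γ ≤ |Av (res f F i 0) (res f F i 1) (res f F i 2) x N|) := by
    by_contra hc
    push Not at hc
    rw [Fin.sum_univ_three] at h1
    linarith [hc 0, hc 1, hc 2]
  obtain ⟨i, hi⟩ := h2
  obtain ⟨Θ, φ, h3, h4, h5⟩ := hA k j (res f F i) (res_bdd hf hFb i) i hi
  refine ⟨Θ, fun i' => if i' = i then φ else fun _ => ((1 / 4 : ℝ) : T), h3,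
    (cnt_mono ?_).trans h4, ?_⟩
  · rintro y - ⟨i', hi'⟩ hq
    apply hi'
    by_cases h : i' = i
    · simpa only [h, if_true] using hq
    · simpa only [h, if_false] using quad_const _ _ _
  · have key : ∀ y : ℕ, Pot f (fun i' y => S i' y + c * (e ((if i' = i then φ else
        fun _ => ((1 / 4 : ℝ) : T)) y)).re) y ≤
        Pot f S y - 2 * c * (res f F i i y * (e (φ y)).re) + c ^ 2 / 2 := by
      intro y
      have h6 : res f F i i y = (f i y - clip (S i y)) / 2 := by simp [res, hF]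
      have h7 := pot_add (f i y) (S i y) (c * (e (φ y)).re)
      have h8 : (e (φ y)).re ^ 2 ≤ 1 := by
        rw [← sq_abs]
        nlinarith [abs_re_e_le (φ y), abs_nonneg (e (φ y)).re]
      unfold Pot
      rw [← add_sum_erase _ _ (mem_univ i), ← add_sum_erase _ _ (mem_univ i)]
      rw [sum_congr rfl (g := fun i' => pot (f i' y) (S i' y)) fun i' hi' => by
        simp only [(mem_erase.1 hi').1, if_false, re_e_quarter, mul_zero, add_zero]]
      simp only [if_true]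
      rw [h6]
      nlinarith [sq_nonneg c]
    refine (sum_le_sum fun y _ => key y).trans ?_
    rw [sum_add_distrib, sum_sub_distrib, ← mul_sum, Tree.sum_node_const]
    nlinarith [mul_le_mul_of_nonneg_left h5 hc, sq_nonneg c, pow_pos (two_pos : (0 : ℝ) < 2) k]

/-- the sum of the atoms of a state -/
noncomputable def SS (c : ℝ) {l : ℕ} (φ : Fin l → Fin 3 → ℤ → T) (i : Fin 3) (y : ℕ) : ℝ :=
  c * ∑ j, (e (φ j i y)).re

/-- the phases of the expansion -/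
def ph {l : ℕ} (φ : Fin l → Fin 3 → ℤ → T) (w : Fin 3 → Fin l → ℤ) (i : Fin 3) (y : ℤ) : T :=
  ∑ j, w i j • φ j i y

lemma SS_cons (c : ℝ) {l : ℕ} (φ : Fin l → Fin 3 → ℤ → T) (ψ : Fin 3 → ℤ → T) :
    SS c (Fin.cons ψ φ : Fin (l + 1) → Fin 3 → ℤ → T) =
      fun i y => SS c φ i y + c * (e (ψ i y)).re := by
  funext i y
  simp only [SS, Fin.sum_univ_succ, Fin.cons_zero, Fin.cons_succ]
  ring

lemma prod3_le {a b c A B C : ℂ} {δ : ℝ} (hδ : δ ≤ 1) (ha : ‖a‖ ≤ 1) (hb : ‖b‖ ≤ 1)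
    (hc : ‖c‖ ≤ 1) (hA : ‖a - A‖ ≤ δ) (hB : ‖b - B‖ ≤ δ) (hC : ‖c - C‖ ≤ δ) :
    ‖a * b * c - A * B * C‖ ≤ 7 * δ := by
  have h0 : 0 ≤ δ := (norm_nonneg _).trans hA
  have hA' : ‖A‖ ≤ 2 := by
    have := norm_sub_norm_le A a
    rw [norm_sub_rev] at this
    linarith
  have hB' : ‖B‖ ≤ 2 := by
    have := norm_sub_norm_le B b
    rw [norm_sub_rev] at this
    linarith
  rw [show a * b * c - A * B * C = (a - A) * b * c + A * (b - B) * c + A * B * (c - C) by ring]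
  refine (norm_add₃_le).trans ?_
  simp only [norm_mul]
  have e1 : ‖a - A‖ * ‖b‖ * ‖c‖ ≤ δ * 1 * 1 := by gcongr
  have e2 : ‖A‖ * ‖b - B‖ * ‖c‖ ≤ 2 * δ * 1 := by gcongr
  have e3 : ‖A‖ * ‖B‖ * ‖c - C‖ ≤ 2 * 2 * δ := by gcongr
  linarith

lemma sum_Icc_cast (F : ℤ → ℂ) (N : ℕ) :
    ∑ n ∈ Icc (1 : ℤ) N, F n = ∑ n ∈ Icc 1 N, F (n : ℕ) := by
  symm
  refine sum_bij (fun n _ => (n : ℤ)) ?_ ?_ ?_ fun _ _ => rfl
  · intro n hn
    rw [mem_Icc] at hn ⊢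
    omega
  · intro a _ b _ h
    exact_mod_cast h
  · intro b hb
    rw [mem_Icc] at hb
    exact ⟨b.toNat, by rw [mem_Icc]; omega, by omega⟩

/-- the average of the clipped functions is close to a combination of phase averages -/
lemma expand_av {c δ : ℝ} (hδ : δ ≤ 1) (hδ0 : 0 ≤ δ) {l : ℕ} (φ : Fin l → Fin 3 → ℤ → T)
    (W : Finset (Fin l → ℤ)) (a : (Fin l → ℤ) → ℂ)
    (h : ∀ t : Fin l → T,
      ‖(clip (c * ∑ j, (e (t j)).re) : ℂ) - ∑ w ∈ W, a w * e (∑ j, w j • t j)‖ ≤ δ) (x N : ℕ) :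
    ‖(Av3 (fun i y => clip (SS c φ i y)) x N : ℂ) -
      ∑ w ∈ Fintype.piFinset (fun _ : Fin 3 => W), (∏ i, a (w i)) * Ph (ph φ w) x N‖ ≤ 7 * δ := by
  have key : ∀ n : ℕ, ‖((clip (SS c φ 0 (x + n)) * clip (SS c φ 1 (x + 2 * n)) *
      clip (SS c φ 2 (x + 3 * n)) : ℝ) : ℂ) -
      ∑ w ∈ Fintype.piFinset (fun _ : Fin 3 => W), (∏ i, a (w i)) * e (Φ (ph φ w) x n)‖ ≤
      7 * δ := by
    intro n
    let yy : Fin 3 → ℤ := ![((x + n : ℕ) : ℤ), ((x + 2 * n : ℕ) : ℤ), ((x + 3 * n : ℕ) : ℤ)]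
    have h1 := Finset.prod_univ_sum (fun _ : Fin 3 => W)
      (fun i w => a w * e (∑ j, w j • φ j i (yy i)))
    have h2 : ∀ w : Fin 3 → Fin l → ℤ, (∏ i, a (w i)) * e (Φ (ph φ w) x n) =
        ∏ i, a (w i) * e (∑ j, w i j • φ j i (yy i)) := by
      intro w
      rw [prod_mul_distrib, ← e_sum, Fin.sum_univ_three]
      simp [Φ, ph, yy]
    rw [sum_congr rfl fun w _ => h2 w, ← h1, Fin.prod_univ_three]
    push_cast
    have hn : ∀ s : ℝ, ‖(clip s : ℂ)‖ ≤ 1 := fun s => by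
      rw [Complex.norm_real, Real.norm_eq_abs]
      exact abs_clip_le s
    exact prod3_le hδ (hn _) (hn _) (hn _) (h fun j => φ j 0 (yy 0)) (h fun j => φ j 1 (yy 1))
      (h fun j => φ j 2 (yy 2))
  simp only [Ph, sum_Icc_cast, Av3, Av]
  rw [sum_congr rfl fun w _ => mul_left_comm _ _ _, ← mul_sum]
  simp only [mul_sum _ _ (∏ i, a _)]
  rw [sum_comm, Complex.ofReal_mul, Complex.ofReal_inv, Complex.ofReal_natCast, ← mul_sub,
    Complex.ofReal_sum, ← sum_sub_distrib, norm_mul, norm_inv, Complex.norm_natCast]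
  refine (mul_le_mul_of_nonneg_left ((norm_sum_le _ _).trans (sum_le_sum fun n _ => key n))
    (by positivity)).trans ?_
  rw [sum_const, Nat.card_Icc, Nat.add_sub_cancel, nsmul_eq_mul, ← mul_assoc]
  rcases Nat.eq_zero_or_pos N with rfl | hN
  · simp [hδ0]
  · rw [inv_mul_cancel₀ (by exact_mod_cast hN.ne'), one_mul]

end Pool.Agent.Tri.Level
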