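import Pool.Agent.Lib.MP_9721b5_an.Tri.Level1

/-!
The level statement, second part: the induction on the number of atoms which may still be added.
-/

set_option autoImplicit false

open Finset

namespace Pool.Agent.Tri.Level

/-- the jump inequality with fixed parameters -/
def Sp (R s₀ b₁ η K : ℝ) : Prop :=
  ∀ (Θ : Finset T) (φ : Fin 3 → ℤ → T) (D j : ℕ), (Θ.card : ℝ) ≤ R →
    (∀ i, cnt (node D j) (fun y => ¬ Quad (InB Θ s₀) (φ i) y) ≤ b₁ * 2 ^ D) →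
    Ctl (Near (Ph φ) η) D j 0 (η * 2 ^ D) (K * 2 ^ D)

/-- the expansion with fixed parameters -/
def Ep (M : ℕ) (c δ Wn An : ℝ) : Prop :=
  ∀ l ≤ M, ∃ (W : Finset (Fin l → ℤ)) (a : (Fin l → ℤ) → ℂ), (W.card : ℝ) ≤ Wn ∧
    ∑ w ∈ W, ‖a w‖ ≤ An ∧ ∀ t : Fin l → T,
      ‖(clip (c * ∑ j, (e (t j)).re) : ℂ) - ∑ w ∈ W, a w * e (∑ j, w j • t j)‖ ≤ δ

/-- the controlled relation -/
def RR (f : Fin 3 → ℕ → ℝ) (ε : ℝ) (Bad : ℕ → ℕ → Prop) (x k' k : ℕ) : Prop :=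
  adm k' x → adm k x → ¬ Bad k' x → ¬ Bad k x → NearR (f 0) (f 1) (f 2) ε x k' k

/-- some atom is not quadratic at `y` -/
def Bd (Θ : Finset T) (s₀ : ℝ) {l : ℕ} (φ : Fin l → Fin 3 → ℤ → T) (y : ℕ) : Prop :=
  ∃ j i, ¬ Quad (InB Θ s₀) (φ j i) y

lemma above {R s₀ b₁ η K c δ Wn An γ : ℝ} {M : ℕ} (hS : Sp R s₀ b₁ η K) (hE : Ep M c δ Wn An)
    (hδ : δ ≤ 1) (hδ0 : 0 ≤ δ) (hη : 0 ≤ η) (hK : 0 ≤ K) (f : Fin 3 → ℕ → ℝ) {l : ℕ} (hl : l ≤ M)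
    {Θ : Finset T} (hΘ : (Θ.card : ℝ) ≤ R) (φ : Fin l → Fin 3 → ℤ → T) {k j : ℕ}
    (hb : cnt (node k j) (Bd Θ s₀ φ) ≤ b₁ * 2 ^ k) :
    Ctl (RR f (12 * γ + 14 * δ + An ^ 3 * η) (Vio f (fun i y => clip (SS c φ i y)) γ)) k j 0
      (Wn ^ 3 * η * 2 ^ k) (Wn ^ 3 * K * 2 ^ k) := by
  classical
  obtain ⟨W, a, hW, ha, hex⟩ := hE l hl
  set I := Fintype.piFinset (fun _ : Fin 3 => W) with hI
  have hcard : (I.card : ℝ) ≤ Wn ^ 3 := by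
    rw [hI, Fintype.card_piFinset, prod_const, card_univ, Fintype.card_fin, Nat.cast_pow]
    gcongr
  have hsum : ∑ w ∈ I, ‖∏ i, a (w i)‖ ≤ An ^ 3 := by
    simp only [norm_prod]
    rw [hI, ← Finset.prod_univ_sum (fun _ : Fin 3 => W) (fun _ w => ‖a w‖), prod_const, card_univ,
      Fintype.card_fin]
    gcongr
  have hall := Ctl.all (D := k) (j := j) (kb := 0) I (fun w => Near (Ph (ph φ w)) η)
    (fun _ => η * 2 ^ k) (fun _ => K * 2 ^ k) fun w _ => hS Θ (ph φ w) k j hΘ fun i =>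
      (cnt_mono fun y _ hy => by
        by_contra hc
        refine hy (quad_comb (φ := fun j => φ j i) (fun j' => ?_) (w i))
        by_contra hq
        exact hc ⟨j', i, hq⟩).trans hb
  refine (hall.mono ?_ ?_).imp ?_
  · rw [sum_const, nsmul_eq_mul, mul_assoc]
    gcongr
  · rw [sum_const, nsmul_eq_mul, mul_assoc]
    gcongr
  · intro x _ k' k'' _ _ _ hN ha' ha'' hv' hv'' N' N hN' hN''
    have h1 : |Av3 f x N' - Av3 (fun i y => clip (SS c φ i y)) x N'| < 6 * γ :=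
      not_le.1 fun h => hv' ⟨ha', N', hN', h⟩
    have h2 : |Av3 f x N - Av3 (fun i y => clip (SS c φ i y)) x N| < 6 * γ :=
      not_le.1 fun h => hv'' ⟨ha'', N, hN'', h⟩
    have h3 := expand_av hδ hδ0 φ W a hex x N'
    have h4 := expand_av hδ hδ0 φ W a hex x N
    have h5 : ‖∑ w ∈ I, (∏ i, a (w i)) * Ph (ph φ w) x N -
        ∑ w ∈ I, (∏ i, a (w i)) * Ph (ph φ w) x N'‖ ≤ An ^ 3 * η := by
      rw [← sum_sub_distrib]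
      refine (norm_sum_le _ _).trans ?_
      refine le_trans (sum_le_sum fun w hw => ?_) ((sum_mul I _ η).ge.trans
        (mul_le_mul_of_nonneg_right hsum hη))
      rw [← mul_sub, norm_mul]
      exact mul_le_mul_of_nonneg_left (hN w hw N' N hN' hN'') (norm_nonneg _)
    have h6 : |Av3 (fun i y => clip (SS c φ i y)) x N - Av3 (fun i y => clip (SS c φ i y)) x N'| ≤
        14 * δ + An ^ 3 * η := by
      rw [← Real.norm_eq_abs, ← Complex.norm_real, Complex.ofReal_sub]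
      have h7 := norm_sub_le_norm_sub_add_norm_sub
        (Av3 (fun i y => clip (SS c φ i y)) x N : ℂ) (∑ w ∈ I, (∏ i, a (w i)) * Ph (ph φ w) x N)
        (Av3 (fun i y => clip (SS c φ i y)) x N' : ℂ)
      have h8 := norm_sub_le_norm_sub_add_norm_sub (∑ w ∈ I, (∏ i, a (w i)) * Ph (ph φ w) x N)
        (∑ w ∈ I, (∏ i, a (w i)) * Ph (ph φ w) x N') (Av3 (fun i y => clip (SS c φ i y)) x N' : ℂ)
      rw [norm_sub_rev] at h3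
      linarith
    change |Av3 f x N - Av3 f x N'| ≤ _
    rw [abs_lt] at h1 h2
    rw [abs_le] at h6 ⊢
    constructor <;> linarith [h1.1, h1.2, h2.1, h2.2, h6.1, h6.2]

/-- gluing along the first nodes where a violation is dense, with the bad sets -/
lemma glue_bad {f : Fin 3 → ℕ → ℝ} {ε ρ E₀ K₀ K₁ : ℝ} (hρ : 0 ≤ ρ) (V : ℕ → ℕ → Prop) {k j : ℕ}
    (w : ℕ → ℝ) (hw : ∀ x, 0 ≤ w x) (hK₁ : 0 ≤ K₁) (h₀ : Ctl (RR f ε V) k j 0 E₀ K₀)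
    (hsub : ∀ k₀ i, ρ * 2 ^ k₀ ≤ cnt (node k₀ i) (V k₀) → ∃ Bad : ℕ → ℕ → Prop,
      (∀ k' i', cnt (node k' i') (Bad k') ≤ ρ * 2 ^ k') ∧
      Ctl (RR f ε Bad) k₀ i 0 (∑ x ∈ node k₀ i, w x) (K₁ * 2 ^ k₀)) :
    ∃ Bad : ℕ → ℕ → Prop, (∀ k' i', cnt (node k' i') (Bad k') ≤ ρ * 2 ^ k') ∧
      Ctl (RR f ε Bad) k j 0 (E₀ + ∑ x ∈ node k j, w x) (K₀ + (1 + K₁) * 2 ^ k) := by
  classical
  set St : ℕ → ℕ → Prop := fun k₀ i => ρ * 2 ^ k₀ ≤ cnt (node k₀ i) (V k₀) with hSt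
  have hsub' : ∀ k₀ i, ∃ Bad : ℕ → ℕ → Prop,
      (∀ k' i', cnt (node k' i') (Bad k') ≤ ρ * 2 ^ k') ∧
      (St k₀ i → Ctl (RR f ε Bad) k₀ i 0 (∑ x ∈ node k₀ i, w x) (K₁ * 2 ^ k₀)) := by
    intro k₀ i
    by_cases h : St k₀ i
    · obtain ⟨Bad, h1, h2⟩ := hsub k₀ i h
      exact ⟨Bad, h1, fun _ => h2⟩
    · exact ⟨fun _ _ => False, fun k' i' => by rw [Tree.cnt_false]; positivity,
        fun h' => (h h').elim⟩
  choose BS hB1 hB2 using hsub'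
  set Bad : ℕ → ℕ → Prop := fun k' x =>
    (∃ k₀, k' ≤ k₀ ∧ First St k j 0 k₀ (x / 2 ^ k₀) ∧ BS k₀ (x / 2 ^ k₀) k' x) ∨
    ((¬ ∃ k₀, k' ≤ k₀ ∧ First St k j 0 k₀ (x / 2 ^ k₀)) ∧ ¬ St k' (x / 2 ^ k') ∧ V k' x) with hBad
  refine ⟨Bad, fun k' i' => ?_, ?_⟩
  · by_cases hex : ∃ k₀, k' ≤ k₀ ∧ First St k j 0 k₀ (i' / 2 ^ (k₀ - k'))
    · obtain ⟨k₀, h1, h2⟩ := hex
      refine (cnt_mono fun x hx hb => ?_).trans (hB1 k₀ (i' / 2 ^ (k₀ - k')) k' i')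
      have h3 : x / 2 ^ k₀ = i' / 2 ^ (k₀ - k') := by rw [← div_pow_div x h1, mem_node.1 hx]
      rw [← h3] at h2 ⊢
      rcases hb with ⟨k₁, -, h5, h6⟩ | ⟨h4, -⟩
      · obtain rfl := Tree.first_unique h2 h5
        exact h6
      · exact (h4 ⟨k₀, h1, h2⟩).elim
    · by_cases hs : St k' i'
      · refine (cnt_mono (Q := fun _ => False) fun x hx hb => ?_).trans
          (by rw [Tree.cnt_false]; positivity)
        rcases hb with ⟨k₁, h4, h5, -⟩ | ⟨-, h4, -⟩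
        · exact hex ⟨k₁, h4, by rwa [← mem_node.1 hx, div_pow_div x h4]⟩
        · exact h4 (by rwa [mem_node.1 hx])
      · refine (cnt_mono fun x hx hb => ?_).trans (not_le.1 hs).le
        rcases hb with ⟨k₁, h4, h5, -⟩ | ⟨-, -, h4⟩
        · exact (hex ⟨k₁, h4, by rwa [← mem_node.1 hx, div_pow_div x h4]⟩).elim
        · exact h4
  · have h := Ctl.glue (R := RR f ε Bad) (D := k) (j := j) (kb := 0) (E₀ := E₀) (K₀ := K₀) St 0 w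
      hw hK₁ (h₀.imp ?_) ?_
    · simpa using h
    · intro x _ k' k'' _ hk hk'' hR hst a1 a2 b1 b2
      have key : ∀ m, k' ≤ m → m ≤ k → ¬ Bad m x → ¬ V m x := fun m c1 c2 c3 c4 =>
        c3 (Or.inr ⟨fun ⟨k₀, d1, d2⟩ => hst k₀ (c1.trans d1) d2.2.1 d2.2.2.2.1, hst m c1 c2, c4⟩)
      exact hR a1 a2 (key k' le_rfl (hk.trans hk'') b1) (key k'' hk hk'' b2)
    · rintro k₀ i hF - i' rfl
      rw [pow_zero, Nat.div_one] at hF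
      refine (hB2 k₀ i' hF.2.2.2.1).imp ?_
      intro x hx k' k'' _ hk hk'' hR a1 a2 b1 b2
      have hx' := mem_node.1 hx
      exact hR a1 a2 (fun h => b1 (Or.inl ⟨k₀, hk.trans hk'', by rwa [hx'], by rwa [hx']⟩))
        (fun h => b2 (Or.inl ⟨k₀, hk'', by rwa [hx'], by rwa [hx']⟩))

open Classical in
/-- the weight bounding the exceptional set -/
noncomputable def wt (f : Fin 3 → ℕ → ℝ) (c s₀ b₀ b₁ e₁ : ℝ) (m : ℕ) (Θ : Finset T) {l : ℕ}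
    (φ : Fin l → Fin 3 → ℤ → T) (y : ℕ) : ℝ :=
  Pot f (SS c φ) y / (c ^ 2 / 2 * (m + 1)) + m * e₁ +
    (m + 1) * ((if Bd Θ s₀ φ y then 1 else 0) + m * b₀) / b₁

lemma sum_wt (f : Fin 3 → ℕ → ℝ) (c s₀ b₀ b₁ e₁ : ℝ) (m : ℕ) (Θ : Finset T) {l : ℕ}
    (φ : Fin l → Fin 3 → ℤ → T) (k j : ℕ) :
    ∑ y ∈ node k j, wt f c s₀ b₀ b₁ e₁ m Θ φ y =
      (∑ y ∈ node k j, Pot f (SS c φ) y) / (c ^ 2 / 2 * (m + 1)) + m * e₁ * 2 ^ k +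
        (m + 1) * (cnt (node k j) (Bd Θ s₀ φ) + m * b₀ * 2 ^ k) / b₁ := by
  simp only [wt, sum_add_distrib, ← sum_div, ← mul_sum, Tree.sum_node_const, cnt_eq_sum]
  ring

lemma wt_nonneg {f : Fin 3 → ℕ → ℝ} (hf : ∀ i, Bdd (f i)) {c s₀ b₀ b₁ e₁ : ℝ} (hb₀ : 0 ≤ b₀)
    (hb₁ : 0 < b₁) (he : 0 ≤ e₁) (m : ℕ) (Θ : Finset T) {l : ℕ} (φ : Fin l → Fin 3 → ℤ → T)
    (y : ℕ) : 0 ≤ wt f c s₀ b₀ b₁ e₁ m Θ φ y := by
  have := Pot_nonneg hf (SS c φ) y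
  unfold wt
  split_ifs <;> positivity

lemma bd_cons {Θ Θ' : Finset T} {s₀ : ℝ} {l : ℕ} {φ : Fin l → Fin 3 → ℤ → T} {ψ : Fin 3 → ℤ → T}
    {y : ℕ} [DecidableEq T]
    (h : Bd (Θ ∪ Θ') s₀ (Fin.cons ψ φ : Fin (l + 1) → Fin 3 → ℤ → T) y) :
    Bd Θ s₀ φ y ∨ ∃ i, ¬ Quad (InB Θ' s₀) (ψ i) y := by
  obtain ⟨j, i, h⟩ := h
  refine Fin.cases (fun h => Or.inr ⟨i, fun hq => h ?_⟩) (fun j h => Or.inl ⟨j, i, fun hq => h ?_⟩)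
    j h
  · exact quad_mono hq subset_union_right
  · exact quad_mono hq subset_union_left

/-- the main induction -/
lemma core {ρ γ c R₀ s₀ b₀ b₁ η K δ Wn An : ℝ} {M : ℕ} (hA : AZp ρ γ c R₀ s₀ b₀)
    (hS : Sp (M * R₀) s₀ b₁ η K) (hE : Ep M c δ Wn An) (hρ : 0 ≤ ρ) (hc : 0 < c) (hR₀ : 0 ≤ R₀)
    (hb₀ : 0 ≤ b₀) (hb₁ : 0 < b₁) (hδ : δ ≤ 1) (hδ0 : 0 ≤ δ) (hη : 0 ≤ η) (hK : 0 ≤ K)
    (hW : 0 ≤ Wn) {f : Fin 3 → ℕ → ℝ} (hf : ∀ i, Bdd (f i)) (m : ℕ) :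
    ∀ (l : ℕ) (Θ : Finset T) (φ : Fin l → Fin 3 → ℤ → T) (k j : ℕ), l + m ≤ M →
      (Θ.card : ℝ) ≤ l * R₀ → ∃ Bad : ℕ → ℕ → Prop,
      (∀ k' i', cnt (node k' i') (Bad k') ≤ ρ * 2 ^ k') ∧
      Ctl (RR f (12 * γ + 14 * δ + An ^ 3 * η) Bad) k j 0
        (Wn ^ 3 * η * 2 ^ k + ∑ y ∈ node k j, wt f c s₀ b₀ b₁ (Wn ^ 3 * η) m Θ φ y)
        ((m + 1) * (Wn ^ 3 * K + 1) * 2 ^ k) := by
  classical
  induction m using Nat.strong_induction_on with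
  | _ m ih =>
  intro l Θ φ k j hl hΘ
  have he : 0 ≤ Wn ^ 3 * η := by positivity
  have hdead : ∀ (k j : ℕ) (E K' : ℝ), 2 ^ k ≤ E → 0 ≤ K' → ∃ Bad : ℕ → ℕ → Prop,
      (∀ k' i', cnt (node k' i') (Bad k') ≤ ρ * 2 ^ k') ∧
      Ctl (RR f (12 * γ + 14 * δ + An ^ 3 * η) Bad) k j 0 E K' := fun k j E K' h1 h2 =>
    ⟨fun _ _ => False, fun k' i' => by rw [Tree.cnt_false]; positivity, (Ctl.dead _ k j 0).mono h1 h2⟩
  have hP : ∀ k j, 0 ≤ ∑ y ∈ node k j, Pot f (SS c φ) y := fun k j =>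
    sum_nonneg fun y _ => Pot_nonneg hf _ y
  by_cases hb : cnt (node k j) (Bd Θ s₀ φ) ≤ b₁ * 2 ^ k
  swap
  · refine hdead k j _ _ ?_ (by positivity)
    rw [sum_wt]
    have h1 : (2 : ℝ) ^ k ≤ (m + 1) * (cnt (node k j) (Bd Θ s₀ φ) + m * b₀ * 2 ^ k) / b₁ := by
      rw [le_div_iff₀ hb₁]
      have h2 : 0 ≤ m * b₀ * 2 ^ k := by positivity
      have h3 := cnt_nonneg (node k j) (Bd Θ s₀ φ)
      have h4 : (0 : ℝ) ≤ m := Nat.cast_nonneg m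
      nlinarith [not_le.1 hb]
    have h2 : 0 ≤ (∑ y ∈ node k j, Pot f (SS c φ) y) / (c ^ 2 / 2 * (m + 1)) := by
      have := hP k j
      positivity
    have h3 : 0 ≤ Wn ^ 3 * η * 2 ^ k := by positivity
    have h4 : 0 ≤ m * (Wn ^ 3 * η) * 2 ^ k := by positivity
    linarith
  have hlM : l ≤ M := by omega
  have hΘM : (Θ.card : ℝ) ≤ M * R₀ :=
    hΘ.trans (mul_le_mul_of_nonneg_right (by exact_mod_cast hlM) hR₀)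
  refine (glue_bad (K₁ := m * (Wn ^ 3 * K + 1)) hρ _
    (wt f c s₀ b₀ b₁ (Wn ^ 3 * η) m Θ φ) (wt_nonneg hf hb₀ hb₁ he m Θ φ) (by positivity)
    (above (γ := γ) hS hE hδ hδ0 hη hK f hlM hΘM φ hb) ?_).imp
    fun Bad h => ⟨h.1, h.2.mono le_rfl (le_of_eq (by ring))⟩
  intro k₀ i hV
  obtain ⟨Θ', ψ, h1, h2, h3⟩ := step hA hc.le hf (SS c φ) hV
  rw [← SS_cons] at h3
  have hP' : 0 ≤ ∑ y ∈ node k₀ i, Pot f (SS c (Fin.cons ψ φ : Fin (l + 1) → Fin 3 → ℤ → T)) y :=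
    sum_nonneg fun y _ => Pot_nonneg hf _ y
  have hX : (0 : ℝ) < 2 ^ k₀ := by positivity
  have hc' : 0 < c ^ 2 / 2 := by positivity
  have hcnt := cnt_nonneg (node k₀ i) (Bd Θ s₀ φ)
  by_cases hbig : c ^ 2 / 2 * (m + 1) * 2 ^ k₀ ≤ ∑ y ∈ node k₀ i, Pot f (SS c φ) y
  · refine hdead k₀ i _ _ ?_ (by positivity)
    rw [sum_wt]
    have h4 : (2 : ℝ) ^ k₀ ≤ (∑ y ∈ node k₀ i, Pot f (SS c φ) y) / (c ^ 2 / 2 * (m + 1)) := by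
      rw [le_div_iff₀ (by positivity)]
      linarith
    have h5 : 0 ≤ m * (Wn ^ 3 * η) * 2 ^ k₀ := by positivity
    have h6 : 0 ≤ (m + 1) * (cnt (node k₀ i) (Bd Θ s₀ φ) + m * b₀ * 2 ^ k₀) / b₁ := by positivity
    linarith
  rcases m with _ | m
  · exact (hbig (by simp only [Nat.cast_zero, zero_add, mul_one]; linarith)).elim
  obtain ⟨Bad, h4, h5⟩ := ih m m.lt_succ_self (l + 1) (Θ ∪ Θ') (Fin.cons ψ φ) k₀ i (by omega) (by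
    have h6 : ((Θ ∪ Θ').card : ℝ) ≤ Θ.card + Θ'.card := by exact_mod_cast card_union_le Θ Θ'
    push_cast
    linarith)
  refine ⟨Bad, h4, h5.mono ?_ (le_of_eq (by push_cast; ring))⟩
  rw [sum_wt, sum_wt]
  have h6 : cnt (node k₀ i) (Bd (Θ ∪ Θ') s₀ (Fin.cons ψ φ : Fin (l + 1) → Fin 3 → ℤ → T)) ≤
      cnt (node k₀ i) (Bd Θ s₀ φ) + b₀ * 2 ^ k₀ :=
    (cnt_mono fun y _ hy => bd_cons hy).trans ((cnt_or_le _ _ _).trans (add_le_add le_rfl h2))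
  have hm : (0 : ℝ) ≤ m := Nat.cast_nonneg m
  have h7 : (∑ y ∈ node k₀ i, Pot f (SS c (Fin.cons ψ φ : Fin (l + 1) → Fin 3 → ℤ → T)) y) /
      (c ^ 2 / 2 * (m + 1)) ≤
      (∑ y ∈ node k₀ i, Pot f (SS c φ) y) / (c ^ 2 / 2 * ((m + 1 : ℕ) + 1)) := by
    rw [div_le_div_iff₀ (by positivity) (by positivity)]
    push_cast at hbig ⊢
    have h8 := not_le.1 hbig
    have h9 := mul_le_mul_of_nonneg_right h3 (by positivity : 0 ≤ c ^ 2 / 2 * ((m : ℝ) + 1 + 1))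
    nlinarith [mul_le_mul_of_nonneg_left h8.le hc'.le]
  have h8 : (m + 1) * (cnt (node k₀ i)
      (Bd (Θ ∪ Θ') s₀ (Fin.cons ψ φ : Fin (l + 1) → Fin 3 → ℤ → T)) + m * b₀ * 2 ^ k₀) / b₁ ≤
      ((m + 1 : ℕ) + 1) * (cnt (node k₀ i) (Bd Θ s₀ φ) + (m + 1 : ℕ) * b₀ * 2 ^ k₀) / b₁ := by
    refine div_le_div_of_nonneg_right ?_ hb₁.le
    push_cast
    have h9 : 0 ≤ b₀ * 2 ^ k₀ := by positivity
    nlinarith [mul_le_mul_of_nonneg_left h6 (by positivity : 0 ≤ (m : ℝ) + 1)]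
  push_cast at h7 h8 ⊢
  linarith

/-- the root call -/
lemma root {ρ γ c R₀ s₀ b₀ b₁ η K δ Wn An : ℝ} {M : ℕ} (hA : AZp ρ γ c R₀ s₀ b₀)
    (hS : Sp (M * R₀) s₀ b₁ η K) (hE : Ep M c δ Wn An) (hρ : 0 ≤ ρ) (hc : 0 < c) (hR₀ : 0 ≤ R₀)
    (hb₀ : 0 ≤ b₀) (hb₁ : 0 < b₁) (hδ : δ ≤ 1) (hδ0 : 0 ≤ δ) (hη : 0 ≤ η) (hK : 0 ≤ K)
    (hW : 0 ≤ Wn) {f : Fin 3 → ℕ → ℝ} (hf : ∀ i, Bdd (f i)) (D : ℕ) :
    ∃ Bad : ℕ → ℕ → Prop, (∀ k' i', cnt (node k' i') (Bad k') ≤ ρ * 2 ^ k') ∧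
      Ctl (RR f (12 * γ + 14 * δ + An ^ 3 * η) Bad) D 0 0
        ((3 / (c ^ 2 * (M + 1)) + (M + 1) * (Wn ^ 3 * η) + (M + 1) * M * b₀ / b₁) * 2 ^ D)
        ((M + 1) * (Wn ^ 3 * K + 1) * 2 ^ D) := by
  obtain ⟨Bad, h1, h2⟩ := core hA hS hE hρ hc hR₀ hb₀ hb₁ hδ hδ0 hη hK hW hf M 0 ∅ Fin.elim0 D 0
    (by omega) (by simp)
  refine ⟨Bad, h1, h2.mono ?_ le_rfl⟩
  rw [sum_wt]
  have h3 : cnt (node D 0) (Bd ∅ s₀ (Fin.elim0 : Fin 0 → Fin 3 → ℤ → T)) = 0 := by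
    rw [← Tree.cnt_false (node D 0)]
    exact cnt_congr fun y _ => ⟨fun ⟨j, _⟩ => j.elim0, False.elim⟩
  have h4 : ∑ y ∈ node D 0, Pot f (SS c (Fin.elim0 : Fin 0 → Fin 3 → ℤ → T)) y ≤
      3 / 2 * 2 ^ D := by
    rw [← Tree.sum_node_const D 0]
    refine sum_le_sum fun y _ => ?_
    simp only [Pot, SS, univ_eq_empty, sum_empty, mul_zero, Fin.sum_univ_three]
    linarith [pot_zero (hf 0 y), pot_zero (hf 1 y), pot_zero (hf 2 y)]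
  have h5 : (∑ y ∈ node D 0, Pot f (SS c (Fin.elim0 : Fin 0 → Fin 3 → ℤ → T)) y) /
      (c ^ 2 / 2 * (M + 1)) ≤ 3 / (c ^ 2 * (M + 1)) * 2 ^ D := by
    refine (div_le_div_of_nonneg_right h4 (by positivity)).trans (le_of_eq ?_)
    field_simp
  rw [h3]
  have h6 : ((M : ℝ) + 1) * (0 + M * b₀ * 2 ^ D) / b₁ = (M + 1) * M * b₀ / b₁ * 2 ^ D := by ring
  rw [h6]
  linarith

end Pool.Agent.Tri.Level
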