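import Pool.Agent.Lib.MP_9721b5_an.Tri.Loop1

/-!
The rank regularisation loop.
-/

set_option autoImplicit false

open Finset ComplexConjugate Real

namespace Pool.Agent.Tri

namespace Loop

section step

variable {N : ℕ} [NeZero N] {d : ℕ}

/-- the domain on which everything is additive -/
def Dom (Θ : Finset (ZMod N)) (r : ℝ) (u : ZMod N) : Prop :=
  InN Θ (r / 100) u ∧ InN Θ (r / 100) (u * (2 : ZMod N)⁻¹)

/-- the state of the loop after `k` steps -/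
def St (L : Fin d → ZMod N → ZMod N) (Θ : Finset (ZMod N)) (r sk D₀ D₁ κ : ℝ) (k : ℕ) : Prop :=
  ∃ (Th : Finset (ZMod N)) (ρ : ℝ) (K : Finset (Fin d → ℤ)), K.card = k ∧
    (Th.card : ℝ) ≤ D₀ + k * D₁ ∧ r / 100 * κ ^ k ≤ ρ ∧ ρ ≤ 1 ∧ (∀ u, InN Th ρ u → Dom Θ r u) ∧
    (∀ x ∈ K, ∀ v w, InN Th ρ v → InN Th ρ w → ‖pr (comb L x v) w‖ ≤ sk) ∧
    Ind (8 * d + 4) K ∧ ∀ x ∈ K, ∀ j, |x j| ≤ 2

lemma div_ball {q : ℕ} (hq : IsUnit (q : ZMod N)) (hq0 : 0 < q) (Th : Finset (ZMod N)) {ρ : ℝ}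
    (hρ : 0 ≤ ρ) {m : ℕ} (hm : m ∣ q) {v : ZMod N}
    (hv : InN (Th.image (· * (q : ZMod N)⁻¹)) (ρ / q) v) :
    ∃ u : ZMod N, (m : ℤ) • u = v ∧ ∀ i : ℕ, i ≤ m → InN Th ρ ((i : ℤ) • u) := by
  obtain ⟨c, hc⟩ := hm
  have h1 : (q : ZMod N) * (q : ZMod N)⁻¹ = 1 := ZMod.mul_inv_of_unit _ hq
  refine ⟨(c : ZMod N) * (q : ZMod N)⁻¹ * v, ?_, fun i hi θ hθ => ?_⟩
  · rw [zsmul_eq_mul, Int.cast_natCast]
    calc (m : ZMod N) * ((c : ZMod N) * (q : ZMod N)⁻¹ * v)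
        = ((m * c : ℕ) : ZMod N) * (q : ZMod N)⁻¹ * v := by push_cast; ring
      _ = v := by rw [← hc, h1, one_mul]
  · have h2 : pr θ ((i : ℤ) • ((c : ZMod N) * (q : ZMod N)⁻¹ * v)) =
        ((i * c : ℕ) : ℤ) • pr (θ * (q : ZMod N)⁻¹) v := by
      rw [pr_mul, ← pr_zsmul_right, zsmul_eq_mul, zsmul_eq_mul]
      congr 1
      push_cast
      ring
    rw [h2]
    refine (norm_zsmul_T _ _).trans ?_
    have h3 := hv _ (mem_image_of_mem _ hθ)
    have h4 : |(((i * c : ℕ) : ℤ) : ℝ)| ≤ q := by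
      rw [Int.cast_natCast, Nat.abs_cast, hc]
      exact_mod_cast Nat.mul_le_mul_right c hi
    have hq1 : (0 : ℝ) < q := by exact_mod_cast hq0
    calc _ ≤ (q : ℝ) * (ρ / q) := mul_le_mul h4 h3 (norm_nonneg _) hq1.le
      _ = ρ := by field_simp

variable {L : Fin d → ZMod N → ZMod N} {Θ : Finset (ZMod N)} {r : ℝ}

lemma Dom.inN (hr : 0 ≤ r) {u : ZMod N} (h : Dom Θ r u) : InN Θ r u :=
  h.1.mono Subset.rfl (by linarith)

lemma Dom.half (hr : 0 ≤ r) {u : ZMod N} (h : Dom Θ r u) : InN Θ r (u * (2 : ZMod N)⁻¹) :=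
  h.2.mono Subset.rfl (by linarith)

lemma gen_kill (hr : 0 ≤ r) (hL : ∀ j, AddOn Θ r (L j)) {q Q : ℕ} (hq : IsUnit (q : ZMod N))
    (hq0 : 0 < q) (hQ : ∀ m, 1 ≤ m → m ≤ Q → m ∣ q) {Th : Finset (ZMod N)} {ρ sk : ℝ} (hρ : 0 ≤ ρ)
    (hD : ∀ u, InN Th ρ u → Dom Θ r u) {K : Finset (Fin d → ℤ)}
    (hK : ∀ x ∈ K, ∀ v w, InN Th ρ v → InN Th ρ w → ‖pr (comb L x v) w‖ ≤ sk)
    {a : Fin d → ℤ} (ha : Gen Q K a) {v w : ZMod N}
    (hv : InN (Th.image (· * (q : ZMod N)⁻¹)) (ρ / q) v) (hw : InN Th ρ w) :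
    ‖pr (comb L a v) w‖ ≤ K.card * (Q * sk) := by
  obtain ⟨m, hm1, hmQ, c, hc, hma⟩ := ha
  obtain ⟨u, rfl, hu⟩ := div_ball hq hq0 Th hρ (hQ m hm1 hmQ) hv
  have hu1 : InN Th ρ u := by simpa using hu 1 hm1
  rw [comb_nsmul_pt hL a u m hm1 fun i hi => (hD _ (hu i hi)).inN hr, ← comb_smul, hma, comb_sum,
    pr_sum_left]
  refine (norm_sum_le _ _).trans ?_
  refine (sum_le_card_nsmul _ _ (Q * sk) fun x hx => ?_).trans (le_of_eq (nsmul_eq_mul _ _))
  rw [pr_zsmul_left]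
  refine (norm_zsmul_T _ _).trans ?_
  have h1 : |(c x : ℝ)| ≤ Q := by exact_mod_cast hc x hx
  exact mul_le_mul h1 (hK x hx u w hu1 hw) (norm_nonneg _) (by positivity)

lemma Qa_expand (hr : 0 ≤ r) (hL : ∀ j, AddOn Θ r (L j)) {s : ℝ} (hs : 0 ≤ s)
    (hS : ∀ j, SymOn Θ r s (L j)) (h2 : IsUnit (2 : ZMod N)) (a : Fin d → ℤ)
    (ha : ∀ j, |a j| ≤ 2) (η : ZMod N) {w : ZMod N} (hw : Dom Θ r w) :
    ∃ b₁ b₂ : ZMod N → T, ∀ u₁ u₂, Dom Θ r u₁ → Dom Θ r u₂ →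
      ‖(Qa L a (w + (u₁ + u₂)) + pr η (w + (u₁ + u₂))) -
        (b₁ u₁ + b₂ u₂ + pr (comb L a u₁) u₂)‖ ≤ 2 * d * s := by
  have h1 : (2 : ZMod N) * (2 : ZMod N)⁻¹ = 1 := ZMod.mul_inv_of_unit _ h2
  have hh : ∀ u : ZMod N, u * (2 : ZMod N)⁻¹ + u * (2 : ZMod N)⁻¹ = u := fun u => by
    linear_combination u * h1
  set h : ZMod N → ZMod N := fun x => comb L a (x * (2 : ZMod N)⁻¹) with hdef
  refine ⟨fun u => pr (h w) (w + u) + pr (h u) (w + u) + pr η (w + u),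
    fun u => pr (h w) u + pr (h u) (w + u) + pr η u, fun u₁ u₂ hu₁ hu₂ => ?_⟩
  have e1 : comb L a ((w + (u₁ + u₂)) * (2 : ZMod N)⁻¹) = h w + (h u₁ + h u₂) := by
    rw [add_mul, add_mul, comb_add_pt hL a (hw.half hr)
      ((hu₁.2.add hu₂.2).mono Subset.rfl (by linarith)),
      comb_add_pt hL a (hu₁.half hr) (hu₂.half hr)]
  have e2 : comb L a u₁ = h u₁ + h u₁ := by
    rw [← comb_add_pt hL a (hu₁.half hr) (hu₁.half hr), hh]
  have e3 : pr (comb L a u₁) (u₂ * (2 : ZMod N)⁻¹) = pr (h u₁) u₂ := by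
    rw [e2, pr_add_left, ← pr_add_right, hh]
  have key := comb_sym hs hS a ha (hu₂.half hr) (hu₁.inN hr)
  rw [e3] at key
  refine le_trans (le_of_eq ?_) key
  congr 1
  unfold Qa
  rw [e1, e2]
  simp only [pr_add_left, pr_add_right]
  change _ = pr (h u₂) u₁ - pr (h u₁) u₂
  abel

/-- one step of the loop -/
lemma step {C : ℕ}
    (hC : ∀ (Zp : ZMod N → Prop) (Ω S : Finset (ZMod N))
      (Sh : ZMod N → Prop) (c a : ZMod N → ZMod N → T) (q η ε : ℝ), 1 ≤ q → 0 ≤ η → 0 ≤ ε →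
      S ⊆ Ω → Ω.Nonempty → exp (-q) * Ω.card ≤ S.card → (∀ ω, Sh ω → Inv Ω ω η) →
      (∀ z, Zp z → ∀ x ∈ S, ‖c z x‖ ≤ 1 / 20) →
      (∀ z, Zp z → ∀ ω, Sh ω → ∀ x ∈ Ω, x + ω ∈ Ω → ‖c z (x + ω) - c z x - a z ω‖ ≤ ε) →
      ∃ (r : ℕ) (zs : Fin r → ZMod N), (r : ℝ) ≤ C * q ∧ (∀ j, Zp (zs j)) ∧
        ∀ s, 0 ≤ s → ∀ ω, Sh ω → (∀ j, ‖a (zs j) ω‖ ≤ s) → ∀ z, Zp z →
          ‖a z ω‖ ≤ C * (q * (s + ε) + η * exp (C * q)))
    {R : Finset (ZMod N)} {ξ : Fin d → ZMod N → ZMod N} {p P t η₁ sk qc D D₀ D₁ : ℝ} {k : ℕ}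
    (hr : 0 < r) (hL : ∀ j, AddOn Θ r (L j)) (hG : ∀ j, GraphOn R Θ r (ξ j) (L j))
    (hS : ∀ j, SymOn Θ r (exp (-p ^ 5)) (L j)) (hR : exp (-p) * N ≤ R.card)
    (h2 : IsUnit (2 : ZMod N)) (hq : IsUnit (((8 * d + 4).factorial : ℕ) : ZMod N))
    (ht0 : 0 < t) (ht : t ≤ 1 / 2) (hs1 : exp (-p ^ 5) ≤ 1)
    (hts : 16 * (2 * D + 1) * t ≤ exp (-p ^ 5)) (htη : 16 * (2 * D + 1) * t ≤ η₁) (hη1 : η₁ ≤ 1)
    (hηδ : 20 * η₁ ≤ exp (-2 * p ^ 3) ^ 2 / 8) (hqc : 1 ≤ qc)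
    (hqδ : exp (-qc) ≤ exp (-2 * p ^ 3) ^ 2 / 8)
    (hch : C * (qc * (t + 0) + η₁ * exp (C * qc)) ≤ sk)
    (hfac : ((8 * d + 4).factorial : ℝ) * t ≤ 1) (hsk : k * (((8 * d + 4 : ℕ) : ℝ) * sk) ≤ 1 / 100)
    (hD₁ : d + C * qc ≤ D₁) (hD : D₀ + (k + 1) * D₁ ≤ D) (hDP : D ≤ P)
    (hsym : 2 * exp (-p ^ 5) + 7 * (2 * d * exp (-p ^ 5)) ≤ exp (-2 * p ^ 3) / 2)
    (hrad : exp (-P) ≤ r / 100 * (t ^ 6) ^ k * t ^ 3)
    (h : St L Θ r sk D₀ D₁ (t ^ 6) k) :
    Nonempty (LoopOut R ξ L Θ r p P) ∨ St L Θ r sk D₀ D₁ (t ^ 6) (k + 1) := by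
  classical
  obtain ⟨Th, ρ, K, hKk, hTh, hρ, hρ1, hDom, hK, hInd, hK2⟩ := h
  set q : ℕ := (8 * d + 4).factorial with hqdef
  set s : ℝ := exp (-p ^ 5) with hsdef
  set τ : ℝ := exp (-2 * p ^ 3) with hτdef
  have hq0 : 0 < q := Nat.factorial_pos _
  have hq1 : (1 : ℝ) ≤ q := by exact_mod_cast hq0
  have hρ0 : 0 < ρ := lt_of_lt_of_le (by positivity) hρ
  have hs0 : 0 < s := exp_pos _
  have hτ0 : 0 < τ := exp_pos _
  have hCq : 0 ≤ (C : ℝ) * qc := by positivity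
  have hd0 : (0 : ℝ) ≤ d := Nat.cast_nonneg _
  have ht1 : t ≤ 1 := by linarith
  have hmt : ∀ x : ℝ, 0 ≤ x → x * t ≤ x := fun x hx => mul_le_of_le_one_right hx ht1
  have hD' : D₀ + k * D₁ + D₁ ≤ D := by linarith
  -- the divided ball
  set Th' : Finset (ZMod N) := Th.image (· * (q : ZMod N)⁻¹) with hTh'
  set ρ' : ℝ := ρ / q with hρ'
  have hρ'0 : 0 < ρ' := by positivity
  have hρ'ρ : ρ' ≤ ρ := div_le_self hρ0.le hq1
  have hρ't : ρ * t ≤ ρ' := by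
    rw [hρ', le_div_iff₀ (by positivity), mul_assoc, mul_comm t]
    exact mul_le_of_le_one_right hρ0.le hfac
  have hsub : ∀ v, InN Th' ρ' v → InN Th ρ v := fun v hv => by
    obtain ⟨u, hu, hu'⟩ := div_ball hq hq0 Th hρ0.le (one_dvd q) hv
    have := hu' 1 le_rfl
    rwa [hu] at this
  have hgen : ∀ a, Gen (8 * d + 4) K a → ∀ v w, InN Th' ρ' v → InN Th' ρ' w →
      ‖pr (comb L a v) w‖ ≤ 1 / 100 := fun a ha v w hv hw => by
    refine (gen_kill hr.le hL hq hq0 (fun m h1 h2 => Nat.dvd_factorial h1 h2) hρ0.le hDom hK ha hv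
      (hsub w hw)).trans ?_
    rw [hKk]
    exact hsk
  have hTh'c : (Th'.card : ℝ) ≤ D₀ + k * D₁ :=
    le_trans (by exact_mod_cast card_image_le) hTh
  have hreg : ∀ (X : Finset (ZMod N)) (η : ℝ), (X.card : ℝ) ≤ D → 16 * (2 * D + 1) * t ≤ η →
      16 * (2 * X.card + 1) * t ≤ η := fun X η h1 h2 => le_trans (by gcongr) h2
  -- the set `V`
  obtain ⟨V, hV⟩ := exists_regBohr Th' hρ'0 ht0 (le_refl (1 : ℝ))
    (hreg Th' 1 (by linarith) (hts.trans hs1))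
  have hVm : ∀ v ∈ V, InN Th' ρ' v := fun v hv => by
    have := (bohrF_mem hρ'0.le 1 v).1 (hV.one v hv)
    rwa [one_mul] at this
  have hVne : V.Nonempty := ⟨0, hV.zero_mem⟩
  obtain ⟨h0, hh0⟩ := exists_translate R V
  have hN : (0 : ℝ) < N := by exact_mod_cast Nat.pos_of_ne_zero (NeZero.ne N)
  have hdens : exp (-p) * V.card ≤ cnt V (fun v => h0 + v ∈ R) := by
    refine le_of_mul_le_mul_left (le_trans ?_ hh0) hN
    have := mul_le_mul_of_nonneg_right hR (Nat.cast_nonneg (α := ℝ) V.card)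
    linarith
  obtain ⟨v₁, hv₁, hv₁R⟩ : ∃ v ∈ V, h0 + v ∈ R := by
    rw [← cnt_pos_iff]
    refine lt_of_lt_of_le ?_ hdens
    have : (0 : ℝ) < V.card := by exact_mod_cast hVne.card_pos
    positivity
  set ξ0 : Fin d → ZMod N := fun j => ξ j (h0 + v₁) - L j v₁ with hξ0
  have haff : ∀ v ∈ V, h0 + v ∈ R → ∀ j, ξ j (h0 + v) = ξ0 j + L j v := fun v hv hvR j => by
    have d1 := hDom _ (hsub _ (hVm v hv))
    have d2 := hDom _ (hsub _ (hVm v₁ hv₁))
    have d3 : InN Θ r (v - v₁) := (d1.1.sub d2.1).mono Subset.rfl (by linarith)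
    have e0 : h0 + v - (h0 + v₁) = v - v₁ := by ring
    have e1 := hG j _ hv₁R _ hvR (by rwa [e0])
    have e2 := hL j _ _ d3 (d2.inN hr.le)
    rw [e0] at e1
    rw [sub_add_cancel] at e2
    rw [hξ0]
    linear_combination e1 - e2
  -- the set `W`
  set ThW : Finset (ZMod N) := Th' ∪ univ.image ξ0 with hThW
  have hThWc : (ThW.card : ℝ) ≤ D₀ + k * D₁ + d := by
    have h1 : ThW.card ≤ Th'.card + d := (card_union_le _ _).trans
      (Nat.add_le_add_left (card_image_le.trans (by simp)) _)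
    have h2 : (ThW.card : ℝ) ≤ Th'.card + d := by exact_mod_cast h1
    linarith
  have hThWD : (ThW.card : ℝ) ≤ D := by linarith
  have hD0 : 0 ≤ D := le_trans (Nat.cast_nonneg _) hThWD
  have hts' : t ≤ s := le_trans (le_mul_of_one_le_left ht0.le (by linarith)) hts
  set rW : ℝ := ρ' * t with hrW
  have hrW0 : 0 < rW := by positivity
  have hrWρ : rW ≤ ρ' := hmt _ hρ'0.le
  have hWsub : ∀ u x, x ≤ rW → InN ThW x u → InN Th' ρ' u := fun u x hx hu =>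
    hu.mono subset_union_left (hx.trans hrWρ)
  obtain ⟨W, hW⟩ := exists_regBohr ThW hrW0 ht0 hs1 (hreg ThW s hThWD hts)
  have hWm : ∀ w ∈ W, InN ThW rW w := fun w hw => by
    have := (bohrF_mem hrW0.le 1 w).1 (hW.one w hw)
    rwa [one_mul] at this
  -- the separated set
  obtain ⟨A, hA, hAsep, hArep⟩ := exists_sep (cube d) (fun a a' => Gen (8 * d + 4) K (a - a'))
    (fun a => by rw [sub_self]; exact Gen.zero (by omega))
    (fun a b h => by rw [← neg_sub]; exact h.neg)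
  by_cases hun : ∀ a ∈ A, ∀ a' ∈ A, a ≠ a' → ∀ η : ZMod N,
      ‖∑ w ∈ W, e (Qa L (a - a') w + pr η w)‖ ≤ τ * W.card
  · left
    refine ⟨{
      V := V, W := W, ΘW := ThW, rW := rW, sW := t, h0 := h0, ξ0 := ξ0, A := A
      card_le := hThWD.trans hDP
      rW_pos := hrW0
      sW_pos := ht0
      sW_le := ht
      rad := ?_
      rW_le := ?_
      regW := hW
      domV := fun u hu => hDom _ (hsub _ (hVm u hu))
      domW := fun u hu => hDom _ (hsub _ (hWsub u _ le_rfl hu))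
      V_ne := hVne
      dens := hdens
      aff := haff
      sumVW := ?_
      ξ0_mem := fun j => mem_union_right _ (mem_image_of_mem _ (mem_univ j))
      A_sub := hA
      rep := fun a' ha' => ?_
      unb := hun }⟩
    · refine hrad.trans ?_
      calc r / 100 * (t ^ 6) ^ k * t ^ 3 ≤ ρ * t ^ 3 := by gcongr
        _ = ρ * t * t * t := by ring
        _ ≤ ρ' * t * t := by gcongr
    · calc ρ' * t ≤ 1 * t := by gcongr; linarith
        _ ≤ s := by linarith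
    · obtain ⟨I, O, hIV, -, -, hO, hc⟩ := hV.ex
      refine ⟨O, ?_, fun v hv w hw => hO v hv w ?_⟩
      · have : (I.card : ℝ) ≤ V.card := by exact_mod_cast card_le_card hIV
        linarith
      · rw [bohrF_mem hρ'0.le]
        exact (hWm w hw).mono subset_union_left (by rw [hrW, mul_comm])
    · obtain ⟨a, ha, hg⟩ := hArep a' ha'
      exact ⟨a, ha, fun v hv w hw => hgen _ hg v w (hVm v hv) (hWsub w _ le_rfl (hWm w hw))⟩
  right
  push Not at hun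
  obtain ⟨a₁, ha₁, a₂, ha₂, hne, η, hbias⟩ := hun
  set a : Fin d → ℤ := a₁ - a₂ with hadef
  have hng : ¬ Gen (8 * d + 4) K a := hAsep a₁ ha₁ a₂ ha₂ hne
  have ha2 : ∀ j, |a j| ≤ 2 := fun j => by
    have h1 := Fintype.mem_piFinset.1 (hA ha₁) j
    have h2 := Fintype.mem_piFinset.1 (hA ha₂) j
    simp only [mem_insert, mem_singleton] at h1 h2
    rw [hadef, Pi.sub_apply, abs_le]
    constructor <;> omega
  -- the set `W₁`
  set r₁ : ℝ := rW * t / 2 with hr₁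
  have hr₁0 : 0 < r₁ := by positivity
  have hr₁W : r₁ ≤ rW := by
    have := hmt _ hrW0.le
    rw [hr₁]; linarith
  obtain ⟨W₁, hW₁⟩ := exists_regBohr ThW hr₁0 ht0 hη1 (hreg ThW η₁ hThWD htη)
  have hW₁m : ∀ w ∈ W₁, InN ThW r₁ w := fun w hw => by
    have := (bohrF_mem hr₁0.le 1 w).1 (hW₁.one w hw)
    rwa [one_mul] at this
  have hW₁ne : W₁.Nonempty := ⟨0, hW₁.zero_mem⟩
  have hW₁D : ∀ w ∈ W₁, Dom Θ r w := fun w hw => hDom _ (hsub _ (hWsub w _ hr₁W (hW₁m w hw)))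
  obtain ⟨w', hw', hcnt⟩ := bias (W := W) ⟨0, hW.zero_mem⟩ hW₁ne (comb L a)
    (fun w => Qa L a w + pr η w) (s := s) (ε := 2 * d * s) hτ0.le hsym
    (fun u₁ hu₁ u₂ hu₂ => hW.inv (by
      rw [bohrF_mem hrW0.le]
      exact ((hW₁m u₁ hu₁).add (hW₁m u₂ hu₂)).mono Subset.rfl (by rw [hr₁]; linarith)))
    (fun w hw => by
      obtain ⟨b₁, b₂, hb⟩ := Qa_expand hr.le hL hs0.le hS h2 a ha2 η
        (hDom _ (hsub _ (hWsub w _ le_rfl (hWm w hw))))
      exact ⟨b₁, b₂, fun u₁ hu₁ u₂ hu₂ => hb u₁ u₂ (hW₁D u₁ hu₁) (hW₁D u₂ hu₂)⟩)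
    hbias.le
  set δ : ℝ := τ ^ 2 / 8 with hδ
  have hδ0 : 0 < δ := by positivity
  set r₃ : ℝ := t * r₁ with hr₃
  have hr₃0 : 0 < r₃ := by positivity
  have hr₃1 : r₃ ≤ r₁ := by rw [hr₃, mul_comm]; exact hmt _ hr₁0.le
  have hη0 : 0 ≤ η₁ := le_trans (by positivity) htη
  have hinv : ∀ b, InN ThW r₃ b → Inv W₁ b η₁ := fun b hb =>
    hW₁.inv ((bohrF_mem hr₁0.le t b).2 hb)
  have hr₃D : ∀ b, InN ThW r₃ b → Dom Θ r b := fun b hb =>
    hDom _ (hsub _ (hWsub b _ (hr₃1.trans hr₁W) hb))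
  rw [cnt_eq_card] at hcnt
  obtain ⟨m, zs, hm, hzs, hkill⟩ := hC (InN ThW r₃) W₁ _ (InN ThW r₃)
    (fun b x => pr (comb L a b) (x - w')) (fun b x => pr (comb L a b) x) qc η₁ 0 hqc hη0 le_rfl
    (filter_subset _ _) hW₁ne
    (le_trans (mul_le_mul_of_nonneg_right hqδ (Nat.cast_nonneg _)) hcnt) hinv
    (fun b hb x hx => by
      have h1 := (hinv b hb).phase hW₁ne (F := fun u => pr (comb L a u) (x - w'))
        (c := pr (comb L a b) (x - w')) (ε := 0) (a := δ) (fun u hu => by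
          rw [comb_add_pt hL a ((hW₁D u hu).inN hr.le) ((hr₃D b hb).inN hr.le), pr_add_left]
          simp) hδ0 (mem_filter.1 hx).2
      refine h1.trans ?_
      rw [div_le_iff₀ hδ0]
      linarith)
    (fun b _ ω _ x _ _ => by
      rw [add_sub_right_comm, pr_add_right]
      simp)
  set Th₂ : Finset (ZMod N) := ThW ∪ univ.image fun j => comb L a (zs j) with hTh₂
  have haK : a ∉ K := fun h => hng (Gen.of_mem (by omega) h)
  have hr₃ρ : r₃ ≤ 1 := by linarith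
  have hr₄ : r₃ * t ≤ r₃ := hmt _ hr₃0.le
  have hin : ∀ u, InN Th₂ (r₃ * t) u → InN ThW r₃ u := fun u hu => hu.mono subset_union_left hr₄
  have hin' : ∀ u, InN Th₂ (r₃ * t) u → InN Th ρ u := fun u hu =>
    hsub _ (hWsub u _ (hr₃1.trans hr₁W) (hin u hu))
  refine ⟨Th₂, r₃ * t, insert a K, by rw [card_insert_of_notMem haK, hKk], ?_, ?_, by linarith,
    fun u hu => hr₃D u (hin u hu), fun x hx v w hv hw => ?_, hInd.insert (by omega) hng,
    fun x hx => ?_⟩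
  · have h1 : Th₂.card ≤ ThW.card + m := (card_union_le _ _).trans
      (Nat.add_le_add_left (card_image_le.trans (by simp)) _)
    have h2 : (Th₂.card : ℝ) ≤ ThW.card + m := by exact_mod_cast h1
    push_cast
    linarith
  · calc r / 100 * (t ^ 6) ^ (k + 1) = r / 100 * (t ^ 6) ^ k * t ^ 6 := by ring
      _ ≤ ρ * t ^ 6 := by gcongr
      _ = ρ * t * t * (t ^ 4) := by ring
      _ ≤ ρ' * (1 / 2) * (t ^ 4) := by gcongr
      _ = r₃ * t := by rw [hr₃, hr₁, hrW]; ring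
  · rcases mem_insert.1 hx with hx | hx
    · rw [hx]
      refine (hkill t ht0.le w (hin w hw) (fun j => ?_) v (hin v hv)).trans hch
      exact (hw _ (mem_union_right _ (mem_image_of_mem _ (mem_univ j)))).trans
        (mul_le_of_le_one_left ht0.le hr₃ρ)
    · exact hK x hx v w (hin' v hv) (hin' w hw)
  · rcases mem_insert.1 hx with hx | hx
    · rw [hx]; exact ha2
    · exact hK2 x hx

end step

section num

lemma big {P : ℝ} (hP : 32 ≤ P) : 1000 * P ≤ exp P := by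
  have h := Real.pow_div_factorial_le_exp P (by linarith) 4
  have h1 : (32 : ℝ) ^ 3 ≤ P ^ 3 := pow_le_pow_left₀ (by norm_num) hP 3
  have h2 : ((Nat.factorial 4 : ℕ) : ℝ) = 24 := by norm_num [Nat.factorial]
  rw [h2] at h
  nlinarith

lemma nat_le_exp (C : ℕ) {P : ℝ} (hP : 1 ≤ P) : (C : ℝ) + 1 ≤ exp (C * P) :=
  (add_one_le_exp _).trans (exp_le_exp.2 (le_mul_of_one_le_right (Nat.cast_nonneg _) hP))

lemma nat_mul_sq_le (n : ℕ) {P : ℝ} (hP : 2 ≤ P) : (n : ℝ) * P ^ 2 ≤ P ^ (n + 2) := by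
  rw [pow_add]
  refine mul_le_mul_of_nonneg_right ?_ (by positivity)
  have h1 : (n : ℝ) ≤ 2 ^ n := by exact_mod_cast (Nat.lt_two_pow_self).le
  exact h1.trans (pow_le_pow_left₀ (by norm_num) hP n)

lemma num_η (C : ℕ) {P : ℝ} (hP : 32 ≤ P) :
    16 * (2 * ((2 * C + 3) * P ^ 2) + 1) * exp (-((4 * C + 13) * P)) ≤
      exp (-((3 * C + 3) * P)) := by
  have hC : (0 : ℝ) ≤ C := Nat.cast_nonneg _
  have h1 := big hP
  have h2 := nat_le_exp C (P := P) (by linarith)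
  have h3 : 16 * (2 * ((2 * C + 3) * P ^ 2) + 1) ≤ (C + 1) * ((1000 * P) * (1000 * P)) := by
    nlinarith [mul_nonneg hC (sq_nonneg P)]
  have h4 : ((C : ℝ) + 1) * ((1000 * P) * (1000 * P)) ≤ exp (C * P) * (exp P * exp P) := by
    gcongr
  refine (mul_le_mul_of_nonneg_right (h3.trans h4) (exp_pos _).le).trans ?_
  rw [← exp_add, ← exp_add, ← exp_add, exp_le_exp]
  linarith

lemma num_ch (C : ℕ) {P : ℝ} (hP : 32 ≤ P) :
    C * (2 * P * (exp (-((4 * C + 13) * P)) + 0) +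
      exp (-((3 * C + 3) * P)) * exp (C * (2 * P))) ≤ exp (-P) := by
  have hC : (0 : ℝ) ≤ C := Nat.cast_nonneg _
  have hCP : 0 ≤ (C : ℝ) * P := by positivity
  have h1 := big hP
  have h2 : (C : ℝ) ≤ exp (C * P) := by linarith [nat_le_exp C (P := P) (by linarith)]
  have h3 : C * (2 * P * exp (-((4 * C + 13) * P))) ≤ exp (-(2 * P)) := by
    calc _ ≤ exp (C * P) * (exp P * exp (-((4 * C + 13) * P))) := by gcongr; linarith
      _ ≤ _ := by rw [← exp_add, ← exp_add, exp_le_exp]; linarith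
  have h4 : C * (exp (-((3 * C + 3) * P)) * exp (C * (2 * P))) ≤ exp (-(2 * P)) := by
    calc _ ≤ exp (C * P) * (exp (-((3 * C + 3) * P)) * exp (C * (2 * P))) := by gcongr
      _ ≤ _ := by rw [← exp_add, ← exp_add, exp_le_exp]; linarith
  have h5 : 2 * exp (-(2 * P)) ≤ exp (-P) := by
    calc _ ≤ exp P * exp (-(2 * P)) := by gcongr; linarith
      _ ≤ _ := by rw [← exp_add, exp_le_exp]; linarith
  rw [add_zero, mul_add]
  linarith

lemma num_fac {Q : ℕ} {P x : ℝ} (hQ : (Q : ℝ) ^ 2 ≤ 13 * P) (hx : 13 * P ≤ x) :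
    (Q.factorial : ℝ) * exp (-x) ≤ 1 := by
  have h1 : (Q.factorial : ℝ) ≤ (Q : ℝ) ^ Q := by exact_mod_cast Nat.factorial_le_pow Q
  have h2 : (Q : ℝ) ^ Q ≤ exp Q ^ Q :=
    pow_le_pow_left₀ (Nat.cast_nonneg _) (by linarith [add_one_le_exp (Q : ℝ)]) Q
  rw [← exp_nat_mul] at h2
  calc _ ≤ exp (Q * Q) * exp (-x) := by gcongr; exact h1.trans h2
    _ ≤ exp 0 := by rw [← exp_add, exp_le_exp]; nlinarith
    _ = 1 := exp_zero

lemma num_sym {p d : ℝ} (hp : 2 ≤ p) (hd : d ≤ p) :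
    2 * exp (-p ^ 5) + 7 * (2 * d * exp (-p ^ 5)) ≤ exp (-2 * p ^ 3) / 2 := by
  have h0 : 8 ≤ p ^ 3 := by
    have := pow_le_pow_left₀ (by norm_num) hp 3
    linarith
  have hp2 : 4 ≤ p ^ 2 := by nlinarith
  have h1 : 4 * p ≤ p ^ 3 := by nlinarith
  have h2 : 4 * p ^ 3 ≤ p ^ 5 := by nlinarith
  have h3 := Real.pow_div_factorial_le_exp (2 * p ^ 3) (by positivity) 2
  have h4 : ((Nat.factorial 2 : ℕ) : ℝ) = 2 := by norm_num [Nat.factorial]
  rw [h4] at h3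
  have h5 : 4 + 28 * d ≤ exp (2 * p ^ 3) := by nlinarith
  have h6 : (4 + 28 * d) * exp (-p ^ 5) ≤ exp (-2 * p ^ 3) := by
    calc _ ≤ exp (2 * p ^ 3) * exp (-p ^ 5) := by gcongr
      _ ≤ _ := by rw [← exp_add, exp_le_exp]; linarith
  linarith

lemma num_rad (E k : ℕ) {P : ℝ} (hP : 32 ≤ P) (hE : 2 ≤ E) (hk : (k : ℝ) ≤ P) :
    exp (-P ^ (7 * E + 2)) ≤ exp (-P) / 100 * (exp (-(E * P)) ^ 6) ^ k * exp (-(E * P)) ^ 3 := by
  have h1 := big hP
  have hE' : (2 : ℝ) ≤ E := by exact_mod_cast hE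
  have h2 : exp (-(2 * P)) ≤ exp (-P) / 100 := by
    rw [le_div_iff₀ (by norm_num)]
    calc _ ≤ exp (-(2 * P)) * exp P := by gcongr; linarith
      _ ≤ _ := by rw [← exp_add, exp_le_exp]; linarith
  have h3 := nat_mul_sq_le (7 * E) (P := P) (by linarith)
  refine le_trans ?_ (mul_le_mul_of_nonneg_right (mul_le_mul_of_nonneg_right h2 (by positivity))
    (by positivity))
  rw [← exp_nat_mul, ← exp_nat_mul, ← exp_nat_mul, ← exp_add, ← exp_add, exp_le_exp]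
  push_cast at h3 ⊢
  have h4 : 0 ≤ (E : ℝ) * P := by positivity
  have h5 : (k : ℝ) * (E * P) ≤ P * (E * P) := mul_le_mul_of_nonneg_right hk h4
  have h6 : 2 * P ≤ E * P := mul_le_mul_of_nonneg_right hE' (by linarith)
  have h7 : 32 * (E * P) ≤ P * (E * P) := mul_le_mul_of_nonneg_right hP h4
  nlinarith

end num

end Loop

open Loop in
theorem loop (hL : LocChangStmt) : LoopStmt := by
  classical
  obtain ⟨C, hC⟩ := hL
  refine ⟨7 * (4 * C + 13) + 2, fun p P hp hpP N _ hN hpN d R ξ L Θ hd hR hΘ hadd hG hS => ?_⟩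
  have hC0 : (0 : ℝ) ≤ C := Nat.cast_nonneg _
  have hd0 : (0 : ℝ) ≤ d := Nat.cast_nonneg _
  have hp2 : 4 ≤ p ^ 2 := by nlinarith
  have hp3 : 8 ≤ p ^ 3 := by nlinarith
  have hp4 : 16 ≤ p ^ 4 := by nlinarith
  have a1 : 16 * p ≤ P := by nlinarith
  have a2 : 8 * p ^ 2 ≤ P := by nlinarith
  have a3 : 4 * p ^ 3 ≤ P := by nlinarith
  have hP : 32 ≤ P := by linarith
  have hbig := big hP
  have hCP : 0 ≤ (C : ℝ) * P := by positivity
  have hQ : ((8 * d + 4 : ℕ) : ℝ) ≤ 10 * p := by push_cast; linarith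
  have hQN : 8 * d + 4 < N := by
    have : ((8 * d + 4 : ℕ) : ℝ) < N := by linarith
    exact_mod_cast this
  have hq : IsUnit (((8 * d + 4).factorial : ℕ) : ZMod N) := by
    rw [ZMod.isUnit_iff_coprime, Nat.coprime_comm, hN.coprime_iff_not_dvd, hN.dvd_factorial]
    omega
  have h2 : IsUnit (2 : ZMod N) := by
    have : IsUnit ((2 : ℕ) : ZMod N) := by
      rw [ZMod.isUnit_iff_coprime, Nat.coprime_comm, hN.coprime_iff_not_dvd]
      exact Nat.not_dvd_of_pos_of_lt (by norm_num) (by omega)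
    simpa using this
  have hτ : exp (-P) ≤ exp (-2 * p ^ 3) ^ 2 := by
    rw [← exp_nat_mul, exp_le_exp]
    push_cast
    linarith
  have hx : ∀ c a b : ℝ, 0 ≤ c → c ≤ 1000 * P → a + P ≤ b → c * exp a ≤ exp b :=
    fun c a b h0 h1 h3 => by
      calc c * exp a ≤ exp P * exp a := by gcongr; linarith
        _ ≤ _ := by rw [← exp_add, exp_le_exp]; linarith
  have key : ∀ k : ℕ, k ≤ 2 * d + 1 →
      Nonempty (LoopOut R ξ L Θ (exp (-P)) p (P ^ (7 * (4 * C + 13) + 2))) ∨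
      St L Θ (exp (-P)) (exp (-P)) (2 * P) ((2 * C + 1) * P) (exp (-((4 * C + 13) * P)) ^ 6) k := by
    intro k
    induction k with
    | zero =>
      intro _
      right
      refine ⟨Θ ∪ Θ.image (· * (2 : ZMod N)⁻¹), exp (-P) / 100, ∅, rfl, ?_, by simp, ?_,
        fun u hu => ⟨hu.mono subset_union_left le_rfl, fun θ hθ => ?_⟩, by simp,
        fun c _ _ x hx => by simp at hx, by simp⟩
      · have h1 : (Θ ∪ Θ.image (· * (2 : ZMod N)⁻¹)).card ≤ Θ.card + Θ.card :=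
          (card_union_le _ _).trans (Nat.add_le_add_left card_image_le _)
        have h3 : ((Θ ∪ Θ.image (· * (2 : ZMod N)⁻¹)).card : ℝ) ≤ Θ.card + Θ.card := by
          exact_mod_cast h1
        push_cast
        linarith
      · have : exp (-P) ≤ 1 := exp_le_one_iff.2 (by linarith)
        linarith
      · rw [mul_comm, ← pr_mul]
        exact hu _ (mem_union_right _ (mem_image_of_mem _ hθ))
    | succ k ih =>
      intro hk
      rcases ih (by omega) with h | h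
      · exact Or.inl h
      have hk' : (k : ℝ) ≤ 2 * d := by exact_mod_cast (by omega : k ≤ 2 * d)
      have hk0 : (0 : ℝ) ≤ k := Nat.cast_nonneg _
      have hη := num_η C hP
      refine step (hC (ZMod N) (ZMod N)) (η₁ := exp (-((3 * C + 3) * P))) (qc := 2 * P)
        (D := (2 * C + 3) * P ^ 2) (exp_pos _) hadd hG hS hR h2 hq (exp_pos _) ?_
        (exp_le_one_iff.2 (neg_nonpos.2 (by positivity)))
        (hη.trans (exp_le_exp.2 (by linarith))) hη (exp_le_one_iff.2 (by linarith)) ?_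
        (by linarith) ?_ (num_ch C hP) (num_fac (P := P) ?_ (by linarith)) ?_ (by linarith) ?_ ?_
        (num_sym hp hd) ?_ h
      · have := hx 2 (-((4 * C + 13) * P)) 0 (by norm_num) (by linarith) (by linarith)
        rw [exp_zero] at this
        linarith
      · have := hx 160 (-((3 * C + 3) * P)) (-P) (by norm_num) (by linarith) (by linarith)
        linarith
      · have := hx 8 (-(2 * P)) (-P) (by norm_num) (by linarith) (by linarith)
        linarith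
      · have := pow_le_pow_left₀ (Nat.cast_nonneg _) hQ 2
        linarith
      · have h3 : (k : ℝ) * ((8 * d + 4 : ℕ) : ℝ) ≤ (2 * p) * (10 * p) :=
          mul_le_mul (by linarith) hQ (Nat.cast_nonneg _) (by linarith)
        have := hx (100 * (k * ((8 * d + 4 : ℕ) : ℝ))) (-P) 0 (by positivity) (by linarith)
          (by linarith)
        rw [exp_zero] at this
        linarith
      · have h3 : ((k : ℝ) + 1) * ((2 * C + 1) * P) ≤ P * ((2 * C + 1) * P) :=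
          mul_le_mul_of_nonneg_right (by linarith) (by positivity)
        nlinarith
      · refine le_trans ?_ (nat_mul_sq_le _ (by linarith))
        refine mul_le_mul_of_nonneg_right ?_ (by positivity)
        push_cast
        linarith
      · have := num_rad (4 * C + 13) k hP (by omega) (by linarith)
        push_cast at this
        exact this
  rcases key (2 * d + 1) le_rfl with h | ⟨_, _, K, hK, -, -, -, -, -, hI, hb⟩
  · exact h
  · exact absurd hK (hI.card_ne hb)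

end Pool.Agent.Tri
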