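import Pool.Agent.Lib.MP_9721b5_an.Tri.Basic
import Pool.Agent.Lib.MP_9721b5_an.Tri.Stmts

/-!
Tools for the rank regularisation loop: integer combinations, bounded independence, and the
passage from a biased local quadratic phase to a biased bilinear phase.
-/

set_option autoImplicit false

open Finset ComplexConjugate Real

namespace Pool.Agent.Tri.Loop

section comb

variable {N : ℕ} [NeZero N] {d : ℕ} {L : Fin d → ZMod N → ZMod N} {Θ : Finset (ZMod N)} {r : ℝ}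

lemma comb_add_pt (hL : ∀ j, AddOn Θ r (L j)) (a : Fin d → ℤ) {u v : ZMod N} (hu : InN Θ r u)
    (hv : InN Θ r v) : comb L a (u + v) = comb L a u + comb L a v := by
  unfold comb
  rw [← sum_add_distrib]
  exact sum_congr rfl fun j _ => by rw [hL j u v hu hv, smul_add]

omit [NeZero N] in
lemma comb_smul (m : ℤ) (a : Fin d → ℤ) (v : ZMod N) :
    comb L (m • a) v = m • comb L a v := by
  unfold comb
  rw [smul_sum]
  exact sum_congr rfl fun j _ => by rw [Pi.smul_apply, smul_eq_mul, mul_smul]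

omit [NeZero N] in
lemma comb_sum (K : Finset (Fin d → ℤ)) (c : (Fin d → ℤ) → ℤ) (v : ZMod N) :
    comb L (∑ x ∈ K, c x • x) v = ∑ x ∈ K, c x • comb L x v := by
  unfold comb
  simp only [Finset.sum_apply, Pi.smul_apply, smul_eq_mul, sum_smul, smul_sum, mul_smul]
  exact sum_comm

lemma comb_nsmul_pt (hL : ∀ j, AddOn Θ r (L j)) (a : Fin d → ℤ) (u : ZMod N) (m : ℕ)
    (hm : 1 ≤ m) (h : ∀ i : ℕ, i ≤ m → InN Θ r ((i : ℤ) • u)) :
    comb L a ((m : ℤ) • u) = (m : ℤ) • comb L a u := by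
  induction m, hm using Nat.le_induction with
  | base => simp
  | succ m hm ih =>
    have h1 : InN Θ r u := by simpa using h 1 (by omega)
    rw [Nat.cast_succ, add_smul, one_smul, comb_add_pt hL a (h m (by omega)) h1,
      ih fun i hi => h i (by omega), add_smul, one_smul]

lemma pr_sum_left {α : Type*} (S : Finset α) (f : α → ZMod N) (x : ZMod N) :
    pr (∑ i ∈ S, f i) x = ∑ i ∈ S, pr (f i) x := by
  simp only [pr, sum_mul, map_sum]

lemma comb_sym {s : ℝ} (hs : 0 ≤ s) (hS : ∀ j, SymOn Θ r s (L j)) (a : Fin d → ℤ)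
    (ha : ∀ j, |a j| ≤ 2) {u t : ZMod N} (hu : InN Θ r u) (ht : InN Θ r t) :
    ‖pr (comb L a u) t - pr (comb L a t) u‖ ≤ 2 * d * s := by
  unfold comb
  rw [pr_sum_left, pr_sum_left, ← sum_sub_distrib]
  refine (norm_sum_le _ _).trans ?_
  have : ∀ j ∈ (univ : Finset (Fin d)),
      ‖pr (a j • L j u) t - pr (a j • L j t) u‖ ≤ 2 * s := fun j _ => by
    rw [pr_zsmul_left, pr_zsmul_left, ← smul_sub]
    refine (norm_zsmul_T _ _).trans ?_
    have h2 : |(a j : ℝ)| ≤ 2 := by exact_mod_cast ha j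
    exact mul_le_mul h2 (hS j u t hu ht) (norm_nonneg _) (by norm_num)
  refine (sum_le_card_nsmul _ _ _ this).trans (le_of_eq ?_)
  simp only [card_univ, Fintype.card_fin, nsmul_eq_mul]
  ring

end comb

section gen

variable {d : ℕ}

/-- a bounded multiple of `a` is a bounded combination of the vectors of `K` -/
def Gen (Q : ℕ) (K : Finset (Fin d → ℤ)) (a : Fin d → ℤ) : Prop :=
  ∃ m : ℕ, 1 ≤ m ∧ m ≤ Q ∧ ∃ c : (Fin d → ℤ) → ℤ, (∀ x ∈ K, |c x| ≤ Q) ∧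
    (m : ℤ) • a = ∑ x ∈ K, c x • x

/-- no bounded relation between the vectors of `K` -/
def Ind (Q : ℕ) (K : Finset (Fin d → ℤ)) : Prop :=
  ∀ c : (Fin d → ℤ) → ℤ, (∀ x ∈ K, |c x| ≤ Q) → ∑ x ∈ K, c x • x = 0 → ∀ x ∈ K, c x = 0

variable {Q : ℕ} {K : Finset (Fin d → ℤ)}

lemma Gen.neg {a : Fin d → ℤ} (h : Gen Q K a) : Gen Q K (-a) := by
  obtain ⟨m, h1, h2, c, hc, h⟩ := h
  refine ⟨m, h1, h2, fun x => -c x, fun x hx => by rw [abs_neg]; exact hc x hx, ?_⟩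
  rw [smul_neg, h, ← sum_neg_distrib]
  exact sum_congr rfl fun x _ => by rw [neg_smul]

lemma Gen.zero (hQ : 1 ≤ Q) : Gen Q K 0 :=
  ⟨1, le_rfl, hQ, fun _ => 0, fun x _ => by simp, by simp⟩

lemma Gen.of_mem (hQ : 1 ≤ Q) {a : Fin d → ℤ} (ha : a ∈ K) : Gen Q K a := by
  classical
  refine ⟨1, le_rfl, hQ, fun x => if x = a then 1 else 0, fun x _ => ?_, ?_⟩
  · have : (1 : ℤ) ≤ Q := by exact_mod_cast hQ
    dsimp only
    split_ifs
    · simpa using this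
    · simp
  · simp [ite_smul, ha]

lemma Ind.insert (hQ : 1 ≤ Q) (hK : Ind Q K) {a : Fin d → ℤ} (ha : ¬ Gen Q K a) :
    Ind Q (insert a K) := by
  intro c hc h0
  have haK : a ∉ K := fun h => ha (Gen.of_mem hQ h)
  rw [sum_insert haK] at h0
  have hcK : ∀ x ∈ K, |c x| ≤ Q := fun x hx => hc x (mem_insert_of_mem hx)
  have hca : c a = 0 := by
    by_contra hne
    have hb := hc a (mem_insert_self _ _)
    apply ha
    rcases lt_or_gt_of_ne hne with hlt | hgt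
    · refine ⟨(-c a).toNat, by omega, ?_, c, hcK, ?_⟩
      · rw [abs_le] at hb; omega
      · rw [Int.toNat_of_nonneg (by omega), neg_smul]
        exact neg_eq_of_add_eq_zero_right h0
    · refine ⟨(c a).toNat, by omega, ?_, fun x => -c x,
        fun x hx => by rw [abs_neg]; exact hcK x hx, ?_⟩
      · rw [abs_le] at hb; omega
      · rw [Int.toNat_of_nonneg (by omega), eq_neg_of_add_eq_zero_left h0, ← sum_neg_distrib]
        exact sum_congr rfl fun x _ => by rw [neg_smul]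
  rw [hca, zero_smul, zero_add] at h0
  intro x hx
  rcases mem_insert.1 hx with rfl | hx
  · exact hca
  · exact hK c hcK h0 x hx

lemma Ind.card_ne (hK : Ind (8 * d + 4) K) (hb : ∀ x ∈ K, ∀ j, |x j| ≤ 2) :
    K.card ≠ 2 * d + 1 := by
  classical
  intro hk
  set Q : ℕ := 8 * d + 4 with hQ
  set B : ℕ := 2 * (2 * d + 1) * Q with hB
  have h := card_le_card_of_injOn
    (s := Fintype.piFinset fun _ : K => Icc (0 : ℤ) Q)
    (t := Fintype.piFinset fun _ : Fin d => Icc (-(B : ℤ)) B)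
    (fun c : K → ℤ => ∑ x : K, c x • (x : Fin d → ℤ)) ?_ ?_
  · rw [Fintype.card_piFinset_const, Fintype.card_piFinset, prod_const, card_univ,
      Fintype.card_coe, hk, Int.card_Icc, Int.card_Icc] at h
    have e1 : ((Q : ℤ) + 1 - 0).toNat = Q + 1 := by omega
    have e2 : ((B : ℤ) + 1 - -(B : ℤ)).toNat = 2 * B + 1 := by omega
    rw [e1, e2] at h
    have h3 : 2 * B + 1 ≤ (Q + 1) ^ 2 := by rw [hB, hQ]; nlinarith
    have h4 : (2 * B + 1) ^ d ≤ ((Q + 1) ^ 2) ^ d := Nat.pow_le_pow_left h3 d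
    rw [← pow_mul] at h4
    have h5 : (Q + 1) ^ (2 * d) < (Q + 1) ^ (2 * d + 1) :=
      Nat.pow_lt_pow_right (by omega) (by omega)
    omega
  · intro c hc
    rw [mem_coe, Fintype.mem_piFinset] at hc ⊢
    intro j
    rw [mem_Icc, ← abs_le]
    dsimp only
    rw [Finset.sum_apply]
    refine (abs_sum_le_sum_abs _ _).trans ?_
    have : ∀ x ∈ (univ : Finset K), |(c x • (x : Fin d → ℤ)) j| ≤ Q * 2 := fun x _ => by
      rw [Pi.smul_apply, smul_eq_mul, abs_mul]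
      have h1 := mem_Icc.1 (hc x)
      exact mul_le_mul (abs_le.2 ⟨by omega, h1.2⟩) (hb x x.2 j) (abs_nonneg _) (by omega)
    refine (sum_le_card_nsmul _ _ _ this).trans (le_of_eq ?_)
    rw [card_univ, Fintype.card_coe, hk, nsmul_eq_mul, hB]
    push_cast
    ring
  · intro c hc c' hc' h
    rw [mem_coe, Fintype.mem_piFinset] at hc hc'
    have key := hK (fun x => if hx : x ∈ K then c ⟨x, hx⟩ - c' ⟨x, hx⟩ else 0) ?_ ?_
    · funext x
      have := key x x.2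
      rw [dif_pos x.2] at this
      exact sub_eq_zero.1 this
    · intro x hx
      rw [dif_pos hx]
      have h1 := mem_Icc.1 (hc ⟨x, hx⟩)
      have h2 := mem_Icc.1 (hc' ⟨x, hx⟩)
      rw [abs_le]
      constructor <;> omega
    · rw [← sum_coe_sort K]
      have h' : ∑ x : K, c x • (x : Fin d → ℤ) = ∑ x : K, c' x • (x : Fin d → ℤ) := h
      rw [← sub_eq_zero, ← sum_sub_distrib] at h'
      rw [← h']
      exact sum_congr rfl fun x _ => by rw [dif_pos x.2, sub_smul]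

end gen

/-- a maximal separated subset -/
lemma exists_sep {α : Type*} (X : Finset α) (G : α → α → Prop) (hr : ∀ a, G a a)
    (hs : ∀ a b, G a b → G b a) : ∃ A ⊆ X, (∀ a ∈ A, ∀ a' ∈ A, a ≠ a' → ¬ G a a') ∧
      ∀ a' ∈ X, ∃ a ∈ A, G a' a := by
  classical
  obtain ⟨P, hP⟩ : ∃ P : Finset α → Prop, ∀ A, P A ↔ ∀ a ∈ A, ∀ a' ∈ A, a ≠ a' → ¬ G a a' :=
    ⟨_, fun _ => Iff.rfl⟩
  obtain ⟨A, hA, hmax⟩ := exists_max_image (X.powerset.filter P) card ⟨∅, by simp [hP]⟩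
  rw [mem_filter, mem_powerset, hP] at hA
  refine ⟨A, hA.1, hA.2, fun a' ha' => ?_⟩
  by_contra hne
  push Not at hne
  have haA : a' ∉ A := fun h => hne a' h (hr a')
  have := hmax (insert a' A) (by
    rw [mem_filter, mem_powerset, hP]
    refine ⟨insert_subset ha' hA.1, fun a ha b hb hab => ?_⟩
    rcases mem_insert.1 ha with h1 | h1 <;> rcases mem_insert.1 hb with h2 | h2
    · exact absurd (h1.trans h2.symm) hab
    · rw [h1]; exact hne b h2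
    · rw [h2]; exact fun h => hne a h1 (hs _ _ h)
    · exact hA.2 a h1 b h2 hab)
  rw [card_insert_of_notMem haA] at this
  omega

section bias

variable {N : ℕ} [NeZero N]

/-- Cauchy-Schwarz for a bilinear phase -/
lemma bilin {W₁ : Finset (ZMod N)} (hW₁ : W₁.Nonempty) (M : ZMod N → ZMod N)
    (b₁ b₂ : ZMod N → T) {a : ℝ} (ha : 0 ≤ a)
    (h : a * (W₁.card : ℝ) ^ 2 ≤ ‖∑ u₁ ∈ W₁, ∑ u₂ ∈ W₁, e (b₁ u₁ + b₂ u₂ + pr (M u₁) u₂)‖) :
    ∃ w' ∈ W₁, a ^ 2 / 2 * W₁.card ≤ cnt W₁ fun w =>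
      a ^ 2 / 2 * W₁.card ≤ ‖∑ u ∈ W₁, e (pr (M u) (w - w'))‖ := by
  set n : ℝ := (W₁.card : ℝ) with hn
  have hn0 : 0 < n := by rw [hn]; exact_mod_cast hW₁.card_pos
  set Y : ZMod N → ℂ := fun u => ∑ w ∈ W₁, e (b₂ w + pr (M u) w) with hY
  have h1 : ‖∑ u₁ ∈ W₁, ∑ u₂ ∈ W₁, e (b₁ u₁ + b₂ u₂ + pr (M u₁) u₂)‖ ≤ ∑ u ∈ W₁, ‖Y u‖ := by
    refine (norm_sum_le _ _).trans (le_of_eq (sum_congr rfl fun u _ => ?_))
    have : ∑ u₂ ∈ W₁, e (b₁ u + b₂ u₂ + pr (M u) u₂) = e (b₁ u) * Y u := by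
      rw [hY, mul_sum]
      exact sum_congr rfl fun w _ => by rw [add_assoc, e_add]
    rw [this, norm_mul, norm_e, one_mul]
  have h2 : (∑ u ∈ W₁, ‖Y u‖) ^ 2 ≤ n * ∑ u ∈ W₁, ‖Y u‖ ^ 2 := sq_sum_le_card_mul_sum_sq
  have h3 : ((∑ u ∈ W₁, ‖Y u‖ ^ 2 : ℝ) : ℂ) = ∑ w' ∈ W₁, ∑ w ∈ W₁,
      e (b₂ w - b₂ w') * ∑ u ∈ W₁, e (pr (M u) (w - w')) := by
    push_cast
    have : ∀ u, ((‖Y u‖ : ℝ) : ℂ) ^ 2 = ∑ w' ∈ W₁, ∑ w ∈ W₁,
        e (b₂ w - b₂ w') * e (pr (M u) (w - w')) := fun u => by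
      rw [← Complex.mul_conj', hY]
      simp only [map_sum]
      rw [mul_sum]
      refine sum_congr rfl fun w' _ => ?_
      rw [sum_mul]
      refine sum_congr rfl fun w _ => ?_
      rw [← e_sub, ← e_add, pr_sub_right]
      congr 1
      abel
    simp only [this, mul_sum]
    rw [sum_comm]
    exact sum_congr rfl fun w' _ => sum_comm
  have h4 : ∑ u ∈ W₁, ‖Y u‖ ^ 2 ≤ ∑ w' ∈ W₁, ∑ w ∈ W₁, ‖∑ u ∈ W₁, e (pr (M u) (w - w'))‖ := by
    have h5 := congrArg norm h3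
    rw [Complex.norm_real, Real.norm_of_nonneg (sum_nonneg fun u _ => sq_nonneg _)] at h5
    rw [h5]
    refine (norm_sum_le _ _).trans (sum_le_sum fun w' _ => ?_)
    refine (norm_sum_le _ _).trans (le_of_eq (sum_congr rfl fun w _ => ?_))
    rw [norm_mul, norm_e, one_mul]
  have h6 : ∑ _w' ∈ W₁, a ^ 2 * n ^ 2 ≤
      ∑ w' ∈ W₁, ∑ w ∈ W₁, ‖∑ u ∈ W₁, e (pr (M u) (w - w'))‖ := by
    rw [sum_const, nsmul_eq_mul, ← hn]
    have h7 : (a * n ^ 2) ^ 2 ≤ (∑ u ∈ W₁, ‖Y u‖) ^ 2 :=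
      pow_le_pow_left₀ (by positivity) (h.trans h1) 2
    have h8 : n * (n * (a ^ 2 * n ^ 2)) ≤ n * ∑ u ∈ W₁, ‖Y u‖ ^ 2 := by nlinarith
    exact (le_of_mul_le_mul_left h8 hn0).trans h4
  obtain ⟨w', hw', h9⟩ := exists_le_of_sum_le hW₁ h6
  refine ⟨w', hw', ?_⟩
  have h10 := cnt_rev_markov W₁ (fun w => ‖∑ u ∈ W₁, e (pr (M u) (w - w'))‖)
    (a := a ^ 2 / 2 * n) hn0 (fun w _ => by
      refine (norm_sum_le _ _).trans (le_of_eq ?_)
      simp [hn]) (by positivity)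
  refine le_trans ?_ h10
  rw [le_div_iff₀ hn0, ← hn]
  nlinarith

/-- from a biased phase to a biased bilinear phase -/
lemma bias {W W₁ : Finset (ZMod N)} (hW : W.Nonempty) (hW₁ : W₁.Nonempty) (M : ZMod N → ZMod N)
    (F : ZMod N → T) {s τ ε : ℝ} (hτ : 0 ≤ τ) (hsm : 2 * s + 7 * ε ≤ τ / 2)
    (hinv : ∀ u₁ ∈ W₁, ∀ u₂ ∈ W₁, Inv W (u₁ + u₂) s)
    (hF : ∀ w ∈ W, ∃ b₁ b₂ : ZMod N → T, ∀ u₁ ∈ W₁, ∀ u₂ ∈ W₁,
      ‖F (w + (u₁ + u₂)) - (b₁ u₁ + b₂ u₂ + pr (M u₁) u₂)‖ ≤ ε)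
    (hb : τ * W.card ≤ ‖∑ w ∈ W, e (F w)‖) :
    ∃ w' ∈ W₁, τ ^ 2 / 8 * W₁.card ≤ cnt W₁ fun w =>
      τ ^ 2 / 8 * W₁.card ≤ ‖∑ u ∈ W₁, e (pr (M u) (w - w'))‖ := by
  set n : ℝ := (W₁.card : ℝ) with hn
  have hn0 : 0 < n := by rw [hn]; exact_mod_cast hW₁.card_pos
  set G : ZMod N → ℂ := fun w => ∑ u₁ ∈ W₁, ∑ u₂ ∈ W₁, e (F (w + (u₁ + u₂))) with hG
  set S₀ : ℂ := ∑ w ∈ W, e (F w) with hS₀
  have h1 : ‖∑ w ∈ W, G w - (n : ℂ) ^ 2 * S₀‖ ≤ n ^ 2 * (2 * s * W.card) := by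
    have e1 : ∑ w ∈ W, G w - (n : ℂ) ^ 2 * S₀ =
        ∑ u₁ ∈ W₁, ∑ u₂ ∈ W₁, (∑ w ∈ W, e (F (w + (u₁ + u₂))) - S₀) := by
      simp only [sum_sub_distrib, sum_const, nsmul_eq_mul, hG]
      congr 1
      · rw [sum_comm]
        exact sum_congr rfl fun u _ => sum_comm
      · rw [hn]; push_cast; ring
    rw [e1]
    refine (norm_sum_le _ _).trans ?_
    refine (sum_le_card_nsmul _ _ (n * (2 * s * W.card)) fun u₁ hu₁ => ?_).trans (le_of_eq ?_)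
    · refine (norm_sum_le _ _).trans ?_
      refine (sum_le_card_nsmul _ _ (2 * s * W.card) fun u₂ hu₂ => ?_).trans (le_of_eq ?_)
      · exact (hinv u₁ hu₁ u₂ hu₂).sum_sub (F := fun w => e (F w)) fun w => (norm_e _).le
      · rw [nsmul_eq_mul]
    · rw [nsmul_eq_mul, ← hn]; ring
  have h2 : ∑ _w ∈ W, (τ - 2 * s) * n ^ 2 ≤ ∑ w ∈ W, ‖G w‖ := by
    rw [sum_const, nsmul_eq_mul]
    refine le_trans ?_ (norm_sum_le _ _)
    have h3 : ‖(n : ℂ) ^ 2 * S₀‖ = n ^ 2 * ‖S₀‖ := by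
      rw [norm_mul, norm_pow, Complex.norm_real, Real.norm_of_nonneg hn0.le]
    have h4 := norm_sub_norm_le ((n : ℂ) ^ 2 * S₀) (∑ w ∈ W, G w)
    rw [norm_sub_rev, h3] at h4
    have h5 : n ^ 2 * (τ * W.card) ≤ n ^ 2 * ‖S₀‖ := mul_le_mul_of_nonneg_left hb (by positivity)
    nlinarith
  obtain ⟨w, hw, h6⟩ := exists_le_of_sum_le hW h2
  obtain ⟨b₁, b₂, hb₁⟩ := hF w hw
  set H : ℂ := ∑ u₁ ∈ W₁, ∑ u₂ ∈ W₁, e (b₁ u₁ + b₂ u₂ + pr (M u₁) u₂) with hH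
  have h7 : ‖G w - H‖ ≤ n * (n * (7 * ε)) := by
    rw [hG, hH, ← sum_sub_distrib]
    refine (norm_sum_le _ _).trans ?_
    refine (sum_le_card_nsmul _ _ (n * (7 * ε)) fun u₁ hu₁ => ?_).trans (le_of_eq ?_)
    · rw [← sum_sub_distrib]
      refine (norm_sum_le _ _).trans ?_
      refine (sum_le_card_nsmul _ _ (7 * ε) fun u₂ hu₂ => ?_).trans (le_of_eq ?_)
      · exact (norm_e_sub_e _ _).trans (by linarith [hb₁ u₁ hu₁ u₂ hu₂])
      · rw [nsmul_eq_mul]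
    · rw [nsmul_eq_mul]
  have h8 : τ / 2 * n ^ 2 ≤ ‖H‖ := by
    have h9 := norm_sub_norm_le (G w) H
    have h10 : (2 * s + 7 * ε) * n ^ 2 ≤ τ / 2 * n ^ 2 :=
      mul_le_mul_of_nonneg_right hsm (by positivity)
    nlinarith
  obtain ⟨w', hw', h11⟩ := bilin hW₁ M b₁ b₂ (a := τ / 2) (by positivity) h8
  have e2 : (τ / 2) ^ 2 / 2 = τ ^ 2 / 8 := by ring
  rw [e2] at h11
  exact ⟨w', hw', h11⟩

end bias

end Pool.Agent.Tri.Loop
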