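import Pool.Agent.Lib.MP_9721b5_an.Tri.Raw1

/-!
Many flat pairs give a raw entry.
-/

set_option autoImplicit false

open Finset Real

namespace Pool.Agent.Tri

open Cfg

namespace RawA

lemma filt_sum {Γ ι : Type*} [AddCommGroup Γ] (F : Filt Γ) {a : ℝ} (s : Finset ι) (f : ι → Γ)
    (hf : ∀ i ∈ s, F.mem a (f i)) : F.mem (s.card * a) (∑ i ∈ s, f i) := by
  classical
  induction s using Finset.induction_on with
  | empty => simpa using F.zero 0 le_rfl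
  | insert i s hi ih =>
    rw [sum_insert hi, card_insert_of_notMem hi, Nat.cast_succ, add_mul, one_mul, add_comm (_ * a)]
    exact F.add _ _ _ _ (hf i (mem_insert_self _ _)) (ih fun j hj => hf j (mem_insert_of_mem hj))

lemma count_const {p K N x r : ℝ} (hp : 2 ≤ p) (hK : 0 < K) (hN : 32 * N = K)
    (hx : exp (-p) ^ 2 / 1000 * K * N ≤ x) (hr : x ^ 4 ≤ (2 * K) ^ 5 * r) :
    exp (-p ^ 7) * (16 * K) ^ 3 ≤ r := by
  have h1 : 64 ≤ p ^ 6 := by
    have := pow_le_pow_left₀ (by norm_num) hp 6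
    norm_num at this
    exact this
  have h2 : exp (-p ^ 7) * exp 16 ^ 4 ≤ exp (-p) ^ 8 := by
    rw [← exp_nat_mul, ← exp_nat_mul, ← exp_add, exp_le_exp]
    push_cast
    nlinarith
  have h3 := pow_le_pow_left₀ (by norm_num) exp16 4
  have h4 : exp (-p ^ 7) * (2 * 10 ^ 6) ^ 4 ≤ exp (-p) ^ 8 :=
    (mul_le_mul_of_nonneg_left h3 (exp_pos _).le).trans h2
  have h5 := (pow_le_pow_left₀ (by have : 0 < N := by linarith
                                   positivity) hx 4).trans hr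
  have h6 : N = K / 32 := by linarith
  subst h6
  refine le_of_mul_le_mul_left (le_trans ?_ h5) (by positivity)
  have h7 := mul_le_mul_of_nonneg_right h4 (pow_pos hK 8).le
  have h8 : 0 ≤ exp (-p ^ 7) * K ^ 8 := by positivity
  nlinarith

variable {c : Cfg} {P : ℝ}

lemma V_abs (h : c.OK P) {l N : ℕ} {t : ℤ} (ht : c.V l N t) : |t| ≤ N := by
  have h1 := (h.V_inB ht).2.trans (mul_le_of_le_one_right (Nat.cast_nonneg N) (q_le_one h 2))
  exact_mod_cast h1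

lemma VV_sub (h : c.OK P) {a b : ℕ} {N : ℝ} (hN : 0 ≤ N) {t t' : ℤ} (ht : c.VV a (b + 1) N t)
    (ht' : c.VV a (b + 1) N t') : c.VV a b N (t - t') := by
  rw [← c.VF_one _ _ hN, sub_eq_add_neg]
  refine (c.VF a b N).mono _ _ _ ?_ ((c.VF a b N).add _ _ _ _ ((c.VF_q _ _ _ hN _).2 ht)
    ((c.VF_q _ _ _ hN _).2 ht'.neg))
  exact (h.two_q 0).trans (q_le_one h 0)

/-- from the average over the frequencies to the Freiman property -/
lemma frei_of (h : c.OK P) {l : ℕ} {N : ℝ} (hN : 0 ≤ N) {i : Fin 3} {Zs : Finset ℤ}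
    (hZ : c.RegS (2 * l + 5) N Zs) {y₀ b z : ℤ} {y y' t t' : Fin 6 → ℤ}
    (hy : ∀ w, (∃ m, w = y m ∨ w = y' m) → c.Good i w ∧ ∀ t z, c.V (2 * l + 6) N t →
      c.V (2 * l + 5) N z →
      ‖(c.fr i (w + t) z - c.fr i w z) - (c.fr i (y₀ + t) z - c.fr i y₀ z)‖ ≤ 2 * c.q 3)
    (ht : ∀ m, InB c.Θ (c.q 2) (t m) ∧ InB c.Θ (c.q 2) (t' m))
    (hs : (Zs.card : ℝ) / 2 ≤
      ∑ z ∈ Zs, (e (∑ m, c.fr i (y m + t m) z - ∑ m, c.fr i (y' m + t' m) z)).re)
    (hb : c.Zl (2 * l + 5) N b) (hz : c.V (4 * l + 12) N z) :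
    ‖∑ m, c.fr i (y m + t m - b) z - ∑ m, c.fr i (y' m + t' m - b) z‖ ≤ c.q 1 := by
  have g1 := fun m => hy _ ⟨m, .inl rfl⟩
  have g2 := fun m => hy _ ⟨m, .inr rfl⟩
  have h1 := (h.RegS_inv hZ hN (h.V_mono hz (by omega) le_rfl)).phase (ε := 0) (a := 1 / 2)
    ⟨0, RegSet.zero_mem hZ⟩
    (F := fun z => ∑ m, c.fr i (y m + t m) z - ∑ m, c.fr i (y' m + t' m) z)
    (c := ∑ m, c.fr i (y m + t m) z - ∑ m, c.fr i (y' m + t' m) z) (fun w hw => by
      have a1 := inB100 h (h.V_inB (hZ.mem hN hw)).1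
      have a2 := inB100 h (h.V_inB hz).1
      simp only [fun m => h.fr_add (g1 m).1 (inB100 h (ht m).1) a1 a2,
        fun m => h.fr_add (g2 m).1 (inB100 h (ht m).2) a1 a2, sum_add_distrib]
      rw [norm_le_zero_iff]
      abel) (by norm_num) (by
      rw [← Complex.re_sum] at hs
      exact le_trans (by linarith) (hs.trans (Complex.re_le_norm _)))
  obtain ⟨u, z', u1, u2, u3⟩ := transl h hb hz
  obtain ⟨κ, hκ⟩ : ∃ κ, κ = c.fr i (y₀ + u) z' - c.fr i y₀ z' := ⟨_, rfl⟩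
  have e1 : ∀ w s, c.Good i w → InB c.Θ (c.q 2) s → c.fr i (w + s - b) z =
      c.fr i (w + s) z + (c.fr i (w + u) z' - c.fr i w z' - κ) + κ := fun w s hw hs => by
    rw [← u3 i w s hw hs]
    abel
  have e2 : ∑ m, c.fr i (y m + t m - b) z - ∑ m, c.fr i (y' m + t' m - b) z =
      (∑ m, c.fr i (y m + t m) z - ∑ m, c.fr i (y' m + t' m) z) +
        (∑ m, (c.fr i (y m + u) z' - c.fr i (y m) z' - κ) -
          ∑ m, (c.fr i (y' m + u) z' - c.fr i (y' m) z' - κ)) := by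
    simp only [fun m => e1 _ _ (g1 m).1 (ht m).1, fun m => e1 _ _ (g2 m).1 (ht m).2,
      sum_add_distrib]
    abel
  have b1 := norm_sum_le_of_le univ fun m _ => hκ ▸ (g1 m).2 u z' u1 u2
  have b2 := norm_sum_le_of_le univ fun m _ => hκ ▸ (g2 m).2 u z' u1 u2
  rw [sum_const, card_univ, Fintype.card_fin, nsmul_eq_mul] at b1 b2
  rw [e2]
  refine (norm_add_le_of_le h1 (norm_sub_le_of_le b1 b2)).trans ?_
  have := q_succ h 1
  have := q_succ h 2
  have := h.q_pos 3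
  push_cast
  linarith

end RawA

open RawA

theorem raw (hC : ClassStmt) (hCov : CoverStmt) (hS : SandersStmt) : RawStmt := by
  classical
  obtain ⟨C₁, hCov⟩ := hCov
  obtain ⟨C₂, hS⟩ := hS
  refine ⟨7 * (C₁ + 1) * (C₂ + 1), fun c p P l k j i X h hp hpP hk hX hcard => ?_⟩
  have p1 : (1 : ℝ) ≤ p := by linarith
  have p7 : 2 ≤ p ^ 7 := hp.trans (le_self_pow₀ p1 (by norm_num))
  have p8 : 2 ≤ (p ^ 7) ^ (C₁ + 1) := p7.trans (le_self_pow₀ (by linarith) (by omega))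
  have p9 : (p ^ 7) ^ C₁ ≤ (p ^ 7) ^ (C₁ + 1) := pow_le_pow_right₀ (by linarith) (by omega)
  have p10 : ((p ^ 7) ^ (C₁ + 1)) ^ C₂ ≤ p ^ (7 * (C₁ + 1) * (C₂ + 1)) := by
    rw [pow_mul, pow_mul]; exact pow_le_pow_right₀ (by linarith) (by omega)
  have p11 : (p ^ 7) ^ (C₁ + 1) ≤ p ^ (7 * (C₁ + 1) * (C₂ + 1)) := by
    rw [pow_mul, pow_mul]; exact le_self_pow₀ (by linarith) (by omega)
  obtain ⟨X', hX', hbig, y₀, hg₀, hcl⟩ := hC c P (exp (-p)) l k j i X h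
    (exp_le_exp.2 (neg_le_neg ((le_self_pow₀ p1 (by positivity)).trans hpP))) hk hX hcard
  have hNk := h.Nk_eq hk
  obtain ⟨N, hNe⟩ : ∃ N, N = Nk k := ⟨_, rfl⟩
  rw [← hNe] at hX hcard hbig hcl hNk
  have hN : (0 : ℝ) ≤ N := Nat.cast_nonneg N
  obtain ⟨K, hK⟩ : ∃ K : ℕ, K = 2 ^ k := ⟨_, rfl⟩
  have hK0 : 0 < K := hK ▸ Nat.two_pow_pos k
  have hKr : (2 : ℝ) ^ k = K := by rw [hK]; push_cast; rfl
  rw [← hK] at hNk
  rw [hKr] at hbig
  obtain ⟨n, hn⟩ : ∃ n : ℕ, n = 16 * K := ⟨_, rfl⟩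
  have : NeZero n := ⟨by omega⟩
  obtain ⟨lo, hlo⟩ : ∃ lo : ℤ, lo = j * K := ⟨_, rfl⟩
  have hW : ∀ x ∈ X', ∀ m, y m x.1 x.2 ∈ Ico lo (lo + 2 * K) := fun x hx m => by
    obtain ⟨⟨x', x1, x2⟩, x3, -⟩ := hX x (hX' hx)
    rw [node, ← hK, mem_Ico, add_mul, one_mul] at x1
    rw [mem_Icc] at x3
    have a1 : lo ≤ x' := by rw [hlo]; exact_mod_cast x1.1
    have a2 : x' < lo + K := by rw [hlo]; exact_mod_cast x1.2
    have a3 : 0 ≤ ((m : ℤ) + 1) * x.2 := mul_nonneg (by omega) (by omega)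
    have a4 : ((m : ℤ) + 1) * x.2 ≤ 3 * x.2 := mul_le_mul_of_nonneg_right (by omega) (by omega)
    rw [y, mem_Ico]
    omega
  obtain ⟨A₀, hA₀⟩ : ∃ A₀, A₀ = X'.image fun x => y i x.1 x.2 := ⟨_, rfl⟩
  have mA : ∀ w ∈ A₀, ∃ x ∈ X', w = y i x.1 x.2 := fun w hw => by
    rw [hA₀] at hw
    obtain ⟨x, x1, x2⟩ := mem_image.1 hw
    exact ⟨x, x1, x2.symm⟩
  have wA : ∀ w ∈ A₀, lo ≤ w ∧ w < lo + 2 * K := fun w hw => by
    obtain ⟨x, x1, rfl⟩ := mA w hw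
    exact mem_Ico.1 (hW x x1 i)
  have gA : ∀ w ∈ A₀, c.Good i w ∧ ∀ t z, c.V (2 * l + 6) N t → c.V (2 * l + 5) N z →
      ‖(c.fr i (w + t) z - c.fr i w z) - (c.fr i (y₀ + t) z - c.fr i y₀ z)‖ ≤ 2 * c.q 3 :=
    fun w hw => by
      obtain ⟨x, x1, rfl⟩ := mA w hw
      exact ⟨(hX x (hX' x1)).2.2.1 i, hcl x x1⟩
  obtain ⟨Zs, hZ⟩ := h.exists_regS (2 * l + 5) hN
  obtain ⟨l'', hl⟩ : ∃ l'', l'' = 2 * l + 6 + 2 * (2 * l + 7) * (c.Θ.card + 1) := ⟨_, rfl⟩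
  have hl' : c.nxt l - 1 = l'' + 1 := by rw [hl, nxt]; omega
  obtain ⟨S₂, hS₂⟩ := h.exists_regS l'' hN
  have : Nonempty Zs := ⟨⟨0, RegSet.zero_mem hZ⟩⟩
  choose θ hθ using fun z : Zs => exists_theta h (2 * l + 6) hN hg₀ (h.V_inB (hZ.mem hN z.2)).1
  obtain ⟨a, ha⟩ : ∃ a : ZMod n → Zs → T,
    a = fun g (z : Zs) => c.fr i (lift (lo - 4 * K) g) z - lift (lo - 4 * K) g • θ z :=
    ⟨_, rfl⟩
  have ea : ∀ w ∈ A₀, ∀ t : ℤ, |t| ≤ 2 * N → ∀ z,
      a ((w + t : ℤ) : ZMod n) z = c.fr i (w + t) z - (w + t) • θ z := fun w hw t ht z => by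
    have := wA w hw
    rw [abs_le] at ht
    rw [ha]
    beta_reduce
    rw [lift_cast (by omega) (by omega)]
  have ea0 : ∀ w ∈ A₀, ∀ z, a (w : ZMod n) z = c.fr i w z - w • θ z := fun w hw z => by
    simpa using ea w hw 0 (by simp) z
  have inj : ∀ w ∈ A₀, ∀ w' ∈ A₀, (w : ZMod n) = w' → w = w' := fun w hw w' hw' e => by
    have := wA w hw
    have := wA w' hw'
    exact cast_inj e (by rw [abs_lt]; omega)
  have small : ∀ w ∈ A₀, ∀ b b', c.V l'' N b → c.V l'' N b' → ∀ z,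
      ‖a ((w : ZMod n) + b - b') z - a w z‖ ≤ 16 * c.q 1 := fun w hw b b' hb hb' z => by
    have key : ∀ t, c.V l'' N t → c.VV (2 * l + 6) (5 * (2 * l + 6) + 2 +
        (2 * l + 6 + 1 + (5 * (2 * l + 6) + 3) * c.Θ.card + 3) + 1) N t := fun t ht =>
      h.VV_mono ht (by omega) (by
        rw [hl, Nat.add_sub_cancel_left]; nlinarith [Nat.zero_le (l * c.Θ.card)]) le_rfl
    have a1 := VV_sub h hN (key b hb) (key b' hb')
    have a2 := abs_le.1 (V_abs h hb)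
    have a3 := abs_le.1 (V_abs h hb')
    rw [add_sub_assoc, ← Int.cast_sub, ← Int.cast_add, ea w hw _ (by rw [abs_le]; omega), ea0 w hw]
    have a4 := (gA w hw).2 _ z (h.VV_mono a1 le_rfl (by omega) le_rfl) (hZ.mem hN z.2)
    have a5 := hθ z _ a1
    refine le_trans (le_of_eq ?_) ((norm_add_le_of_le a4 a5).trans ?_)
    · rw [add_smul]
      congr 1
      abel
    · have := q_succ h 1
      have := q_succ h 2
      have := h.q_pos 3
      linarith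
  obtain ⟨S₁, hS₁⟩ : ∃ S₁, S₁ = (Icc (-N : ℤ) N).filter (c.V (l'' + 1) N) := ⟨_, rfl⟩
  have mS : ∀ t, t ∈ S₁ ↔ c.V (l'' + 1) N t := fun t => by
    rw [hS₁, mem_filter, mem_Icc, ← abs_le]
    exact ⟨fun h => h.2, fun h' => ⟨V_abs h h', h'⟩⟩
  obtain ⟨A', hA', big, frei⟩ := hCov (p ^ 7) p7 (ZMod n) Zs a (A₀.image (↑)) (S₁.image (↑))
    (S₂.image (↑)) (16 * c.q 1) (by
      have := q_succ h 0
      have := q_le_one h 0
      rw [zero_add] at *
      linarith) (by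
      have h1 := quads c l N i X' _ A₀ hW (fun x hx => hA₀ ▸ mem_image_of_mem _ hx)
        fun x hx => (hX x (hX' hx)).2.2.2
      rw [Int.card_Ico, add_sub_cancel_left, show (2 * K : ℤ) = ((2 * K : ℕ) : ℤ) by push_cast; rfl,
        Int.toNat_natCast] at h1
      push_cast at h1
      have h2 := count_const hp (Nat.cast_pos.2 hK0) (by exact_mod_cast hNk) hbig h1
      rw [ZMod.card, show (n : ℝ) = 16 * K by rw [hn]; push_cast; rfl]
      refine h2.trans (cnt_le_of_inj (fun q => ((q.1 : ZMod n), (q.2.1 : ZMod n),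
        (q.2.2.1 : ZMod n), (q.2.2.2 : ZMod n))) (fun q hq h3 => ?_) fun q hq q' hq' _ _ e => ?_)
      · simp only [mem_product] at hq ⊢
        refine ⟨⟨mem_image_of_mem _ hq.1, mem_image_of_mem _ hq.2.1, mem_image_of_mem _ hq.2.2.1,
          mem_image_of_mem _ hq.2.2.2⟩, by rw [← Int.cast_sub, h3.1, Int.cast_sub], fun z => ?_⟩
        refine le_trans (le_of_eq ?_) (h3.2 z (h.V_mono (hZ.mem hN z.2) (by omega) le_rfl))
        rw [ea0 _ hq.1, ea0 _ hq.2.1, ea0 _ hq.2.2.1, ea0 _ hq.2.2.2,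
          show q.1 • θ z = q.2.1 • θ z + (q.2.2.1 • θ z - q.2.2.2 • θ z) by
            rw [← sub_smul, ← h3.1, ← add_smul, add_sub_cancel]]
        congr 1
        abel
      · simp only [mem_product, Prod.mk.injEq] at hq hq' e
        exact Prod.ext (inj _ hq.1 _ hq'.1 e.1) (Prod.ext (inj _ hq.2.1 _ hq'.2.1 e.2.1)
          (Prod.ext (inj _ hq.2.2.1 _ hq'.2.2.1 e.2.2.1) (inj _ hq.2.2.2 _ hq'.2.2.2 e.2.2.2))))
    (Nonempty.image ⟨0, RegSet.zero_mem hS₂⟩ _) (by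
      obtain ⟨I, O, o1, -, -, o2, o3⟩ := hS₂.ex
      refine ⟨O.image (↑), ?_, fun b hb t t' ht => ?_⟩
      · rw [card_image_of_injOn (s := S₂) fun w hw w' hw' e => by
          have := abs_le.1 (V_abs h (hS₂.mem hN hw))
          have := abs_le.1 (V_abs h (hS₂.mem hN hw'))
          exact cast_inj e (by rw [abs_lt]; omega)]
        have a1 : ((O.image ((↑) : ℤ → ZMod n)).card : ℝ) ≤ O.card := Nat.cast_le.2 card_image_le
        have a2 : (I.card : ℝ) ≤ S₂.card := Nat.cast_le.2 (card_le_card o1)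
        refine a1.trans (o3.trans (mul_le_mul ?_ a2 (Nat.cast_nonneg _) (by norm_num)))
        linarith [q_le_one h 2]
      · obtain ⟨b, b1, rfl⟩ := mem_image.1 hb
        choose τ τ1 τ2 using fun m => mem_image.1 (ht m).1
        choose τ' τ1' τ2' using fun m => mem_image.1 (ht m).2
        have key : ∀ σ : Fin 6 → ℤ, (∀ m, σ m ∈ S₁) →
            (c.VF l'' (5 * l'' + 2) N).mem (6 * c.q 4) (∑ m, σ m) := fun σ hσ => by
          simpa using filt_sum (c.VF l'' (5 * l'' + 2) N) univ σ fun m _ => (c.VF_q _ _ 4 hN _).2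
            (h.VV_mono ((mS _).1 (hσ m)) (by omega) (by omega) le_rfl)
        refine mem_image.2 ⟨_, o2 b b1 _ (Filt.mono _ _ _ _ ?_
          (Filt.add _ _ _ _ _ (key τ τ1) (Filt.neg _ _ _ (key τ' τ1')))), ?_⟩
        · linarith [q_succ h 3, h.q_pos 4]
        · simp only [← τ2, ← τ2']
          push_cast
          ring) (by
      intro g hg z
      obtain ⟨w, hw, rfl⟩ := mem_image.1 hg
      refine ⟨fun t ht => ?_, fun b hb b' hb' => ?_⟩
      · obtain ⟨t, t1, rfl⟩ := mem_image.1 ht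
        simpa using small w hw t 0 (h.V_mono ((mS t).1 t1) (by omega) le_rfl)
          (h.VV_zero _ _ hN) z
      · obtain ⟨b, b1, rfl⟩ := mem_image.1 hb
        obtain ⟨b', b2, rfl⟩ := mem_image.1 hb'
        exact small w hw b b' (hS₂.mem hN b1) (hS₂.mem hN b2) z)
  rw [ZMod.card] at big
  have big' : exp (-(p ^ 7) ^ (C₁ + 1)) * n ≤ A'.card :=
    (mul_le_mul_of_nonneg_right (exp_le_exp.2 (neg_le_neg p9)) (Nat.cast_nonneg n)).trans big
  obtain ⟨Θs, s1, s2⟩ := hS _ p8 n A' big'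
  have lA : ∀ g ∈ A', ∃ w ∈ A₀.filter fun w : ℤ => (w : ZMod n) ∈ A', (w : ZMod n) = g :=
    fun g hg => by
      obtain ⟨w, w1, rfl⟩ := mem_image.1 (hA' hg)
      exact ⟨w, mem_filter.2 ⟨w1, hg⟩, rfl⟩
  refine ⟨A₀.filter fun w : ℤ => (w : ZMod n) ∈ A', Θs.image ZMod.toAddCircle, fun w hw => ?_,
    ?_, (Nat.cast_le.2 card_image_le).trans (s1.trans p10),
    fun w hw => (gA w (mem_filter.1 hw).1).1, fun u u1 u2 => ?_, ?_⟩
  · obtain ⟨x, x1, x2⟩ := mA w (mem_filter.1 hw).1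
    exact ⟨x, hX' x1, x2⟩
  · have h1 : A'.card ≤ (A₀.filter fun w : ℤ => (w : ZMod n) ∈ A').card :=
      card_le_card_of_surjOn (fun w : ℤ => (w : ZMod n)) fun g hg => lA g hg
    refine le_trans (mul_le_mul (exp_le_exp.2 (neg_le_neg p11)) ?_ (by positivity) (exp_pos _).le)
      (big'.trans (Nat.cast_le.2 h1))
    rw [hKr]
    exact Nat.cast_le.2 (by omega)
  · obtain ⟨a₁, b₁, a₂, b₂, a₃, b₃, a₄, b₄, e⟩ := s2 u fun ξ hξ => by
      rw [pr_intCast]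
      exact (u1 _ (mem_image_of_mem _ hξ)).trans (exp_le_exp.2 (neg_le_neg p10))
    obtain ⟨a₁, c₁, rfl⟩ := lA a₁ b₁
    obtain ⟨a₂, c₂, rfl⟩ := lA a₂ b₂
    obtain ⟨a₃, c₃, rfl⟩ := lA a₃ b₃
    obtain ⟨a₄, c₄, rfl⟩ := lA a₄ b₄
    refine ⟨a₁, c₁, a₂, c₂, a₃, c₃, a₄, c₄, cast_inj (n := n) (by push_cast; exact e) ?_⟩
    have := wA _ (mem_filter.1 c₁).1
    have := wA _ (mem_filter.1 c₂).1
    have := wA _ (mem_filter.1 c₃).1
    have := wA _ (mem_filter.1 c₄).1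
    have u3 : |(u : ℝ)| ≤ K := u2.trans (by
      rw [hKr]
      exact mul_le_of_le_one_left (Nat.cast_nonneg K) (exp_le_one_iff.2 (neg_nonpos.2
        (by positivity))))
    have u4 : |u| ≤ K := by exact_mod_cast u3
    rw [abs_le] at u4
    rw [abs_lt]
    omega
  · intro b y y' t t' z hb hy hs hz
    rw [hl'] at hy
    rw [← hNe] at hb hy hz
    refine frei_of h hN hZ (y₀ := y₀) ?_
      (fun m => ⟨(h.V_inB (hy m).2.2.1).1, (h.V_inB (hy m).2.2.2).1⟩) ?_ hb hz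
    · rintro w ⟨m, rfl | rfl⟩
      exacts [gA _ (mem_filter.1 (hy m).1).1, gA _ (mem_filter.1 (hy m).2.1).1]
    have h1 := frei (fun m => y m) (fun m => y' m) (fun m => t m) (fun m => t' m)
      (fun m => ⟨(mem_filter.1 (hy m).1).2, (mem_filter.1 (hy m).2.1).2,
        mem_image_of_mem _ ((mS _).2 (hy m).2.2.1), mem_image_of_mem _ ((mS _).2 (hy m).2.2.2)⟩)
      (by simp only [← Int.cast_add, ← Int.cast_sum, hs])
    rw [Fintype.card_coe] at h1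
    rw [← sum_coe_sort Zs]
    refine h1.trans (le_of_eq (sum_congr rfl fun z _ => ?_))
    have b1 : ∀ s, c.V (l'' + 1) N s → |s| ≤ 2 * N := fun s hs => by
      have := V_abs h hs
      omega
    simp only [← Int.cast_add, fun m => ea _ (mem_filter.1 (hy m).1).1 _ (b1 _ (hy m).2.2.1) z,
      fun m => ea _ (mem_filter.1 (hy m).2.1).1 _ (b1 _ (hy m).2.2.2) z, sum_sub_distrib,
      ← sum_smul, hs, sub_sub_sub_cancel_right]

end Pool.Agent.Tri
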