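import Pool.Agent.Lib.MP_9721b5_an.Tri.SBase
import Pool.Agent.Lib.MP_9721b5_an.Tri.Gowers

/-!
Lemmas for the raw entries: four-cycles, lifting from a cyclic group, linearisation of the local
frequency, translation by long shifts.
-/

set_option autoImplicit false

open Finset Real

namespace Pool.Agent.Tri

namespace RawA

open Cfg

lemma collide {α β : Type*} [DecidableEq β] (S : Finset α) (U : Finset β) (f : α → β)
    (hf : ∀ x ∈ S, f x ∈ U) :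
    S.card ^ 2 ≤ U.card * ((S ×ˢ S).filter fun q => f q.1 = f q.2).card := by
  have h1 : ((S ×ˢ S).filter fun q => f q.1 = f q.2).card =
      ∑ b ∈ U, (S.filter fun a => f a = b).card ^ 2 := by
    rw [card_eq_sum_card_fiberwise (f := fun q : α × α => f q.1) (t := U) fun q hq =>
      hf _ (mem_product.1 (mem_filter.1 hq).1).1]
    refine sum_congr rfl fun b _ => ?_
    rw [sq, ← card_product]
    congr 1
    ext q
    simp only [mem_filter, mem_product]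
    constructor
    · rintro ⟨⟨⟨a1, a2⟩, a3⟩, a4⟩
      exact ⟨⟨a1, a4⟩, a2, a3 ▸ a4⟩
    · rintro ⟨⟨a1, a2⟩, a3, a4⟩
      exact ⟨⟨⟨a1, a3⟩, a2.trans a4.symm⟩, a2⟩
  rw [h1, card_eq_sum_card_fiberwise (f := f) (t := U) hf]
  exact sq_sum_le_card_mul_sum_sq

lemma others (i : Fin 3) : ∃ j k : Fin 3, (∀ f : Fin 3 → T, ∑ m, f m = f i + f j + f k) ∧
    (∀ x x' : ℤ × ℤ, y i x.1 x.2 = y i x'.1 x'.2 → y j x.1 x.2 = y j x'.1 x'.2 → x = x') ∧
    (∀ x x' : ℤ × ℤ, y i x.1 x.2 = y i x'.1 x'.2 → y k x.1 x.2 = y k x'.1 x'.2 → x = x') ∧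
    ∀ a b c d : ℤ × ℤ, y j a.1 a.2 = y j b.1 b.2 → y j c.1 c.2 = y j d.1 d.2 →
      y k a.1 a.2 = y k c.1 c.2 → y k b.1 b.2 = y k d.1 d.2 →
      y i a.1 a.2 - y i b.1 b.2 = y i c.1 c.2 - y i d.1 d.2 := by
  have e0 : ∀ x n, y 0 x n = x + n := fun x n => by simp [y]
  have e1 : ∀ x n, y 1 x n = x + 2 * n := fun x n => by simp [y]
  have e2 : ∀ x n, y 2 x n = x + 3 * n := fun x n => by simp [y]
  obtain rfl | rfl | rfl : i = 0 ∨ i = 1 ∨ i = 2 := by omega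
  · refine ⟨1, 2, fun f => Fin.sum_univ_three f, ?_, ?_, ?_⟩ <;>
      simp only [e0, e1, e2, Prod.ext_iff] <;> omega
  · refine ⟨0, 2, fun f => by rw [Fin.sum_univ_three]; abel, ?_, ?_, ?_⟩ <;>
      simp only [e0, e1, e2, Prod.ext_iff] <;> omega
  · refine ⟨0, 1, fun f => by rw [Fin.sum_univ_three]; abel, ?_, ?_, ?_⟩ <;>
      simp only [e0, e1, e2, Prod.ext_iff] <;> omega

/-- four-cycles give additive quadruples of the graph of the local frequency -/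
lemma quads (c : Cfg) (l : ℕ) (N : ℝ) (i : Fin 3) (X : Finset (ℤ × ℤ)) (W A : Finset ℤ)
    (hW : ∀ x ∈ X, ∀ m, y m x.1 x.2 ∈ W) (hA : ∀ x ∈ X, y i x.1 x.2 ∈ A)
    (hf : ∀ x ∈ X, c.Flat l N x.1 x.2) :
    (X.card : ℝ) ^ 4 ≤ (W.card : ℝ) ^ 5 * cnt (A ×ˢ A ×ˢ A ×ˢ A) fun q =>
      q.1 - q.2.1 = q.2.2.1 - q.2.2.2 ∧ ∀ z, c.V (2 * l + 4) N z →
        ‖c.fr i q.1 z - c.fr i q.2.1 z - c.fr i q.2.2.1 z + c.fr i q.2.2.2 z‖ ≤ 16 * c.q 1 := by
  classical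
  obtain ⟨j, k, o1, o2, o3, o4⟩ := others i
  have h1 := collide X W (fun x => y j x.1 x.2) fun x hx => hW x hx j
  obtain ⟨P, hP⟩ : ∃ P, P = (X ×ˢ X).filter fun q => y j q.1.1 q.1.2 = y j q.2.1 q.2.2 := ⟨_, rfl⟩
  have mP : ∀ q, q ∈ P ↔ (q.1 ∈ X ∧ q.2 ∈ X) ∧ y j q.1.1 q.1.2 = y j q.2.1 q.2.2 := fun q => by
    rw [hP, mem_filter, mem_product]
  rw [← hP] at h1
  have h2 := collide P (W ×ˢ W) (fun q => (y k q.1.1 q.1.2, y k q.2.1 q.2.2)) fun q hq =>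
    mem_product.2 ⟨hW _ ((mP q).1 hq).1.1 k, hW _ ((mP q).1 hq).1.2 k⟩
  rw [cnt_eq_card]
  obtain ⟨R, hR⟩ : ∃ R, R = (A ×ˢ A ×ˢ A ×ˢ A).filter fun q =>
      q.1 - q.2.1 = q.2.2.1 - q.2.2.2 ∧ ∀ z, c.V (2 * l + 4) N z →
        ‖c.fr i q.1 z - c.fr i q.2.1 z - c.fr i q.2.2.1 z + c.fr i q.2.2.2 z‖ ≤ 16 * c.q 1 :=
    ⟨_, rfl⟩
  rw [← hR]
  have h3 : ((P ×ˢ P).filter fun q => (y k q.1.1.1 q.1.1.2, y k q.1.2.1 q.1.2.2) =
      (y k q.2.1.1 q.2.1.2, y k q.2.2.1 q.2.2.2)).card ≤ (R ×ˢ W).card := by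
    refine card_le_card_of_injOn (fun q => ((y i q.1.1.1 q.1.1.2, y i q.1.2.1 q.1.2.2,
      y i q.2.1.1 q.2.1.2, y i q.2.2.1 q.2.2.2), y j q.1.1.1 q.1.1.2)) ?_ ?_
    · rintro ⟨⟨a, b⟩, ⟨a', b'⟩⟩ hq
      simp only [coe_filter, mem_product, mP, Set.mem_setOf_eq, Prod.mk.injEq] at hq
      obtain ⟨⟨⟨⟨a1, a2⟩, a3⟩, ⟨a4, a5⟩, a6⟩, a7, a8⟩ := hq
      simp only [hR, coe_product, coe_filter, mem_product, Set.mem_prod, Set.mem_setOf_eq, mem_coe]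
      refine ⟨⟨⟨hA _ a1, hA _ a2, hA _ a4, hA _ a5⟩, o4 _ _ _ _ a3 a6 a7 a8, fun z hz => ?_⟩,
        hW _ a1 j⟩
      have e : c.fr i (y i a.1 a.2) z - c.fr i (y i b.1 b.2) z - c.fr i (y i a'.1 a'.2) z +
          c.fr i (y i b'.1 b'.2) z =
          c.Ψ a.1 a.2 z - c.Ψ b.1 b.2 z - c.Ψ a'.1 a'.2 z + c.Ψ b'.1 b'.2 z := by
        simp only [Ψ_eq, o1, a3, a6, a7, a8]
        abel
      rw [e]
      have b1 := (hf _ a1).Ψ_le hz
      have b2 := (hf _ a2).Ψ_le hz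
      have b3 := (hf _ a4).Ψ_le hz
      have b4 := (hf _ a5).Ψ_le hz
      refine (norm_add_le_of_le (norm_sub_le_of_le (norm_sub_le_of_le b1 b2) b3) b4).trans ?_
      linarith
    · rintro ⟨⟨a, b⟩, ⟨a', b'⟩⟩ hq ⟨⟨u, v⟩, ⟨u', v'⟩⟩ hq' e
      simp only [coe_filter, mem_product, mP, Set.mem_setOf_eq, Prod.mk.injEq] at hq hq' e
      obtain ⟨⟨⟨-, a3⟩, -, a6⟩, a7, -⟩ := hq
      obtain ⟨⟨⟨-, b3⟩, -, b6⟩, b7, -⟩ := hq'
      obtain ⟨⟨e1, e2, e3, e4⟩, e5⟩ := e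
      obtain rfl := o2 _ _ e1 e5
      obtain rfl := o2 _ _ e2 (a3.symm.trans b3)
      obtain rfl := o3 _ _ e3 (a7.symm.trans b7)
      obtain rfl := o2 _ _ e4 (a6.symm.trans b6)
      rfl
  rw [card_product] at h2 h3
  have h4 : X.card ^ 4 ≤ W.card ^ 5 * R.card :=
    calc X.card ^ 4 = (X.card ^ 2) ^ 2 := by ring
      _ ≤ (W.card * P.card) ^ 2 := Nat.pow_le_pow_left h1 2
      _ = W.card ^ 2 * P.card ^ 2 := by ring
      _ ≤ W.card ^ 2 * (W.card * W.card * (R.card * W.card)) :=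
        Nat.mul_le_mul_left _ (h2.trans (Nat.mul_le_mul_left _ h3))
      _ = _ := by ring
  exact_mod_cast h4

/-- the representative in the window starting at `lo` -/
def lift {n : ℕ} (lo : ℤ) (g : ZMod n) : ℤ := lo + ((g - lo).val : ℤ)

lemma lift_cast {n : ℕ} [NeZero n] {lo w : ℤ} (h1 : lo ≤ w) (h2 : w < lo + n) :
    lift lo (w : ZMod n) = w := by
  rw [lift, ← Int.cast_sub, ZMod.val_intCast, Int.emod_eq_of_lt (by omega) (by omega)]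
  ring

lemma cast_inj {n : ℕ} {w w' : ℤ} (h : (w : ZMod n) = w') (hw : |w - w'| < n) : w = w' :=
  sub_eq_zero.1 (Int.eq_zero_of_abs_lt_dvd ((ZMod.intCast_zmod_eq_zero_iff_dvd _ _).1
    (by rw [Int.cast_sub, h, sub_self])) hw)

variable {c : Cfg} {P : ℝ}

lemma q_succ (h : c.OK P) (a : ℕ) : 10 ^ 12 * c.q (a + 1) ≤ c.q a := by
  have h1 := h.pow_mul_q (m := 1) (b := a + 1) (b' := a) le_rfl
  rw [pow_one] at h1
  exact (mul_le_mul_of_nonneg_right h.Q_big (c.q_nonneg _)).trans h1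

lemma q_le_one (h : c.OK P) (a : ℕ) : c.q a ≤ 1 := (h.q_anti (Nat.zero_le a)).trans (by simp [q])

lemma inB100 (h : c.OK P) {t : ℤ} (ht : InB c.Θ (c.q 2) t) : InB c.Θ (100 * c.q 2) t :=
  ht.mono subset_rfl (by have := h.q_pos 2; linarith)

lemma d_le (h : c.OK P) : 16 * (2 * (c.Θ.card : ℝ) + 3) ≤ c.Q := by
  have h1 := h.Q_ge'
  have h2 := h.rank
  have h3 : P ≤ P ^ 4 := le_self_pow₀ (by have := h.two_le; linarith) (by norm_num)
  have h4 := exp_le_exp.2 h3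
  have h5 : 1 ≤ exp (P ^ 4) := one_le_exp (by have := h.pow4; linarith)
  linarith

/-- the size of a regular set compared with its diameter -/
lemma reg_dens (h : c.OK P) {a b : ℕ} {N s η : ℝ} (hN : 0 ≤ N) {S : Finset ℤ}
    (hS : RegSet (c.VF a b N) s η S) : ∃ M : ℕ, (∀ w ∈ S, |w| ≤ M) ∧
      c.q (a + 1 + (b + 1) * c.Θ.card) * (4 * M + 1) ≤ S.card := by
  obtain ⟨M, hM⟩ : ∃ M, M = ⌊N * c.q b / 2⌋₊ := ⟨_, rfl⟩
  have hq := h.q_pos b
  have hQ := h.Q_big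
  have m1 : (M : ℝ) ≤ N * c.q b / 2 := hM ▸ Nat.floor_le (by positivity)
  have m2 : N * c.q b / 2 < M + 1 := hM ▸ Nat.lt_floor_add_one _
  refine ⟨c.Q ^ a * (2 * M + 1), fun w hw => ?_, ?_⟩
  · obtain ⟨w, rfl, -, h2⟩ := hS.one w hw
    rw [one_mul, abs_of_nonneg hN] at h2
    have h3 : |w| < 2 * M + 2 := by
      have : |(w : ℝ)| < 2 * M + 2 := by linarith
      exact_mod_cast this
    push_cast
    rw [abs_mul, abs_of_nonneg (by positivity)]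
    exact mul_le_mul_of_nonneg_left (by omega) (by positivity)
  have h1 := card_bohrZ c.Θ (R := 1 / 2) (r := c.q b / 2) (by positivity) (by norm_num) M
  have h2 : cnt (Icc (-(2 * M + 1 : ℤ)) (2 * M + 1)) (InB c.Θ (1 / 2)) = 4 * M + 3 := by
    classical
    rw [cnt_eq_card, filter_true_of_mem fun w _ θ _ => norm_T_le _, Int.card_Icc,
      show (2 * M + 1 : ℤ) + 1 - -(2 * M + 1) = ((4 * M + 3 : ℕ) : ℤ) by push_cast; ring,
      Int.toNat_natCast]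
    push_cast
    ring
  have h3 : cnt (Icc (-(M : ℤ)) M) (InB c.Θ (c.q b / 2)) ≤ S.card := by
    refine (cnt_le_of_inj (S' := S) (Q := fun _ => True) (fun w => (c.Q : ℤ) ^ a * w)
      (fun w hw h4 => ⟨hS.half _ ⟨w, rfl, by rwa [one_div_mul_eq_div], ?_⟩, trivial⟩)
      fun w _ w' _ _ _ e => mul_left_cancel₀ (by have := h.pos; positivity) e).trans
      (cnt_le_card _ _)
    have h5 : |w| ≤ M := abs_le.2 (mem_Icc.1 hw)
    have h6 : |(w : ℝ)| ≤ M := by exact_mod_cast h5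
    rw [abs_of_nonneg hN]
    linarith
  have h4 : 2 * (1 / 2) / (c.q b / 2) + 1 ≤ (c.Q : ℝ) ^ (b + 1) := by
    have h5 : (1 : ℝ) ≤ (c.Q : ℝ) ^ b := one_le_pow₀ h.one_le_Q
    have h6 : 2 * (1 / 2) / (c.q b / 2) = 2 * (c.Q : ℝ) ^ b := by
      rw [q]; field_simp
    rw [h6, pow_succ]
    nlinarith
  have h5 := pow_le_pow_left₀ (by positivity) h4 c.Θ.card
  rw [← pow_mul] at h5
  rw [h2] at h1
  have h6 : (4 * M + 3 : ℝ) ≤ 5 * (c.Q : ℝ) ^ ((b + 1) * c.Θ.card) * S.card :=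
    h1.trans (mul_le_mul (by linarith) h3 (cnt_nonneg _ _) (by positivity))
  have h7 : (1 : ℝ) ≤ (c.Q : ℝ) ^ a := one_le_pow₀ h.one_le_Q
  rw [q, inv_mul_le_iff₀ (by positivity), pow_add, pow_succ]
  push_cast
  calc 4 * ((c.Q : ℝ) ^ a * (2 * M + 1)) + 1 ≤ (c.Q : ℝ) ^ a * 2 * (4 * M + 3) := by nlinarith
    _ ≤ (c.Q : ℝ) ^ a * 2 * (5 * (c.Q : ℝ) ^ ((b + 1) * c.Θ.card) * S.card) := by gcongr
    _ = (c.Q : ℝ) ^ a * 10 * (c.Q : ℝ) ^ ((b + 1) * c.Θ.card) * S.card := by ring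
    _ ≤ _ := by gcongr; linarith

/-- the increments of the local frequency are almost linear -/
lemma exists_theta (h : c.OK P) (l : ℕ) {N : ℝ} (hN : 0 ≤ N) {i : Fin 3} {y₀ z : ℤ}
    (hg : c.Good i y₀) (hz : InB c.Θ (c.q 2) z) : ∃ θ : T, ∀ t,
      c.VV l (5 * l + 2 + (l + 1 + (5 * l + 3) * c.Θ.card + 3)) N t →
        ‖c.fr i (y₀ + t) z - c.fr i y₀ z - t • θ‖ ≤ c.q 2 := by
  obtain ⟨v, hv⟩ : ∃ v, v = l + 1 + (5 * l + 3) * c.Θ.card := ⟨_, rfl⟩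
  rw [← hv]
  have hq := h.q_pos v
  have hq2 := h.q_pos 2
  have hq3 := h.q_pos 3
  obtain ⟨S, hS⟩ := h.exists_regV l (5 * l + 2) (s := c.q (v + 3)) (η := c.q (v + 2)) hN
    (h.q_pos _) (q_le_one h _) (by
      refine (mul_le_mul_of_nonneg_right (d_le h) (c.q_nonneg _)).trans ?_
      simpa using h.pow_mul_q (m := 1) (b := v + 3) (b' := v + 2) le_rfl)
  obtain ⟨M, m1, m2⟩ := reg_dens h hN hS
  rw [← hv] at m2
  have hadd : ∀ w t, InB c.Θ (c.q 2) w → InB c.Θ (c.q 2) t →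
      c.fr i (y₀ + (w + t)) z - c.fr i y₀ z =
        (c.fr i (y₀ + w) z - c.fr i y₀ z) + (c.fr i (y₀ + t) z - c.fr i y₀ z) := fun w t hw ht => by
    have e1 := h.fr_shift hg (inB100 h hw) (inB100 h ht) (inB100 h hz)
    have e2 := h.fr_shift hg (InB.zero _ (by positivity)) (inB100 h ht) (inB100 h hz)
    rw [add_zero] at e2
    rw [e2, ← e1, add_assoc]
    abel
  have hSV : ∀ w ∈ S, InB c.Θ (c.q 2) w := fun w hw =>
    (h.V_inB ((c.VF_one _ _ hN w).1 (hS.one w hw))).1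
  obtain ⟨θ, hθ⟩ := lemmaX S M m1 (fun t => c.fr i (y₀ + t) z - c.fr i y₀ z) fun w hw w' hw' =>
    hadd w w' (hSV w hw) (hSV w' hw')
  refine ⟨θ, fun t ht => ?_⟩
  have hne : S.Nonempty := ⟨0, hS.zero_mem⟩
  have hc : (0 : ℝ) < S.card := Nat.cast_pos.2 hne.card_pos
  have h1 := (hS.inv ((c.VF_q _ _ _ hN t).2 ht)).phase (ε := 0) (a := c.q v) hne
    (F := fun t => c.fr i (y₀ + t) z - c.fr i y₀ z - t • θ)
    (c := c.fr i (y₀ + t) z - c.fr i y₀ z - t • θ) (fun w hw => by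
      rw [hadd w t (hSV w hw) (h.V_inB (l := l) (h.VV_mono ht le_rfl (by omega) le_rfl)).1,
        add_smul, norm_le_zero_iff]
      abel) hq (by
      refine abs_le_of_sq_le_sq' ?_ (norm_nonneg _) |>.2
      refine le_of_mul_le_mul_left ?_ hc
      have h2 := mul_le_mul_of_nonneg_left hθ hq.le
      have h3 := mul_le_mul_of_nonneg_right m2
        (sq_nonneg ‖∑ w ∈ S, e (c.fr i (y₀ + w) z - c.fr i y₀ z - w • θ)‖)
      have h4 : c.q v * (c.q v * S.card ^ 3) ≤ c.q v * S.card ^ 3 :=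
        mul_le_of_le_one_left (by positivity) (q_le_one h v)
      calc _ = c.q v * (c.q v * S.card ^ 3) := by ring
        _ ≤ _ := h4.trans (h2.trans (by rw [← mul_assoc]; exact h3)))
  rwa [mul_zero, add_zero, q_add, mul_div_cancel_left₀ _ hq.ne'] at h1

/-- a long shift is exchanged for a short one -/
lemma transl (h : c.OK P) {l : ℕ} {N : ℝ} {b z : ℤ} (hb : c.Zl (2 * l + 5) N b)
    (hz : c.V (4 * l + 12) N z) : ∃ u z', c.V (2 * l + 6) N u ∧ c.V (2 * l + 5) N z' ∧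
      ∀ (i : Fin 3) (y t : ℤ), c.Good i y → InB c.Θ (c.q 2) t →
        c.fr i (y + t - b) z - c.fr i (y + t) z = c.fr i (y + u) z' - c.fr i y z' := by
  obtain ⟨u, rfl, u1, u2⟩ := h.Zl_eq hb
  have hM := c.abs_Q_pow (4 * (2 * l + 5) + 7)
  refine ⟨-u, (c.Q : ℤ) ^ (4 * (2 * l + 5) + 7) * z, VV.neg u1,
    h.VV_mul hz (by omega) hM.le (by omega) le_rfl, fun i y t hg ht => ?_⟩
  have z1 := (h.VV_inB hz (by omega)).1
  have z2 := (h.V_inB hz).1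
  have u3 := (h.V_inB u1).1.neg
  have hq2 := h.q_pos 2
  have key : ∀ m, 4 * (2 * l + 5) + 9 ≤ m →
      (|(((c.Q : ℤ) ^ (4 * (2 * l + 5) + 7) : ℤ) : ℝ)| + 1) * c.q m ≤ 100 * c.q 2 := fun m hm => by
    have h1 := h.pow_mul_q (m := 4 * (2 * l + 5) + 7) (b := m) (b' := 2) (by omega)
    have h2 := h.q_anti (a := 2) (b := m) (by omega)
    rw [hM, add_mul]
    linarith
  have h1 := q_succ h 1
  have e1 := h.fr_mul hg (inB100 h u3) (c.q_nonneg _) z1 (key _ (by omega))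
  have e2 := h.fr_mul hg (InB.zero _ (by positivity)) (c.q_nonneg _) z1 (key _ (by omega))
  have e3 := h.fr_shift hg (InB.zero _ (by positivity)) (inB100 h u3) (inB100 h z2)
  have e4 := h.fr_shift hg (inB100 h ht) (inB100 h (h.inB_pow (m := 4 * (2 * l + 5) + 7) u2.neg
    (by omega))) (inB100 h z2)
  have hi : |((2 * ((i : ℤ) + 1) : ℤ) : ℝ)| ≤ 6 := by
    have : |2 * ((i : ℤ) + 1)| ≤ 6 := by rw [abs_le]; omega
    exact_mod_cast this
  have e5 := Quad.d2_mul hg (c.q_nonneg _) u2.neg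
    ((key (9 * (2 * l + 5) + 11) (by omega)).trans (by linarith))
    ((z2.mul (2 * ((i : ℤ) + 1))).mono subset_rfl
      ((mul_le_mul_of_nonneg_right hi hq2.le).trans (by linarith)))
  rw [add_zero] at e2 e3
  rw [e1, e2, ← smul_sub, e3, ← e5, ← e4, mul_neg, sub_eq_add_neg (y + t)]

end RawA

end Pool.Agent.Tri
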