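import Pool.Agent.Lib.MP_9721b5_an.Tri.Stmts
import Pool.Agent.Lib.MP_9721b5_an.Tri.Basic

/-!
The scales split in few regimes, inside which small Bohr sets are syndetic.
-/

set_option autoImplicit false

open Finset Real

namespace Pool.Agent.Tri

namespace Regime

/-- lifts of integers with their multiples of the frequencies -/
def Lift (Θ : Finset T) (w : ℤ) (v : ℝ × (Θ → ℝ)) : Prop :=
  v.1 = w ∧ ∀ θ : Θ, ((v.2 θ : ℝ) : T) = w • (θ : T)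

/-- the short lifts -/
def Gen (Θ : Finset T) (r : ℝ) (k : ℕ) : Set (ℝ × (Θ → ℝ)) :=
  {v | (∃ w, Lift Θ w v) ∧ |v.1| ≤ r * 2 ^ k ∧ ∀ θ, |v.2 θ| ≤ r}

lemma Gen_mono (Θ : Finset T) {r : ℝ} (hr : 0 ≤ r) {a b : ℕ} (h : a ≤ b) :
    Gen Θ r a ⊆ Gen Θ r b := fun _ hv =>
  ⟨hv.1, hv.2.1.trans (mul_le_mul_of_nonneg_left (pow_le_pow_right₀ one_le_two h) hr), hv.2.2⟩

lemma finrank_eq (Θ : Finset T) : Module.finrank ℝ (ℝ × (Θ → ℝ)) = Θ.card + 1 := by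
  simp [add_comm]

lemma exists_lift (t : T) : ∃ x : ℝ, (x : T) = t ∧ |x| = ‖t‖ := by
  obtain ⟨y, rfl⟩ := QuotientAddGroup.mk_surjective t
  refine ⟨y - round y, ?_, (UnitAddCircle.norm_eq).symm⟩
  rw [AddCircle.coe_sub]
  simp

lemma norm_coe_le (x : ℝ) : ‖(x : T)‖ ≤ |x| := QuotientAddGroup.norm_mk_le_norm

lemma long {Θ : Finset T} {r : ℝ} (hr : 0 < r) (hr' : r ≤ 1 / 2) {b : ℕ}
    (h : 1 ≤ (r / 8) ^ (Θ.card + 1) * 2 ^ b) :
    ∃ v ∈ Gen Θ r b, (r / 8) ^ (Θ.card + 1) * 2 ^ b ≤ |v.1| := by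
  classical
  set E := (r / 8) ^ (Θ.card + 1) * 2 ^ b with hE
  have hn : 0 ≤ ⌊r * 2 ^ b⌋ := Int.floor_nonneg.2 (by positivity)
  obtain ⟨x₀, hx₀, hc⟩ := ball_count (Γ := ℤ) Θ (fun θ => zmultiplesHom T θ) (R := 1 / 2) hr
    (by norm_num) (Icc 0 ⌊r * 2 ^ b⌋) ⟨0, mem_Icc.2 ⟨le_rfl, hn⟩⟩ fun x _ i _ => norm_T_le _
  have key : ∃ x ∈ Icc 0 ⌊r * 2 ^ b⌋, (∀ i ∈ Θ, ‖(x - x₀) • i‖ ≤ r) ∧ E ≤ |((x - x₀ : ℤ) : ℝ)| := by
    by_contra hcon
    push Not at hcon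
    have hE0 : 0 ≤ ⌊E⌋ := Int.floor_nonneg.2 (by linarith)
    have h1 : cnt (Icc 0 ⌊r * 2 ^ b⌋) (fun x => ∀ i ∈ Θ, ‖(zmultiplesHom T i) (x - x₀)‖ ≤ r) ≤
        cnt (Icc (x₀ - ⌊E⌋) (x₀ + ⌊E⌋)) fun _ => True := by
      refine cnt_le_of_inj id (fun x hx hP => ⟨?_, trivial⟩) fun _ _ _ _ _ _ h => h
      have h2 := (hcon x hx hP).le
      rw [← Int.cast_abs, ← Int.le_floor, abs_le] at h2
      simp only [id, mem_Icc]
      omega
    have h2 : ((Icc (x₀ - ⌊E⌋) (x₀ + ⌊E⌋)).card : ℝ) ≤ 3 * E := by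
      have h3 : ((Icc (x₀ - ⌊E⌋) (x₀ + ⌊E⌋)).card : ℤ) = 2 * ⌊E⌋ + 1 := by
        rw [Int.card_Icc]
        omega
      have h4 : ((Icc (x₀ - ⌊E⌋) (x₀ + ⌊E⌋)).card : ℝ) = 2 * ⌊E⌋ + 1 := by exact_mod_cast h3
      have := Int.floor_le E
      linarith
    have h3 : r * 2 ^ b ≤ ((Icc 0 ⌊r * 2 ^ b⌋).card : ℝ) := by
      have h3 : ((Icc 0 ⌊r * 2 ^ b⌋).card : ℤ) = ⌊r * 2 ^ b⌋ + 1 := by
        rw [Int.card_Icc]
        omega
      have h4 : ((Icc 0 ⌊r * 2 ^ b⌋).card : ℝ) = ⌊r * 2 ^ b⌋ + 1 := by exact_mod_cast h3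
      have := Int.lt_floor_add_one (r * 2 ^ b)
      linarith
    have h4 : (2 * (1 / 2) / r + 1) ^ Θ.card * (r / 8) ^ Θ.card ≤ 1 := by
      rw [← mul_pow]
      refine pow_le_one₀ (by positivity) ?_
      have : (2 * (1 / 2) / r + 1) * (r / 8) = (1 + r) / 8 := by field_simp
      rw [this]
      linarith
    have h5 : r * 2 ^ b ≤ (2 * (1 / 2) / r + 1) ^ Θ.card * (3 * E) :=
      h3.trans (hc.trans (mul_le_mul_of_nonneg_left (h1.trans ((cnt_le_card _ _).trans h2))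
        (by positivity)))
    have h6 : (2 * (1 / 2) / r + 1) ^ Θ.card * (3 * E) =
        (2 * (1 / 2) / r + 1) ^ Θ.card * (r / 8) ^ Θ.card * (3 / 8 * (r * 2 ^ b)) := by
      rw [hE]; ring
    have h7 : 0 < r * 2 ^ b := by positivity
    have h8 := mul_le_mul_of_nonneg_right h4 (show 0 ≤ 3 / 8 * (r * 2 ^ b) by positivity)
    linarith
  obtain ⟨x, hx, h1, h2⟩ := key
  choose ε hε hε' using fun θ : Θ => exists_lift ((x - x₀) • (θ : T))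
  refine ⟨(((x - x₀ : ℤ) : ℝ), ε), ⟨⟨x - x₀, rfl, hε⟩, ?_, fun θ => ?_⟩, h2⟩
  · rw [mem_Icc] at hx hx₀
    change |((x - x₀ : ℤ) : ℝ)| ≤ _
    rw [← Int.cast_abs, ← Int.le_floor, abs_le]
    omega
  · change |ε θ| ≤ r
    rw [hε']
    exact h1 θ θ.2

lemma round_sum {ι : Type} [Fintype ι] (c x : ι → ℝ) {s : ℝ} {n : ℕ} (hn : Fintype.card ι ≤ n)
    (hs : 0 ≤ s) (hx : ∀ i, |x i| ≤ s) :
    |∑ i, (round (c i) : ℝ) * x i - ∑ i, c i * x i| ≤ n * s := by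
  rw [← sum_sub_distrib]
  refine (abs_sum_le_sum_abs _ _).trans ((sum_le_card_nsmul _ _ s fun i _ => ?_).trans ?_)
  · rw [← sub_mul, abs_mul, abs_sub_comm]
    have := abs_sub_round (c i)
    calc _ ≤ 1 * s := mul_le_mul (by linarith) (hx i) (abs_nonneg _) zero_le_one
      _ = s := one_mul s
  · rw [nsmul_eq_mul]
    exact mul_le_mul_of_nonneg_right (by exact_mod_cast hn) hs

lemma approx {Θ : Finset T} {r : ℝ} (hr : 0 ≤ r) {a : ℕ} {v : ℝ × (Θ → ℝ)}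
    (hv : v ∈ Submodule.span ℝ (Gen Θ r a)) (hv' : ∀ θ, |v.2 θ| ≤ r) :
    ∃ w : ℤ, InB Θ ((Θ.card + 2) * r) w ∧ |(w : ℝ) - v.1| ≤ (Θ.card + 1) * r * 2 ^ a := by
  obtain ⟨B, hB, hsp, hli⟩ := exists_linearIndependent ℝ (Gen Θ r a)
  have hfin : B.Finite := hli.set_finite_of_isNoetherian
  have := hfin.fintype
  have hcard : Fintype.card B ≤ Θ.card + 1 := finrank_eq Θ ▸ hli.fintype_card_le_finrank
  rw [← hsp, ← Subtype.range_coe (s := B), Submodule.mem_span_range_iff_exists_fun] at hv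
  obtain ⟨c, hc⟩ := hv
  choose w hw using fun g : B => (hB g.2).1
  refine ⟨∑ g, round (c g) * w g, fun θ hθ => ?_, ?_⟩
  · have h1 : (∑ g, round (c g) * w g) • θ =
        ((∑ g : B, (round (c g) : ℝ) * g.1.2 ⟨θ, hθ⟩ : ℝ) : T) := by
      rw [QuotientAddGroup.mk_sum, sum_smul]
      refine sum_congr rfl fun g _ => ?_
      rw [mul_smul, ← (hw g).2 ⟨θ, hθ⟩, ← zsmul_eq_mul, AddCircle.coe_zsmul]
    have h2 : v.2 ⟨θ, hθ⟩ = ∑ g : B, c g * g.1.2 ⟨θ, hθ⟩ := by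
      rw [← hc, Prod.snd_sum, Finset.sum_apply]
      rfl
    have h3 := round_sum c (fun g : B => g.1.2 ⟨θ, hθ⟩) hcard hr fun g => (hB g.2).2.2 _
    have h4 := hv' ⟨θ, hθ⟩
    rw [← h2] at h3
    rw [h1]
    refine (norm_coe_le _).trans ?_
    have h5 := abs_add_le (∑ g : B, (round (c g) : ℝ) * g.1.2 ⟨θ, hθ⟩ - v.2 ⟨θ, hθ⟩) (v.2 ⟨θ, hθ⟩)
    rw [sub_add_cancel] at h5
    push_cast at h3
    linarith
  · have h1 : ((∑ g, round (c g) * w g : ℤ) : ℝ) = ∑ g : B, (round (c g) : ℝ) * g.1.1 := by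
      push_cast
      exact sum_congr rfl fun g _ => by rw [(hw g).1]
    have h2 : v.1 = ∑ g : B, c g * g.1.1 := by
      rw [← hc, Prod.fst_sum]
      rfl
    have h3 := round_sum c (fun g : B => g.1.1) hcard (by positivity) fun g => (hB g.2).2.1
    rw [h1, h2, mul_assoc]
    exact_mod_cast h3

end Regime

open Regime in
theorem regime : RegimeStmt := by
  intro Θ r hr hr'
  refine ⟨fun k => Module.finrank ℝ (Submodule.span ℝ (Gen Θ r k)), fun a b hab => ?_,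
    fun k => ?_, fun a b hab hrk h1 τ hτ => ?_⟩
  · exact Submodule.finrank_mono (Submodule.span_mono (Gen_mono Θ hr.le hab))
  · exact finrank_eq Θ ▸ Submodule.finrank_le _
  · have hU := Submodule.eq_of_le_of_finrank_eq (Submodule.span_mono (Gen_mono Θ hr.le hab)) hrk
    obtain ⟨v, hv, hl⟩ := long hr hr' h1
    have h0 : v.1 ≠ 0 := abs_pos.1 (by linarith)
    have h2 : |τ / v.1| ≤ 1 := by
      rw [abs_div]
      exact div_le_one_of_le₀ (hτ.trans hl) (abs_nonneg _)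
    obtain ⟨w, h3, h4⟩ := approx (a := a) (v := (τ / v.1) • v) hr.le
      (hU ▸ Submodule.smul_mem _ _ (Submodule.subset_span hv)) fun θ => by
        change |τ / v.1 * v.2 θ| ≤ r
        rw [abs_mul]
        exact (mul_le_mul h2 (hv.2.2 θ) (abs_nonneg _) zero_le_one).trans (one_mul r).le
    refine ⟨w, h3, ?_⟩
    rwa [Prod.smul_fst, smul_eq_mul, div_mul_cancel₀ _ h0] at h4

end Pool.Agent.Tri
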