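import Pool.Agent.Lib.MP_9721b5_an.Tri.SDefs
import Pool.Agent.Lib.MP_9721b5_an.Tri.Basic0

/-!
Calculus of the sets `VV`, regular sets, and of locally quadratic phases.
-/

set_option autoImplicit false

open Finset Real

namespace Pool.Agent.Tri

section Quad

variable {Θ : Finset T} {s : ℝ} {ψ : ℤ → T} {y : ℤ}

lemma d2_comm {Γ : Type*} [AddCommGroup Γ] (ψ : Γ → T) (y h k : Γ) :
    d2 ψ y h k = d2 ψ y k h := by
  unfold d2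
  rw [add_right_comm y h k]
  abel

lemma d2_split {Γ : Type*} [AddCommGroup Γ] (ψ : Γ → T) (y h h' k : Γ) :
    d2 ψ y (h + h') k = d2 ψ y h k + d2 ψ (y + h) h' k := by
  unfold d2
  rw [← add_assoc y h h']
  abel

lemma d2_zero {Γ : Type*} [AddCommGroup Γ] (ψ : Γ → T) (y k : Γ) : d2 ψ y 0 k = 0 := by
  unfold d2
  rw [add_zero]
  abel

lemma Quad.mono {Θ' : Finset T} {s' : ℝ} (h : Quad (InB Θ s) ψ y) (hΘ : Θ ⊆ Θ') (hs : s' ≤ s) :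
    Quad (InB Θ' s') ψ y := fun u h₁ h₂ h₃ a b c d =>
  h u h₁ h₂ h₃ (a.mono hΘ hs) (b.mono hΘ hs) (c.mono hΘ hs) (d.mono hΘ hs)

lemma Quad.shift (h : Quad (InB Θ s) ψ y) {s' r : ℝ} {v : ℤ} (hv : InB Θ r v) (hr : 0 ≤ r)
    (hs : s' + r ≤ s) : Quad (InB Θ s') ψ (y + v) := by
  intro u h₁ h₂ h₃ a b c d
  have h1 : s' ≤ s := by linarith
  rw [add_assoc]
  exact h (v + u) h₁ h₂ h₃ ((hv.add a).mono subset_rfl (by linarith)) (b.mono subset_rfl h1)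
    (c.mono subset_rfl h1) (d.mono subset_rfl h1)

lemma Quad.d2_base (hq : Quad (InB Θ s) ψ y) (hs : 0 ≤ s) {u h k : ℤ} (hu : InB Θ s u)
    (hh : InB Θ s h) (hk : InB Θ s k) : d2 ψ (y + u) h k = d2 ψ y h k := by
  have := hq 0 h k u (InB.zero Θ hs) hh hk hu
  rwa [add_zero, d3, sub_eq_zero] at this

lemma Quad.d2_add (hq : Quad (InB Θ s) ψ y) (hs : 0 ≤ s) {h h' k : ℤ} (hh : InB Θ s h)
    (hh' : InB Θ s h') (hk : InB Θ s k) : d2 ψ y (h + h') k = d2 ψ y h k + d2 ψ y h' k := by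
  rw [d2_split, hq.d2_base hs hh hh' hk]

lemma Quad.d2_neg (hq : Quad (InB Θ s) ψ y) (hs : 0 ≤ s) {h k : ℤ} (hh : InB Θ s h)
    (hk : InB Θ s k) : d2 ψ y (-h) k = -d2 ψ y h k := by
  have := hq.d2_add hs hh hh.neg hk
  rw [add_neg_cancel, d2_zero] at this
  exact (neg_eq_of_add_eq_zero_right this.symm).symm

lemma Quad.d2_nat (hq : Quad (InB Θ s) ψ y) {r : ℝ} {h k : ℤ} (hr : 0 ≤ r) (hh : InB Θ r h)
    (hk : InB Θ s k) (m : ℕ) (hm : ((m : ℝ) + 1) * r ≤ s) :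
    d2 ψ y (m * h) k = (m : ℤ) • d2 ψ y h k := by
  induction m with
  | zero => simp [d2_zero]
  | succ m ih =>
    have h0 : (0 : ℝ) ≤ m * r := by positivity
    push_cast at hm ⊢
    have h1 : InB Θ s (m * h) := (hh.mul m).mono subset_rfl (by
      rw [Int.cast_natCast, Nat.abs_cast]; linarith)
    rw [add_mul, one_mul, hq.d2_add (by linarith) h1 (hh.mono subset_rfl (by linarith)) hk,
      ih (by linarith), add_smul, one_smul]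

lemma Quad.d2_mul (hq : Quad (InB Θ s) ψ y) {r : ℝ} {h k m : ℤ} (hr : 0 ≤ r) (hh : InB Θ r h)
    (hm : (|(m : ℝ)| + 1) * r ≤ s) (hk : InB Θ s k) : d2 ψ y (m * h) k = m • d2 ψ y h k := by
  obtain ⟨n, rfl | rfl⟩ := Int.eq_nat_or_neg m
  · exact hq.d2_nat hr hh hk n (by simpa using hm)
  · have hm' : ((n : ℝ) + 1) * r ≤ s := by simpa using hm
    have h0 : (0 : ℝ) ≤ n * r := by positivity
    rw [neg_mul, ← mul_neg, hq.d2_nat hr hh.neg hk n hm',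
      hq.d2_neg (by linarith) (hh.mono subset_rfl (by linarith)) hk, smul_neg, neg_smul]

end Quad

namespace Cfg

variable {c : Cfg} {P : ℝ}

lemma OK.pow5 (h : c.OK P) : (32 : ℝ) ≤ P ^ 5 := by
  have := pow_le_pow_left₀ (by norm_num) h.two_le 5
  norm_num at this
  exact this

lemma OK.pow4 (h : c.OK P) : (16 : ℝ) ≤ P ^ 4 := by
  have := pow_le_pow_left₀ (by norm_num) h.two_le 4
  norm_num at this
  exact this

lemma exp16 : (2 : ℝ) * 10 ^ 6 ≤ exp 16 := by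
  have h1 : (2.7 : ℝ) ≤ exp 1 := by have := Real.exp_one_gt_d9; linarith
  have h2 : exp 16 = exp 1 ^ 16 := by rw [← Real.exp_nat_mul]; norm_num
  rw [h2]
  exact le_trans (by norm_num) (pow_le_pow_left₀ (by norm_num) h1 16)

lemma OK.Q_ge (h : c.OK P) : exp (P ^ 5) / 2 ≤ c.Q := by
  have h1 : (1 : ℝ) ≤ exp (P ^ 5) := Real.one_le_exp (by have := h.pow5; linarith)
  have h2 : 0 < ⌊exp (P ^ 5)⌋₊ := Nat.floor_pos.2 h1
  have h3 := Nat.le_of_dvd h.pos (h.dvd _ h2 (Nat.floor_le (by positivity)))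
  have h4 : (⌊exp (P ^ 5)⌋₊ : ℝ) ≤ c.Q := by exact_mod_cast h3
  have h5 := Nat.lt_floor_add_one (exp (P ^ 5))
  have h6 : (1 : ℝ) ≤ ⌊exp (P ^ 5)⌋₊ := by exact_mod_cast h2
  linarith

lemma OK.Q_ge' (h : c.OK P) : 10 ^ 6 * exp (P ^ 4) ≤ c.Q := by
  refine le_trans ?_ h.Q_ge
  have h1 : 16 + P ^ 4 ≤ P ^ 5 := by
    have := h.pow4
    have h2 := h.two_le
    calc 16 + P ^ 4 ≤ P ^ 4 * 2 := by linarith
      _ ≤ P ^ 4 * P := by gcongr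
      _ = P ^ 5 := by ring
  have h2 := Real.exp_le_exp.2 h1
  rw [Real.exp_add] at h2
  have h3 := mul_le_mul_of_nonneg_right exp16 (Real.exp_pos (P ^ 4)).le
  linarith

lemma OK.Q_big (h : c.OK P) : (10 : ℝ) ^ 12 ≤ c.Q := by
  have h1 := h.Q_ge'
  have h2 := Real.exp_le_exp.2 h.pow4
  have h3 := exp16
  linarith

lemma OK.Q_nat (h : c.OK P) : 10 ^ 12 ≤ c.Q := by exact_mod_cast h.Q_big

lemma OK.one_le_Q (h : c.OK P) : (1 : ℝ) ≤ c.Q := le_trans (by norm_num) h.Q_big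

lemma OK.two_dvd (h : c.OK P) : 2 ∣ c.Q := by
  refine h.dvd 2 two_pos ?_
  have := Real.add_one_le_exp (P ^ 5)
  have := h.pow5
  push_cast
  linarith

lemma OK.Nk_kb (h : c.OK P) : c.Q ^ 2 ≤ Nk c.kb := by
  obtain ⟨z, ⟨w, hw, -⟩, h2⟩ := h.syn 1 (by
    have : (1 : ℤ) ≤ 2 ^ c.kt := one_le_pow₀ (by norm_num)
    rw [abs_one]; linarith)
  have h3 : z - 1 ≠ 0 := by
    intro h0
    have h4 : (c.Q : ℤ) ∣ 1 := by
      rw [← sub_eq_zero.1 h0, hw]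
      exact Dvd.dvd.mul_right (dvd_pow_self _ (by omega)) _
    have h5 := Int.le_of_dvd one_pos h4
    have := h.Q_nat
    omega
  have h4 : (1 : ℝ) ≤ |((z - 1 : ℤ) : ℝ)| := by
    rw [← Int.cast_abs]
    exact_mod_cast Int.one_le_abs h3
  have h5 : (c.Q : ℝ) ^ 2 ≤ Nk c.kb :=
    le_trans (le_mul_of_one_le_left (by positivity) h4) h2
  exact_mod_cast h5

lemma OK.five_le (h : c.OK P) : 5 ≤ c.kb := by
  by_contra hk
  have h1 : 2 ^ c.kb ≤ 2 ^ 4 := Nat.pow_le_pow_right two_pos (by omega)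
  have h2 := h.Nk_kb
  have h3 : 0 < c.Q ^ 2 := pow_pos h.pos 2
  unfold Nk at h2
  omega

lemma OK.Nk_eq (h : c.OK P) {k : ℕ} (hk : c.kb ≤ k) : 32 * Nk k = 2 ^ k :=
  Nat.mul_div_cancel' (pow_dvd_pow 2 (h.five_le.trans hk) : 2 ^ 5 ∣ 2 ^ k)

lemma Nk_mono {k k' : ℕ} (h : k ≤ k') : Nk k ≤ Nk k' :=
  Nat.div_le_div_right (Nat.pow_le_pow_right two_pos h)

lemma Nk_le_of_lev {k N : ℕ} (h : lev k N) : Nk k ≤ N := by
  have := h.1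
  unfold Nk
  omega

lemma Q_le_two_pow (c : Cfg) : c.Q ≤ 2 ^ c.lq := Nat.le_pow_clog one_lt_two _

lemma OK.one_le_lq (h : c.OK P) : 1 ≤ c.lq :=
  Nat.clog_pos one_lt_two (by have := h.Q_nat; omega)

lemma OK.q_pos (h : c.OK P) (a : ℕ) : 0 < c.q a := by
  have := h.one_le_Q
  unfold q
  positivity

lemma q_nonneg (c : Cfg) (a : ℕ) : 0 ≤ c.q a := by
  unfold q
  positivity

lemma q_add (c : Cfg) (a b : ℕ) : c.q (a + b) = c.q a * c.q b := by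
  unfold q
  rw [pow_add, mul_inv]

lemma OK.q_mul (h : c.OK P) (a : ℕ) : (c.Q : ℝ) ^ a * c.q a = 1 := by
  have := h.one_le_Q
  exact mul_inv_cancel₀ (by positivity)

lemma OK.q_anti (h : c.OK P) {a b : ℕ} (hab : a ≤ b) : c.q b ≤ c.q a := by
  have := h.one_le_Q
  exact inv_anti₀ (by positivity) (pow_le_pow_right₀ this hab)

lemma OK.pow_mul_q (h : c.OK P) {m b b' : ℕ} (hb : b' + m ≤ b) :
    (c.Q : ℝ) ^ m * c.q b ≤ c.q b' := by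
  calc (c.Q : ℝ) ^ m * c.q b ≤ (c.Q : ℝ) ^ m * c.q (m + b') :=
        mul_le_mul_of_nonneg_left (h.q_anti (by omega)) (by positivity)
    _ = c.q b' := by rw [q_add, ← mul_assoc, h.q_mul, one_mul]

lemma OK.inB_mul (h : c.OK P) {m b b' : ℕ} {w i : ℤ} (hw : InB c.Θ (c.q b) w)
    (hi : |(i : ℝ)| ≤ (c.Q : ℝ) ^ m) (hb : b' + m ≤ b) : InB c.Θ (c.q b') (i * w) :=
  (hw.mul i).mono subset_rfl
    ((mul_le_mul_of_nonneg_right hi (c.q_nonneg b)).trans (h.pow_mul_q hb))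

lemma abs_Q_pow (c : Cfg) (m : ℕ) : |(((c.Q : ℤ) ^ m : ℤ) : ℝ)| = (c.Q : ℝ) ^ m := by
  push_cast
  exact abs_of_nonneg (by positivity)

lemma OK.inB_pow (h : c.OK P) {m b b' : ℕ} {w : ℤ} (hw : InB c.Θ (c.q b) w) (hb : b' + m ≤ b) :
    InB c.Θ (c.q b') ((c.Q : ℤ) ^ m * w) := h.inB_mul hw (c.abs_Q_pow m).le hb

lemma OK.nonneg_of (h : c.OK P) {b : ℕ} {N x : ℝ} (hx : |x| ≤ N * c.q b) : 0 ≤ N :=
  nonneg_of_mul_nonneg_left ((abs_nonneg x).trans hx) (h.q_pos b)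

lemma OK.abs_mul_le (h : c.OK P) {m b b' : ℕ} {N N' : ℝ} {w i : ℤ} (hw : |(w : ℝ)| ≤ N * c.q b)
    (hi : |(i : ℝ)| ≤ (c.Q : ℝ) ^ m) (hb : b' + m ≤ b) (hN : N ≤ N') :
    |((i * w : ℤ) : ℝ)| ≤ N' * c.q b' := by
  have h0 := h.nonneg_of hw
  rw [Int.cast_mul, abs_mul]
  calc |(i : ℝ)| * |(w : ℝ)| ≤ (c.Q : ℝ) ^ m * (N * c.q b) :=
        mul_le_mul hi hw (abs_nonneg _) (by positivity)
    _ = N * ((c.Q : ℝ) ^ m * c.q b) := by ring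
    _ ≤ N' * c.q b' := mul_le_mul hN (h.pow_mul_q hb)
        (mul_nonneg (by positivity) (c.q_nonneg b)) (h0.trans hN)

lemma OK.VV_nonneg (h : c.OK P) {a b : ℕ} {N : ℝ} {t : ℤ} (ht : c.VV a b N t) : 0 ≤ N := by
  obtain ⟨w, -, -, h3⟩ := ht
  exact h.nonneg_of h3

lemma OK.VV_zero (h : c.OK P) (a b : ℕ) {N : ℝ} (hN : 0 ≤ N) : c.VV a b N 0 :=
  ⟨0, by simp, InB.zero _ (h.q_pos b).le, by simpa using mul_nonneg hN (h.q_pos b).le⟩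

lemma VV.neg {a b : ℕ} {N : ℝ} {t : ℤ} (h : c.VV a b N t) : c.VV a b N (-t) := by
  obtain ⟨w, h1, h2, h3⟩ := h
  exact ⟨-w, by rw [h1]; ring, h2.neg, by rwa [Int.cast_neg, abs_neg]⟩

/-- the basic inclusion rule -/
lemma OK.VV_mul (h : c.OK P) {a b a' b' m : ℕ} {N N' : ℝ} {t i : ℤ} (ht : c.VV a b N t)
    (ha : a' ≤ a) (hi : |(i : ℝ)| ≤ (c.Q : ℝ) ^ m) (hb : b' + m + (a - a') ≤ b) (hN : N ≤ N') :
    c.VV a' b' N' (i * t) := by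
  obtain ⟨w, h1, h2, h3⟩ := ht
  obtain ⟨d, rfl⟩ := Nat.exists_eq_add_of_le ha
  have hi' : |((i * (c.Q : ℤ) ^ d : ℤ) : ℝ)| ≤ (c.Q : ℝ) ^ (m + d) := by
    rw [Int.cast_mul, abs_mul, abs_Q_pow, pow_add]
    exact mul_le_mul_of_nonneg_right hi (by positivity)
  exact ⟨i * (c.Q : ℤ) ^ d * w, by rw [h1]; ring, h.inB_mul h2 hi' (by omega),
    h.abs_mul_le h3 hi' (by omega) hN⟩

lemma OK.VV_mono (h : c.OK P) {a b a' b' : ℕ} {N N' : ℝ} {t : ℤ} (ht : c.VV a b N t)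
    (ha : a' ≤ a) (hb : b' + (a - a') ≤ b) (hN : N ≤ N') : c.VV a' b' N' t := by
  have := h.VV_mul (i := 1) (m := 0) (b' := b') ht ha (by simp) (by omega) hN
  rwa [one_mul] at this

lemma OK.V_mono (h : c.OK P) {l l' : ℕ} {N N' : ℝ} {t : ℤ} (ht : c.V l N t) (hl : l' ≤ l)
    (hN : N ≤ N') : c.V l' N' t := h.VV_mono ht hl (by omega) hN

/-- halving -/
lemma OK.VV_half (h : c.OK P) {a b : ℕ} {N : ℝ} {t : ℤ} (ht : c.VV (a + 1) (b + 1) N t) :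
    ∃ z, t = 2 * z ∧ c.VV a b N z := by
  obtain ⟨w, h1, h2, h3⟩ := ht
  obtain ⟨d, hd⟩ := h.two_dvd
  have hi : |((d : ℤ) : ℝ)| ≤ (c.Q : ℝ) ^ 1 := by
    rw [Int.cast_natCast, Nat.abs_cast, pow_one]
    exact_mod_cast (by omega : d ≤ c.Q)
  refine ⟨(c.Q : ℤ) ^ a * (d * w), ?_, d * w, rfl, h.inB_mul h2 hi le_rfl,
    h.abs_mul_le h3 hi le_rfl le_rfl⟩
  have : (c.Q : ℤ) = 2 * d := by exact_mod_cast hd
  rw [h1, pow_succ]
  linear_combination (c.Q : ℤ) ^ a * w * this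

lemma OK.VV_inB (h : c.OK P) {a b : ℕ} {N : ℝ} {t : ℤ} (ht : c.VV a b N t) (hab : a ≤ b) :
    InB c.Θ (c.q (b - a)) t ∧ |(t : ℝ)| ≤ N * c.q (b - a) := by
  obtain ⟨w, rfl, h2, h3⟩ := ht
  exact ⟨h.inB_pow h2 (by omega), h.abs_mul_le h3 (c.abs_Q_pow a).le (by omega) le_rfl⟩

lemma OK.V_inB (h : c.OK P) {l : ℕ} {N : ℝ} {t : ℤ} (ht : c.V l N t) :
    InB c.Θ (c.q 2) t ∧ |(t : ℝ)| ≤ N * c.q 2 := by
  obtain ⟨w, rfl, h2, h3⟩ := ht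
  exact ⟨h.inB_pow h2 (by omega), h.abs_mul_le h3 (c.abs_Q_pow l).le (by omega) le_rfl⟩

lemma V.toVU {l : ℕ} {N : ℝ} {t : ℤ} (ht : c.V l N t) : c.VU l t := by
  obtain ⟨w, h1, h2, -⟩ := ht
  exact ⟨w, h1, h2⟩

lemma OK.VU_toU (h : c.OK P) {l : ℕ} {t : ℤ} (ht : c.VU l t) (i : Fin 3) :
    c.U l (((i : ℤ) + 1) * t) := by
  obtain ⟨w, h1, h2⟩ := ht
  refine ⟨((i : ℤ) + 1) * w, by rw [h1]; ring, h.inB_mul (m := 1) h2 ?_ (by omega)⟩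
  have h3 : ((i : ℕ) : ℝ) ≤ 2 := by exact_mod_cast Nat.le_of_lt_succ i.2
  have h4 := h.Q_big
  push_cast
  rw [abs_of_nonneg (by positivity), pow_one]
  linarith

lemma OK.U_mono (h : c.OK P) {l l' : ℕ} {t : ℤ} (ht : c.U l t) (hl : l' ≤ l) : c.U l' t := by
  obtain ⟨w, h1, h2⟩ := ht
  obtain ⟨d, rfl⟩ := Nat.exists_eq_add_of_le hl
  exact ⟨(c.Q : ℤ) ^ d * w, by rw [h1]; ring, h.inB_pow h2 (by omega)⟩

lemma OK.Fine_zero (h : c.OK P) : c.Fine 0 := ⟨0, by simp, InB.zero _ (h.q_pos _).le⟩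

lemma Fine.neg {t : ℤ} (ht : c.Fine t) : c.Fine (-t) := by
  obtain ⟨w, h1, h2⟩ := ht
  exact ⟨-w, by rw [h1]; ring, h2.neg⟩

lemma OK.two_q (h : c.OK P) (a : ℕ) : c.q (a + 1) + c.q (a + 1) ≤ c.q a := by
  have h1 := h.pow_mul_q (m := 1) (b := a + 1) (b' := a) le_rfl
  have h2 := h.Q_big
  have h3 := h.q_pos (a + 1)
  rw [pow_one] at h1
  nlinarith

lemma OK.Fine_VU (h : c.OK P) {l : ℕ} (hl : l ≤ c.L) {t t' : ℤ} (ht : c.Fine t)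
    (ht' : c.Fine t') : c.VU l (t + t') := by
  obtain ⟨w, h1, h2⟩ := ht
  obtain ⟨w', h1', h2'⟩ := ht'
  obtain ⟨d, hd⟩ := Nat.exists_eq_add_of_le (show l ≤ 5 * c.L + 8 by omega)
  have h3 : InB c.Θ (c.q (10 * c.L + 12)) (w + w') := (h2.add h2').mono subset_rfl (h.two_q _)
  exact ⟨(c.Q : ℤ) ^ d * (w + w'), by rw [h1, h1', hd]; ring, h.inB_pow h3 (by omega)⟩

lemma OK.Fine_inB (h : c.OK P) {t : ℤ} (ht : c.Fine t) : InB c.Θ (c.q 5) t := by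
  obtain ⟨w, rfl, h2⟩ := ht
  exact h.inB_pow h2 (by omega)

lemma OK.Fine_Zl (h : c.OK P) {l : ℕ} (hl : l ≤ c.L) {N : ℝ} {t : ℤ} (ht : c.Fine t)
    (hN : |(t : ℝ)| ≤ c.Q * N) : c.Zl l N t := by
  obtain ⟨w, h1, h2⟩ := ht
  obtain ⟨d, hd⟩ := Nat.exists_eq_add_of_le (show 5 * l + 8 ≤ 5 * c.L + 8 by omega)
  exact ⟨(c.Q : ℤ) ^ d * w, by rw [h1, hd]; ring, h.inB_pow h2 (by omega), hN⟩

lemma Zl.neg {l : ℕ} {N : ℝ} {t : ℤ} (ht : c.Zl l N t) : c.Zl l N (-t) := by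
  obtain ⟨w, h1, h2, h3⟩ := ht
  exact ⟨-w, by rw [h1]; ring, h2.neg, by rwa [Int.cast_neg, abs_neg]⟩

/-- a long element is a multiple of a short one -/
lemma OK.Zl_eq (h : c.OK P) {l : ℕ} {N : ℝ} {t : ℤ} (ht : c.Zl l N t) :
    ∃ u, t = (c.Q : ℤ) ^ (4 * l + 7) * u ∧ c.V (l + 1) N u ∧ InB c.Θ (c.q (9 * l + 11)) u := by
  obtain ⟨w, h1, h2, h3⟩ := ht
  refine ⟨(c.Q : ℤ) ^ (l + 1) * w, by rw [h1]; ring,
    ⟨w, rfl, h2.mono subset_rfl (h.q_anti (by omega)), ?_⟩, h.inB_pow h2 (by omega)⟩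
  rw [h1, Int.cast_mul, abs_mul, abs_Q_pow] at h3
  have h4 := h.q_mul (5 * (l + 1) + 2)
  have h5 := h.q_pos (5 * (l + 1) + 2)
  have h6 := h.one_le_Q
  have h7 : (c.Q : ℝ) ^ (5 * (l + 1) + 2) * |(w : ℝ)| ≤ N := by
    refine le_of_mul_le_mul_left ?_ (show (0 : ℝ) < c.Q by linarith)
    calc (c.Q : ℝ) * ((c.Q : ℝ) ^ (5 * (l + 1) + 2) * |(w : ℝ)|)
        = (c.Q : ℝ) ^ (5 * l + 8) * |(w : ℝ)| := by ring
      _ ≤ _ := h3
  calc |(w : ℝ)| = (c.Q : ℝ) ^ (5 * (l + 1) + 2) * |(w : ℝ)| * c.q (5 * (l + 1) + 2) := by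
        rw [mul_right_comm, h4, one_mul]
    _ ≤ _ := mul_le_mul_of_nonneg_right h7 h5.le

end Cfg

end Pool.Agent.Tri
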