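import Pool.Agent.Lib.MP_9721b5_an.Tri.Stmts

/-!
Definitions and statements for the jump inequality for three cellwise quadratic phases.
-/

set_option autoImplicit false

open Finset ComplexConjugate Real

namespace Pool.Agent.Tri

/-- the data of one regime -/
structure Cfg where
  Θ : Finset T
  φ : Fin 3 → ℤ → T
  Q : ℕ
  kb : ℕ
  kt : ℕ
  L : ℕ

namespace Cfg

variable (c : Cfg)

/-- `Q ^ (-a)` -/
noncomputable def q (a : ℕ) : ℝ := ((c.Q : ℝ) ^ a)⁻¹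

/-- binary logarithm of `Q` -/
def lq : ℕ := Nat.clog 2 c.Q

/-- multiples of `Q ^ a` of elements of size `Q ^ (-b)` -/
def VV (a b : ℕ) (N : ℝ) (t : ℤ) : Prop :=
  ∃ w : ℤ, t = (c.Q : ℤ) ^ a * w ∧ InB c.Θ (c.q b) w ∧ |(w : ℝ)| ≤ N * c.q b

/-- the filtration whose unit ball is `VV a b N` -/
noncomputable def VF (a b : ℕ) (N : ℝ) : Filt ℤ where
  mem l t := ∃ w : ℤ, t = (c.Q : ℤ) ^ a * w ∧ InB c.Θ (l * c.q b) w ∧ |(w : ℝ)| ≤ l * (|N| * c.q b)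
  zero l hl := ⟨0, by simp, fun θ _ => by simp only [zero_smul, norm_zero, q]; positivity,
    by simp only [Int.cast_zero, abs_zero, q]; positivity⟩
  add := by
    rintro l l' x y ⟨w, rfl, h1, h2⟩ ⟨w', rfl, h1', h2'⟩
    refine ⟨w + w', by ring, fun θ hθ => ?_, ?_⟩
    · rw [add_smul, add_mul]
      exact (norm_add_le _ _).trans (add_le_add (h1 θ hθ) (h1' θ hθ))
    · rw [Int.cast_add, add_mul]
      exact (abs_add_le _ _).trans (add_le_add h2 h2')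
  neg := by
    rintro l x ⟨w, rfl, h1, h2⟩
    exact ⟨-w, by ring, fun θ hθ => by rw [neg_smul, norm_neg]; exact h1 θ hθ,
      by rw [Int.cast_neg, abs_neg]; exact h2⟩
  mono := by
    rintro l l' x hl ⟨w, rfl, h1, h2⟩
    have hq : 0 ≤ c.q b := by unfold q; positivity
    exact ⟨w, rfl, fun θ hθ => (h1 θ hθ).trans (mul_le_mul_of_nonneg_right hl hq),
      h2.trans (mul_le_mul_of_nonneg_right hl (mul_nonneg (abs_nonneg N) hq))⟩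

/-- the short set of level `l` at scale `N` -/
def V (l : ℕ) (N : ℝ) (t : ℤ) : Prop := c.VV l (5 * l + 2) N t

/-- the set of level `l` without archimedean restriction -/
def U (l : ℕ) (t : ℤ) : Prop := ∃ w : ℤ, t = (c.Q : ℤ) ^ l * w ∧ InB c.Θ (c.q (5 * l + 1)) w

/-- the same with a smaller radius, for shifts of the variable `n` -/
def VU (l : ℕ) (t : ℤ) : Prop := ∃ w : ℤ, t = (c.Q : ℤ) ^ l * w ∧ InB c.Θ (c.q (5 * l + 2)) w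

/-- the long set of level `l` at scale `N` -/
def Zl (l : ℕ) (N : ℝ) (t : ℤ) : Prop :=
  ∃ w : ℤ, t = (c.Q : ℤ) ^ (5 * l + 8) * w ∧ InB c.Θ (c.q (10 * l + 12)) w ∧ |(t : ℝ)| ≤ c.Q * N

/-- the shifts used for tilings -/
def Fine (t : ℤ) : Prop :=
  ∃ w : ℤ, t = (c.Q : ℤ) ^ (5 * c.L + 8) * w ∧ InB c.Θ (c.q (10 * c.L + 13)) w

/-- reference length at level `k` -/
def Nk (k : ℕ) : ℕ := 2 ^ k / 32

/-- the fine shifts are syndetic -/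
def Syn : Prop := ∀ τ : ℤ, |τ| ≤ 32 * 2 ^ c.kt →
  ∃ z : ℤ, c.Fine z ∧ |((z - τ : ℤ) : ℝ)| * (c.Q : ℝ) ^ 2 ≤ Nk c.kb

/-- standing hypotheses; `P` measures the size of `Q` -/
structure OK (P : ℝ) : Prop where
  two_le : 2 ≤ P
  pos : 0 < c.Q
  dvd : ∀ j : ℕ, 0 < j → (j : ℝ) ≤ exp (P ^ 5) → j ∣ c.Q
  rank : (c.Θ.card : ℝ) ≤ exp P
  syn : c.Syn

/-- the `i`-th point of the pair `(x, n)` -/
def y (i : Fin 3) (x n : ℤ) : ℤ := x + ((i : ℤ) + 1) * n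

/-- quadratic near `y` -/
def Good (i : Fin 3) (y : ℤ) : Prop := Quad (InB c.Θ (c.q 1)) (c.φ i) y

/-- local frequency of the `i`-th phase -/
def fr (i : Fin 3) (y z : ℤ) : T :=
  c.φ i (y + ((i : ℤ) + 1) * z) - c.φ i (y - ((i : ℤ) + 1) * z)

/-- local frequency of the total phase -/
def Ψ (x n z : ℤ) : T := Φ c.φ x (n + z) - Φ c.φ x (n - z)

/-- the quadratic part of the total phase is small -/
def Killed (l : ℕ) (N a : ℝ) (x n : ℤ) : Prop :=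
  ∀ t t', c.V (l + 1) N t → c.V (l + 2) N t' → ‖d2 (Φ c.φ x) n t t'‖ ≤ a

/-- the total phase is almost constant -/
def Flat (l : ℕ) (N : ℝ) (x n : ℤ) : Prop :=
  ∀ t, c.V (2 * l + 4) N t → ‖Φ c.φ x (n + t) - Φ c.φ x n‖ ≤ 2 * c.q 1

/-- the tripled node -/
def Ext (k j : ℕ) (y : ℤ) : Prop := ((j : ℤ) - 1) * 2 ^ k ≤ y ∧ y < ((j : ℤ) + 2) * 2 ^ k

/-- the three points lie in the tripled node -/
def Ext3 (k j : ℕ) (x n : ℤ) : Prop := ∀ i, Ext k j (y i x n)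

/-- `X` is sparse in all windows of the tripled node -/
def Win (X : ℤ → Prop) (k j : ℕ) (τ : ℝ) : Prop :=
  ∀ (a : ℤ) (w : ℕ), (Nk c.kb : ℝ) ≤ c.Q * w → (∀ y ∈ Ico a (a + w), Ext k j y) →
    cnt (Ico a (a + w)) X ≤ τ * w

/-- regular pair -/
def Reg (Irr : Fin 3 → ℤ → Prop) (x n : ℤ) : Prop := ∀ i, ¬ Irr i (y i x n)

/-- the envelope -/
noncomputable def Env (l : ℕ) (Irr : Fin 3 → ℤ → Prop) (R : ℤ → ℤ → Prop) (k x : ℕ) : ℝ :=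
  cnt (Icc (1 : ℤ) (Nk k)) fun n =>
    Reg Irr x n ∧ R x n ∧ c.Killed l (Nk k) (1 / 20) x n ∧ c.Flat l (Nk k) x n

open Classical in
/-- partial average -/
noncomputable def PA (R : ℤ → ℤ → Prop) (x N : ℕ) : ℂ :=
  (N : ℂ)⁻¹ * ∑ n ∈ Icc (1 : ℤ) N, if R x n then e (Φ c.φ x n) else 0

/-- an irregular set outside which the phases are quadratic -/
structure IrrOK (Irr : Fin 3 → ℤ → Prop) (k j : ℕ) (τ : ℝ) : Prop where
  good : ∀ i y, Ext k j y → ¬ Irr i y → c.Good i y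
  win : ∀ i, c.Win (Irr i) k j τ

/-- the relation is invariant under shifts of level `l` at regular pairs -/
def RInv (Irr : Fin 3 → ℤ → Prop) (R : ℤ → ℤ → Prop) (l k j : ℕ) : Prop :=
  ∀ x n t : ℤ, Reg Irr x n → c.VU l t → Ext3 k j x n → Ext3 k j x (n + t) → (R x (n + t) ↔ R x n)

/-- an entry: a locally affine description of the local frequency -/
structure Entry where
  D : Filt ℤ
  bt : ℤ → ℤ → T
  Θ : Finset T

/-- the entry describes the points with `Y y`, whose parts are given by `prt` -/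
structure EntryOK (E : Entry) (i : Fin 3) (Y : ℤ → Prop) (prt : ℤ → ℕ) (l k j : ℕ)
    (p₁ p₃ : ℝ) : Prop where
  rank : (E.Θ.card : ℝ) ≤ p₁
  e1 : ∀ u u' z, E.D.mem (1 / 2) u → E.D.mem (1 / 2) u' → c.V l (2 ^ k) z →
    ‖E.bt (u + u') z - E.bt u z - E.bt u' z‖ ≤ c.q 1
  e2 : ∀ y y' z, Ext k j y → Ext k j y' → Y y → Y y' → E.D.mem 1 (y - y') → c.V l (2 ^ k) z →
    ‖c.fr i y z - c.fr i y' z - E.bt (y - y') z‖ ≤ c.q 1
  e3 : ∀ (a : ℝ) (u : ℤ), 0 ≤ a → InB E.Θ (a * exp (-p₁)) u → |(u : ℝ)| ≤ a * (c.Q * 2 ^ k) →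
    E.D.mem a u
  e5 : ∀ y y', Ext k j y → Ext k j y' → Y y → Y y' → prt y = prt y' →
    E.D.mem (exp (-p₃)) (y - y')

/-- the state of an epoch -/
structure St where
  asg : Fin 3 → ℤ → ℕ
  prt : Fin 3 → ℤ → ℕ
  Irr : Fin 3 → ℤ → Prop
  ent : Fin 3 → ℕ → Entry
  g : Fin 3 → ℕ

/-- number of updates -/
def St.gen (s : St) : ℕ := s.g 0 + s.g 1 + s.g 2

/-- the invariants of a state of level `l` on the node `(k, j)` -/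
structure StOK (s : St) (l k j : ℕ) (p p₁ p₃ : ℝ) : Prop where
  irr : c.IrrOK s.Irr k j ((s.gen + 1) * exp (-p₃))
  inv : ∀ i y t, ¬ s.Irr i y → c.U l t → Ext k j y → Ext k j (y + t) →
    s.asg i (y + t) = s.asg i y ∧ s.prt i (y + t) = s.prt i y
  asg_le : ∀ i y, (s.asg i y : ℝ) ≤ s.gen * exp p₁
  prt_le : ∀ i y, (s.prt i y : ℝ) ≤ exp (p₃ ^ 3)
  ent : ∀ i a, a ≠ 0 → c.EntryOK (s.ent i a) i (fun y => s.asg i y = a) (s.prt i) l k j p₁ p₃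
  cov : ∀ i (a : ℤ) (w : ℕ), Nk c.kb ≤ w → w ≤ 2 ^ k → (∀ y ∈ Ico a (a + w), Ext k j y) →
    s.g i / (32 * p) * w ≤ cnt (Ico a (a + w)) fun y => s.asg i y ≠ 0

/-- the next level -/
def nxt (l : ℕ) : ℕ := 2 * l + 8 + 2 * (2 * l + 7) * (c.Θ.card + 1)

end Cfg

open Cfg

/-- partial averages are bounded by a later envelope -/
def EnvStmt : Prop :=
  ∀ (c : Cfg) (P τ γ' : ℝ) (l ke je : ℕ) (Irr : Fin 3 → ℤ → Prop) (R : ℤ → ℤ → Prop), c.OK P →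
    exp (-P) ≤ γ' → l ≤ c.L → ke ≤ c.kt → c.IrrOK Irr ke je τ → c.RInv Irr R l ke je →
    ∀ x ∈ node ke je, ∀ k₀ k N, c.kb ≤ k₀ → k₀ ≤ k → k ≤ ke → lev k N →
      ‖c.PA R x N‖ ≤ 4 * c.Env l Irr R k₀ x / Nk k₀ + 100 * (τ + γ' + c.q 1)

/-- the pairs of one explained type -/
def TypeStmt : Prop :=
  ∃ C : ℕ, ∀ (c : Cfg) (p p₁ p₂ p₃ : ℝ) (s : St) (l ke je : ℕ) (a : Fin 3 → ℕ), c.OK p₃ →
    2 ≤ p₁ → p₁ ^ 2 ≤ p₂ → p₂ ^ C ≤ p₃ → (s.gen + 1) * exp (-p₃) ≤ exp (-p₂) →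
    2 * l + 4 ≤ c.L → ke ≤ c.kt → c.StOK s l ke je p p₁ p₃ → (∀ i, a i ≠ 0) →
    Ctl (Near (c.PA fun x n => ∀ i, s.asg i (y i x n) = a i) (C * exp (-p₂))) ke je c.kb
      (C * exp (-p₂) * 2 ^ ke) (exp (p₃ ^ 5) * (l + 1) * c.lq * 2 ^ ke)

/-- the pairs which the update has to explain -/
def EPair (c : Cfg) (l : ℕ) (N : ℝ) (x n : ℤ) : Prop :=
  (∀ i, c.Good i (y i x n)) ∧ c.Flat l N x n

/-- a popular class of quadratic parts -/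
def ClassStmt : Prop :=
  ∀ (c : Cfg) (P σ : ℝ) (l k j : ℕ) (i : Fin 3) (X : Finset (ℤ × ℤ)), c.OK P → exp (-P) ≤ σ →
    c.kb ≤ k → (∀ x ∈ X, (∃ x' ∈ node k j, x.1 = x') ∧ x.2 ∈ Icc (1 : ℤ) (Nk k) ∧
      EPair c l (Nk k) x.1 x.2) → σ * 2 ^ k * Nk k ≤ X.card →
    ∃ X' ⊆ X, σ ^ 2 / 1000 * 2 ^ k * Nk k ≤ X'.card ∧ ∃ y₀, c.Good i y₀ ∧ ∀ x ∈ X', ∀ t z,
      c.V (2 * l + 6) (Nk k) t → c.V (2 * l + 5) (Nk k) z →
      ‖(c.fr i (y i x.1 x.2 + t) z - c.fr i (y i x.1 x.2) z) -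
        (c.fr i (y₀ + t) z - c.fr i y₀ z)‖ ≤ 2 * c.q 3

/-- a raw entry: a dense set on which the local frequency is an approximate Freiman map -/
structure Raw (c : Cfg) (i : Fin 3) (l k : ℕ) (p₁ : ℝ) (A : Finset ℤ) (Θ' : Finset T) :
    Prop where
  big : exp (-p₁) * 2 ^ k ≤ A.card
  rank : (Θ'.card : ℝ) ≤ p₁
  good : ∀ y ∈ A, c.Good i y
  bog : ∀ u : ℤ, InB Θ' (exp (-p₁)) u → |(u : ℝ)| ≤ exp (-p₁) * 2 ^ k →
    ∃ a₁ ∈ A, ∃ a₂ ∈ A, ∃ a₃ ∈ A, ∃ a₄ ∈ A, u = a₁ + a₂ - a₃ - a₄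
  frei : ∀ (b : ℤ) (y y' t t' : Fin 6 → ℤ) (z : ℤ), c.Zl (2 * l + 5) (Nk k) b →
    (∀ m, y m ∈ A ∧ y' m ∈ A ∧ c.V (c.nxt l - 1) (Nk k) (t m) ∧ c.V (c.nxt l - 1) (Nk k) (t' m)) →
    ∑ m, (y m + t m) = ∑ m, (y' m + t' m) → c.V (4 * l + 12) (Nk k) z →
    ‖∑ m, c.fr i (y m + t m - b) z - ∑ m, c.fr i (y' m + t' m - b) z‖ ≤ c.q 1

/-- many flat pairs give a raw entry -/
def RawStmt : Prop :=
  ∃ C : ℕ, ∀ (c : Cfg) (p P : ℝ) (l k j : ℕ) (i : Fin 3) (X : Finset (ℤ × ℤ)), c.OK P → 2 ≤ p →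
    p ^ C ≤ P → c.kb ≤ k → (∀ x ∈ X, (∃ x' ∈ node k j, x.1 = x') ∧ x.2 ∈ Icc (1 : ℤ) (Nk k) ∧
      EPair c l (Nk k) x.1 x.2) → exp (-p) * 2 ^ k * Nk k ≤ X.card →
    ∃ (A : Finset ℤ) (Θ' : Finset T), (∀ a ∈ A, ∃ x ∈ X, a = y i x.1 x.2) ∧
      Raw c i l k (p ^ C) A Θ'

/-- the update of the state -/
def UpdStmt : Prop :=
  ∃ C : ℕ, ∀ (c : Cfg) (p p₁ p₃ : ℝ) (s : St) (l ke je k j : ℕ) (i : Fin 3), c.OK p₃ → 2 ≤ p →
    p ^ C ≤ p₁ → p₁ ^ 2 ≤ p₃ → c.nxt l ≤ c.L →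
    ke ≤ c.kt → c.StOK s l ke je p p₁ p₃ → c.kb ≤ k → k ≤ ke → j / 2 ^ (ke - k) = je →
    exp (-p) * 2 ^ k ≤ cnt (node k j)
      (fun x => Nk k / p ≤ c.Env l s.Irr (fun x n => s.asg i (y i x n) = 0) k x) →
    c.kb + 5 * c.nxt l * c.lq ≤ k → ∀ j', j' / 2 ^ (5 * c.nxt l * c.lq) = j →
    ∃ s' : St, s'.gen = s.gen + 1 ∧ c.StOK s' (c.nxt l) (k - 5 * c.nxt l * c.lq) j' p p₁ p₃

/-- control inside one regime -/
def EpochStmt : Prop :=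
  ∃ C : ℕ, ∀ (c : Cfg) (p : ℝ) (j : ℕ), 2 ≤ p → c.OK (p ^ C) →
    2 * c.nxt^[⌊96 * p⌋₊ + 1] 0 + 4 ≤ c.L →
    (∀ i, c.Win (fun y => ¬ c.Good i y) c.kt j (exp (-p ^ C))) →
    Ctl (Near (Ph c.φ) (100 / p)) c.kt j c.kb (1000 * p * exp (-p) * 2 ^ c.kt)
      (exp (p ^ (6 * C)) * (c.L + 1) * c.lq * 2 ^ c.kt)

end Pool.Agent.Tri
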