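import Pool.Agent.Lib.MP_9721b5_an.Tri.Basic

/-!
The dyadic tree: closure properties of `Ctl`, gluing, stopping.
-/

set_option autoImplicit false

open Finset

namespace Pool.Agent.Tri

lemma mem_node {k j x : ℕ} : x ∈ node k j ↔ x / 2 ^ k = j := by
  rw [node, mem_Ico, Nat.div_eq_iff (Nat.two_pow_pos k), add_mul, one_mul]
  have := Nat.two_pow_pos k
  omega

lemma card_node (k j : ℕ) : (node k j).card = 2 ^ k := by
  rw [node, Nat.card_Ico, add_mul, one_mul, Nat.add_sub_cancel_left]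

lemma div_pow_div (x : ℕ) {k m : ℕ} (h : k ≤ m) : x / 2 ^ k / 2 ^ (m - k) = x / 2 ^ m := by
  rw [Nat.div_div_eq_div_mul, ← pow_add, Nat.add_sub_cancel' h]

lemma node_subset {k j D i : ℕ} (h : k ≤ D) (hi : j / 2 ^ (D - k) = i) : node k j ⊆ node D i :=
  fun x hx => by
    rw [mem_node] at hx ⊢
    rw [← div_pow_div x h, hx, hi]

/-- a sum over a node splits along the nodes of a lower level -/
lemma sum_node_split (w : ℕ → ℝ) {k D : ℕ} (h : k ≤ D) (j : ℕ) :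
    ∑ x ∈ node D j, w x = ∑ i ∈ node (D - k) j, ∑ x ∈ node k i, w x := by
  rw [← sum_fiberwise_of_maps_to (s := node D j) (t := node (D - k) j) (g := fun x => x / 2 ^ k)
    (fun x hx => by rw [mem_node] at hx ⊢; rw [div_pow_div x h, hx])]
  refine sum_congr rfl fun i hi => sum_congr ?_ fun _ _ => rfl
  ext x
  rw [mem_filter, ← mem_node (k := k)]
  exact ⟨fun h => h.2, fun hx => ⟨node_subset h (mem_node.1 hi) hx, hx⟩⟩

lemma Tree.lev_le {k k' N N' : ℕ} (h : lev k N) (h' : lev k' N') (hN : N' ≤ N) : k' ≤ k := by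
  have h1 : 2 ^ k' < 2 ^ (k + 1) := by
    have := h.2
    have := h'.1
    rw [pow_succ]
    omega
  exact Nat.lt_succ_iff.1 ((Nat.pow_lt_pow_iff_right (by norm_num)).1 h1)

lemma lev_unique {k k' N : ℕ} (h : lev k N) (h' : lev k' N) : k = k' :=
  le_antisymm (Tree.lev_le h' h le_rfl) (Tree.lev_le h h' le_rfl)

lemma exists_lev {N : ℕ} (hN : 0 < N) : ∃ k, lev k N := by
  have h1 := Nat.pow_pred_clog_lt_self (b := 2) (by norm_num) (x := 16 * N) (by omega)
  have h2 := Nat.le_pow_clog (b := 2) (by norm_num) (16 * N)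
  have h3 : 0 < Nat.clog 2 (16 * N) := Nat.clog_pos (by norm_num) (by omega)
  refine ⟨Nat.clog 2 (16 * N), ?_, h2⟩
  obtain ⟨m, hm⟩ := Nat.exists_eq_succ_of_ne_zero h3.ne'
  rw [hm] at h1 ⊢
  rw [Nat.pred_succ] at h1
  rw [pow_succ]
  omega

lemma lev_mono {k k' N N' : ℕ} (h : lev k N) (h' : lev k' N') (hN : N' ≤ N) : k' ≤ k :=
  Tree.lev_le h h' hN

lemma adm_window {k x N : ℕ} (hx : adm k x) (hN : lev k N) {n : ℕ} (hn : n ≤ 3 * N) :
    (x + n) / 2 ^ k = x / 2 ^ k := by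
  have h1 := hN.2
  unfold adm at hx
  have h2 := Nat.div_add_mod x (2 ^ k)
  rw [Nat.div_eq_iff (Nat.two_pow_pos k), mul_comm]
  omega

namespace Tree

lemma cnt_false {α : Type*} (S : Finset α) : cnt S (fun _ => False) = 0 := by simp [cnt]

lemma mass_false (D j : ℕ) : mass D j (fun _ _ => False) = 0 := by simp [mass, cnt]

lemma mass_or (D j : ℕ) (C C' : ℕ → ℕ → Prop) :
    mass D j (fun k i => C k i ∨ C' k i) ≤ mass D j C + mass D j C' := by
  unfold mass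
  rw [← sum_add_distrib]
  exact sum_le_sum fun x _ => cnt_or_le _ _ _

lemma sum_node_const (k i : ℕ) (c : ℝ) : ∑ _x ∈ node k i, c = c * 2 ^ k := by
  rw [sum_const, card_node, nsmul_eq_mul]
  push_cast
  ring

open Classical in
lemma level_sum {D j l : ℕ} (hl : l ≤ D) (G : ℕ → Prop) (a w : ℕ → ℝ)
    (h : ∀ i, G i → ∑ x ∈ node l i, a x ≤ ∑ x ∈ node l i, w x) :
    ∑ x ∈ node D j, (if G (x / 2 ^ l) then a x else 0) ≤
      ∑ x ∈ node D j, (if G (x / 2 ^ l) then w x else 0) := by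
  rw [sum_node_split _ hl, sum_node_split _ hl]
  refine sum_le_sum fun i _ => ?_
  have key : ∀ b : ℕ → ℝ, ∑ x ∈ node l i, (if G (x / 2 ^ l) then b x else 0) =
      if G i then ∑ x ∈ node l i, b x else 0 := fun b => by
    rw [sum_congr rfl fun x hx => by rw [mem_node.1 hx]]
    split_ifs <;> simp
  rw [key, key]
  split_ifs with hG
  · exact h i hG
  · exact le_rfl

open Classical in
lemma stop_sum {D j : ℕ} (G : ℕ → ℕ → Prop) (l : ℕ → ℕ) (hl : ∀ k ≤ D, l k ≤ D)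
    (huniq : ∀ x k k', G k (x / 2 ^ l k) → G k' (x / 2 ^ l k') → k = k')
    (a : ℕ → ℕ → ℝ) (w : ℕ → ℝ) (hw : ∀ x, 0 ≤ w x)
    (h : ∀ k i, G k i → ∑ x ∈ node (l k) i, a k x ≤ ∑ x ∈ node (l k) i, w x) :
    ∑ x ∈ node D j, ∑ k ∈ range (D + 1), (if G k (x / 2 ^ l k) then a k x else 0) ≤
      ∑ x ∈ node D j, w x := by
  rw [sum_comm]
  refine (sum_le_sum fun k hk => level_sum (hl k (Nat.lt_succ_iff.1 (mem_range.1 hk))) (G k)
    (a k) w (h k)).trans ?_
  rw [sum_comm]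
  refine sum_le_sum fun x _ => ?_
  rw [← sum_filter, sum_const, nsmul_eq_mul]
  refine mul_le_of_le_one_left (hw x) ?_
  exact_mod_cast card_le_one.2 fun k hk k' hk' =>
    huniq x k k' (mem_filter.1 hk).2 (mem_filter.1 hk').2

lemma first_unique {St : ℕ → ℕ → Prop} {D j kb x k k' : ℕ} (h : First St D j kb k (x / 2 ^ k))
    (h' : First St D j kb k' (x / 2 ^ k')) : k = k' := by
  by_contra hne
  rcases lt_or_gt_of_ne hne with hlt | hlt
  · refine h.2.2.2.2 k' hlt h'.2.1 ?_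
    rw [div_pow_div x hlt.le]
    exact h'.2.2.2.1
  · refine h'.2.2.2.2 k hlt h.2.1 ?_
    rw [div_pow_div x hlt.le]
    exact h.2.2.2.1

lemma exists_first {St : ℕ → ℕ → Prop} {D j kb x m : ℕ} (hx : x ∈ node D j) (hm : kb ≤ m)
    (hmD : m ≤ D) (hS : St m (x / 2 ^ m)) : ∃ k, m ≤ k ∧ First St D j kb k (x / 2 ^ k) := by
  classical
  have h1 := Nat.le_findGreatest (P := fun m => St m (x / 2 ^ m)) hmD hS
  have h2 := Nat.findGreatest_le (P := fun m => St m (x / 2 ^ m)) D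
  refine ⟨_, h1, hm.trans h1, h2, ?_, Nat.findGreatest_spec (P := fun m => St m (x / 2 ^ m)) hmD hS,
    fun m' h3 h4 => ?_⟩
  · rw [div_pow_div x h2]
    exact mem_node.1 hx
  · rw [div_pow_div x h3.le]
    exact Nat.findGreatest_is_greatest (P := fun m => St m (x / 2 ^ m)) h3 h4

end Tree

open Pool.Agent.Tri.Tree

variable {R R' : ℕ → ℕ → ℕ → Prop} {D j kb : ℕ} {E E' K K' : ℝ}

lemma Ctl.mono (h : Ctl R D j kb E K) (hE : E ≤ E') (hK : K ≤ K') : Ctl R D j kb E' K' := by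
  obtain ⟨Exc, Chk, h1, h2, h3⟩ := h
  exact ⟨Exc, Chk, h1.trans hE, h2.trans hK, h3⟩

lemma Ctl.imp (h : Ctl R D j kb E K)
    (hR : ∀ x ∈ node D j, ∀ k' k, kb ≤ k' → k' ≤ k → k ≤ D → R x k' k → R' x k' k) :
    Ctl R' D j kb E K := by
  obtain ⟨Exc, Chk, h1, h2, h3⟩ := h
  exact ⟨Exc, Chk, h1, h2, fun x hx hE k' k a b c d =>
    hR x hx k' k a b c (h3 x hx hE k' k a b c d)⟩

lemma Ctl.and (h : Ctl R D j kb E K) (h' : Ctl R' D j kb E' K') :
    Ctl (fun x k' k => R x k' k ∧ R' x k' k) D j kb (E + E') (K + K') := by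
  obtain ⟨Exc, Chk, h1, h2, h3⟩ := h
  obtain ⟨Exc', Chk', h1', h2', h3'⟩ := h'
  refine ⟨fun x => Exc x ∨ Exc' x, fun k i => Chk k i ∨ Chk' k i,
    (cnt_or_le _ _ _).trans (add_le_add h1 h1'), (mass_or _ _ _ _).trans (add_le_add h2 h2'),
    fun x hx hE k' k a b c d => ⟨?_, ?_⟩⟩
  · exact h3 x hx (fun h => hE (Or.inl h)) k' k a b c fun m e f g => d m e f (Or.inl g)
  · exact h3' x hx (fun h => hE (Or.inr h)) k' k a b c fun m e f g => d m e f (Or.inr g)

lemma Ctl.all {ι : Type*} (I : Finset ι) (Rf : ι → ℕ → ℕ → ℕ → Prop) (Ef Kf : ι → ℝ)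
    (h : ∀ i ∈ I, Ctl (Rf i) D j kb (Ef i) (Kf i)) :
    Ctl (fun x k' k => ∀ i ∈ I, Rf i x k' k) D j kb (∑ i ∈ I, Ef i) (∑ i ∈ I, Kf i) := by
  classical
  induction I using Finset.induction_on with
  | empty =>
    exact ⟨fun _ => False, fun _ _ => False, by simp [cnt_false], by simp [mass_false],
      fun _ _ _ _ _ _ _ _ _ i hi => absurd hi (notMem_empty i)⟩
  | insert a I ha ih =>
    rw [sum_insert ha, sum_insert ha]
    refine ((h a (mem_insert_self a I)).and (ih fun i hi => h i (mem_insert_of_mem hi))).imp ?_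
    rintro x - k' k - - - ⟨h1, h2⟩ i hi
    rcases mem_insert.1 hi with rfl | hi
    · exact h1
    · exact h2 i hi

/-- everything is exceptional -/
lemma Ctl.dead (R : ℕ → ℕ → ℕ → Prop) (D j kb : ℕ) : Ctl R D j kb (2 ^ D) 0 :=
  ⟨fun _ => True, fun _ _ => False, (cnt_le_card _ _).trans (by rw [card_node]; simp),
    (mass_false D j).le, fun _ _ h => (h trivial).elim⟩

/-- only an exceptional set -/
lemma Ctl.of_exc (Exc : ℕ → Prop) (hE : cnt (node D j) Exc ≤ E)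
    (h : ∀ x ∈ node D j, ¬ Exc x → ∀ k' k, kb ≤ k' → k' ≤ k → k ≤ D → R x k' k) :
    Ctl R D j kb E 0 :=
  ⟨Exc, fun _ _ => False, hE, (mass_false D j).le, fun x hx hE k' k a b c _ =>
    h x hx hE k' k a b c⟩

/-- checkpoints on a set of levels -/
lemma Ctl.of_levels (Exc : ℕ → Prop) (hE : cnt (node D j) Exc ≤ E) (Lv : ℕ → Prop)
    (hK : cnt (range (D + 1)) Lv ≤ K)
    (h : ∀ x ∈ node D j, ¬ Exc x → ∀ k' k, kb ≤ k' → k' ≤ k → k ≤ D →
      (∀ m, k' ≤ m → m ≤ k → ¬ Lv m) → R x k' k) :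
    Ctl R D j kb E (K * 2 ^ D) := by
  refine ⟨Exc, fun k _ => Lv k, hE, ?_, fun x hx hE k' k a b c d => h x hx hE k' k a b c d⟩
  rw [← sum_node_const D j K]
  exact sum_le_sum fun _ _ => hK

/-- gluing along a stopping time, with a delay of `L` levels -/
theorem Ctl.glue (St : ℕ → ℕ → Prop) (L : ℕ) {E₀ K₀ K₁ : ℝ} (w : ℕ → ℝ) (hw : ∀ x, 0 ≤ w x)
    (hK₁ : 0 ≤ K₁)
    (above : Ctl (fun x k' k => (∀ m, k' ≤ m → m ≤ D → ¬ St m (x / 2 ^ m)) → R x k' k)
      D j kb E₀ K₀)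
    (below : ∀ k i, First St D j kb k i → kb + L ≤ k → ∀ i', i' / 2 ^ L = i →
      Ctl R (k - L) i' kb (∑ x ∈ node (k - L) i', w x) (K₁ * 2 ^ (k - L))) :
    Ctl R D j kb (E₀ + ∑ x ∈ node D j, w x) (K₀ + (L + 1 + K₁) * 2 ^ D) := by
  classical
  obtain ⟨Exc0, Chk0, hE0, hK0, h0⟩ := above
  set G : ℕ → ℕ → Prop := fun k i' => First St D j kb k (i' / 2 ^ L) ∧ kb + L ≤ k with hG
  have hsub : ∀ k i', ∃ (Exc : ℕ → Prop) (Chk : ℕ → ℕ → Prop), G k i' →
      cnt (node (k - L) i') Exc ≤ ∑ x ∈ node (k - L) i', w x ∧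
      mass (k - L) i' Chk ≤ K₁ * 2 ^ (k - L) ∧
      ∀ x ∈ node (k - L) i', ¬ Exc x → ∀ k' k'', kb ≤ k' → k' ≤ k'' → k'' ≤ k - L →
        NoChk Chk x k' k'' → R x k' k'' := by
    intro k i'
    by_cases hg : G k i'
    · obtain ⟨Exc, Chk, h⟩ := below k _ hg.1 hg.2 i' rfl
      exact ⟨Exc, Chk, fun _ => h⟩
    · exact ⟨fun _ => False, fun _ _ => False, fun h => (hg h).elim⟩
  choose ES CS hS using hsub
  have hGx : ∀ x k, G k (x / 2 ^ (k - L)) ↔ First St D j kb k (x / 2 ^ k) ∧ kb + L ≤ k := by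
    intro x k
    refine and_congr_left fun hk => ?_
    rw [Nat.div_div_eq_div_mul, ← pow_add, Nat.sub_add_cancel (by omega)]
  have huniq : ∀ x k k', G k (x / 2 ^ (k - L)) → G k' (x / 2 ^ (k' - L)) → k = k' :=
    fun x k k' h h' => first_unique ((hGx x k).1 h).1 ((hGx x k').1 h').1
  refine ⟨fun x => Exc0 x ∨ ∃ k ∈ range (D + 1), G k (x / 2 ^ (k - L)) ∧ ES k (x / 2 ^ (k - L)) x,
    fun m i => Chk0 m i ∨ ((∃ k, m ≤ k ∧ k ≤ m + L ∧ First St D j kb k (i / 2 ^ (k - m))) ∨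
      ∃ k ∈ range (D + 1), m ≤ k - L ∧ G k (i / 2 ^ (k - L - m)) ∧
        CS k (i / 2 ^ (k - L - m)) m i), ?_, ?_, ?_⟩
  · refine (cnt_or_le _ _ _).trans (add_le_add hE0 ((cnt_exists_le _ _ _).trans ?_))
    refine le_trans (le_of_eq ?_) (stop_sum (j := j) G (fun k => k - L) (fun k hk => by omega) huniq
      (fun k x => if ES k (x / 2 ^ (k - L)) x then 1 else 0) w hw fun k i hg => ?_)
    · rw [sum_comm]
      refine sum_congr rfl fun k _ => ?_
      rw [cnt_eq_sum]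
      refine sum_congr rfl fun x _ => ?_
      by_cases h1 : G k (x / 2 ^ (k - L)) <;> simp [h1]
    · refine le_trans (le_of_eq ?_) (hS k i hg).1
      rw [cnt_eq_sum]
      exact sum_congr rfl fun x hx => by rw [mem_node.1 hx]
  · refine (mass_or _ _ _ _).trans (add_le_add hK0 ((mass_or _ _ _ _).trans ?_))
    rw [add_mul]
    refine add_le_add ?_ ?_
    · rw [← sum_node_const D j]
      refine sum_le_sum fun x _ => ?_
      by_cases hex : ∃ k, First St D j kb k (x / 2 ^ k)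
      · obtain ⟨k, hk⟩ := hex
        refine (cnt_le_of_inj (S' := Icc (k - L) k) (Q := fun _ => True) id ?_
          fun _ _ _ _ _ _ h => h).trans ((cnt_le_card _ _).trans ?_)
        · rintro m - ⟨k', h1, h2, h3⟩
          rw [div_pow_div x h1] at h3
          obtain rfl := first_unique hk h3
          exact ⟨mem_Icc.2 ⟨by simp only [id]; omega, h1⟩, trivial⟩
        · rw [Nat.card_Icc]
          exact_mod_cast (by omega : k + 1 - (k - L) ≤ L + 1)
      · refine (cnt_mono (Q := fun _ => False) ?_).trans ?_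
        · rintro m - ⟨k', h1, h2, h3⟩
          rw [div_pow_div x h1] at h3
          exact hex ⟨k', h3⟩
        · rw [cnt_false]
          positivity
    · rw [← sum_node_const D j]
      refine le_trans (sum_le_sum fun x _ => (cnt_exists_le _ _ _).trans
        (sum_le_sum fun k _ => ?_)) (stop_sum (j := j) G (fun k => k - L) (fun k hk => by omega)
        huniq (fun k x => cnt (range (k - L + 1)) fun m => CS k (x / 2 ^ (k - L)) m (x / 2 ^ m))
        (fun _ => K₁) (fun _ => hK₁) fun k i hg => ?_)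
      · split_ifs with h1
        · refine cnt_le_of_inj id ?_ fun _ _ _ _ _ _ h => h
          rintro m - ⟨h2, -, h3⟩
          rw [div_pow_div x h2] at h3
          exact ⟨mem_range.2 (Nat.lt_succ_iff.2 h2), h3⟩
        · refine (cnt_mono (Q := fun _ => False) ?_).trans (cnt_false _).le
          rintro m - ⟨h2, h3, -⟩
          rw [div_pow_div x h2] at h3
          exact h1 h3
      · rw [sum_node_const]
        refine le_trans (le_of_eq ?_) (hS k i hg).2.1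
        exact sum_congr rfl fun x hx => by rw [mem_node.1 hx]
  · intro x hx hE k' k hk' hkk hkD hN
    by_cases hst : ∀ m, k' ≤ m → m ≤ D → ¬ St m (x / 2 ^ m)
    · exact h0 x hx (fun h => hE (Or.inl h)) k' k hk' hkk hkD
        (fun m a b c => hN m a b (Or.inl c)) hst
    · push Not at hst
      obtain ⟨m, hm1, hm2, hm3⟩ := hst
      obtain ⟨k₀, hk₀, hF⟩ := exists_first hx (hk'.trans hm1) hm2 hm3
      have hlt : k + L < k₀ := by
        by_contra hge
        refine hN (min k k₀) (by omega) (min_le_left _ _)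
          (Or.inr (Or.inl ⟨k₀, min_le_right _ _, by omega, ?_⟩))
        rwa [div_pow_div x (min_le_right _ _)]
      have hg : G k₀ (x / 2 ^ (k₀ - L)) := (hGx x k₀).2 ⟨hF, by omega⟩
      have hr : k₀ ∈ range (D + 1) := mem_range.2 (Nat.lt_succ_iff.2 hF.2.1)
      refine (hS k₀ _ hg).2.2 x (mem_node.2 rfl) (fun h => hE (Or.inr ⟨k₀, hr, hg, h⟩)) k' k hk'
        hkk (by omega) fun m a b c => hN m a b (Or.inr (Or.inr ⟨k₀, hr, by omega, ?_⟩))
      rw [div_pow_div x (by omega : m ≤ k₀ - L)]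
      exact ⟨hg, c⟩

/-- control on all nodes of a lower level -/
theorem Ctl.descend {k : ℕ} (hk : k ≤ D) {K₁ : ℝ} (w : ℕ → ℝ) (hw : ∀ x, 0 ≤ w x) (hK₁ : 0 ≤ K₁)
    (h : ∀ i, i / 2 ^ (D - k) = j → Ctl R k i kb (∑ x ∈ node k i, w x) (K₁ * 2 ^ k)) :
    Ctl R D j kb (∑ x ∈ node D j, w x) ((D - k + 1 + K₁) * 2 ^ D) := by
  have above : Ctl (fun x k' k'' => (∀ m, k' ≤ m → m ≤ D → ¬ m = k) → R x k' k'')
      D j kb 0 ((D - k : ℝ) * 2 ^ D) := by
    refine Ctl.of_levels (fun _ => False) (cnt_false _).le (fun m => k < m) ?_ ?_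
    · refine (cnt_le_of_inj (S' := Ioc k D) (Q := fun _ => True) id ?_
        fun _ _ _ _ _ _ h => h).trans ((cnt_le_card _ _).trans ?_)
      · intro m hm hkm
        exact ⟨mem_Ioc.2 ⟨hkm, Nat.lt_succ_iff.1 (mem_range.1 hm)⟩, trivial⟩
      · rw [Nat.card_Ioc, Nat.cast_sub hk]
    · intro x _ _ k' k'' _ h1 _ h2 h3
      exact (h3 k (h1.trans (not_lt.1 (h2 k'' h1 le_rfl))) hk rfl).elim
  refine (Ctl.glue (fun m _ => m = k) 0 w hw hK₁ above ?_).mono (by simp) (le_of_eq ?_)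
  · rintro k₀ i ⟨-, -, h1, rfl, -⟩ - i' rfl
    rw [pow_zero, Nat.div_one] at h1
    exact h i' h1
  · push_cast
    ring

/-- control above `kb` and on all nodes of a level below `kb` -/
theorem Ctl.stack {k kb' : ℕ} (hk : k < kb) (hkD : k ≤ D) {K₁ : ℝ} (w : ℕ → ℝ)
    (hw : ∀ x, 0 ≤ w x) (hK₁ : 0 ≤ K₁) (h₀ : Ctl R D j kb E K)
    (h : ∀ i, i / 2 ^ (D - k) = j → Ctl R k i kb' (∑ x ∈ node k i, w x) (K₁ * 2 ^ k)) :
    Ctl R D j kb' (E + ∑ x ∈ node D j, w x) (K + (kb - k + 1 + K₁) * 2 ^ D) := by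
  have a1 : Ctl (fun x k' k'' => kb ≤ k' → R x k' k'') D j kb' E K := by
    obtain ⟨Exc, Chk, h1, h2, h3⟩ := h₀
    exact ⟨Exc, Chk, h1, h2, fun x hx hE k' k'' _ b c d a => h3 x hx hE k' k'' a b c d⟩
  have a2 : Ctl (fun _ k' _ => ¬ (k < k' ∧ k' < kb)) D j kb' 0 ((kb - k : ℝ) * 2 ^ D) := by
    refine Ctl.of_levels (fun _ => False) (cnt_false _).le (fun m => k < m ∧ m < kb) ?_ ?_
    · refine (cnt_le_of_inj (S' := Ioc k kb) (Q := fun _ => True) id ?_
        fun _ _ _ _ _ _ h => h).trans ((cnt_le_card _ _).trans ?_)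
      · intro m _ hkm
        exact ⟨mem_Ioc.2 ⟨hkm.1, hkm.2.le⟩, trivial⟩
      · rw [Nat.card_Ioc, Nat.cast_sub hk.le]
    · intro x _ _ k' k'' _ h1 _ h2
      exact h2 k' le_rfl h1
  have above : Ctl (fun x k' k'' => (∀ m, k' ≤ m → m ≤ D → ¬ m = k) → R x k' k'')
      D j kb' (E + 0) (K + (kb - k : ℝ) * 2 ^ D) := by
    refine (a1.and a2).imp ?_
    rintro x - k' k'' - - - ⟨h1, h2⟩ h3
    refine h1 (not_lt.1 fun h4 => h2 ⟨not_le.1 fun h5 => h3 k h5 hkD rfl, h4⟩)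
  refine (Ctl.glue (fun m _ => m = k) 0 w hw hK₁ above ?_).mono (by simp) (le_of_eq ?_)
  · rintro k₀ i ⟨-, -, h1, rfl, -⟩ - i' rfl
    rw [pow_zero, Nat.div_one] at h1
    exact h i' h1
  · push_cast
    ring

/-- before the first node where `Big` is dense, most points have a later level without `Big` -/
theorem stop_exc (Big : ℕ → ℕ → Prop) (D j kb : ℕ) {σ : ℝ} (hσ : 0 ≤ σ) :
    ∃ Exc : ℕ → Prop, cnt (node D j) Exc ≤ 3 * σ * 2 ^ D ∧
      ∀ x ∈ node D j, ¬ Exc x → ∀ k, kb ≤ k → k ≤ D →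
        (∀ m, k ≤ m → m ≤ D → ¬ σ * 2 ^ m ≤ cnt (node m (x / 2 ^ m)) (Big m)) →
        ∃ k₀, kb ≤ k₀ ∧ k₀ ≤ k ∧ ¬ Big k₀ x := by
  classical
  set Dn : ℕ → ℕ → Prop := fun m i => σ * 2 ^ m ≤ cnt (node m i) (Big m) with hDn
  refine ⟨fun x => (∃ k ∈ range (D + 1), (First Dn D j kb k (x / 2 ^ k) ∧ k < D) ∧ Big (k + 1) x) ∨
    ∃ k ∈ range (D + 1), (k = kb ∧ ¬ Dn k (x / 2 ^ k)) ∧ Big k x, ?_, ?_⟩
  · refine (cnt_or_le _ _ _).trans ?_
    rw [show 3 * σ * 2 ^ D = 2 * σ * 2 ^ D + σ * 2 ^ D by ring]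
    refine add_le_add ((cnt_exists_le _ _ _).trans ?_) ((cnt_exists_le _ _ _).trans ?_)
    · rw [← sum_node_const D j]
      refine le_trans (le_of_eq ?_) (stop_sum (j := j) (fun k i => First Dn D j kb k i ∧ k < D)
        (fun k => k) (fun k hk => hk) (fun x k k' h h' => first_unique h.1 h'.1)
        (fun k x => if Big (k + 1) x then 1 else 0) (fun _ => 2 * σ) (fun _ => by positivity)
        fun k i hg => ?_)
      · rw [sum_comm]
        refine sum_congr rfl fun k _ => ?_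
        rw [cnt_eq_sum]
        refine sum_congr rfl fun x _ => ?_
        by_cases h1 : First Dn D j kb k (x / 2 ^ k) ∧ k < D <;> simp [h1]
      · have h1 := not_le.1 (hg.1.2.2.2.2 (k + 1) k.lt_succ_self hg.2)
        have h2 := cnt_subset (node_subset (j := i) k.le_succ rfl) (Big (k + 1))
        rw [sum_node_const, ← cnt_eq_sum]
        rw [pow_succ] at h1
        linarith
    · rw [← sum_node_const D j]
      refine le_trans (le_of_eq ?_) (stop_sum (j := j) (fun k i => k = kb ∧ ¬ Dn k i)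
        (fun k => k) (fun k hk => hk) (fun x k k' h h' => h.1.trans h'.1.symm)
        (fun k x => if Big k x then 1 else 0) (fun _ => σ) (fun _ => hσ) fun k i hg => ?_)
      · rw [sum_comm]
        refine sum_congr rfl fun k _ => ?_
        rw [cnt_eq_sum]
        refine sum_congr rfl fun x _ => ?_
        by_cases h1 : k = kb ∧ ¬ Dn k (x / 2 ^ k)
        · rw [if_pos h1]
          by_cases h2 : Big k x
          · rw [if_pos ⟨h1, h2⟩, if_pos h2]
          · rw [if_neg fun h => h2 h.2, if_neg h2]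
        · rw [if_neg h1, if_neg fun h => h1 h.1]
      · rw [sum_node_const, ← cnt_eq_sum]
        exact (not_le.1 hg.2).le
  · intro x hx hE k hk hkD hnd
    by_cases hex : ∃ m, kb ≤ m ∧ m ≤ D ∧ Dn m (x / 2 ^ m)
    · obtain ⟨m, h1, h2, h3⟩ := hex
      obtain ⟨k₀, -, hF⟩ := exists_first hx h1 h2 h3
      have hlt : k₀ < k := not_le.1 fun h => hnd k₀ h hF.2.1 hF.2.2.2.1
      exact ⟨k₀ + 1, hF.1.trans k₀.le_succ, hlt, fun hB => hE (Or.inl ⟨k₀,
        mem_range.2 (by omega), ⟨hF, by omega⟩, hB⟩)⟩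
    · exact ⟨kb, le_rfl, hk, fun hB => hE (Or.inr ⟨kb, mem_range.2 (by omega),
        ⟨rfl, fun h => hex ⟨kb, le_rfl, hk.trans hkD, h⟩⟩, hB⟩)⟩

/-- union bound over checkpoints -/
theorem cnt_chk_bad (Chk Bad : ℕ → ℕ → Prop) (D j : ℕ) {ρ : ℝ} (hρ : 0 ≤ ρ)
    (hB : ∀ k i, cnt (node k i) (Bad k) ≤ ρ * 2 ^ k) :
    cnt (node D j) (fun x => ∃ k ≤ D, Chk k (x / 2 ^ k) ∧ Bad k x) ≤ ρ * mass D j Chk := by
  classical
  refine (cnt_mono (Q := fun x => ∃ k ∈ range (D + 1), Chk k (x / 2 ^ k) ∧ Bad k x) ?_).trans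
    ((cnt_exists_le _ _ _).trans ?_)
  · rintro x - ⟨k, h1, h2⟩
    exact ⟨k, mem_range.2 (Nat.lt_succ_iff.2 h1), h2⟩
  · simp only [mass, cnt_eq_sum]
    rw [sum_comm (s := node D j), mul_sum]
    refine sum_le_sum fun k hk => ?_
    refine le_trans (le_of_eq ?_) ((level_sum (j := j) (Nat.lt_succ_iff.1 (mem_range.1 hk)) (Chk k)
      (fun x => if Bad k x then 1 else 0) (fun _ => ρ) fun i _ => ?_).trans (le_of_eq ?_))
    · refine sum_congr rfl fun x _ => ?_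
      by_cases h1 : Chk k (x / 2 ^ k) <;> simp [h1]
    · rw [sum_node_const, ← cnt_eq_sum]
      exact hB k i
    · rw [mul_sum]
      refine sum_congr rfl fun x _ => ?_
      split_ifs <;> simp

end Pool.Agent.Tri
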