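import Pool.Agent.Lib.MP_9721b5_an.Tri.EpochS
import Pool.Agent.Lib.MP_9721b5_an.Tri.Tree
import Pool.Agent.Lib.MP_9721b5_an.Tri.Tile

/-!
The jump inequality for three cellwise quadratic phases, from the control inside one regime.
-/

set_option autoImplicit false

open Finset Real

namespace Pool.Agent.Tri

open Cfg

namespace SMain

/-- the level map -/
def nx (d l : ℕ) : ℕ := 2 * l + 8 + 2 * (2 * l + 7) * (d + 1)

lemma nx_iter (d n : ℕ) : (nx d)^[n] 0 + 1 ≤ (23 * (d + 1)) ^ n := by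
  induction n with
  | zero => simp
  | succ n ih =>
    rw [Function.iterate_succ_apply', pow_succ]
    generalize (nx d)^[n] 0 = l at ih ⊢
    calc nx d l + 1 ≤ (l + 1) * (23 * (d + 1)) := by unfold nx; nlinarith
      _ ≤ _ := Nat.mul_le_mul_right _ ih

lemma ctl_zero (a : ℕ → ℕ → ℂ) (γ : ℝ) (i : ℕ) : Ctl (Near a γ) 0 i 0 0 0 := by
  refine Ctl.of_exc (fun _ => False) (Tree.cnt_false _).le ?_
  intro x _ _ k' k _ h1 h2 N' N hN' _
  obtain rfl : k' = 0 := by omega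
  have := hN'.1
  have := hN'.2
  omega

lemma ctl_top (R : ℕ → ℕ → ℕ → Prop) (D j : ℕ) : Ctl R D j (D + 1) 0 0 := by
  refine Ctl.of_exc (fun _ => False) (Tree.cnt_false _).le ?_
  intro x _ _ k' k h0 h1 h2
  omega

/-- stacking the regimes -/
lemma regimes (a : ℕ → ℕ → ℂ) (γ : ℝ) (rk : ℕ → ℕ) (hrk : Monotone rk) (G : ℕ) (K₀ : ℝ)
    (hK₀ : 0 ≤ K₀) (w : ℕ → ℝ) (hw : ∀ x, 0 ≤ w x)
    (h : ∀ b D j, rk b = rk D → b + G ≤ D →
      Ctl (Near a γ) D j (b + 5) (∑ x ∈ node D j, w x) (K₀ * 2 ^ D)) (D : ℕ) :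
    ∀ j, Ctl (Near a γ) D j 0 (∑ x ∈ node D j, (rk D + 1) * w x)
      ((rk D + 1) * (K₀ + G + 7) * 2 ^ D) := by
  classical
  induction D using Nat.strong_induction_on with
  | _ D ih =>
  intro j
  have hex : ∃ b, rk b = rk D := ⟨D, rfl⟩
  have hb := Nat.find_spec hex
  have hbD : Nat.find hex ≤ D := Nat.find_min' hex rfl
  have hmin : ∀ m, m < Nat.find hex → rk m + 1 ≤ rk D := fun m hm =>
    lt_of_le_of_ne (hrk (by omega)) (Nat.find_min hex hm)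
  generalize Nat.find hex = b at hb hbD hmin
  have hK : 0 ≤ K₀ + G + 7 := by positivity
  have hr0 : (0 : ℝ) ≤ rk D := Nat.cast_nonneg _
  have hlow : ∀ i, i / 2 ^ (D - (b - 1)) = j → Ctl (Near a γ) (b - 1) i 0
      (∑ x ∈ node (b - 1) i, rk D * w x) (rk D * (K₀ + G + 7) * 2 ^ (b - 1)) := by
    intro i _
    rcases Nat.eq_zero_or_pos b with rfl | hb0
    · exact (ctl_zero a γ i).mono (sum_nonneg fun x _ => mul_nonneg hr0 (hw x)) (by positivity)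
    · have h1 : ((rk (b - 1) : ℝ) + 1) ≤ rk D := by exact_mod_cast hmin (b - 1) (by omega)
      refine (ih (b - 1) (by omega) i).mono (sum_le_sum fun x _ => ?_) ?_
      · exact mul_le_mul_of_nonneg_right h1 (hw x)
      · gcongr
  have hsum : ∑ x ∈ node D j, w x + ∑ x ∈ node D j, rk D * w x =
      ∑ x ∈ node D j, (rk D + 1) * w x := by
    rw [← sum_add_distrib]
    exact sum_congr rfl fun x _ => by ring
  have hw0 : 0 ≤ ∑ x ∈ node D j, w x := sum_nonneg fun x _ => hw x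
  have h2 : (0 : ℝ) < 2 ^ D := by positivity
  have hb1 : (b : ℝ) - 1 ≤ ((b - 1 : ℕ) : ℝ) := by
    have : b ≤ (b - 1) + 1 := by omega
    have : (b : ℝ) ≤ ((b - 1 : ℕ) : ℝ) + 1 := by exact_mod_cast this
    linarith
  by_cases hc : b + G ≤ D
  · refine (Ctl.stack (k := b - 1) (by omega) (by omega) (fun x => rk D * w x)
      (fun x => mul_nonneg hr0 (hw x)) (by positivity) (h b D j hb hc) hlow).mono hsum.le ?_
    have hG : (0 : ℝ) ≤ G := Nat.cast_nonneg _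
    push_cast
    nlinarith
  · refine (Ctl.stack (k := b - 1) (by omega) (by omega) (fun x => rk D * w x)
      (fun x => mul_nonneg hr0 (hw x)) (by positivity) (ctl_top _ D j) hlow).mono
      (by linarith) ?_
    have hG : (D : ℝ) ≤ b + G := by exact_mod_cast (by omega : D ≤ b + G)
    push_cast
    nlinarith

/-- the fine shifts are syndetic inside a regime -/
lemma syn (c : Cfg) (hQ : 0 < c.Q) {b D Lt : ℕ} (hkb : c.kb = b + 5) (hkt : c.kt + Lt ≤ D)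
    (hLt : 5 + (c.Θ.card + 1) * (3 + (c.Θ.card + 2) + c.lq * (10 * c.L + 13)) ≤ Lt)
    (h : 1 ≤ (c.q (10 * c.L + 13) / (c.Θ.card + 2) / 8) ^ (c.Θ.card + 1) * 2 ^ D → ∀ τ : ℝ,
      |τ| ≤ (c.q (10 * c.L + 13) / (c.Θ.card + 2) / 8) ^ (c.Θ.card + 1) * 2 ^ D →
      ∃ w : ℤ, InB c.Θ ((c.Θ.card + 2) * (c.q (10 * c.L + 13) / (c.Θ.card + 2))) w ∧
        |(w : ℝ) - τ| ≤ (c.Θ.card + 1) * (c.q (10 * c.L + 13) / (c.Θ.card + 2)) * 2 ^ b) :
    c.Syn := by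
  intro τ hτ
  have hQ1 : (1 : ℝ) ≤ c.Q := by exact_mod_cast hQ
  set d := c.Θ.card with hd
  set A := 10 * c.L + 13 with hA
  have hd2 : (0 : ℝ) < d + 2 := by positivity
  have hqA : 0 < c.q A := by unfold q; positivity
  have h1 : (1 : ℝ) ≤ c.q A / (d + 2) / 8 * 2 ^ (3 + (d + 2) + c.lq * A) := by
    have a1 : (d : ℝ) + 2 ≤ 2 ^ (d + 2) := by exact_mod_cast (Nat.lt_two_pow_self (n := d + 2)).le
    have a2 : (c.Q : ℝ) ^ A ≤ 2 ^ (c.lq * A) := by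
      rw [pow_mul]
      exact pow_le_pow_left₀ (by positivity) (by exact_mod_cast c.Q_le_two_pow) A
    rw [pow_add, pow_add, q, div_div, div_mul_eq_mul_div, le_div_iff₀ (by positivity),
      inv_mul_eq_div, le_div_iff₀ (by positivity)]
    calc 1 * ((d + 2) * 8) * (c.Q : ℝ) ^ A = 8 * (d + 2) * (c.Q : ℝ) ^ A := by ring
      _ ≤ 8 * 2 ^ (d + 2) * 2 ^ (c.lq * A) := by gcongr
      _ = _ := by norm_num
  have h2 : 32 * (2 : ℝ) ^ c.kt ≤ (c.q A / (d + 2) / 8) ^ (d + 1) * 2 ^ D := by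
    have a1 := one_le_pow₀ (n := d + 1) h1
    rw [mul_pow, ← pow_mul] at a1
    have a2 : (2 : ℝ) ^ ((3 + (d + 2) + c.lq * A) * (d + 1)) * (32 * 2 ^ c.kt) ≤ 2 ^ D := by
      rw [show (32 : ℝ) = 2 ^ 5 by norm_num, ← pow_add, ← pow_add]
      refine pow_le_pow_right₀ one_le_two ?_
      rw [mul_comm]
      omega
    calc 32 * (2 : ℝ) ^ c.kt = 1 * (32 * 2 ^ c.kt) := (one_mul _).symm
      _ ≤ ((c.q A / (d + 2) / 8) ^ (d + 1) * 2 ^ ((3 + (d + 2) + c.lq * A) * (d + 1))) *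
          (32 * 2 ^ c.kt) := by gcongr
      _ ≤ _ := by
        rw [mul_assoc]
        gcongr
  have h3 : (1 : ℝ) ≤ 2 ^ c.kt := one_le_pow₀ one_le_two
  have hτ' : |(τ : ℝ)| ≤ 32 * 2 ^ c.kt := by exact_mod_cast hτ
  have hQB : (1 : ℝ) ≤ (c.Q : ℝ) ^ (5 * c.L + 8) := one_le_pow₀ hQ1
  obtain ⟨w, hw1, hw2⟩ := h (by linarith) (τ / (c.Q : ℝ) ^ (5 * c.L + 8)) (by
    rw [abs_div, abs_of_pos (by positivity : (0 : ℝ) < (c.Q : ℝ) ^ (5 * c.L + 8))]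
    exact (div_le_self (abs_nonneg _) hQB).trans (hτ'.trans h2))
  rw [mul_div_cancel₀ _ hd2.ne'] at hw1
  refine ⟨(c.Q : ℤ) ^ (5 * c.L + 8) * w, ⟨w, rfl, hw1⟩, ?_⟩
  have h4 : (((c.Q : ℤ) ^ (5 * c.L + 8) * w - τ : ℤ) : ℝ) =
      (c.Q : ℝ) ^ (5 * c.L + 8) * (w - τ / (c.Q : ℝ) ^ (5 * c.L + 8)) := by
    push_cast
    field_simp
  have h5 : ((Nk c.kb : ℕ) : ℝ) = 2 ^ b := by
    rw [hkb, Nk, pow_add]
    norm_num
  have h6 : ((d : ℝ) + 1) * (c.q A / (d + 2)) ≤ c.q A := by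
    rw [mul_div_assoc', div_le_iff₀ hd2]
    nlinarith
  have h7 : (c.Q : ℝ) ^ (5 * c.L + 8) * (c.Q : ℝ) ^ 2 * c.q A ≤ 1 := by
    rw [← pow_add, q, mul_inv_le_iff₀ (by positivity), one_mul]
    exact pow_le_pow_right₀ hQ1 (by omega)
  rw [h4, h5, abs_mul, abs_of_pos (by positivity : (0 : ℝ) < (c.Q : ℝ) ^ (5 * c.L + 8))]
  calc (c.Q : ℝ) ^ (5 * c.L + 8) * |w - τ / (c.Q : ℝ) ^ (5 * c.L + 8)| * (c.Q : ℝ) ^ 2
      ≤ (c.Q : ℝ) ^ (5 * c.L + 8) * (c.q A * 2 ^ b) * (c.Q : ℝ) ^ 2 := by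
        gcongr
        exact hw2.trans (by gcongr)
    _ = ((c.Q : ℝ) ^ (5 * c.L + 8) * (c.Q : ℝ) ^ 2 * c.q A) * 2 ^ b := by ring
    _ ≤ 1 * 2 ^ b := by gcongr
    _ = _ := one_mul _

/-- few non quadratic points in a node give few bad points in all windows -/
lemma win {c : Cfg} {P s₀ τ : ℝ} (h : c.OK P) (hs : 2 * c.q 1 ≤ s₀) (i : Fin 3)
    {j j' : ℕ} (hj : j' / 2 ^ 3 = j)
    (hc : cnt (node (c.kt + 3) j) (fun y => ¬ Quad (InB c.Θ s₀) (c.φ i) y) ≤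
      τ / 4 * 2 ^ (c.kt + 3)) : c.Win (fun y => ¬ c.Good i y) c.kt j' τ := by
  intro a w hw hE
  rcases Nat.eq_zero_or_pos w with rfl | hw0
  · simp [cnt]
  have e1 := hE a (mem_Ico.2 ⟨le_rfl, by omega⟩)
  have e2 := hE (a + w - 1) (mem_Ico.2 ⟨by omega, by omega⟩)
  unfold Cfg.Ext at e1 e2
  have hM : (0 : ℤ) < 2 ^ c.kt := by positivity
  have hj1 : 8 * (j : ℤ) ≤ j' := by omega
  have hj2 : (j' : ℤ) ≤ 8 * j + 7 := by omega
  have hp : ((2 ^ (c.kt + 3) : ℕ) : ℤ) = 8 * 2 ^ c.kt := by push_cast; ring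
  have m1 := mul_le_mul_of_nonneg_right hj1 hM.le
  have m2 := mul_le_mul_of_nonneg_right hj2 hM.le
  have h1 := h.pack (a := a) (a₀ := (j : ℤ) * (2 ^ (c.kt + 3) : ℕ)) (w := w)
    (w₀ := 2 ^ (c.kt + 3)) (X := fun y => ¬ c.Good i y)
    (X' := fun y => ¬ Quad (InB c.Θ s₀) (c.φ i) y) hw
    (Or.inl (by
      have : (2 * w : ℤ) ≤ ((2 ^ (c.kt + 3) : ℕ) : ℤ) := by rw [hp]; nlinarith [e1.1, e2.2]
      exact_mod_cast this))
    (by
      rw [hp]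
      have : |(j : ℤ) * (8 * 2 ^ c.kt) - a| ≤ 10 * 2 ^ c.kt :=
        abs_le.2 ⟨by nlinarith [e1.2], by nlinarith [e1.1]⟩
      linarith)
    (by
      intro y _ z hz hy _ hq
      refine hy ?_
      have h2 := hq.shift (s' := c.q 1) (h.Fine_inB hz).neg (c.q_nonneg 5)
        (by linarith [h.q_anti (show 1 ≤ 5 by norm_num)])
      rwa [add_neg_cancel_right] at h2)
  have h2 : cnt (Ico ((j : ℤ) * (2 ^ (c.kt + 3) : ℕ)) ((j : ℤ) * (2 ^ (c.kt + 3) : ℕ) +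
      (2 ^ (c.kt + 3) : ℕ))) (fun y => ¬ Quad (InB c.Θ s₀) (c.φ i) y) ≤
      cnt (node (c.kt + 3) j) (fun y => ¬ Quad (InB c.Θ s₀) (c.φ i) y) := by
    refine cnt_le_of_inj Int.toNat (fun x hx hq => ?_) fun x hx y hy _ _ hxy => ?_
    · rw [mem_Ico] at hx
      have h0 : 0 ≤ x := le_trans (by positivity) hx.1
      obtain ⟨n, rfl⟩ := Int.eq_ofNat_of_zero_le h0
      refine ⟨?_, by simpa using hq⟩
      rw [Int.toNat_natCast, node, mem_Ico, add_mul, one_mul]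
      exact_mod_cast hx
    · rw [mem_Ico] at hx hy
      have h0 : 0 ≤ x := le_trans (by positivity) hx.1
      have h0' : 0 ≤ y := le_trans (by positivity) hy.1
      omega
  have h3 : (0 : ℝ) < 2 ^ (c.kt + 3) := by positivity
  push_cast at h1 h2
  refine le_of_mul_le_mul_right (h1.trans ?_) h3
  calc 4 * (w : ℝ) * _ ≤ 4 * w * (τ / 4 * 2 ^ (c.kt + 3)) := by
        gcongr
        exact h2.trans hc
    _ = _ := by ring

open Classical in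
/-- the weight -/
noncomputable def wt (Θ : Finset T) (s₀ : ℝ) (φ : Fin 3 → ℤ → T) (e₀ B : ℝ) (x : ℕ) : ℝ :=
  e₀ + B * ∑ i, if ¬ Quad (InB Θ s₀) (φ i) x then 1 else 0

lemma wt_nonneg (Θ : Finset T) (s₀ : ℝ) (φ : Fin 3 → ℤ → T) {e₀ B : ℝ} (h : 0 ≤ e₀)
    (h' : 0 ≤ B) (x : ℕ) : 0 ≤ wt Θ s₀ φ e₀ B x := by
  unfold wt
  have : (0 : ℝ) ≤ ∑ i, open Classical in if ¬ Quad (InB Θ s₀) (φ i) x then 1 else 0 :=
    sum_nonneg fun i _ => by split_ifs <;> norm_num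
  positivity

lemma sum_wt (Θ : Finset T) (s₀ : ℝ) (φ : Fin 3 → ℤ → T) (e₀ B : ℝ) (k j : ℕ) :
    ∑ x ∈ node k j, wt Θ s₀ φ e₀ B x =
      e₀ * 2 ^ k + B * ∑ i, cnt (node k j) (fun y => ¬ Quad (InB Θ s₀) (φ i) y) := by
  unfold wt
  rw [sum_add_distrib, Tree.sum_node_const, ← mul_sum, sum_comm]
  simp only [cnt_eq_sum]
  congr!

/-- one regime -/
lemma one {c : Cfg} {P s₀ e₀ K γ : ℝ} (h : c.OK P) (hs : 2 * c.q 1 ≤ s₀) (he : 0 ≤ e₀)
    (hK : 0 ≤ K) {D Lt : ℕ} (hD : D = c.kt + 3 + Lt)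
    (hE : ∀ j, (∀ i, c.Win (fun y => ¬ c.Good i y) c.kt j (exp (-P))) →
      Ctl (Near (Ph c.φ) γ) c.kt j c.kb (e₀ * 2 ^ c.kt) (K * 2 ^ c.kt)) (j : ℕ) :
    Ctl (Near (Ph c.φ) γ) D j c.kb (∑ x ∈ node D j, wt c.Θ s₀ c.φ e₀ (4 * exp P) x)
      ((Lt + 5 + K) * 2 ^ D) := by
  refine (Ctl.descend (k := c.kt + 3) (K₁ := 4 + K) (by omega) _
    (wt_nonneg _ _ _ he (by positivity)) (by positivity) fun i _ => ?_).mono le_rfl ?_
  swap
  · rw [hD]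
    push_cast
    exact le_of_eq (by ring)
  have hc0 : ∀ i', 0 ≤ cnt (node (c.kt + 3) i) (fun y => ¬ Quad (InB c.Θ s₀) (c.φ i') y) :=
    fun i' => cnt_nonneg _ _
  have h2 : (0 : ℝ) < 2 ^ (c.kt + 3) := by positivity
  rw [sum_wt]
  by_cases hc : ∀ i', cnt (node (c.kt + 3) i) (fun y => ¬ Quad (InB c.Θ s₀) (c.φ i') y) ≤
      exp (-P) / 4 * 2 ^ (c.kt + 3)
  · refine (Ctl.descend (k := c.kt) (K₁ := K) (by omega) (fun _ => e₀) (fun _ => he) hK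
      fun i' hi' => ?_).mono ?_ ?_
    · rw [Tree.sum_node_const]
      refine hE i' fun i'' => win h hs i'' ?_ (hc i'')
      rwa [Nat.add_sub_cancel_left] at hi'
    · rw [Tree.sum_node_const]
      have := sum_nonneg fun i' (_ : i' ∈ univ) => hc0 i'
      have := exp_pos P
      exact le_add_of_nonneg_right (by positivity)
    · push_cast
      exact le_of_eq (by ring)
  · push Not at hc
    obtain ⟨i', hi'⟩ := hc
    refine (Ctl.dead _ _ _ _).mono ?_ (by positivity)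
    have h3 := single_le_sum (fun i' (_ : i' ∈ univ) => hc0 i') (mem_univ i')
    have h4 : 4 * exp P * (exp (-P) / 4 * 2 ^ (c.kt + 3)) = 2 ^ (c.kt + 3) := by
      rw [exp_neg]
      field_simp
    have h5 := mul_le_mul_of_nonneg_left (hi'.le.trans h3) (show 0 ≤ 4 * exp P by positivity)
    have h6 : 0 ≤ e₀ * 2 ^ (c.kt + 3) := by positivity
    linarith

lemma num_K {Y X d L lq : ℝ} (hY : 1000 ≤ Y) (hX : 1 ≤ X) (hd0 : 0 ≤ d) (hd : d ≤ Y)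
    (hL0 : 0 ≤ L) (hL : L + 1 ≤ 5 * Y) (hq0 : 0 ≤ lq) (hq : lq ≤ 4 * Y ^ 2) :
    (d + 2) * (2 * (5 + (d + 1) * (3 + (d + 2) + lq * (10 * L + 13))) + 20 + X * (L + 1) * lq) ≤
      X * Y ^ 7 := by
  have hY0 : 0 ≤ Y := by linarith
  have y1 : Y ≤ Y ^ 3 := le_self_pow₀ (by linarith) (by norm_num)
  have h1 : lq * (10 * L + 13) ≤ 4 * Y ^ 2 * (65 * Y) := by
    gcongr
    linarith
  have h2 : (d + 1) * (3 + (d + 2) + lq * (10 * L + 13)) ≤ (2 * Y) * (262 * Y ^ 3) := by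
    gcongr
    · linarith
    · nlinarith
  have h3 : X * (L + 1) * lq ≤ X * (5 * Y) * (4 * Y ^ 2) := by gcongr
  have y3 : Y ^ 3 ≤ Y ^ 4 := pow_le_pow_right₀ (by linarith) (by norm_num)
  have y4 : 1 ≤ Y ^ 4 := one_le_pow₀ (by linarith)
  have h4 : 2 * (5 + (d + 1) * (3 + (d + 2) + lq * (10 * L + 13))) + 20 + X * (L + 1) * lq ≤
      X * (1100 * Y ^ 4) := by nlinarith
  have h5 : (2 * Y) * (1100 * Y ^ 4) ≤ Y ^ 7 := by
    have : 2200 ≤ Y ^ 2 := by nlinarith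
    calc (2 * Y) * (1100 * Y ^ 4) = 2200 * Y ^ 5 := by ring
      _ ≤ Y ^ 2 * Y ^ 5 := by gcongr
      _ = Y ^ 7 := by ring
  calc _ ≤ (2 * Y) * (X * (1100 * Y ^ 4)) := by
        gcongr
        linarith
    _ = X * ((2 * Y) * (1100 * Y ^ 4)) := by ring
    _ ≤ _ := by gcongr

lemma num_E {p₀ P Z d : ℝ} (hp : 2 ≤ p₀) (hd : d ≤ exp p₀) (hZ : P + 200 * p₀ ^ 2 ≤ Z) :
    (d + 2) * (1000 * (200 * p₀ ^ 2) * exp (-(200 * p₀ ^ 2)) + 4 * exp P * (3 * exp (-Z))) ≤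
      1 / p₀ := by
  have h0 : p₀ + 1 ≤ exp p₀ := add_one_le_exp p₀
  have h1 : exp P * exp (-Z) ≤ exp (-(200 * p₀ ^ 2)) := by
    rw [← exp_add]
    exact exp_le_exp.2 (by linarith)
  set y := exp p₀ with hy
  have h2 : y ^ 20 * exp (-(200 * p₀ ^ 2)) ≤ 1 := by
    rw [hy, ← exp_nat_mul, ← exp_add]
    refine exp_le_one_iff.2 ?_
    push_cast
    nlinarith
  have h3 : (0 : ℝ) < exp (-(200 * p₀ ^ 2)) := exp_pos _
  have h4 : p₀ ^ 2 ≤ y ^ 2 := by gcongr; linarith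
  have h5 : 3 ^ 16 ≤ y ^ 16 := by gcongr; linarith
  have h6 : 1 ≤ y ^ 2 := one_le_pow₀ (by linarith)
  rw [le_div_iff₀ (by linarith)]
  calc _ ≤ (2 * y) * (200012 * y ^ 2 * exp (-(200 * p₀ ^ 2))) * y := by
        gcongr
        · linarith
        · nlinarith
        · linarith
    _ = 400024 * y ^ 4 * exp (-(200 * p₀ ^ 2)) := by ring
    _ ≤ y ^ 16 * y ^ 4 * exp (-(200 * p₀ ^ 2)) := by
        gcongr
        linarith
    _ ≤ 1 := by rw [← pow_add]; exact h2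

lemma exists_Q {p₀ Y s₀ : ℝ} (hY1 : 1000 ≤ Y) (hY2 : exp p₀ + 2 ≤ Y) (hs₀ : exp (-exp p₀) ≤ s₀) :
    ∃ Q : ℕ, 0 < Q ∧ (∀ i : ℕ, 0 < i → (i : ℝ) ≤ Y → i ∣ Q) ∧ 2 * ((Q : ℝ) ^ 1)⁻¹ ≤ s₀ ∧
      (Nat.clog 2 Q : ℝ) ≤ 4 * Y ^ 2 := by
  have hm1 : Y ≤ ⌈Y⌉₊ := Nat.le_ceil Y
  have hm2 : (⌈Y⌉₊ : ℝ) ≤ 2 * Y := by linarith [(Nat.ceil_lt_add_one (by linarith : 0 ≤ Y)).le]
  generalize ⌈Y⌉₊ = m at hm1 hm2
  have hQ0 : 0 < m.factorial := Nat.factorial_pos m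
  refine ⟨m.factorial, hQ0, fun i hi hi' => Nat.dvd_factorial hi (by exact_mod_cast hi'.trans hm1),
    le_trans ?_ hs₀, ?_⟩
  · have h1 : 2 ≤ m := by exact_mod_cast (show (2 : ℝ) ≤ m by linarith)
    obtain ⟨n, hn⟩ := Nat.exists_eq_add_of_le h1
    have h2 : ((2 * 3 ^ n : ℕ) : ℝ) ≤ m.factorial := by
      have := Nat.factorial_mul_pow_le_factorial (m := 2) (n := n)
      rw [hn]
      exact_mod_cast this
    have h3 : exp p₀ ≤ n := by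
      have : (m : ℝ) = 2 + n := by rw [hn]; push_cast; ring
      linarith
    have h4 : exp (exp p₀) ≤ 3 ^ n := by
      refine (exp_le_exp.2 h3).trans ?_
      rw [← exp_one_pow]
      gcongr
      linarith [exp_one_lt_d9]
    push_cast at h2
    rw [pow_one, exp_neg, ← div_eq_mul_inv, div_le_iff₀ (by positivity), inv_mul_eq_div,
      le_div_iff₀ (exp_pos _)]
    linarith
  · have h1 : Nat.clog 2 m.factorial ≤ m * m := by
      refine Nat.clog_le_of_le_pow ?_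
      calc m.factorial ≤ m ^ m := Nat.factorial_le_pow m
        _ ≤ (2 ^ m) ^ m := Nat.pow_le_pow_left Nat.lt_two_pow_self.le m
        _ = _ := by rw [← pow_mul]
    calc (Nat.clog 2 m.factorial : ℝ) ≤ m * m := by exact_mod_cast h1
      _ ≤ (2 * Y) * (2 * Y) := by gcongr
      _ = _ := by ring

lemma L_le {p₀ p : ℝ} {d : ℕ} (hp₀ : 2 ≤ p₀) (hp : 400 * p₀ ≤ p) (hd : (d : ℝ) ≤ exp p₀) :
    ((2 * (nx d)^[⌊96 * p⌋₊ + 1] 0 + 4 : ℕ) : ℝ) + 1 ≤ 5 * exp (p ^ 2) := by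
  have h1 : (((nx d)^[⌊96 * p⌋₊ + 1] 0 : ℕ) : ℝ) + 1 ≤
      (23 * (d + 1)) ^ (⌊96 * p⌋₊ + 1) := by exact_mod_cast nx_iter d _
  have h2 : 23 * ((d : ℝ) + 1) ≤ exp (4 * p₀) := by
    have h3 : exp (4 * p₀) = exp p₀ ^ 4 := by rw [← exp_nat_mul]; norm_num
    have h7 : exp (2 : ℝ) ≤ exp p₀ := exp_le_exp.2 hp₀
    have h8 : (4 : ℝ) ≤ exp 2 := by
      have : exp (2 : ℝ) = exp 1 ^ 2 := by rw [← exp_nat_mul]; norm_num
      nlinarith [exp_one_gt_d9]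
    have h9 : (4 : ℝ) ^ 3 ≤ exp p₀ ^ 3 := by gcongr; linarith
    rw [h3, pow_succ]
    nlinarith
  have h3 : (23 * ((d : ℝ) + 1)) ^ (⌊96 * p⌋₊ + 1) ≤ exp (p ^ 2) := by
    calc _ ≤ exp (4 * p₀) ^ (⌊96 * p⌋₊ + 1) := by gcongr
      _ = exp ((⌊96 * p⌋₊ + 1 : ℕ) * (4 * p₀)) := by rw [exp_nat_mul]
      _ ≤ _ := by
        refine exp_le_exp.2 ?_
        have h4 : ((⌊96 * p⌋₊ + 1 : ℕ) : ℝ) ≤ 97 * p := by
          push_cast
          linarith [Nat.floor_le (show 0 ≤ 96 * p by linarith)]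
        calc _ ≤ (97 * p) * (4 * p₀) := by gcongr
          _ ≤ p ^ 2 := by nlinarith
  have h4 : (0 : ℝ) ≤ (((nx d)^[⌊96 * p⌋₊ + 1] 0 : ℕ) : ℝ) := Nat.cast_nonneg _
  push_cast
  linarith

end SMain

open SMain in
theorem smain (hE : EpochStmt1) (hR : RegimeStmt) : SStmt := by
  obtain ⟨C, hC, hE⟩ := hE
  refine ⟨70 * C, fun p₀ hp₀ Θ s₀ φ D j hΘ hs₀ hq => ?_⟩
  obtain ⟨p, hp⟩ : ∃ p, p = 200 * p₀ ^ 2 := ⟨_, rfl⟩
  have hp1 : 400 * p₀ ≤ p := by nlinarith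
  obtain ⟨P, hP⟩ : ∃ P, P = p ^ C := ⟨_, rfl⟩
  have hpP : p ≤ P := hP ▸ le_self_pow₀ (by linarith) (by omega)
  have hp0 : 0 < p := by linarith
  have hP7 : P ^ 7 ≤ p₀ ^ (70 * C) := by
    have h1 : p ≤ p₀ ^ 10 := by
      have : (2 : ℝ) ^ 8 ≤ p₀ ^ 8 := by gcongr
      calc p ≤ p₀ ^ 8 * p₀ ^ 2 := by rw [hp]; gcongr; linarith
        _ = _ := by ring
    calc P ^ 7 ≤ ((p₀ ^ 10) ^ C) ^ 7 := by rw [hP]; gcongr
      _ = _ := by rw [← pow_mul, ← pow_mul]; congr 1; ring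
  have hP6 : p ^ (6 * C) = P ^ 6 := by rw [mul_comm, pow_mul, hP]
  have hP1 : (800 : ℝ) ≤ P := by linarith
  have hP2 : 800 * P ≤ P ^ 2 := by nlinarith
  have hP5 : P ^ 2 ≤ P ^ 5 := pow_le_pow_right₀ (by linarith) (by norm_num)
  have hY1 : 1000 ≤ exp (P ^ 5) := by linarith [add_one_le_exp (P ^ 5)]
  have hY2 : exp p₀ + 2 ≤ exp (P ^ 5) := by
    have h1 : exp (p₀ + 2) ≤ exp (P ^ 5) := exp_le_exp.2 (by linarith)
    rw [exp_add] at h1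
    nlinarith [add_one_le_exp (2 : ℝ), add_one_le_exp p₀]
  obtain ⟨Q, hQ0, hdvd, hs, hlq⟩ := exists_Q hY1 hY2 hs₀
  have hQ1 : (1 : ℝ) ≤ Q := by exact_mod_cast hQ0
  obtain ⟨L, hL, hL1⟩ : ∃ L : ℕ, 2 * (nx Θ.card)^[⌊96 * p⌋₊ + 1] 0 + 4 ≤ L ∧
      (L : ℝ) + 1 ≤ 5 * exp (P ^ 5) := by
    refine ⟨_, le_rfl, (L_le hp₀ hp1 hΘ).trans ?_⟩
    have : p ^ 2 ≤ P ^ 2 := by gcongr
    gcongr
    linarith
  obtain ⟨rk, hrk, hrk1, hrk2⟩ := hR Θ (((Q : ℝ) ^ (10 * L + 13))⁻¹ / (Θ.card + 2))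
    (by positivity) (by
      have h1 : ((Q : ℝ) ^ (10 * L + 13))⁻¹ ≤ 1 := inv_le_one_of_one_le₀ (one_le_pow₀ hQ1)
      rw [div_le_iff₀ (by positivity)]
      linarith [(Nat.cast_nonneg Θ.card : (0 : ℝ) ≤ _)])
  obtain ⟨Lt, hLt⟩ : ∃ Lt,
    Lt = 5 + (Θ.card + 1) * (3 + (Θ.card + 2) + Nat.clog 2 Q * (10 * L + 13)) := ⟨_, rfl⟩
  have he : 0 ≤ 1000 * p * exp (-p) := by positivity
  have hKE : 0 ≤ exp (P ^ 6) * (L + 1) * Nat.clog 2 Q := by positivity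
  have hmain := regimes (Ph φ) (100 / p) rk hrk (Lt + 8)
    (Lt + 5 + exp (P ^ 6) * (L + 1) * Nat.clog 2 Q) (by positivity)
    (wt Θ s₀ φ (1000 * p * exp (-p)) (4 * exp P)) (wt_nonneg _ _ _ he (by positivity))
    (fun b D' j' hb hD' => by
      have hok : Cfg.OK ⟨Θ, φ, Q, b + 5, D' - Lt - 3, L⟩ P :=
        { two_le := by linarith
          pos := hQ0
          dvd := hdvd
          rank := hΘ.trans (exp_le_exp.2 (by linarith))
          syn := syn _ hQ0 (b := b) (D := D') (Lt := Lt) rfl (by simp only; omega) hLt.ge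
            (hrk2 b D' (by omega) hb) }
      refine one (Lt := Lt) hok hs he hKE (by simp only; omega) (fun j'' hw => ?_) j'
      rw [← hP6]
      exact hE _ p j'' (by linarith) (hP ▸ hok) hL (hP ▸ hw)) D j
  have hd2 : (rk D : ℝ) + 1 ≤ Θ.card + 2 := by
    have : (rk D : ℝ) ≤ Θ.card + 1 := by exact_mod_cast hrk1 D
    linarith
  have h2D : (0 : ℝ) < 2 ^ D := by positivity
  refine (hmain.mono ?_ ?_).imp ?_
  · rw [← mul_sum, sum_wt]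
    have h1 : ∑ i, cnt (node D j) (fun y => ¬ Quad (InB Θ s₀) (φ i) y) ≤
        3 * (exp (-p₀ ^ (70 * C)) * 2 ^ D) := by
      refine (sum_le_sum fun i _ => hq i).trans ?_
      simp
    have h2 := num_E (P := P) (Z := p₀ ^ (70 * C)) hp₀ hΘ (by
      have : P ^ 2 ≤ P ^ 7 := pow_le_pow_right₀ (by linarith) (by norm_num)
      linarith)
    rw [← hp] at h2
    calc _ ≤ (Θ.card + 2) * (1000 * p * exp (-p) * 2 ^ D +
          4 * exp P * (3 * (exp (-p₀ ^ (70 * C)) * 2 ^ D))) := by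
          gcongr
          exact add_nonneg (by positivity) (mul_nonneg (by positivity)
            (sum_nonneg fun i _ => cnt_nonneg _ _))
      _ = (Θ.card + 2) * (1000 * p * exp (-p) + 4 * exp P * (3 * exp (-p₀ ^ (70 * C)))) *
          2 ^ D := by ring
      _ ≤ 1 / p₀ * 2 ^ D := by gcongr
      _ = _ := by ring
  · have h1 := num_K (X := exp (P ^ 6)) (d := Θ.card) (L := L) (lq := Nat.clog 2 Q) hY1
      (one_le_exp (by positivity)) (Nat.cast_nonneg _) (by linarith) (Nat.cast_nonneg _) hL1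
      (Nat.cast_nonneg _) hlq
    have h2 : exp (P ^ 6) * exp (P ^ 5) ^ 7 ≤ exp (p₀ ^ (70 * C)) := by
      rw [← exp_nat_mul, ← exp_add]
      refine exp_le_exp.2 (le_trans ?_ hP7)
      have h3 : 0 ≤ P ^ 5 := by positivity
      calc P ^ 6 + (7 : ℕ) * P ^ 5 = (P + 7) * P ^ 5 := by push_cast; ring
        _ ≤ P ^ 2 * P ^ 5 := by gcongr; linarith
        _ = _ := by ring
    refine mul_le_mul_of_nonneg_right (le_trans ?_ (h1.trans h2)) h2D.le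
    refine (mul_le_mul_of_nonneg_right hd2 (by positivity)).trans (le_of_eq ?_)
    rw [hLt]
    push_cast
    ring
  · intro x _ k' k _ _ _ hN N' N h1 h2
    refine (hN N' N h1 h2).trans ?_
    rw [div_le_div_iff₀ (by linarith) (by linarith)]
    linarith

end Pool.Agent.Tri
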