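import Pool.Agent.Lib.MP_9721b5_an.Tri.Tree
import Pool.Agent.Lib.MP_9721b5_an.Tri.Stmts

/-!
The chaining: from one level to the finitary oscillation inequality.
-/

set_option autoImplicit false

open Finset Real

namespace Pool.Agent.Tri

namespace Tele

lemma div_of_not_adm {m x : ℕ} (h : ¬ adm (m + 1) x) : x / 2 ^ m = 2 * (x / 2 ^ (m + 1)) + 1 := by
  unfold adm at h
  have h1 := Nat.mod_pow_succ (b := 2) (k := m) (x := x)
  have h2 := Nat.mod_lt x (Nat.two_pow_pos m)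
  have h3 : x / 2 ^ (m + 1) = x / 2 ^ m / 2 := by rw [Nat.div_div_eq_div_mul, pow_succ]
  rcases Nat.mod_two_eq_zero_or_one (x / 2 ^ m) with h4 | h4
  · rw [h4, mul_zero, add_zero] at h1
    rw [h1, pow_succ] at h
    omega
  · omega

/-- no admissible level in `(k, c]` -/
def RM (x k c : ℕ) : Prop := ∀ m, k < m → m ≤ c → ¬ adm m x

lemma div_eq_of_RM {x x' k : ℕ} (d : ℕ) (h : RM x k (k + d)) (h' : RM x' k (k + d))
    (he : x / 2 ^ (k + d) = x' / 2 ^ (k + d)) : x / 2 ^ k = x' / 2 ^ k := by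
  induction d with
  | zero => exact he
  | succ d ih =>
    refine ih (fun m a b => h m a (by omega)) (fun m a b => h' m a (by omega)) ?_
    rw [div_of_not_adm (h (k + d + 1) (by omega) le_rfl),
      div_of_not_adm (h' (k + d + 1) (by omega) le_rfl)]
    exact congrArg (fun t => 2 * t + 1) he

lemma cnt_chain {Bad : ℕ → ℕ → Prop} {ρ : ℝ} (hρ : 0 ≤ ρ)
    (hB : ∀ k i, cnt (node k i) (Bad k) ≤ ρ * 2 ^ k) (c i : ℕ) :
    cnt (node c i) (fun x => ∃ k ∈ range (c + 1), RM x k c ∧ Bad k x) ≤ 2 * ρ * 2 ^ c := by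
  refine (cnt_exists_le _ _ _).trans ?_
  have h1 : ∀ k ∈ range (c + 1), cnt (node c i) (fun x => RM x k c ∧ Bad k x) ≤ ρ * 2 ^ k := by
    intro k hk
    obtain ⟨d, rfl⟩ := Nat.exists_eq_add_of_le (Nat.lt_succ_iff.1 (mem_range.1 hk))
    by_cases hex : ∃ x₀ ∈ node (k + d) i, RM x₀ k (k + d)
    · obtain ⟨x₀, h2, h3⟩ := hex
      refine (cnt_le_of_inj id ?_ fun _ _ _ _ _ _ h => h).trans (hB k (x₀ / 2 ^ k))
      intro x hx h4
      exact ⟨mem_node.2 (div_eq_of_RM d h4.1 h3 ((mem_node.1 hx).trans (mem_node.1 h2).symm)),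
        h4.2⟩
    · refine (cnt_mono (Q := fun _ => False) fun x hx h4 => hex ⟨x, hx, h4.1⟩).trans ?_
      rw [Tree.cnt_false]
      positivity
  refine (sum_le_sum h1).trans ?_
  rw [← mul_sum, geom_sum_eq (by norm_num), pow_succ]
  nlinarith

lemma mass_top (D : ℕ) : mass D 0 (fun c _ => c = D) ≤ 2 ^ D := by
  rw [← one_mul ((2 : ℝ) ^ D), ← Tree.sum_node_const D 0]
  refine sum_le_sum fun x _ => ?_
  refine (cnt_le_of_inj (S' := {D}) (Q := fun _ => True) id ?_ fun _ _ _ _ _ _ h => h).trans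
    ((cnt_le_card _ _).trans (by simp))
  rintro m - rfl
  exact ⟨mem_singleton_self _, trivial⟩

lemma mass_child (D : ℕ) (C : ℕ → ℕ → Prop) :
    mass D 0 (fun c i => c < D ∧ C (c + 1) (i / 2)) ≤ mass D 0 C := by
  refine sum_le_sum fun x _ => cnt_le_of_inj (fun c => c + 1) ?_ fun _ _ _ _ _ _ h => by omega
  rintro c - ⟨h1, h2⟩
  refine ⟨mem_range.2 (by omega), ?_⟩
  rwa [Nat.div_div_eq_div_mul, ← pow_succ] at h2

lemma lev_mul {k N : ℕ} (h : lev k N) (d : ℕ) : lev (k + d) (N * 2 ^ d) := by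
  have := Nat.two_pow_pos d
  constructor
  · rw [pow_add, ← mul_assoc]
    exact Nat.mul_lt_mul_of_pos_right h.1 this
  · rw [pow_add, ← mul_assoc]
    exact Nat.mul_le_mul_right _ h.2

lemma exists_star (C : ℕ → ℕ → Prop) {D x k : ℕ} (hk : k ≤ D) (ha : adm k x) :
    ∃ k₁ c, k ≤ k₁ ∧ k₁ ≤ c ∧ c ≤ D ∧ adm k₁ x ∧ RM x k₁ c ∧
      (∀ m, k < m → m ≤ c → ¬ C m (x / 2 ^ m)) ∧
      (c = D ∨ c < D ∧ C (c + 1) (x / 2 ^ c / 2)) := by
  classical
  have hex : ∃ c, k ≤ c ∧ (c = D ∨ c < D ∧ C (c + 1) (x / 2 ^ c / 2)) := ⟨D, hk, Or.inl rfl⟩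
  obtain ⟨h1, h2⟩ := Nat.find_spec hex
  have h3 : Nat.find hex ≤ D := Nat.find_min' hex ⟨hk, Or.inl rfl⟩
  have h4 := Nat.le_findGreatest (P := fun m => adm m x) h1 ha
  refine ⟨_, _, h4, Nat.findGreatest_le _, h3, Nat.findGreatest_spec (P := fun m => adm m x) h1 ha,
    fun m a b => Nat.findGreatest_is_greatest (P := fun m => adm m x) a b, fun m a b hC => ?_, h2⟩
  obtain ⟨m, rfl⟩ := Nat.exists_eq_succ_of_ne_zero (by omega : m ≠ 0)
  refine Nat.find_min hex (m := m) (by omega) ⟨by omega, Or.inr ⟨by omega, ?_⟩⟩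
  rwa [Nat.div_div_eq_div_mul, ← pow_succ]

lemma step {f g h : ℕ → ℝ} {D : ℕ} {Bad : ℕ → ℕ → Prop} {ρ γ Γ E E' K K' : ℝ} (hρ : 0 ≤ ρ)
    (hΓ : 0 ≤ Γ) (hB : ∀ k i, cnt (node k i) (Bad k) ≤ ρ * 2 ^ k)
    (h₁ : Ctl (fun x k' k => adm k' x → adm k x → ¬ Bad k' x → ¬ Bad k x → NearR f g h γ x k' k)
      D 0 0 E K)
    (h₂ : Ctl (fun x k' k => adm k' x → adm k x → NearR f g h Γ x k' k) D 0 0 E' K') :
    Ctl (fun x k' k => adm k' x → adm k x → NearR f g h (2 * Γ + γ) x k' k) D 0 0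
      (E + E' + 2 * ρ * (2 ^ D + 2 * (K + K'))) K := by
  obtain ⟨Exc, Chk, hE, hK, H⟩ := h₁
  obtain ⟨Exc', Chk', hE', hK', H'⟩ := h₂
  set C : ℕ → ℕ → Prop := fun k i => Chk k i ∨ Chk' k i with hC
  set P : ℕ → ℕ → Prop := fun c i => c = D ∨ ((c < D ∧ C (c + 1) (i / 2)) ∨ C c i) with hP
  have hmC : mass D 0 C ≤ K + K' := (Tree.mass_or _ _ _ _).trans (add_le_add hK hK')
  have hmP : mass D 0 P ≤ 2 ^ D + 2 * (K + K') := by
    refine (Tree.mass_or _ _ _ _).trans (add_le_add (mass_top D) ((Tree.mass_or _ _ _ _).trans ?_))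
    linarith [mass_child D C]
  refine ⟨fun x => (Exc x ∨ Exc' x) ∨ ∃ c ≤ D, P c (x / 2 ^ c) ∧
    ∃ k ∈ range (c + 1), RM x k c ∧ Bad k x, Chk, ?_, hK, ?_⟩
  · refine (cnt_or_le _ _ _).trans (add_le_add ((cnt_or_le _ _ _).trans (add_le_add hE hE')) ?_)
    refine (cnt_chk_bad P (fun c x => ∃ k ∈ range (c + 1), RM x k c ∧ Bad k x) D 0
      (by positivity) (cnt_chain hρ hB)).trans ?_
    exact mul_le_mul_of_nonneg_left hmP (by positivity)
  · intro x hx hEx k' k _ hkk hkD hN ha' ha N' N hN' hNk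
    have key : ∀ k N, k ≤ D → adm k x → lev k N → ∃ k₁ N₁, k ≤ k₁ ∧ k₁ ≤ D ∧ adm k₁ x ∧
        ¬ Bad k₁ x ∧ (∀ m, k < m → m ≤ k₁ → ¬ Chk m (x / 2 ^ m)) ∧ lev k₁ N₁ ∧
        |Av f g h x N₁ - Av f g h x N| ≤ Γ := by
      intro k N hk ha hl
      by_cases hc : Chk' k (x / 2 ^ k)
      · refine ⟨k, N, le_rfl, hk, ha, fun hb => hEx (Or.inr ⟨k, hk, Or.inr (Or.inr (Or.inr hc)), k,
          self_mem_range_succ k, fun m a b => absurd b (not_le.2 a), hb⟩),
          fun m a b => absurd b (not_le.2 a), hl, by simpa using hΓ⟩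
      · obtain ⟨k₁, c, a1, a2, a3, a4, a5, a6, a7⟩ := exists_star C hk ha
        obtain ⟨d, rfl⟩ := Nat.exists_eq_add_of_le a1
        refine ⟨k + d, N * 2 ^ d, a1, a2.trans a3, a4, fun hb => hEx (Or.inr ⟨c, a3,
          a7.imp id Or.inl, k + d, mem_range.2 (by omega), a5, hb⟩),
          fun m a b hm => a6 m a (b.trans a2) (Or.inl hm), lev_mul hl d, ?_⟩
        refine H' x hx (fun he => hEx (Or.inl (Or.inr he))) k (k + d) (Nat.zero_le _) a1
          (a2.trans a3) (fun m a b hm => ?_) ha a4 _ _ hl (lev_mul hl d)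
        rcases a.eq_or_lt with rfl | a
        · exact hc hm
        · exact a6 m a (b.trans a2) (Or.inr hm)
    obtain ⟨k₁, N₁, a1, a2, a3, a4, a5, a6, a7⟩ := key k N hkD ha hNk
    obtain ⟨k₂, N₂, b1, b2, b3, b4, b5, b6, b7⟩ := key k' N' (hkk.trans hkD) ha' hN'
    have hno : ∀ m, k' ≤ m → m ≤ k₁ ∨ m ≤ k₂ → ¬ Chk m (x / 2 ^ m) := by
      intro m c1 c2
      by_cases c3 : m ≤ k
      · exact hN m c1 c3
      · rcases c2 with c2 | c2
        · exact a5 m (by omega) c2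
        · exact b5 m (by omega) c2
    have hmid : |Av f g h x N₁ - Av f g h x N₂| ≤ γ := by
      rcases le_total k₁ k₂ with c | c
      · rw [abs_sub_comm]
        exact H x hx (fun he => hEx (Or.inl (Or.inl he))) k₁ k₂ (Nat.zero_le _) c b2
          (fun m d1 d2 => hno m (by omega) (Or.inr d2)) a3 b3 a4 b4 _ _ a6 b6
      · exact H x hx (fun he => hEx (Or.inl (Or.inl he))) k₂ k₁ (Nat.zero_le _) c a2
          (fun m d1 d2 => hno m (by omega) (Or.inl d2)) b3 a3 b4 a4 _ _ b6 a6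
    rw [abs_le] at a7 b7 hmid ⊢
    constructor <;> linarith [a7.1, a7.2, b7.1, b7.2, hmid.1, hmid.2]

lemma asym (C : ℕ) : ∃ u₀ : ℝ, 1 ≤ u₀ ∧ ∀ u, u₀ ≤ u →
    2 * exp (-exp (exp u)) * (1 + 2 * (exp (exp (u ^ C)) + exp (exp ((4 * u) ^ C)))) ≤ 1 / u := by
  have h1 := (tendsto_exp_div_pow_atTop C).eventually_ge_atTop (4 ^ C + 1)
  have h2 := (tendsto_exp_div_pow_atTop 1).eventually_ge_atTop 20
  obtain ⟨u₀, hu₀⟩ := Filter.eventually_atTop.1
    ((h1.and h2).and (Filter.eventually_ge_atTop (1 : ℝ)))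
  refine ⟨max u₀ 1, le_max_right _ _, fun u hu => ?_⟩
  obtain ⟨⟨a1, a2⟩, a3⟩ := hu₀ u ((le_max_left _ _).trans hu)
  have hu0 : 0 < u := by linarith
  rw [le_div_iff₀ (by positivity)] at a1 a2
  have b1 : 1 ≤ u ^ C := one_le_pow₀ a3
  have b2 : (4 * u) ^ C + 1 ≤ exp u := by rw [mul_pow]; linarith
  have b3 : 2 * exp ((4 * u) ^ C) ≤ exp (exp u) := by
    have c1 := exp_le_exp.2 b2
    rw [exp_add] at c1
    nlinarith [add_one_le_exp (1 : ℝ), exp_pos ((4 * u) ^ C)]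
  have b4 : 20 * u ≤ exp (exp u) := by linarith [add_one_le_exp (exp u), pow_one u]
  have b5 : exp (exp (u ^ C)) ≤ exp (exp ((4 * u) ^ C)) :=
    exp_le_exp.2 (exp_le_exp.2 (pow_le_pow_left₀ hu0.le (by linarith) C))
  have b6 : 1 ≤ exp (exp ((4 * u) ^ C)) := one_le_exp (exp_pos _).le
  have b7 : 10 * u * exp (exp ((4 * u) ^ C)) ≤ exp (exp (exp u)) := by
    refine le_trans ?_ (exp_le_exp.2 (show 10 * u + exp ((4 * u) ^ C) ≤ _ by linarith))
    rw [exp_add]
    exact mul_le_mul_of_nonneg_right (by linarith [add_one_le_exp (10 * u)]) (exp_pos _).le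
  rw [le_div_iff₀ hu0, exp_neg, mul_comm 2, mul_assoc, mul_assoc, inv_mul_le_iff₀ (exp_pos _)]
  nlinarith

end Tele

open Tele in
theorem fin (h : LvlStmt) : FinStmt := by
  obtain ⟨C, hC⟩ := h
  obtain ⟨u₀, hu₀, hasym⟩ := asym C
  intro ε hε
  have main : ∀ (D : ℕ) (f g h : ℕ → ℝ), Bdd f → Bdd g → Bdd h → ∀ (n : ℕ) (u : ℝ),
      max u₀ C ≤ u → (D : ℝ) ≤ u + n →
      Ctl (fun x k' k => adm k' x → adm k x → NearR f g h (2 / u) x k' k) D 0 0
        (3 / u * 2 ^ D) (exp (exp (u ^ C)) * 2 ^ D) := by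
    intro D f g h hf hg hh n
    induction n with
    | zero =>
      intro u hu hD
      have hu1 : 1 ≤ u := hu₀.trans ((le_max_left _ _).trans hu)
      obtain ⟨Bad, hB, H⟩ := hC u ((le_max_right _ _).trans hu) D f g h hf hg hh
      have hno : ∀ k ≤ D, ∀ x, ¬ Bad k x := by
        intro k hk x hx
        have a1 : (1 : ℝ) ≤ cnt (node k (x / 2 ^ k)) (Bad k) := by
          refine le_trans ?_ (cnt_le_of_inj (S := {x}) (P := fun _ => True) id ?_
            fun _ _ _ _ _ _ h => h)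
          · simp [cnt]
          · intro y hy _
            rw [mem_singleton.1 hy]
            exact ⟨mem_node.2 rfl, hx⟩
        have a2 : (2 : ℝ) ^ k ≤ exp u := by
          refine le_trans (pow_le_pow_left₀ (by norm_num) (show (2 : ℝ) ≤ exp 1 by
            linarith [add_one_le_exp (1 : ℝ)]) k) ?_
          rw [← exp_nat_mul, mul_one]
          refine exp_le_exp.2 (le_trans ?_ (by simpa using hD))
          exact_mod_cast hk
        have a3 := a1.trans (hB k _)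
        rw [exp_neg, le_inv_mul_iff₀ (exp_pos _), mul_one] at a3
        linarith [add_one_le_exp (exp u), add_one_le_exp (exp (exp u))]
      refine (H.imp ?_).mono ?_ le_rfl
      · intro x _ k' k _ h1 h2 h3 a1 a2 N' N b1 b2
        refine (h3 a1 a2 (hno _ (h1.trans h2) x) (hno _ h2 x) N' N b1 b2).trans ?_
        exact div_le_div_of_nonneg_right (by norm_num) (by linarith)
      · rw [div_mul_eq_mul_div]
        exact div_le_div_of_nonneg_right (by nlinarith [pow_pos (two_pos : (0 : ℝ) < 2) D])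
          (by linarith)
    | succ n ih =>
      intro u hu hD
      have hu1 : 1 ≤ u := hu₀.trans ((le_max_left _ _).trans hu)
      obtain ⟨Bad, hB, H⟩ := hC u ((le_max_right _ _).trans hu) D f g h hf hg hh
      have H' := ih (4 * u) (by linarith) (by push_cast at hD; linarith)
      have H'' := step (exp_pos _).le (by positivity) hB H H'
      rw [show 2 * (2 / (4 * u)) + 1 / u = 2 / u by field_simp; norm_num] at H''
      refine H''.mono ?_ le_rfl
      have a1 := mul_le_mul_of_nonneg_right (hasym u ((le_max_left _ _).trans hu))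
        (pow_pos (two_pos : (0 : ℝ) < 2) D).le
      have a2 : 0 < 1 / u * 2 ^ D := by positivity
      have a3 : (2 : ℝ) ^ D / u = 1 / u * 2 ^ D := by ring
      have a4 : 3 / (4 * u) * (2 : ℝ) ^ D = 3 / 4 * (1 / u * 2 ^ D) := by field_simp
      have a5 : 3 / u * (2 : ℝ) ^ D = 3 * (1 / u * 2 ^ D) := by ring
      rw [a3, a4, a5]
      linarith
  set u : ℝ := max (max u₀ C) (3 / ε) with hu
  have hu1 : 1 ≤ u := hu₀.trans ((le_max_left _ _).trans (le_max_left _ _))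
  have hu3 : 3 / u ≤ ε := by
    rw [div_le_comm₀ (by linarith) hε]
    exact le_max_right _ _
  refine ⟨exp (exp (u ^ C)), fun D f g h hf hg hh => ?_⟩
  refine ((main D f g h hf hg hh D u (le_max_left _ _) (by linarith)).imp ?_).mono
    (mul_le_mul_of_nonneg_right hu3 (by positivity)) le_rfl
  intro x _ k' k _ _ _ h3 a1 a2 N' N b1 b2
  refine (h3 a1 a2 N' N b1 b2).trans (le_trans ?_ hu3)
  exact div_le_div_of_nonneg_right (by norm_num) (by linarith)

end Pool.Agent.Tri
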