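import Pool.Agent.Lib.MP_9721b5_an.Tri.Stmts
import Pool.Agent.Lib.MP_9721b5_an.Tri.Basic0

/-!
Transference: the finitary oscillation inequality implies pointwise convergence.
-/

set_option autoImplicit false

open Finset MeasureTheory Filter
open scoped ENNReal

namespace Pool.Agent.Tri

namespace Transfer

lemma lev_le {k k' N N' : ℕ} (h : lev k N) (h' : lev k' N') (hN : N' ≤ N) : k' ≤ k := by
  have h1 : 2 ^ k' < 2 ^ (k + 1) := by
    have := h.2
    have := h'.1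
    rw [pow_succ]
    omega
  exact Nat.lt_succ_iff.1 ((Nat.pow_lt_pow_iff_right (by norm_num)).1 h1)

lemma exists_lev {N : ℕ} (hN : 0 < N) : ∃ k, lev k N := by
  have h1 := Nat.pow_pred_clog_lt_self (b := 2) (by norm_num) (x := 16 * N) (by omega)
  have h2 := Nat.le_pow_clog (b := 2) (by norm_num) (16 * N)
  have h3 : 0 < Nat.clog 2 (16 * N) := Nat.clog_pos (by norm_num) (by omega)
  refine ⟨Nat.clog 2 (16 * N), ?_, h2⟩
  obtain ⟨m, hm⟩ := Nat.exists_eq_succ_of_ne_zero h3.ne'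
  rw [hm] at h1 ⊢
  rw [Nat.pred_succ] at h1
  rw [pow_succ]
  omega

/-- one of the two dyadic systems is admissible at every level -/
lemma adm_or {D o x k : ℕ} (ho : 3 * o + 1 = 2 ^ D) (hx : o ≤ x) (hk : 3 ≤ k) (hkD : k ≤ D) :
    adm k x ∨ adm k (x - o) := by
  obtain ⟨d, rfl⟩ := Nat.exists_eq_add_of_le hkD
  have h8 : 8 ≤ 2 ^ k := (Nat.pow_le_pow_right (by norm_num) hk : 2 ^ 3 ≤ 2 ^ k)
  unfold adm
  rw [pow_add] at ho
  generalize 2 ^ k = P at ho h8 ⊢
  have hP : 0 < P := by omega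
  have h1 : (3 * (o % P) + 1) % P = 0 := by
    have e : 3 * (o % P) + 1 ≡ 3 * o + 1 [MOD P] := ((Nat.mod_modEq o P).mul_left 3).add_right 1
    rw [e, ho, Nat.mul_mod_right]
  have h2 := Nat.mod_lt o hP
  obtain ⟨c, hc⟩ := Nat.dvd_of_mod_eq_zero h1
  have hc3 : c < 3 := by
    by_contra h
    have := Nat.mul_le_mul_left P (not_lt.1 h)
    omega
  have h3 : x % P = ((x - o) % P + o % P) % P := by
    rw [← Nat.add_mod, Nat.sub_add_cancel hx]
  have h4 := Nat.mod_lt (x - o) hP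
  generalize (x - o) % P = a at h3 h4 ⊢
  generalize o % P = b at h3 h2 hc
  by_cases h5 : a + b < P
  · rw [Nat.mod_eq_of_lt h5] at h3
    interval_cases c <;> omega
  · rw [Nat.mod_eq_sub_mod (not_lt.1 h5), Nat.mod_eq_of_lt (show a + b - P < P by omega)] at h3
    interval_cases c <;> omega

lemma abs_Av_le {f g h : ℕ → ℝ} (hf : Bdd f) (hg : Bdd g) (hh : Bdd h) (x N : ℕ) :
    |∑ n ∈ Icc 1 N, f (x + n) * g (x + 2 * n) * h (x + 3 * n)| ≤ N := by
  refine (abs_sum_le_sum_abs _ _).trans ((sum_le_card_nsmul _ _ 1 fun n _ => ?_).trans_eq (by simp))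
  rw [abs_mul, abs_mul]
  exact mul_le_one₀ (mul_le_one₀ (hf _) (abs_nonneg _) (hg _)) (abs_nonneg _) (hh _)

lemma Av_succ {f g h : ℕ → ℝ} (hf : Bdd f) (hg : Bdd g) (hh : Bdd h) (x : ℕ) {N : ℕ}
    (hN : 0 < N) : |Av f g h x (N + 1) - Av f g h x N| ≤ 2 / N := by
  have hN' : (0 : ℝ) < N := by exact_mod_cast hN
  have h1 := abs_le.1 (abs_Av_le hf hg hh x N)
  have h2 : |f (x + (N + 1)) * g (x + 2 * (N + 1)) * h (x + 3 * (N + 1))| ≤ 1 := by
    rw [abs_mul, abs_mul]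
    exact mul_le_one₀ (mul_le_one₀ (hf _) (abs_nonneg _) (hg _)) (abs_nonneg _) (hh _)
  unfold Av
  rw [sum_Icc_succ_top (by omega)]
  generalize ∑ n ∈ Icc 1 N, f (x + n) * g (x + 2 * n) * h (x + 3 * n) = S at h1 ⊢
  generalize f (x + (N + 1)) * g (x + 2 * (N + 1)) * h (x + 3 * (N + 1)) = a at h2 ⊢
  have e : ((N + 1 : ℕ) : ℝ)⁻¹ * (S + a) - (N : ℝ)⁻¹ * S = (N * a - S) / (N + 1) / N := by
    push_cast
    field_simp
    ring
  rw [e, abs_div, abs_of_pos hN']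
  refine div_le_div_of_nonneg_right ?_ hN'.le
  rw [abs_div, abs_of_pos (by positivity : (0 : ℝ) < N + 1), div_le_iff₀ (by positivity), abs_le]
  rw [abs_le] at h2
  constructor <;> nlinarith [h1.1, h1.2, h2.1, h2.2]

/-- comparison of two values along a walk through two systems -/
lemma walk (A : ℕ → ℝ) (P : ℕ → Prop) {ε η : ℝ} (hη : 0 ≤ η) {N N' : ℕ} (hN : N ≤ N')
    (h : ∀ M M', N ≤ M → M ≤ M' → M' ≤ N' → (P M ↔ P M') → |A M' - A M| ≤ ε)
    (hs : ∀ M, N ≤ M → |A (M + 1) - A M| ≤ η) : |A N' - A N| ≤ 2 * ε + η := by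
  have hε : 0 ≤ ε := le_trans (abs_nonneg _) (h N N le_rfl le_rfl hN Iff.rfl)
  by_cases hP : P N ↔ P N'
  · linarith [h N N' le_rfl hN le_rfl hP]
  have : ∃ M, N ≤ M ∧ M + 1 ≤ N' ∧ (P N ↔ P M) ∧ ¬ (P N ↔ P (M + 1)) := by
    clear h
    induction N', hN using Nat.le_induction with
    | base => exact absurd Iff.rfl hP
    | succ M hM ih =>
      by_cases hM' : P N ↔ P M
      · exact ⟨M, hM, le_rfl, hM', hP⟩
      · obtain ⟨M', a, b, c⟩ := ih hM'
        exact ⟨M', a, by omega, c⟩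
  obtain ⟨M, a, b, c, d⟩ := this
  have h1 := abs_le.1 (h N M le_rfl a (by omega) c)
  have h2 := abs_le.1 (hs M a)
  have h3 := abs_le.1 (h (M + 1) N' (by omega) b le_rfl (by tauto))
  rw [abs_le]
  constructor <;> linarith [h1.1, h1.2, h2.1, h2.2, h3.1, h3.2]

/-- an oscillation of size `δ` between the levels `a` and `b` -/
def Osc (A : ℕ → ℝ) (δ : ℝ) (a b : ℕ) : Prop :=
  ∃ N N', N ≤ N' ∧ (∃ k, lev k N ∧ a < k) ∧ (∃ k, lev k N' ∧ k ≤ b) ∧ δ < |A N' - A N|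

lemma not_osc {f g h : ℕ → ℝ} (hf : Bdd f) (hg : Bdd g) (hh : Bdd h) {D o x a b : ℕ} {ε δ : ℝ}
    (hε : ε ≤ δ) (ho : 3 * o + 1 = 2 ^ D) (hx : o ≤ x) (ha : 3 ≤ a) (haδ : 32 ≤ δ * 2 ^ a)
    (hb : b ≤ D)
    (h0 : ∀ k' k, a < k' → k' ≤ k → k ≤ b → adm k' x → adm k x → NearR f g h ε x k' k)
    (h1 : ∀ k' k, a < k' → k' ≤ k → k ≤ b → adm k' (x - o) → adm k (x - o) →
      NearR f g h ε x k' k) : ¬ Osc (Av f g h x) (3 * δ) a b := by
  rintro ⟨N, N', hN, ⟨k, hk, hak⟩, ⟨k', hk', hkb⟩, hlt⟩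
  have h2a : (0 : ℝ) < 2 ^ a := by positivity
  have hδ : 0 < δ := by
    by_contra hc
    nlinarith [not_lt.1 hc]
  have hN0 : 2 ^ a < 16 * N := by
    have h1 := hk.1
    have h2 : 2 ^ (a + 1) ≤ 2 ^ k := Nat.pow_le_pow_right (by norm_num) hak
    rw [pow_succ] at h2
    omega
  have hpos : 0 < N := by
    have := Nat.two_pow_pos a
    omega
  choose! lv hlv using fun M (hM : 0 < M) => exists_lev hM
  have := walk (Av f g h x) (fun M => adm (lv M) x) (ε := ε) hδ.le hN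
    (fun M M' e1 e2 e3 e4 => by
      have l1 := hlv M (by omega)
      have l2 := hlv M' (by omega)
      have i1 := lev_le l1 hk e1
      have i2 := lev_le l2 l1 e2
      have i3 := lev_le hk' l2 e3
      by_cases hP : adm (lv M) x
      · exact h0 _ _ (by omega) i2 (by omega) hP (e4.1 hP) _ _ l1 l2
      · exact h1 _ _ (by omega) i2 (by omega)
          ((adm_or ho hx (by omega) (by omega)).resolve_left hP)
          ((adm_or ho hx (by omega) (by omega)).resolve_left fun h => hP (e4.2 h)) _ _ l1 l2)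
    (fun M hM => by
      refine (Av_succ hf hg hh x (by omega)).trans ?_
      have e1 : (2 : ℝ) ^ a ≤ 16 * M := by exact_mod_cast (by omega : 2 ^ a ≤ 16 * M)
      have e2 : (0 : ℝ) < M := by exact_mod_cast (by omega : 0 < M)
      rw [div_le_iff₀ e2]
      nlinarith)
  linarith

lemma cnt_blocks {κ : ℕ → ℕ} (hκ : StrictMono κ) {m D : ℕ} (hD : κ m ≤ D) (C : ℕ → Prop) :
    cnt (range m) (fun j => ∃ l, κ j < l ∧ l ≤ κ (j + 1) ∧ C l) ≤ cnt (range (D + 1)) C := by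
  classical
  have hch : ∀ j, ∃ l, (∃ l, κ j < l ∧ l ≤ κ (j + 1) ∧ C l) → κ j < l ∧ l ≤ κ (j + 1) ∧ C l :=
    fun j => by
      by_cases h : ∃ l, κ j < l ∧ l ≤ κ (j + 1) ∧ C l
      · exact ⟨h.choose, fun _ => h.choose_spec⟩
      · exact ⟨0, fun h' => absurd h' h⟩
  choose l hl using hch
  refine cnt_le_of_inj l (fun j hj h => ⟨?_, (hl j h).2.2⟩) fun i _ j _ hi hj e => ?_
  · have := hκ.monotone (show j + 1 ≤ m from mem_range.1 hj)
    have := (hl j h).2.1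
    exact mem_range.2 (by omega)
  · by_contra hne
    rcases lt_or_gt_of_ne hne with h | h
    · have := hκ.monotone (show i + 1 ≤ j from h)
      have := (hl i hi).2.1
      have := (hl j hj).1
      omega
    · have := hκ.monotone (show j + 1 ≤ i from h)
      have := (hl i hi).1
      have := (hl j hj).2.1
      omega

/-- the pointwise count of oscillating blocks along an orbit -/
lemma count_le {ε δ K : ℝ} (hε : ε ≤ δ) {D o m : ℕ} (ho : 3 * o + 1 = 2 ^ D)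
    (hK : ∀ f g h : ℕ → ℝ, Bdd f → Bdd g → Bdd h →
      Ctl (fun x k' k => adm k' x → adm k x → NearR f g h ε x k' k) D 0 0 (ε * 2 ^ D) (K * 2 ^ D))
    {κ : ℕ → ℕ} (hκ : StrictMono κ) (h3 : 3 ≤ κ 0) (hδ : 32 ≤ δ * 2 ^ κ 0) (hD : κ m ≤ D)
    {f g h : ℕ → ℝ} (hf : Bdd f) (hg : Bdd g) (hh : Bdd h) :
    ∑ x ∈ Ico o (2 ^ D), cnt (range m) (fun j => Osc (Av f g h x) (3 * δ) (κ j) (κ (j + 1))) ≤
      2 * (m * (ε * 2 ^ D) + K * 2 ^ D) := by
  classical
  obtain ⟨E0, C0, a0, b0, c0⟩ := hK f g h hf hg hh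
  obtain ⟨E1, C1, a1, b1, c1⟩ := hK (fun n => f (o + n)) (fun n => g (o + n)) (fun n => h (o + n))
    (fun _ => hf _) (fun _ => hg _) fun _ => hh _
  have hnode : node D 0 = range (2 ^ D) := by simp [node]
  have hδ0 : 0 ≤ δ := by
    by_contra hc
    have : (0 : ℝ) < 2 ^ κ 0 := by positivity
    nlinarith [not_le.1 hc]
  set w0 : ℕ → ℝ := fun x => m * (if E0 x then 1 else 0) +
    cnt (range (D + 1)) fun k => C0 k (x / 2 ^ k) with hw0
  set w1 : ℕ → ℝ := fun x => m * (if E1 x then 1 else 0) +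
    cnt (range (D + 1)) fun k => C1 k (x / 2 ^ k) with hw1
  have p0 : ∀ x, 0 ≤ w0 x := fun x => add_nonneg (by positivity) (cnt_nonneg _ _)
  have p1 : ∀ x, 0 ≤ w1 x := fun x => add_nonneg (by positivity) (cnt_nonneg _ _)
  have s0 : ∑ x ∈ range (2 ^ D), w0 x ≤ m * (ε * 2 ^ D) + K * 2 ^ D := by
    rw [← hnode, sum_add_distrib, ← mul_sum, ← cnt_eq_sum]
    exact add_le_add (mul_le_mul_of_nonneg_left a0 (by positivity)) b0
  have s1 : ∑ x ∈ range (2 ^ D), w1 x ≤ m * (ε * 2 ^ D) + K * 2 ^ D := by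
    rw [← hnode, sum_add_distrib, ← mul_sum, ← cnt_eq_sum]
    exact add_le_add (mul_le_mul_of_nonneg_left a1 (by positivity)) b1
  have key : ∀ x ∈ Ico o (2 ^ D),
      cnt (range m) (fun j => Osc (Av f g h x) (3 * δ) (κ j) (κ (j + 1))) ≤ w0 x + w1 (x - o) := by
    intro x hx
    obtain ⟨hx1, hx2⟩ := mem_Ico.1 hx
    have hm := (cnt_le_card (range m)
      fun j => Osc (Av f g h x) (3 * δ) (κ j) (κ (j + 1))).trans_eq (by rw [card_range])
    by_cases e0 : E0 x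
    · have := cnt_nonneg (range (D + 1)) fun k => C0 k (x / 2 ^ k)
      have := p1 (x - o)
      simp only [hw0, e0, if_true, mul_one]
      linarith
    by_cases e1 : E1 (x - o)
    · have := cnt_nonneg (range (D + 1)) fun k => C1 k ((x - o) / 2 ^ k)
      have := p0 x
      simp only [hw1, e1, if_true, mul_one]
      linarith
    simp only [hw0, hw1, e0, e1, if_false, mul_zero, zero_add]
    refine le_trans (cnt_mono fun j hj hO => ?_) ((cnt_or_le _ _ _).trans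
      (add_le_add (cnt_blocks hκ hD _) (cnt_blocks hκ hD _)))
    by_contra hc
    push Not at hc
    have hj1 : κ (j + 1) ≤ D := (hκ.monotone (show j + 1 ≤ m from mem_range.1 hj)).trans hD
    have hj0 : κ 0 ≤ κ j := hκ.monotone (Nat.zero_le j)
    refine not_osc hf hg hh hε ho hx1 (h3.trans hj0) (hδ.trans (mul_le_mul_of_nonneg_left
      (pow_le_pow_right₀ (by norm_num) hj0) hδ0)) hj1 (fun k' k u1 u2 u3 => ?_)
      (fun k' k u1 u2 u3 u4 u5 N' N u6 u7 => ?_) hO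
    · exact c0 x (hnode ▸ mem_range.2 hx2) e0 k' k (Nat.zero_le _) u2 (u3.trans hj1)
        fun l v1 v2 => hc.1 l (by omega) (by omega)
    · have := c1 (x - o) (hnode ▸ mem_range.2 (by omega)) e1 k' k (Nat.zero_le _) u2
        (u3.trans hj1) (fun l v1 v2 => hc.2 l (by omega) (by omega)) u4 u5 N' N u6 u7
      simpa only [Av, ← add_assoc, Nat.add_sub_cancel' hx1] using this
  refine (sum_le_sum key).trans ?_
  rw [sum_add_distrib]
  have t0 : ∑ x ∈ Ico o (2 ^ D), w0 x ≤ ∑ x ∈ range (2 ^ D), w0 x :=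
    sum_le_sum_of_subset_of_nonneg (fun x hx => mem_range.2 (mem_Ico.1 hx).2) fun x _ _ => p0 x
  have t1 : ∑ x ∈ Ico o (2 ^ D), w1 (x - o) ≤ ∑ x ∈ range (2 ^ D), w1 x := by
    rw [sum_Ico_eq_sum_range]
    simp only [Nat.add_sub_cancel_left]
    exact sum_le_sum_of_subset_of_nonneg (range_subset_range.2 (Nat.sub_le _ _))
      fun x _ _ => p1 x
  linarith

variable {X : Type} [MeasurableSpace X] {μ : Measure X} [IsProbabilityMeasure μ] {T : X → X}

/-- the triple average at a point -/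
noncomputable def avg (T : X → X) (f g h : X → ℝ) (w : X) (N : ℕ) : ℝ :=
  (N : ℝ)⁻¹ * ∑ n ∈ Icc 1 N, f (T^[n] w) * g (T^[2 * n] w) * h (T^[3 * n] w)

omit [MeasurableSpace X] in
lemma Av_orbit (f g h : X → ℝ) (w : X) (x : ℕ) :
    Av (fun n => f (T^[n] w)) (fun n => g (T^[n] w)) (fun n => h (T^[n] w)) x =
      avg T f g h (T^[x] w) := by
  funext N
  simp only [Av, avg, ← Function.iterate_add_apply, add_comm x]

lemma measurable_osc (hT : Measurable T) {f g h : X → ℝ} (hf : Measurable f) (hg : Measurable g)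
    (hh : Measurable h) (δ : ℝ) (a b : ℕ) : MeasurableSet {w | Osc (avg T f g h w) δ a b} := by
  have hA : ∀ N, Measurable fun w => avg T f g h w N := fun N =>
    Measurable.const_mul (Finset.measurable_sum _ fun n _ =>
      ((hf.comp (hT.iterate _)).mul (hg.comp (hT.iterate _))).mul (hh.comp (hT.iterate _))) _
  refine measurableSet_setOfPred.2 (Measurable.exists fun N => Measurable.exists fun N' =>
    measurable_const.and (measurable_const.and (measurable_const.and ?_)))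
  exact measurableSet_setOfPred.1
    (measurableSet_lt measurable_const (continuous_abs.measurable.comp ((hA N').sub (hA N))))

lemma osc_null (hF : FinStmt) (hT : MeasurePreserving T μ μ) {f g h : X → ℝ} (hf : Measurable f)
    (hg : Measurable g) (hh : Measurable h) (bf : ∀ x, |f x| ≤ 1) (bg : ∀ x, |g x| ≤ 1)
    (bh : ∀ x, |h x| ≤ 1) {δ : ℝ} (hδ : 0 < δ) :
    μ {w | ∀ a, ∃ b, Osc (avg T f g h w) (3 * δ) a b} = 0 := by
  classical
  set O : ℕ → ℕ → Set X := fun a b => {w | Osc (avg T f g h w) (3 * δ) a b} with hO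
  have hOm : ∀ a b, MeasurableSet (O a b) := measurable_osc hT.measurable hf hg hh _
  set β := μ.real {w | ∀ a, ∃ b, Osc (avg T f g h w) (3 * δ) a b} with hβ
  rw [← measureReal_eq_zero_iff, ← hβ]
  refine le_antisymm (le_of_forall_pos_le_add fun η hη => ?_) measureReal_nonneg
  obtain ⟨ε, hε0, hεδ, hεη⟩ : ∃ ε : ℝ, 0 < ε ∧ ε ≤ δ ∧ 6 * ε ≤ η :=
    ⟨min δ (η / 6), by positivity, min_le_left _ _, by linarith [min_le_right δ (η / 6)]⟩
  obtain ⟨K, hK⟩ := hF ε hε0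
  have hnext : ∀ a, ∃ b, a < b ∧ β - ε ≤ μ.real (O a b) := fun a => by
    have hmono : Monotone (O a) := fun b b' hb w ⟨N, N', h1, h2, ⟨k, h3, h4⟩, h5⟩ =>
      ⟨N, N', h1, h2, ⟨k, h3, h4.trans hb⟩, h5⟩
    have ht := (ENNReal.tendsto_toReal (measure_ne_top _ _)).comp
      (tendsto_measure_iUnion_atTop (μ := μ) hmono)
    have hle : β ≤ μ.real (⋃ b, O a b) :=
      measureReal_mono fun w hw => Set.mem_iUnion.2 (hw a)
    obtain ⟨b, hb⟩ := ((ht.eventually (lt_mem_nhds (show β - ε < μ.real (⋃ b, O a b) by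
      linarith))).and (eventually_gt_atTop a)).exists
    exact ⟨b, hb.2, hb.1.le⟩
  choose nx hnx1 hnx2 using hnext
  obtain ⟨a0, ha0⟩ := pow_unbounded_of_one_lt (32 / δ) (one_lt_two (α := ℝ))
  set κ : ℕ → ℕ := fun j => nx^[j] (a0 + 3) with hκ
  have hκs : ∀ j, κ (j + 1) = nx (κ j) := fun j => Function.iterate_succ_apply' _ _ _
  have hκm : StrictMono κ := strictMono_nat_of_lt_succ fun j => hκs j ▸ hnx1 _
  obtain ⟨m, hm⟩ := exists_nat_gt (max 0 (4 * K / ε))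
  have hm0 : (0 : ℝ) < m := (le_max_left _ _).trans_lt hm
  have hmK : 4 * K ≤ m * ε := by
    have := (le_max_right _ _).trans_lt hm
    rw [div_lt_iff₀ hε0] at this
    exact this.le
  obtain ⟨o, ho⟩ : ∃ o, 3 * o + 1 = 2 ^ (2 * κ m) := by
    have : 2 ^ (2 * κ m) % 3 = 1 := by
      rw [pow_mul, Nat.pow_mod]
      simp
    exact ⟨2 ^ (2 * κ m) / 3, by omega⟩
  set D := 2 * κ m with hD
  have hpt : ∀ w, ∑ x ∈ Ico o (2 ^ D), ∑ j ∈ range m,
      (T^[x] ⁻¹' O (κ j) (κ (j + 1))).indicator (1 : X → ℝ) w ≤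
        2 * (m * (ε * 2 ^ D) + K * 2 ^ D) := fun w => by
    refine le_trans (le_of_eq ?_) (count_le hεδ ho (hK D) hκm (by simp [hκ]) ?_ (by omega)
      (f := fun n => f (T^[n] w)) (g := fun n => g (T^[n] w)) (h := fun n => h (T^[n] w))
      (fun _ => bf _) (fun _ => bg _) fun _ => bh _)
    · refine sum_congr rfl fun x _ => ?_
      rw [cnt_eq_sum, Av_orbit]
      refine sum_congr rfl fun j _ => ?_
      simp only [Set.indicator, Set.mem_preimage, hO, Set.mem_ofPred_eq, Pi.one_apply]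
    · rw [div_lt_iff₀ hδ] at ha0
      have : (2 : ℝ) ^ a0 ≤ 2 ^ κ 0 := pow_le_pow_right₀ (by norm_num) (by simp [hκ])
      nlinarith
  have hms : ∀ x j, MeasurableSet (T^[x] ⁻¹' O (κ j) (κ (j + 1))) := fun x j =>
    (hT.iterate x).measurable (hOm _ _)
  have hint : ∀ x j, Integrable ((T^[x] ⁻¹' O (κ j) (κ (j + 1))).indicator (1 : X → ℝ)) μ :=
    fun x j => (integrable_const (1 : ℝ)).indicator (hms x j)
  have hI := integral_mono (μ := μ) (integrable_finsetSum _ fun x _ =>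
    integrable_finsetSum _ fun j _ => hint x j) (integrable_const _) hpt
  rw [integral_finsetSum _ fun x _ => integrable_finsetSum _ fun j _ => hint x j,
    integral_const, probReal_univ, one_smul] at hI
  have hlow : ∀ x ∈ Ico o (2 ^ D), (m : ℝ) * (β - ε) ≤ ∫ w, ∑ j ∈ range m,
      (T^[x] ⁻¹' O (κ j) (κ (j + 1))).indicator (1 : X → ℝ) w ∂μ := fun x _ => by
    rw [integral_finsetSum _ fun j _ => hint x j]
    refine le_trans (by simp) (card_nsmul_le_sum (range m) _ (β - ε) fun j _ => ?_)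
    rw [integral_indicator_one (hms x j),
      (hT.iterate x).measureReal_preimage (hOm _ _).nullMeasurableSet, hκs]
    exact hnx2 _
  have h1 := (card_nsmul_le_sum _ _ _ hlow).trans hI
  rw [Nat.card_Ico, nsmul_eq_mul] at h1
  by_contra hc
  have h2 : (2 : ℝ) ^ D ≤ 2 * ((2 ^ D - o : ℕ) : ℝ) := by
    exact_mod_cast (by omega : 2 ^ D ≤ 2 * (2 ^ D - o))
  have h3 : 5 * ε < β - ε := by linarith [not_le.1 hc]
  have h4 : (0 : ℝ) < 2 ^ D := by positivity
  have h5 : m * (5 * ε) < m * (β - ε) := mul_lt_mul_of_pos_left h3 hm0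
  have h6 := mul_le_mul_of_nonneg_right h2 (show 0 ≤ m * (β - ε) by nlinarith)
  have h7 := mul_lt_mul_of_pos_left h5 h4
  have h8 := mul_le_mul_of_nonneg_left hmK h4.le
  linarith

lemma conv_bdd (hF : FinStmt) (hT : MeasurePreserving T μ μ) {f g h : X → ℝ} (hf : Measurable f)
    (hg : Measurable g) (hh : Measurable h) (bf : ∀ x, |f x| ≤ 1) (bg : ∀ x, |g x| ≤ 1)
    (bh : ∀ x, |h x| ≤ 1) : ∀ᵐ w ∂μ, ∃ L, Tendsto (avg T f g h w) atTop (nhds L) := by
  have h1 : ∀ᵐ w ∂μ, ∀ i : ℕ,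
      ¬ ∀ a, ∃ b, Osc (avg T f g h w) (3 * (1 / ((i : ℝ) + 1))) a b :=
    ae_all_iff.2 fun i => compl_mem_ae_iff.2
      (osc_null hF hT hf hg hh bf bg bh (δ := 1 / ((i : ℝ) + 1)) (by positivity))
  filter_upwards [h1] with w hw
  refine cauchySeq_tendsto_of_complete (Metric.cauchySeq_iff'.2 fun ε hε => ?_)
  obtain ⟨i, hi⟩ := exists_nat_one_div_lt (show 0 < ε / 3 by positivity)
  have h2 := hw i
  push Not at h2
  obtain ⟨a, ha⟩ := h2
  refine ⟨2 ^ a, fun n hn => ?_⟩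
  obtain ⟨k, hk⟩ := exists_lev (Nat.two_pow_pos a)
  obtain ⟨k', hk'⟩ := exists_lev ((Nat.two_pow_pos a).trans_le hn)
  have hak : a < k := by
    refine (Nat.pow_lt_pow_iff_right (by norm_num : 1 < 2)).1 ?_
    have := hk.2
    have := Nat.two_pow_pos a
    omega
  have := not_lt.1 fun h => ha k' ⟨2 ^ a, n, hn, ⟨k, hk, hak⟩, ⟨k', hk', le_rfl⟩, h⟩
  rw [Real.dist_eq]
  linarith

omit [IsProbabilityMeasure μ] in
lemma exists_bdd {f : X → ℝ} (hf : MemLp f ⊤ μ) :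
    ∃ (c : ℝ) (f' : X → ℝ), Measurable f' ∧ (∀ x, |f' x| ≤ 1) ∧ ∀ᵐ x ∂μ, f x = c * f' x := by
  obtain ⟨C, hC⟩ := eLpNormEssSup_lt_top_iff_isBoundedUnder.1
    (show eLpNormEssSup f μ < ⊤ by simpa using hf.2)
  have hC' : ∀ᵐ x ∂μ, ‖f x‖₊ ≤ C := hC
  have hc : (0 : ℝ) < C + 1 := by positivity
  refine ⟨C + 1, fun x => clip (hf.1.mk f x / (C + 1)), ?_, fun x => ?_, ?_⟩
  · exact measurable_const.max (measurable_const.min
      (hf.1.stronglyMeasurable_mk.measurable.div_const _))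
  · exact abs_le.2 ⟨le_max_left _ _, max_le (by norm_num) (min_le_left _ _)⟩
  · filter_upwards [hC', hf.1.ae_eq_mk] with x h1 h2
    have h3 : |f x| ≤ C := h1
    have h4 : |f x / (C + 1)| ≤ 1 := by
      rw [abs_div, abs_of_pos hc, div_le_one hc]
      linarith
    rw [← h2, clip, min_eq_right (abs_le.1 h4).2, max_eq_right (abs_le.1 h4).1,
      mul_div_cancel₀ _ hc.ne']

end Transfer

theorem transfer (h : FinStmt) :
    ∀ (X : Type) [MeasurableSpace X] (μ : Measure X) [IsProbabilityMeasure μ] (T : X → X),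
      MeasurePreserving T μ μ →
      ∀ f g h : X → ℝ, MemLp f ⊤ μ → MemLp g ⊤ μ → MemLp h ⊤ μ →
        ∀ᵐ x ∂μ, ∃ L : ℝ,
          Tendsto (fun N : ℕ => (N : ℝ)⁻¹ *
              ∑ n ∈ Finset.Icc 1 N, f (T^[n] x) * g (T^[2 * n] x) * h (T^[3 * n] x))
            atTop (nhds L) := by
  intro X _ μ _ T hT f₁ f₂ f₃ h₁ h₂ h₃
  obtain ⟨c₁, g₁, m₁, b₁, e₁⟩ := Transfer.exists_bdd h₁
  obtain ⟨c₂, g₂, m₂, b₂, e₂⟩ := Transfer.exists_bdd h₂
  obtain ⟨c₃, g₃, m₃, b₃, e₃⟩ := Transfer.exists_bdd h₃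
  have hall := ae_all_iff.2 fun n : ℕ =>
    (hT.iterate n).quasiMeasurePreserving.ae (e₁.and (e₂.and e₃))
  filter_upwards [hall, Transfer.conv_bdd h hT m₁ m₂ m₃ b₁ b₂ b₃] with w hw ⟨L, hL⟩
  refine ⟨c₁ * c₂ * c₃ * L, (hL.const_mul (c₁ * c₂ * c₃)).congr fun N => ?_⟩
  rw [Transfer.avg, mul_left_comm, mul_sum]
  congr 1
  refine sum_congr rfl fun n _ => ?_
  rw [(hw n).1, (hw (2 * n)).2.1, (hw (3 * n)).2.2]
  ring

end Pool.Agent.Tri
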