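import Pool.Agent.Lib.MP_9721b5_an.Tri.Alive
import Pool.Agent.Lib.MP_9721b5_an.Tri.Tree

/-!
The Chang step at a stopping node, for the pairs of one type.
-/

set_option autoImplicit false

open Finset Real

namespace Pool.Agent.Tri

open Cfg

namespace Type1

lemma y_add' (i : Fin 3) (w w' : ℤ × ℤ) :
    y i (w + w').1 (w + w').2 = y i w.1 w.2 + y i w'.1 w'.2 := by
  simp only [y, Prod.fst_add, Prod.snd_add]; ring

lemma y_neg' (i : Fin 3) (w : ℤ × ℤ) : y i (-w).1 (-w).2 = -y i w.1 w.2 := by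
  simp only [y, Prod.fst_neg, Prod.snd_neg]; ring

/-- the filtration on pairs of shifts -/
noncomputable def Om (D : Fin 3 → Filt ℤ) (N : ℕ) : Filt (ℤ × ℤ) where
  mem l w := (∀ i, (D i).mem (l / 4) (y i w.1 w.2)) ∧ |(w.1 : ℝ)| ≤ l * N ∧ |(w.2 : ℝ)| ≤ l * N
  zero l hl := by
    refine ⟨fun i => ?_, ?_, ?_⟩
    · have : y i (0 : ℤ × ℤ).1 (0 : ℤ × ℤ).2 = 0 := by simp [y]
      rw [this]; exact (D i).zero _ (by linarith)
    · simp only [Prod.fst_zero, Int.cast_zero, abs_zero]; positivity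
    · simp only [Prod.snd_zero, Int.cast_zero, abs_zero]; positivity
  add l l' w w' h h' := by
    refine ⟨fun i => ?_, ?_, ?_⟩
    · rw [y_add', add_div]; exact (D i).add _ _ _ _ (h.1 i) (h'.1 i)
    · rw [Prod.fst_add, Int.cast_add, add_mul]
      exact (abs_add_le _ _).trans (add_le_add h.2.1 h'.2.1)
    · rw [Prod.snd_add, Int.cast_add, add_mul]
      exact (abs_add_le _ _).trans (add_le_add h.2.2 h'.2.2)
  neg l w h := by
    refine ⟨fun i => ?_, ?_, ?_⟩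
    · rw [y_neg']; exact (D i).neg _ _ (h.1 i)
    · rw [Prod.fst_neg, Int.cast_neg, abs_neg]; exact h.2.1
    · rw [Prod.snd_neg, Int.cast_neg, abs_neg]; exact h.2.2
  mono l l' w hl h := ⟨fun i => (D i).mono _ _ _ (by linarith) (h.1 i),
    h.2.1.trans (mul_le_mul_of_nonneg_right hl (Nat.cast_nonneg N)),
    h.2.2.trans (mul_le_mul_of_nonneg_right hl (Nat.cast_nonneg N))⟩

lemma exp_four : (33 : ℝ) ≤ exp 4 := by
  have h := Real.quadratic_le_exp_of_nonneg (x := 2) (by norm_num)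
  have h1 : exp 4 = exp 2 * exp 2 := by rw [← exp_add]; norm_num
  have h2 : (7 : ℝ) ≤ exp 2 := by
    have h3 : exp 2 = exp 1 * exp 1 := by rw [← exp_add]; norm_num
    have := Real.exp_one_gt_d9
    nlinarith
  nlinarith

/-- many small elements of a Bohr set -/
lemma bohr_big (Θ : Finset T) {p₁ p₂ : ℝ} (N : ℕ) (h2 : 2 ≤ p₁) (h12 : p₁ ^ 2 ≤ p₂)
    (hΘ : (Θ.card : ℝ) ≤ 3 * p₁) : (2 * N + 1 : ℝ) ≤ 5 * exp (9 * p₂) *
      cnt (Icc (-((N / 2 : ℕ) : ℤ)) (N / 2 : ℕ)) (InB Θ (exp (-p₁) / 32)) := by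
  have h1 := card_bohrZ Θ (R := 1 / 2) (r := exp (-p₁) / 32) (by positivity) (by norm_num) (N / 2)
  have h3 : (2 * N + 1 : ℝ) ≤ cnt (Icc (-(2 * ((N / 2 : ℕ) : ℤ) + 1)) (2 * ((N / 2 : ℕ) : ℤ) + 1))
      (InB Θ (1 / 2)) := by
    classical
    rw [cnt_eq_card, filter_true_of_mem fun x _ θ _ => norm_T_le _, Int.card_Icc]
    have : 2 * N + 1 ≤ (2 * ((N / 2 : ℕ) : ℤ) + 1 + 1 - -(2 * ((N / 2 : ℕ) : ℤ) + 1)).toNat := by
      omega
    exact_mod_cast this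
  have h4 : 2 * (1 / 2) / (exp (-p₁) / 32) + 1 ≤ exp (3 * p₁) := by
    have h5 : 2 * (1 / 2) / (exp (-p₁) / 32) = 32 * exp p₁ := by
      rw [exp_neg]; field_simp
    have h6 : exp (3 * p₁) = exp (2 * p₁) * exp p₁ := by rw [← exp_add]; ring_nf
    have h7 : (33 : ℝ) ≤ exp (2 * p₁) := exp_four.trans (exp_le_exp.2 (by linarith))
    have h8 : 1 ≤ exp p₁ := one_le_exp (by linarith)
    rw [h5, h6]; nlinarith
  have h5 : (2 * (1 / 2) / (exp (-p₁) / 32) + 1) ^ Θ.card ≤ exp (9 * p₂) := by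
    refine (pow_le_pow_left₀ (by positivity) h4 _).trans ?_
    rw [← exp_nat_mul]
    exact exp_le_exp.2 (by nlinarith)
  exact h3.trans (h1.trans (mul_le_mul_of_nonneg_right (by linarith) (cnt_nonneg _ _)))

/-- the doubling bound for the filtration on pairs -/
lemma doubling (D : Fin 3 → Filt ℤ) (Th : Fin 3 → Finset T) {p₁ p₂ : ℝ} (N : ℕ) (h2 : 2 ≤ p₁)
    (h12 : p₁ ^ 2 ≤ p₂) (hr : ∀ i, ((Th i).card : ℝ) ≤ p₁)
    (he : ∀ i u, InB (Th i) (1 / 8 * exp (-p₁)) u → |(u : ℝ)| ≤ 2 * N → (D i).mem (1 / 8) u) :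
    cnt (Icc (-(N : ℤ)) N ×ˢ Icc (-(N : ℤ)) N) ((Om D N).mem 1) ≤
      exp (19 * p₂) * cnt (Icc (-(N : ℤ)) N ×ˢ Icc (-(N : ℤ)) N) ((Om D N).mem (1 / 2)) := by
  classical
  set Θ : Finset T := univ.biUnion Th with hΘ
  have hc : (Θ.card : ℝ) ≤ 3 * p₁ := by
    have h1 : Θ.card ≤ ∑ i, (Th i).card := card_biUnion_le
    have h3 : (Θ.card : ℝ) ≤ ∑ i, ((Th i).card : ℝ) := by exact_mod_cast h1
    rw [Fin.sum_univ_three] at h3
    linarith [hr 0, hr 1, hr 2]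
  have hb := bohr_big Θ N h2 h12 hc
  set I : Finset ℤ := Icc (-((N / 2 : ℕ) : ℤ)) (N / 2 : ℕ) with hI
  set B := InB Θ (exp (-p₁) / 32) with hB
  have hIa : ∀ b ∈ I, |(b : ℝ)| ≤ 1 / 2 * N := by
    intro b hb
    have h1 : 2 * |b| ≤ N := by
      rw [hI, mem_Icc] at hb
      rcases abs_cases b with h | h <;> omega
    have h3 : 2 * |(b : ℝ)| ≤ N := by exact_mod_cast h1
    linarith
  have h1 : cnt (Icc (-(N : ℤ)) N ×ˢ Icc (-(N : ℤ)) N) ((Om D N).mem 1) ≤ (2 * N + 1) ^ 2 := by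
    refine (cnt_le_card _ _).trans (le_of_eq ?_)
    rw [card_product, Int.card_Icc]
    have : ((N : ℤ) + 1 - -(N : ℤ)).toNat = 2 * N + 1 := by omega
    rw [this]; push_cast; ring
  have h3 : cnt I B * cnt I B ≤
      cnt (Icc (-(N : ℤ)) N ×ˢ Icc (-(N : ℤ)) N) ((Om D N).mem (1 / 2)) := by
    have h4 : cnt I B * cnt I B = cnt (I ×ˢ I) fun w => B w.1 ∧ B w.2 := by
      rw [cnt_eq_card, cnt_eq_card, filter_product, card_product]; push_cast; rfl
    rw [h4]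
    refine cnt_le_of_inj id (fun w hw hw' => ⟨?_,
      fun i => (D i).mono (1 / 8) _ _ (by norm_num) (he i _ ?_ ?_), ?_, ?_⟩)
      fun _ _ _ _ _ _ e => e
    · rw [mem_product, hI, mem_Icc, mem_Icc] at hw
      rw [id, mem_product, mem_Icc, mem_Icc]
      omega
    · refine (hw'.1.add (inB_succ_mul (by positivity) hw'.2 i)).mono
        (subset_biUnion_of_mem Th (mem_univ i)) (le_of_eq (by ring))
    · have h5 := hIa _ (mem_product.1 hw).1
      have h6 := hIa _ (mem_product.1 hw).2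
      have h7 := abs_succ_le i
      simp only [id, y]
      rw [Int.cast_add, Int.cast_mul]
      refine (abs_add_le _ _).trans ?_
      rw [abs_mul]
      nlinarith [abs_nonneg (w.2 : ℝ)]
    · exact hIa _ (mem_product.1 hw).1
    · exact hIa _ (mem_product.1 hw).2
  have h4 : (25 : ℝ) ≤ exp p₂ := by
    have : exp 4 ≤ exp p₂ := exp_le_exp.2 (by nlinarith)
    linarith [exp_four]
  have h5 : exp (19 * p₂) = exp p₂ * (exp (9 * p₂) * exp (9 * p₂)) := by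
    rw [← exp_add, ← exp_add]; ring_nf
  have h6 := cnt_nonneg I B
  calc _ ≤ (2 * N + 1 : ℝ) ^ 2 := h1
    _ ≤ (5 * exp (9 * p₂) * cnt I B) ^ 2 := pow_le_pow_left₀ (by positivity) hb 2
    _ = 25 * (exp (9 * p₂) * exp (9 * p₂)) * (cnt I B * cnt I B) := by ring
    _ ≤ _ := by
      rw [h5]
      exact mul_le_mul (mul_le_mul_of_nonneg_right h4 (by positivity)) h3 (by positivity)
        (by positivity)

/-- a translate which captures the average share -/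
lemma translate {Γ : Type*} [AddCommGroup Γ] (P Ω G : Finset Γ) (hG : G.Nonempty)
    (h : ∀ x ∈ P, ∀ w ∈ Ω, x - w ∈ G) :
    ∃ g, (P.card : ℝ) * Ω.card ≤ G.card * cnt Ω fun w => g + w ∈ P := by
  classical
  have h1 : (P.card : ℝ) * Ω.card ≤ ∑ g ∈ G, cnt Ω fun w => g + w ∈ P := by
    rw [← cnt_product G Ω fun v => v.1 + v.2 ∈ P]
    have h2 : (P.card : ℝ) * Ω.card = cnt (P ×ˢ Ω) fun _ => True := by
      rw [cnt_eq_card, filter_true, card_product]; push_cast; rfl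
    rw [h2]
    refine cnt_le_of_inj (fun v => (v.1 - v.2, v.2)) (fun v hv _ => ⟨?_, ?_⟩)
      fun v _ v' _ _ _ e => ?_
    · exact mem_product.2 ⟨h _ (mem_product.1 hv).1 _ (mem_product.1 hv).2, (mem_product.1 hv).2⟩
    · simpa using (mem_product.1 hv).1
    · simp only [Prod.mk.injEq] at e
      refine Prod.ext ?_ e.2
      have := e.1
      rw [e.2] at this
      exact sub_left_injective this
  obtain ⟨g, -, hg⟩ := exists_max_image G (fun g => cnt Ω fun w => g + w ∈ P) hG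
  refine ⟨g, h1.trans ((sum_le_card_nsmul _ _ _ hg).trans (le_of_eq ?_))⟩
  rw [nsmul_eq_mul]

/-- the set of pairs with a property which is frequent for many points -/
lemma pairs (k j N : ℕ) (R : ℤ → ℤ → Prop) {t : ℝ} (ht : 0 ≤ t)
    (h : t * 2 ^ k ≤ cnt (node k j) fun x => t * N ≤ cnt (Icc (1 : ℤ) N) (R x)) :
    ∃ P : Finset (ℤ × ℤ), t * 2 ^ k * (t * N) ≤ P.card ∧
      ∀ v ∈ P, (∃ x ∈ node k j, v.1 = x) ∧ v.2 ∈ Icc (1 : ℤ) N ∧ R v.1 v.2 := by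
  classical
  refine ⟨((node k j ×ˢ Icc (1 : ℤ) N).filter fun v => R v.1 v.2).image
    fun v => ((v.1 : ℤ), v.2), ?_, fun v hv => ?_⟩
  · rw [card_image_of_injective _ fun v v' e => ?_]
    · rw [← cnt_eq_card, cnt_product]
      refine (mul_le_mul_of_nonneg_right h (by positivity)).trans ?_
      rw [cnt_eq_sum, sum_mul]
      refine sum_le_sum fun x _ => ?_
      split_ifs with hx
      · rw [one_mul]; exact hx
      · rw [zero_mul]; exact cnt_nonneg _ _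
    · simp only [Prod.mk.injEq, Nat.cast_inj] at e
      exact Prod.ext e.1 e.2
  · obtain ⟨w, hw, rfl⟩ := mem_image.1 hv
    obtain ⟨h1, h2⟩ := mem_filter.1 hw
    exact ⟨⟨w.1, (mem_product.1 h1).1, rfl⟩, (mem_product.1 h1).2, h2⟩

lemma norm_sum_three {f : Fin 3 → T} {ε : ℝ} (h : ∀ i, ‖f i‖ ≤ ε) : ‖∑ i, f i‖ ≤ 3 * ε := by
  refine (norm_sum_le _ _).trans ?_
  rw [Fin.sum_univ_three]
  linarith [h 0, h 1, h 2]

variable {c : Cfg} {p p₁ p₃ : ℝ} {s : St} {l ke je : ℕ} {a : Fin 3 → ℕ}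

/-- the entries describe the differences of the local frequency of the total phase -/
lemma diff (hs : c.StOK s l ke je p p₁ p₃) (ha : ∀ i, a i ≠ 0) {x n x' n' z : ℤ}
    (h : Ext3 ke je x n) (h' : Ext3 ke je x' n') (ht : ∀ i, s.asg i (y i x n) = a i)
    (ht' : ∀ i, s.asg i (y i x' n') = a i)
    (hD : ∀ i, (s.ent i (a i)).D.mem 1 (y i x n - y i x' n')) (hz : c.V l (2 ^ ke) z) :
    ‖c.Ψ x n z - c.Ψ x' n' z - ∑ i, (s.ent i (a i)).bt (y i x n - y i x' n') z‖ ≤ 3 * c.q 1 := by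
  rw [Ψ_eq, Ψ_eq, ← sum_sub_distrib, ← sum_sub_distrib]
  exact norm_sum_three fun i =>
    (hs.ent i (a i) (ha i)).e2 _ _ z (h i) (h' i) (ht i) (ht' i) (hD i) hz

lemma ext3 {k j x : ℕ} (hk : k ≤ ke) (hj : j / 2 ^ (ke - k) = je) (hx : x ∈ node k j) {n : ℤ}
    (hn : 3 * |n| ≤ 2 ^ k) : Ext3 ke je x n := fun i => Ext_sub hk hj (Ext3_of_node hx hn i)

lemma Nk_le (hc : c.OK p₃) {k : ℕ} (hb : c.kb ≤ k) (hk : k ≤ ke) :
    32 * (Nk k : ℝ) ≤ 2 ^ ke := by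
  have h1 : 32 * Nk k ≤ 2 ^ ke := (hc.Nk_eq hb).le.trans (Nat.pow_le_pow_right two_pos hk)
  exact_mod_cast h1

/-- the quadratic part is the same at all regular pairs of the type -/
lemma quad (hc : c.OK p₃) (hs : c.StOK s l ke je p p₁ p₃) (ha : ∀ i, a i ≠ 0) {k j x : ℕ}
    (hb : c.kb ≤ k) (hk : k ≤ ke) (hj : j / 2 ^ (ke - k) = je) (hx : x ∈ node k j) {n : ℤ}
    (hn : n ∈ Icc (1 : ℤ) (Nk k)) (hr : Reg s.Irr x n) (ht : ∀ i, s.asg i (y i x n) = a i)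
    {t z : ℤ} (hV : c.V l (Nk k) t) (hz : c.V l (2 ^ ke) z) :
    ‖d2 (Φ c.φ x) n t (2 * z) - ∑ i, (s.ent i (a i)).bt (((i : ℤ) + 1) * t) z‖ ≤ 3 * c.q 1 := by
  have hN : 32 * (Nk k : ℤ) = 2 ^ k := by exact_mod_cast hc.Nk_eq hb
  have hq := hc.q_pos 2
  have ht1 : |t| ≤ Nk k := by
    have h1 := (hc.V_inB hV).2.trans
      (mul_le_of_le_one_right (Nat.cast_nonneg (Nk k)) (hc.q_le_one 2))
    exact_mod_cast h1
  rw [mem_Icc] at hn
  have h1 : Ext3 ke je x n := ext3 hk hj hx (by rw [abs_of_nonneg (by omega)]; omega)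
  have h2 : Ext3 ke je x (n + t) := by
    refine ext3 hk hj hx ?_
    have := abs_add_le n t
    rw [abs_of_nonneg (show 0 ≤ n by omega)] at this
    omega
  have h3 : ∀ i, s.asg i (y i x (n + t)) = s.asg i (y i x n) ∧
      s.prt i (y i x (n + t)) = s.prt i (y i x n) := by
    intro i
    have h4 := h2 i
    rw [y_add_right] at h4 ⊢
    exact hs.inv i _ _ (hr i) (hc.VU_toU hV.toVU i) (h1 i) h4
  have h4 : ∀ i, s.asg i (y i x (n + t)) = a i := fun i => (h3 i).1.trans (ht i)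
  have h5 := diff hs ha h2 h1 h4 ht (fun i => (s.ent i (a i)).D.mono _ _ _
    (exp_le_one_iff.2 (by linarith [hc.two_le]))
    ((hs.ent i (a i) (ha i)).e5 _ _ (h2 i) (h1 i) (h4 i) (ht i) (h3 i).2)) hz
  rw [hc.Ψ_shift (fun i => hs.irr.good i _ (h1 i) (hr i))
    ((hc.V_inB hV).1.mono Subset.rfl (by linarith))
    ((hc.V_inB hz).1.mono Subset.rfl (by linarith))] at h5
  simpa only [y_add_right, add_sub_cancel_left] using h5

/-- the numerical bound -/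
lemma num (C : ℕ) {p₂ p₃ : ℝ} (h4 : 4 ≤ p₂) (h : p₂ ^ (C + 5) ≤ p₃) :
    (84 + 4 * C) * p₂ ≤ p₃ ∧
      256 * (C + 1) * (19 * p₂ + 1) * (exp p₂ * exp (C * (2 * p₂ + 2))) ≤ exp p₃ := by
  have hC : (0 : ℝ) ≤ C := Nat.cast_nonneg C
  have h1 : (84 + 4 * C) * p₂ ≤ p₃ := by
    refine le_trans ?_ h
    rw [pow_succ]
    refine mul_le_mul_of_nonneg_right ?_ (by linarith)
    have h2 : (C : ℝ) + 1 ≤ 4 ^ C := by
      have := one_add_mul_le_pow (a := (3 : ℝ)) (by norm_num) C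
      norm_num at this
      linarith
    calc (84 + 4 * C : ℝ) ≤ 4 ^ C * 4 ^ 4 := by nlinarith
      _ = 4 ^ (C + 4) := (pow_add _ _ _).symm
      _ ≤ _ := pow_le_pow_left₀ (by norm_num) h4 _
  refine ⟨h1, le_trans ?_ (exp_le_exp.2 h1)⟩
  have h2 : (256 : ℝ) ≤ exp (64 * p₂) := by linarith [add_one_le_exp (64 * p₂)]
  have h3 : (C : ℝ) + 1 ≤ exp (C * p₂) := by nlinarith [add_one_le_exp (C * p₂)]
  have h5 : 19 * p₂ + 1 ≤ exp (19 * p₂) := add_one_le_exp _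
  have h6 : exp (C * (2 * p₂ + 2)) ≤ exp (3 * C * p₂) := exp_le_exp.2 (by nlinarith)
  calc _ ≤ exp (64 * p₂) * exp (C * p₂) * exp (19 * p₂) * (exp p₂ * exp (3 * C * p₂)) := by
        gcongr
    _ = _ := by
        rw [← exp_add, ← exp_add, ← exp_add, ← exp_add]; ring_nf

lemma q1_small (hc : c.OK p₃) : 1000 * (exp p₃ * exp p₃) * c.q 1 ≤ 1 := by
  have h1 := hc.Q_ge'
  have h2 := hc.two_le
  have h3 : exp p₃ * exp p₃ ≤ exp (p₃ ^ 4) := by
    rw [← exp_add]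
    refine exp_le_exp.2 ?_
    have : 8 ≤ p₃ ^ 3 := by
      have := pow_le_pow_left₀ (by norm_num) h2 3
      linarith
    nlinarith
  have h4 := Alive.q1_mul hc
  have h5 := hc.q_pos 1
  have h6 := exp_pos (p₃ ^ 4)
  nlinarith

end Type1

open Type1

theorem type1 (hL : LocChangStmt) : ∃ C : ℕ, ∀ (c : Cfg) (p p₁ p₂ p₃ : ℝ) (s : St)
    (l ke je k j : ℕ) (a : Fin 3 → ℕ), c.OK p₃ → 2 ≤ p₁ → p₁ ^ 2 ≤ p₂ → p₂ ^ C ≤ p₃ →
    c.StOK s l ke je p p₁ p₃ → (∀ i, a i ≠ 0) → c.kb ≤ k → k ≤ ke → j / 2 ^ (ke - k) = je →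
    exp (-p₂) * 2 ^ k ≤ cnt (node k j) (fun x => exp (-p₂) * Nk k ≤
      c.Env l s.Irr (fun x n => ∀ i, s.asg i (y i x n) = a i) k x) →
    ∃ (r m : ℕ) (zs : Fin r → ℤ), (r : ℝ) ≤ p₃ ∧ 0 < m ∧ (m : ℝ) ≤ exp p₃ ∧
      (∀ u, c.V (2 * l + 4) (Nk k) (zs u)) ∧
      (∀ x n x' n' : ℤ, Ext3 ke je x n → Ext3 ke je x' n' → (∀ i, s.asg i (y i x n) = a i) →
        (∀ i, s.asg i (y i x' n') = a i) → (∀ i, s.prt i (y i x n) = s.prt i (y i x' n')) →
        |x - x'| * c.Q ≤ 2 ^ k → |n - n'| * c.Q ≤ 2 ^ k →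
        (∀ u, ‖c.Ψ x n (zs u) - c.Ψ x' n' (zs u)‖ ≤ 1 / m) →
        ∀ z, c.V (2 * l + 4) (Nk k) z → ‖c.Ψ x n z - c.Ψ x' n' z‖ ≤ exp (-p₂)) ∧
      ∀ x ∈ node k j, ∀ n ∈ Icc (1 : ℤ) (Nk k), Reg s.Irr x n →
        (∀ i, s.asg i (y i x n) = a i) → c.Killed l (Nk k) (1 / 10) x n := by
  classical
  obtain ⟨C, hL⟩ := hL
  refine ⟨C + 5, fun c p p₁ p₂ p₃ s l ke je k j a hc h1 h12 h23 hs ha hb hk hj hbig => ?_⟩
  have h4 : 4 ≤ p₂ := by nlinarith
  obtain ⟨n1, n2⟩ := num C h4 h23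
  have hC : (0 : ℝ) ≤ C := Nat.cast_nonneg C
  have hN : 32 * (Nk k : ℤ) = 2 ^ k := by exact_mod_cast hc.Nk_eq hb
  have hNr : 32 * (Nk k : ℝ) = 2 ^ k := by exact_mod_cast hc.Nk_eq hb
  have hNe := Nk_le hc hb hk
  have hN0 : (0 : ℝ) < Nk k := by
    have : (0 : ℝ) < 2 ^ k := by positivity
    linarith
  have hV : ∀ z, c.V (2 * l + 4) (Nk k) z → c.V l (2 ^ ke) z :=
    fun z hz => hc.V_mono hz (by omega) (by linarith)
  have hq1 := Alive.q1_le hc
  have hq0 := hc.q_pos 1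
  obtain ⟨P, hP, hPm⟩ := pairs k j (Nk k) (fun x n => Reg s.Irr x n ∧
    (∀ i, s.asg i (y i x n) = a i) ∧ c.Killed l (Nk k) (1 / 20) x n ∧ c.Flat l (Nk k) x n)
    (exp_pos (-p₂)).le hbig
  have hPe : ∀ v ∈ P, Ext3 ke je v.1 v.2 := by
    intro v hv
    obtain ⟨⟨x, hx, e⟩, h2, -⟩ := hPm v hv
    rw [mem_Icc] at h2
    rw [e]
    exact ext3 hk hj hx (by rw [abs_of_nonneg (by omega)]; omega)
  set D : Fin 3 → Filt ℤ := fun i => (s.ent i (a i)).D with hD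
  set q : ℝ := 2 * p₂ + 2 with hq
  have hE : exp (-p₂) * exp p₂ = 1 := by rw [← exp_add]; simp
  have hEq : exp (-(C * q)) * exp (C * q) = 1 := by rw [← exp_add]; simp
  have hE3 : exp (-p₃) * exp p₃ = 1 := by rw [← exp_add]; simp
  have e1 : 1 ≤ exp p₂ := one_le_exp (by linarith)
  have e2 : 1 ≤ exp (C * q) := one_le_exp (by positivity)
  set η : ℝ := exp (-p₂) * exp (-(C * q)) / (4 * (C + 1)) with hη
  set σ : ℝ := η / (16 * (19 * p₂ + 1)) with hσ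
  have hη0 : 0 < η := by positivity
  have hη1 : η ≤ 1 := by
    rw [hη, div_le_one (by positivity), ← exp_add]
    have : exp (-p₂ + -(C * q)) ≤ 1 := exp_le_one_iff.2 (by nlinarith)
    linarith
  have hσ0 : 0 < σ := by positivity
  have hσ1 : σ ≤ 1 := by
    rw [hσ, div_le_one (by positivity)]; linarith
  have hσ3 : exp (-p₃) ≤ σ / 4 := by
    have h5 : σ / 4 = (256 * (C + 1) * (19 * p₂ + 1) * (exp p₂ * exp (C * q)))⁻¹ := by
      rw [hσ, hη, exp_neg, exp_neg]; field_simp; norm_num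
    rw [h5, exp_neg]
    exact inv_anti₀ (by positivity) n2
  have hq3 := q1_small hc
  have e3 : 1 ≤ exp p₃ := one_le_exp (by linarith [hc.two_le])
  have hq4 : 1000 * exp p₃ * c.q 1 ≤ exp (-p₃) := by
    refine le_of_mul_le_mul_right ?_ (exp_pos p₃)
    rw [hE3]; linarith
  obtain ⟨Ω, hΩ⟩ := exists_regSet (Om D (Nk k))
    (Icc (-(Nk k : ℤ)) (Nk k) ×ˢ Icc (-(Nk k : ℤ)) (Nk k)) (K := 19 * p₂) (s := σ) (η := η)
    (fun w hw => by
      have h5 := hw.2.1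
      have h6 := hw.2.2
      rw [one_mul] at h5 h6
      exact mem_product.2 ⟨mem_Icc.2 (abs_le.1 (by exact_mod_cast h5)),
        mem_Icc.2 (abs_le.1 (by exact_mod_cast h6))⟩)
    (by linarith)
    (doubling D (fun i => (s.ent i (a i)).Θ) (Nk k) h1 h12
      (fun i => (hs.ent i (a i) (ha i)).rank) fun i u hu hu' =>
        (hs.ent i (a i) (ha i)).e3 _ u (by norm_num) hu (hu'.trans (by
          have := hc.one_le_Q
          nlinarith)))
    hσ0 hη1 (le_of_eq (by rw [hσ]; field_simp))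
  have hΩ0 : (0 : ℝ) < Ω.card := by exact_mod_cast card_pos.2 ⟨0, hΩ.zero_mem⟩
  obtain ⟨g, hg⟩ := translate P Ω (Ico ((j : ℤ) * 2 ^ k - Nk k) (j * 2 ^ k + 33 * Nk k) ×ˢ
    Ico (1 - (Nk k : ℤ)) (1 + 2 * Nk k)) (by
      have : (0 : ℤ) < Nk k := by exact_mod_cast hN0
      exact Nonempty.product (nonempty_Ico.2 (by omega)) (nonempty_Ico.2 (by omega)))
    (fun v hv w hw => by
      obtain ⟨⟨x, hx, e⟩, h2, -⟩ := hPm v hv
      obtain ⟨-, h5, h6⟩ := hΩ.one w hw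
      rw [one_mul] at h5 h6
      have h7 : |w.1| ≤ Nk k := by exact_mod_cast h5
      have h8 : |w.2| ≤ Nk k := by exact_mod_cast h6
      have h9 := mem_node_int hx
      rw [add_mul, one_mul] at h9
      rw [abs_le] at h7 h8
      rw [mem_Icc] at h2
      rw [mem_product, mem_Ico, mem_Ico, Prod.fst_sub, Prod.snd_sub, e]
      omega)
  rw [card_product, Int.card_Ico, Int.card_Ico,
    show ((j : ℤ) * 2 ^ k + 33 * Nk k - (j * 2 ^ k - Nk k)).toNat = 34 * Nk k by omega,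
    show (1 + 2 * (Nk k : ℤ) - (1 - Nk k)).toNat = 3 * Nk k by omega, cnt_eq_card] at hg
  set S := Ω.filter fun w => g + w ∈ P with hS
  have hSc : exp (-q) * Ω.card ≤ S.card := by
    have h5 : exp (-q) * exp 2 = exp (-p₂) * exp (-p₂) := by
      rw [← exp_add, ← exp_add, hq]; ring_nf
    have h6 : (5 : ℝ) ≤ exp 2 := by
      have := Real.quadratic_le_exp_of_nonneg (x := 2) (by norm_num)
      linarith
    have h7 : 102 * exp (-q) ≤ 32 * (exp (-p₂) * exp (-p₂)) := by nlinarith [exp_pos (-q)]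
    have h8 := (mul_le_mul_of_nonneg_right hP hΩ0.le).trans hg
    rw [← hNr] at h8
    push_cast at h8
    refine le_of_mul_le_mul_left ?_ (show (0 : ℝ) < 102 * (Nk k * Nk k) by positivity)
    have h9 := mul_le_mul_of_nonneg_right h7 (show (0 : ℝ) ≤ Nk k * Nk k * Ω.card by positivity)
    linarith
  obtain ⟨w₀, hw₀⟩ : S.Nonempty := by
    rw [← card_pos]
    have : (0 : ℝ) < S.card := lt_of_lt_of_le (by positivity) hSc
    exact_mod_cast this
  obtain ⟨hw₀Ω, hw₀P⟩ := mem_filter.1 hw₀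
  have hhalf : ∀ w ∈ Ω, ∀ i, (D i).mem (1 / 2) (y i w.1 w.2 - y i w₀.1 w₀.2) := by
    intro w hw i
    have h5 := (D i).add _ _ _ _ ((hΩ.one w hw).1 i) ((D i).neg _ _ ((hΩ.one w₀ hw₀Ω).1 i))
    rw [← sub_eq_add_neg] at h5
    exact (D i).mono _ _ _ (by norm_num) h5
  obtain ⟨r, zs, hr, hzs, hmain⟩ := hL (ℤ × ℤ) ℤ (c.V (2 * l + 4) (Nk k)) Ω S
    ((Om D (Nk k)).mem σ)
    (fun z w => ∑ i, (s.ent i (a i)).bt (y i w.1 w.2 - y i w₀.1 w₀.2) z)
    (fun z w => ∑ i, (s.ent i (a i)).bt (y i w.1 w.2) z) q η (3 * c.q 1) (by linarith) hη0.le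
    (by positivity) (filter_subset _ _) ⟨0, hΩ.zero_mem⟩ hSc (fun w hw => hΩ.inv hw)
    (fun z hz w hw => by
      obtain ⟨hwΩ, hwP⟩ := mem_filter.1 hw
      have hy : ∀ i, y i (g + w).1 (g + w).2 - y i (g + w₀).1 (g + w₀).2 =
          y i w.1 w.2 - y i w₀.1 w₀.2 := fun i => by rw [y_add', y_add']; ring
      have h5 := diff hs ha (hPe _ hwP) (hPe _ hw₀P) (hPm _ hwP).2.2.2.1 (hPm _ hw₀P).2.2.2.1
        (fun i => by rw [hy]; exact (D i).mono _ _ _ (by norm_num) (hhalf w hwΩ i)) (hV z hz)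
      simp only [hy] at h5
      have h6 := (hPm _ hwP).2.2.2.2.2.Ψ_le hz
      have h7 := (hPm _ hw₀P).2.2.2.2.2.Ψ_le hz
      have h8 := norm_sub_le (c.Ψ (g + w).1 (g + w).2 z) (c.Ψ (g + w₀).1 (g + w₀).2 z)
      have h9 := norm_le_norm_add_norm_sub
        (c.Ψ (g + w).1 (g + w).2 z - c.Ψ (g + w₀).1 (g + w₀).2 z)
        (∑ i, (s.ent i (a i)).bt (y i w.1 w.2 - y i w₀.1 w₀.2) z)
      linarith)
    (fun z hz v hv w hw _ => by
      rw [← sum_sub_distrib, ← sum_sub_distrib]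
      refine norm_sum_three fun i => ?_
      rw [show y i (w + v).1 (w + v).2 - y i w₀.1 w₀.2 =
        y i w.1 w.2 - y i w₀.1 w₀.2 + y i v.1 v.2 by rw [y_add']; ring]
      exact (hs.ent i (a i) (ha i)).e1 _ _ z (hhalf w hw i)
        ((D i).mono _ _ _ (by linarith) (hv.1 i)) (hV z hz))
  have hCq : C * q ≤ p₃ := by rw [hq]; nlinarith
  have hA : 0 < 4 * ((C : ℝ) + 1) * q * exp p₂ := by positivity
  refine ⟨r, ⌈4 * ((C : ℝ) + 1) * q * exp p₂⌉₊, zs, hr.trans hCq, Nat.ceil_pos.2 hA, ?_, hzs,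
    fun x n x' n' hx hx' ht ht' hp hxx hnn hz z hzV => ?_, fun x hx n hn hreg ht t t' h5 h6 => ?_⟩
  · have h5 := Nat.ceil_lt_add_one hA.le
    have h6 : (C + 1) * q * exp p₂ ≤ (C + 1) * (19 * p₂ + 1) * (exp p₂ * exp (C * q)) := by
      have : q ≤ 19 * p₂ + 1 := by linarith
      gcongr
      exact le_mul_of_one_le_right (by positivity) e2
    have h7 : 1 ≤ (C + 1) * q * exp p₂ :=
      one_le_mul_of_one_le_of_one_le (one_le_mul_of_one_le_of_one_le (by linarith) (by linarith)) e1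
    linarith
  · have hy : ∀ i, y i (x - x') (n - n') = y i x n - y i x' n' := fun i => by
      simp only [y]; ring
    have hd : ∀ i, (D i).mem (exp (-p₃)) (y i x n - y i x' n') := fun i =>
      (hs.ent i (a i) (ha i)).e5 _ _ (hx i) (hx' i) (ht i) (ht' i) (hp i)
    have hab : ∀ d : ℤ, |d| * c.Q ≤ 2 ^ k → |(d : ℝ)| ≤ σ * Nk k := by
      intro d hd
      have h5 : |(d : ℝ)| * c.Q ≤ 32 * Nk k := by rw [hNr]; exact_mod_cast hd
      have h6 := mul_le_mul_of_nonneg_right h5 hq0.le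
      rw [mul_assoc, Alive.q1_mul hc, mul_one] at h6
      have h7 : 32 * c.q 1 ≤ σ := by nlinarith
      nlinarith
    have hsh : (Om D (Nk k)).mem σ (x - x', n - n') :=
      ⟨fun i => by rw [hy]; exact (D i).mono _ _ _ hσ3 (hd i), hab _ hxx, hab _ hnn⟩
    have hdiff : ∀ z, c.V (2 * l + 4) (Nk k) z → ‖c.Ψ x n z - c.Ψ x' n' z -
        ∑ i, (s.ent i (a i)).bt (y i (x - x') (n - n')) z‖ ≤ 3 * c.q 1 := fun z hz => by
      simp only [hy]
      exact diff hs ha hx hx' ht ht' (fun i => (D i).mono _ _ _ (by linarith) (hd i)) (hV z hz)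
    set m : ℕ := ⌈4 * ((C : ℝ) + 1) * q * exp p₂⌉₊ with hm
    have h5 := hmain (1 / m + 3 * c.q 1) (by positivity) _ hsh (fun u => by
      have h6 := hdiff _ (hzs u)
      have h7 := hz u
      have h8 := norm_le_norm_add_norm_sub (c.Ψ x n (zs u) - c.Ψ x' n' (zs u))
        (∑ i, (s.ent i (a i)).bt (y i (x - x') (n - n')) (zs u))
      dsimp only
      linarith) z hzV
    have h6 := hdiff z hzV
    have h7 := norm_sub_norm_le (c.Ψ x n z - c.Ψ x' n' z)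
      (∑ i, (s.ent i (a i)).bt (y i (x - x') (n - n')) z)
    dsimp only at h5
    have h8 : (C + 1) * q * (1 / m : ℝ) ≤ exp (-p₂) / 4 := by
      have h9 : 4 * ((C : ℝ) + 1) * q * exp p₂ ≤ m := Nat.le_ceil _
      rw [mul_one_div, div_le_div_iff₀ (hA.trans_le h9) (by norm_num)]
      have := mul_le_mul_of_nonneg_left h9 (exp_pos (-p₂)).le
      nlinarith
    have h9 : (C + 1) * (η * exp (C * q)) = exp (-p₂) / 4 := by
      rw [hη, exp_neg (C * q)]; field_simp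
    have h10 : exp (-p₃) ≤ exp (-p₂) := exp_le_exp.2 (by nlinarith)
    have h11 : C * q * c.q 1 ≤ exp p₃ * c.q 1 :=
      mul_le_mul_of_nonneg_right (by linarith [add_one_le_exp p₃]) hq0.le
    have h12 : c.q 1 ≤ exp p₃ * c.q 1 := le_mul_of_one_le_left hq0.le e3
    have h13 : 0 ≤ q * (1 / m : ℝ) := by positivity
    have h14 : 0 ≤ η * exp (C * q) := by positivity
    nlinarith
  · obtain ⟨z, rfl, hz⟩ := hc.VV_half (a := l + 1) (b := 5 * l + 11) h6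
    have hz' : c.V l (2 ^ ke) z := hc.VV_mono hz (by omega) (by omega) (by linarith)
    have h7 : c.V l (Nk k) t := hc.V_mono h5 (by omega) le_rfl
    obtain ⟨⟨x₀, hx₀, e⟩, hn₀, hr₀, ht₀, hk₀, -⟩ := hPm _ hw₀P
    rw [e] at hr₀ ht₀ hk₀
    have h8 := quad hc hs ha hb hk hj hx hn hreg ht h7 hz'
    have h9 := quad hc hs ha hb hk hj hx₀ hn₀ hr₀ ht₀ h7 hz'
    have h10 := hk₀ t _ h5 h6
    have h11 := norm_sub_norm_le (d2 (Φ c.φ x) n t (2 * z))
      (∑ i, (s.ent i (a i)).bt (((i : ℤ) + 1) * t) z)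
    have h12 := norm_le_norm_add_norm_sub (d2 (Φ c.φ x₀) (g + w₀).2 t (2 * z))
      (∑ i, (s.ent i (a i)).bt (((i : ℤ) + 1) * t) z)
    linarith

end Pool.Agent.Tri
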