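import Pool.Agent.Lib.MP_9721b5_an.Tri.Upd1

/-!
The update of the state.
-/

set_option autoImplicit false

open Finset Real

namespace Pool.Agent.Tri

namespace Upd

open Cfg

variable {c : Cfg} {P : ℝ}

lemma mem_node' {k j x : ℕ} (hx : x ∈ node k j) :
    (j : ℤ) * 2 ^ k ≤ x ∧ (x : ℤ) < ((j : ℤ) + 1) * 2 ^ k := by
  obtain ⟨h1, h2⟩ := mem_Ico.1 hx
  exact ⟨by exact_mod_cast h1, by exact_mod_cast h2⟩

lemma card_ext (k j : ℕ) :
    ((Ico (((j : ℤ) - 1) * 2 ^ k) (((j : ℤ) + 2) * 2 ^ k)).card : ℝ) = 3 * 2 ^ k := by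
  rw [Int.card_Ico, show ((j : ℤ) + 2) * 2 ^ k - ((j : ℤ) - 1) * 2 ^ k = ((3 * 2 ^ k : ℕ) : ℤ) by
    push_cast; ring, Int.toNat_natCast]
  push_cast; ring

/-- the greedy family of raw entries -/
lemma exists_family {p p₀ p₁ p₃ : ℝ} {s : St} {l ke je k j : ℕ} {i : Fin 3} (h : c.OK p₃)
    (hp : 2 ≤ p) (hp₀ : p₀ + 2 ≤ p₁) (hs : c.StOK s l ke je p p₁ p₃) (hkb : c.kb ≤ k)
    (hk : k ≤ ke) (hj : j / 2 ^ (ke - k) = je)
    (hB : exp (-p) * 2 ^ k ≤ cnt (node k j)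
      (fun x => Nk k / p ≤ c.Env l s.Irr (fun x n => s.asg i (y i x n) = 0) k x))
    (hR : ∀ X : Finset (ℤ × ℤ), (∀ x ∈ X, (∃ x' ∈ node k j, x.1 = x') ∧
      x.2 ∈ Icc (1 : ℤ) (Nk k) ∧ EPair c l (Nk k) x.1 x.2) →
      exp (-(2 * p)) * 2 ^ k * Nk k ≤ X.card → ∃ (A : Finset ℤ) (Θ' : Finset T),
        (∀ a ∈ A, ∃ x ∈ X, a = y i x.1 x.2) ∧ Raw c i l k p₀ A Θ') :
    ∃ (J : ℕ) (A : ℕ → Finset ℤ) (Θ' : ℕ → Finset T), (J : ℝ) ≤ exp p₁ ∧
      (∀ e < J, Raw c i l k p₀ (A e) (Θ' e) ∧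
        ∀ a ∈ A e, ¬ s.Irr i a ∧ s.asg i a = 0 ∧ Ext k j a) ∧
      ∃ x ∈ node k j, Nk k / (2 * p) ≤
        cnt (Icc (1 : ℤ) (Nk k)) fun n => ∃ e < J, y i x n ∈ A e := by
  classical
  have h2k : (0 : ℝ) < 2 ^ k := by positivity
  have hN : (32 : ℤ) * Nk k = 2 ^ k := by exact_mod_cast h.Nk_eq hkb
  have hp0 : 0 < p := by linarith
  have hN0 : (0 : ℝ) ≤ Nk k := Nat.cast_nonneg _
  obtain ⟨J, A, Θ', h1, h2, x, hx, h3⟩ := greedy
    (Ico (((j : ℤ) - 1) * 2 ^ k) (((j : ℤ) + 2) * 2 ^ k)) (δ := exp (-p₀) * 2 ^ k) (by positivity)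
    (fun A (Θ' : Finset T) => Raw c i l k p₀ A Θ' ∧
      ∀ a ∈ A, ¬ s.Irr i a ∧ s.asg i a = 0 ∧ Ext k j a)
    (fun U => ∃ x ∈ node k j, Nk k / (2 * p) ≤ cnt (Icc (1 : ℤ) (Nk k)) fun n => y i x n ∈ U)
    (by
      intro U hU
      push Not at hU
      let E : ℕ × ℤ → Prop := fun q => (Reg s.Irr q.1 q.2 ∧ s.asg i (y i q.1 q.2) = 0 ∧
        c.Killed l (Nk k) (1 / 20) q.1 q.2 ∧ c.Flat l (Nk k) q.1 q.2) ∧ y i q.1 q.2 ∉ U
      have hext : ∀ q ∈ node k j ×ˢ Icc (1 : ℤ) (Nk k), Ext3 k j q.1 q.2 := by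
        intro q hq
        obtain ⟨hq1, hq2⟩ := mem_product.1 hq
        obtain ⟨h1, h2⟩ := mem_Icc.1 hq2
        refine Ext3_of_node hq1 ?_
        rw [abs_of_nonneg (by linarith)]
        linarith
      obtain ⟨A, Θ', k1, k2⟩ := hR (((node k j ×ˢ Icc (1 : ℤ) (Nk k)).filter E).image
        fun q => ((q.1 : ℤ), q.2))
        (by
          intro x hx
          obtain ⟨q, hq, rfl⟩ := mem_image.1 hx
          obtain ⟨hq1, hq2⟩ := mem_filter.1 hq
          refine ⟨⟨q.1, (mem_product.1 hq1).1, rfl⟩, (mem_product.1 hq1).2, fun i' => ?_,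
            hq2.1.2.2.2⟩
          exact hs.irr.good i' _ (Ext_sub hk hj (hext q hq1 i')) (hq2.1.1 i'))
        (by
          rw [card_image_of_injective _ (fun q q' hq => by
            simp only [Prod.mk.injEq, Nat.cast_inj] at hq
            exact Prod.ext hq.1 hq.2), ← cnt_eq_card, cnt_product]
          have h2p : 2 * p ≤ exp p := by
            have h1 := add_one_le_exp (p - 1)
            have h2 := add_one_le_exp (1 : ℝ)
            have h3 : exp p = exp 1 * exp (p - 1) := by rw [← exp_add]; congr 1; ring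
            rw [h3]
            nlinarith [exp_pos (p - 1)]
          have h4 : exp (-p) ≤ 1 / (2 * p) := by
            rw [exp_neg, one_div]
            exact inv_anti₀ (by linarith) h2p
          calc exp (-(2 * p)) * 2 ^ k * Nk k = exp (-p) * 2 ^ k * (exp (-p) * Nk k) := by
                rw [show -(2 * p) = -p + -p by ring, exp_add]; ring
            _ ≤ cnt (node k j) (fun x => Nk k / p ≤
                  c.Env l s.Irr (fun x n => s.asg i (y i x n) = 0) k x) * (Nk k / (2 * p)) := by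
                refine mul_le_mul hB ?_ (by positivity) (cnt_nonneg _ _)
                rw [div_eq_mul_one_div, mul_comm]
                exact mul_le_mul_of_nonneg_left h4 hN0
            _ ≤ _ := by
                rw [cnt_eq_sum, sum_mul]
                refine sum_le_sum fun x hx => ?_
                split_ifs with hE
                · have h5 : c.Env l s.Irr (fun x n => s.asg i (y i x n) = 0) k x ≤
                      cnt (Icc (1 : ℤ) (Nk k)) (fun n => E (x, n)) +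
                        cnt (Icc (1 : ℤ) (Nk k)) fun n => y i x n ∈ U := by
                    refine le_trans (cnt_mono fun n _ hn => ?_) (cnt_or_le _ _ _)
                    by_cases hnU : y i x n ∈ U
                    · exact Or.inr hnU
                    · exact Or.inl ⟨hn, hnU⟩
                  have h6 := hU x hx
                  have h7 : (Nk k : ℝ) / p = Nk k / (2 * p) + Nk k / (2 * p) := by
                    field_simp; ring
                  linarith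
                · rw [zero_mul]; exact cnt_nonneg _ _)
      have k3 : ∀ a ∈ A, (¬ s.Irr i a ∧ s.asg i a = 0 ∧ Ext k j a) ∧ a ∉ U := by
        intro a ha
        obtain ⟨x, hx, rfl⟩ := k1 a ha
        obtain ⟨q, hq, rfl⟩ := mem_image.1 hx
        obtain ⟨hq1, hq2⟩ := mem_filter.1 hq
        exact ⟨⟨hq2.1.1 i, hq2.1.2.1, hext q hq1 i⟩, hq2.2⟩
      exact ⟨A, Θ', fun a ha => mem_Ico.2 (k3 a ha).1.2.2,
        disjoint_left.2 fun a ha => (k3 a ha).2, k2.big, k2, fun a ha => (k3 a ha).1⟩)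
  refine ⟨J, A, Θ', ?_, h2, x, hx, h3.trans (cnt_mono fun n _ hn => ?_)⟩
  · rw [card_ext, ← mul_assoc] at h1
    have h4 := le_of_mul_le_mul_right h1 h2k
    have h5 : (3 : ℝ) ≤ exp 2 := by linarith [add_one_le_exp (2 : ℝ)]
    have h6 : exp (-p₀) * exp p₀ = 1 := by rw [← exp_add]; simp
    calc (J : ℝ) = J * exp (-p₀) * exp p₀ := by rw [mul_assoc, h6, mul_one]
      _ ≤ exp 2 * exp p₀ := mul_le_mul_of_nonneg_right (h4.trans h5) (exp_pos _).le
      _ = exp (2 + p₀) := (exp_add _ _).symm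
      _ ≤ _ := exp_le_exp.2 (by linarith)
  · obtain ⟨e, he, hn⟩ := mem_biUnion.1 hn
    exact ⟨e, mem_range.1 he, hn⟩

/-- a dense window, moved by a fine shift to the target node -/
lemma exists_shift (h : c.OK P) {p : ℝ} (hp : 0 < p) {k' K j j' x : ℕ} {i : Fin 3} (hK : 5 ≤ K)
    (hkb : c.kb ≤ k') (hkt : k' + K ≤ c.kt) (hj : j' / 2 ^ K = j) (hx : x ∈ node (k' + K) j)
    {U : ℤ → Prop}
    (hU : Nk (k' + K) / (2 * p) ≤ cnt (Icc (1 : ℤ) (Nk (k' + K))) fun n => U (y i x n)) :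
    ∃ b a₀ : ℤ, c.Fine b ∧ |(b : ℝ)| ≤ c.Q * Nk (k' + K) ∧ ((j' : ℤ) - 1) * 2 ^ k' ≤ a₀ ∧
      a₀ ≤ ((j' : ℤ) + 1) * 2 ^ k' ∧
      2 ^ k' / (8 * p) ≤ cnt (Ico a₀ (a₀ + (2 ^ k' : ℕ))) fun y => U (y + b) := by
  obtain ⟨K', rfl⟩ := Nat.exists_eq_add_of_le hK
  have hN : Nk (k' + (5 + K')) = 2 ^ K' * 2 ^ k' := by
    unfold Nk
    rw [show 2 ^ (k' + (5 + K')) = 32 * (2 ^ K' * 2 ^ k') by ring]
    exact Nat.mul_div_cancel_left _ (by norm_num)
  rw [hN] at hU ⊢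
  have hi0 : (0 : ℤ) ≤ (i : ℕ) := Nat.cast_nonneg _
  have hi2 : ((i : ℕ) : ℤ) ≤ 2 := by exact_mod_cast Nat.le_of_lt_succ i.2
  have hw0 : (0 : ℤ) < 2 ^ k' := by positivity
  have hm0 : (0 : ℤ) < 2 ^ K' := by positivity
  have hmw : (0 : ℤ) < 2 ^ K' * 2 ^ k' := by positivity
  obtain ⟨r, hr, h1⟩ := exists_window (x : ℤ) (m := 4 * 2 ^ K') (w := 2 ^ k') (by positivity)
    (by positivity) U (δ := 2 ^ k' / (8 * p)) (by
      refine le_trans (le_of_eq ?_) (hU.trans (cnt_le_of_inj (fun n => y i x n) ?_ ?_))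
      · push_cast; field_simp; ring
      · intro n hn hn'
        refine ⟨?_, hn'⟩
        obtain ⟨h1, h2⟩ := mem_Icc.1 hn
        push_cast at h2
        rw [mem_Ico]
        unfold y
        push_cast
        constructor <;> nlinarith
      · intro n _ n' _ _ _ hnn
        unfold y at hnn
        exact mul_left_cancel₀ (show ((i : ℕ) : ℤ) + 1 ≠ 0 by linarith) (add_left_cancel hnn))
  obtain ⟨hx1, hx2⟩ := mem_node' hx
  have hj1 : (j : ℤ) * 2 ^ (5 + K') ≤ j' := by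
    rw [← hj]; exact_mod_cast Nat.div_mul_le_self _ _
  have hj2 : (j' : ℤ) < ((j : ℤ) + 1) * 2 ^ (5 + K') := by
    have := Nat.lt_mul_div_succ j' (show 0 < 2 ^ (5 + K') by positivity)
    rw [hj, mul_comm] at this
    exact_mod_cast this
  have hr' : (r : ℤ) < 4 * 2 ^ K' := by exact_mod_cast hr
  have hr0 : (0 : ℤ) ≤ r := Nat.cast_nonneg _
  have e1 : (2 : ℤ) ^ (k' + (5 + K')) = 32 * (2 ^ K' * 2 ^ k') := by ring
  have e2 : (2 : ℤ) ^ (5 + K') = 32 * 2 ^ K' := by ring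
  rw [e1] at hx1 hx2
  rw [e2] at hj1 hj2
  have hτ : |(x : ℤ) + r * 2 ^ k' - j' * 2 ^ k'| ≤ 64 * (2 ^ K' * 2 ^ k') := by
    have h2 := mul_le_mul_of_nonneg_right hj1 hw0.le
    have h3 := mul_le_mul_of_nonneg_right hj2.le hw0.le
    have h4 := mul_le_mul_of_nonneg_right hr'.le hw0.le
    have h5 := mul_nonneg hr0 hw0.le
    rw [abs_le]
    constructor <;> nlinarith
  have hkt' : (2 : ℤ) ^ (k' + (5 + K')) ≤ 2 ^ c.kt := pow_le_pow_right₀ one_le_two hkt
  obtain ⟨b, hb, hb'⟩ := h.syn ((x : ℤ) + r * 2 ^ k' - j' * 2 ^ k') (by linarith)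
  have hb1 : |b - ((x : ℤ) + r * 2 ^ k' - j' * 2 ^ k')| ≤ 2 ^ k' := by
    have h2 : (Nk c.kb : ℝ) ≤ 2 ^ k' := by
      have : Nk c.kb ≤ 2 ^ k' := (Nk_mono hkb).trans (Nat.div_le_self _ _)
      exact_mod_cast this
    have h3 := (le_mul_of_one_le_right (abs_nonneg _) (one_le_pow₀ h.one_le_Q)).trans
      (hb'.trans h2)
    exact_mod_cast h3
  obtain ⟨hb2, hb3⟩ := abs_le.1 hb1
  obtain ⟨hτ1, hτ2⟩ := abs_le.1 hτ
  refine ⟨b, x + r * 2 ^ k' - b, hb, ?_, by linarith, by linarith, h1.trans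
    (cnt_le_of_inj (fun y => y - b) ?_ fun _ _ _ _ _ _ hy => sub_left_inj.1 hy)⟩
  · have h2 : (2 : ℤ) ^ k' ≤ 2 ^ K' * 2 ^ k' := le_mul_of_one_le_left hw0.le hm0
    have h3 : |b| ≤ 65 * (2 ^ K' * 2 ^ k') := abs_le.2 ⟨by linarith, by linarith⟩
    have h4 : |(b : ℝ)| ≤ 65 * (2 ^ K' * 2 ^ k') := by exact_mod_cast h3
    push_cast
    exact h4.trans (mul_le_mul_of_nonneg_right (by linarith [h.Q_big]) (by positivity))
  · intro y hy hy'
    rw [mem_Ico] at hy ⊢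
    push_cast at hy ⊢
    exact ⟨⟨by linarith, by linarith⟩, by simpa using hy'⟩

/-- a height with a sparse layer -/
lemma exists_height {p₃ : ℝ} (h : c.OK p₃) {lT k' j' : ℕ} (hl : lT + 1 ≤ c.L) (hkt : k' ≤ c.kt)
    {ι : Type*} (I : Finset ι) (Base : ι → ℤ → Prop)
    (hI : 4 * exp p₃ * I.card ≤ exp (p₃ ^ 4)) :
    ∃ lam : ℝ, c.q 1 ≤ lam ∧ lam ≤ 1 ∧ c.Win (fun y => ∃ m ∈ I, XX c lT (Base m) (lam + c.q 1) y ∧
      ¬ XX c lT (Base m) (lam - c.q 1) y) k' j' (exp (-p₃)) := by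
  have hq := h.q_pos 1
  have hH0 : 0 < ⌈exp (p₃ ^ 4)⌉₊ := Nat.ceil_pos.2 (exp_pos _)
  have hH1 : exp (p₃ ^ 4) ≤ ⌈exp (p₃ ^ 4)⌉₊ := Nat.le_ceil _
  have hH2 : (⌈exp (p₃ ^ 4)⌉₊ : ℝ) ≤ 2 * exp (p₃ ^ 4) := by
    have h1 := Nat.ceil_lt_add_one (exp_pos (p₃ ^ 4)).le
    have h2 : 1 ≤ exp (p₃ ^ 4) := one_le_exp (by have := h.two_le; positivity)
    linarith
  obtain ⟨n, hn, h1⟩ := exists_layer (Ico (((j' : ℤ) - 1) * 2 ^ k') (((j' : ℤ) + 2) * 2 ^ k')) I
    (fun m n y => XX c lT (Base m) ((4 * n - 1) * c.q 1) y)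
    (fun m n y hy => hy.mono (by push_cast; nlinarith)) hH0
  rw [card_ext] at h1
  have hn' : (n : ℝ) + 1 ≤ ⌈exp (p₃ ^ 4)⌉₊ := by exact_mod_cast hn
  have hn0 : (0 : ℝ) ≤ n := Nat.cast_nonneg _
  refine ⟨(4 * n + 1) * c.q 1, by nlinarith, ?_, fun a w hw hE => ?_⟩
  · have h2 := h.Q_ge'
    have h3 := h.q_mul 1
    rw [pow_one] at h3
    have h4 : 4 * (n : ℝ) + 1 ≤ c.Q := by linarith [exp_pos (p₃ ^ 4)]
    nlinarith
  have hw0 : 0 < w := by
    rcases Nat.eq_zero_or_pos w with rfl | hw0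
    · have h2 : (c.Q : ℝ) ^ 2 ≤ Nk c.kb := by exact_mod_cast h.Nk_kb
      have h3 := h.one_le_Q
      simp only [Nat.cast_zero, mul_zero] at hw
      nlinarith
    · exact hw0
  have hE' : ((j' : ℤ) + 2) * 2 ^ k' = ((j' : ℤ) - 1) * 2 ^ k' + (3 * 2 ^ k' : ℕ) := by
    push_cast; ring
  have ha := hE a (mem_Ico.2 ⟨le_rfl, by linarith [show (0 : ℤ) < w by exact_mod_cast hw0]⟩)
  have h2 := h.pack (a := a) (a₀ := ((j' : ℤ) - 1) * 2 ^ k') (w := w) (w₀ := 3 * 2 ^ k')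
    (X := fun y => ∃ m ∈ I, XX c lT (Base m) ((4 * n + 1) * c.q 1 + c.q 1) y ∧
      ¬ XX c lT (Base m) ((4 * n + 1) * c.q 1 - c.q 1) y)
    (X' := fun y => ∃ m ∈ I, XX c lT (Base m) ((4 * (n + 1 : ℕ) - 1) * c.q 1) y ∧
      ¬ XX c lT (Base m) ((4 * n - 1) * c.q 1) y) hw
    (Or.inr fun y hy => by rw [← hE']; exact mem_Ico.2 (hE y hy))
    (by
      obtain ⟨h3, h4⟩ := ha
      have h5 : (2 : ℤ) ^ k' ≤ 2 ^ c.kt := pow_le_pow_right₀ one_le_two hkt
      have h6 : (0 : ℤ) < 2 ^ k' := by positivity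
      rw [abs_of_nonpos (by linarith)]
      push_cast
      linarith)
    (by
      rintro y _ z hz ⟨m, hm, h3, h4⟩ _
      have hU : c.U (lT + 1) z := by simpa using fine_U h hl hz h.Fine_zero
      exact ⟨m, hm, (h3.shift h hU).mono (le_of_eq (by push_cast; ring)),
        fun h5 => h4 ((h5.unshift h hU).mono (le_of_eq (by ring)))⟩)
  rw [← hE'] at h2
  push_cast at h1 h2
  generalize cnt (Ico (((j' : ℤ) - 1) * 2 ^ k') (((j' : ℤ) + 2) * 2 ^ k')) _ = Y at h1 h2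
  generalize hX : cnt (Ico a (a + w)) _ = X at h2 ⊢
  have h3 : (0 : ℝ) < 3 * 2 ^ k' := by positivity
  have h4 : exp (-p₃) * exp p₃ = 1 := by rw [← exp_add]; simp
  have hH : (0 : ℝ) < ⌈exp (p₃ ^ 4)⌉₊ := by exact_mod_cast hH0
  have h5 : 4 * (I.card : ℝ) ≤ exp (-p₃) * ⌈exp (p₃ ^ 4)⌉₊ := by
    calc 4 * (I.card : ℝ) = exp (-p₃) * (4 * exp p₃ * I.card) := by
          rw [show exp (-p₃) * (4 * exp p₃ * I.card) = exp (-p₃) * exp p₃ * (4 * I.card) by ring,
            h4, one_mul]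
      _ ≤ _ := mul_le_mul_of_nonneg_left (hI.trans hH1) (exp_pos _).le
  have h6 : 4 * Y ≤ exp (-p₃) * (3 * 2 ^ k') := by
    refine le_of_mul_le_mul_right ?_ hH
    nlinarith
  refine le_of_mul_le_mul_right (h2.trans ?_) h3
  have hw' : (0 : ℝ) ≤ w := Nat.cast_nonneg _
  nlinarith

/-- building the new state -/
lemma assemble {p p₁ p₃ : ℝ} {s : St} {l l' ke je k' j' : ℕ} (h : c.OK p₃)
    (hs : c.StOK s l ke je p p₁ p₃) (hl : l ≤ l') (hk : k' ≤ ke) (hj : j' / 2 ^ (ke - k') = je)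
    (i : Fin 3) (I : Finset (ℕ × ℕ)) (J : ℕ) (X : ℕ × ℕ → ℤ → Prop) (Lay : ℤ → Prop)
    (En : ℕ → Entry) (hJ : (J : ℝ) ≤ exp p₁)
    (hI : ∀ m ∈ I, m.1 < J ∧ (m.2 : ℝ) ≤ exp (p₃ ^ 3)) (hwin : c.Win Lay k' j' (exp (-p₃)))
    (hinv : ∀ y t, ¬ Lay y → c.U l' t → ∀ m ∈ I, (X m (y + t) ↔ X m y))
    (hent : ∀ e < J, ∀ (Y : ℤ → Prop) (prt : ℤ → ℕ), (∀ y, Y y → X (e, prt y) y) →
      c.EntryOK (En e) i Y prt l' k' j' p₁ p₃)
    (hcov : ∀ (a : ℤ) (w : ℕ), Nk c.kb ≤ w → w ≤ 2 ^ k' → (∀ y ∈ Ico a (a + w), Ext k' j' y) →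
      1 / (32 * p) * w ≤ cnt (Ico a (a + w)) fun y => s.asg i y = 0 ∧ ∃ m ∈ I, X m y) :
    ∃ s' : St, s'.gen = s.gen + 1 ∧ c.StOK s' l' k' j' p p₁ p₃ := by
  classical
  set F := ⌊(s.gen : ℝ) * exp p₁⌋₊ with hF
  have hF0 : (0 : ℝ) ≤ s.gen * exp p₁ := by positivity
  have hF1 : (F : ℝ) ≤ s.gen * exp p₁ := Nat.floor_le hF0
  have hF2 : ∀ y, s.asg i y ≤ F := fun y => Nat.le_floor (hs.asg_le i y)
  let Pm : ℤ → ℕ × ℕ → Prop := fun y m => m ∈ I ∧ X m y
  let asg' : ℤ → ℕ := fun y => if s.asg i y ≠ 0 then s.asg i y else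
    if ∃ m, Pm y m then F + (Classical.epsilon (Pm y)).1 + 1 else 0
  let prt' : ℤ → ℕ := fun y => if s.asg i y ≠ 0 then s.prt i y else
    if ∃ m, Pm y m then (Classical.epsilon (Pm y)).2 else 0
  let ent' : ℕ → Entry := fun a => if F < a ∧ a - F - 1 < J then En (a - F - 1) else s.ent i a
  have tri : ∀ y, (s.asg i y ≠ 0 ∧ asg' y = s.asg i y ∧ prt' y = s.prt i y) ∨
      (∃ m ∈ I, X m y ∧ asg' y = F + m.1 + 1 ∧ prt' y = m.2) ∨
      (s.asg i y = 0 ∧ (¬ ∃ m ∈ I, X m y) ∧ asg' y = 0 ∧ prt' y = 0) := by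
    intro y
    by_cases h1 : s.asg i y ≠ 0
    · exact Or.inl ⟨h1, if_pos h1, if_pos h1⟩
    by_cases h2 : ∃ m, Pm y m
    · have h3 := Classical.epsilon_spec h2
      exact Or.inr (Or.inl ⟨_, h3.1, h3.2, (if_neg h1).trans (if_pos h2),
        (if_neg h1).trans (if_pos h2)⟩)
    · exact Or.inr (Or.inr ⟨not_not.1 h1, h2, (if_neg h1).trans (if_neg h2),
        (if_neg h1).trans (if_neg h2)⟩)
  let s' : St := ⟨Function.update s.asg i asg', Function.update s.prt i prt',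
    Function.update s.Irr i fun y => s.Irr i y ∨ Lay y, Function.update s.ent i ent',
    Function.update s.g i (s.g i + 1)⟩
  have hgen : s'.gen = s.gen + 1 := by
    fin_cases i <;> simp [s', St.gen] <;> ring
  have hgen' : (s'.gen : ℝ) = s.gen + 1 := by rw [hgen]; push_cast; ring
  have hsub : ∀ {y}, Ext k' j' y → Ext ke je y := fun hy => Ext_sub hk hj hy
  have he3 := exp_pos (-p₃)
  have he1 := exp_pos p₁
  have h2k : 2 ^ k' ≤ 2 ^ ke := Nat.pow_le_pow_right (by norm_num) hk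
  refine ⟨s', hgen, ⟨fun i' y hy hn => ?_, fun i' => ?_⟩, fun i' y t hn ht hy hyt => ?_,
    fun i' y => ?_, fun i' y => ?_, fun i' a ha => ?_, fun i' a w hw hw' hE => ?_⟩
  · refine hs.irr.good i' y (hsub hy) fun hi => hn ?_
    by_cases hi' : i' = i
    · subst hi'; simp only [s', Function.update_self]; exact Or.inl hi
    · simp only [s', Function.update_of_ne hi']; exact hi
  · rw [hgen']
    by_cases hi' : i' = i
    · subst hi'
      simp only [s', Function.update_self]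
      intro a w hw hE
      have h1 := (hs.irr.win i').sub hk hj le_rfl a w hw hE
      have h2 := hwin a w hw hE
      have h3 := cnt_or_le (Ico a (a + w)) (s.Irr i') Lay
      linarith
    · simp only [s', Function.update_of_ne hi']
      exact (hs.irr.win i').sub hk hj (by linarith)
  · by_cases hi' : i' = i
    · subst hi'
      simp only [s', Function.update_self] at hn ⊢
      obtain ⟨h1, h2⟩ := hs.inv i' y t (fun hi => hn (Or.inl hi)) (h.U_mono ht hl) (hsub hy)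
        (hsub hyt)
      have h3 : Pm (y + t) = Pm y := by
        funext m
        exact propext (and_congr_right fun hm => hinv y t (fun hi => hn (Or.inr hi)) ht m hm)
      simp only [asg', prt', h1, h2, h3, and_self]
    · simp only [s', Function.update_of_ne hi'] at hn ⊢
      exact hs.inv i' y t hn (h.U_mono ht hl) (hsub hy) (hsub hyt)
  · rw [hgen']
    by_cases hi' : i' = i
    · subst hi'
      simp only [s', Function.update_self]
      rcases tri y with ⟨-, h1, -⟩ | ⟨m, hm, -, h1, -⟩ | ⟨-, -, h1, -⟩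
      · rw [h1]; linarith [hs.asg_le i' y]
      · rw [h1]
        have h2 : (m.1 : ℝ) + 1 ≤ J := by exact_mod_cast (hI m hm).1
        push_cast
        linarith
      · rw [h1]; push_cast; linarith
    · simp only [s', Function.update_of_ne hi']
      linarith [hs.asg_le i' y]
  · by_cases hi' : i' = i
    · subst hi'
      simp only [s', Function.update_self]
      rcases tri y with ⟨-, -, h1⟩ | ⟨m, hm, -, -, h1⟩ | ⟨-, -, -, h1⟩
      · rw [h1]; exact hs.prt_le i' y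
      · rw [h1]; exact (hI m hm).2
      · rw [h1]; push_cast; exact (exp_pos _).le
    · simp only [s', Function.update_of_ne hi']
      exact hs.prt_le i' y
  · by_cases hi' : i' = i
    · subst hi'
      simp only [s', Function.update_self]
      by_cases h0 : F < a ∧ a - F - 1 < J
      · rw [show ent' a = En (a - F - 1) from if_pos h0]
        refine hent _ h0.2 _ _ fun y hy => ?_
        rcases tri y with ⟨-, h1, -⟩ | ⟨m, hm, h3, h1, h2⟩ | ⟨-, -, h1, -⟩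
        · have := hF2 y; omega
        · rw [h2, show a - F - 1 = m.1 by omega]; exact h3
        · omega
      · rw [show ent' a = s.ent i' a from if_neg h0]
        refine entry_mono h (hs.ent i' a ha) hl hk hj fun y hy => ?_
        rcases tri y with ⟨-, h1, h2⟩ | ⟨m, hm, -, h1, -⟩ | ⟨-, -, h1, -⟩
        · exact ⟨h1 ▸ hy, h2⟩
        · have := (hI m hm).1; omega
        · omega
    · simp only [s', Function.update_of_ne hi']
      exact entry_mono h (hs.ent i' a ha) hl hk hj fun y hy => ⟨hy, rfl⟩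
  · have h1 := hs.cov i' a w hw (hw'.trans h2k) fun y hy => hsub (hE y hy)
    by_cases hi' : i' = i
    · subst hi'
      simp only [s', Function.update_self]
      have h2 := hcov a w hw hw' hE
      have h3 : cnt (Ico a (a + w)) (fun y => s.asg i' y ≠ 0) +
          cnt (Ico a (a + w)) (fun y => s.asg i' y = 0 ∧ ∃ m ∈ I, X m y) ≤
          cnt (Ico a (a + w)) fun y => asg' y ≠ 0 := by
        rw [cnt_eq_sum, cnt_eq_sum, cnt_eq_sum, ← sum_add_distrib]
        refine sum_le_sum fun y _ => ?_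
        rcases tri y with ⟨h3, h4, -⟩ | ⟨m, hm, -, h4, -⟩ | ⟨h3, h4, -, -⟩
        · rw [if_pos h3, if_neg fun h5 => h3 h5.1, if_pos (h4 ▸ h3), add_zero]
        · rw [if_pos (show asg' y ≠ 0 by omega)]
          by_cases h3 : s.asg i' y = 0
          · rw [if_neg (not_not.2 h3), zero_add]; split_ifs <;> norm_num
          · rw [if_pos h3, if_neg fun h5 => h3 h5.1, add_zero]
        · rw [if_neg (not_not.2 h3), if_neg fun h5 => h4 h5.2, add_zero]
          split_ifs <;> norm_num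
      push_cast
      rw [add_div, add_mul]
      linarith
    · simp only [s', Function.update_of_ne hi']
      exact h1

end Upd

open _root_.Pool.Agent.Tri.Upd Cfg in
theorem upd (hR : RawStmt) : UpdStmt := by
  obtain ⟨C, hR⟩ := hR
  refine ⟨2 * C + 2, fun c p p₁ p₃ s l ke je k j i h hp hp₁ hp₃ hL hkt hs hkb hk hj hB hK j' hj' =>
    ?_⟩
  have hp1 : (1 : ℝ) ≤ p := by linarith
  have hp₀ : 1 ≤ (2 * p) ^ C := one_le_pow₀ (by linarith)
  have hp₀' : 4 * (2 * p) ^ C ≤ p₁ := by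
    refine le_trans ?_ hp₁
    rw [pow_add, pow_mul, mul_comm (4 : ℝ)]
    exact mul_le_mul (pow_le_pow_left₀ (by linarith) (by nlinarith) _) (by nlinarith) (by norm_num)
      (by positivity)
  have hp4 : 4 ≤ p₁ := by linarith
  have hp13 : 4 * p₁ ≤ p₃ := by nlinarith
  obtain ⟨J, A, Θ', hJ, hA, x, hx, hxU⟩ := exists_family (p₀ := (2 * p) ^ C) h hp (by linarith) hs
    hkb hk hj hB fun X hX hX' => hR c (2 * p) p₃ l k j i X h (by linarith) (by linarith) hkb hX hX'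
  have hn := nxt_ge c l
  have hlq := h.one_le_lq
  set K := 5 * c.nxt l * c.lq with hKdef
  have hK5 : 5 ≤ K := by nlinarith
  obtain ⟨k', rfl⟩ : ∃ k', k = k' + K := ⟨k - K, by omega⟩
  rw [Nat.add_sub_cancel]
  have hkb' : c.kb ≤ k' := by omega
  have hk' : k' ≤ ke := by omega
  have hjj : j' / 2 ^ (ke - k') = je := by
    rw [← hj, ← hj', Nat.div_div_eq_div_mul, ← pow_add]
    congr 2
    omega
  obtain ⟨b, a₀, hb, hb', ha₀, ha₀', hcov⟩ := exists_shift h (p := p) (by linarith) hK5 hkb'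
    (hk.trans hkt) hj' hx (U := fun y => ∃ e < J, y ∈ A e) hxU
  have hr : 0 < exp (-p₃) * exp (-p₁) := by positivity
  choose M lab hM hlab hlab' using fun e =>
    ball_parts (Θ' e) (fun t => zmultiplesHom T t) hr (show (0 : ℝ) ≤ 1 / 2 by norm_num)
  have hM' : ∀ e < J, M e ≤ ⌊exp (p₃ ^ 2)⌋₊ := by
    intro e he
    refine Nat.le_floor ((hM e).trans ?_)
    have h1 : 2 * (1 / 2) / (exp (-p₃) * exp (-p₁)) = exp (p₃ + p₁) := by
      rw [← exp_add, show -p₃ + -p₁ = -(p₃ + p₁) by ring, exp_neg]; field_simp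
    have h2 : exp (p₃ + p₁) + 1 ≤ exp (p₃ + p₁ + 1) := by
      rw [exp_add _ 1]
      have h3 := add_one_le_exp (1 : ℝ)
      have h4 : 1 ≤ exp (p₃ + p₁) := one_le_exp (by linarith)
      nlinarith
    have h3 : ((Θ' e).card : ℝ) ≤ p₁ := (hA e he).1.rank.trans (by linarith)
    rw [h1]
    calc (exp (p₃ + p₁) + 1) ^ (Θ' e).card ≤ exp (p₃ + p₁ + 1) ^ (Θ' e).card :=
          pow_le_pow_left₀ (by positivity) h2 _
      _ = exp ((Θ' e).card * (p₃ + p₁ + 1)) := (exp_nat_mul _ _).symm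
      _ ≤ _ := exp_le_exp.2 (by nlinarith)
  have hMx : (⌊exp (p₃ ^ 2)⌋₊ : ℝ) ≤ exp (p₃ ^ 2) := Nat.floor_le (exp_pos _).le
  have hlT : c.nxt l - 1 + 1 = c.nxt l := by omega
  obtain ⟨lam, hl0, hl1, hwin⟩ := exists_height h (lT := c.nxt l - 1) (k' := k') (j' := j')
    (by omega) (hk'.trans hkt) (range J ×ˢ range ⌊exp (p₃ ^ 2)⌋₊)
    (fun m a => a + b ∈ A m.1 ∧ Ext k' j' a ∧ lab m.1 a = m.2)
    (by
      rw [card_product, card_range, card_range]
      push_cast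
      have h1 : (4 : ℝ) ≤ exp 3 := by linarith [add_one_le_exp (3 : ℝ)]
      calc 4 * exp p₃ * (J * (⌊exp (p₃ ^ 2)⌋₊ : ℝ))
          ≤ exp 3 * exp p₃ * (exp p₁ * exp (p₃ ^ 2)) := by gcongr
        _ = exp (3 + p₃ + (p₁ + p₃ ^ 2)) := by simp only [exp_add]
        _ ≤ _ := exp_le_exp.2 (by nlinarith [sq_nonneg (p₃ ^ 2 - 4)]))
  have hkq : (2 : ℝ) ^ k' ≤ 2 ^ (k' + K) * c.q (5 * c.nxt l) := by
    have h1 : (c.Q : ℝ) ^ (5 * c.nxt l) ≤ 2 ^ K := by
      rw [hKdef, mul_comm (5 * c.nxt l), pow_mul (2 : ℝ)]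
      exact pow_le_pow_left₀ (Nat.cast_nonneg _) (by exact_mod_cast c.Q_le_two_pow) _
    calc (2 : ℝ) ^ k' = 2 ^ k' * ((c.Q : ℝ) ^ (5 * c.nxt l) * c.q (5 * c.nxt l)) := by
          rw [h.q_mul, mul_one]
      _ ≤ 2 ^ k' * (2 ^ K * c.q (5 * c.nxt l)) :=
          mul_le_mul_of_nonneg_left (mul_le_mul_of_nonneg_right h1 (c.q_nonneg _)) (by positivity)
      _ = _ := by ring
  have hZ : c.Zl (2 * l + 5) (Nk (k' + K)) b := h.Fine_Zl (by omega) hb hb'
  have hex : ∀ e, ∃ E : Entry, e < J → ∀ (Y : ℤ → Prop) (prt : ℤ → ℕ),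
      (∀ y, Y y → XX c (c.nxt l - 1)
        (fun a => a + b ∈ A e ∧ Ext k' j' a ∧ lab e a = prt y) 1 y) →
      c.EntryOK E i Y prt (c.nxt l) k' j' p₁ p₃ := by
    intro e
    by_cases he : e < J
    · obtain ⟨E, hE⟩ := new_entry h (hA e he).1 (p₁ := p₁) (by linarith) (by linarith) (by linarith)
        hZ (j' := j') hkb hkq (lab e) fun x y hxy θ hθ =>
          hlab' e x y (fun _ _ => norm_T_le _) (fun _ _ => norm_T_le _) hxy θ hθ
      exact ⟨E, fun _ => hE⟩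
    · exact ⟨s.ent i 0, fun h => absurd h he⟩
  choose En hEn using hex
  refine assemble h hs (by omega) hk' hjj i (range J ×ˢ range ⌊exp (p₃ ^ 2)⌋₊) J
    (fun m => XX c (c.nxt l - 1) (fun a => a + b ∈ A m.1 ∧ Ext k' j' a ∧ lab m.1 a = m.2) lam) _
    En hJ (fun m hm => ?_) hwin (fun y t hy ht m hm => ?_) (fun e he Y prt hY => ?_)
    fun a w hw hw' hE => ?_
  · obtain ⟨h1, h2⟩ := mem_product.1 hm
    refine ⟨mem_range.1 h1, ?_⟩
    have h3 : (m.2 : ℝ) ≤ ⌊exp (p₃ ^ 2)⌋₊ := by exact_mod_cast (mem_range.1 h2).le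
    exact h3.trans (hMx.trans (exp_le_exp.2 (pow_le_pow_right₀ (by linarith) (by norm_num))))
  · exact XX.inv h (fun h1 => hy ⟨m, hm, h1⟩) (hlT.symm ▸ ht)
  · exact hEn e he Y prt fun y hy => (hY y hy).mono hl1
  · have hw0 : 0 < w := lt_of_lt_of_le (lt_of_lt_of_le (pow_pos h.pos 2) h.Nk_kb) hw
    obtain ⟨ha1, ha2⟩ := hE a
      (mem_Ico.2 ⟨le_rfl, by linarith [show (0 : ℤ) < w by exact_mod_cast hw0]⟩)
    have h1 := h.cover (a := a) (a₀ := a₀) (w := w) (w₀ := 2 ^ k')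
      (X := fun y => ∃ e < J, y + b ∈ A e)
      (X' := fun y => s.asg i y = 0 ∧ ∃ m ∈ range J ×ˢ range ⌊exp (p₃ ^ 2)⌋₊,
        XX c (c.nxt l - 1) (fun a => a + b ∈ A m.1 ∧ Ext k' j' a ∧ lab m.1 a = m.2) lam y)
      (by
        have h1 : (Nk c.kb : ℝ) ≤ w := by exact_mod_cast hw
        exact h1.trans (le_mul_of_one_le_left (Nat.cast_nonneg _) h.one_le_Q)) hw'
      (by
        have h5 : (2 : ℤ) ^ k' ≤ 2 ^ c.kt := pow_le_pow_right₀ one_le_two (hk'.trans hkt)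
        have h6 : (0 : ℤ) < 2 ^ k' := by positivity
        have h7 : |a₀ - a| ≤ 3 * 2 ^ k' := abs_le.2 ⟨by linarith, by linarith⟩
        push_cast
        linarith)
      (by
        rintro y hy z hz ⟨e, he, hye⟩ hyz
        obtain ⟨k1, k2, k3⟩ := (hA e he).2 _ hye
        have hyE : Ext k' j' y := by
          obtain ⟨k4, k5⟩ := mem_Ico.1 hy
          push_cast at k5
          exact ⟨by linarith, by linarith⟩
        have e1 : y + z = y + b + (z + -b) := by ring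
        refine ⟨?_, (e, lab e y), mem_product.2 ⟨mem_range.2 he,
          mem_range.2 ((hlab e y).trans_le (hM' e he))⟩, ?_⟩
        · rw [← k2, e1]
          exact (hs.inv i _ _ k1 (fine_U h (by omega) hz hb.neg) (Ext_sub hk hj k3)
            (e1 ▸ Ext_sub hk' hjj (hE _ hyz))).1
        · have hU : c.U (c.nxt l - 1 + 1) z := by
            simpa using fine_U h (l := c.nxt l - 1 + 1) (by omega) hz h.Fine_zero
          exact ((XX.base ⟨hye, hyE, rfl⟩).shift h hU).mono (by linarith))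
    have h2 : (0 : ℝ) < 2 ^ k' := by positivity
    have h3 := mul_le_mul_of_nonneg_right hcov (Nat.cast_nonneg (α := ℝ) w)
    have h4 := h3.trans h1
    push_cast at h4
    refine le_of_mul_le_mul_left (le_trans (le_of_eq ?_) h4) (show (0 : ℝ) < 4 * 2 ^ k' by positivity)
    field_simp
    ring

end Pool.Agent.Tri
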