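import Pool.Agent.Lib.MP_9721b5_an.Tri.SBase
import Pool.Agent.Lib.MP_9721b5_an.Tri.Tile

/-!
Tools for the update of the state: greedy families, windows, layers, new entries.
-/

set_option autoImplicit false

open Finset Real

namespace Pool.Agent.Tri

namespace Upd

open Cfg

/-- greedy choice of disjoint large sets until a stopping condition holds -/
lemma greedy {α β : Type*} [DecidableEq α] [Inhabited β] (W : Finset α) {δ : ℝ} (hδ : 0 < δ)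
    (Pr : Finset α → β → Prop) (Stop : Finset α → Prop)
    (step : ∀ U : Finset α, ¬ Stop U →
      ∃ A b, A ⊆ W ∧ Disjoint A U ∧ δ ≤ A.card ∧ Pr A b) :
    ∃ (J : ℕ) (A : ℕ → Finset α) (b : ℕ → β), J * δ ≤ W.card ∧ (∀ e < J, Pr (A e) (b e)) ∧
      Stop ((range J).biUnion A) := by
  have key : ∀ n : ℕ, ∃ (J : ℕ) (A : ℕ → Finset α) (b : ℕ → β),
      (range J).biUnion A ⊆ W ∧ J * δ ≤ ((range J).biUnion A).card ∧ (∀ e < J, Pr (A e) (b e)) ∧
      (Stop ((range J).biUnion A) ∨ J = n) := by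
    intro n
    induction n with
    | zero => exact ⟨0, fun _ => ∅, fun _ => default, by simp, by simp, by simp, Or.inr rfl⟩
    | succ n ih =>
      obtain ⟨J, A, b, h1, h2, h3, h4⟩ := ih
      by_cases hs : Stop ((range J).biUnion A)
      · exact ⟨J, A, b, h1, h2, h3, Or.inl hs⟩
      obtain rfl : J = n := h4.resolve_left hs
      obtain ⟨A', b', k1, k2, k3, k4⟩ := step _ hs
      have hU : (range (J + 1)).biUnion (Function.update A J A') =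
          A' ∪ (range J).biUnion A := by
        rw [range_add_one, biUnion_insert, Function.update_self]
        congr 1
        refine biUnion_congr rfl fun e he => ?_
        rw [Function.update_of_ne (mem_range.1 he).ne]
      refine ⟨J + 1, Function.update A J A', Function.update b J b', ?_, ?_, ?_, Or.inr rfl⟩
      · rw [hU]; exact union_subset k1 h1
      · rw [hU, card_union_of_disjoint k2]; push_cast; linarith
      · intro e he
        rcases Nat.lt_succ_iff_lt_or_eq.1 he with h | rfl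
        · rw [Function.update_of_ne h.ne, Function.update_of_ne h.ne]; exact h3 e h
        · rw [Function.update_self, Function.update_self]; exact k4
  obtain ⟨n, hn⟩ := exists_nat_gt ((W.card : ℝ) / δ)
  obtain ⟨J, A, b, h1, h2, h3, h4⟩ := key n
  have h5 : (J : ℝ) * δ ≤ W.card := h2.trans (by exact_mod_cast card_le_card h1)
  refine ⟨J, A, b, h5, h3, h4.resolve_right ?_⟩
  rintro rfl
  rw [div_lt_iff₀ hδ] at hn
  linarith

/-- a dense sub-window -/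
lemma exists_window (a : ℤ) {m w : ℕ} (hm : 0 < m) (hw : 0 < w) (P : ℤ → Prop) {δ : ℝ}
    (h : m * δ ≤ cnt (Ico a (a + m * w)) P) :
    ∃ r < m, δ ≤ cnt (Ico (a + r * w) (a + r * w + w)) P := by
  have h1 : cnt (Ico a (a + m * w)) P ≤
      ∑ r ∈ range m, cnt (Ico (a + r * w) (a + r * w + w)) P := by
    calc cnt (Ico a (a + m * w)) P
        ≤ cnt (Ico a (a + m * w))
            (fun y => ∃ r ∈ range m, y ∈ Ico (a + r * w) (a + r * w + w) ∧ P y) := by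
          refine cnt_mono fun y hy hP => ?_
          rw [mem_Ico] at hy
          have hw' : (0 : ℤ) < w := by exact_mod_cast hw
          have h0 : 0 ≤ (y - a) / w := Int.ediv_nonneg (by linarith) hw'.le
          have h2 := Int.mul_ediv_add_emod (y - a) w
          have h3 := Int.emod_nonneg (y - a) hw'.ne'
          have h4 := Int.emod_lt_of_pos (y - a) hw'
          have h5 : (y - a) / w < m := Int.ediv_lt_of_lt_mul hw' (by linarith)
          refine ⟨((y - a) / w).toNat, mem_range.2 (by omega), ?_, hP⟩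
          rw [Int.toNat_of_nonneg h0, mem_Ico]
          constructor <;> nlinarith
      _ ≤ ∑ r ∈ range m, cnt (Ico a (a + m * w))
            (fun y => y ∈ Ico (a + r * w) (a + r * w + w) ∧ P y) := cnt_exists_le _ _ _
      _ ≤ _ := sum_le_sum fun r _ =>
          cnt_le_of_inj id (fun y _ hy => hy) fun _ _ _ _ _ _ h => h
  by_contra hc
  push Not at hc
  have h2 : ∑ r ∈ range m, cnt (Ico (a + r * w) (a + r * w + w)) P < ∑ _r ∈ range m, δ :=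
    sum_lt_sum_of_nonempty (nonempty_range_iff.2 hm.ne') fun r hr => hc r (mem_range.1 hr)
  rw [sum_const, card_range, nsmul_eq_mul] at h2
  linarith

lemma sum_layers {α : Type*} (S : Finset α) (Z : ℕ → α → Prop) (hZ : ∀ h x, Z h x → Z (h + 1) x)
    (H : ℕ) : ∑ h ∈ range H, cnt S (fun x => Z (h + 1) x ∧ ¬ Z h x) ≤ cnt S (Z H) := by
  induction H with
  | zero => simpa using cnt_nonneg _ _
  | succ H ih =>
    rw [sum_range_succ]
    have : cnt S (Z H) + cnt S (fun x => Z (H + 1) x ∧ ¬ Z H x) ≤ cnt S (Z (H + 1)) := by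
      rw [cnt_eq_sum, cnt_eq_sum, cnt_eq_sum, ← sum_add_distrib]
      refine sum_le_sum fun x _ => ?_
      by_cases h1 : Z H x
      · simp [h1, hZ H x h1]
      · by_cases h2 : Z (H + 1) x <;> simp [h1, h2]
    linarith

/-- a height at which all layers are small -/
lemma exists_layer {α ι : Type*} (S : Finset α) (I : Finset ι) (Z : ι → ℕ → α → Prop)
    (hZ : ∀ m h x, Z m h x → Z m (h + 1) x) {H : ℕ} (hH : 0 < H) :
    ∃ h < H, cnt S (fun x => ∃ m ∈ I, Z m (h + 1) x ∧ ¬ Z m h x) * H ≤ I.card * S.card := by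
  have h1 : ∑ h ∈ range H, cnt S (fun x => ∃ m ∈ I, Z m (h + 1) x ∧ ¬ Z m h x) ≤
      I.card * S.card := by
    calc _ ≤ ∑ h ∈ range H, ∑ m ∈ I, cnt S (fun x => Z m (h + 1) x ∧ ¬ Z m h x) :=
          sum_le_sum fun h _ => cnt_exists_le _ _ _
      _ = ∑ m ∈ I, ∑ h ∈ range H, cnt S (fun x => Z m (h + 1) x ∧ ¬ Z m h x) := sum_comm
      _ ≤ ∑ _m ∈ I, (S.card : ℝ) :=
          sum_le_sum fun m _ => (sum_layers S (Z m) (hZ m) H).trans (cnt_le_card _ _)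
      _ = _ := by rw [sum_const, nsmul_eq_mul]
  by_contra hc
  push Not at hc
  have h2 : ∑ _h ∈ range H, (I.card : ℝ) * S.card <
      ∑ h ∈ range H, cnt S (fun x => ∃ m ∈ I, Z m (h + 1) x ∧ ¬ Z m h x) * H :=
    sum_lt_sum_of_nonempty (nonempty_range_iff.2 hH.ne') fun h hh => hc h (mem_range.1 hh)
  rw [sum_const, card_range, nsmul_eq_mul, ← sum_mul] at h2
  have hH' : (0 : ℝ) < H := by exact_mod_cast hH
  nlinarith

variable {c : Cfg} {P : ℝ}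

/-- the thickening of a base -/
def XX (c : Cfg) (lT : ℕ) (Base : ℤ → Prop) (lam : ℝ) (y : ℤ) : Prop :=
  ∃ a w : ℤ, Base a ∧ y = a + (c.Q : ℤ) ^ lT * w ∧ InB c.Θ (lam * c.q (5 * lT + 3)) w

lemma XX.mono {lT : ℕ} {Base : ℤ → Prop} {lam lam' : ℝ} {y : ℤ} (h : XX c lT Base lam y)
    (hl : lam ≤ lam') : XX c lT Base lam' y := by
  obtain ⟨a, w, h1, h2, h3⟩ := h
  exact ⟨a, w, h1, h2, h3.mono subset_rfl (mul_le_mul_of_nonneg_right hl (c.q_nonneg _))⟩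

lemma XX.base {lT : ℕ} {Base : ℤ → Prop} {a : ℤ} (h : Base a) : XX c lT Base 0 a :=
  ⟨a, 0, h, by simp, InB.zero _ (by simp)⟩

lemma XX.shift (h : c.OK P) {lT : ℕ} {Base : ℤ → Prop} {lam : ℝ} {y t : ℤ}
    (hy : XX c lT Base lam y) (ht : c.U (lT + 1) t) : XX c lT Base (lam + c.q 1) (y + t) := by
  obtain ⟨a, w, h1, h2, h3⟩ := hy
  obtain ⟨w', k1, k2⟩ := ht
  refine ⟨a, w + (c.Q : ℤ) ^ 1 * w', h1, by rw [h2, k1]; ring, ?_⟩
  have := h.inB_pow (m := 1) (b' := 1 + (5 * lT + 3)) k2 (by omega)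
  rw [q_add] at this
  rw [add_mul]
  exact h3.add this

lemma U_neg {l : ℕ} {t : ℤ} (ht : c.U l t) : c.U l (-t) := by
  obtain ⟨w, h1, h2⟩ := ht
  exact ⟨-w, by rw [h1]; ring, h2.neg⟩

lemma XX.unshift (h : c.OK P) {lT : ℕ} {Base : ℤ → Prop} {lam : ℝ} {y t : ℤ}
    (hy : XX c lT Base lam (y + t)) (ht : c.U (lT + 1) t) : XX c lT Base (lam + c.q 1) y := by
  simpa using hy.shift h (U_neg ht)

/-- off the layer, membership is invariant -/
lemma XX.inv (h : c.OK P) {lT : ℕ} {Base : ℤ → Prop} {lam : ℝ} {y t : ℤ}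
    (hy : ¬ (XX c lT Base (lam + c.q 1) y ∧ ¬ XX c lT Base (lam - c.q 1) y))
    (ht : c.U (lT + 1) t) : XX c lT Base lam (y + t) ↔ XX c lT Base lam y := by
  have hq := c.q_nonneg 1
  by_cases h1 : XX c lT Base (lam - c.q 1) y
  · refine iff_of_true ?_ (h1.mono (by linarith))
    simpa using h1.shift h ht
  · have h2 : ¬ XX c lT Base (lam + c.q 1) y := fun h2 => hy ⟨h2, h1⟩
    exact iff_of_false (fun h3 => h2 (h3.unshift h ht)) fun h3 => h2 (h3.mono (by linarith))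

lemma fine_U (h : c.OK P) {l : ℕ} (hl : l ≤ c.L) {t t' : ℤ} (ht : c.Fine t) (ht' : c.Fine t') :
    c.U l (t + t') := by
  simpa using h.VU_toU (h.Fine_VU hl ht ht') 0

lemma ext_dist {k j : ℕ} {a y : ℤ} (ha : Ext k j a) (hy : Ext k j y) :
    |((y - a : ℤ) : ℝ)| ≤ 3 * 2 ^ k := by
  obtain ⟨h1, h2⟩ := ha
  obtain ⟨h3, h4⟩ := hy
  have : |y - a| ≤ 3 * 2 ^ k := abs_le.2 ⟨by linarith, by linarith⟩
  exact_mod_cast this

/-- the offset of a point of the thickening from its base point -/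
lemma offset_mem (h : c.OK P) {lT k' : ℕ} {N : ℝ} (hN : (2 : ℝ) ^ k' ≤ 32 * N * c.q (5 * lT + 5))
    {w : ℤ} (hw : InB c.Θ (1 * c.q (5 * lT + 3)) w)
    (hd : |(((c.Q : ℤ) ^ lT * w : ℤ) : ℝ)| ≤ 3 * 2 ^ k') :
    (c.VF lT (5 * lT + 2) N).mem (c.q 1) ((c.Q : ℤ) ^ lT * w) := by
  have hq5 := h.q_pos (5 * lT + 5)
  have hN0 : 0 ≤ N := by
    by_contra hc
    push Not at hc
    have : (0 : ℝ) < 2 ^ k' := by positivity
    nlinarith
  refine ⟨w, rfl, ?_, ?_⟩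
  · rw [← q_add, show 1 + (5 * lT + 2) = 5 * lT + 3 by ring]
    simpa using hw
  · rw [abs_of_nonneg hN0]
    have h1 : |(w : ℝ)| ≤ 3 * 2 ^ k' := by
      refine le_trans ?_ hd
      rw [Int.cast_mul, abs_mul, c.abs_Q_pow]
      exact le_mul_of_one_le_left (abs_nonneg _) (one_le_pow₀ h.one_le_Q)
    have h2 : c.q (5 * lT + 5) = c.q 2 * (c.q 1 * c.q (5 * lT + 2)) := by
      rw [← q_add, ← q_add]; congr 1; ring
    have h3 : 96 * c.q 2 ≤ 1 := by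
      have h4 := h.q_mul 1
      have h5 := h.q_anti (show 1 ≤ 2 by norm_num)
      have h6 := h.Q_big
      have h7 := h.q_pos 1
      rw [pow_one] at h4
      nlinarith
    have h8 : 0 ≤ N * (c.q 1 * c.q (5 * lT + 2)) :=
      mul_nonneg hN0 (mul_nonneg (c.q_nonneg _) (c.q_nonneg _))
    calc |(w : ℝ)| ≤ 3 * (32 * N * c.q (5 * lT + 5)) := by linarith
      _ = 96 * c.q 2 * (N * (c.q 1 * c.q (5 * lT + 2))) := by rw [h2]; ring
      _ ≤ 1 * (N * (c.q 1 * c.q (5 * lT + 2))) := mul_le_mul_of_nonneg_right h3 h8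
      _ = _ := by ring

/-- the domain of a new entry -/
noncomputable def DF (c : Cfg) (Θ' : Finset T) (p₁ : ℝ) (k lT : ℕ) : Filt ℤ where
  mem a v := ∃ u t, v = u + t ∧ InB Θ' (a * exp (-p₁)) u ∧ |(u : ℝ)| ≤ a * (exp (-p₁) * 2 ^ k) ∧
    (c.VF lT (5 * lT + 2) (Nk k)).mem a t
  zero a ha := ⟨0, 0, by simp, InB.zero _ (by positivity),
    by simp only [Int.cast_zero, abs_zero]; positivity, Filt.zero _ a ha⟩
  add := by
    rintro a b x y ⟨u, t, rfl, h1, h2, h3⟩ ⟨u', t', rfl, k1, k2, k3⟩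
    refine ⟨u + u', t + t', by ring, ?_, ?_, Filt.add _ _ _ _ _ h3 k3⟩
    · rw [add_mul]; exact h1.add k1
    · rw [Int.cast_add, add_mul]; exact (abs_add_le _ _).trans (add_le_add h2 k2)
  neg := by
    rintro a x ⟨u, t, rfl, h1, h2, h3⟩
    exact ⟨-u, -t, by ring, h1.neg, by rwa [Int.cast_neg, abs_neg], Filt.neg _ _ _ h3⟩
  mono := by
    rintro a b x hab ⟨u, t, rfl, h1, h2, h3⟩
    exact ⟨u, t, rfl, h1.mono subset_rfl (mul_le_mul_of_nonneg_right hab (exp_pos _).le),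
      h2.trans (mul_le_mul_of_nonneg_right hab (by positivity)), Filt.mono _ _ _ _ hab h3⟩

/-- a representation of `v` and the attached frequency -/
def Rp (c : Cfg) (i : Fin 3) (A : Finset ℤ) (lT k : ℕ) (b v : ℤ) (F : ℤ → T) : Prop :=
  ∃ a₁ ∈ A, ∃ a₂ ∈ A, ∃ a₃ ∈ A, ∃ a₄ ∈ A, ∃ t, c.V lT (Nk k) t ∧ v = a₁ + t + a₂ - a₃ - a₄ ∧
    ∀ z, F z = c.fr i (a₁ + t - b) z + c.fr i (a₂ - b) z - c.fr i (a₃ - b) z - c.fr i (a₄ - b) z

section Entry

variable {i : Fin 3} {l k : ℕ} {p₀ : ℝ} {A : Finset ℤ} {Θ' : Finset T} {b : ℤ}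

lemma Rp.add (h : c.OK P) (hr : Raw c i l k p₀ A Θ') (hb : c.Zl (2 * l + 5) (Nk k) b)
    {v v' z : ℤ} {F F' F'' : ℤ → T} (h1 : Rp c i A (c.nxt l - 1) k b v F)
    (h2 : Rp c i A (c.nxt l - 1) k b v' F') (h3 : Rp c i A (c.nxt l - 1) k b (v + v') F'')
    (hz : c.V (4 * l + 12) (Nk k) z) : ‖F'' z - F z - F' z‖ ≤ c.q 1 := by
  obtain ⟨a₁, ha₁, a₂, ha₂, a₃, ha₃, a₄, ha₄, t, ht, e1, f1⟩ := h1
  obtain ⟨b₁, hb₁, b₂, hb₂, b₃, hb₃, b₄, hb₄, t', ht', e2, f2⟩ := h2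
  obtain ⟨c₁, hc₁, c₂, hc₂, c₃, hc₃, c₄, hc₄, t'', ht'', e3, f3⟩ := h3
  have h0 : c.V (c.nxt l - 1) (Nk k) 0 := h.VV_zero _ _ (Nat.cast_nonneg _)
  have := hr.frei b ![c₁, c₂, a₃, a₄, b₃, b₄] ![a₁, a₂, b₁, b₂, c₃, c₄] ![t'', 0, 0, 0, 0, 0]
    ![t, 0, t', 0, 0, 0] z hb (fun m => by fin_cases m <;> simp [*])
    (by simp only [Fin.sum_univ_six]; simp; linarith) hz
  simp only [Fin.sum_univ_six] at this
  simp at this
  rw [f1, f2, f3]
  refine le_trans (le_of_eq ?_) this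
  congr 1
  abel

lemma Rp.graph (h : c.OK P) (hr : Raw c i l k p₀ A Θ') (hb : c.Zl (2 * l + 5) (Nk k) b)
    {a a' s s' z : ℤ} {F : ℤ → T} (ha : a ∈ A) (ha' : a' ∈ A) (hs : c.V (c.nxt l - 1) (Nk k) s)
    (hs' : c.V (c.nxt l - 1) (Nk k) s')
    (h1 : Rp c i A (c.nxt l - 1) k b (a + s - b - (a' + s' - b)) F)
    (hz : c.V (4 * l + 12) (Nk k) z) :
    ‖c.fr i (a + s - b) z - c.fr i (a' + s' - b) z - F z‖ ≤ c.q 1 := by
  obtain ⟨a₁, ha₁, a₂, ha₂, a₃, ha₃, a₄, ha₄, t, ht, e1, f1⟩ := h1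
  have h0 : c.V (c.nxt l - 1) (Nk k) 0 := h.VV_zero _ _ (Nat.cast_nonneg _)
  have := hr.frei b ![a, a₃, a₄, a, a, a] ![a', a₁, a₂, a, a, a] ![s, 0, 0, 0, 0, 0]
    ![s', t, 0, 0, 0, 0] z hb (fun m => by fin_cases m <;> simp [*])
    (by simp only [Fin.sum_univ_six]; simp; linarith) hz
  simp only [Fin.sum_univ_six] at this
  simp at this
  rw [f1]
  refine le_trans (le_of_eq ?_) this
  congr 1
  abel

lemma nxt_ge (c : Cfg) (l : ℕ) : 6 * l + 22 ≤ c.nxt l := by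
  unfold nxt
  nlinarith [Nat.zero_le ((2 * l + 7) * c.Θ.card)]

/-- the entry built from a raw entry -/
lemma new_entry {p₁ p₃ : ℝ} (h : c.OK p₃) (hr : Raw c i l k p₀ A Θ') (hp : p₀ ≤ p₁)
    (hp₁ : 0 ≤ p₁) (hp₃ : p₁ ≤ p₃) (hb : c.Zl (2 * l + 5) (Nk k) b) {k' j' : ℕ}
    (hk : c.kb ≤ k) (hk' : (2 : ℝ) ^ k' ≤ 2 ^ k * c.q (5 * c.nxt l)) (lab : ℤ → ℕ)
    (hlab : ∀ x y, lab x = lab y → InB Θ' (exp (-p₃) * exp (-p₁)) (x - y)) :
    ∃ E : Entry, ∀ (Y : ℤ → Prop) (prt : ℤ → ℕ),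
      (∀ y, Y y → XX c (c.nxt l - 1) (fun a => a + b ∈ A ∧ Ext k' j' a ∧ lab a = prt y) 1 y) →
      c.EntryOK E i Y prt (c.nxt l) k' j' p₁ p₃ := by
  have hn := nxt_ge c l
  set lT := c.nxt l - 1 with hlT
  have hlT' : c.nxt l = lT + 1 := by omega
  have hN : (32 : ℝ) * Nk k = 2 ^ k := by exact_mod_cast h.Nk_eq hk
  have hN0 : (0 : ℝ) ≤ Nk k := Nat.cast_nonneg _
  have h2k : (0 : ℝ) < 2 ^ k := by positivity
  have hρ : exp (-p₁) ≤ exp (-p₀) := exp_le_exp.2 (by linarith)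
  have hP := h.two_le
  -- the size of `q 1`
  have hq1 : 10 ^ 6 * c.q 1 ≤ exp (-p₃) * exp (-p₁) := by
    have h1 := h.Q_ge'
    have h2 := h.q_mul 1
    have h3 := h.q_pos 1
    rw [pow_one] at h2
    have h4 : p₃ + p₁ ≤ p₃ ^ 4 := by nlinarith [sq_nonneg (p₃ ^ 2 - 2 * p₃), sq_nonneg p₃]
    have h5 : exp (-p₃ ^ 4) ≤ exp (-p₃) * exp (-p₁) := by
      rw [← exp_add]; exact exp_le_exp.2 (by linarith)
    have h6 : exp (p₃ ^ 4) * exp (-p₃ ^ 4) = 1 := by rw [← exp_add]; simp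
    have h7 := exp_pos (-p₃ ^ 4)
    have h8 : 10 ^ 6 * exp (p₃ ^ 4) * c.q 1 ≤ 1 := by nlinarith
    refine le_trans ?_ h5
    calc 10 ^ 6 * c.q 1 = 10 ^ 6 * exp (p₃ ^ 4) * c.q 1 * exp (-p₃ ^ 4) := by
          rw [show 10 ^ 6 * exp (p₃ ^ 4) * c.q 1 * exp (-p₃ ^ 4) =
            10 ^ 6 * c.q 1 * (exp (p₃ ^ 4) * exp (-p₃ ^ 4)) by ring, h6, mul_one]
      _ ≤ 1 * exp (-p₃ ^ 4) := mul_le_mul_of_nonneg_right h8 h7.le
      _ = _ := one_mul _
  have he1 : exp (-p₁) ≤ 1 := exp_le_one_iff.2 (by linarith)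
  have he3 : exp (-p₃) ≤ 1 := exp_le_one_iff.2 (by linarith)
  have he1' := exp_pos (-p₁)
  have he3' := exp_pos (-p₃)
  have hq1p := h.q_pos 1
  have hq5 : c.q (5 * c.nxt l) ≤ c.q 1 := h.q_anti (by omega)
  have hkk : (2 : ℝ) ^ k' ≤ 2 ^ k * c.q 1 := hk'.trans (mul_le_mul_of_nonneg_left hq5 h2k.le)
  have hkN : (2 : ℝ) ^ k' ≤ Nk k := by
    have : exp (-p₃) * exp (-p₁) ≤ 1 := mul_le_one₀ he3 he1'.le he1
    nlinarith
  have hex : ∀ v, ∃ F : ℤ → T, (DF c Θ' p₁ k lT).mem 1 v → Rp c i A lT k b v F := by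
    intro v
    by_cases hv : (DF c Θ' p₁ k lT).mem 1 v
    · obtain ⟨u, t, rfl, h1, h2, h3⟩ := hv
      rw [one_mul] at h1 h2
      obtain ⟨a₁, k₁, a₂, k₂, a₃, k₃, a₄, k₄, rfl⟩ := hr.bog u (h1.mono subset_rfl hρ)
        (h2.trans (mul_le_mul_of_nonneg_right hρ h2k.le))
      exact ⟨_, fun _ => ⟨a₁, k₁, a₂, k₂, a₃, k₃, a₄, k₄, t, (c.VF_one _ _ hN0 t).1 h3, by ring,
        fun _ => rfl⟩⟩
    · exact ⟨0, fun h => absurd h hv⟩
  choose bt hbt using hex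
  have hz' : ∀ z, c.V (c.nxt l) (2 ^ k') z → c.V (4 * l + 12) (Nk k) z := fun z hz =>
    h.V_mono hz (by omega) hkN
  have hdec : ∀ (pi0 : ℕ) (y : ℤ), Ext k' j' y →
      XX c lT (fun a => a + b ∈ A ∧ Ext k' j' a ∧ lab a = pi0) 1 y →
      ∃ a s, a + b ∈ A ∧ Ext k' j' a ∧ lab a = pi0 ∧ y = a + s ∧
        (c.VF lT (5 * lT + 2) (Nk k)).mem (c.q 1) s := by
    rintro pi0 y hy ⟨a, w, ⟨h1, h2, h3⟩, h4, h5⟩
    refine ⟨a, _, h1, h2, h3, h4, offset_mem h (k' := k') ?_ h5 ?_⟩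
    · rw [hN, show 5 * lT + 5 = 5 * c.nxt l by omega]; exact hk'
    · have := ext_dist h2 hy
      rwa [h4, add_sub_cancel_left] at this
  have hq11 : c.q 1 ≤ 1 := by
    have : exp (-p₃) * exp (-p₁) ≤ 1 := mul_le_one₀ he3 he1'.le he1
    linarith
  refine ⟨⟨DF c Θ' p₁ k lT, bt, Θ'⟩, fun Y prt hY => ⟨hr.rank.trans hp, ?_, ?_, ?_, ?_⟩⟩
  · intro u u' z hu hu' hz
    have huu := Filt.add _ _ _ _ _ hu hu'
    rw [add_halves] at huu
    exact Rp.add h hr hb (hbt u (Filt.mono _ _ _ _ (by norm_num) hu))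
      (hbt u' (Filt.mono _ _ _ _ (by norm_num) hu')) (hbt _ huu) (hz' z hz)
  · intro y y' z hy hy' hYy hYy' hd hz
    obtain ⟨a, s, h1, -, -, rfl, h5⟩ := hdec _ y hy (hY y hYy)
    obtain ⟨a', s', k1, -, -, rfl, k5⟩ := hdec _ y' hy' (hY y' hYy')
    have e1 : a + s = a + b + s - b := by ring
    have e2 : a' + s' = a' + b + s' - b := by ring
    have h6 := hbt _ hd
    show ‖c.fr i (a + s) z - c.fr i (a' + s') z - bt (a + s - (a' + s')) z‖ ≤ c.q 1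
    generalize bt (a + s - (a' + s')) = F at h6 ⊢
    rw [e1, e2] at h6 ⊢
    exact Rp.graph h hr hb h1 k1 ((c.VF_one _ _ hN0 _).1 (Filt.mono _ _ _ _ hq11 h5))
      ((c.VF_one _ _ hN0 _).1 (Filt.mono _ _ _ _ hq11 k5)) h6 (hz' z hz)
  · intro a u ha h1 h2
    refine ⟨u, 0, by simp, h1, h2.trans (mul_le_mul_of_nonneg_left ?_ ha), Filt.zero _ a ha⟩
    have h3 : (c.Q : ℝ) ^ 1 * c.q (5 * c.nxt l) ≤ c.q 1 := h.pow_mul_q (by omega)
    rw [pow_one] at h3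
    have h4 : (0 : ℝ) ≤ c.Q := Nat.cast_nonneg _
    have h5 : c.q 1 ≤ exp (-p₁) := by nlinarith
    calc (c.Q : ℝ) * 2 ^ k' ≤ c.Q * (2 ^ k * c.q (5 * c.nxt l)) := mul_le_mul_of_nonneg_left hk' h4
      _ = c.Q * c.q (5 * c.nxt l) * 2 ^ k := by ring
      _ ≤ exp (-p₁) * 2 ^ k := mul_le_mul_of_nonneg_right (h3.trans h5) h2k.le
  · intro y y' hy hy' hYy hYy' hp'
    obtain ⟨a, s, -, h2, h3, rfl, h5⟩ := hdec _ y hy (hY y hYy)
    obtain ⟨a', s', -, k2, k3, rfl, k5⟩ := hdec _ y' hy' (hY y' hYy')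
    refine ⟨a - a', s + -s', by ring, hlab a a' (by rw [h3, k3, hp']), ?_, ?_⟩
    · refine (ext_dist k2 h2).trans ?_
      rw [← mul_assoc]
      nlinarith
    · refine Filt.mono _ _ _ _ ?_ (Filt.add _ _ _ _ _ h5 (Filt.neg _ _ _ k5))
      have : exp (-p₃) * exp (-p₁) ≤ exp (-p₃) := mul_le_of_le_one_right he3'.le he1
      linarith

end Entry

/-- old entries stay valid on a deeper node -/
lemma entry_mono (h : c.OK P) {E : Entry} {i : Fin 3} {Y Y' : ℤ → Prop} {prt prt' : ℤ → ℕ}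
    {l l' k j k' j' : ℕ} {p₁ p₃ : ℝ} (hE : c.EntryOK E i Y prt l k j p₁ p₃) (hl : l ≤ l')
    (hk : k' ≤ k) (hj : j' / 2 ^ (k - k') = j) (hY : ∀ y, Y' y → Y y ∧ prt' y = prt y) :
    c.EntryOK E i Y' prt' l' k' j' p₁ p₃ := by
  have h2 : (2 : ℝ) ^ k' ≤ 2 ^ k := pow_le_pow_right₀ one_le_two hk
  refine ⟨hE.rank, fun u u' z hu hu' hz => hE.e1 u u' z hu hu' (h.V_mono hz hl h2),
    fun y y' z hy hy' hYy hYy' hd hz => hE.e2 y y' z (Ext_sub hk hj hy) (Ext_sub hk hj hy')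
      (hY y hYy).1 (hY y' hYy').1 hd (h.V_mono hz hl h2),
    fun a u ha h1 h3 => hE.e3 a u ha h1 (h3.trans ?_),
    fun y y' hy hy' hYy hYy' hp => hE.e5 y y' (Ext_sub hk hj hy) (Ext_sub hk hj hy')
      (hY y hYy).1 (hY y' hYy').1 (by rw [← (hY y hYy).2, ← (hY y' hYy').2, hp])⟩
  exact mul_le_mul_of_nonneg_left (mul_le_mul_of_nonneg_left h2 (Nat.cast_nonneg _)) ha

end Upd

end Pool.Agent.Tri
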